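import Pool.Agent.Helper84.CH.LG1
import Pool.Agent.Helper84.SPQ.D1
import Pool.Agent.Helper84.SPQ.D3

/-!
# Project CH: groups of rank at least `r` with a factor `Sp(m + 1, 1)` (definition)

`RankN G m r`: as `RankT` (`SPQ/D0.lean`); the last element `a (r - 1)` is the image of the boost `aM m τ` of `Sp(m + 1, 1)`, and also the image of an element of `Sp(2, 1)`, under continuous homomorphisms which commute with the other `a i`.
-/

set_option autoImplicit false

open Filter Topology Matrix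

namespace Pool.Agent.Helper84.CH

open Pool.Agent.Helper84.SPQ Pool.Agent.Helper90.RK

/-- Groups of rank at least `r` with `Sp(m + 1, 1)` in the last place. -/
def RankN (G : Type) [Group G] [TopologicalSpace G] (m r : ℕ) : Prop :=
  ∃ (a u w : Fin r → G) (φ : SpM m →* G) (φ' : Sp21 →* G) (g0 : Sp21) (τ : ℝ), (∀ i j, a i * a j = a j * a i) ∧
    (∀ i : Fin r, (i : ℕ) = 0 → Tendsto (fun m : ℕ => a i ^ m) atTop (cocompact G)) ∧
    (∀ i : Fin r, (i : ℕ) ≠ 0 → (∀ j < i, a j * u i = u i * a j ∧ a j * w i = w i * a j) ∧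
      Tendsto (fun m : ℕ => (a i ^ m)⁻¹ * u i * a i ^ m) atTop (𝓝 1) ∧
      Tendsto (fun m : ℕ => a i ^ m * w i * (a i ^ m)⁻¹) atTop (𝓝 1) ∧
      DiscreteTopology (Subgroup.closure {u i, w i}) ∧ NonAm (Subgroup.closure {u i, w i})) ∧
    Continuous φ ∧ Continuous φ' ∧ 0 < τ ∧ (∀ i : Fin r, (i : ℕ) + 1 = r → a i = φ (aM m τ) ∧ a i = φ' g0) ∧
    ∀ i : Fin r, (i : ℕ) + 1 < r → (∀ x, a i * φ x = φ x * a i) ∧ ∀ x, a i * φ' x = φ' x * a i

theorem RankN.rankT {G : Type} [Group G] [TopologicalSpace G] {m r : ℕ} (h : RankN G m r) : RankT G r := by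
  obtain ⟨a, u, w, φ, φ', g0, τ, h1, h2, h3, h4, h5, h6, h7, h8⟩ := h
  exact ⟨a, u, w, φ', g0, h1, h2, h3, h5, fun i hi => (h7 i hi).2, fun i hi => (h8 i hi).2⟩

end Pool.Agent.Helper84.CH
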