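import Pool.Agent.Helper84.CH.G0

/-!
# Project CH, block G1: embeddings with formulas

`exists_theta_val`: this is `exists_theta` in `SPQ/D2.lean` with the additional information on the value at `d2 = diag(2, 1/2)` (`SPQ/D1.lean`). PROOF. Copy `SPQ/D2.lean` (complete proof; the auxiliary lemmas are private there): the matrix of `θ A` is `th38 a b c d`, for `a = 2`, `b = c = 0`, `d = 1/2` its entries are `qc38 (5/4) 0` on the diagonal, `qc38 (3/4) 0` off the diagonal.
`blkEmb`: `g ↦ (fromBlocks g 0 0 1).submatrix E.symm E.symm`. PROOF. As `prodEmb` and `reEmb` in `SPQ/D3.lean` (`prp_of36`, `hom_of36`, copy them). For `J2 = Jm e2`: `J2 = (Jm (fun z => e2 (E z))).submatrix E.symm E.symm`, and `Jm (fun z => e2 (E z)) = fromBlocks (Jm e1) 0 0 (Jm fun x => e2 (E (inr x)))`; `(fromBlocks g 0 0 1)ᴴ * fromBlocks J1 0 0 J' * fromBlocks g 0 0 1 = fromBlocks (gᴴ J1 g) 0 0 J'`.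
Properness: the entries of `g` are entries of the image (`isCompact_bdd`).
-/

set_option autoImplicit false

open Filter Topology Matrix

namespace Pool.Agent.Helper84.CH

open Pool.Agent.Helper84.SPQ

/-- the quaternion `x + y i` -/
private noncomputable def qcg38 (x y : ℝ) : Hq := ⟨x, y, 0, 0⟩

private noncomputable def qig38 : Hq := ⟨0, 1, 0, 0⟩

private noncomputable def qog38 : Hq := ⟨1, 0, 0, 0⟩

private theorem qc_eqg38 (x y : ℝ) : qcg38 x y = x • qog38 + y • qig38 := by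
  ext <;> simp [qcg38, qig38, qog38]

private theorem qc_contg38 {X : Type} [TopologicalSpace X] {f g : X → ℝ} (hf : Continuous f)
    (hg : Continuous g) : Continuous fun t => qcg38 (f t) (g t) := by
  simp only [qc_eqg38]
  exact (hf.smul continuous_const).add (hg.smul continuous_const)

private theorem qc_normg38 (x y : ℝ) : ‖qcg38 x y‖ ^ 2 = x ^ 2 + y ^ 2 := by
  rw [pow_two, ← Quaternion.normSq_eq_norm_mul_self, Quaternion.normSq_def']
  simp [qcg38]

private theorem qc_reg38 (x y : ℝ) : |x| ≤ ‖qcg38 x y‖ := by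
  refine abs_le_of_sq_le_sq ?_ (norm_nonneg _)
  rw [qc_normg38]
  nlinarith [sq_nonneg y]

private theorem qc_img38 (x y : ℝ) : |y| ≤ ‖qcg38 x y‖ := by
  refine abs_le_of_sq_le_sq ?_ (norm_nonneg _)
  rw [qc_normg38]
  nlinarith [sq_nonneg x]

/-- the image of the matrix with the entries `a b c d` -/
private noncomputable def thg38 (a b c d : ℝ) : MH (Unit ⊕ Unit) := Matrix.of fun x y =>
  match x, y with
  | Sum.inl _, Sum.inl _ => qcg38 ((a + d) / 2) ((b - c) / 2)
  | Sum.inl _, Sum.inr _ => qcg38 ((a - d) / 2) (-(b + c) / 2)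
  | Sum.inr _, Sum.inl _ => qcg38 ((a - d) / 2) ((b + c) / 2)
  | Sum.inr _, Sum.inr _ => qcg38 ((a + d) / 2) (-(b - c) / 2)

private theorem sgng38 : ∀ i, e11 i = 1 ∨ e11 i = -1 := by
  rintro (i | i)
  · exact Or.inr rfl
  · exact Or.inl rfl

private theorem qc_mulg38 (x y x' y' : ℝ) :
    qcg38 x y * qcg38 x' y' = qcg38 (x * x' - y * y') (x * y' + y * x') := by
  ext <;> simp [qcg38]

private theorem qc_addg38 (x y x' y' : ℝ) : qcg38 x y + qcg38 x' y' = qcg38 (x + x') (y + y') := by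
  ext <;> simp [qcg38]

private theorem qc_starg38 (x y : ℝ) : star (qcg38 x y) = qcg38 x (-y) := by
  ext <;> simp [qcg38]

private theorem qc_coeg38 (x : ℝ) : ((x : ℝ) : Hq) = qcg38 x 0 := by
  ext <;> simp [qcg38]

private theorem qc_zerog38 : (0 : Hq) = qcg38 0 0 := rfl

private theorem th_memg38 {a b c d : ℝ} (h : a * d - b * c = 1) :
    (thg38 a b c d)ᴴ * Jm e11 * thg38 a b c d = Jm e11 := by
  ext1 x y
  unfold Jm
  rw [Matrix.mul_apply, Fintype.sum_sum_type]
  simp only [Matrix.mul_diagonal, Matrix.conjTranspose_apply, Finset.univ_unique,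
    Finset.sum_singleton, Matrix.diagonal_apply]
  rcases x with x | x <;> rcases y with y | y <;>
    simp only [thg38, Matrix.of_apply, e11, Sum.elim_inl, Sum.elim_inr, qc_starg38, qc_coeg38, qc_mulg38,
      qc_addg38, reduceCtorEq, if_true, if_false] <;>
    first
      | (rw [qc_zerog38]; congr 1 <;> ring)
      | (congr 1
         · linear_combination h
         · ring)
      | (congr 1
         · linear_combination (-1 : ℝ) * h
         · ring)

private theorem th_mulg38 (a b c d a' b' c' d' : ℝ) : thg38 a b c d * thg38 a' b' c' d' =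
    thg38 (a * a' + b * c') (a * b' + b * d') (c * a' + d * c') (c * b' + d * d') := by
  ext1 x y
  rw [Matrix.mul_apply, Fintype.sum_sum_type]
  simp only [Finset.univ_unique, Finset.sum_singleton]
  rcases x with x | x <;> rcases y with y | y <;>
    simp only [thg38, Matrix.of_apply, qc_mulg38, qc_addg38] <;> congr 1 <;> ring

private noncomputable def tmg38 (A : SL2R) : MH (Unit ⊕ Unit) := thg38 (A.1 0 0) (A.1 0 1) (A.1 1 0) (A.1 1 1)

private theorem tm_memg38 (A : SL2R) : (tmg38 A)ᴴ * Jm e11 * tmg38 A = Jm e11 := by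
  refine th_memg38 ?_
  have h := A.2
  rwa [Matrix.det_fin_two] at h

private theorem tm_mulg38 (A B : SL2R) : tmg38 (A * B) = tmg38 A * tmg38 B := by
  unfold tmg38
  rw [th_mulg38]
  have h : ∀ x y, (A * B).1 x y = A.1 x 0 * B.1 0 y + A.1 x 1 * B.1 1 y := by
    intro x y
    change (A.1 * B.1) x y = _
    rw [Matrix.mul_apply, Fin.sum_univ_two]
  rw [h, h, h, h]

private theorem tm_contg38 : Continuous tmg38 := by
  have h : ∀ x y, Continuous fun A : SL2R => A.1 x y := fun x y => by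
    have h2 : Continuous fun A : SL2R => (A.1 : Matrix (Fin 2) (Fin 2) ℝ) := continuous_subtype_val
    exact h2.matrix_elem x y
  refine continuous_matrix fun x y => ?_
  rcases x with x | x <;> rcases y with y | y
  · exact qc_contg38 (((h 0 0).add (h 1 1)).div_const 2) (((h 0 1).sub (h 1 0)).div_const 2)
  · exact qc_contg38 (((h 0 0).sub (h 1 1)).div_const 2) (((h 0 1).add (h 1 0)).neg.div_const 2)
  · exact qc_contg38 (((h 0 0).sub (h 1 1)).div_const 2) (((h 0 1).add (h 1 0)).div_const 2)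
  · exact qc_contg38 (((h 0 0).add (h 1 1)).div_const 2) (((h 0 1).sub (h 1 0)).neg.div_const 2)

private theorem tm_bddg38 (A : SL2R) (M : ℝ) (hM : ∀ x y, ‖tmg38 A x y‖ ≤ M) (x y : Fin 2) :
    ‖A.1 x y‖ ≤ 2 * M := by
  have h1 : ‖qcg38 ((A.1 0 0 + A.1 1 1) / 2) ((A.1 0 1 - A.1 1 0) / 2)‖ ≤ M := hM (Sum.inl ()) (Sum.inl ())
  have h2 : ‖qcg38 ((A.1 0 0 - A.1 1 1) / 2) ((A.1 0 1 + A.1 1 0) / 2)‖ ≤ M := hM (Sum.inr ()) (Sum.inl ())
  have e1 := abs_le.1 ((qc_reg38 _ _).trans h1)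
  have e2 := abs_le.1 ((qc_img38 _ _).trans h1)
  have e3 := abs_le.1 ((qc_reg38 _ _).trans h2)
  have e4 := abs_le.1 ((qc_img38 _ _).trans h2)
  rw [Real.norm_eq_abs, abs_le]
  fin_cases x <;> fin_cases y <;> simp only [Fin.zero_eta, Fin.mk_one] <;> constructor <;> linarith

theorem exists_theta_val : ∃ θ : SL2R →* SpJ (Unit ⊕ Unit) e11, Prp θ ∧
    ∀ x y, (((θ d2 : SpJ (Unit ⊕ Unit) e11) : (MH (Unit ⊕ Unit))ˣ) : MH (Unit ⊕ Unit)) x y = (((if x = y then 5 / 4 else 3 / 4 : ℝ) : ℝ) : Hq) := by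
  choose f hf using fun A : SL2R => exists_of_mem sgng38 (tm_memg38 A)
  have hmul : ∀ A B : SL2R, f (A * B) = f A * f B := by
    intro A B
    apply spJ_ext
    rw [hf, tm_mulg38]
    change _ = ((f A : (MH (Unit ⊕ Unit))ˣ) : MH (Unit ⊕ Unit)) * ((f B : (MH (Unit ⊕ Unit))ˣ) : MH (Unit ⊕ Unit))
    rw [hf, hf]
  refine ⟨MonoidHom.mk' f hmul, ⟨?_, ?_⟩, ?_⟩
  · change Continuous f
    rw [(isClosedEmbedding_val sgng38).isInducing.continuous_iff]
    have : (fun g : SpJ (Unit ⊕ Unit) e11 => ((g : (MH (Unit ⊕ Unit))ˣ) : MH (Unit ⊕ Unit))) ∘ f = tmg38 :=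
      funext hf
    rw [this]
    exact tm_contg38
  · change Tendsto f (cocompact _) (cocompact _)
    refine (hasBasis_cocompact.tendsto_right_iff).2 fun K hK => ?_
    have hb : ∀ x y, ∃ M : ℝ, ∀ g ∈ K, ‖((g : (MH (Unit ⊕ Unit))ˣ) : MH (Unit ⊕ Unit)) x y‖ ≤ M := by
      intro x y
      have hc : Continuous fun g : SpJ (Unit ⊕ Unit) e11 =>
          ‖((g : (MH (Unit ⊕ Unit))ˣ) : MH (Unit ⊕ Unit)) x y‖ :=
        ((isClosedEmbedding_val sgng38).continuous.matrix_elem x y).norm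
      obtain ⟨M, hM⟩ := (hK.image hc).bddAbove
      exact ⟨M, fun g hg => hM ⟨g, hg, rfl⟩⟩
    choose M hM using hb
    obtain ⟨M', hM'⟩ : ∃ M' : ℝ, ∀ x y, M x y ≤ M' := by
      obtain ⟨M', h⟩ := (Set.finite_range fun p : (Unit ⊕ Unit) × (Unit ⊕ Unit) => M p.1 p.2).bddAbove
      exact ⟨M', fun x y => h ⟨(x, y), rfl⟩⟩
    have hS : IsCompact {A : SL2R | ∀ x y, ‖A.1 x y‖ ≤ 2 * M'} := by
      refine Pool.Agent.Helper96.FR.isCompact_SL ?_ (M := 2 * M') fun A hA => hA
      have h : ∀ x y, Continuous fun A : SL2R => ‖A.1 x y‖ := fun x y => by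
        have h2 : Continuous fun A : SL2R => (A.1 : Matrix (Fin 2) (Fin 2) ℝ) := continuous_subtype_val
        exact (h2.matrix_elem x y).norm
      have h3 : {A : SL2R | ∀ x y, ‖A.1 x y‖ ≤ 2 * M'} = ⋂ x, ⋂ y, {A : SL2R | ‖A.1 x y‖ ≤ 2 * M'} := by
        ext A
        simp
      rw [h3]
      exact isClosed_iInter fun x => isClosed_iInter fun y => isClosed_le (h x y) continuous_const
    refine Filter.mem_of_superset hS.compl_mem_cocompact fun A hA hAK => hA ?_
    refine tm_bddg38 A M' fun x y => ?_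
    rw [← hf]
    exact (hM x y _ hAK).trans (hM' x y)
  · intro x y
    have e : (((MonoidHom.mk' f hmul d2 : SpJ (Unit ⊕ Unit) e11) : (MH (Unit ⊕ Unit))ˣ) : MH (Unit ⊕ Unit)) =
        tmg38 d2 := hf d2
    rw [e]
    have e0 : (d2.1 : Matrix (Fin 2) (Fin 2) ℝ) = !![2, 0; 0, 1 / 2] := rfl
    have e1 : tmg38 d2 = thg38 2 0 0 (1 / 2) := by
      unfold tmg38
      rw [e0]
      rfl
    rw [e1]
    rcases x with x | x <;> rcases y with y | y <;>
      simp only [thg38, Matrix.of_apply, reduceCtorEq, if_true, if_false, qc_coeg38] <;>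
      congr 1 <;> norm_num

variable {n1 n2 k : Type} [Fintype n1] [DecidableEq n1] [Fintype n2] [DecidableEq n2] [Fintype k] [DecidableEq k]

private theorem prp_ofg38 {A : Type} [Group A] [TopologicalSpace A] {m : Type} [Fintype m] [DecidableEq m] {e : m → ℝ}
    (he : ∀ i, e i = 1 ∨ e i = -1) (f : A →* SpJ m e)
    (hc : Continuous fun a => (((f a : SpJ m e) : (MH m)ˣ) : MH m))
    (hb : ∀ R : ℝ, ∃ T : Set A, IsCompact T ∧ ∀ a, (∀ i j, ‖(((f a : SpJ m e) : (MH m)ˣ) : MH m) i j‖ ≤ R) → a ∈ T) :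
    Prp f := by
  refine ⟨(isClosedEmbedding_val he).isEmbedding.continuous_iff.2 hc, ?_⟩
  refine (hasBasis_cocompact.tendsto_iff hasBasis_cocompact).2 fun K hK => ?_
  have h1 : ∀ i j, ∃ C : ℝ, ∀ g ∈ K, ‖((g : (MH m)ˣ) : MH m) i j‖ ≤ C := by
    intro i j
    have hcont : Continuous fun g : SpJ m e => ‖((g : (MH m)ˣ) : MH m) i j‖ :=
      ((isClosedEmbedding_val he).continuous.matrix_elem i j).norm
    obtain ⟨C, hC⟩ := (hK.image hcont).bddAbove
    exact ⟨C, fun g hg => hC ⟨g, hg, rfl⟩⟩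
  choose C hC using h1
  obtain ⟨T, hT, hT2⟩ := hb (∑ i, ∑ j, |C i j|)
  refine ⟨T, hT, fun a ha hfa => ha (hT2 a fun i j => ?_)⟩
  refine (hC i j _ hfa).trans ((le_abs_self _).trans ?_)
  have h2 : |C i j| ≤ ∑ j, |C i j| := Finset.single_le_sum (f := fun j => |C i j|) (fun _ _ => abs_nonneg _) (Finset.mem_univ j)
  exact h2.trans (Finset.single_le_sum (f := fun i => ∑ j, |C i j|)
    (fun _ _ => Finset.sum_nonneg fun _ _ => abs_nonneg _) (Finset.mem_univ i))

private theorem hom_ofg38 {A : Type} [Group A] {m : Type} [Fintype m] [DecidableEq m] {e : m → ℝ}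
    (he : ∀ i, e i = 1 ∨ e i = -1) (F : A → MH m) (h1 : F 1 = 1) (hm : ∀ a b, F (a * b) = F a * F b)
    (hF : ∀ a, (F a)ᴴ * Jm e * F a = Jm e) :
    ∃ f : A →* SpJ m e, ∀ a, (((f a : SpJ m e) : (MH m)ˣ) : MH m) = F a := by
  choose f hf using fun a => exists_of_mem he (hF a)
  refine ⟨⟨⟨f, spJ_ext ?_⟩, fun a b => spJ_ext ?_⟩, hf⟩
  · rw [hf, h1]
    rfl
  · show (((f (a * b) : SpJ m e) : (MH m)ˣ) : MH m) = (((f a : SpJ m e) : (MH m)ˣ) : MH m) * (((f b : SpJ m e) : (MH m)ˣ) : MH m)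
    rw [hf, hf, hf, hm]

private theorem val_oneg38 {m : Type} [Fintype m] [DecidableEq m] {e : m → ℝ} :
    (((1 : SpJ m e) : (MH m)ˣ) : MH m) = 1 := rfl

private theorem val_mulg38 {m : Type} [Fintype m] [DecidableEq m] {e : m → ℝ} (g h : SpJ m e) :
    (((g * h : SpJ m e) : (MH m)ˣ) : MH m) = ((g : (MH m)ˣ) : MH m) * ((h : (MH m)ˣ) : MH m) := rfl

theorem blkEmb {e1 : n1 → ℝ} {e2 : n2 → ℝ} (h2 : ∀ i, e2 i = 1 ∨ e2 i = -1) (E : n1 ⊕ k ≃ n2) (h : ∀ i, e2 (E (Sum.inl i)) = e1 i) :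
    ∃ f : SpJ n1 e1 →* SpJ n2 e2, Prp f ∧ ∀ g, (((f g : SpJ n2 e2) : (MH n2)ˣ) : MH n2) =
      (fromBlocks ((g : (MH n1)ˣ) : MH n1) 0 0 (1 : MH k)).submatrix E.symm E.symm := by
  have h1 : ∀ i, e1 i = 1 ∨ e1 i = -1 := by
    intro i
    rw [← h]
    exact h2 _
  let e' : n1 ⊕ k → ℝ := fun z => e2 (E z)
  have hJ : Jm e2 = (Jm e').submatrix E.symm E.symm := by
    unfold Jm
    rw [submatrix_diagonal_equiv]
    congr 1
    funext i
    show _ = ((e2 (E (E.symm i)) : ℝ) : Hq)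
    rw [Equiv.apply_symm_apply]
  have hJ' : Jm e' = fromBlocks (Jm e1) 0 0 (Jm fun x => e2 (E (Sum.inr x))) := by
    unfold Jm
    rw [fromBlocks_diagonal]
    congr 1
    funext i
    rcases i with i | i
    · show ((e2 (E (Sum.inl i)) : ℝ) : Hq) = ((e1 i : ℝ) : Hq)
      rw [h]
    · rfl
  obtain ⟨f, hf⟩ := hom_ofg38 h2 (fun g : SpJ n1 e1 =>
      (fromBlocks ((g : (MH n1)ˣ) : MH n1) 0 0 (1 : MH k)).submatrix E.symm E.symm)
    (by
      simp only [val_oneg38, fromBlocks_one]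
      exact submatrix_one_equiv _)
    (by
      intro a b
      simp only [val_mulg38]
      rw [submatrix_mul_equiv, fromBlocks_multiply]
      simp only [Matrix.mul_zero, Matrix.zero_mul, add_zero, zero_add, Matrix.mul_one])
    (by
      intro a
      have a1 := mem_SpJ.1 a.2
      rw [hJ, hJ', conjTranspose_submatrix, submatrix_mul_equiv, submatrix_mul_equiv,
        fromBlocks_conjTranspose, fromBlocks_multiply, fromBlocks_multiply]
      simp only [conjTranspose_zero, conjTranspose_one, Matrix.mul_zero, Matrix.zero_mul, add_zero, zero_add,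
        Matrix.mul_one, Matrix.one_mul, a1])
  refine ⟨f, prp_ofg38 h2 f ?_ fun R => ?_, hf⟩
  · have e : (fun a => (((f a : SpJ n2 e2) : (MH n2)ˣ) : MH n2)) =
        fun g : SpJ n1 e1 => (fromBlocks ((g : (MH n1)ˣ) : MH n1) 0 0 (1 : MH k)).submatrix E.symm E.symm := funext hf
    rw [e]
    exact (Continuous.matrix_fromBlocks (isClosedEmbedding_val h1).continuous continuous_const
      continuous_const continuous_const).matrix_submatrix _ _
  · refine ⟨_, isCompact_bdd h1 R, fun a ha i j => ?_⟩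
    have := ha (E (Sum.inl i)) (E (Sum.inl j))
    rw [hf, submatrix_apply, Equiv.symm_apply_apply, Equiv.symm_apply_apply, fromBlocks_apply₁₁] at this
    exact this

end Pool.Agent.Helper84.CH
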