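import Pool.Agent.Helper84.CH.G1

/-!
# Project CH, block G2: `SL(2, ℝ)` and `Sp(2, 1)` in `Sp(m + 1, 1)`

`cosh (log 2) = 5/4`, `sinh (log 2) = 3/4` (`Real.cosh_log`, `Real.sinh_log` or `Real.cosh_eq`, `Real.exp_log`).
`exists_thetaM`. PROOF. `θ` of `exists_theta_val` (block G1) followed by `blkEmb` for `E : (Unit ⊕ Unit) ⊕ Fin m ≃ Fin (m + 1) ⊕ Unit`, `inl (inl ()) ↦ inl 0`, `inl (inr ()) ↦ inr ()`, `inr i ↦ inl i.succ` (signs: `e11 (inl ()) = -1`, `e11 (inr ()) = 1`). The matrix of the image of `d2` is `aMat m (log 2)` (`aM_coe` in `LG1.lean`, `spJ_ext` in `SPQ/C6a.lean`): compare the entries.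
`exists_iota`. PROOF. `blkEmb` for `E : (Fin 2 ⊕ Unit) ⊕ Fin (m - 1) ≃ Fin (m + 1) ⊕ Unit`, `inl (inl 0) ↦ inl 0`, `inl (inl 1) ↦ inl 1`, `inl (inr ()) ↦ inr ()`, `inr i ↦ inl (i + 2)`. `g0`: the element of `Sp21` with the matrix `aMat 1 (log 2)` (the index type `Fin (1 + 1) ⊕ Unit` is `Fin 2 ⊕ Unit`, `eM 1 = e21`; use `aM 1 (log 2)`, or `exists_of_mem` in `SPQ/C6a.lean`). Write `m = k + 1` first. Compare the entries.
-/

set_option autoImplicit false

open Filter Topology Matrix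

namespace Pool.Agent.Helper84.CH

open Pool.Agent.Helper84.SPQ

private theorem cosh56 : Real.cosh (Real.log 2) = 5 / 4 := by
  rw [Real.cosh_log (by norm_num)]
  norm_num

private theorem sinh56 : Real.sinh (Real.log 2) = 3 / 4 := by
  rw [Real.sinh_log (by norm_num)]
  norm_num

/-- the positions of `Sp(1, 1)` -/
private def EA56 (m : ℕ) : (Unit ⊕ Unit) ⊕ Fin m ≃ Fin (m + 1) ⊕ Unit where
  toFun x := match x with
    | Sum.inl (Sum.inl _) => Sum.inl 0
    | Sum.inl (Sum.inr _) => Sum.inr ()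
    | Sum.inr i => Sum.inl i.succ
  invFun y := match y with
    | Sum.inl i => Fin.cases (motive := fun _ => (Unit ⊕ Unit) ⊕ Fin m) (Sum.inl (Sum.inl ())) (fun j => Sum.inr j) i
    | Sum.inr _ => Sum.inl (Sum.inr ())
  left_inv := by
    rintro ((x | x) | x) <;> rfl
  right_inv := by
    rintro (x | x)
    · refine Fin.cases rfl (fun j => rfl) x
    · rfl

private theorem EA56_zero (m : ℕ) : (EA56 m).symm (Sum.inl 0) = Sum.inl (Sum.inl ()) := rfl

private theorem EA56_succ (m : ℕ) (i : Fin m) : (EA56 m).symm (Sum.inl i.succ) = Sum.inr i := rfl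

private theorem EA56_inr (m : ℕ) (u : Unit) : (EA56 m).symm (Sum.inr u) = Sum.inl (Sum.inr ()) := rfl

theorem exists_thetaM (m : ℕ) : ∃ θ : SL2R →* SpM m, Prp θ ∧ θ d2 = aM m (Real.log 2) := by
  obtain ⟨θ, h1, h2⟩ := exists_theta_val
  obtain ⟨f, h3, h4⟩ := blkEmb (e1 := e11) (sgnM m) (EA56 m) (by
    rintro (x | x) <;> rfl)
  refine ⟨f.comp θ, h3.comp h1, ?_⟩
  apply spJ_ext
  have e : ((((f.comp θ) d2 : SpM m) : (MH (Fin (m + 1) ⊕ Unit))ˣ) : MH (Fin (m + 1) ⊕ Unit)) =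
      (fromBlocks (((θ d2 : SpJ (Unit ⊕ Unit) e11) : (MH (Unit ⊕ Unit))ˣ) : MH (Unit ⊕ Unit)) 0 0
        (1 : MH (Fin m))).submatrix (EA56 m).symm (EA56 m).symm := h4 (θ d2)
  rw [e]
  refine Eq.trans ?_ (aM_coe m (Real.log 2)).symm
  have hc := cosh56
  have hs := sinh56
  ext1 i j
  rw [submatrix_apply]
  unfold aMat
  rw [hc, hs]
  rcases i with i | i <;> rcases j with j | j
  · refine Fin.cases ?_ (fun i => ?_) i <;> refine Fin.cases ?_ (fun j => ?_) j
    · rw [EA56_zero, fromBlocks_apply₁₁, fromBlocks_apply₁₁, h2, if_pos rfl, diagonal_apply_eq, if_pos rfl]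
    · rw [EA56_zero, EA56_succ, fromBlocks_apply₁₂, fromBlocks_apply₁₁,
        diagonal_apply_ne _ (Fin.succ_ne_zero j).symm]
      rfl
    · rw [EA56_zero, EA56_succ, fromBlocks_apply₂₁, fromBlocks_apply₁₁,
        diagonal_apply_ne _ (Fin.succ_ne_zero i)]
      rfl
    · rw [EA56_succ, EA56_succ, fromBlocks_apply₂₂, fromBlocks_apply₁₁]
      by_cases hij : i = j
      · rw [hij, one_apply_eq, diagonal_apply_eq, if_neg (Fin.succ_ne_zero j)]
      · rw [one_apply_ne hij, diagonal_apply_ne]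
        intro h
        exact hij (Fin.succ_injective _ h)
  · refine Fin.cases ?_ (fun i => ?_) i
    · rw [EA56_zero, EA56_inr, fromBlocks_apply₁₁, fromBlocks_apply₁₂, h2, if_neg (by simp), of_apply, if_pos rfl]
    · rw [EA56_succ, EA56_inr, fromBlocks_apply₂₁, fromBlocks_apply₁₂, of_apply, if_neg (Fin.succ_ne_zero i)]
      rfl
  · refine Fin.cases ?_ (fun j => ?_) j
    · rw [EA56_zero, EA56_inr, fromBlocks_apply₁₁, fromBlocks_apply₂₁, h2, if_neg (by simp), of_apply, if_pos rfl]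
    · rw [EA56_succ, EA56_inr, fromBlocks_apply₁₂, fromBlocks_apply₂₁, of_apply, if_neg (Fin.succ_ne_zero j)]
      rfl
  · rw [EA56_inr, fromBlocks_apply₁₁, fromBlocks_apply₂₂, h2, if_pos rfl, of_apply]

/-- the positions of `Sp(2, 1)` -/
private def EB56 (k : ℕ) : (Fin 2 ⊕ Unit) ⊕ Fin k ≃ Fin (k + 1 + 1) ⊕ Unit where
  toFun x := match x with
    | Sum.inl (Sum.inl i) => Sum.inl (Fin.castLE (by omega) i)
    | Sum.inl (Sum.inr _) => Sum.inr ()
    | Sum.inr i => Sum.inl i.succ.succ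
  invFun y := match y with
    | Sum.inl i => Fin.cases (motive := fun _ => (Fin 2 ⊕ Unit) ⊕ Fin k) (Sum.inl (Sum.inl 0))
        (fun j => Fin.cases (motive := fun _ => (Fin 2 ⊕ Unit) ⊕ Fin k) (Sum.inl (Sum.inl 1)) (fun l => Sum.inr l) j) i
    | Sum.inr _ => Sum.inl (Sum.inr ())
  left_inv := by
    rintro ((x | x) | x)
    · fin_cases x <;> rfl
    · rfl
    · rfl
  right_inv := by
    rintro (x | x)
    · refine Fin.cases rfl (fun j => ?_) x
      refine Fin.cases rfl (fun l => rfl) j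
    · rfl

private theorem EB56_zero (k : ℕ) : (EB56 k).symm (Sum.inl 0) = Sum.inl (Sum.inl 0) := rfl

private theorem EB56_one (k : ℕ) : (EB56 k).symm (Sum.inl (Fin.succ 0)) = Sum.inl (Sum.inl 1) := rfl

private theorem EB56_succ (k : ℕ) (i : Fin k) : (EB56 k).symm (Sum.inl i.succ.succ) = Sum.inr i := rfl

private theorem EB56_inr (k : ℕ) (u : Unit) : (EB56 k).symm (Sum.inr u) = Sum.inl (Sum.inr ()) := rfl

private theorem g056 : ∃ g0 : Sp21, ∀ x y, (((g0 : Sp21) : (MH (Fin 2 ⊕ Unit))ˣ) : MH (Fin 2 ⊕ Unit)) x y =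
    aMat 1 (Real.log 2) x y :=
  ⟨aM 1 (Real.log 2), fun x y => congrFun (congrFun (aM_coe 1 (Real.log 2)) x) y⟩

theorem exists_iota {m : ℕ} (hm : 1 ≤ m) : ∃ (ι : Sp21 →* SpM m) (g0 : Sp21), Continuous ι ∧ ι g0 = aM m (Real.log 2) := by
  obtain ⟨k, rfl⟩ : ∃ k, m = k + 1 := ⟨m - 1, by omega⟩
  obtain ⟨g0, h2⟩ := g056
  obtain ⟨f, h3, h4⟩ := blkEmb (e1 := e21) (sgnM (k + 1)) (EB56 k) (by
    rintro (x | x) <;> rfl)
  refine ⟨f, g0, h3.1, ?_⟩
  apply spJ_ext
  rw [h4]
  refine Eq.trans ?_ (aM_coe (k + 1) (Real.log 2)).symm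
  ext1 i j
  rw [submatrix_apply]
  have h01 : (0 : Fin (k + 1 + 1)) ≠ Fin.succ 0 := (Fin.succ_ne_zero 0).symm
  have h10 : (Fin.succ 0 : Fin (k + 1 + 1)) ≠ 0 := Fin.succ_ne_zero 0
  have q01 : (0 : Fin (1 + 1)) ≠ 1 := by decide
  have q10 : (1 : Fin (1 + 1)) ≠ 0 := by decide
  rcases i with i | i <;> rcases j with j | j
  · refine Fin.cases ?_ (fun i => ?_) i <;> refine Fin.cases ?_ (fun j => ?_) j
    · rw [EB56_zero, fromBlocks_apply₁₁, h2]
      unfold aMat
      rw [fromBlocks_apply₁₁, fromBlocks_apply₁₁, diagonal_apply_eq, diagonal_apply_eq, if_pos rfl, if_pos rfl]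
    · refine Fin.cases ?_ (fun j => ?_) j
      · rw [EB56_zero, EB56_one, fromBlocks_apply₁₁, h2]
        unfold aMat
        rw [fromBlocks_apply₁₁, fromBlocks_apply₁₁, diagonal_apply_ne _ h01, diagonal_apply_ne _ q01]
      · rw [EB56_zero, EB56_succ, fromBlocks_apply₁₂]
        unfold aMat
        rw [fromBlocks_apply₁₁, diagonal_apply_ne _ (Fin.succ_ne_zero _).symm]
        rfl
    · refine Fin.cases ?_ (fun i => ?_) i
      · rw [EB56_zero, EB56_one, fromBlocks_apply₁₁, h2]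
        unfold aMat
        rw [fromBlocks_apply₁₁, fromBlocks_apply₁₁, diagonal_apply_ne _ h10, diagonal_apply_ne _ q10]
      · rw [EB56_zero, EB56_succ, fromBlocks_apply₂₁]
        unfold aMat
        rw [fromBlocks_apply₁₁, diagonal_apply_ne _ (Fin.succ_ne_zero _)]
        rfl
    · refine Fin.cases ?_ (fun i => ?_) i <;> refine Fin.cases ?_ (fun j => ?_) j
      · rw [EB56_one, fromBlocks_apply₁₁, h2]
        unfold aMat
        rw [fromBlocks_apply₁₁, fromBlocks_apply₁₁, diagonal_apply_eq, diagonal_apply_eq, if_neg h10, if_neg q10]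
      · rw [EB56_one, EB56_succ, fromBlocks_apply₁₂]
        unfold aMat
        rw [fromBlocks_apply₁₁, diagonal_apply_ne]
        · rfl
        · intro h
          exact (Fin.succ_ne_zero j).symm (Fin.succ_injective _ h)
      · rw [EB56_one, EB56_succ, fromBlocks_apply₂₁]
        unfold aMat
        rw [fromBlocks_apply₁₁, diagonal_apply_ne]
        · rfl
        · intro h
          exact (Fin.succ_ne_zero i) (Fin.succ_injective _ h)
      · rw [EB56_succ, EB56_succ, fromBlocks_apply₂₂]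
        unfold aMat
        rw [fromBlocks_apply₁₁]
        by_cases hij : i = j
        · rw [hij, one_apply_eq, diagonal_apply_eq, if_neg (Fin.succ_ne_zero _)]
        · rw [one_apply_ne hij, diagonal_apply_ne]
          intro h
          exact hij (Fin.succ_injective _ (Fin.succ_injective _ h))
  · refine Fin.cases ?_ (fun i => ?_) i
    · rw [EB56_zero, EB56_inr, fromBlocks_apply₁₁, h2]
      unfold aMat
      rw [fromBlocks_apply₁₂, fromBlocks_apply₁₂, of_apply, of_apply, if_pos rfl, if_pos rfl]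
    · refine Fin.cases ?_ (fun i => ?_) i
      · rw [EB56_one, EB56_inr, fromBlocks_apply₁₁, h2]
        unfold aMat
        rw [fromBlocks_apply₁₂, fromBlocks_apply₁₂, of_apply, of_apply, if_neg h10, if_neg q10]
      · rw [EB56_succ, EB56_inr, fromBlocks_apply₂₁]
        unfold aMat
        rw [fromBlocks_apply₁₂, of_apply, if_neg (Fin.succ_ne_zero _)]
        rfl
  · refine Fin.cases ?_ (fun j => ?_) j
    · rw [EB56_zero, EB56_inr, fromBlocks_apply₁₁, h2]
      unfold aMat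
      rw [fromBlocks_apply₂₁, fromBlocks_apply₂₁, of_apply, of_apply, if_pos rfl, if_pos rfl]
    · refine Fin.cases ?_ (fun j => ?_) j
      · rw [EB56_one, EB56_inr, fromBlocks_apply₁₁, h2]
        unfold aMat
        rw [fromBlocks_apply₂₁, fromBlocks_apply₂₁, of_apply, of_apply, if_neg h10, if_neg q10]
      · rw [EB56_succ, EB56_inr, fromBlocks_apply₁₂]
        unfold aMat
        rw [fromBlocks_apply₂₁, of_apply, if_neg (Fin.succ_ne_zero _)]
        rfl
  · rw [EB56_inr, fromBlocks_apply₁₁, h2]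
    unfold aMat
    rw [fromBlocks_apply₂₂, fromBlocks_apply₂₂, of_apply]

end Pool.Agent.Helper84.CH
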