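import Pool.Agent.Helper84.CH.G2
import Pool.Agent.Helper84.SPQ.D4

/-!
# Project CH, block G3: proper homomorphisms from `SL(2, ℝ)^(r - 1) × Sp(m + 1, 1)`

`rankN_of_hom`. PROOF. As `rankT_of_hom` in `SPQ/D4.lean` (complete proof there, copy it), with `θ'` from `exists_thetaM m` (block G2): `φ = ψ.comp (MonoidHom.inr _ _)`, `φ' = φ.comp ι` with `ι`, `g0` from `exists_iota`, `τ = Real.log 2 > 0`; `a` of the last index is `ψ (1, θ' d2) = φ (aM m (log 2)) = φ' g0`.
-/

set_option autoImplicit false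

open Filter Topology Matrix

namespace Pool.Agent.Helper84.CH

open Pool.Agent.Helper84.SPQ Pool.Agent.Helper96.FR
open Pool.Agent.Helper90.RK (NonAm)

private theorem prp_of_left24 {A B : Type} [Group A] [TopologicalSpace A] [Group B] [TopologicalSpace B] (f : A →* B)
    (hf : Continuous f) (g : B → A) (hg : Continuous g) (h : ∀ x, g (f x) = x) : Prp f := by
  refine ⟨hf, ?_⟩
  rw [(hasBasis_cocompact).tendsto_right_iff]
  intro K hK
  filter_upwards [(hK.image hg).compl_mem_cocompact] with x hx hxK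
  exact hx ⟨f x, hxK, h x⟩

theorem rankN_of_hom {G : Type} [Group G] [TopologicalSpace G] [IsTopologicalGroup G] [LocallyCompactSpace G] [T2Space G]
    {m r : ℕ} (hm : 1 ≤ m) (hr : 2 ≤ r) (ψ : (Fin (r - 1) → SL2R) × SpM m →* G) (hψ : Prp ψ) : RankN G m r := by
  obtain ⟨θ', hθ', hd2⟩ := exists_thetaM m
  obtain ⟨ι, g0, hι, hg0⟩ := exists_iota hm
  have hin : Prp (MonoidHom.inr (Fin (r - 1) → SL2R) (SpM m)) :=
    prp_of_left24 _ (continuous_const.prodMk continuous_id) Prod.snd continuous_snd fun _ => rfl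
  have hsg : ∀ i : Fin (r - 1), Prp (MonoidHom.mulSingle (fun _ : Fin (r - 1) => SL2R) i) := fun i =>
    prp_of_left24 _ (continuous_pi fun j => by
      show Continuous fun x : SL2R => (Pi.mulSingle i x : Fin (r - 1) → SL2R) j
      by_cases hj : j = i
      · subst hj
        simp only [Pi.mulSingle_eq_same]
        exact continuous_id'
      · simpa [Pi.mulSingle_eq_of_ne hj] using continuous_const) (fun x => x i) (continuous_apply i) fun x => by simp
  let J : Fin r → (SL2R →* G) := fun i => if h : (i : ℕ) < r - 1 then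
    ψ.comp ((MonoidHom.inl _ _).comp (MonoidHom.mulSingle (fun _ : Fin (r - 1) => SL2R) ⟨i, h⟩)) else
    ψ.comp ((MonoidHom.inr _ _).comp θ')
  have J1 : ∀ (i : Fin r) (h : (i : ℕ) < r - 1) (x : SL2R), J i x = ψ (Pi.mulSingle ⟨i, h⟩ x, 1) := by
    intro i h x
    simp only [J, dif_pos h]
    rfl
  have J2 : ∀ (i : Fin r) (h : ¬ (i : ℕ) < r - 1) (x : SL2R), J i x = ψ (1, θ' x) := by
    intro i h x
    simp only [J, dif_neg h]
    rfl
  have hJ : ∀ i, Prp (J i) := by
    intro i
    by_cases h : (i : ℕ) < r - 1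
    · simp only [J, dif_pos h]
      exact hψ.comp (prp_inl.comp (hsg _))
    · simp only [J, dif_neg h]
      exact hψ.comp (hin.comp hθ')
  have hcomm : ∀ i k : Fin r, i ≠ k → ∀ x y, J i x * J k y = J k y * J i x := by
    intro i k hik x y
    by_cases h : (i : ℕ) < r - 1 <;> by_cases h' : (k : ℕ) < r - 1
    · rw [J1 i h, J1 k h', ← map_mul, ← map_mul, Prod.mk_mul_mk, Prod.mk_mul_mk]
      have hne : (⟨i, h⟩ : Fin (r - 1)) ≠ ⟨k, h'⟩ := by
        intro e
        apply hik
        apply Fin.ext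
        exact congrArg (fun z : Fin (r - 1) => (z : ℕ)) e
      have := Pi.mulSingle_commute (f := fun _ : Fin (r - 1) => SL2R) hne x y
      rw [this.eq]
    · rw [J1 i h, J2 k h', ← map_mul, ← map_mul, Prod.mk_mul_mk, Prod.mk_mul_mk, mul_one, one_mul, mul_one, one_mul]
    · rw [J2 i h, J1 k h', ← map_mul, ← map_mul, Prod.mk_mul_mk, Prod.mk_mul_mk, mul_one, one_mul, mul_one, one_mul]
    · exfalso
      apply hik
      apply Fin.ext
      omega
  have hgen : ∀ i : Fin r, (i : ℕ) + 1 < r → ∀ x, J i d2 * ψ (1, x) = ψ (1, x) * J i d2 := by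
    intro i hi x
    have h : (i : ℕ) < r - 1 := by omega
    rw [J1 i h, ← map_mul, ← map_mul, Prod.mk_mul_mk, Prod.mk_mul_mk, mul_one, one_mul, mul_one, one_mul]
  refine ⟨fun i => J i d2, fun i => J i (uE 4), fun i => J i (lE 4), ψ.comp (MonoidHom.inr _ _),
    (ψ.comp (MonoidHom.inr _ _)).comp ι, g0, Real.log 2, ?_, ?_, ?_, ?_, ?_, ?_, ?_, ?_⟩
  · intro i j
    by_cases hij : i = j
    · rw [hij]
    · exact hcomm i j hij _ _
  · intro i _
    exact (sl2_step (J i) (hJ i)).1
  · intro i _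
    obtain ⟨-, h2, h3, h4, h5⟩ := sl2_step (J i) (hJ i)
    exact ⟨fun j hj => ⟨hcomm j i hj.ne _ _, hcomm j i hj.ne _ _⟩, h2, h3, h4, h5⟩
  · exact hψ.1.comp hin.1
  · exact (hψ.1.comp hin.1).comp hι
  · exact Real.log_pos (by norm_num)
  · intro i hi
    have h1 : J i d2 = ψ (1, θ' d2) := J2 i (by omega) _
    refine ⟨?_, ?_⟩
    · show J i d2 = ψ (1, aM m (Real.log 2))
      rw [h1, hd2]
    · show J i d2 = ψ (1, ι g0)
      rw [h1, hd2, hg0]
  · intro i hi
    exact ⟨fun x => hgen i hi x, fun x => hgen i hi (ι x)⟩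

end Pool.Agent.Helper84.CH
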