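import Pool.Agent.Helper84.CH.G3

/-!
# Project CH, block G4: `Sp(p, q)`, `q > p ≥ 2`, modulo its centre satisfies `RankN` with `m = q - p`, `r = p`

`exists_psiM`. PROOF. As `exists_psi` in `SPQ/D4.lean`, simpler: `Fin p ⊕ Fin q ≃ ((Unit ⊕ Unit) × Fin (p - 1)) ⊕ (Fin (q - p + 1) ⊕ Unit)` preserving the signs (`+1`: `(p - 1) + 1 = p`; `-1`: `(p - 1) + (q - p + 1) = q`); `prp_pi` of `exists_theta`, `piEmb`, `prodEmb`, `prp_prod`, `reEmb`.
`rankN_PSpQ`: as `rankT_PSpQ` in `SPQ/D4.lean` (`rankN_of_hom` in block G3).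
-/

set_option autoImplicit false

open Filter Topology Matrix

namespace Pool.Agent.Helper84.CH

open Pool.Agent.Helper84.SPQ Pool.Agent.Helper96.FR
open Pool.Agent.Helper90.RK (NonAm)

private theorem sgnM64 (m : ℕ) : ∀ i, eM m i = 1 ∨ eM m i = -1 := by
  rintro (i | i)
  · exact Or.inr rfl
  · exact Or.inl rfl

theorem exists_psiM {p q : ℕ} (hp : 2 ≤ p) (hpq : p < q) : ∃ ψ : (Fin (p - 1) → SL2R) × SpM (q - p) →* SpQ p q, Prp ψ := by
  obtain ⟨θ, hθ⟩ := exists_theta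
  have h11 : ∀ i, e11 i = 1 ∨ e11 i = -1 := by
    rintro (i | i)
    · exact Or.inr rfl
    · exact Or.inl rfl
  obtain ⟨F, hF⟩ := prp_pi (k := Fin (p - 1)) hθ
  obtain ⟨f1, hf1⟩ := piEmb (e1 := e11) h11 (Fin (p - 1))
  have s1 : ∀ x : (Unit ⊕ Unit) × Fin (p - 1), (fun x : (Unit ⊕ Unit) × Fin (p - 1) => e11 x.1) x = 1 ∨
      (fun x : (Unit ⊕ Unit) × Fin (p - 1) => e11 x.1) x = -1 := fun x => h11 x.1
  obtain ⟨f2, hf2⟩ := prodEmb (e1 := fun x : (Unit ⊕ Unit) × Fin (p - 1) => e11 x.1) (e2 := eM (q - p)) s1 (sgnM64 (q - p))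
  have s2 : ∀ x, Sum.elim (fun x : (Unit ⊕ Unit) × Fin (p - 1) => e11 x.1) (eM (q - p)) x = 1 ∨
      Sum.elim (fun x : (Unit ⊕ Unit) × Fin (p - 1) => e11 x.1) (eM (q - p)) x = -1 := by
    rintro (x | x)
    · exact s1 x
    · exact sgnM64 (q - p) x
  let ep : Fin (p - 1) ⊕ Unit ≃ Fin p := Fintype.equivOfCardEq (by simp; omega)
  let eq : Fin (p - 1) ⊕ Fin (q - p + 1) ≃ Fin q := Fintype.equivOfCardEq (by simp; omega)
  let E : ((Unit ⊕ Unit) × Fin (p - 1)) ⊕ (Fin (q - p + 1) ⊕ Unit) ≃ Fin p ⊕ Fin q :=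
    { toFun := Sum.elim (fun x => Sum.elim (fun _ => Sum.inr (eq (Sum.inl x.2))) (fun _ => Sum.inl (ep (Sum.inl x.2))) x.1)
        (Sum.elim (fun c => Sum.inr (eq (Sum.inr c))) (fun _ => Sum.inl (ep (Sum.inr ()))))
      invFun := Sum.elim (fun i => Sum.elim (fun k => Sum.inl (Sum.inr (), k)) (fun _ => Sum.inr (Sum.inr ())) (ep.symm i))
        (fun j => Sum.elim (fun k => Sum.inl (Sum.inl (), k)) (fun c => Sum.inr (Sum.inl c)) (eq.symm j))
      left_inv := by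
        rintro (⟨(x | x), k⟩ | (c | c)) <;> simp
      right_inv := by
        rintro (i | j)
        · obtain ⟨z, rfl⟩ := ep.surjective i
          rcases z with k | k <;> simp
        · obtain ⟨z, rfl⟩ := eq.surjective j
          rcases z with k | c <;> simp }
  obtain ⟨f4, hf4⟩ := reEmb (e1 := Sum.elim (fun x : (Unit ⊕ Unit) × Fin (p - 1) => e11 x.1) (eM (q - p)))
    (e2 := epq p q) s2 E (by
      rintro (⟨(x | x), k⟩ | (c | c)) <;> rfl)
  have hid : Prp (MonoidHom.id (SpM (q - p))) := ⟨continuous_id, tendsto_id⟩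
  exact ⟨f4.comp (f2.comp ((f1.comp F).prodMap (MonoidHom.id (SpM (q - p))))),
    hf4.comp (hf2.comp (prp_prod (hf1.comp hF) hid))⟩

theorem rankN_PSpQ {p q : ℕ} (hp : 2 ≤ p) (hpq : p < q) : RankN (PSpQ p q) (q - p) p := by
  have := t2_SpJ (sgnpq p q)
  have := locallyCompact_SpJ (sgnpq p q)
  obtain ⟨ψ, hψ⟩ := exists_psiM hp hpq
  have hcl : IsClosed (Subgroup.center (SpQ p q) : Set (SpQ p q)) := (center_compact p q).isClosed
  have hT2 : T2Space (SpQ p q ⧸ Subgroup.center (SpQ p q)) := by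
    have h3 : T3Space (SpQ p q ⧸ Subgroup.center (SpQ p q)) := @QuotientGroup.instT3Space _ _ _ _ _ _ hcl
    infer_instance
  exact rankN_of_hom (G := SpQ p q ⧸ Subgroup.center (SpQ p q)) (by omega) hp ((QuotientGroup.mk' _).comp ψ)
    ⟨QuotientGroup.continuous_mk.comp hψ.1, (tendsto_quot _ (center_compact p q)).comp hψ.2⟩

end Pool.Agent.Helper84.CH
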