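import Pool.Agent.Helper84.SPQ.D4

/-!
# Project CH, block G5: `Sp(p, q)`, `1 ≤ p ≤ q`, modulo its centre has rank at least `p`

`rankGE_of_pi`. PROOF. As `rankT_of_hom` in `SPQ/D4.lean` (complete proof there, copy it), simpler: `j i : SL2R →* G` the restriction of `ψ` to the `i`-th factor (`MonoidHom.mulSingle`), `a i = j i d2`, `u i = j i (uE 4)`, `w i = j i (lE 4)`, `sl2_step`.
`rankGE_PSpQ`. PROOF. A proper homomorphism `(Fin p → SL2R) →* SpQ p q` as in `exists_psi` in `SPQ/D4.lean`: `Fin p ⊕ Fin q ≃ ((Unit ⊕ Unit) × Fin p) ⊕ Fin (q - p)` preserving the signs; `prp_pi` of `exists_theta`, `piEmb`, `prp_inl`, `prodEmb` (signs `fun _ : Fin (q - p) => -1`), `reEmb`. Then the quotient, as in `rankT_PSpQ`.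
-/

set_option autoImplicit false

open Filter Topology Matrix

namespace Pool.Agent.Helper84.CH

open Pool.Agent.Helper84.SPQ Pool.Agent.Helper96.FR
open Pool.Agent.Helper90.RK (NonAm)

private theorem prp_of_left26 {A B : Type} [Group A] [TopologicalSpace A] [Group B] [TopologicalSpace B] (f : A →* B)
    (hf : Continuous f) (g : B → A) (hg : Continuous g) (h : ∀ x, g (f x) = x) : Prp f := by
  refine ⟨hf, ?_⟩
  rw [(hasBasis_cocompact).tendsto_right_iff]
  intro K hK
  filter_upwards [(hK.image hg).compl_mem_cocompact] with x hx hxK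
  exact hx ⟨f x, hxK, h x⟩

theorem rankGE_of_pi {G : Type} [Group G] [TopologicalSpace G] [IsTopologicalGroup G] [LocallyCompactSpace G] [T2Space G]
    {r : ℕ} (ψ : (Fin r → SL2R) →* G) (hψ : Prp ψ) : RankGE G r := by
  have hsg : ∀ i : Fin r, Prp (MonoidHom.mulSingle (fun _ : Fin r => SL2R) i) := fun i =>
    prp_of_left26 _ (continuous_pi fun j => by
      change Continuous fun x : SL2R => (Pi.mulSingle i x : Fin r → SL2R) j
      by_cases hj : j = i
      · subst hj
        simp only [Pi.mulSingle_eq_same]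
        exact continuous_id'
      · simpa [Pi.mulSingle_eq_of_ne hj] using continuous_const) (fun x => x i) (continuous_apply i) fun x => by simp
  let J : Fin r → (SL2R →* G) := fun i => ψ.comp (MonoidHom.mulSingle (fun _ : Fin r => SL2R) i)
  have J1 : ∀ (i : Fin r) (x : SL2R), J i x = ψ (Pi.mulSingle i x) := fun i x => rfl
  have hJ : ∀ i, Prp (J i) := fun i => hψ.comp (hsg i)
  have hcomm : ∀ i k : Fin r, i ≠ k → ∀ x y, J i x * J k y = J k y * J i x := by
    intro i k hik x y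
    rw [J1, J1, ← map_mul, ← map_mul]
    rw [(Pi.mulSingle_commute (f := fun _ : Fin r => SL2R) hik x y).eq]
  refine ⟨fun i => J i d2, fun i => J i (uE 4), fun i => J i (lE 4), ?_, ?_, ?_⟩
  · intro i j
    by_cases hij : i = j
    · rw [hij]
    · exact hcomm i j hij _ _
  · intro i _
    exact (sl2_step (J i) (hJ i)).1
  · intro i _
    obtain ⟨-, h2, h3, h4, h5⟩ := sl2_step (J i) (hJ i)
    exact ⟨fun j hj => ⟨hcomm j i hj.ne _ _, hcomm j i hj.ne _ _⟩, h2, h3, h4, h5⟩

private theorem exists_psi26 {p q : ℕ} (hpq : p ≤ q) : ∃ ψ : (Fin p → SL2R) →* SpQ p q, Prp ψ := by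
  obtain ⟨θ, hθ⟩ := exists_theta
  have h11 : ∀ i, e11 i = 1 ∨ e11 i = -1 := by
    rintro (i | i)
    · exact Or.inr rfl
    · exact Or.inl rfl
  obtain ⟨F, hF⟩ := prp_pi (k := Fin p) hθ
  obtain ⟨f1, hf1⟩ := piEmb (e1 := e11) h11 (Fin p)
  have s1 : ∀ x : (Unit ⊕ Unit) × Fin p, (fun x : (Unit ⊕ Unit) × Fin p => e11 x.1) x = 1 ∨
      (fun x : (Unit ⊕ Unit) × Fin p => e11 x.1) x = -1 := fun x => h11 x.1
  obtain ⟨f3, hf3⟩ := prodEmb (e1 := fun x : (Unit ⊕ Unit) × Fin p => e11 x.1)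
    (e2 := fun _ : Fin (q - p) => -1) s1 (fun _ => Or.inr rfl)
  let eq : Fin p ⊕ Fin (q - p) ≃ Fin q := Fintype.equivOfCardEq (by simp; omega)
  let E : ((Unit ⊕ Unit) × Fin p) ⊕ Fin (q - p) ≃ Fin p ⊕ Fin q :=
    { toFun := Sum.elim (fun x => Sum.elim (fun _ => Sum.inr (eq (Sum.inl x.2))) (fun _ => Sum.inl x.2) x.1)
        (fun m => Sum.inr (eq (Sum.inr m)))
      invFun := Sum.elim (fun k => Sum.inl (Sum.inr (), k))
        (fun j => Sum.elim (fun k => Sum.inl (Sum.inl (), k)) (fun m => Sum.inr m) (eq.symm j))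
      left_inv := by
        rintro (⟨(x | x), k⟩ | m) <;> simp
      right_inv := by
        rintro (i | j)
        · simp
        · obtain ⟨z, rfl⟩ := eq.surjective j
          rcases z with k | m <;> simp }
  obtain ⟨f4, hf4⟩ := reEmb (e1 := Sum.elim (fun x : (Unit ⊕ Unit) × Fin p => e11 x.1) (fun _ : Fin (q - p) => (-1 : ℝ)))
    (e2 := epq p q) (by
      rintro (x | x)
      · exact s1 x
      · exact Or.inr rfl) E (by
      rintro (⟨(x | x), k⟩ | m) <;> rfl)
  exact ⟨f4.comp (f3.comp ((MonoidHom.inl _ _).comp (f1.comp F))),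
    hf4.comp (hf3.comp (prp_inl.comp (hf1.comp hF)))⟩

theorem rankGE_PSpQ {p q : ℕ} (hp : 1 ≤ p) (hpq : p ≤ q) : RankGE (PSpQ p q) p := by
  have := t2_SpJ (sgnpq p q)
  have := locallyCompact_SpJ (sgnpq p q)
  obtain ⟨ψ, hψ⟩ := exists_psi26 hpq
  have hcl : IsClosed (Subgroup.center (SpQ p q) : Set (SpQ p q)) := (center_compact p q).isClosed
  have hT2 : T2Space (SpQ p q ⧸ Subgroup.center (SpQ p q)) := by
    have h3 : T3Space (SpQ p q ⧸ Subgroup.center (SpQ p q)) := @QuotientGroup.instT3Space _ _ _ _ _ _ hcl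
    infer_instance
  exact rankGE_of_pi (G := SpQ p q ⧸ Subgroup.center (SpQ p q)) ((QuotientGroup.mk' _).comp ψ)
    ⟨QuotientGroup.continuous_mk.comp hψ.1, (tendsto_quot _ (center_compact p q)).comp hψ.2⟩

end Pool.Agent.Helper84.CH
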