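import Mathlib

/-!
# Project CH (MP_0f6f3f_an, Cowling-Haagerup constants in higher rank): the Heisenberg group `ℍ^m × Im ℍ` (definitions)

`Vm m = ℝ^(4m) × ℝ³`: horizontal part `w` (`m` quaternions, real coordinates), vertical part (an imaginary quaternion). `br w w'` is the imaginary part of `∑ conj(w_i) w'_i`.
Product `mulV v u = (w + w_u, ζ + ζ_u + br w w_u)`; `dv v v' = v⁻¹ v'`; the inverse is `-v`. `nW v = |1 + |w|²/2 + ζ|`. `kk m A ζ = ∫_{ℝ³} cos(λ·ζ) e^(-A|λ|) |λ|^(2m) dλ`, `sK m ε (w, ζ) = c kk m (|w|²/2 + ε) ζ`.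
`Gm m r = κ_m r⁻² (1 - r⁻²)^(2m + 1/2)`.
-/

set_option autoImplicit false

open Real MeasureTheory

namespace Pool.Agent.Helper84.CH

/-- the centre -/
abbrev E3 : Type := EuclideanSpace ℝ (Fin 3)

/-- the horizontal vectors -/
abbrev Wm (m : ℕ) : Type := Fin m × Fin 4 → ℝ

/-- the Heisenberg group -/
abbrev Vm (m : ℕ) : Type := Wm m × E3

section

variable {m : ℕ}

/-- the square of the norm -/
noncomputable def sq (w : Wm m) : ℝ := ∑ i, w i ^ 2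

/-- the imaginary part of `∑ conj(w_i) w'_i` -/
noncomputable def br (w w' : Wm m) : E3 := WithLp.toLp 2
  ![∑ i : Fin m, (w (i, 0) * w' (i, 1) - w (i, 1) * w' (i, 0) - w (i, 2) * w' (i, 3) + w (i, 3) * w' (i, 2)),
    ∑ i : Fin m, (w (i, 0) * w' (i, 2) - w (i, 2) * w' (i, 0) - w (i, 3) * w' (i, 1) + w (i, 1) * w' (i, 3)),
    ∑ i : Fin m, (w (i, 0) * w' (i, 3) - w (i, 3) * w' (i, 0) - w (i, 1) * w' (i, 2) + w (i, 2) * w' (i, 1))]

/-- the product -/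
noncomputable def mulV (v u : Vm m) : Vm m := (v.1 + u.1, v.2 + u.2 + br v.1 u.1)

/-- `v⁻¹ v'` -/
noncomputable def dv (v v' : Vm m) : Vm m := (v'.1 - v.1, v'.2 - v.2 - br v.1 v'.1)

/-- the modulus of `1 + |w|²/2 + ζ` -/
noncomputable def nW (v : Vm m) : ℝ := Real.sqrt ((1 + sq v.1 / 2) ^ 2 + ‖v.2‖ ^ 2)

end

/-- the Fourier transform of `e^(-A|λ|) |λ|^(2m)` on `ℝ³` -/
noncomputable def kk (m : ℕ) (A : ℝ) (z : E3) : ℝ :=
  ∫ l : E3, Real.cos (inner ℝ l z) * (Real.exp (-(A * ‖l‖)) * ‖l‖ ^ (2 * m))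

/-- the kernels -/
noncomputable def sK (m : ℕ) (ε : ℝ) (v : Vm m) : ℝ := ((2 * π) ^ 3 * π ^ (2 * m))⁻¹ * kk m (sq v.1 / 2 + ε) v.2

/-- the constant `κ_m` -/
noncomputable def kap (m : ℕ) : ℝ := 2 ^ (2 * m + 1) * ((2 * m + 2).factorial : ℝ) / (π * ((4 * m + 1).doubleFactorial : ℝ))

/-- the density of the radial pairing -/
noncomputable def Gm (m : ℕ) (r : ℝ) : ℝ := kap m * (r ^ 2)⁻¹ * (1 - (r ^ 2)⁻¹) ^ ((2 * m : ℝ) + 1 / 2)

end Pool.Agent.Helper84.CH
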