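import Pool.Agent.Helper84.CH.L0

/-!
# Project CH, block LA1: plane waves on `ℝ³`

`radial3`: `MeasureTheory.integral_fun_norm_addHaar` (or `integrable_fun_norm_addHaar`), `finrank = 3`, `volume (ball 0 1) = 4π/3` (`EuclideanSpace.volume_ball_fin_three` or `EuclideanSpace.volume_ball`).
`plane`. PROOF. Let `b = ‖z‖`. There is an orthonormal basis of `E3` whose third vector is `z/b`, so by invariance of the measure (`LinearIsometryEquiv.measurePreserving`, `OrthonormalBasis.measurePreserving_repr` ..) the integral is `∫ cos(b l₂) g(‖l‖) dl`, `l = (l₀, l₁, l₂)`.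
Write `E3 ≃ (ℝ × ℝ) × ℝ` (measure preserving) and use polar coordinates in the plane (`integral_comp_polarCoord_symm`): it is `2π ∫_x cos(b x) ∫_(r > 0) g(√(r² + x²)) r dr dx`, substitution `ρ = √(r² + x²)`: `∫_(ρ > |x|) g(ρ) ρ dρ`. Fubini: `2π ∫_(ρ > 0) g(ρ) ρ ∫_(-ρ)^ρ cos(b x) dx dρ`,
and `∫_(-ρ)^ρ cos(b x) dx = 2 sin(b ρ)/b`. (All functions are integrable because `|cos| ≤ 1` and `g(‖l‖)` is integrable.)
-/

set_option autoImplicit false

open Real MeasureTheory

namespace Pool.Agent.Helper84.CH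

theorem radial3 {g : ℝ → ℝ} (hi : IntegrableOn (fun ρ => ρ ^ 2 * g ρ) (Set.Ioi 0)) :
    Integrable (fun l : E3 => g ‖l‖) ∧ ∫ l : E3, g ‖l‖ = 4 * π * ∫ ρ in Set.Ioi (0 : ℝ), ρ ^ 2 * g ρ := by
  have hd : Module.finrank ℝ E3 = 3 := by simp
  refine ⟨?_, ?_⟩
  · rw [integrable_fun_norm_addHaar (μ := (volume : Measure E3)) (f := g), hd]
    simpa using hi
  · rw [integral_fun_norm_addHaar (volume : Measure E3) g, hd]
    have hb : (volume : Measure E3).real (Metric.ball 0 1) = π * 4 / 3 := by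
      rw [Measure.real, EuclideanSpace.volume_ball_fin_three]
      rw [ENNReal.toReal_mul, ENNReal.toReal_pow, ENNReal.toReal_ofReal (by norm_num), ENNReal.toReal_ofReal (by positivity)]
      ring
    rw [hb]
    simp only [smul_eq_mul, nsmul_eq_mul]
    have : (3 - 1 : ℕ) = 2 := rfl
    rw [this]
    push_cast
    ring

private theorem radial2 (h : ℝ → ℝ) :
    ∫ p : Fin 2 → ℝ, h (Real.sqrt (p 0 ^ 2 + p 1 ^ 2)) = 2 * π * ∫ r in Set.Ioi (0 : ℝ), r * h r := by
  have e1 : ∫ p : Fin 2 → ℝ, h (Real.sqrt (p 0 ^ 2 + p 1 ^ 2)) = ∫ l : EuclideanSpace ℝ (Fin 2), h ‖l‖ := by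
    rw [← (PiLp.volume_preserving_toLp (Fin 2)).integral_comp (MeasurableEquiv.toLp 2 (Fin 2 → ℝ)).measurableEmbedding]
    refine integral_congr_ae (Filter.Eventually.of_forall fun p => ?_)
    simp only
    rw [EuclideanSpace.norm_eq]
    simp [Fin.sum_univ_two]
  rw [e1, integral_fun_norm_addHaar (volume : Measure (EuclideanSpace ℝ (Fin 2))) h]
  have hd : Module.finrank ℝ (EuclideanSpace ℝ (Fin 2)) = 2 := by simp
  have hb : (volume : Measure (EuclideanSpace ℝ (Fin 2))).real (Metric.ball 0 1) = π := by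
    rw [Measure.real, EuclideanSpace.volume_ball_fin_two]
    simp [Real.pi_pos.le]
  rw [hd, hb]
  simp only [smul_eq_mul, nsmul_eq_mul]
  have : (2 - 1 : ℕ) = 1 := rfl
  rw [this]
  simp only [pow_one]
  push_cast
  ring

private theorem subst (g : ℝ → ℝ) (x : ℝ) :
    ∫ r in Set.Ioi (0 : ℝ), r * g (Real.sqrt (x ^ 2 + r ^ 2)) = ∫ ρ in Set.Ioi |x|, ρ * g ρ := by
  have him : (fun r : ℝ => Real.sqrt (x ^ 2 + r ^ 2)) '' Set.Ioi 0 = Set.Ioi |x| := by
    ext y
    constructor
    · rintro ⟨r, hr, rfl⟩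
      have hr' : 0 < r := hr
      show |x| < Real.sqrt (x ^ 2 + r ^ 2)
      rw [Real.lt_sqrt (abs_nonneg x), sq_abs]
      nlinarith [sq_nonneg r]
    · intro hy
      have hy' : |x| < y := hy
      have h0 : 0 ≤ |x| := abs_nonneg x
      have h1 : 0 < y ^ 2 - x ^ 2 := by
        have : x ^ 2 = |x| ^ 2 := (sq_abs x).symm
        rw [this]
        nlinarith
      refine ⟨Real.sqrt (y ^ 2 - x ^ 2), Real.sqrt_pos.2 h1, ?_⟩
      show Real.sqrt (x ^ 2 + Real.sqrt (y ^ 2 - x ^ 2) ^ 2) = y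
      rw [Real.sq_sqrt h1.le]
      have : x ^ 2 + (y ^ 2 - x ^ 2) = y ^ 2 := by ring
      rw [this, Real.sqrt_sq (by linarith)]
  rw [← him]
  have hpos : ∀ r ∈ Set.Ioi (0 : ℝ), 0 < x ^ 2 + r ^ 2 := by
    intro r hr
    have hr' : 0 < r := hr
    positivity
  rw [integral_image_eq_integral_abs_deriv_smul (f' := fun r => r / Real.sqrt (x ^ 2 + r ^ 2)) measurableSet_Ioi]
  · refine setIntegral_congr_fun measurableSet_Ioi fun r hr => ?_
    have hr' : 0 < r := hr
    have h1 := Real.sqrt_pos.2 (hpos r hr)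
    simp only [smul_eq_mul]
    rw [abs_of_pos (div_pos hr' h1)]
    field_simp
  · intro r hr
    have h1 := hpos r hr
    have h2 : HasDerivAt (fun r : ℝ => x ^ 2 + r ^ 2) (2 * r) r := by
      have := (hasDerivAt_pow 2 r).const_add (x ^ 2)
      simpa using this
    have h3 := h2.sqrt h1.ne'
    have h4 : 2 * r / (2 * Real.sqrt (x ^ 2 + r ^ 2)) = r / Real.sqrt (x ^ 2 + r ^ 2) := by
      rw [mul_div_mul_left _ _ (by norm_num : (2 : ℝ) ≠ 0)]
    rw [h4] at h3
    exact h3.hasDerivWithinAt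
  · intro r hr s hs h
    have hr' : 0 < r := hr
    have hs' : 0 < s := hs
    have h1 : Real.sqrt (x ^ 2 + r ^ 2) = Real.sqrt (x ^ 2 + s ^ 2) := h
    rw [Real.sqrt_inj (hpos r hr).le (hpos s hs).le] at h1
    have h2 : r ^ 2 = s ^ 2 := by linarith
    exact (pow_left_inj₀ hr'.le hs'.le (by norm_num)).1 h2

private theorem fub {g : ℝ → ℝ} (hg : Continuous g) (hi : IntegrableOn (fun ρ => ρ ^ 2 * g ρ) (Set.Ioi 0)) {b : ℝ} (hb : b ≠ 0) :
    ∫ x : ℝ, Real.cos (b * x) * ∫ ρ in Set.Ioi |x|, ρ * g ρ =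
      2 / b * ∫ ρ in Set.Ioi (0 : ℝ), ρ * g ρ * Real.sin (ρ * b) := by
  set S : Set (ℝ × ℝ) := {p | |p.1| < p.2} with hS
  have hSm : MeasurableSet S := (isOpen_lt (continuous_fst.abs) continuous_snd).measurableSet
  set G : ℝ × ℝ → ℝ := S.indicator fun p => Real.cos (b * p.1) * (p.2 * g p.2) with hG
  have hGm : AEStronglyMeasurable G (volume.prod volume) := by
    refine AEStronglyMeasurable.indicator ?_ hSm
    exact (Continuous.aestronglyMeasurable (by fun_prop))
  have hval : ∀ x ρ : ℝ, G (x, ρ) = (Set.Ioo (-ρ) ρ).indicator (fun x => Real.cos (b * x) * (ρ * g ρ)) x := by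
    intro x ρ
    by_cases h : |x| < ρ
    · have h1 : (x, ρ) ∈ S := h
      have h2 : x ∈ Set.Ioo (-ρ) ρ := abs_lt.1 h
      rw [hG, Set.indicator_of_mem h1, Set.indicator_of_mem h2]
    · have h1 : (x, ρ) ∉ S := h
      have h2 : x ∉ Set.Ioo (-ρ) ρ := fun h3 => h (abs_lt.2 h3)
      rw [hG, Set.indicator_of_notMem h1, Set.indicator_of_notMem h2]
  have hval2 : ∀ x ρ : ℝ, G (x, ρ) = (Set.Ioi |x|).indicator (fun ρ => Real.cos (b * x) * (ρ * g ρ)) ρ := by
    intro x ρ
    by_cases h : |x| < ρ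
    · have h1 : (x, ρ) ∈ S := h
      have h2 : ρ ∈ Set.Ioi |x| := h
      rw [hG, Set.indicator_of_mem h1, Set.indicator_of_mem h2]
    · have h1 : (x, ρ) ∉ S := h
      have h2 : ρ ∉ Set.Ioi |x| := h
      rw [hG, Set.indicator_of_notMem h1, Set.indicator_of_notMem h2]
  have hGi : Integrable G (volume.prod volume) := by
    rw [integrable_prod_iff' hGm]
    have hI : ∀ ρ : ℝ, Integrable (fun x => G (x, ρ)) := by
      intro ρ
      have : (fun x => G (x, ρ)) = (Set.Ioo (-ρ) ρ).indicator (fun x => Real.cos (b * x) * (ρ * g ρ)) := by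
        funext x
        exact hval x ρ
      rw [this, integrable_indicator_iff measurableSet_Ioo]
      have hc : Continuous fun x : ℝ => Real.cos (b * x) * (ρ * g ρ) := by fun_prop
      exact (hc.integrableOn_Icc).mono_set Set.Ioo_subset_Icc_self
    refine ⟨Filter.Eventually.of_forall hI, ?_⟩
    have hdom : Integrable ((Set.Ioi (0 : ℝ)).indicator fun ρ => 2 * ‖ρ ^ 2 * g ρ‖) := by
      rw [integrable_indicator_iff measurableSet_Ioi]
      exact (hi.norm.const_mul 2)
    refine hdom.mono' ?_ (Filter.Eventually.of_forall fun ρ => ?_)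
    · exact hGm.norm.prod_swap.integral_prod_right'
    · have h0 : 0 ≤ ∫ x, ‖G (x, ρ)‖ := integral_nonneg fun x => norm_nonneg _
      rw [Real.norm_of_nonneg h0]
      have h1 : ∫ x, ‖G (x, ρ)‖ ≤ ∫ x, (Set.Ioo (-ρ) ρ).indicator (fun _ => ‖ρ * g ρ‖) x := by
        refine integral_mono (hI ρ).norm ?_ fun x => ?_
        · rw [integrable_indicator_iff measurableSet_Ioo]
          exact continuous_const.integrableOn_Icc.mono_set Set.Ioo_subset_Icc_self
        · show ‖G (x, ρ)‖ ≤ _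
          rw [hval]
          by_cases hx : x ∈ Set.Ioo (-ρ) ρ
          · rw [Set.indicator_of_mem hx, Set.indicator_of_mem hx, norm_mul]
            have : ‖Real.cos (b * x)‖ ≤ 1 := by
              rw [Real.norm_eq_abs]
              exact Real.abs_cos_le_one _
            nlinarith [norm_nonneg (ρ * g ρ)]
          · rw [Set.indicator_of_notMem hx, Set.indicator_of_notMem hx]
            simp
      refine h1.trans ?_
      rw [integral_indicator measurableSet_Ioo, setIntegral_const]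
      by_cases hρ : 0 < ρ
      · have : ρ ∈ Set.Ioi (0 : ℝ) := hρ
        rw [Set.indicator_of_mem this, Measure.real, Real.volume_Ioo, ENNReal.toReal_ofReal (by linarith)]
        rw [norm_mul, norm_mul, norm_pow, Real.norm_of_nonneg hρ.le, smul_eq_mul]
        apply le_of_eq
        ring
      · have : ρ ∉ Set.Ioi (0 : ℝ) := hρ
        rw [Set.indicator_of_notMem this]
        have he : Set.Ioo (-ρ) ρ = ∅ := by
          apply Set.Ioo_eq_empty
          linarith
        rw [he]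
        simp
  have hsw := integral_integral_swap (f := fun x ρ => G (x, ρ)) (μ := volume) (ν := volume) hGi
  have hL : ∫ x : ℝ, Real.cos (b * x) * ∫ ρ in Set.Ioi |x|, ρ * g ρ = ∫ x, ∫ ρ, G (x, ρ) := by
    refine integral_congr_ae (Filter.Eventually.of_forall fun x => ?_)
    simp only
    have : (fun ρ => G (x, ρ)) = (Set.Ioi |x|).indicator (fun ρ => Real.cos (b * x) * (ρ * g ρ)) := by
      funext ρ
      exact hval2 x ρ
    rw [this, integral_indicator measurableSet_Ioi, integral_const_mul]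
  rw [hL, hsw, ← integral_const_mul, ← integral_indicator measurableSet_Ioi]
  refine integral_congr_ae (Filter.Eventually.of_forall fun ρ => ?_)
  simp only
  have h1 : (fun x => G (x, ρ)) = (Set.Ioo (-ρ) ρ).indicator (fun x => Real.cos (b * x) * (ρ * g ρ)) := by
    funext x
    exact hval x ρ
  rw [h1, integral_indicator measurableSet_Ioo, integral_mul_const]
  by_cases hρ : 0 < ρ
  · have h2 : ρ ∈ Set.Ioi (0 : ℝ) := hρ
    rw [Set.indicator_of_mem h2, ← integral_Ioc_eq_integral_Ioo, ← intervalIntegral.integral_of_le (by linarith)]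
    rw [intervalIntegral.integral_comp_mul_left (fun y => Real.cos y) hb, integral_cos]
    have : b * -ρ = -(b * ρ) := by ring
    rw [this, Real.sin_neg, smul_eq_mul, mul_comm ρ b]
    field_simp
    ring
  · have h2 : ρ ∉ Set.Ioi (0 : ℝ) := hρ
    have he : Set.Ioo (-ρ) ρ = ∅ := by
      apply Set.Ioo_eq_empty
      linarith
    rw [Set.indicator_of_notMem h2, he]
    simp

theorem plane {g : ℝ → ℝ} (hg : Continuous g) (hi : IntegrableOn (fun ρ => ρ ^ 2 * g ρ) (Set.Ioi 0)) {z : E3} (hz : z ≠ 0) :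
    ∫ l : E3, Real.cos (inner ℝ l z) * g ‖l‖ = 4 * π / ‖z‖ * ∫ ρ in Set.Ioi (0 : ℝ), ρ * g ρ * Real.sin (ρ * ‖z‖) := by
  obtain ⟨b, hb⟩ : ∃ b, b = ‖z‖ := ⟨_, rfl⟩
  have hbp : 0 < b := by
    rw [hb]
    exact norm_pos_iff.2 hz
  -- an orthonormal basis
  obtain ⟨B, hB⟩ : ∃ B : OrthonormalBasis (Fin 3) ℝ E3, B 0 = b⁻¹ • z := by
    have ho : Orthonormal ℝ (({0} : Set (Fin 3)).domRestrict fun _ => b⁻¹ • z) := by
      refine ⟨fun i => ?_, fun i j hij => ?_⟩
      · show ‖b⁻¹ • z‖ = 1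
        rw [norm_smul, norm_inv, Real.norm_of_nonneg hbp.le, ← hb, inv_mul_cancel₀ hbp.ne']
      · exact absurd (Subsingleton.elim i j) hij
    obtain ⟨B, hB⟩ := ho.exists_orthonormalBasis_extension_of_card_eq (by simp)
    exact ⟨B, hB 0 rfl⟩
  have hint : Integrable (fun l : E3 => Real.cos (b * l 0) * g ‖l‖) := by
    have h1 := (radial3 hi).1
    refine h1.norm.mono' ?_ (Filter.Eventually.of_forall fun l => ?_)
    · exact Continuous.aestronglyMeasurable (by fun_prop)
    · rw [norm_mul]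
      have : ‖Real.cos (b * l 0)‖ ≤ 1 := by
        rw [Real.norm_eq_abs]
        exact Real.abs_cos_le_one _
      nlinarith [norm_nonneg (g ‖l‖)]
  have e1 : ∫ l : E3, Real.cos (inner ℝ l z) * g ‖l‖ = ∫ l : E3, Real.cos (b * l 0) * g ‖l‖ := by
    rw [← B.measurePreserving_repr.integral_comp B.repr.toMeasurableEquiv.measurableEmbedding
      (fun l : E3 => Real.cos (b * l 0) * g ‖l‖)]
    refine integral_congr_ae (Filter.Eventually.of_forall fun l => ?_)
    simp only
    rw [LinearIsometryEquiv.norm_map, B.repr_apply_apply, hB, real_inner_smul_left, ← mul_assoc,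
      mul_inv_cancel₀ hbp.ne', one_mul, real_inner_comm]
  have hTl := (PiLp.volume_preserving_toLp (Fin 3))
  have hTm := (volume_preserving_piFinSuccAbove (fun _ : Fin 3 => ℝ) 0).symm
  have hfun : ∀ q : ℝ × (Fin 2 → ℝ), Real.cos (b * (WithLp.toLp 2 ((MeasurableEquiv.piFinSuccAbove (fun _ : Fin 3 => ℝ) 0).symm q) : E3) 0) *
      g ‖(WithLp.toLp 2 ((MeasurableEquiv.piFinSuccAbove (fun _ : Fin 3 => ℝ) 0).symm q) : E3)‖ =
      Real.cos (b * q.1) * g (Real.sqrt (q.1 ^ 2 + Real.sqrt (q.2 0 ^ 2 + q.2 1 ^ 2) ^ 2)) := by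
    intro q
    rw [Real.sq_sqrt (by positivity), EuclideanSpace.norm_eq]
    have h2 : Fin.cons (α := fun _ : Fin 3 => ℝ) q.1 q.2 2 = q.2 1 := rfl
    simp only [Real.norm_eq_abs, sq_abs, Fin.sum_univ_three]
    simp only [MeasurableEquiv.piFinSuccAbove, Fin.insertNthEquiv]
    simp [h2, add_assoc]
  have e2 : ∫ l : E3, Real.cos (b * l 0) * g ‖l‖ =
      ∫ q : ℝ × (Fin 2 → ℝ), Real.cos (b * q.1) * g (Real.sqrt (q.1 ^ 2 + Real.sqrt (q.2 0 ^ 2 + q.2 1 ^ 2) ^ 2)) := by
    rw [← hTl.integral_comp (MeasurableEquiv.toLp 2 (Fin 3 → ℝ)).measurableEmbedding (fun l : E3 => Real.cos (b * l 0) * g ‖l‖),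
      ← hTm.integral_comp (MeasurableEquiv.measurableEmbedding _)]
    exact integral_congr_ae (Filter.Eventually.of_forall hfun)
  have hint2 : Integrable (fun q : ℝ × (Fin 2 → ℝ) => Real.cos (b * q.1) * g (Real.sqrt (q.1 ^ 2 + Real.sqrt (q.2 0 ^ 2 + q.2 1 ^ 2) ^ 2)))
      (volume.prod volume) := by
    have h1 := (hTl.integrable_comp_emb (MeasurableEquiv.toLp 2 (Fin 3 → ℝ)).measurableEmbedding).2 hint
    have h2 := (hTm.integrable_comp_emb (MeasurableEquiv.measurableEmbedding _)).2 h1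
    exact (integrable_congr (Filter.Eventually.of_forall hfun)).1 h2
  rw [e1, e2, ← hb, Measure.volume_eq_prod, integral_prod _ hint2]
  have e3 : ∀ x : ℝ, ∫ p : Fin 2 → ℝ, Real.cos (b * x) * g (Real.sqrt (x ^ 2 + Real.sqrt (p 0 ^ 2 + p 1 ^ 2) ^ 2)) =
      2 * π * (Real.cos (b * x) * ∫ ρ in Set.Ioi |x|, ρ * g ρ) := by
    intro x
    rw [integral_const_mul, radial2 (fun r => g (Real.sqrt (x ^ 2 + r ^ 2))), subst]
    ring
  rw [integral_congr_ae (Filter.Eventually.of_forall e3), integral_const_mul, fub hg hi hbp.ne']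
  ring

end Pool.Agent.Helper84.CH
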