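import Pool.Agent.Helper84.CH.L0

/-!
# Project CH, block LA7: an integral of Chebyshev functions (Rodrigues formula), the total mass of `Gm`

Checked numerically for `m = 1, 2, 3`.
`rod`. PROOF. Let `k = 2m + 1`, `P_k x = (1 - x²)^(k + 1/2)`, `θ = arccos x`. RODRIGUES: for `k ≥ 0`: `D^k P_k = (-1)^k (2k+1)‼/(k+1) sin((k+1)θ)` and for `k ≥ 1`: `D^(k-1) P_k = (-1)^(k+1) ((2k+1)‼/(2(k+1))) (sin(kθ)/k - sin((k+2)θ)/(k+2))` on `(-1, 1)`. Induction on `k`: `P_k' = -(2k+1) x P_(k-1)`, so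
`D^k P_k = -(2k+1) (x D^(k-1) P_(k-1) + (k-1) D^(k-2) P_(k-1))` (Leibniz with the linear function `x`), and `cos θ sin(kθ) = (sin((k+1)θ) + sin((k-1)θ))/2`; the second formula follows from the first: both sides have the same derivative (`dθ/dx = -1/sin θ`, `sin θ sin((k+1)θ) = (cos(kθ) - cos((k+2)θ))/2`) and vanish at `x → 1`.
So with `H x = ((k+1)/(2k+1)‼) (2k+1) x (1 - x²)^(k - 1/2) = -((k+1)/(2k+1)‼) P_k'`, `D^(k-1) H = -((k+1)/(2k+1)‼) D^k P_k = sin((k+1)θ)` (`k` odd), and `D^j H → 0` at `x → 1` for `j < k - 1`. Integrating by parts `k - 2` times: `∫_y^1 sin((k+1) arccos x) (x - y)^(k-2) dx = (-1)^(k-1) (k-2)! H(y) = (k-2)! H(y)`.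
ANOTHER WAY (no iterated derivatives): define the functions `I_j(y) = ∫_y^1 sin((k+1) arccos x) (x - y)^j dx / j!`; `I_(j+1)' = -I_j`, `I_0(y) = ` explicit; the functions `Φ_j = ` (suitable derivatives of `P_k`) satisfy the same equations and both vanish at `1`.
(`k + 1 = 2m + 2`, `k - 2 = 2m - 1`, `(2k+1)‼ = (4m+3)‼ = (4m+3) (4m+1)‼`, `k - 1/2 = 2m + 1/2`.) You may use any other proof.
`Gm_*`: `Gm` is nonnegative for `r ≥ 1`, `≤ κ/r²`. `Gm_total`: substitution `u = 1/r` (or `t = 1 - r⁻²`): `κ ∫_0^1 (1 - u²)^(2m+1/2) du = m + 1`. With `J_j = ∫_0^1 (1 - u²)^(j + 1/2) du`: `J_0 = π/4`, `J_j = ((2j+1)/(2j+2)) J_(j-1)` (by parts), so `J_(2m) = (4m+1)‼/(4m+2)‼ · π/2`, `(4m+2)‼ = 2^(2m+1) (2m+1)!`.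
-/

set_option autoImplicit false

open Real MeasureTheory

namespace Pool.Agent.Helper84.CH

/-- the integrals after the substitution `x = cos θ` -/
private noncomputable def tT36 (n : ℕ) (k φ : ℝ) : ℝ :=
  ∫ θ in (0 : ℝ)..φ, Real.sin (k * θ) * Real.sin θ * (Real.cos θ - Real.cos φ) ^ n

private theorem tint36 (n : ℕ) (k φ a b : ℝ) : IntervalIntegrable
    (fun θ => Real.sin (k * θ) * Real.sin θ * (Real.cos θ - Real.cos φ) ^ n) volume a b := by
  have h : Continuous (fun θ : ℝ => Real.sin (k * θ) * Real.sin θ * (Real.cos θ - Real.cos φ) ^ n) := by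
    fun_prop
  exact h.intervalIntegrable _ _

private theorem tA36 (n : ℕ) (k φ : ℝ) :
    tT36 (n + 1) k φ = (tT36 n (k + 1) φ + tT36 n (k - 1) φ) / 2 - Real.cos φ * tT36 n k φ := by
  unfold tT36
  rw [← intervalIntegral.integral_const_mul, ← intervalIntegral.integral_add (tint36 _ _ _ _ _) (tint36 _ _ _ _ _),
    ← intervalIntegral.integral_div, ← intervalIntegral.integral_sub]
  · refine intervalIntegral.integral_congr ?_
    intro θ _
    have h1 : (k + 1) * θ = k * θ + θ := by ring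
    have h2 : (k - 1) * θ = k * θ - θ := by ring
    simp only [h1, h2, Real.sin_add, Real.sin_sub]
    ring
  · exact ((tint36 _ _ _ _ _).add (tint36 _ _ _ _ _)).div_const _
  · exact (tint36 _ _ _ _ _).const_mul _

private theorem tB36 (n : ℕ) {k : ℝ} (φ : ℝ) (h1 : k - 1 ≠ 0) (h2 : k + 1 ≠ 0) :
    tT36 (n + 1) k φ = ((n : ℝ) + 1) / 2 * (tT36 n (k - 1) φ / (k - 1) - tT36 n (k + 1) φ / (k + 1)) := by
  have hu : ∀ x ∈ Set.uIcc (0 : ℝ) φ, HasDerivAt (fun θ : ℝ => (Real.cos θ - Real.cos φ) ^ (n + 1))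
      (((n : ℝ) + 1) * (Real.cos x - Real.cos φ) ^ n * (-Real.sin x)) x := by
    intro x _
    have h3 := ((Real.hasDerivAt_cos x).sub_const (Real.cos φ)).pow (n + 1)
    refine h3.congr_deriv ?_
    push_cast
    rfl
  have hv : ∀ x ∈ Set.uIcc (0 : ℝ) φ, HasDerivAt
      (fun θ : ℝ => (Real.sin ((k - 1) * θ) / (k - 1) - Real.sin ((k + 1) * θ) / (k + 1)) / 2)
      (Real.sin (k * x) * Real.sin x) x := by
    intro x _
    have h3 : HasDerivAt (fun θ : ℝ => Real.sin ((k - 1) * θ)) (Real.cos ((k - 1) * x) * (k - 1)) x := by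
      have h4 : HasDerivAt (fun θ : ℝ => (k - 1) * θ) (k - 1) x := by
        simpa using (hasDerivAt_id x).const_mul (k - 1)
      exact h4.sin
    have h5 : HasDerivAt (fun θ : ℝ => Real.sin ((k + 1) * θ)) (Real.cos ((k + 1) * x) * (k + 1)) x := by
      have h4 : HasDerivAt (fun θ : ℝ => (k + 1) * θ) (k + 1) x := by
        simpa using (hasDerivAt_id x).const_mul (k + 1)
      exact h4.sin
    refine (((h3.div_const (k - 1)).sub (h5.div_const (k + 1))).div_const 2).congr_deriv ?_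
    rw [mul_div_cancel_right₀ _ h1, mul_div_cancel_right₀ _ h2]
    have h6 : (k + 1) * x = k * x + x := by ring
    have h7 : (k - 1) * x = k * x - x := by ring
    rw [h6, h7, Real.cos_add, Real.cos_sub]
    ring
  have hmain := intervalIntegral.integral_mul_deriv_eq_deriv_mul hu hv
    (by
      have h : Continuous (fun x : ℝ => ((n : ℝ) + 1) * (Real.cos x - Real.cos φ) ^ n * (-Real.sin x)) := by
        fun_prop
      exact h.intervalIntegrable _ _)
    (by
      have h : Continuous (fun x : ℝ => Real.sin (k * x) * Real.sin x) := by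
        fun_prop
      exact h.intervalIntegrable _ _)
  have h8 : tT36 (n + 1) k φ = ∫ x in (0 : ℝ)..φ,
      (Real.cos x - Real.cos φ) ^ (n + 1) * (Real.sin (k * x) * Real.sin x) := by
    unfold tT36
    refine intervalIntegral.integral_congr ?_
    intro θ _
    simp only
    ring
  have h9 : (∫ x in (0 : ℝ)..φ, ((n : ℝ) + 1) * (Real.cos x - Real.cos φ) ^ n * (-Real.sin x) *
      ((Real.sin ((k - 1) * x) / (k - 1) - Real.sin ((k + 1) * x) / (k + 1)) / 2)) =
      -(((n : ℝ) + 1) / 2 * (tT36 n (k - 1) φ / (k - 1) - tT36 n (k + 1) φ / (k + 1))) := by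
    unfold tT36
    rw [← intervalIntegral.integral_div, ← intervalIntegral.integral_div,
      ← intervalIntegral.integral_sub ((tint36 _ _ _ _ _).div_const _) ((tint36 _ _ _ _ _).div_const _),
      ← intervalIntegral.integral_const_mul, ← intervalIntegral.integral_neg]
    refine intervalIntegral.integral_congr ?_
    intro θ _
    simp only
    ring
  rw [h8, hmain, h9]
  simp

private theorem tD36 (n : ℕ) (φ : ℝ) :
    tT36 n ((n : ℝ) + 3) φ = Real.cos φ * (((n : ℝ) + 3) / (n + 2)) * tT36 n ((n : ℝ) + 2) φ := by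
  have hn : (0 : ℝ) ≤ n := Nat.cast_nonneg n
  have h1 : ((n : ℝ) + 2) - 1 ≠ 0 := by linarith
  have h2 : ((n : ℝ) + 2) + 1 ≠ 0 := by linarith
  have hA := tA36 n ((n : ℝ) + 2) φ
  have hB := tB36 n φ h1 h2
  have e1 : (n : ℝ) + 2 + 1 = n + 3 := by ring
  have e2 : (n : ℝ) + 2 - 1 = n + 1 := by ring
  rw [e1, e2] at hA hB
  rw [hA] at hB
  have h3 : (n : ℝ) + 3 ≠ 0 := by linarith
  have h4 : (n : ℝ) + 1 ≠ 0 := by linarith
  have h5 : (n : ℝ) + 2 ≠ 0 := by linarith
  generalize tT36 n ((n : ℝ) + 3) φ = a at *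
  generalize tT36 n ((n : ℝ) + 1) φ = b at *
  generalize tT36 n ((n : ℝ) + 2) φ = c at *
  field_simp at hB ⊢
  nlinarith [hB]

private theorem tE36 (n : ℕ) (φ : ℝ) :
    tT36 (n + 1) ((n : ℝ) + 3) φ =
      ((n : ℝ) + 1) * (n + 3) / ((n + 2) * (2 * n + 5)) * Real.sin φ ^ 2 * tT36 n ((n : ℝ) + 2) φ := by
  have hn : (0 : ℝ) ≤ n := Nat.cast_nonneg n
  have h1 : ((n : ℝ) + 3) - 1 ≠ 0 := by linarith
  have h2 : ((n : ℝ) + 3) + 1 ≠ 0 := by linarith
  have hA := tA36 n ((n : ℝ) + 3) φ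
  have hB := tB36 n φ h1 h2
  have hD := tD36 n φ
  have e1 : (n : ℝ) + 3 + 1 = n + 4 := by ring
  have e2 : (n : ℝ) + 3 - 1 = n + 2 := by ring
  rw [e1, e2] at hA hB
  have hs : Real.sin φ ^ 2 = 1 - Real.cos φ ^ 2 := by
    have := Real.sin_sq_add_cos_sq φ
    linarith
  rw [hs]
  have h3 : (n : ℝ) + 3 ≠ 0 := by linarith
  have h5 : (n : ℝ) + 2 ≠ 0 := by linarith
  have h6 : (n : ℝ) + 4 ≠ 0 := by linarith
  have h7 : 2 * (n : ℝ) + 5 ≠ 0 := by linarith
  rw [hD] at hA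
  generalize tT36 (n + 1) ((n : ℝ) + 3) φ = X at *
  generalize tT36 n ((n : ℝ) + 4) φ = a at *
  generalize tT36 n ((n : ℝ) + 2) φ = b at *
  have ha : a = 2 * X - b + 2 * Real.cos φ * (Real.cos φ * (((n : ℝ) + 3) / (n + 2)) * b) := by
    linarith
  rw [ha] at hB
  field_simp at hB ⊢
  ring_nf at hB ⊢
  linarith [hB]

private theorem tG36 (n : ℕ) (φ : ℝ) :
    tT36 n ((n : ℝ) + 2) φ =
      ((n.factorial : ℝ) * (n + 2) / ((2 * n + 3).doubleFactorial : ℝ)) * Real.sin φ ^ (2 * n + 3) := by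
  induction n with
  | zero =>
    have h1 : ∀ x ∈ Set.uIcc (0 : ℝ) φ, HasDerivAt (fun θ : ℝ => 2 / 3 * Real.sin θ ^ 3)
        (Real.sin (((0 : ℕ) + 2 : ℝ) * x) * Real.sin x * (Real.cos x - Real.cos φ) ^ 0) x := by
      intro x _
      refine (((Real.hasDerivAt_sin x).pow 3).const_mul (2 / 3)).congr_deriv ?_
      have h2 : (((0 : ℕ) + 2 : ℝ) * x) = 2 * x := by push_cast; ring
      rw [h2, Real.sin_two_mul]
      push_cast
      ring
    unfold tT36
    rw [intervalIntegral.integral_eq_sub_of_hasDerivAt h1 (tint36 _ _ _ _ _)]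
    norm_num [Nat.doubleFactorial]
  | succ n ih =>
    have h1 := tE36 n φ
    have e1 : ((n + 1 : ℕ) : ℝ) + 2 = (n : ℝ) + 3 := by push_cast; ring
    rw [e1, h1, ih]
    have hn : (0 : ℝ) ≤ n := Nat.cast_nonneg n
    have h3 : (n : ℝ) + 3 ≠ 0 := by linarith
    have h5 : (n : ℝ) + 2 ≠ 0 := by linarith
    have h7 : 2 * (n : ℝ) + 5 ≠ 0 := by linarith
    have h8 : ((2 * n + 3).doubleFactorial : ℝ) ≠ 0 := by
      exact_mod_cast (Nat.doubleFactorial_pos _).ne'
    have h9 : 2 * (n + 1) + 3 = (2 * n + 3) + 2 := by ring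
    have h10 : ((2 * (n + 1) + 3).doubleFactorial : ℝ) = (2 * n + 5) * ((2 * n + 3).doubleFactorial : ℝ) := by
      rw [h9, Nat.doubleFactorial_add_two]
      push_cast
      ring
    rw [h10, Nat.factorial_succ]
    push_cast
    have h11 : Real.sin φ ^ (2 * (n + 1) + 3) = Real.sin φ ^ 2 * Real.sin φ ^ (2 * n + 3) := by
      rw [← pow_add]
      congr 1
      ring
    rw [h11]
    field_simp

theorem rod {m : ℕ} (hm : 1 ≤ m) {y : ℝ} (hy0 : 0 ≤ y) (hy1 : y ≤ 1) :
    ∫ x in y..1, Real.sin ((2 * m + 2) * Real.arccos x) * (x - y) ^ (2 * m - 1) =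
      ((2 * m - 1).factorial : ℝ) * (2 * m + 2) / ((4 * m + 1).doubleFactorial : ℝ) * (y * (1 - y ^ 2) ^ ((2 * m : ℝ) + 1 / 2)) := by
  set φ : ℝ := Real.arccos y with hφ
  have hcos : Real.cos φ = y := Real.cos_arccos (by linarith) hy1
  have hφ0 : 0 ≤ φ := Real.arccos_nonneg y
  have hφπ : φ ≤ π := Real.arccos_le_pi y
  have hsin0 : 0 ≤ Real.sin φ := Real.sin_nonneg_of_nonneg_of_le_pi hφ0 hφπ
  have hsub := intervalIntegral.integral_comp_mul_deriv (a := φ) (b := 0)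
    (f := Real.cos) (f' := fun θ => -Real.sin θ)
    (g := fun x => Real.sin ((2 * m + 2) * Real.arccos x) * (x - y) ^ (2 * m - 1))
    (fun x _ => Real.hasDerivAt_cos x) (by fun_prop) (by
      have h : Continuous Real.arccos := Real.continuous_arccos
      fun_prop)
  rw [hcos, Real.cos_zero] at hsub
  rw [← hsub, intervalIntegral.integral_symm, ← intervalIntegral.integral_neg]
  have h1 : (∫ x in (0 : ℝ)..φ, -(((fun x => Real.sin ((2 * m + 2) * Real.arccos x) * (x - y) ^ (2 * m - 1)) ∘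
      Real.cos) x * -Real.sin x)) = tT36 (2 * m - 1) (2 * m + 2) φ := by
    unfold tT36
    refine intervalIntegral.integral_congr ?_
    intro θ hθ
    rw [Set.uIcc_of_le hφ0] at hθ
    simp only [Function.comp]
    rw [Real.arccos_cos hθ.1 (hθ.2.trans hφπ), hcos]
    ring
  rw [h1]
  obtain ⟨n, rfl⟩ : ∃ n, m = n + 1 := ⟨m - 1, by omega⟩
  have h2 : 2 * (n + 1) - 1 = 2 * n + 1 := by omega
  have h3 : (2 * ((n + 1 : ℕ) : ℝ) + 2) = ((2 * n + 1 : ℕ) : ℝ) + 3 := by push_cast; ring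
  rw [h2, h3, tD36, tG36, hcos]
  have h4 : (1 - y ^ 2) = Real.sin φ ^ 2 := by
    have := Real.sin_sq_add_cos_sq φ
    rw [hcos] at this
    linarith
  have h5 : (1 - y ^ 2) ^ ((2 * ((n + 1 : ℕ) : ℝ)) + 1 / 2) = Real.sin φ ^ (2 * (2 * n + 1) + 3) := by
    rw [h4, ← Real.rpow_natCast (Real.sin φ) 2, ← Real.rpow_mul hsin0, ← Real.rpow_natCast]
    congr 1
    push_cast
    ring
  rw [h5]
  have h6 : 2 * (2 * n + 1) + 3 = 4 * (n + 1) + 1 := by ring
  rw [h6]
  have h7 : ((4 * (n + 1) + 1).doubleFactorial : ℝ) ≠ 0 := by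
    exact_mod_cast (Nat.doubleFactorial_pos _).ne'
  have h8 : (((2 * n + 1 : ℕ) : ℝ) + 2) ≠ 0 := by positivity
  field_simp

theorem Gm_nonneg (m : ℕ) {r : ℝ} (hr : 1 ≤ r) : 0 ≤ Gm m r := by
  unfold Gm
  have h1 : (r ^ 2)⁻¹ ≤ 1 := inv_le_one_of_one_le₀ (one_le_pow₀ hr)
  have h2 : 0 ≤ kap m := by
    unfold kap
    positivity
  have h3 : 0 ≤ (r ^ 2)⁻¹ := by positivity
  exact mul_nonneg (mul_nonneg h2 h3) (Real.rpow_nonneg (by linarith) _)

theorem Gm_le (m : ℕ) {r : ℝ} (hr : 1 ≤ r) : Gm m r ≤ kap m * (r ^ 2)⁻¹ := by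
  unfold Gm
  have h1 : (r ^ 2)⁻¹ ≤ 1 := inv_le_one_of_one_le₀ (one_le_pow₀ hr)
  have h2 : 0 ≤ kap m := by
    unfold kap
    positivity
  have h3 : 0 ≤ (r ^ 2)⁻¹ := by positivity
  have h4 : (1 - (r ^ 2)⁻¹) ^ ((2 * m : ℝ) + 1 / 2) ≤ 1 :=
    Real.rpow_le_one (by linarith) (by linarith) (by positivity)
  exact mul_le_of_le_one_right (mul_nonneg h2 h3) h4

theorem Gm_cont (m : ℕ) : ContinuousOn (Gm m) (Set.Ici 1) := by
  unfold Gm
  have h1 : ContinuousOn (fun r : ℝ => (r ^ 2)⁻¹) (Set.Ici 1) := by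
    refine ContinuousOn.inv₀ (by fun_prop) ?_
    intro r hr
    have h2 : (1 : ℝ) ≤ r := hr
    positivity
  refine (continuousOn_const.mul h1).mul ?_
  refine ContinuousOn.rpow_const (continuousOn_const.sub h1) ?_
  intro r _
  right
  positivity

theorem Gm_int (m : ℕ) : IntegrableOn (Gm m) (Set.Ioi 1) := by
  have h1 : IntegrableOn (fun r : ℝ => kap m * r ^ (-2 : ℝ)) (Set.Ioi 1) :=
    (integrableOn_Ioi_rpow_of_lt (by norm_num) (by norm_num)).const_mul _
  refine Integrable.mono' h1 ((Gm_cont m).mono Set.Ioi_subset_Ici_self |>.aestronglyMeasurable measurableSet_Ioi) ?_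
  rw [ae_restrict_iff' measurableSet_Ioi]
  refine Filter.Eventually.of_forall ?_
  intro r hr
  have h2 : (1 : ℝ) ≤ r := le_of_lt hr
  rw [Real.norm_of_nonneg (Gm_nonneg m h2)]
  refine (Gm_le m h2).trans (le_of_eq ?_)
  congr 1
  rw [Real.rpow_neg (by linarith)]
  norm_num

theorem Gm_total (m : ℕ) : ∫ r in Set.Ioi (1 : ℝ), Gm m r = m + 1 := by
  set s : ℝ := (2 * m : ℝ) + 1 / 2 with hs
  have hs0 : 0 ≤ s := by positivity
  have hg : Continuous (fun u : ℝ => (1 - u ^ 2) ^ s) := by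
    refine Continuous.rpow_const (by fun_prop) ?_
    intro x
    right
    exact hs0
  set F : ℝ → ℝ := fun t => ∫ u in (0 : ℝ)..t, (1 - u ^ 2) ^ s with hF
  have hFd : ∀ t, HasDerivAt F ((1 - t ^ 2) ^ s) t := fun t =>
    (hg.integral_hasStrictDerivAt 0 t).hasDerivAt
  have hFc : Continuous F := by
    rw [continuous_iff_continuousAt]
    exact fun t => (hFd t).continuousAt
  have hder : ∀ r ∈ Set.Ici (1 : ℝ), HasDerivAt (fun r : ℝ => -(kap m * F r⁻¹)) (Gm m r) r := by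
    intro r hr
    have hr0 : r ≠ 0 := by
      have : (1 : ℝ) ≤ r := hr
      linarith
    have h1 := (((hFd r⁻¹).comp r (hasDerivAt_inv hr0)).const_mul (kap m)).neg
    refine h1.congr_deriv ?_
    unfold Gm
    rw [← hs, inv_pow]
    ring
  have htend : Filter.Tendsto (fun r : ℝ => -(kap m * F r⁻¹)) Filter.atTop (nhds 0) := by
    have h1 : Filter.Tendsto (fun r : ℝ => F r⁻¹) Filter.atTop (nhds (F 0)) :=
      (hFc.tendsto 0).comp tendsto_inv_atTop_zero
    have h2 : F 0 = 0 := by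
      rw [hF]
      simp
    rw [h2] at h1
    have h3 := (h1.const_mul (kap m)).neg
    simpa using h3
  rw [integral_Ioi_of_hasDerivAt_of_tendsto' hder (Gm_int m) htend]
  rw [inv_one, zero_sub, neg_neg]
  -- the value at 1
  have hJ : F 1 = 1 / 2 * (π * ∏ i ∈ Finset.range (2 * m + 1), (2 * (i : ℝ) + 1) / (2 * i + 2)) := by
    rw [← integral_sin_pow_even, ← EulerSine.integral_cos_pow_eq]
    have hsub := intervalIntegral.integral_comp_mul_deriv (a := 0) (b := π / 2)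
      (f := Real.sin) (f' := fun θ => Real.cos θ)
      (g := fun u => (1 - u ^ 2) ^ s)
      (fun x _ => Real.hasDerivAt_sin x) (by fun_prop) hg
    rw [Real.sin_zero, Real.sin_pi_div_two] at hsub
    rw [hF]
    simp only
    rw [← hsub]
    refine intervalIntegral.integral_congr ?_
    intro θ hθ
    rw [Set.uIcc_of_le (by positivity)] at hθ
    have hc : 0 ≤ Real.cos θ := Real.cos_nonneg_of_neg_pi_div_two_le_of_le (by linarith [hθ.1, Real.pi_pos]) hθ.2
    simp only [Function.comp]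
    have h1 : 1 - Real.sin θ ^ 2 = Real.cos θ ^ 2 := by
      have := Real.sin_sq_add_cos_sq θ
      linarith
    rw [h1, ← Real.rpow_natCast (Real.cos θ) 2, ← Real.rpow_mul hc]
    have h2 : ((2 : ℕ) : ℝ) * s = ((4 * m + 1 : ℕ) : ℝ) := by
      rw [hs]
      push_cast
      ring
    rw [h2, Real.rpow_natCast, ← pow_succ]
    congr 1
    ring
  have hprod : ∀ n : ℕ, (∏ i ∈ Finset.range (n + 1), (2 * (i : ℝ) + 1) / (2 * i + 2)) =
      ((2 * n + 1).doubleFactorial : ℝ) / (2 ^ (n + 1) * ((n + 1).factorial : ℝ)) := by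
    intro n
    induction n with
    | zero => simp [Nat.doubleFactorial]
    | succ n ih =>
      rw [Finset.prod_range_succ, ih]
      have h9 : 2 * (n + 1) + 1 = (2 * n + 1) + 2 := by ring
      have h10 : ((2 * (n + 1) + 1).doubleFactorial : ℝ) = (2 * n + 3) * ((2 * n + 1).doubleFactorial : ℝ) := by
        rw [h9, Nat.doubleFactorial_add_two]
        push_cast
        ring
      rw [h10, Nat.factorial_succ (n + 1)]
      push_cast
      have h11 : ((n + 1).factorial : ℝ) ≠ 0 := by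
        exact_mod_cast (Nat.factorial_pos _).ne'
      have h12 : (n : ℝ) + 1 + 1 ≠ 0 := by positivity
      field_simp
      ring
  rw [hJ, hprod]
  unfold kap
  have h6 : 2 * (2 * m) + 1 = 4 * m + 1 := by ring
  rw [h6, Nat.factorial_succ (2 * m + 1)]
  have h7 : ((4 * m + 1).doubleFactorial : ℝ) ≠ 0 := by
    exact_mod_cast (Nat.doubleFactorial_pos _).ne'
  have h8 : ((2 * m + 1).factorial : ℝ) ≠ 0 := by
    exact_mod_cast (Nat.factorial_pos _).ne'
  have h9 : π ≠ 0 := Real.pi_ne_zero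
  push_cast
  field_simp
  ring

end Pool.Agent.Helper84.CH
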