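import Pool.Agent.Helper84.CH.LA3
import Pool.Agent.Helper84.CH.LA7

/-!
# Project CH, block LA8: pairing of the kernel with radial functions

`pairing`. PROOF (checked numerically). By `polarV` and `kk_closed` (`z ≠ 0` almost everywhere; `A = 1 + a`), the left side is `c ∫∫_(a, b > 0, |1 + a + ib| ≤ R1) F(|1 + a + ib|) Im((1 + a - ib)^(-(2m+2))) a^(2m-1) b da db` with
`c = ((2π)³ π^(2m))⁻¹ · 4π (2m+1)! · (2π^(2m)/(2m-1)!) 2^(2m-1) 4π = (2^(2m+1)/π) (2m+1) (2m)` (`(2m+1)!/(2m-1)! = (2m+1)(2m)`). Polar coordinates `(1 + a, b) = (r cos θ, r sin θ)` (translate by one, `integral_comp_polarCoord_symm`), `0 < θ < arccos(1/r)`, `1 < r ≤ R1`: `Im((1+a-ib)^(-(2m+2))) = r^(-(2m+2)) sin((2m+2)θ)`.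
So it is `c ∫_1^R1 F(r) r^(-(2m+2)) r² (∫_0^(arccos(1/r)) sin((2m+2)θ) (r cos θ - 1)^(2m-1) sin θ dθ) dr`; substitution `x = cos θ`, `r cos θ - 1 = r (x - 1/r)`: the inner integral is `r^(2m-1) ∫_(1/r)^1 sin((2m+2) arccos x) (x - 1/r)^(2m-1) dx`, `rod` with `y = 1/r`:
`G = c r^(-1) (2m-1)! ((2m+2)/(4m+1)‼) r⁻¹ (1 - r⁻²)^(2m+1/2) = Gm m r`. (Everything is bounded on the bounded region, so the integrability is clear: `|Im(w^(-k))|/b ≤ k ‖w‖^(-k-1)`.)
`far_bound`. PROOF. `polarV`, `sK_bound` (`|sK m 1| ≤ C ((1 + a + b)^(2m+3))⁻¹ ≤ C (r^(2m+3))⁻¹`, `r = nW v ≤ 1 + a + b`), polar coordinates, `a^(2m-1) b² ≤ r^(2m+1)`, angle `≤ π/2`, Jacobian `r`: `r^(2m+1) r r^(-(2m+3)) = r⁻¹`.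
-/

set_option autoImplicit false

open Real MeasureTheory

namespace Pool.Agent.Helper84.CH

private theorem im99 (r t : ℝ) (k : ℕ) :
    (((((r * Real.cos t : ℝ) : ℂ) - ((r * Real.sin t : ℝ) : ℂ) * Complex.I) ^ k)⁻¹).im = (r ^ k)⁻¹ * Real.sin (k * t) := by
  have h1 : ((r * Real.cos t : ℝ) : ℂ) - ((r * Real.sin t : ℝ) : ℂ) * Complex.I = (r : ℂ) * Complex.exp (-((t : ℂ) * Complex.I)) := by
    rw [← neg_mul, ← Complex.ofReal_neg, Complex.exp_mul_I, ← Complex.ofReal_cos, ← Complex.ofReal_sin, Real.cos_neg, Real.sin_neg]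
    push_cast
    ring
  have h2 : (((r : ℂ) * Complex.exp (-((t : ℂ) * Complex.I))) ^ k)⁻¹ = (((r ^ k)⁻¹ : ℝ) : ℂ) * Complex.exp (((k * t : ℝ) : ℂ) * Complex.I) := by
    rw [mul_pow, mul_inv, ← Complex.exp_nat_mul, ← Complex.exp_neg]
    push_cast
    congr 2
    ring
  rw [h1, h2, Complex.im_ofReal_mul, Complex.exp_ofReal_mul_I_im]

private theorem inner99 {m : ℕ} (hm : 1 ≤ m) {r : ℝ} (hr : 1 < r) :
    ∫ t in (0 : ℝ)..Real.arccos (1 / r), Real.sin t * Real.sin ((2 * m + 2) * t) * (r * Real.cos t - 1) ^ (2 * m - 1) =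
      r ^ (2 * m - 1) * (((2 * m - 1).factorial : ℝ) * (2 * m + 2) / ((4 * m + 1).doubleFactorial : ℝ) *
        (1 / r * (1 - (1 / r) ^ 2) ^ ((2 * m : ℝ) + 1 / 2))) := by
  have hr0 : 0 < r := by linarith
  have h1r : 0 ≤ 1 / r := by positivity
  have h1r' : 1 / r ≤ 1 := by
    rw [div_le_one hr0]
    exact hr.le
  rw [← rod hm h1r h1r', ← intervalIntegral.integral_const_mul]
  set g : ℝ → ℝ := fun u => Real.sin ((2 * m + 2) * Real.arccos u) * (r * u - 1) ^ (2 * m - 1) with hg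
  have hgc : Continuous g := by
    rw [hg]
    have := Real.continuous_arccos
    fun_prop
  have h2 := intervalIntegral.integral_comp_mul_deriv'' (f := Real.cos) (f' := fun x => -Real.sin x) (g := g)
    (a := 0) (b := Real.arccos (1 / r)) Real.continuous_cos.continuousOn
    (fun x _ => (Real.hasDerivAt_cos x).hasDerivWithinAt) (Real.continuous_sin.neg.continuousOn) hgc.continuousOn
  rw [Real.cos_zero, Real.cos_arccos (by linarith) h1r'] at h2
  have h3 : ∫ t in (0 : ℝ)..Real.arccos (1 / r), Real.sin t * Real.sin ((2 * m + 2) * t) * (r * Real.cos t - 1) ^ (2 * m - 1) =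
      -∫ t in (0 : ℝ)..Real.arccos (1 / r), (g ∘ Real.cos) t * -Real.sin t := by
    rw [← intervalIntegral.integral_neg]
    refine intervalIntegral.integral_congr fun t ht => ?_
    rw [Set.uIcc_of_le (Real.arccos_nonneg _)] at ht
    have h4 : Real.arccos (Real.cos t) = t := Real.arccos_cos ht.1 (ht.2.trans (Real.arccos_le_pi _))
    simp only [hg, Function.comp_apply, h4]
    ring
  rw [h3, h2, intervalIntegral.integral_symm, neg_neg]
  refine intervalIntegral.integral_congr fun u _ => ?_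
  simp only [hg]
  have h5 : r * u - 1 = r * (u - 1 / r) := by
    field_simp
  rw [h5, mul_pow]
  ring

private def D99 (R1 : ℝ) : Set (ℝ × ℝ) := {p | 1 < p.1 ∧ 0 < p.2 ∧ Real.sqrt (p.1 ^ 2 + p.2 ^ 2) ≤ R1}

private def T99 (R1 : ℝ) : Set (ℝ × ℝ) := {p | (1 < p.1 ∧ p.1 ≤ R1) ∧ 0 < p.2 ∧ p.2 < Real.arccos (1 / p.1)}

private noncomputable def h99 (m : ℕ) (F : ℝ → ℂ) (p : ℝ × ℝ) : ℂ :=
  ((p.2 * ((((p.1 : ℂ) - (p.2 : ℂ) * Complex.I) ^ (2 * m + 2))⁻¹).im * (p.1 - 1) ^ (2 * m - 1) : ℝ) : ℂ) *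
    F (Real.sqrt (p.1 ^ 2 + p.2 ^ 2))

private noncomputable def q99 (m : ℕ) (F : ℝ → ℂ) (p : ℝ × ℝ) : ℂ :=
  (((p.1 ^ (2 * m))⁻¹ * (Real.sin p.2 * Real.sin ((2 * m + 2) * p.2) * (p.1 * Real.cos p.2 - 1) ^ (2 * m - 1)) : ℝ) : ℂ) * F p.1

private theorem mT99 (R1 : ℝ) : MeasurableSet (T99 R1) := by
  have h1 : Measurable fun p : ℝ × ℝ => Real.arccos (1 / p.1) :=
    Real.continuous_arccos.measurable.comp (measurable_const.div measurable_fst)
  exact ((measurableSet_lt measurable_const measurable_fst).inter (measurableSet_le measurable_fst measurable_const)).inter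
    ((measurableSet_lt measurable_const measurable_snd).inter (measurableSet_lt measurable_snd h1))

private theorem point99 {m : ℕ} {F : ℝ → ℂ} {R1 : ℝ} {r t : ℝ} (hr : 0 < r) (ht : -π < t) (ht' : t < π) :
    (r : ℝ) • (D99 R1).indicator (h99 m F) (r * Real.cos t, r * Real.sin t) = (T99 R1).indicator (q99 m F) (r, t) := by
  have hs : Real.sqrt ((r * Real.cos t) ^ 2 + (r * Real.sin t) ^ 2) = r := by
    have : (r * Real.cos t) ^ 2 + (r * Real.sin t) ^ 2 = r ^ 2 := by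
      linear_combination r ^ 2 * Real.sin_sq_add_cos_sq t
    rw [this, Real.sqrt_sq hr.le]
  have hiff : (r * Real.cos t, r * Real.sin t) ∈ D99 R1 ↔ (r, t) ∈ T99 R1 := by
    unfold D99 T99
    simp only [Set.mem_ofPred_eq, hs]
    constructor
    · rintro ⟨h1, h2, h3⟩
      have hr1 : 1 < r := lt_of_lt_of_le h1 (by nlinarith [Real.cos_le_one t])
      have hst : 0 < Real.sin t := by
        by_contra hc
        push Not at hc
        nlinarith
      have ht0 : 0 < t := by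
        by_contra hc
        push Not at hc
        have := Real.sin_nonpos_of_nonpos_of_neg_pi_le hc ht.le
        linarith
      refine ⟨⟨hr1, h3⟩, ht0, ?_⟩
      by_contra hc
      push Not at hc
      have h4 := Real.cos_le_cos_of_nonneg_of_le_pi (Real.arccos_nonneg _) ht'.le hc
      have h1r : 0 ≤ 1 / r := by positivity
      have h1r' : 1 / r ≤ 1 := by
        rw [div_le_one hr]
        exact hr1.le
      rw [Real.cos_arccos (by linarith) h1r', le_div_iff₀ hr] at h4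
      linarith
    · rintro ⟨⟨h1, h2⟩, h3, h4⟩
      have h1r : 0 ≤ 1 / r := by positivity
      have h1r' : 1 / r ≤ 1 := by
        rw [div_le_one hr]
        exact h1.le
      have h5 := Real.cos_lt_cos_of_nonneg_of_le_pi h3.le (Real.arccos_le_pi _) h4
      rw [Real.cos_arccos (by linarith) h1r', div_lt_iff₀ hr] at h5
      exact ⟨by linarith, mul_pos hr (Real.sin_pos_of_pos_of_lt_pi h3 ht'), h2⟩
  by_cases hT : (r, t) ∈ T99 R1
  · rw [Set.indicator_of_mem hT, Set.indicator_of_mem (hiff.2 hT)]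
    unfold h99 q99
    simp only [hs]
    rw [Complex.real_smul, ← mul_assoc, ← Complex.ofReal_mul, im99]
    congr 2
    push_cast
    field_simp
    ring
  · rw [Set.indicator_of_notMem hT, Set.indicator_of_notMem (fun h => hT (hiff.1 h)), smul_zero]

private theorem qint99 {m : ℕ} {F : ℝ → ℂ} (hF : Continuous F) (R1 : ℝ) :
    Integrable ((T99 R1).indicator (q99 m F)) := by
  rw [integrable_indicator_iff (mT99 R1)]
  have h1 : ContinuousOn (q99 m F) (Set.Icc 1 R1 ×ˢ Set.Icc 0 π) := by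
    have h2 : ContinuousOn (fun p : ℝ × ℝ => (p.1 ^ (2 * m))⁻¹) (Set.Icc 1 R1 ×ˢ Set.Icc 0 π) := by
      refine ContinuousOn.inv₀ (by fun_prop) fun p hp => ?_
      have : 1 ≤ p.1 := hp.1.1
      positivity
    unfold q99
    refine ContinuousOn.mul (Complex.continuous_ofReal.comp_continuousOn (h2.mul (by fun_prop))) ?_
    exact (hF.comp continuous_fst).continuousOn
  have h3 : IntegrableOn (q99 m F) (Set.Icc 1 R1 ×ˢ Set.Icc 0 π) :=
    h1.integrableOn_compact (isCompact_Icc.prod isCompact_Icc)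
  refine h3.mono_set ?_
  rintro p ⟨⟨h4, h5⟩, h6, h7⟩
  exact ⟨⟨h4.le, h5⟩, h6.le, h7.le.trans (Real.arccos_le_pi _)⟩

private theorem planar99 {m : ℕ} (hm : 1 ≤ m) {F : ℝ → ℂ} (hF : Continuous F) {R1 : ℝ} (hR : 1 ≤ R1) :
    ∫ p : ℝ × ℝ, (D99 R1).indicator (h99 m F) p =
      ∫ r in (1 : ℝ)..R1, ((((2 * m - 1).factorial : ℝ) * (2 * m + 2) / ((4 * m + 1).doubleFactorial : ℝ) *
        ((r ^ 2)⁻¹ * (1 - (r ^ 2)⁻¹) ^ ((2 * m : ℝ) + 1 / 2)) : ℝ) : ℂ) * F r := by
  rw [← integral_comp_polarCoord_symm]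
  have h1 : ∫ p in polarCoord.target, p.1 • (D99 R1).indicator (h99 m F) (polarCoord.symm p) =
      ∫ p in polarCoord.target, (T99 R1).indicator (q99 m F) p := by
    refine setIntegral_congr_fun polarCoord.open_target.measurableSet fun p hp => ?_
    rw [polarCoord_target] at hp
    exact point99 hp.1 hp.2.1 hp.2.2
  rw [h1, setIntegral_eq_integral_of_forall_compl_eq_zero, Measure.volume_eq_prod, integral_prod]
  rotate_left
  · rw [← Measure.volume_eq_prod]
    exact qint99 hF R1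
  · intro p hp
    refine Set.indicator_of_notMem (fun hT => hp ?_) _
    rw [polarCoord_target]
    have h2 : 0 < p.1 := by linarith [hT.1.1]
    have h3 : -π < p.2 := by linarith [hT.2.1, Real.pi_pos]
    refine ⟨h2, h3, lt_of_lt_of_le hT.2.2 (Real.arccos_le_pi _)⟩
  have h2 : ∀ x : ℝ, ∫ y : ℝ, (T99 R1).indicator (q99 m F) (x, y) =
      (Set.Ioc 1 R1).indicator (fun x => ∫ y in Set.Ioo 0 (Real.arccos (1 / x)), q99 m F (x, y)) x := by
    intro x
    by_cases hx : x ∈ Set.Ioc 1 R1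
    · rw [Set.indicator_of_mem hx, ← integral_indicator measurableSet_Ioo]
      congr 1
      funext y
      by_cases hy : y ∈ Set.Ioo 0 (Real.arccos (1 / x))
      · rw [Set.indicator_of_mem hy, Set.indicator_of_mem (show (x, y) ∈ T99 R1 from ⟨hx, hy⟩)]
      · rw [Set.indicator_of_notMem hy, Set.indicator_of_notMem (fun h => hy h.2)]
    · rw [Set.indicator_of_notMem hx]
      have : (fun y : ℝ => (T99 R1).indicator (q99 m F) (x, y)) = fun _ => 0 := by
        funext y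
        exact Set.indicator_of_notMem (fun h => hx h.1) _
      rw [this, integral_zero]
  simp only [h2]
  rw [integral_indicator measurableSet_Ioc, intervalIntegral.integral_of_le hR]
  refine setIntegral_congr_fun measurableSet_Ioc fun x hx => ?_
  have hx1 : 1 < x := hx.1
  have hx0 : 0 < x := by linarith
  simp only [q99]
  rw [integral_mul_const, integral_complex_ofReal, integral_const_mul, ← integral_Ioc_eq_integral_Ioo,
    ← intervalIntegral.integral_of_le (Real.arccos_nonneg _), inner99 hm hx1]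
  congr 2
  have h3 : x ^ (2 * m) = x ^ (2 * m - 1) * x := by
    rw [← pow_succ]
    congr 1
    omega
  have h4 : (1 / x) ^ 2 = (x ^ 2)⁻¹ := by
    rw [one_div, inv_pow]
  rw [h3, h4]
  field_simp

private theorem mpsi99 {m : ℕ} : Measurable fun v : Vm m => (sq v.1 / 2, ‖v.2‖) := by
  have h1 : Continuous fun v : Vm m => (sq v.1 / 2, ‖v.2‖) := by
    unfold sq
    fun_prop
  exact h1.measurable

private theorem ae99 {m : ℕ} (hm : 1 ≤ m) : ∀ᵐ v : Vm m, 0 < ‖v.2‖ := by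
  have h1 : ∀ᵐ p ∂((volume : Measure (Vm m)).map (fun v => (sq v.1 / 2, ‖v.2‖))), 0 < p.2 := by
    rw [polarV hm]
    refine (withDensity_absolutelyContinuous _ _).ae_le ?_
    exact (ae_restrict_mem (measurableSet_Ioi.prod measurableSet_Ioi)).mono fun p hp => hp.2
  exact (ae_map_iff mpsi99.aemeasurable (measurableSet_lt measurable_const measurable_snd)).1 h1

private noncomputable def K99 (m : ℕ) (p : ℝ × ℝ) : ℝ :=
  ((2 * π) ^ 3 * π ^ (2 * m))⁻¹ * (4 * π * ((2 * m + 1).factorial : ℝ) / p.2 *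
    ((((p.1 + 1 : ℝ) : ℂ) - (p.2 : ℂ) * Complex.I) ^ (2 * m + 2))⁻¹.im)

private theorem mK99 (m : ℕ) : Measurable (K99 m) := by
  have h1 : Measurable fun p : ℝ × ℝ => ((((p.1 + 1 : ℝ) : ℂ) - (p.2 : ℂ) * Complex.I) ^ (2 * m + 2)) := by
    have : Continuous fun p : ℝ × ℝ => ((((p.1 + 1 : ℝ) : ℂ) - (p.2 : ℂ) * Complex.I) ^ (2 * m + 2)) := by
      fun_prop
    exact this.measurable
  have h2 : Measurable fun p : ℝ × ℝ => (((((p.1 + 1 : ℝ) : ℂ) - (p.2 : ℂ) * Complex.I) ^ (2 * m + 2))⁻¹).im :=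
    Complex.measurable_im.comp h1.inv
  unfold K99
  exact measurable_const.mul ((measurable_const.div measurable_snd).mul h2)

private theorem sq_nonneg99 {m : ℕ} (w : Wm m) : 0 ≤ sq w := Finset.sum_nonneg fun _ _ => sq_nonneg _

private theorem aux99 (A B C D : ℝ) (Y : ℂ) (h : A * B = C * D) :
    (A : ℂ) * ((B : ℂ) * Y) = (C : ℂ) * ((D : ℂ) * Y) := by
  rw [← mul_assoc, ← mul_assoc, ← Complex.ofReal_mul, ← Complex.ofReal_mul, h]

private theorem toplane99 {m : ℕ} (hm : 1 ≤ m) {F : ℝ → ℂ} (hF : Continuous F) (R1 : ℝ) :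
    ∫ v in {v : Vm m | nW v ≤ R1}, ((sK m 1 v : ℝ) : ℂ) * F (nW v) =
      ((2 * π ^ (2 * m) / ((2 * m - 1).factorial : ℝ) * 2 ^ (2 * m - 1) * (4 * π) *
        (((2 * π) ^ 3 * π ^ (2 * m))⁻¹ * (4 * π * ((2 * m + 1).factorial : ℝ))) : ℝ) : ℂ) *
        ∫ p : ℝ × ℝ, (D99 R1).indicator (h99 m F) p := by
  set ψ : Vm m → ℝ × ℝ := fun v => (sq v.1 / 2, ‖v.2‖) with hψ
  set S : Set (ℝ × ℝ) := {p | Real.sqrt ((1 + p.1) ^ 2 + p.2 ^ 2) ≤ R1} with hS
  set Q : Set (ℝ × ℝ) := Set.Ioi 0 ×ˢ Set.Ioi 0 with hQ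
  have mS : MeasurableSet S := by
    have h1 : Continuous fun p : ℝ × ℝ => Real.sqrt ((1 + p.1) ^ 2 + p.2 ^ 2) := by fun_prop
    exact measurableSet_le h1.measurable measurable_const
  have mQ : MeasurableSet Q := measurableSet_Ioi.prod measurableSet_Ioi
  set g : ℝ × ℝ → ℂ := fun p => ((K99 m p : ℝ) : ℂ) * F (Real.sqrt ((1 + p.1) ^ 2 + p.2 ^ 2)) with hg
  have mg : Measurable g := by
    have h1 : Continuous fun p : ℝ × ℝ => F (Real.sqrt ((1 + p.1) ^ 2 + p.2 ^ 2)) := by fun_prop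
    exact (Complex.measurable_ofReal.comp (mK99 m)).mul h1.measurable
  have h1 : ∫ v in {v : Vm m | nW v ≤ R1}, ((sK m 1 v : ℝ) : ℂ) * F (nW v) = ∫ v in ψ ⁻¹' S, g (ψ v) := by
    refine setIntegral_congr_ae (mpsi99 mS) ?_
    refine (ae99 hm).mono fun v hv _ => ?_
    have hz : v.2 ≠ 0 := norm_pos_iff.1 hv
    have hA : 0 < sq v.1 / 2 + 1 := by
      have := sq_nonneg99 v.1
      linarith
    simp only [hg, hψ]
    unfold sK K99 nW
    rw [kk_closed m hA hz]
  rw [h1, ← setIntegral_map mS mg.aestronglyMeasurable mpsi99.aemeasurable, polarV hm,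
    setIntegral_withDensity_eq_setIntegral_toReal_smul (by fun_prop) (by simp) g mS,
    Measure.restrict_restrict mS, ← integral_indicator (mS.inter mQ),
    ← integral_add_right_eq_self (fun p => (D99 R1).indicator (h99 m F) p) ((1, 0) : ℝ × ℝ),
    ← integral_const_mul]
  congr 1
  funext p
  obtain ⟨a, b⟩ := p
  have hs : (a, b) + ((1, 0) : ℝ × ℝ) = (a + 1, b) := by
    simp
  rw [hs]
  have hiff : (a, b) ∈ S ∩ Q ↔ (a + 1, b) ∈ D99 R1 := by
    unfold D99
    simp only [hS, hQ, Set.mem_inter_iff, Set.mem_ofPred_eq, Set.mem_prod, Set.mem_Ioi]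
    rw [add_comm 1 a]
    constructor
    · rintro ⟨h2, h3, h4⟩
      exact ⟨by linarith, h4, h2⟩
    · rintro ⟨h2, h3, h4⟩
      exact ⟨h4, by linarith, h3⟩
  by_cases hp : (a, b) ∈ S ∩ Q
  · rw [Set.indicator_of_mem hp, Set.indicator_of_mem (hiff.1 hp)]
    have ha : 0 < a := hp.2.1
    have hb : 0 < b := hp.2.2
    simp only [hg]
    unfold h99 K99
    simp only []
    rw [ENNReal.toReal_ofReal (by positivity), Complex.real_smul, add_comm 1 a, add_sub_cancel_right]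
    generalize (((((a + 1 : ℝ) : ℂ) - (b : ℂ) * Complex.I) ^ (2 * m + 2))⁻¹).im = X
    generalize F (Real.sqrt ((a + 1) ^ 2 + b ^ 2)) = Y
    generalize ((2 * m - 1).factorial : ℝ) = f1
    generalize ((2 * m + 1).factorial : ℝ) = f2
    have hreal : 2 * π ^ (2 * m) / f1 * 2 ^ (2 * m - 1) * (4 * π) * (a ^ (2 * m - 1) * b ^ 2) *
        (((2 * π) ^ 3 * π ^ (2 * m))⁻¹ * (4 * π * f2 / b * X)) =
        2 * π ^ (2 * m) / f1 * 2 ^ (2 * m - 1) * (4 * π) * (((2 * π) ^ 3 * π ^ (2 * m))⁻¹ * (4 * π * f2)) *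
          (b * X * a ^ (2 * m - 1)) := by
      field_simp
    exact aux99 _ _ _ _ Y hreal
  · rw [Set.indicator_of_notMem hp, Set.indicator_of_notMem (fun h => hp (hiff.2 h)), mul_zero]

private theorem const99 {m : ℕ} (hm : 1 ≤ m) (X : ℝ) :
    2 * π ^ (2 * m) / ((2 * m - 1).factorial : ℝ) * 2 ^ (2 * m - 1) * (4 * π) *
      (((2 * π) ^ 3 * π ^ (2 * m))⁻¹ * (4 * π * ((2 * m + 1).factorial : ℝ))) *
      (((2 * m - 1).factorial : ℝ) * (2 * m + 2) / ((4 * m + 1).doubleFactorial : ℝ) * X) =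
    kap m * X := by
  have h1 : ((2 * m + 2).factorial : ℝ) = (2 * m + 2) * ((2 * m + 1).factorial : ℝ) := by
    rw [Nat.factorial_succ]
    push_cast
    ring
  have h2 : (2 : ℝ) ^ (2 * m + 1) = 2 ^ (2 * m - 1) * 4 := by
    have : 2 * m + 1 = (2 * m - 1) + 2 := by omega
    rw [this, pow_add]
    norm_num
  have h3 : ((2 * m - 1).factorial : ℝ) ≠ 0 := by positivity
  have h4 : ((4 * m + 1).doubleFactorial : ℝ) ≠ 0 := by
    have := Nat.doubleFactorial_pos (4 * m + 1)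
    positivity
  unfold kap
  rw [h1, h2]
  field_simp
  ring

theorem pairing {m : ℕ} (hm : 1 ≤ m) {F : ℝ → ℂ} (hF : ContinuousOn F (Set.Ici 1)) {R1 : ℝ} (hR : 1 ≤ R1) :
    ∫ v in {v : Vm m | nW v ≤ R1}, ((sK m 1 v : ℝ) : ℂ) * F (nW v) = ∫ r in (1 : ℝ)..R1, ((Gm m r : ℝ) : ℂ) * F r := by
  set F' : ℝ → ℂ := fun r => F (max 1 r) with hF'
  have hc : Continuous F' := by
    refine hF.comp_continuous (by fun_prop) fun r => ?_
    exact Set.mem_Ici.2 (le_max_left _ _)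
  have h1 : ∫ v in {v : Vm m | nW v ≤ R1}, ((sK m 1 v : ℝ) : ℂ) * F (nW v) =
      ∫ v in {v : Vm m | nW v ≤ R1}, ((sK m 1 v : ℝ) : ℂ) * F' (nW v) := by
    congr 1
    funext v
    rw [hF']
    simp only [max_eq_right (one_le_nW v)]
  rw [h1, toplane99 hm hc R1, planar99 hm hc hR, ← intervalIntegral.integral_const_mul]
  refine intervalIntegral.integral_congr fun r hr => ?_
  rw [Set.uIcc_of_le hR] at hr
  simp only [hF', max_eq_right hr.1]
  rw [← mul_assoc, ← Complex.ofReal_mul, const99 hm]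
  unfold Gm
  rw [mul_assoc]

private theorem ptbound99 {m : ℕ} (hm : 1 ≤ m) {C0 : ℝ} (hC : 0 ≤ C0) {c1 : ℝ} (hc : 0 ≤ c1) {x y : ℝ}
    (hx : 1 < x) (hy : 0 < y) :
    c1 * ((x - 1) ^ (2 * m - 1) * y ^ 2) * (C0 * ((x + y) ^ (2 * m + 3))⁻¹) ≤
      c1 * C0 * ((Real.sqrt (x ^ 2 + y ^ 2)) ^ 2)⁻¹ := by
  set r : ℝ := Real.sqrt (x ^ 2 + y ^ 2) with hr
  have hx0 : 0 < x := by linarith
  have hr2 : r ^ 2 = x ^ 2 + y ^ 2 := Real.sq_sqrt (by positivity)
  have hr0 : 0 < r := Real.sqrt_pos.2 (by positivity)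
  have hxr : x ≤ r := by
    rw [hr]
    exact Real.le_sqrt_of_sq_le (by nlinarith)
  have hyr : y ≤ r := by
    rw [hr]
    exact Real.le_sqrt_of_sq_le (by nlinarith)
  have hrs : r ≤ x + y := by
    rw [hr, Real.sqrt_le_left (by positivity)]
    nlinarith [mul_pos hx0 hy]
  have h1 : (x - 1) ^ (2 * m - 1) ≤ r ^ (2 * m - 1) := pow_le_pow_left₀ (by linarith) (by linarith) _
  have h2 : y ^ 2 ≤ r ^ 2 := pow_le_pow_left₀ hy.le hyr _
  have h3 : ((x + y) ^ (2 * m + 3))⁻¹ ≤ (r ^ (2 * m + 3))⁻¹ :=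
    inv_anti₀ (by positivity) (pow_le_pow_left₀ hr0.le hrs _)
  calc c1 * ((x - 1) ^ (2 * m - 1) * y ^ 2) * (C0 * ((x + y) ^ (2 * m + 3))⁻¹)
      ≤ c1 * (r ^ (2 * m - 1) * r ^ 2) * (C0 * (r ^ (2 * m + 3))⁻¹) := by
        have h4 : 0 ≤ x - 1 := by linarith
        gcongr
    _ = c1 * C0 * (r ^ 2)⁻¹ := by
        have h5 : r ^ (2 * m + 3) = r ^ (2 * m - 1) * r ^ 2 * r ^ 2 := by
          rw [← pow_add, ← pow_add]
          congr 1
          omega
        rw [h5]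
        field_simp

theorem far_bound {m : ℕ} (hm : 1 ≤ m) : ∃ C : ℝ, 0 ≤ C ∧ ∀ Φ : ℝ → ENNReal, Measurable Φ →
    ∫⁻ v : Vm m, Φ (nW v) * ENNReal.ofReal |sK m 1 v| ≤ ENNReal.ofReal C * ∫⁻ r in Set.Ioi (1 : ℝ), Φ r * ENNReal.ofReal r⁻¹ := by
  obtain ⟨C0, hC0, hb⟩ := sK_bound m
  set c1 : ℝ := 2 * π ^ (2 * m) / ((2 * m - 1).factorial : ℝ) * 2 ^ (2 * m - 1) * (4 * π) with hc1
  have hc1' : 0 ≤ c1 := by positivity
  refine ⟨c1 * C0 * (2 * π), by positivity, fun Φ hΦ => ?_⟩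
  -- to the plane
  set G : ℝ × ℝ → ENNReal := fun p => Φ (Real.sqrt ((1 + p.1) ^ 2 + p.2 ^ 2)) *
    ENNReal.ofReal (C0 * ((1 + p.1 + p.2) ^ (2 * m + 3))⁻¹) with hG
  have mG : Measurable G := by
    have h1 : Continuous fun p : ℝ × ℝ => Real.sqrt ((1 + p.1) ^ 2 + p.2 ^ 2) := by fun_prop
    have h2 : Measurable fun p : ℝ × ℝ => C0 * ((1 + p.1 + p.2) ^ (2 * m + 3))⁻¹ := by fun_prop
    exact (hΦ.comp h1.measurable).mul h2.ennreal_ofReal
  have h1 : ∫⁻ v : Vm m, Φ (nW v) * ENNReal.ofReal |sK m 1 v| ≤ ∫⁻ v : Vm m, G (sq v.1 / 2, ‖v.2‖) := by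
    refine lintegral_mono fun v => ?_
    simp only [hG]
    unfold nW
    gcongr
    exact hb 1 one_pos v
  refine h1.trans ?_
  rw [← lintegral_map mG mpsi99, polarV hm, lintegral_withDensity_eq_lintegral_mul _ (by fun_prop) mG,
    ← lintegral_indicator (measurableSet_Ioi.prod measurableSet_Ioi)]
  -- bound by a radial function
  set H : ℝ → ENNReal := (Set.Ioi (1 : ℝ)).indicator (fun r => Φ r * ENNReal.ofReal (c1 * C0 * (r ^ 2)⁻¹)) with hH
  have mH : Measurable H := by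
    refine Measurable.indicator (hΦ.mul ?_) measurableSet_Ioi
    fun_prop
  have h2 : ∫⁻ p : ℝ × ℝ, (Set.Ioi (0 : ℝ) ×ˢ Set.Ioi (0 : ℝ)).indicator
      ((fun p : ℝ × ℝ => ENNReal.ofReal (c1 * (p.1 ^ (2 * m - 1) * p.2 ^ 2))) * G) p ≤
      ∫⁻ p : ℝ × ℝ, H (Real.sqrt ((p + (1, 0)).1 ^ 2 + (p + (1, 0)).2 ^ 2)) := by
    refine lintegral_mono fun p => ?_
    obtain ⟨a, b⟩ := p
    have hs : (a, b) + ((1, 0) : ℝ × ℝ) = (a + 1, b) := by
      simp
    rw [hs]
    by_cases hp : (a, b) ∈ Set.Ioi (0 : ℝ) ×ˢ Set.Ioi (0 : ℝ)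
    · have ha : 0 < a := hp.1
      have hb' : 0 < b := hp.2
      rw [Set.indicator_of_mem hp]
      have h3 : Real.sqrt ((a + 1) ^ 2 + b ^ 2) ∈ Set.Ioi (1 : ℝ) := by
        rw [Set.mem_Ioi]
        refine Real.lt_sqrt_of_sq_lt ?_
        nlinarith
      simp only [hH, hG, Pi.mul_apply]
      rw [Set.indicator_of_mem h3, add_comm 1 a, mul_left_comm, ← ENNReal.ofReal_mul (by positivity)]
      have h4 := ptbound99 hm hC0 hc1' (x := a + 1) (y := b) (by linarith) hb'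
      rw [add_sub_cancel_right] at h4
      exact mul_le_mul' le_rfl (ENNReal.ofReal_le_ofReal h4)
    · rw [Set.indicator_of_notMem hp]
      exact bot_le
  refine h2.trans ?_
  rw [lintegral_add_right_eq_self (fun p : ℝ × ℝ => H (Real.sqrt (p.1 ^ 2 + p.2 ^ 2))),
    ← lintegral_comp_polarCoord_symm]
  have h3 : ∫⁻ p in polarCoord.target, ENNReal.ofReal p.1 • H (Real.sqrt ((polarCoord.symm p).1 ^ 2 + (polarCoord.symm p).2 ^ 2)) =
      ∫⁻ p in polarCoord.target, (ENNReal.ofReal p.1 * H p.1) * 1 := by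
    refine setLIntegral_congr_fun polarCoord.open_target.measurableSet fun p hp => ?_
    rw [polarCoord_target] at hp
    have hp1 : 0 < p.1 := hp.1
    have h4 : Real.sqrt ((polarCoord.symm p).1 ^ 2 + (polarCoord.symm p).2 ^ 2) = p.1 := by
      rw [polarCoord_symm_apply]
      have : (p.1 * Real.cos p.2) ^ 2 + (p.1 * Real.sin p.2) ^ 2 = p.1 ^ 2 := by
        linear_combination p.1 ^ 2 * Real.sin_sq_add_cos_sq p.2
      simp only [this]
      exact Real.sqrt_sq hp1.le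
    simp only [h4, smul_eq_mul, mul_one]
  rw [h3, polarCoord_target, Measure.volume_eq_prod, ← Measure.prod_restrict,
    lintegral_prod_mul (f := fun x => ENNReal.ofReal x * H x) (g := fun _ => 1)
      (ENNReal.measurable_ofReal.mul mH).aemeasurable aemeasurable_const]
  have h5 : ∫⁻ _ in Set.Ioo (-π) π, (1 : ENNReal) = ENNReal.ofReal (2 * π) := by
    rw [setLIntegral_one, Real.volume_Ioo]
    congr 1
    ring
  have h6 : ∫⁻ x in Set.Ioi (0 : ℝ), ENNReal.ofReal x * H x =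
      ENNReal.ofReal (c1 * C0) * ∫⁻ r in Set.Ioi (1 : ℝ), Φ r * ENNReal.ofReal r⁻¹ := by
    have h7 : ∀ x : ℝ, ENNReal.ofReal x * H x = (Set.Ioi (1 : ℝ)).indicator
        (fun r => ENNReal.ofReal (c1 * C0) * (Φ r * ENNReal.ofReal r⁻¹)) x := by
      intro x
      by_cases hx : x ∈ Set.Ioi (1 : ℝ)
      · have hx1 : 1 < x := hx
        have hx0 : 0 < x := by linarith
        simp only [hH]
        rw [Set.indicator_of_mem hx, Set.indicator_of_mem hx, mul_left_comm, ← ENNReal.ofReal_mul hx0.le,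
          mul_left_comm (ENNReal.ofReal (c1 * C0)), ← ENNReal.ofReal_mul (by positivity)]
        congr 2
        field_simp
      · simp only [hH]
        rw [Set.indicator_of_notMem hx, Set.indicator_of_notMem hx, mul_zero]
    simp only [h7]
    rw [setLIntegral_indicator measurableSet_Ioi, Set.inter_eq_left.2 (Set.Ioi_subset_Ioi zero_le_one)]
    have h8 : Measurable fun r : ℝ => Φ r * ENNReal.ofReal r⁻¹ := by
      fun_prop
    rw [lintegral_const_mul _ h8]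
  rw [h5, h6, ENNReal.ofReal_mul (p := c1 * C0) (by positivity)]
  exact le_of_eq (by ring)

end Pool.Agent.Helper84.CH
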