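import Pool.Agent.Helper84.CH.LA3

/-!
# Project CH, block LA9: the boxes (Følner sets)

`box R = {|w_i| ≤ √R, |ζ_k| ≤ R}`, `chi R u` = proportion of the `v ∈ box R` with `v u ∈ box R`. PROOFS. `box_vol`: product of intervals (`E3` has the product measure: `EuclideanSpace.volume_preserving_measurableEquiv` or `volume_preserving_ofLp`).
`chi_far`: if `v, v u ∈ box R` then `u = dv v (v u)`, `|w_u| ≤ 2 √R` componentwise, `|ζ_u| ≤ 2 R + |br w w'|`, so `nW u ≤ κ R` (`R ≥ 1`).
`chi_near`: `v ∈ box R`, `v u ∉ box R` implies: for some `i`, `|w_i + (w_u)_i| > √R`, a set of `v` of proportion at most `|(w_u)_i|/(2√R)` of the box; or for some `k`, `|ζ_k + (ζ_u)_k + (br w w_u)_k| > R`: for fixed `w` (`|w_i| ≤ √R`) this is a proportion at most `(|ζ_u| + C √R |w_u|)/(2R)` of the `ζ_k`. `|(w_u)_i| ≤ √(2 nW u)`, `‖ζ_u‖ ≤ nW u`.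
So `1 - chi R u ≤ C' (√(nW u/R) + nW u/R)`, and `1 - chi R u ≤ 1`: the claim, distinguishing `nW u ≤ R` and `nW u > R`.
`chi_int`. PROOF. `∫_v ∫_v' 1_box(v) 1_box(v') k(dv v v')`: substitute `v' = mulV v u` (`mp_left`, `dv_mulV`), Fubini (`k` is bounded and the box has finite measure; the support is bounded). `box_bdd`: clear.
-/

set_option autoImplicit false

open Real MeasureTheory

namespace Pool.Agent.Helper84.CH

variable {m : ℕ}

/-- The boxes. -/
def box (m : ℕ) (R : ℝ) : Set (Vm m) := {v | (∀ i, |v.1 i| ≤ Real.sqrt R) ∧ ∀ k, |v.2 k| ≤ R}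

/-- The proportion of the box which stays in the box. -/
noncomputable def chi (m : ℕ) (R : ℝ) (u : Vm m) : ℝ :=
  (volume {v : Vm m | v ∈ box m R ∧ mulV v u ∈ box m R}).toReal / (volume (box m R)).toReal

private theorem box_eq50 (R : ℝ) : box m R = (Set.univ.pi fun _ : Fin m × Fin 4 => Set.Icc (-Real.sqrt R) (Real.sqrt R)) ×ˢ
    {z : E3 | ∀ k, z k ∈ Set.Icc (-R) R} := by
  ext v
  simp only [box, Set.mem_setOf_eq, Set.mem_prod, Set.mem_univ_pi, Set.mem_Icc, abs_le]

theorem box_closed (R : ℝ) : IsClosed (box m R) := by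
  have h1 : IsClosed {v : Vm m | ∀ i, |v.1 i| ≤ Real.sqrt R} := by
    simp only [Set.setOf_forall]
    refine isClosed_iInter fun i => isClosed_le ?_ continuous_const
    fun_prop
  have h2 : IsClosed {v : Vm m | ∀ k, |v.2 k| ≤ R} := by
    simp only [Set.setOf_forall]
    refine isClosed_iInter fun k => isClosed_le ?_ continuous_const
    fun_prop
  exact h1.inter h2

private theorem norm3_50 (z : E3) : ‖z‖ ≤ |z 0| + |z 1| + |z 2| := by
  rw [EuclideanSpace.norm_eq, Fin.sum_univ_three]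
  refine Real.sqrt_le_iff.2 ⟨by positivity, ?_⟩
  simp only [Real.norm_eq_abs]
  nlinarith [abs_nonneg (z 0), abs_nonneg (z 1), abs_nonneg (z 2), mul_nonneg (abs_nonneg (z 0)) (abs_nonneg (z 1)),
    mul_nonneg (abs_nonneg (z 0)) (abs_nonneg (z 2)), mul_nonneg (abs_nonneg (z 1)) (abs_nonneg (z 2))]

private theorem coord3_50 (z : E3) (k : Fin 3) : |z k| ≤ ‖z‖ := by
  have := PiLp.norm_apply_le z k
  simpa using this

theorem box_bdd (R : ℝ) : ∃ ρ : ℝ, ∀ v ∈ box m R, ‖v‖ ≤ ρ := by
  refine ⟨max (Real.sqrt R) (3 * R), fun v hv => ?_⟩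
  rw [Prod.norm_def]
  refine max_le_max ?_ ?_
  · exact (pi_norm_le_iff_of_nonneg (Real.sqrt_nonneg _)).2 fun i => hv.1 i
  · refine (norm3_50 v.2).trans ?_
    linarith [hv.2 0, hv.2 1, hv.2 2]

private theorem zero_nhds50 {R : ℝ} (hR : 0 < R) : box m R ∈ nhds (0 : Vm m) := by
  have hs := Real.sqrt_pos.2 hR
  refine Metric.mem_nhds_iff.2 ⟨min (Real.sqrt R) R, lt_min hs hR, fun v hv => ?_⟩
  rw [mem_ball_zero_iff, Prod.norm_def, max_lt_iff] at hv
  refine ⟨fun i => ?_, fun k => ?_⟩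
  · exact ((norm_le_pi_norm v.1 i).trans hv.1.le).trans (min_le_left _ _)
  · exact ((coord3_50 v.2 k).trans hv.2.le).trans (min_le_right _ _)

theorem box_vol {R : ℝ} (hR : 0 < R) : volume (box m R) ≠ ⊤ ∧ 0 < (volume (box m R)).toReal := by
  have h1 : volume (box m R) < ⊤ := by
    obtain ⟨ρ, hρ⟩ := box_bdd (m := m) R
    refine Bornology.IsBounded.measure_lt_top ?_
    exact (isBounded_iff_forall_norm_le).2 ⟨ρ, hρ⟩
  have h2 : 0 < volume (box m R) := Measure.measure_pos_of_mem_nhds volume (zero_nhds50 hR)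
  exact ⟨h1.ne, ENNReal.toReal_pos h2.ne' h1.ne⟩

private theorem mset50 (R : ℝ) : MeasurableSet {p : Vm m × Vm m | p.2 ∈ box m R ∧ mulV p.2 p.1 ∈ box m R} := by
  have h1 : IsClosed {p : Vm m × Vm m | p.2 ∈ box m R} := (box_closed R).preimage continuous_snd
  have h2 : IsClosed {p : Vm m × Vm m | mulV p.2 p.1 ∈ box m R} :=
    (box_closed R).preimage (cont_mulV.comp (continuous_snd.prodMk continuous_fst))
  exact (h1.inter h2).measurableSet

theorem chi_meas (R : ℝ) : Measurable (chi m R) := by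
  unfold chi
  refine Measurable.div_const ?_ _
  refine Measurable.ennreal_toReal ?_
  exact measurable_measure_prodMk_left (mset50 (m := m) R)

private theorem sub50 (R : ℝ) (u : Vm m) : {v : Vm m | v ∈ box m R ∧ mulV v u ∈ box m R} ⊆ box m R := fun _ h => h.1

theorem chi_mem {R : ℝ} (hR : 0 < R) (u : Vm m) : 0 ≤ chi m R u ∧ chi m R u ≤ 1 := by
  obtain ⟨h1, h2⟩ := box_vol (m := m) hR
  refine ⟨div_nonneg ENNReal.toReal_nonneg ENNReal.toReal_nonneg, ?_⟩
  unfold chi
  rw [div_le_one h2]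
  exact ENNReal.toReal_mono h1 (measure_mono (sub50 R u))

private theorem vol3_50 (t : Fin 3 → Set ℝ) : volume {z : E3 | ∀ k, z k ∈ t k} = ∏ k, volume (t k) := by
  have h := (EuclideanSpace.volume_preserving_symm_measurableEquiv_toLp (Fin 3)).measure_preimage_equiv (Set.univ.pi t)
  rw [volume_pi_pi] at h
  rw [← h]
  congr 1
  ext z
  simp only [Set.mem_setOf_eq, Set.mem_preimage, Set.mem_univ_pi]
  rfl

private theorem volT50 {c L : ℝ} (_hL : 0 ≤ L) : volume {x : ℝ | x ∈ Set.Icc (-L) L ∧ L < |x + c|} ≤ ENNReal.ofReal |c| := by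
  rcases le_or_gt 0 c with hc | hc
  · have h : {x : ℝ | x ∈ Set.Icc (-L) L ∧ L < |x + c|} ⊆ Set.Ioc (L - c) L := by
      rintro x ⟨⟨h1, h2⟩, h3⟩
      rcases lt_abs.1 h3 with h4 | h4
      · exact ⟨by linarith, h2⟩
      · exfalso; linarith
    refine (measure_mono h).trans ?_
    rw [Real.volume_Ioc, abs_of_nonneg hc]
    apply le_of_eq
    congr 1
    ring
  · have h : {x : ℝ | x ∈ Set.Icc (-L) L ∧ L < |x + c|} ⊆ Set.Ico (-L) (-L - c) := by
      rintro x ⟨⟨h1, h2⟩, h3⟩
      rcases lt_abs.1 h3 with h4 | h4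
      · exfalso; linarith
      · exact ⟨h1, by linarith⟩
    refine (measure_mono h).trans ?_
    rw [Real.volume_Ico, abs_of_neg hc]
    apply le_of_eq
    congr 1
    ring

private theorem volB50 {R : ℝ} (i : Fin m × Fin 4) (c : ℝ) :
    volume {v : Vm m | v ∈ box m R ∧ Real.sqrt R < |v.1 i + c|} * ENNReal.ofReal (2 * Real.sqrt R) ≤
      ENNReal.ofReal |c| * volume (box m R) := by
  classical
  set s := Real.sqrt R with hs
  have hs0 : 0 ≤ s := Real.sqrt_nonneg _
  let t : Fin m × Fin 4 → Set ℝ := fun j => if j = i then {x : ℝ | x ∈ Set.Icc (-s) s ∧ s < |x + c|} else Set.Icc (-s) s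
  have h1 : {v : Vm m | v ∈ box m R ∧ s < |v.1 i + c|} = (Set.univ.pi t) ×ˢ {z : E3 | ∀ k, z k ∈ Set.Icc (-R) R} := by
    rw [box_eq50]
    ext v
    simp only [Set.mem_setOf_eq, Set.mem_prod, Set.mem_univ_pi]
    constructor
    · rintro ⟨⟨h2, h3⟩, h4⟩
      refine ⟨fun j => ?_, h3⟩
      by_cases hj : j = i
      · simp only [t, hj, if_true]
        exact ⟨h2 i, h4⟩
      · simp only [t, hj, if_false]
        exact h2 j
    · rintro ⟨h2, h3⟩
      have h5 := h2 i
      simp only [t, if_true] at h5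
      refine ⟨⟨fun j => ?_, h3⟩, h5.2⟩
      by_cases hj : j = i
      · rw [hj]
        exact h5.1
      · have h6 := h2 j
        simp only [t, hj, if_false] at h6
        exact h6
  have h2 : volume (Set.Icc (-s) s) = ENNReal.ofReal (2 * s) := by
    rw [Real.volume_Icc]
    congr 1
    ring
  rw [h1, box_eq50, Measure.volume_eq_prod, Measure.prod_prod, Measure.prod_prod, volume_pi_pi, volume_pi_pi,
    ← Finset.mul_prod_erase Finset.univ _ (Finset.mem_univ i), ← Finset.mul_prod_erase Finset.univ (fun _ => volume (Set.Icc (-Real.sqrt R) (Real.sqrt R))) (Finset.mem_univ i)]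
  have h3 : ∏ j ∈ Finset.univ.erase i, volume (t j) = ∏ j ∈ Finset.univ.erase i, volume (Set.Icc (-Real.sqrt R) (Real.sqrt R)) := by
    refine Finset.prod_congr rfl fun j hj => ?_
    have : j ≠ i := Finset.ne_of_mem_erase hj
    simp only [t, this, if_false]
    rfl
  rw [h3]
  have h4 : volume (t i) ≤ ENNReal.ofReal |c| := by
    simp only [t, if_true]
    exact volT50 hs0
  rw [← hs, h2]
  set P := ∏ j ∈ Finset.univ.erase i, ENNReal.ofReal (2 * s)
  set Q := volume {z : E3 | ∀ k, z k ∈ Set.Icc (-R) R}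
  calc volume (t i) * P * Q * ENNReal.ofReal (2 * s) ≤ ENNReal.ofReal |c| * P * Q * ENNReal.ofReal (2 * s) := by
        gcongr
    _ = ENNReal.ofReal |c| * (ENNReal.ofReal (2 * s) * P * Q) := by ring

private theorem volD50 {R : ℝ} (hR : 0 < R) (k : Fin 3) {c : Wm m → ℝ} (hc : Continuous c) {M : ℝ}
    (hM : ∀ w : Wm m, (∀ i, |w i| ≤ Real.sqrt R) → |c w| ≤ M) :
    volume {v : Vm m | v ∈ box m R ∧ R < |v.2 k + c v.1|} * ENNReal.ofReal (2 * R) ≤
      ENNReal.ofReal M * volume (box m R) := by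
  classical
  have hmeas : MeasurableSet {v : Vm m | v ∈ box m R ∧ R < |v.2 k + c v.1|} := by
    refine (box_closed R).measurableSet.inter ?_
    have : IsOpen {v : Vm m | R < |v.2 k + c v.1|} := by
      refine isOpen_lt continuous_const ?_
      have h1 : Continuous fun v : Vm m => c v.1 := hc.comp continuous_fst
      have h2 : Continuous fun v : Vm m => v.2 k := by fun_prop
      exact (h2.add h1).abs
    exact this.measurableSet
  have h2 : volume (Set.Icc (-R) R) = ENNReal.ofReal (2 * R) := by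
    rw [Real.volume_Icc]
    congr 1
    ring
  set P := ∏ j ∈ Finset.univ.erase k, volume (Set.Icc (-R) R) with hP
  have hQ : volume {z : E3 | ∀ k, z k ∈ Set.Icc (-R) R} = ENNReal.ofReal (2 * R) * P := by
    rw [vol3_50 (fun _ => Set.Icc (-R) R), ← Finset.mul_prod_erase Finset.univ _ (Finset.mem_univ k), ← hP, h2]
  have hsl : ∀ w : Wm m, volume (Prod.mk w ⁻¹' {v : Vm m | v ∈ box m R ∧ R < |v.2 k + c v.1|}) ≤
      (Set.univ.pi fun _ : Fin m × Fin 4 => Set.Icc (-Real.sqrt R) (Real.sqrt R)).indicator (fun _ => ENNReal.ofReal M * P) w := by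
    intro w
    by_cases hw : w ∈ (Set.univ.pi fun _ : Fin m × Fin 4 => Set.Icc (-Real.sqrt R) (Real.sqrt R))
    · rw [Set.indicator_of_mem hw]
      let t : Fin 3 → Set ℝ := fun j => if j = k then {x : ℝ | x ∈ Set.Icc (-R) R ∧ R < |x + c w|} else Set.Icc (-R) R
      have h3 : (Prod.mk w ⁻¹' {v : Vm m | v ∈ box m R ∧ R < |v.2 k + c v.1|}) ⊆ {z : E3 | ∀ j, z j ∈ t j} := by
        rintro z ⟨h4, h5⟩ j
        rw [box_eq50] at h4
        by_cases hj : j = k
        · simp only [t, hj, if_true]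
          exact ⟨h4.2 k, h5⟩
        · simp only [t, hj, if_false]
          exact h4.2 j
      refine (measure_mono h3).trans ?_
      rw [vol3_50, ← Finset.mul_prod_erase Finset.univ _ (Finset.mem_univ k)]
      have h6 : ∏ j ∈ Finset.univ.erase k, volume (t j) = P := by
        refine Finset.prod_congr rfl fun j hj => ?_
        have : j ≠ k := Finset.ne_of_mem_erase hj
        simp only [t, this, if_false]
      rw [h6]
      have h7 : volume (t k) ≤ ENNReal.ofReal M := by
        simp only [t, if_true]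
        refine (volT50 hR.le).trans (ENNReal.ofReal_le_ofReal (hM w fun i => ?_))
        exact abs_le.2 (hw i (Set.mem_univ _))
      gcongr
    · rw [Set.indicator_of_notMem hw]
      have h3 : (Prod.mk w ⁻¹' {v : Vm m | v ∈ box m R ∧ R < |v.2 k + c v.1|}) = ∅ := by
        rw [Set.eq_empty_iff_forall_notMem]
        rintro z ⟨h4, -⟩
        rw [box_eq50] at h4
        exact hw h4.1
      rw [h3, measure_empty]
  have h8 : volume {v : Vm m | v ∈ box m R ∧ R < |v.2 k + c v.1|} ≤
      ENNReal.ofReal M * P * volume (Set.univ.pi fun _ : Fin m × Fin 4 => Set.Icc (-Real.sqrt R) (Real.sqrt R)) := by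
    rw [Measure.volume_eq_prod, Measure.prod_apply hmeas]
    refine (lintegral_mono hsl).trans ?_
    rw [lintegral_indicator (MeasurableSet.univ_pi fun _ => measurableSet_Icc), setLIntegral_const]
  calc volume {v : Vm m | v ∈ box m R ∧ R < |v.2 k + c v.1|} * ENNReal.ofReal (2 * R)
      ≤ ENNReal.ofReal M * P * volume (Set.univ.pi fun _ : Fin m × Fin 4 => Set.Icc (-Real.sqrt R) (Real.sqrt R)) *
        ENNReal.ofReal (2 * R) := by gcongr
    _ = ENNReal.ofReal M * volume (box m R) := by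
        rw [box_eq50, Measure.volume_eq_prod, Measure.prod_prod, hQ]
        ring

private theorem br_bd50 {w a : Wm m} {s A : ℝ} (hs : ∀ i, |w i| ≤ s) (hA : ∀ i, |a i| ≤ A) (k : Fin 3) :
    |(br w a) k| ≤ m * (4 * (s * A)) := by
  have hp : ∀ i j, |w i * a j| ≤ s * A := fun i j => by
    rw [abs_mul]
    exact mul_le_mul (hs i) (hA j) (abs_nonneg _) ((abs_nonneg _).trans (hs i))
  have key : ∀ f : Fin m → ℝ, (∀ i, |f i| ≤ 4 * (s * A)) → |∑ i, f i| ≤ m * (4 * (s * A)) := by
    intro f hf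
    refine (Finset.abs_sum_le_sum_abs _ _).trans ?_
    refine (Finset.sum_le_sum fun i _ => hf i).trans ?_
    rw [Finset.sum_const, Finset.card_univ, Fintype.card_fin, nsmul_eq_mul]
  have h4 : ∀ x1 x2 x3 x4 : ℝ, |x1| ≤ s * A → |x2| ≤ s * A → |x3| ≤ s * A → |x4| ≤ s * A →
      |x1 - x2 - x3 + x4| ≤ 4 * (s * A) := by
    intro x1 x2 x3 x4 h1 h2 h3 h4
    rw [abs_le] at *
    constructor <;> linarith [h1.1, h1.2, h2.1, h2.2, h3.1, h3.2, h4.1, h4.2]
  fin_cases k
  · exact key _ fun i => h4 _ _ _ _ (hp _ _) (hp _ _) (hp _ _) (hp _ _)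
  · exact key _ fun i => h4 _ _ _ _ (hp _ _) (hp _ _) (hp _ _) (hp _ _)
  · exact key _ fun i => h4 _ _ _ _ (hp _ _) (hp _ _) (hp _ _) (hp _ _)

private theorem sq_nonneg50 (w : Wm m) : 0 ≤ sq w := Finset.sum_nonneg fun i _ => sq_nonneg _

private theorem le_nW50 (v : Vm m) : sq v.1 / 2 ≤ nW v ∧ ‖v.2‖ ≤ nW v := by
  have h0 := sq_nonneg50 v.1
  unfold nW
  constructor
  · refine Real.le_sqrt_of_sq_le ?_
    nlinarith [sq_nonneg ‖v.2‖]
  · refine Real.le_sqrt_of_sq_le ?_
    nlinarith [sq_nonneg (1 + sq v.1 / 2)]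

private theorem nW_le50 (v : Vm m) : nW v ≤ 1 + sq v.1 / 2 + ‖v.2‖ := by
  have h0 := sq_nonneg50 v.1
  unfold nW
  refine Real.sqrt_le_iff.2 ⟨by positivity, ?_⟩
  nlinarith [norm_nonneg v.2, mul_nonneg (by positivity : 0 ≤ 1 + sq v.1 / 2) (norm_nonneg v.2)]

private theorem coord_le50 (v : Vm m) (i : Fin m × Fin 4) : |v.1 i| ≤ Real.sqrt (2 * nW v) := by
  refine Real.abs_le_sqrt ?_
  have h1 : v.1 i ^ 2 ≤ sq v.1 := Finset.single_le_sum (f := fun i => v.1 i ^ 2) (fun _ _ => sq_nonneg _) (Finset.mem_univ i)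
  linarith [(le_nW50 v).1]

private theorem cc50 (u : Vm m) (k : Fin 3) : Continuous fun w : Wm m => u.2 k + (br w u.1) k := by
  have h1 : Continuous fun w : Wm m => mulV (w, (0 : E3)) u :=
    cont_mulV.comp ((continuous_id.prodMk continuous_const).prodMk continuous_const)
  have hp : Continuous fun z : E3 => z k := by fun_prop
  have h2 := hp.comp (continuous_snd.comp h1)
  refine h2.congr fun w => ?_
  show (0 + u.2 + br w u.1) k = _
  rw [zero_add]
  rfl

/-- the part of the box which leaves the box -/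
private theorem compl50 {R : ℝ} (hR : 1 ≤ R) (u : Vm m) (hX : nW u ≤ R) :
    (volume {v : Vm m | v ∈ box m R ∧ mulV v u ∉ box m R}).toReal ≤
      (16 * m + 2) * Real.sqrt (nW u / R) * (volume (box m R)).toReal := by
  classical
  have hR0 : 0 < R := by linarith
  have hs0 : 0 < Real.sqrt R := Real.sqrt_pos.2 hR0
  have hss : Real.sqrt R * Real.sqrt R = R := Real.mul_self_sqrt hR0.le
  have hn0 : 0 ≤ nW u := by linarith [one_le_nW u]
  set X := Real.sqrt (nW u / R) with hXd
  have hX0 : 0 ≤ X := Real.sqrt_nonneg _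
  have hX2 : X ^ 2 = nW u / R := Real.sq_sqrt (by positivity)
  have hXR : nW u = X ^ 2 * R := by rw [hX2]; field_simp
  have hX1 : X ≤ 1 := by
    rw [hXd]
    exact Real.sqrt_le_one.2 ((div_le_one hR0).2 hX)
  have hco : ∀ i, |u.1 i| ≤ 2 * X * Real.sqrt R := fun i => by
    refine (coord_le50 u i).trans ?_
    rw [hXR]
    refine Real.sqrt_le_iff.2 ⟨by positivity, ?_⟩
    have : (2 * X * Real.sqrt R) ^ 2 = 4 * (X ^ 2 * R) := by
      calc (2 * X * Real.sqrt R) ^ 2 = 4 * X ^ 2 * (Real.sqrt R * Real.sqrt R) := by ring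
        _ = 4 * (X ^ 2 * R) := by rw [hss]; ring
    rw [this]
    have : 0 ≤ X ^ 2 * R := by positivity
    linarith
  obtain ⟨hD1, hD2⟩ := box_vol (m := m) hR0
  set D := (volume (box m R)).toReal with hD
  let A : Fin m × Fin 4 → Set (Vm m) := fun i => {v : Vm m | v ∈ box m R ∧ Real.sqrt R < |v.1 i + u.1 i|}
  let c : Fin 3 → Wm m → ℝ := fun k w => u.2 k + (br w u.1) k
  let Bs : Fin 3 → Set (Vm m) := fun k => {v : Vm m | v ∈ box m R ∧ R < |v.2 k + c k v.1|}
  have hcc : ∀ k, Continuous (c k) := fun k => cc50 u k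
  have hM : ∀ k, ∀ w : Wm m, (∀ i, |w i| ≤ Real.sqrt R) → |c k w| ≤ X ^ 2 * R + 8 * m * X * R := fun k w hw => by
    refine (abs_add_le _ _).trans ?_
    refine add_le_add ?_ ?_
    · rw [← hXR]
      exact (coord3_50 u.2 k).trans (le_nW50 u).2
    · refine (br_bd50 hw hco k).trans (le_of_eq ?_)
      calc (m : ℝ) * (4 * (Real.sqrt R * (2 * X * Real.sqrt R))) = 8 * m * X * (Real.sqrt R * Real.sqrt R) := by ring
        _ = 8 * m * X * R := by rw [hss]
  have hA : ∀ i, (volume (A i)).toReal ≤ X * D := fun i => by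
    have h1 := volB50 (m := m) (R := R) i (u.1 i)
    have h2 := ENNReal.toReal_mono (ENNReal.mul_ne_top ENNReal.ofReal_ne_top hD1) h1
    rw [ENNReal.toReal_mul, ENNReal.toReal_mul, ENNReal.toReal_ofReal (by positivity), ENNReal.toReal_ofReal (abs_nonneg _)] at h2
    have h3 : (volume (A i)).toReal * (2 * Real.sqrt R) ≤ 2 * X * Real.sqrt R * D :=
      h2.trans (mul_le_mul_of_nonneg_right (hco i) hD2.le)
    have h4 : (volume (A i)).toReal * (2 * Real.sqrt R) ≤ (X * D) * (2 * Real.sqrt R) := by linarith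
    exact le_of_mul_le_mul_right h4 (by positivity)
  have hB : ∀ k, (volume (Bs k)).toReal ≤ (X ^ 2 / 2 + 4 * m * X) * D := fun k => by
    have h1 := volD50 (m := m) hR0 k (hcc k) (hM k)
    have h2 := ENNReal.toReal_mono (ENNReal.mul_ne_top ENNReal.ofReal_ne_top hD1) h1
    rw [ENNReal.toReal_mul, ENNReal.toReal_mul, ENNReal.toReal_ofReal (by positivity), ENNReal.toReal_ofReal (by positivity)] at h2
    have h4 : (volume (Bs k)).toReal * (2 * R) ≤ ((X ^ 2 / 2 + 4 * m * X) * D) * (2 * R) := by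
      refine h2.trans (le_of_eq ?_)
      rw [← hD]
      ring
    exact le_of_mul_le_mul_right h4 (by positivity)
  have hsub : {v : Vm m | v ∈ box m R ∧ mulV v u ∉ box m R} ⊆ (⋃ i, A i) ∪ ⋃ k, Bs k := by
    rintro v ⟨hv, hn⟩
    by_cases h1 : ∀ i, |(mulV v u).1 i| ≤ Real.sqrt R
    · have h2 : ¬ ∀ k, |(mulV v u).2 k| ≤ R := fun h2 => hn ⟨h1, h2⟩
      push Not at h2
      obtain ⟨k, hk⟩ := h2
      refine Or.inr (Set.mem_iUnion.2 ⟨k, hv, ?_⟩)
      have : (mulV v u).2 k = v.2 k + c k v.1 := by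
        simp only [mulV, c, PiLp.add_apply]
        ring
      rw [← this]
      exact hk
    · push Not at h1
      obtain ⟨i, hi⟩ := h1
      exact Or.inl (Set.mem_iUnion.2 ⟨i, hv, hi⟩)
  have hAf : ∀ i, volume (A i) ≠ ⊤ := fun i => ((measure_mono (fun v hv => hv.1)).trans_lt hD1.lt_top).ne
  have hBf : ∀ k, volume (Bs k) ≠ ⊤ := fun k => ((measure_mono (fun v hv => hv.1)).trans_lt hD1.lt_top).ne
  have h5 : volume {v : Vm m | v ∈ box m R ∧ mulV v u ∉ box m R} ≤ ∑ i, volume (A i) + ∑ k, volume (Bs k) := by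
    refine (measure_mono hsub).trans ((measure_union_le _ _).trans (add_le_add ?_ ?_))
    · exact measure_iUnion_fintype_le _ _
    · exact measure_iUnion_fintype_le _ _
  have hSA : ∑ i, volume (A i) ≠ ⊤ := (ENNReal.sum_lt_top.2 fun i _ => (hAf i).lt_top).ne
  have hSB : ∑ k, volume (Bs k) ≠ ⊤ := (ENNReal.sum_lt_top.2 fun k _ => (hBf k).lt_top).ne
  have h6 := ENNReal.toReal_mono (ENNReal.add_ne_top.2 ⟨hSA, hSB⟩) h5
  rw [ENNReal.toReal_add hSA hSB, ENNReal.toReal_sum fun i _ => hAf i, ENNReal.toReal_sum fun k _ => hBf k] at h6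
  have h7 : ∑ i : Fin m × Fin 4, (volume (A i)).toReal ≤ (m * 4) * (X * D) := by
    refine (Finset.sum_le_sum fun i _ => hA i).trans (le_of_eq ?_)
    rw [Finset.sum_const, Finset.card_univ, Fintype.card_prod, Fintype.card_fin, Fintype.card_fin, nsmul_eq_mul]
    push_cast
    ring
  have h8 : ∑ k : Fin 3, (volume (Bs k)).toReal ≤ 3 * ((X ^ 2 / 2 + 4 * m * X) * D) := by
    refine (Finset.sum_le_sum fun k _ => hB k).trans (le_of_eq ?_)
    rw [Finset.sum_const, Finset.card_univ, Fintype.card_fin, nsmul_eq_mul]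
    push_cast
    ring
  have h9 : X ^ 2 * D ≤ X * D := mul_le_mul_of_nonneg_right (by nlinarith) hD2.le
  have h10 : 0 ≤ X * D := by positivity
  nlinarith

theorem chi_near (m : ℕ) : ∃ C : ℝ, 0 ≤ C ∧ ∀ R : ℝ, 1 ≤ R → ∀ u : Vm m, 1 - chi m R u ≤ C * Real.sqrt (nW u / R) := by
  refine ⟨16 * m + 2, by positivity, fun R hR u => ?_⟩
  have hR0 : 0 < R := by linarith
  have hX0 : 0 ≤ Real.sqrt (nW u / R) := Real.sqrt_nonneg _
  have hm0 : (0 : ℝ) ≤ m := Nat.cast_nonneg m
  rcases le_or_gt (nW u) R with hX | hX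
  · obtain ⟨hD1, hD2⟩ := box_vol (m := m) hR0
    have h1 := compl50 hR u hX
    have hsub : box m R ⊆ {v : Vm m | v ∈ box m R ∧ mulV v u ∈ box m R} ∪ {v : Vm m | v ∈ box m R ∧ mulV v u ∉ box m R} := by
      intro v hv
      by_cases h : mulV v u ∈ box m R
      · exact Or.inl ⟨hv, h⟩
      · exact Or.inr ⟨hv, h⟩
    have hf1 : volume {v : Vm m | v ∈ box m R ∧ mulV v u ∈ box m R} ≠ ⊤ := ((measure_mono (fun v hv => hv.1)).trans_lt hD1.lt_top).ne
    have hf2 : volume {v : Vm m | v ∈ box m R ∧ mulV v u ∉ box m R} ≠ ⊤ := ((measure_mono (fun v hv => hv.1)).trans_lt hD1.lt_top).ne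
    have h2 := ENNReal.toReal_mono (ENNReal.add_ne_top.2 ⟨hf1, hf2⟩) ((measure_mono hsub).trans (measure_union_le _ _))
    rw [ENNReal.toReal_add hf1 hf2] at h2
    unfold chi
    rw [sub_le_iff_le_add, ← sub_le_iff_le_add', le_div_iff₀ hD2]
    linarith
  · have h1 : 1 ≤ Real.sqrt (nW u / R) := by
      rw [Real.one_le_sqrt, one_le_div hR0]
      exact hX.le
    have h2 := (chi_mem hR0 u).1
    nlinarith

theorem chi_far (m : ℕ) : ∃ κ : ℝ, 1 ≤ κ ∧ ∀ R : ℝ, 1 ≤ R → ∀ u : Vm m, chi m R u ≠ 0 → nW u ≤ κ * R := by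
  refine ⟨7 + 32 * m, ?_, fun R hR u hu => ?_⟩
  · have : (0 : ℝ) ≤ m := Nat.cast_nonneg m
    linarith
  have hR0 : 0 < R := by linarith
  have hss : Real.sqrt R * Real.sqrt R = R := Real.mul_self_sqrt hR0.le
  have hne : {v : Vm m | v ∈ box m R ∧ mulV v u ∈ box m R}.Nonempty := by
    by_contra h
    rw [Set.not_nonempty_iff_eq_empty] at h
    apply hu
    unfold chi
    rw [h, measure_empty]
    simp
  obtain ⟨v, hv, hvu⟩ := hne
  have h1 : ∀ i, |u.1 i| ≤ 2 * Real.sqrt R := fun i => by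
    have ha := abs_le.1 (hv.1 i)
    have hb := abs_le.1 (hvu.1 i)
    have hc : (mulV v u).1 i = v.1 i + u.1 i := rfl
    rw [hc] at hb
    refine abs_le.2 ⟨by linarith [ha.2, hb.1], by linarith [ha.1, hb.2]⟩
  have h2 : ∀ k, |u.2 k| ≤ 2 * R + 8 * m * R := fun k => by
    have ha := abs_le.1 (hv.2 k)
    have hb := abs_le.1 (hvu.2 k)
    have hd := abs_le.1 (br_bd50 hv.1 h1 k)
    have he : (m : ℝ) * (4 * (Real.sqrt R * (2 * Real.sqrt R))) = 8 * m * R := by
      calc (m : ℝ) * (4 * (Real.sqrt R * (2 * Real.sqrt R))) = 8 * m * (Real.sqrt R * Real.sqrt R) := by ring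
        _ = _ := by rw [hss]
    rw [he] at hd
    have hc : (mulV v u).2 k = v.2 k + u.2 k + (br v.1 u.1) k := rfl
    rw [hc] at hb
    refine abs_le.2 ⟨by linarith [ha.2, hb.1, hd.2], by linarith [ha.1, hb.2, hd.1]⟩
  have h3 : ‖u.2‖ ≤ 3 * (2 * R + 8 * m * R) := by
    refine (norm3_50 u.2).trans ?_
    linarith [h2 0, h2 1, h2 2]
  have h4 : sq u.1 ≤ m * 4 * (4 * R) := by
    have h5 : ∀ i ∈ (Finset.univ : Finset (Fin m × Fin 4)), u.1 i ^ 2 ≤ 4 * R := fun i _ => by
      have h6 : u.1 i ^ 2 ≤ (2 * Real.sqrt R) ^ 2 := sq_le_sq' (abs_le.1 (h1 i)).1 (abs_le.1 (h1 i)).2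
      have h7 : (2 * Real.sqrt R) ^ 2 = 4 * R := by
        calc (2 * Real.sqrt R) ^ 2 = 4 * (Real.sqrt R * Real.sqrt R) := by ring
          _ = _ := by rw [hss]
      linarith
    refine (Finset.sum_le_sum h5).trans (le_of_eq ?_)
    rw [Finset.sum_const, Finset.card_univ, Fintype.card_prod, Fintype.card_fin, Fintype.card_fin, nsmul_eq_mul]
    push_cast
    ring
  have h8 := nW_le50 u
  nlinarith

theorem chi_int {R : ℝ} (hR : 0 < R) {k : Vm m → ℂ} (hk : Continuous k) {B : ℝ} (hB : ∀ u, ‖k u‖ ≤ B) :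
    ∫ v in box m R, ∫ v' in box m R, k (dv v v') = (((volume (box m R)).toReal : ℝ) : ℂ) * ∫ u : Vm m, ((chi m R u : ℝ) : ℂ) * k u := by
  classical
  obtain ⟨hD1, hD2⟩ := box_vol (m := m) hR
  have hbm : MeasurableSet (box m R) := (box_closed R).measurableSet
  let K : Set (Vm m × Vm m) := {p | p.1 ∈ box m R ∧ mulV p.1 p.2 ∈ box m R}
  have hK : MeasurableSet K := by
    have h1 : IsClosed {p : Vm m × Vm m | p.1 ∈ box m R} := (box_closed R).preimage continuous_fst
    have h2 : IsClosed {p : Vm m × Vm m | mulV p.1 p.2 ∈ box m R} := (box_closed R).preimage cont_mulV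
    exact (h1.inter h2).measurableSet
  let F : Vm m × Vm m → ℂ := K.indicator fun p => k p.2
  have hKf : ((volume : Measure (Vm m)).prod (volume : Measure (Vm m))) K ≠ ⊤ := by
    rw [Measure.prod_apply hK]
    have h1 : ∀ v : Vm m, volume (Prod.mk v ⁻¹' K) = (box m R).indicator (fun _ => volume (box m R)) v := by
      intro v
      by_cases hv : v ∈ box m R
      · rw [Set.indicator_of_mem hv]
        have h2 : Prod.mk v ⁻¹' K = mulV v ⁻¹' box m R := by
          ext u
          constructor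
          · intro h
            exact h.2
          · intro h
            exact ⟨hv, h⟩
        rw [h2, (mp_left v).measure_preimage hbm.nullMeasurableSet]
      · rw [Set.indicator_of_notMem hv]
        have h2 : Prod.mk v ⁻¹' K = ∅ := by
          rw [Set.eq_empty_iff_forall_notMem]
          intro u h
          exact hv h.1
        rw [h2, measure_empty]
    simp only [h1]
    rw [lintegral_indicator hbm, setLIntegral_const]
    exact ENNReal.mul_ne_top hD1 hD1
  have hF : Integrable F ((volume : Measure (Vm m)).prod (volume : Measure (Vm m))) := by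
    have h1 : IntegrableOn (fun p : Vm m × Vm m => k p.2) K ((volume : Measure (Vm m)).prod (volume : Measure (Vm m))) := by
      refine Measure.integrableOn_of_bounded (M := B) hKf ?_ ?_
      · exact (hk.comp continuous_snd).aestronglyMeasurable
      · exact Filter.Eventually.of_forall fun p => hB p.2
    exact h1.integrable_indicator hK
  have hin : ∀ v : Vm m, (box m R).indicator (fun v => ∫ v' in box m R, k (dv v v')) v = ∫ u, F (v, u) := by
    intro v
    by_cases hv : v ∈ box m R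
    · rw [Set.indicator_of_mem hv, ← integral_indicator hbm]
      let e : Vm m ≃ₜ Vm m :=
        { toFun := mulV v
          invFun := dv v
          left_inv := fun u => dv_mulV v u
          right_inv := fun u => mulV_dv v u
          continuous_toFun := cont_mulV.comp (continuous_const.prodMk continuous_id)
          continuous_invFun := cont_dv.comp (continuous_const.prodMk continuous_id) }
      have h1 := (mp_left v).integral_comp e.measurableEmbedding ((box m R).indicator fun v' => k (dv v v'))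
      rw [← h1]
      refine integral_congr_ae (Filter.Eventually.of_forall fun u => ?_)
      by_cases hu : mulV v u ∈ box m R
      · have h2 : (v, u) ∈ K := ⟨hv, hu⟩
        simp only [F]
        rw [Set.indicator_of_mem hu, Set.indicator_of_mem h2, dv_mulV]
      · have h2 : (v, u) ∉ K := fun h => hu h.2
        simp only [F]
        rw [Set.indicator_of_notMem hu, Set.indicator_of_notMem h2]
    · rw [Set.indicator_of_notMem hv]
      symm
      have h1 : ∀ u : Vm m, F (v, u) = 0 := fun u => Set.indicator_of_notMem (fun h => hv h.1) _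
      simp only [h1, integral_zero]
  rw [← integral_indicator hbm]
  simp only [hin]
  have hsw : ∫ v : Vm m, ∫ u : Vm m, F (v, u) = ∫ u : Vm m, ∫ v : Vm m, F (v, u) :=
    integral_integral_swap (f := fun v u => F (v, u)) hF
  rw [hsw, ← integral_const_mul]
  refine integral_congr_ae (Filter.Eventually.of_forall fun u => ?_)
  have h1 : ∀ v : Vm m, F (v, u) = {v : Vm m | v ∈ box m R ∧ mulV v u ∈ box m R}.indicator (fun _ => k u) v := by
    intro v
    by_cases h : v ∈ {v : Vm m | v ∈ box m R ∧ mulV v u ∈ box m R}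
    · have h2 : (v, u) ∈ K := h
      rw [Set.indicator_of_mem h]
      exact Set.indicator_of_mem h2 _
    · have h2 : (v, u) ∉ K := h
      rw [Set.indicator_of_notMem h]
      exact Set.indicator_of_notMem h2 _
  have hms : MeasurableSet {v : Vm m | v ∈ box m R ∧ mulV v u ∈ box m R} := by
    have h2 : IsClosed {v : Vm m | mulV v u ∈ box m R} :=
      (box_closed R).preimage (cont_mulV.comp (continuous_id.prodMk continuous_const))
    exact ((box_closed R).inter h2).measurableSet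
  have h3 : ∫ v : Vm m, F (v, u) = (((volume {v : Vm m | v ∈ box m R ∧ mulV v u ∈ box m R}).toReal : ℝ) : ℂ) * k u := by
    simp only [h1]
    rw [integral_indicator hms, setIntegral_const]
    simp [Measure.real]
  show ∫ v : Vm m, F (v, u) = _
  rw [h3]
  show _ = (((volume (box m R)).toReal : ℝ) : ℂ) * (((chi m R u : ℝ) : ℂ) * k u)
  rw [← mul_assoc, ← Complex.ofReal_mul]
  congr 2
  unfold chi
  rw [mul_div_cancel₀ _ hD2.ne']

end Pool.Agent.Helper84.CH
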