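import Pool.Agent.Helper84.CH.LA6
import Pool.Agent.Helper84.CH.LA8
import Pool.Agent.Helper84.CH.LA9

/-!
# Project CH, block LA10: the lower bound on the Heisenberg group

`lb_core`. PROOF. Let `V = vol (box m R)`, `f = 1_box q`, `g = 1_box p`: `BC` (`box_bdd`, continuity, `C ≥ 0` from `hp`), `∫ ‖f‖² ≤ C V`, `∫ ‖g‖² ≤ C V`. `∫ ⟪g, f⟫ = V F(1)` (`dv v v = 0`, `nW 0 = 1`); `Qf m 1 g f = V ∫ chi sK F(nW)` (`chi_int` with `k u = sK m 1 u F(nW u)`, continuous (`F` is continuous on `[1, ∞)`, `nW ≥ 1`), bounded: `‖F r‖ ≤ C` for `r ≥ 1`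
since every `r ≥ 1` is `nW u` for some `u` (`m ≥ 1`: horizontal `u`, or vertical), `F (nW u) = ⟪p 0, q u⟫` as `dv 0 u = u`). `op_bound` gives (divide by `V`): (1) `‖F 1 - 2 ∫ chi sK F(nW)‖ ≤ C`.
Let `R1 = ε1 R ≥ 1`. `∫ chi sK F = ∫_(nW ≤ R1) sK F - ∫_(nW ≤ R1) (1 - chi) sK F + ∫_(nW > R1) chi sK F`. First term: `pairing`: `∫_1^R1 Gm F`, and `‖∫_1^R1 Gm F - (m + 1)‖ ≤ δ (m + 1) + ∫_R0^∞ Gm (C + 1) + ∫_R1^∞ Gm` (`Gm_total`, `Gm_le`: `∫_R0^∞ Gm ≤ κ/R0`), for `R0 ≤ R1`.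
Second term: `chi_near`, `far_bound` with `Φ r = √(r/R)` on `[1, R1]`: `≤ C Cn Cf ∫_1^R1 √(r/R) dr/r ≤ 2 C Cn Cf √ε1`. Third term: `chi_far`, `far_bound` with `Φ r = ‖F r‖` on `(R1, κ R]`: `≤ Cf ∫_(R1)^(κ R) ‖F r‖ dr/r = Cf ∫ ‖F(cosh t)‖ tanh t dt ≤ Cf ∫_T^(T+w) ‖F(cosh t)‖ dt ≤ Cf δ`,
where `R1 = cosh T`, `R = R1/ε1`, `κ R = (κ/ε1) cosh T ≤ cosh (T + w)` for `w = log (2κ/ε1)` (`cosh (T + w) ≥ e^w (cosh T)/2`... `cosh(T+w) ≥ e^(T+w)/2 ≥ e^w cosh T /2`; choose `w = log(2κ/ε1)`).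
Constants: `C < 2m + 1 = |1 - 2(m+1)|`. Choose `ε1` with `4 C Cn Cf √ε1` small, then `R0` large, `w = log (2κ/ε1)`, `δ` small (compared with `1/(m+2)` and `1/Cf`), all errors together `< (2m + 1 - C)/2`; `T` from the hypothesis with `T0` so large that `ε1 ≤ ..`, `R0 ≤ cosh T0`. Then `‖F 1 - 2 ∫ chi sK F‖ ≥ 2(m+1) - 1 - errors > C`.
-/

set_option autoImplicit false

open Real MeasureTheory

namespace Pool.Agent.Helper84.CH

section Aux68

variable {m : ℕ}

private lemma br_zero_left68 (w : Wm m) : br (0 : Wm m) w = 0 := by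
  ext k
  fin_cases k <;> simp [br]

private lemma br_zero_right68 (w : Wm m) : br w (0 : Wm m) = 0 := by
  ext k
  fin_cases k <;> simp [br]

private lemma dv_zero68 (u : Vm m) : dv 0 u = u := by
  refine Prod.ext ?_ ?_
  · simp [dv]
  · simp [dv, br_zero_left68]

private lemma mulV_zero68 (v : Vm m) : mulV v 0 = v := by
  refine Prod.ext ?_ ?_
  · simp [mulV]
  · simp [mulV, br_zero_right68]

private lemma nW_self68 (v : Vm m) : nW (dv v v) = 1 := by
  have h := dv_mulV v (0 : Vm m)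
  rw [mulV_zero68] at h
  rw [h]
  simp [nW, sq]

private lemma exists_nW68 {r : ℝ} (hr : 1 ≤ r) : ∃ u : Vm m, nW u = r := by
  refine ⟨(0, EuclideanSpace.single 0 (Real.sqrt (r ^ 2 - 1))), ?_⟩
  have h1 : ‖(EuclideanSpace.single 0 (Real.sqrt (r ^ 2 - 1)) : E3)‖ = Real.sqrt (r ^ 2 - 1) := by
    rw [PiLp.norm_single, Real.norm_eq_abs, abs_of_nonneg (Real.sqrt_nonneg _)]
  have h2 : (0 : ℝ) ≤ r ^ 2 - 1 := by nlinarith
  have h3 : sq (0 : Wm m) = 0 := by simp [sq]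
  rw [nW, h1, h3, Real.sq_sqrt h2, show (1 + (0 : ℝ) / 2) ^ 2 + (r ^ 2 - 1) = r ^ 2 by ring,
    Real.sqrt_sq (by linarith)]

variable {H : Type} [NormedAddCommGroup H] [InnerProductSpace ℂ H] [CompleteSpace H] {F : ℝ → ℂ} {p q : Vm m → H} {C : ℝ}

private lemma F_le68 (hp : ∀ v, ‖p v‖ ^ 2 ≤ C) (hq : ∀ v, ‖q v‖ ^ 2 ≤ C)
    (hF : ∀ v v', inner ℂ (p v) (q v') = F (nW (dv v v'))) {r : ℝ} (hr : 1 ≤ r) : ‖F r‖ ≤ C := by
  obtain ⟨u, hu⟩ := exists_nW68 (m := m) hr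
  have h1 := hF 0 u
  rw [dv_zero68, hu] at h1
  rw [← h1]
  have h2 := norm_inner_le_norm (𝕜 := ℂ) (p 0) (q u)
  have h3 := hp 0
  have h4 := hq u
  nlinarith [sq_nonneg (‖p 0‖ - ‖q u‖)]

private lemma kcont68 (hFc : ContinuousOn F (Set.Ici 1)) :
    Continuous fun u : Vm m => ((sK m 1 u : ℝ) : ℂ) * F (nW u) := by
  refine (Complex.continuous_ofReal.comp (sK_cont one_pos)).mul ?_
  exact ContinuousOn.comp_continuous hFc cont_nW one_le_nW

private lemma sK_le68 (m : ℕ) : ∃ B : ℝ, 0 ≤ B ∧ ∀ u : Vm m, |sK m 1 u| ≤ B := by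
  obtain ⟨B, hB0, hB⟩ := sK_bound m
  refine ⟨B, hB0, fun u => (hB 1 one_pos u).trans ?_⟩
  have h1 : 0 ≤ sq u.1 := Finset.sum_nonneg fun i _ => sq_nonneg _
  have h2 : (1 : ℝ) ≤ (1 + sq u.1 / 2 + ‖u.2‖) ^ (2 * m + 3) := one_le_pow₀ (by
    have := norm_nonneg u.2
    linarith)
  calc B * ((1 + sq u.1 / 2 + ‖u.2‖) ^ (2 * m + 3))⁻¹ ≤ B * 1 :=
        mul_le_mul_of_nonneg_left (inv_le_one_of_one_le₀ h2) hB0
    _ = B := mul_one B

/-- The inequality for the boxes. -/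
private lemma op68 (hm : 1 ≤ m) (hpc : Continuous p) (hqc : Continuous q) (hp : ∀ v, ‖p v‖ ^ 2 ≤ C) (hq : ∀ v, ‖q v‖ ^ 2 ≤ C)
    (hFc : ContinuousOn F (Set.Ici 1)) (hF : ∀ v v', inner ℂ (p v) (q v') = F (nW (dv v v'))) {R : ℝ} (hR : 0 < R) :
    ‖F 1 - 2 * ∫ u : Vm m, ((chi m R u : ℝ) : ℂ) * (((sK m 1 u : ℝ) : ℂ) * F (nW u))‖ ≤ C := by
  have hC0 : 0 ≤ C := (sq_nonneg _).trans (hp 0)
  obtain ⟨hVt, hV0⟩ := box_vol (m := m) hR
  set V : ℝ := (volume (box m R)).toReal with hV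
  have hBm : MeasurableSet (box m R) := (box_closed R).measurableSet
  obtain ⟨ρ, hρ⟩ := box_bdd (m := m) R
  set f : Vm m → H := (box m R).indicator q with hf
  set g : Vm m → H := (box m R).indicator p with hg
  have hnorm : ∀ x : H, ‖x‖ ^ 2 ≤ C → ‖x‖ ≤ Real.sqrt C := fun x hx => Real.le_sqrt_of_sq_le hx
  have hBC : ∀ x : Vm m → H, Continuous x → (∀ v, ‖x v‖ ^ 2 ≤ C) → BC ((box m R).indicator x) ρ (Real.sqrt C) := by
    intro x hx hxC
    refine ⟨hx.aestronglyMeasurable.indicator hBm, fun v => ?_, fun v hv => ?_⟩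
    · by_cases h : v ∈ box m R
      · rw [Set.indicator_of_mem h]
        exact hnorm _ (hxC v)
      · rw [Set.indicator_of_notMem h, norm_zero]
        exact Real.sqrt_nonneg _
    · exact Set.indicator_of_notMem (fun h => absurd (hρ v h) (not_le.2 hv)) _
  have hsq : ∀ x : Vm m → H, (∀ v, ‖x v‖ ^ 2 ≤ C) → ∫ v, ‖(box m R).indicator x v‖ ^ 2 ≤ C * V := by
    intro x hxC
    have h1 : (fun v => ‖(box m R).indicator x v‖ ^ 2) = (box m R).indicator fun v => ‖x v‖ ^ 2 := by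
      funext v
      by_cases h : v ∈ box m R
      · rw [Set.indicator_of_mem h, Set.indicator_of_mem h]
      · rw [Set.indicator_of_notMem h, Set.indicator_of_notMem h]
        simp
    rw [h1, integral_indicator hBm]
    have h2 := norm_setIntegral_le_of_norm_le_const (f := fun v => ‖x v‖ ^ 2) (μ := volume) (s := box m R) (C := C)
      (lt_top_iff_ne_top.2 hVt) (fun v _ => by
        rw [Real.norm_eq_abs, abs_of_nonneg (sq_nonneg _)]
        exact hxC v)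
    exact (Real.le_norm_self _).trans h2
  have h1 := op_bound hm (hBC q hqc hq) (hBC p hpc hp)
  have e1 : ∫ v, inner ℂ (g v) (f v) = (V : ℂ) * F 1 := by
    have h2 : (fun v => inner ℂ (g v) (f v)) = (box m R).indicator fun _ => F 1 := by
      funext v
      by_cases h : v ∈ box m R
      · rw [hg, hf, Set.indicator_of_mem h, Set.indicator_of_mem h, Set.indicator_of_mem h, hF, nW_self68]
      · rw [hg, Set.indicator_of_notMem h, Set.indicator_of_notMem h, inner_zero_left]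
    rw [h2, integral_indicator hBm, setIntegral_const]
    rw [Complex.real_smul]
    rfl
  have e2 : Qf m 1 g f = (V : ℂ) * ∫ u : Vm m, ((chi m R u : ℝ) : ℂ) * (((sK m 1 u : ℝ) : ℂ) * F (nW u)) := by
    obtain ⟨B, hB0, hB⟩ := sK_le68 m
    rw [← chi_int hR (kcont68 hFc) (B := B * C) (fun u => by
      rw [norm_mul, Complex.norm_real, Real.norm_eq_abs]
      exact mul_le_mul (hB u) (F_le68 hp hq hF (one_le_nW u)) (norm_nonneg _) hB0)]
    rw [Qf]
    have h2 : (fun v => ∫ v' : Vm m, ((sK m 1 (dv v v') : ℝ) : ℂ) * inner ℂ (g v) (f v')) =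
        (box m R).indicator fun v => ∫ v' in box m R, ((sK m 1 (dv v v') : ℝ) : ℂ) * F (nW (dv v v')) := by
      funext v
      by_cases h : v ∈ box m R
      · rw [Set.indicator_of_mem h, ← integral_indicator hBm]
        congr 1
        funext v'
        by_cases h' : v' ∈ box m R
        · rw [hg, hf, Set.indicator_of_mem h, Set.indicator_of_mem h', Set.indicator_of_mem h', hF]
        · rw [hf, Set.indicator_of_notMem h', Set.indicator_of_notMem h', inner_zero_right, mul_zero]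
      · rw [Set.indicator_of_notMem h, hg]
        simp only [Set.indicator_of_notMem h, inner_zero_left, mul_zero, integral_zero]
    rw [h2, integral_indicator hBm]
  rw [e1, e2] at h1
  have h2 : Real.sqrt (∫ v, ‖f v‖ ^ 2) * Real.sqrt (∫ v, ‖g v‖ ^ 2) ≤ C * V := by
    calc Real.sqrt (∫ v, ‖f v‖ ^ 2) * Real.sqrt (∫ v, ‖g v‖ ^ 2) ≤ Real.sqrt (C * V) * Real.sqrt (C * V) :=
          mul_le_mul (Real.sqrt_le_sqrt (hsq q hq)) (Real.sqrt_le_sqrt (hsq p hp)) (Real.sqrt_nonneg _) (Real.sqrt_nonneg _)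
      _ = C * V := Real.mul_self_sqrt (by positivity)
  have h3 := h1.trans h2
  have h4 : (V : ℂ) * F 1 - 2 * ((V : ℂ) * ∫ u : Vm m, ((chi m R u : ℝ) : ℂ) * (((sK m 1 u : ℝ) : ℂ) * F (nW u))) =
      (V : ℂ) * (F 1 - 2 * ∫ u : Vm m, ((chi m R u : ℝ) : ℂ) * (((sK m 1 u : ℝ) : ℂ) * F (nW u))) := by ring
  rw [h4, norm_mul, Complex.norm_real, Real.norm_eq_abs, abs_of_pos hV0] at h3
  rw [mul_comm C V] at h3
  exact le_of_mul_le_mul_left h3 hV0




private lemma lint68 {a b : ℝ} (hab : a ≤ b) {G1 G : ℝ → ℝ} (ha : 0 < a) (hG : ContinuousOn G (Set.Icc a b))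
    (hG0 : ∀ r ∈ Set.Icc a b, 0 ≤ G r) (h : ∀ r ∈ Set.Icc a b, G1 r * r⁻¹ ≤ G r) :
    ∫⁻ r in Set.Ioi (1 : ℝ), (Set.Icc a b).indicator (fun r => ENNReal.ofReal (G1 r)) r * ENNReal.ofReal r⁻¹ ≤
      ENNReal.ofReal (∫ r in a..b, G r) := by
  have h1 : ∀ r, (Set.Icc a b).indicator (fun r => ENNReal.ofReal (G1 r)) r * ENNReal.ofReal r⁻¹ ≤
      (Set.Icc a b).indicator (fun r => ENNReal.ofReal (G r)) r := by
    intro r
    by_cases hr : r ∈ Set.Icc a b
    · rw [Set.indicator_of_mem hr, Set.indicator_of_mem hr]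
      have hr0 : 0 < r := ha.trans_le hr.1
      rw [← ENNReal.ofReal_mul' (inv_nonneg.2 hr0.le)]
      exact ENNReal.ofReal_le_ofReal (h r hr)
    · rw [Set.indicator_of_notMem hr, zero_mul]
      exact zero_le
  calc ∫⁻ r in Set.Ioi (1 : ℝ), (Set.Icc a b).indicator (fun r => ENNReal.ofReal (G1 r)) r * ENNReal.ofReal r⁻¹
      ≤ ∫⁻ r in Set.Ioi (1 : ℝ), (Set.Icc a b).indicator (fun r => ENNReal.ofReal (G r)) r :=
        lintegral_mono fun r => h1 r
    _ ≤ ∫⁻ r, (Set.Icc a b).indicator (fun r => ENNReal.ofReal (G r)) r := setLIntegral_le_lintegral _ _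
    _ = ∫⁻ r in Set.Icc a b, ENNReal.ofReal (G r) := lintegral_indicator measurableSet_Icc _
    _ = ENNReal.ofReal (∫ r in Set.Icc a b, G r) := by
        rw [ofReal_integral_eq_lintegral_ofReal]
        · exact hG.integrableOn_Icc
        · exact (ae_restrict_iff' measurableSet_Icc).2 (Filter.Eventually.of_forall fun r hr => hG0 r hr)
    _ = ENNReal.ofReal (∫ r in a..b, G r) := by
        rw [intervalIntegral.integral_of_le hab, integral_Icc_eq_integral_Ioc]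

private lemma far68 {Cf : ℝ} (hCf0 : 0 ≤ Cf) (hCf : ∀ Φ : ℝ → ENNReal, Measurable Φ →
    ∫⁻ v : Vm m, Φ (nW v) * ENNReal.ofReal |sK m 1 v| ≤ ENNReal.ofReal Cf * ∫⁻ r in Set.Ioi (1 : ℝ), Φ r * ENNReal.ofReal r⁻¹)
    {h : Vm m → ℂ} (hh : AEStronglyMeasurable h volume) {Φ : ℝ → ENNReal} (hΦ : Measurable Φ) {j : ℝ} (hj0 : 0 ≤ j)
    (hJ : ∫⁻ r in Set.Ioi (1 : ℝ), Φ r * ENNReal.ofReal r⁻¹ ≤ ENNReal.ofReal j)
    (hle : ∀ u, ‖h u‖ₑ ≤ Φ (nW u) * ENNReal.ofReal |sK m 1 u|) : Integrable h ∧ ‖∫ u, h u‖ ≤ Cf * j := by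
  have h1 : ∫⁻ u, ‖h u‖ₑ ≤ ENNReal.ofReal (Cf * j) := by
    rw [ENNReal.ofReal_mul hCf0]
    exact (lintegral_mono hle).trans ((hCf Φ hΦ).trans (mul_le_mul_right hJ _))
  refine ⟨⟨hh, h1.trans_lt ENNReal.ofReal_lt_top⟩, ?_⟩
  have h2 := (enorm_integral_le_lintegral_enorm h).trans h1
  rw [← ofReal_norm] at h2
  exact (ENNReal.ofReal_le_ofReal_iff (by positivity)).1 h2

private lemma sqrt_int68 {M R R1 : ℝ} (hM : 0 ≤ M) (hR1 : 1 ≤ R1) (hR : 0 < R) :
    ∫⁻ r in Set.Ioi (1 : ℝ), (Set.Icc 1 R1).indicator (fun r => ENNReal.ofReal (M * Real.sqrt (r / R))) r * ENNReal.ofReal r⁻¹ ≤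
      ENNReal.ofReal (2 * M * Real.sqrt (R1 / R)) := by
  have h1 := lint68 (a := 1) (b := R1) (G1 := fun r => M * Real.sqrt (r / R)) (G := fun r => M / Real.sqrt R * (Real.sqrt r)⁻¹)
    hR1 one_pos (by
      refine ContinuousOn.mul continuousOn_const (ContinuousOn.inv₀ Real.continuous_sqrt.continuousOn fun r hr => ?_)
      exact (Real.sqrt_pos.2 (one_pos.trans_le hr.1)).ne') (fun r _ => by positivity) (fun r hr => by
      have hr0 : 0 < r := one_pos.trans_le hr.1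
      have hs := Real.sqrt_pos.2 hr0
      rw [Real.sqrt_div' _ hR.le]
      have h2 : Real.sqrt r * r⁻¹ = (Real.sqrt r)⁻¹ := by
        rw [← div_eq_mul_inv, div_eq_iff hr0.ne', eq_comm, inv_mul_eq_iff_eq_mul₀ hs.ne']
        exact (Real.mul_self_sqrt hr0.le).symm
      calc M * (Real.sqrt r / Real.sqrt R) * r⁻¹ = M / Real.sqrt R * (Real.sqrt r * r⁻¹) := by ring
        _ = M / Real.sqrt R * (Real.sqrt r)⁻¹ := by rw [h2]
        _ ≤ _ := le_rfl)
  refine h1.trans (ENNReal.ofReal_le_ofReal ?_)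
  have h2 : ∫ r in (1 : ℝ)..R1, M / Real.sqrt R * (Real.sqrt r)⁻¹ = M / Real.sqrt R * (2 * Real.sqrt R1) - M / Real.sqrt R * (2 * Real.sqrt 1) := by
    refine intervalIntegral.integral_eq_sub_of_hasDerivAt (f := fun r => M / Real.sqrt R * (2 * Real.sqrt r)) (fun x hx => ?_) ?_
    · rw [Set.uIcc_of_le hR1] at hx
      have hx0 : 0 < x := one_pos.trans_le hx.1
      have h3 := ((Real.hasDerivAt_sqrt hx0.ne').const_mul 2).const_mul (M / Real.sqrt R)
      have hs := (Real.sqrt_pos.2 hx0).ne'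
      have h5 : (Real.sqrt x)⁻¹ = 2 * (1 / (2 * Real.sqrt x)) := by field_simp
      rw [h5]
      exact h3
    · refine ContinuousOn.intervalIntegrable ?_
      rw [Set.uIcc_of_le hR1]
      refine ContinuousOn.mul continuousOn_const (ContinuousOn.inv₀ Real.continuous_sqrt.continuousOn fun r hr => ?_)
      exact (Real.sqrt_pos.2 (one_pos.trans_le hr.1)).ne'
  rw [h2, Real.sqrt_div' _ hR.le]
  have h3 : 0 ≤ M / Real.sqrt R * (2 * Real.sqrt 1) := by positivity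
  have h4 : M / Real.sqrt R * (2 * Real.sqrt R1) = 2 * M * (Real.sqrt R1 / Real.sqrt R) := by ring
  linarith

private lemma cosh_int68 {F : ℝ → ℂ} (hFc : ContinuousOn F (Set.Ici 1)) {T w δ : ℝ} (hT : 0 ≤ T) (hw : 0 ≤ w)
    (hδ : ∫ t in T..(T + w), ‖F (Real.cosh t)‖ ≤ δ) :
    ∫⁻ r in Set.Ioi (1 : ℝ), (Set.Icc (Real.cosh T) (Real.cosh (T + w))).indicator
      (fun r => ENNReal.ofReal ‖F (max r 1)‖) r * ENNReal.ofReal r⁻¹ ≤ ENNReal.ofReal δ := by
  have hcc : Real.cosh T ≤ Real.cosh (T + w) := by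
    rw [Real.cosh_le_cosh, abs_of_nonneg hT, abs_of_nonneg (by linarith)]
    linarith
  have hFt : Continuous fun r : ℝ => ‖F (max r 1)‖ := by
    refine Continuous.norm ?_
    exact ContinuousOn.comp_continuous hFc (continuous_id.max continuous_const) fun r => Set.mem_Ici.2 (le_max_right _ _)
  have hG : Continuous fun r : ℝ => ‖F (max r 1)‖ * (max r 1)⁻¹ := by
    refine hFt.mul ((continuous_id.max continuous_const).inv₀ fun r => ?_)
    exact (one_pos.trans_le (le_max_right r 1)).ne'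
  have h1 := lint68 (a := Real.cosh T) (b := Real.cosh (T + w)) (G1 := fun r => ‖F (max r 1)‖)
    (G := fun r => ‖F (max r 1)‖ * (max r 1)⁻¹) hcc (Real.cosh_pos T) hG.continuousOn (fun r _ => by
      have := one_pos.trans_le (le_max_right r 1)
      positivity) (fun r hr => by
      have h2 : 1 ≤ r := (Real.one_le_cosh T).trans hr.1
      rw [max_eq_left h2])
  refine h1.trans (ENNReal.ofReal_le_ofReal ?_)
  have h2 := intervalIntegral.integral_comp_mul_deriv (a := T) (b := T + w) (f := Real.cosh) (f' := Real.sinh)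
    (g := fun r => ‖F (max r 1)‖ * (max r 1)⁻¹) (fun x _ => Real.hasDerivAt_cosh x) Real.continuous_sinh.continuousOn hG
  rw [← h2]
  refine le_trans ?_ hδ
  have hFcosh : Continuous fun t : ℝ => ‖F (Real.cosh t)‖ := by
    refine Continuous.norm ?_
    exact ContinuousOn.comp_continuous hFc Real.continuous_cosh fun r => Real.one_le_cosh r
  refine intervalIntegral.integral_mono_on (by linarith) ?_ ?_ ?_
  · exact ((hG.comp Real.continuous_cosh).mul Real.continuous_sinh).intervalIntegrable _ _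
  · exact hFcosh.intervalIntegrable _ _
  · intro x hx
    have hx0 : 0 ≤ x := hT.trans hx.1
    simp only [Function.comp_apply]
    rw [max_eq_left (Real.one_le_cosh x), mul_assoc]
    have h3 : (Real.cosh x)⁻¹ * Real.sinh x ≤ 1 := by
      rw [inv_mul_le_iff₀ (Real.cosh_pos x), mul_one]
      exact (Real.sinh_lt_cosh x).le
    exact mul_le_of_le_one_right (norm_nonneg _) h3

private lemma kap_nonneg68 (m : ℕ) : 0 ≤ kap m := by
  unfold kap
  positivity

private lemma Gm_tail68 (m : ℕ) {R0 : ℝ} (hR0 : 1 ≤ R0) : ∫ r in Set.Ioi R0, Gm m r ≤ kap m / R0 := by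
  have h0 : 0 < R0 := one_pos.trans_le hR0
  have h1 : ∫ r in Set.Ioi R0, kap m * r ^ (-2 : ℝ) = kap m / R0 := by
    rw [integral_const_mul, integral_Ioi_rpow_of_lt (by norm_num) h0]
    norm_num
    rw [Real.rpow_neg_one]
    rfl
  rw [← h1]
  refine setIntegral_mono_on ((Gm_int m).mono_set (Set.Ioi_subset_Ioi hR0)) ?_ measurableSet_Ioi ?_
  · exact (integrableOn_Ioi_rpow_of_lt (by norm_num) h0).const_mul _
  · intro r hr
    have hr1 : 1 ≤ r := hR0.trans (le_of_lt hr)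
    refine (Gm_le m hr1).trans (le_of_eq ?_)
    congr 1
    rw [Real.rpow_neg (by linarith), Real.rpow_two]

private lemma main68 {F : ℝ → ℂ} (hFc : ContinuousOn F (Set.Ici 1)) {M R0 R1 δ : ℝ} (hδ : 0 ≤ δ) (hR0 : 1 ≤ R0) (h01 : R0 ≤ R1)
    (hM : ∀ r, 1 ≤ r → ‖F r‖ ≤ M) (hF1 : ∀ r, 1 ≤ r → r ≤ R0 → ‖F r - 1‖ ≤ δ) :
    ‖(∫ r in (1 : ℝ)..R1, ((Gm m r : ℝ) : ℂ) * F r) - (m + 1)‖ ≤ δ * (m + 1) + (M + 1) * (kap m / R0) := by
  have hM0 : 0 ≤ M := (norm_nonneg _).trans (hM 1 le_rfl)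
  have hR1 : 1 ≤ R1 := hR0.trans h01
  have hGc : ContinuousOn (Gm m) (Set.Icc 1 R1) := (Gm_cont m).mono Set.Icc_subset_Ici_self
  have hGi : ∀ a b, 1 ≤ a → 1 ≤ b → IntervalIntegrable (Gm m) volume a b := by
    intro a b ha hb
    refine ContinuousOn.intervalIntegrable ((Gm_cont m).mono ?_)
    intro x hx
    exact (le_min ha hb).trans hx.1
  have hFi : ContinuousOn F (Set.uIcc 1 R1) := by
    rw [Set.uIcc_of_le hR1]
    exact hFc.mono Set.Icc_subset_Ici_self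
  have hGC : ContinuousOn (fun r => ((Gm m r : ℝ) : ℂ)) (Set.uIcc 1 R1) := by
    rw [Set.uIcc_of_le hR1]
    exact Complex.continuous_ofReal.comp_continuousOn hGc
  -- the total mass
  have e1 : ∫ r in (1 : ℝ)..R1, Gm m r = (m + 1) - ∫ r in Set.Ioi R1, Gm m r := by
    have h1 := Gm_total m
    have h2 : ∫ r in Set.Ioi (1 : ℝ), Gm m r = (∫ r in (1 : ℝ)..R1, Gm m r) + ∫ r in Set.Ioi R1, Gm m r := by
      rw [intervalIntegral.integral_of_le hR1, ← setIntegral_union (Set.Ioc_disjoint_Ioi le_rfl) measurableSet_Ioi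
        ((Gm_int m).mono_set Set.Ioc_subset_Ioi_self) ((Gm_int m).mono_set (Set.Ioi_subset_Ioi hR1)),
        Set.Ioc_union_Ioi_eq_Ioi hR1]
    linarith
  have e2 : ∫ r in (1 : ℝ)..R0, Gm m r ≤ m + 1 := by
    have h2 : ∫ r in Set.Ioi (1 : ℝ), Gm m r = (∫ r in (1 : ℝ)..R0, Gm m r) + ∫ r in Set.Ioi R0, Gm m r := by
      rw [intervalIntegral.integral_of_le hR0, ← setIntegral_union (Set.Ioc_disjoint_Ioi le_rfl) measurableSet_Ioi
        ((Gm_int m).mono_set Set.Ioc_subset_Ioi_self) ((Gm_int m).mono_set (Set.Ioi_subset_Ioi hR0)),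
        Set.Ioc_union_Ioi_eq_Ioi hR0]
    rw [Gm_total] at h2
    have h3 : 0 ≤ ∫ r in Set.Ioi R0, Gm m r := setIntegral_nonneg measurableSet_Ioi fun r hr =>
      Gm_nonneg m (hR0.trans (le_of_lt hr))
    linarith
  have e3 : ∫ r in Set.Ioi R0, Gm m r = (∫ r in R0..R1, Gm m r) + ∫ r in Set.Ioi R1, Gm m r := by
    rw [intervalIntegral.integral_of_le h01, ← setIntegral_union (Set.Ioc_disjoint_Ioi le_rfl) measurableSet_Ioi
      ((Gm_int m).mono_set (Set.Ioc_subset_Ioi_self.trans (Set.Ioi_subset_Ioi hR0)))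
      ((Gm_int m).mono_set (Set.Ioi_subset_Ioi hR1)), Set.Ioc_union_Ioi_eq_Ioi h01]
  have e4 := Gm_tail68 m hR0
  have e5 : 0 ≤ ∫ r in Set.Ioi R1, Gm m r := setIntegral_nonneg measurableSet_Ioi fun r hr =>
      Gm_nonneg m (hR1.trans (le_of_lt hr))
  have e6 : 0 ≤ ∫ r in R0..R1, Gm m r := intervalIntegral.integral_nonneg h01 fun r hr => Gm_nonneg m (hR0.trans hr.1)
  have e7 : (∫ r in (1 : ℝ)..R1, ((Gm m r : ℝ) : ℂ) * F r) - (m + 1) =
      (∫ r in (1 : ℝ)..R1, ((Gm m r : ℝ) : ℂ) * (F r - 1)) - ((∫ r in Set.Ioi R1, Gm m r : ℝ) : ℂ) := by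
    have h1 : ∫ r in (1 : ℝ)..R1, ((Gm m r : ℝ) : ℂ) * (F r - 1) =
        (∫ r in (1 : ℝ)..R1, ((Gm m r : ℝ) : ℂ) * F r) - ∫ r in (1 : ℝ)..R1, ((Gm m r : ℝ) : ℂ) := by
      have hi1 : IntervalIntegrable (fun r => ((Gm m r : ℝ) : ℂ) * F r) volume 1 R1 := (hGC.mul hFi).intervalIntegrable
      rw [← intervalIntegral.integral_sub hi1 hGC.intervalIntegrable]
      congr 1
      funext r
      ring
    rw [h1, intervalIntegral.integral_ofReal, e1]
    push_cast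
    ring
  have e8 : ‖∫ r in (1 : ℝ)..R1, ((Gm m r : ℝ) : ℂ) * (F r - 1)‖ ≤ δ * (m + 1) + (M + 1) * ∫ r in R0..R1, Gm m r := by
    have hint : ∀ a b, 1 ≤ a → a ≤ b → IntervalIntegrable (fun r => Gm m r * ‖F r - 1‖) volume a b := by
      intro a b ha hab
      refine ContinuousOn.intervalIntegrable ?_
      rw [Set.uIcc_of_le hab]
      have hsub : Set.Icc a b ⊆ Set.Ici 1 := fun x hx => ha.trans hx.1
      exact ((Gm_cont m).mono hsub).mul ((hFc.mono hsub).sub continuousOn_const).norm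
    have h1 : ‖∫ r in (1 : ℝ)..R1, ((Gm m r : ℝ) : ℂ) * (F r - 1)‖ ≤ ∫ r in (1 : ℝ)..R1, Gm m r * ‖F r - 1‖ := by
      refine (intervalIntegral.norm_integral_le_integral_norm hR1).trans (le_of_eq ?_)
      refine intervalIntegral.integral_congr fun r hr => ?_
      rw [Set.uIcc_of_le hR1] at hr
      rw [norm_mul, Complex.norm_real, Real.norm_eq_abs, abs_of_nonneg (Gm_nonneg m hr.1)]
    have h2 : ∫ r in (1 : ℝ)..R1, Gm m r * ‖F r - 1‖ = (∫ r in (1 : ℝ)..R0, Gm m r * ‖F r - 1‖) + ∫ r in R0..R1, Gm m r * ‖F r - 1‖ :=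
      (intervalIntegral.integral_add_adjacent_intervals (hint 1 R0 le_rfl hR0) (hint R0 R1 hR0 h01)).symm
    have h3 : ∫ r in (1 : ℝ)..R0, Gm m r * ‖F r - 1‖ ≤ δ * (m + 1) := by
      calc ∫ r in (1 : ℝ)..R0, Gm m r * ‖F r - 1‖ ≤ ∫ r in (1 : ℝ)..R0, Gm m r * δ := by
            refine intervalIntegral.integral_mono_on hR0 (hint 1 R0 le_rfl hR0) ((hGi 1 R0 le_rfl hR0).mul_const δ) fun r hr => ?_
            exact mul_le_mul_of_nonneg_left (hF1 r hr.1 hr.2) (Gm_nonneg m hr.1)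
        _ = (∫ r in (1 : ℝ)..R0, Gm m r) * δ := intervalIntegral.integral_mul_const _ _
        _ ≤ (m + 1) * δ := mul_le_mul_of_nonneg_right e2 hδ
        _ = δ * (m + 1) := mul_comm _ _
    have h4 : ∫ r in R0..R1, Gm m r * ‖F r - 1‖ ≤ (M + 1) * ∫ r in R0..R1, Gm m r := by
      calc ∫ r in R0..R1, Gm m r * ‖F r - 1‖ ≤ ∫ r in R0..R1, Gm m r * (M + 1) := by
            refine intervalIntegral.integral_mono_on h01 (hint R0 R1 hR0 h01) ((hGi R0 R1 hR0 hR1).mul_const _) fun r hr => ?_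
            have hr1 : 1 ≤ r := hR0.trans hr.1
            refine mul_le_mul_of_nonneg_left ?_ (Gm_nonneg m hr1)
            calc ‖F r - 1‖ ≤ ‖F r‖ + ‖(1 : ℂ)‖ := norm_sub_le _ _
              _ ≤ M + 1 := by
                rw [norm_one]
                linarith [hM r hr1]
        _ = (∫ r in R0..R1, Gm m r) * (M + 1) := intervalIntegral.integral_mul_const _ _
        _ = _ := mul_comm _ _
    linarith
  rw [e7]
  refine (norm_sub_le _ _).trans ?_
  rw [Complex.norm_real, Real.norm_eq_abs, abs_of_nonneg e5]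
  have e9 : (M + 1) * (∫ r in R0..R1, Gm m r) + (M + 1) * ∫ r in Set.Ioi R1, Gm m r ≤ (M + 1) * (kap m / R0) := by
    rw [← mul_add, ← e3]
    exact mul_le_mul_of_nonneg_left e4 (by linarith)
  have e10 : ∫ r in Set.Ioi R1, Gm m r ≤ (M + 1) * ∫ r in Set.Ioi R1, Gm m r := by
    nlinarith
  linarith


private lemma cosh_ge68 (T : ℝ) : 1 + T ^ 2 / 2 ≤ Real.cosh T := by
  have h1 : Real.cosh T = 1 + 2 * Real.sinh (T / 2) ^ 2 := by
    have h2 := Real.cosh_two_mul (T / 2)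
    rw [show 2 * (T / 2) = T by ring] at h2
    have h3 := Real.cosh_sq (T / 2)
    linarith
  rw [h1]
  have h4 : (T / 2) ^ 2 ≤ Real.sinh (T / 2) ^ 2 := by
    rw [sq_le_sq, Real.abs_sinh]
    exact Real.self_le_sinh_iff.2 (abs_nonneg _)
  nlinarith

end Aux68

theorem lb_core {m : ℕ} (hm : 1 ≤ m) {C : ℝ} (hC : C < 2 * m + 1) : ∃ R0 δ w : ℝ, 1 ≤ R0 ∧ 0 < δ ∧ 0 < w ∧
    ∀ (H : Type) [NormedAddCommGroup H] [InnerProductSpace ℂ H] [CompleteSpace H] (F : ℝ → ℂ) (p q : Vm m → H),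
      Continuous p → Continuous q → (∀ v, ‖p v‖ ^ 2 ≤ C) → (∀ v, ‖q v‖ ^ 2 ≤ C) → ContinuousOn F (Set.Ici 1) →
      (∀ v v', inner ℂ (p v) (q v') = F (nW (dv v v'))) → (∀ r, 1 ≤ r → r ≤ R0 → ‖F r - 1‖ ≤ δ) →
      (∀ T0 : ℝ, ∃ T : ℝ, T0 ≤ T ∧ ∫ t in T..(T + w), ‖F (Real.cosh t)‖ ≤ δ) → False := by
  obtain ⟨Cn, hCn0, hCn⟩ := chi_near m
  obtain ⟨κ, hκ1, hκ⟩ := chi_far m
  obtain ⟨Cf, hCf0, hCf⟩ := far_bound hm
  have hmR : (0 : ℝ) ≤ m := Nat.cast_nonneg m
  obtain ⟨M, hM⟩ : ∃ M : ℝ, M = |C| + 1 := ⟨_, rfl⟩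
  have hM1 : 1 ≤ M := by
    rw [hM]
    linarith [abs_nonneg C]
  have hCM : C ≤ M := by
    rw [hM]
    linarith [le_abs_self C]
  obtain ⟨η, hη⟩ : ∃ η : ℝ, η = (2 * m + 1 - C) / 2 := ⟨_, rfl⟩
  have hη0 : 0 < η := by
    rw [hη]
    linarith
  have hMC : 0 ≤ M * Cn * Cf := by positivity
  obtain ⟨s, hs⟩ : ∃ s : ℝ, s = min 1 (η / (16 * (M * Cn * Cf) + 16)) := ⟨_, rfl⟩
  have hs0 : 0 < s := by
    rw [hs]
    exact lt_min one_pos (by positivity)
  have hs1 : s ≤ 1 := by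
    rw [hs]
    exact min_le_left _ _
  have hs2 : Cf * (2 * (M * Cn) * s) ≤ η / 8 := by
    have h1 : s ≤ η / (16 * (M * Cn * Cf) + 16) := by
      rw [hs]
      exact min_le_right _ _
    rw [le_div_iff₀ (by positivity)] at h1
    nlinarith
  have hκε : 2 ≤ 2 * κ / s ^ 2 := by
    rw [le_div_iff₀ (by positivity)]
    have h1 : s ^ 2 ≤ 1 := pow_le_one₀ hs0.le hs1
    nlinarith
  obtain ⟨w, hw⟩ : ∃ w : ℝ, w = Real.log (2 * κ / s ^ 2) := ⟨_, rfl⟩
  have hw0 : 0 < w := by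
    rw [hw]
    exact Real.log_pos (by linarith)
  have hkap := kap_nonneg68 m
  obtain ⟨R0, hR0⟩ : ∃ R0 : ℝ, R0 = 1 + 8 * ((M + 1) * kap m) / η := ⟨_, rfl⟩
  have hMk : 0 ≤ (M + 1) * kap m := mul_nonneg (by linarith) hkap
  have hR01 : 1 ≤ R0 := by
    rw [hR0]
    have : 0 ≤ 8 * ((M + 1) * kap m) / η := by positivity
    linarith
  have hR02 : (M + 1) * (kap m / R0) ≤ η / 8 := by
    rw [← mul_div_assoc, div_le_iff₀ (by linarith), hR0, mul_add, mul_one]
    have h1 : η / 8 * (8 * ((M + 1) * kap m) / η) = (M + 1) * kap m := by field_simp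
    rw [h1]
    linarith
  obtain ⟨δ, hδ⟩ : ∃ δ : ℝ, δ = min (η / 8) (min (η / (8 * (m + 1))) (η / (8 * (Cf + 1)))) := ⟨_, rfl⟩
  have hδ0 : 0 < δ := by
    rw [hδ]
    exact lt_min (by positivity) (lt_min (by positivity) (by positivity))
  have hδ1 : δ ≤ η / 8 := by
    rw [hδ]
    exact min_le_left _ _
  have hδ2 : δ * (m + 1) ≤ η / 8 := by
    have h1 : δ ≤ η / (8 * (m + 1)) := by
      rw [hδ]
      exact (min_le_right _ _).trans (min_le_left _ _)
    rw [le_div_iff₀ (by positivity)] at h1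
    linarith
  have hδ3 : Cf * δ ≤ η / 8 := by
    have h1 : δ ≤ η / (8 * (Cf + 1)) := by
      rw [hδ]
      exact (min_le_right _ _).trans (min_le_right _ _)
    rw [le_div_iff₀ (by positivity)] at h1
    nlinarith
  refine ⟨R0, δ, w, hR01, hδ0, hw0, ?_⟩
  intro H _ _ _ F p q hpc hqc hp hq hFc hF hF1 hT
  obtain ⟨T, hT0, hTδ⟩ := hT R0
  have hT0' : 0 ≤ T := by linarith
  obtain ⟨R1, hR1⟩ : ∃ R1 : ℝ, R1 = Real.cosh T := ⟨_, rfl⟩
  have hTR1 : T ≤ R1 := by
    rw [hR1]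
    have h1 := cosh_ge68 T
    nlinarith [sq_nonneg (T - 1)]
  have hR01' : R0 ≤ R1 := hT0.trans hTR1
  have hR11 : 1 ≤ R1 := hR01.trans hR01'
  obtain ⟨R, hR⟩ : ∃ R : ℝ, R = R1 / s ^ 2 := ⟨_, rfl⟩
  have hR1R : R1 / R = s ^ 2 := by
    rw [hR]
    field_simp
  have hRpos : 0 < R := by
    rw [hR]
    positivity
  have hR11' : 1 ≤ R := by
    rw [hR, le_div_iff₀ (by positivity)]
    have h1 : s ^ 2 ≤ 1 := pow_le_one₀ hs0.le hs1
    linarith
  have hκR : κ * R ≤ Real.cosh (T + w) := by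
    have h1 : Real.exp w = 2 * κ / s ^ 2 := by
      rw [hw, Real.exp_log (by linarith)]
    have h2 : Real.exp T * Real.exp w / 2 ≤ Real.cosh (T + w) := by
      rw [Real.cosh_eq, ← Real.exp_add]
      linarith [Real.exp_pos (-(T + w))]
    have h3 : R1 ≤ Real.exp T := by
      rw [hR1, Real.cosh_eq]
      have : Real.exp (-T) ≤ Real.exp T := Real.exp_le_exp.2 (by linarith)
      linarith
    have h4 : κ * R = R1 * Real.exp w / 2 := by
      rw [h1, hR]
      ring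
    rw [h4]
    have h5 : R1 * Real.exp w ≤ Real.exp T * Real.exp w := mul_le_mul_of_nonneg_right h3 (Real.exp_pos w).le
    linarith
  have hFM : ∀ r, 1 ≤ r → ‖F r‖ ≤ M := fun r hr => (F_le68 hp hq hF hr).trans hCM
  have hk := kcont68 (m := m) hFc
  have hkm : Measurable fun u : Vm m => ((sK m 1 u : ℝ) : ℂ) * F (nW u) := hk.measurable
  have hχm : Measurable fun u : Vm m => ((chi m R u : ℝ) : ℂ) := Complex.measurable_ofReal.comp (chi_meas R)
  have hAm : MeasurableSet {v : Vm m | nW v ≤ R1} := (isClosed_le cont_nW continuous_const).measurableSet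
  -- the three parts
  have H1 := far68 hCf0 hCf (h := {v : Vm m | nW v ≤ R1}.indicator fun u => ((sK m 1 u : ℝ) : ℂ) * F (nW u))
    (hkm.indicator hAm).aestronglyMeasurable (Φ := (Set.Icc 1 R1).indicator fun r => ENNReal.ofReal M)
    (measurable_const.indicator measurableSet_Icc) (j := ∫ r in (1 : ℝ)..R1, M * r⁻¹)
    (intervalIntegral.integral_nonneg hR11 fun r hr => by
      have : 0 < r := one_pos.trans_le hr.1
      positivity)
    (lint68 hR11 one_pos (by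
      refine continuousOn_const.mul (continuousOn_id.inv₀ fun r hr => ?_)
      exact (one_pos.trans_le hr.1).ne') (fun r hr => by
      have : 0 < r := one_pos.trans_le hr.1
      positivity) fun r _ => le_rfl)
    (fun u => by
      by_cases hu : u ∈ {v : Vm m | nW v ≤ R1}
      · rw [Set.indicator_of_mem hu, Set.indicator_of_mem (show nW u ∈ Set.Icc 1 R1 from ⟨one_le_nW u, hu⟩),
          ← ofReal_norm, norm_mul, Complex.norm_real, Real.norm_eq_abs, ← ENNReal.ofReal_mul (by linarith), mul_comm M]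
        exact ENNReal.ofReal_le_ofReal (mul_le_mul_of_nonneg_left (hFM _ (one_le_nW u)) (abs_nonneg _))
      · rw [Set.indicator_of_notMem hu]
        simp)
  have H2 := far68 hCf0 hCf (h := {v : Vm m | nW v ≤ R1}.indicator fun u =>
      (1 - ((chi m R u : ℝ) : ℂ)) * (((sK m 1 u : ℝ) : ℂ) * F (nW u)))
    (((measurable_const.sub hχm).mul hkm).indicator hAm).aestronglyMeasurable
    (Φ := (Set.Icc 1 R1).indicator fun r => ENNReal.ofReal (M * Cn * Real.sqrt (r / R)))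
    ((ENNReal.measurable_ofReal.comp (measurable_const.mul
      (Real.continuous_sqrt.measurable.comp (measurable_id.div_const R)))).indicator measurableSet_Icc)
    (j := 2 * (M * Cn) * Real.sqrt (R1 / R)) (by positivity) (sqrt_int68 (by positivity) hR11 hRpos)
    (fun u => by
      by_cases hu : u ∈ {v : Vm m | nW v ≤ R1}
      · rw [Set.indicator_of_mem hu, Set.indicator_of_mem (show nW u ∈ Set.Icc 1 R1 from ⟨one_le_nW u, hu⟩),
          ← ofReal_norm, norm_mul, norm_mul, Complex.norm_real, Real.norm_eq_abs, ← ENNReal.ofReal_mul (by positivity)]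
        apply ENNReal.ofReal_le_ofReal
        have h1 : ‖(1 - ((chi m R u : ℝ) : ℂ))‖ = 1 - chi m R u := by
          rw [← Complex.ofReal_one, ← Complex.ofReal_sub, Complex.norm_real, Real.norm_eq_abs,
            abs_of_nonneg (by linarith [(chi_mem hRpos u).2])]
        rw [h1]
        have h2 := hCn R hR11' u
        have h3 := hFM _ (one_le_nW u)
        have h4 : 0 ≤ 1 - chi m R u := by linarith [(chi_mem hRpos u).2]
        calc (1 - chi m R u) * (|sK m 1 u| * ‖F (nW u)‖) ≤ (Cn * Real.sqrt (nW u / R)) * (|sK m 1 u| * M) :=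
              mul_le_mul h2 (mul_le_mul_of_nonneg_left h3 (abs_nonneg _)) (by positivity) (by positivity)
          _ = M * Cn * Real.sqrt (nW u / R) * |sK m 1 u| := by ring
      · rw [Set.indicator_of_notMem hu]
        simp)
  have H3 := far68 hCf0 hCf (h := {v : Vm m | nW v ≤ R1}ᶜ.indicator fun u =>
      ((chi m R u : ℝ) : ℂ) * (((sK m 1 u : ℝ) : ℂ) * F (nW u)))
    ((hχm.mul hkm).indicator hAm.compl).aestronglyMeasurable
    (Φ := (Set.Icc (Real.cosh T) (Real.cosh (T + w))).indicator fun r => ENNReal.ofReal ‖F (max r 1)‖)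
    ((ENNReal.measurable_ofReal.comp (ContinuousOn.comp_continuous hFc (continuous_id.max continuous_const)
      fun r => Set.mem_Ici.2 (le_max_right _ _)).norm.measurable).indicator measurableSet_Icc)
    (j := δ) hδ0.le (cosh_int68 hFc hT0' hw0.le hTδ)
    (fun u => by
      by_cases hu : u ∈ {v : Vm m | nW v ≤ R1}ᶜ
      · rw [Set.indicator_of_mem hu]
        by_cases hχ : chi m R u = 0
        · rw [hχ]
          simp
        · have hu' : R1 < nW u := not_le.1 hu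
          have hmem : nW u ∈ Set.Icc (Real.cosh T) (Real.cosh (T + w)) := by
            rw [← hR1]
            exact ⟨hu'.le, (hκ R hR11' u hχ).trans hκR⟩
          rw [Set.indicator_of_mem hmem, max_eq_left (one_le_nW u), ← ofReal_norm, norm_mul, norm_mul, Complex.norm_real,
            Complex.norm_real, Real.norm_eq_abs, Real.norm_eq_abs, ← ENNReal.ofReal_mul (norm_nonneg _)]
          apply ENNReal.ofReal_le_ofReal
          have h1 := chi_mem hRpos u
          rw [abs_of_nonneg h1.1]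
          calc chi m R u * (|sK m 1 u| * ‖F (nW u)‖) ≤ 1 * (|sK m 1 u| * ‖F (nW u)‖) :=
                mul_le_mul_of_nonneg_right h1.2 (by positivity)
            _ = ‖F (nW u)‖ * |sK m 1 u| := by ring
      · rw [Set.indicator_of_notMem hu]
        simp)
  have hsplit : ∫ u : Vm m, ((chi m R u : ℝ) : ℂ) * (((sK m 1 u : ℝ) : ℂ) * F (nW u)) =
      (∫ u, {v : Vm m | nW v ≤ R1}.indicator (fun u => ((sK m 1 u : ℝ) : ℂ) * F (nW u)) u) -
      (∫ u, {v : Vm m | nW v ≤ R1}.indicator (fun u => (1 - ((chi m R u : ℝ) : ℂ)) * (((sK m 1 u : ℝ) : ℂ) * F (nW u))) u) +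
      ∫ u, {v : Vm m | nW v ≤ R1}ᶜ.indicator (fun u => ((chi m R u : ℝ) : ℂ) * (((sK m 1 u : ℝ) : ℂ) * F (nW u))) u := by
    have H12 : Integrable (fun u => {v : Vm m | nW v ≤ R1}.indicator (fun u => ((sK m 1 u : ℝ) : ℂ) * F (nW u)) u -
        {v : Vm m | nW v ≤ R1}.indicator (fun u => (1 - ((chi m R u : ℝ) : ℂ)) * (((sK m 1 u : ℝ) : ℂ) * F (nW u))) u) :=
      H1.1.sub H2.1
    rw [← integral_sub H1.1 H2.1, ← integral_add H12 H3.1]
    refine integral_congr_ae (Filter.Eventually.of_forall fun u => ?_)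
    simp only
    by_cases hu : u ∈ {v : Vm m | nW v ≤ R1}
    · rw [Set.indicator_of_mem hu, Set.indicator_of_mem hu, Set.indicator_of_notMem (show u ∉ {v : Vm m | nW v ≤ R1}ᶜ from fun h => h hu)]
      ring
    · rw [Set.indicator_of_notMem hu, Set.indicator_of_notMem hu, Set.indicator_of_mem (show u ∈ {v : Vm m | nW v ≤ R1}ᶜ from hu)]
      ring
  have hpair : ∫ u, {v : Vm m | nW v ≤ R1}.indicator (fun u => ((sK m 1 u : ℝ) : ℂ) * F (nW u)) u =
      ∫ r in (1 : ℝ)..R1, ((Gm m r : ℝ) : ℂ) * F r := by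
    rw [integral_indicator hAm]
    exact pairing hm hFc hR11
  have E1 := main68 (m := m) hFc hδ0.le hR01 hR01' hFM hF1
  have E4 := op68 hm hpc hqc hp hq hFc hF hRpos
  rw [hsplit, hpair] at E4
  have E2 := H2.2
  have E3 := H3.2
  rw [hR1R, Real.sqrt_sq hs0.le] at E2
  have E5 := hF1 1 le_rfl hR01
  generalize (∫ r in (1 : ℝ)..R1, ((Gm m r : ℝ) : ℂ) * F r) = a at *
  generalize (∫ u, {v : Vm m | nW v ≤ R1}.indicator (fun u => (1 - ((chi m R u : ℝ) : ℂ)) * (((sK m 1 u : ℝ) : ℂ) * F (nW u))) u) = b at *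
  generalize (∫ u, {v : Vm m | nW v ≤ R1}ᶜ.indicator (fun u => ((chi m R u : ℝ) : ℂ) * (((sK m 1 u : ℝ) : ℂ) * F (nW u))) u) = c at *
  have hid : ((2 * m + 1 : ℝ) : ℂ) = (F 1 - 1) - (F 1 - 2 * (a - b + c)) - 2 * (a - (m + 1)) + 2 * b - 2 * c := by
    push_cast
    ring
  have h1 : ‖((2 * m + 1 : ℝ) : ℂ)‖ ≤ ‖F 1 - 1‖ + ‖F 1 - 2 * (a - b + c)‖ + 2 * ‖a - (m + 1)‖ + 2 * ‖b‖ + 2 * ‖c‖ := by
    rw [hid]
    refine (norm_sub_le _ _).trans ?_
    refine (add_le_add_left (norm_add_le _ _) _).trans ?_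
    refine (add_le_add_left (add_le_add_left (norm_sub_le _ _) _) _).trans ?_
    refine (add_le_add_left (add_le_add_left (add_le_add_left (norm_sub_le _ _) _) _) _).trans ?_
    simp only [norm_mul, Complex.norm_ofNat]
    exact le_rfl
  rw [Complex.norm_real, Real.norm_eq_abs, abs_of_nonneg (by positivity)] at h1
  have h2 : C = 2 * m + 1 - 2 * η := by
    rw [hη]
    ring
  linarith

end Pool.Agent.Helper84.CH
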