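import Pool.Agent.Helper84.CH.LA1

/-!
# Project CH, block LA2: the kernels: closed form and bounds

PROOFS. `kk_closed`: `plane` with `g ρ = e^(-Aρ) ρ^(2m)`, and `∫_0^∞ ρ^(2m+1) e^(-(A - ib)ρ) dρ = (2m+1)!/(A - ib)^(2m+2)` (`Complex.integral_cpow_mul_exp_neg_mul_Ioi`, or induction by parts), imaginary part. `kk_zero`: `radial3`.
`kk_bound`: for `z = 0`: `kk_zero`. For `z ≠ 0`: `w = A - ib`, `b = ‖z‖`; `‖Im (w^(-k))‖ ≤ k (b/‖w‖) ‖w‖^(-k)`, `k = 2m + 2`: write `w⁻¹ = ‖w‖⁻¹ e^(iφ)`, `sin φ = b/‖w‖`, `|sin(k φ)| ≤ k |sin φ|` (induction), or directly: `|Im(u^k)| ≤ k |Im u| ‖u‖^(k-1)` by induction on `k` (`Im(u^(k+1)) = Im(u^k) Re u + Re(u^k) Im u`), `u = w⁻¹`,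
`Im u = b/‖w‖²`. `‖w‖ = √(A² + b²)`.
`kk_cont`: dominated convergence (`A ≥ A0/2 > 0` near `A0`). `kk_neg`: `cos` is even. `kk_le`: `|cos| ≤ 1`. `kk_int` (`m ≥ 1`): bounded by `C (1 + ‖z‖)^(-(2m+3))`, `2m + 3 > 3` (`integrable_one_add_norm`); measurability from continuity.
-/

set_option autoImplicit false

open Real MeasureTheory

namespace Pool.Agent.Helper84.CH

private theorem ih24 (n : ℕ) {A : ℝ} (hA : 0 < A) :
    IntegrableOn (fun x : ℝ => x ^ n * rexp (-(A * x))) (Set.Ioi 0) := by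
  have h := integrableOn_rpow_mul_exp_neg_mul_rpow (p := 1) (s := n) (b := A)
    (by have : (0 : ℝ) ≤ n := n.cast_nonneg
        linarith) one_pos hA
  refine h.congr_fun (fun x hx => ?_) measurableSet_Ioi
  simp only [Real.rpow_natCast, Real.rpow_one, neg_mul]

private theorem nrm24 (n : ℕ) (w : ℂ) {x : ℝ} (hx : 0 < x) :
    ‖(x : ℂ) ^ n * Complex.exp (-(w * x))‖ = x ^ n * rexp (-(w.re * x)) := by
  rw [norm_mul, norm_pow, Complex.norm_real, Complex.norm_exp, Real.norm_of_nonneg hx.le]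
  simp

private theorem cint24 (n : ℕ) {w : ℂ} (hw : 0 < w.re) :
    IntegrableOn (fun x : ℝ => (x : ℂ) ^ n * Complex.exp (-(w * x))) (Set.Ioi 0) := by
  refine (ih24 n hw).mono' ?_ ?_
  · exact Continuous.aestronglyMeasurable (by fun_prop)
  · refine (ae_restrict_iff' measurableSet_Ioi).2 (Filter.Eventually.of_forall fun x hx => ?_)
    exact (nrm24 n w hx).le

private theorem gam24 (n : ℕ) {w : ℂ} (hw : 0 < w.re) :
    ∫ x : ℝ in Set.Ioi 0, (x : ℂ) ^ n * Complex.exp (-(w * x)) = (n.factorial : ℂ) / w ^ (n + 1) := by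
  have hw0 : w ≠ 0 := by
    rintro rfl
    simp at hw
  induction n with
  | zero =>
    have h := integral_exp_mul_complex_Ioi (a := -w) (by simpa using hw) 0
    simp only [pow_zero, one_mul, Nat.factorial_zero, Nat.cast_one, zero_add, pow_one]
    have h2 : ∀ x : ℝ, Complex.exp (-(w * x)) = Complex.exp (-w * x) := fun x => by rw [neg_mul]
    simp only [h2]
    rw [h]
    simp
  | succ n ih =>
    have hder : ∀ x ∈ Set.Ici (0 : ℝ), HasDerivAt
        (fun x : ℝ => (x : ℂ) ^ (n + 1) * Complex.exp (-(w * x)))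
        (((n + 1 : ℕ) : ℂ) * ((x : ℂ) ^ n * Complex.exp (-(w * x))) -
          w * ((x : ℂ) ^ (n + 1) * Complex.exp (-(w * x)))) x := by
      intro x _
      have h1 : HasDerivAt (fun x : ℝ => (x : ℂ)) 1 x := Complex.ofRealCLM.hasDerivAt
      have h2 : HasDerivAt (fun x : ℝ => (x : ℂ) ^ (n + 1)) (((n + 1 : ℕ) : ℂ) * (x : ℂ) ^ n * 1) x := by
        have := (hasDerivAt_pow (n + 1) (x : ℂ)).comp_ofReal
        simpa using this
      have h3 : HasDerivAt (fun x : ℝ => Complex.exp (-(w * x)))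
          (Complex.exp (-(w * x)) * (-(w * 1))) x := ((h1.const_mul w).neg).cexp
      have h4 : HasDerivAt (fun x : ℝ => (x : ℂ) ^ (n + 1) * Complex.exp (-(w * x)))
          (((n + 1 : ℕ) : ℂ) * (x : ℂ) ^ n * 1 * Complex.exp (-(w * x)) +
            (x : ℂ) ^ (n + 1) * (Complex.exp (-(w * x)) * (-(w * 1)))) x := h2.mul h3
      exact h4.congr_deriv (by ring)
    have hint := ((cint24 n hw).const_mul ((n + 1 : ℕ) : ℂ)).sub ((cint24 (n + 1) hw).const_mul w)
    have htend : Filter.Tendsto (fun x : ℝ => (x : ℂ) ^ (n + 1) * Complex.exp (-(w * x)))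
        Filter.atTop (nhds 0) := by
      rw [tendsto_zero_iff_norm_tendsto_zero]
      have h1 := tendsto_rpow_mul_exp_neg_mul_atTop_nhds_zero ((n + 1 : ℕ) : ℝ) w.re hw
      refine h1.congr' ?_
      filter_upwards [Filter.eventually_gt_atTop (0 : ℝ)] with x hx
      rw [nrm24 (n + 1) w hx, Real.rpow_natCast, neg_mul]
    have h := integral_Ioi_of_hasDerivAt_of_tendsto' hder hint htend
    simp only [Complex.ofReal_zero] at h
    rw [integral_sub ((cint24 n hw).const_mul _) ((cint24 (n + 1) hw).const_mul _),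
      integral_const_mul, integral_const_mul, ih, zero_pow (Nat.succ_ne_zero n), zero_mul,
      sub_zero] at h
    have h5 : w * ∫ x : ℝ in Set.Ioi 0, (x : ℂ) ^ (n + 1) * Complex.exp (-(w * x)) =
        ((n + 1 : ℕ) : ℂ) * ((n.factorial : ℂ) / w ^ (n + 1)) := (sub_eq_zero.1 h).symm
    rw [Nat.factorial_succ, Nat.cast_mul, eq_div_iff (pow_ne_zero _ hw0)]
    have h6 : w ^ (n + 1) ≠ 0 := pow_ne_zero _ hw0
    calc (∫ x : ℝ in Set.Ioi 0, (x : ℂ) ^ (n + 1) * Complex.exp (-(w * x))) * w ^ (n + 1 + 1)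
        = (w * ∫ x : ℝ in Set.Ioi 0, (x : ℂ) ^ (n + 1) * Complex.exp (-(w * x))) * w ^ (n + 1) := by
          ring
      _ = _ := by
          rw [h5]
          field_simp

private theorem sin24 (n : ℕ) {A : ℝ} (hA : 0 < A) (b : ℝ) :
    ∫ x : ℝ in Set.Ioi 0, x ^ n * rexp (-(A * x)) * Real.sin (x * b) =
      (n.factorial : ℝ) * ((((A : ℂ) - (b : ℂ) * Complex.I) ^ (n + 1))⁻¹).im := by
  have hw : 0 < ((A : ℂ) - (b : ℂ) * Complex.I).re := by simpa using hA
  have h1 := congrArg Complex.im (gam24 n hw)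
  have h2 := Complex.imCLM.integral_comp_comm (cint24 n hw)
  have h3 : ∫ x : ℝ in Set.Ioi 0, x ^ n * rexp (-(A * x)) * Real.sin (x * b) =
      ∫ x : ℝ in Set.Ioi 0, Complex.imCLM
        ((x : ℂ) ^ n * Complex.exp (-(((A : ℂ) - (b : ℂ) * Complex.I) * x))) := by
    refine integral_congr_ae (Filter.Eventually.of_forall fun x => ?_)
    have h4 : -(((A : ℂ) - (b : ℂ) * Complex.I) * x) =
        ((-(A * x) : ℝ) : ℂ) + ((x * b : ℝ) : ℂ) * Complex.I := by
      push_cast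
      ring
    simp only [Complex.imCLM_apply]
    rw [h4, Complex.exp_add, ← Complex.ofReal_exp, ← Complex.ofReal_pow, Complex.im_ofReal_mul,
      Complex.im_ofReal_mul, Complex.exp_ofReal_mul_I_im, mul_assoc]
  rw [h3, h2]
  show (∫ x : ℝ in Set.Ioi 0,
    (x : ℂ) ^ n * Complex.exp (-(((A : ℂ) - (b : ℂ) * Complex.I) * x))).im = _
  rw [h1, div_eq_mul_inv]
  have h5 : ((n.factorial : ℕ) : ℂ) = ((n.factorial : ℝ) : ℂ) := by push_cast; rfl
  rw [h5, Complex.im_ofReal_mul]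

private theorem gcont24 (m : ℕ) (A : ℝ) : Continuous fun ρ : ℝ => rexp (-(A * ρ)) * ρ ^ (2 * m) := by
  fun_prop

private theorem gint24 (m : ℕ) {A : ℝ} (hA : 0 < A) :
    IntegrableOn (fun ρ : ℝ => ρ ^ 2 * (rexp (-(A * ρ)) * ρ ^ (2 * m))) (Set.Ioi 0) := by
  refine (ih24 (2 * m + 2) hA).congr_fun (fun x _ => ?_) measurableSet_Ioi
  show x ^ (2 * m + 2) * rexp (-(A * x)) = x ^ 2 * (rexp (-(A * x)) * x ^ (2 * m))
  ring

private theorem im_pow24 (u : ℂ) (k : ℕ) :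
    |(u ^ (k + 1)).im| ≤ (k + 1 : ℝ) * |u.im| * ‖u‖ ^ k := by
  induction k with
  | zero => simp
  | succ k ih =>
    rw [pow_succ, Complex.mul_im]
    have h1 : |(u ^ (k + 1)).re| ≤ ‖u‖ ^ (k + 1) := by
      rw [← norm_pow]
      exact Complex.abs_re_le_norm _
    have h2 : |u.re| ≤ ‖u‖ := Complex.abs_re_le_norm _
    calc |(u ^ (k + 1)).re * u.im + (u ^ (k + 1)).im * u.re|
        ≤ |(u ^ (k + 1)).re| * |u.im| + |(u ^ (k + 1)).im| * |u.re| := by
          refine (abs_add_le _ _).trans ?_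
          rw [abs_mul, abs_mul]
      _ ≤ ‖u‖ ^ (k + 1) * |u.im| + ((k + 1 : ℝ) * |u.im| * ‖u‖ ^ k) * ‖u‖ := by gcongr
      _ = ((k + 1 : ℕ) + 1 : ℝ) * |u.im| * ‖u‖ ^ (k + 1) := by
          push_cast
          ring

theorem kk_closed (m : ℕ) {A : ℝ} (hA : 0 < A) {z : E3} (hz : z ≠ 0) :
    kk m A z = 4 * π * ((2 * m + 1).factorial : ℝ) / ‖z‖ * ((((A : ℂ) - ((‖z‖ : ℝ) : ℂ) * Complex.I) ^ (2 * m + 2))⁻¹).im := by
  have h := plane (gcont24 m A) (gint24 m hA) hz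
  unfold kk
  rw [h]
  have h2 : ∫ ρ in Set.Ioi (0 : ℝ), ρ * (rexp (-(A * ρ)) * ρ ^ (2 * m)) * Real.sin (ρ * ‖z‖) =
      ∫ ρ in Set.Ioi (0 : ℝ), ρ ^ (2 * m + 1) * rexp (-(A * ρ)) * Real.sin (ρ * ‖z‖) := by
    refine integral_congr_ae (Filter.Eventually.of_forall fun x => ?_)
    show x * (rexp (-(A * x)) * x ^ (2 * m)) * Real.sin (x * ‖z‖) =
      x ^ (2 * m + 1) * rexp (-(A * x)) * Real.sin (x * ‖z‖)
    ring
  rw [h2, sin24 (2 * m + 1) hA]
  ring

theorem kk_zero (m : ℕ) {A : ℝ} (hA : 0 < A) : kk m A 0 = 4 * π * ((2 * m + 2).factorial : ℝ) * (A ^ (2 * m + 3))⁻¹ := by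
  have h := (radial3 (gint24 m hA)).2
  unfold kk
  simp only [inner_zero_right, Real.cos_zero, one_mul]
  rw [h]
  have h2 : ∫ ρ in Set.Ioi (0 : ℝ), ρ ^ 2 * (rexp (-(A * ρ)) * ρ ^ (2 * m)) =
      ((2 * m + 2).factorial : ℝ) * (A ^ (2 * m + 3))⁻¹ := by
    have hw : 0 < ((A : ℂ)).re := by simpa using hA
    have h3 := gam24 (2 * m + 2) hw
    have h4 : ∫ x : ℝ in Set.Ioi 0, (x : ℂ) ^ (2 * m + 2) * Complex.exp (-((A : ℂ) * x)) =
        ((∫ ρ in Set.Ioi (0 : ℝ), ρ ^ 2 * (rexp (-(A * ρ)) * ρ ^ (2 * m)) : ℝ) : ℂ) := by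
      rw [← integral_complex_ofReal]
      refine integral_congr_ae (Filter.Eventually.of_forall fun x => ?_)
      show (x : ℂ) ^ (2 * m + 2) * Complex.exp (-((A : ℂ) * x)) =
        ((x ^ 2 * (rexp (-(A * x)) * x ^ (2 * m)) : ℝ) : ℂ)
      push_cast
      ring
    rw [h4] at h3
    have h5 : ((((2 * m + 2).factorial : ℝ) * (A ^ (2 * m + 3))⁻¹ : ℝ) : ℂ) =
        ((2 * m + 2).factorial : ℂ) / (A : ℂ) ^ (2 * m + 2 + 1) := by
      push_cast
      rw [div_eq_mul_inv]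
    rw [← h5] at h3
    exact_mod_cast h3
  rw [h2]
  ring

theorem kk_bound (m : ℕ) {A : ℝ} (hA : 0 < A) (z : E3) :
    |kk m A z| ≤ 4 * π * ((2 * m + 2).factorial : ℝ) * ((Real.sqrt (A ^ 2 + ‖z‖ ^ 2)) ^ (2 * m + 3))⁻¹ := by
  by_cases hz : z = 0
  · subst hz
    rw [kk_zero m hA, norm_zero, zero_pow two_ne_zero, add_zero, Real.sqrt_sq hA.le]
    rw [abs_of_nonneg (by positivity)]
  · have hb : 0 < ‖z‖ := norm_pos_iff.2 hz
    set b := ‖z‖ with hbdef
    set w : ℂ := (A : ℂ) - ((b : ℝ) : ℂ) * Complex.I with hw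
    set N := Real.sqrt (A ^ 2 + b ^ 2) with hN
    have hNpos : 0 < N := Real.sqrt_pos.2 (by positivity)
    have hwre : w.re = A := by simp [hw]
    have hwim : w.im = -b := by simp [hw]
    have hnsq : Complex.normSq w = N ^ 2 := by
      rw [Complex.normSq_apply, hwre, hwim, hN, Real.sq_sqrt (by positivity)]
      ring
    have hnorm : ‖w‖ = N := by
      have h1 : ‖w‖ ^ 2 = N ^ 2 := by rw [← hnsq, Complex.normSq_eq_norm_sq]
      exact (sq_eq_sq₀ (norm_nonneg _) hNpos.le).1 h1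
    have him : (w⁻¹).im = b / N ^ 2 := by
      rw [Complex.inv_im, hnsq, hwim, neg_neg]
    have hinv : ‖w⁻¹‖ = N⁻¹ := by rw [norm_inv, hnorm]
    have h1 := im_pow24 w⁻¹ (2 * m + 1)
    rw [him, hinv, abs_of_nonneg (by positivity : (0 : ℝ) ≤ b / N ^ 2)] at h1
    rw [kk_closed m hA hz, ← inv_pow]
    rw [abs_mul, abs_of_nonneg (by positivity : (0 : ℝ) ≤ 4 * π * ((2 * m + 1).factorial : ℝ) / b)]
    refine (mul_le_mul_of_nonneg_left h1 (by positivity)).trans (le_of_eq ?_)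
    have hf : ((2 * m + 2).factorial : ℝ) = (2 * m + 2 : ℝ) * ((2 * m + 1).factorial : ℝ) := by
      rw [Nat.factorial_succ]
      push_cast
      ring
    rw [hf]
    push_cast
    rw [inv_pow]
    field_simp
    ring

theorem kk_cont (m : ℕ) : ContinuousOn (fun p : ℝ × E3 => kk m p.1 p.2) {p | 0 < p.1} := by
  intro p0 hp0
  have hp0' : 0 < p0.1 := hp0
  apply ContinuousAt.continuousWithinAt
  unfold kk
  have hint := (radial3 (gint24 m (half_pos hp0'))).1
  refine continuousAt_of_dominated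
    (bound := fun l : E3 => rexp (-(p0.1 / 2 * ‖l‖)) * ‖l‖ ^ (2 * m)) ?_ ?_ hint ?_
  · refine Filter.Eventually.of_forall fun p => ?_
    exact Continuous.aestronglyMeasurable (by fun_prop)
  · have h1 : ∀ᶠ p : ℝ × E3 in nhds p0, p0.1 / 2 < p.1 :=
      (continuous_fst.tendsto p0).eventually (lt_mem_nhds (half_lt_self hp0'))
    filter_upwards [h1] with p hp
    refine Filter.Eventually.of_forall fun l => ?_
    rw [Real.norm_eq_abs, abs_mul, abs_of_nonneg (by positivity :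
      (0 : ℝ) ≤ rexp (-(p.1 * ‖l‖)) * ‖l‖ ^ (2 * m))]
    calc |Real.cos (inner ℝ l p.2)| * (rexp (-(p.1 * ‖l‖)) * ‖l‖ ^ (2 * m))
        ≤ 1 * (rexp (-(p.1 * ‖l‖)) * ‖l‖ ^ (2 * m)) := by
          gcongr
          exact Real.abs_cos_le_one _
      _ ≤ rexp (-(p0.1 / 2 * ‖l‖)) * ‖l‖ ^ (2 * m) := by
          rw [one_mul]
          gcongr
  · refine Filter.Eventually.of_forall fun l => ?_
    exact Continuous.continuousAt (by fun_prop)

theorem kk_neg (m : ℕ) (A : ℝ) (z : E3) : kk m A (-z) = kk m A z := by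
  unfold kk
  simp only [inner_neg_right, Real.cos_neg]

theorem kk_le (m : ℕ) {A : ℝ} (hA : 0 < A) (z : E3) : |kk m A z| ≤ kk m A 0 := by
  rw [kk_zero m hA]
  refine (kk_bound m hA z).trans ?_
  have h1 : A ≤ Real.sqrt (A ^ 2 + ‖z‖ ^ 2) := by
    apply Real.le_sqrt_of_sq_le
    have := sq_nonneg ‖z‖
    linarith
  gcongr

theorem kk_int {m : ℕ} (hm : 1 ≤ m) {A : ℝ} (hA : 0 < A) : Integrable (kk m A) := by
  have hc : 0 < A / (A + 1) := by positivity
  have hlow : ∀ z : E3, A / (A + 1) * (1 + ‖z‖) ≤ Real.sqrt (A ^ 2 + ‖z‖ ^ 2) := by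
    intro z
    have hr := norm_nonneg z
    have hmax : max A ‖z‖ ≤ Real.sqrt (A ^ 2 + ‖z‖ ^ 2) := by
      apply max_le
      · apply Real.le_sqrt_of_sq_le
        have := sq_nonneg ‖z‖
        linarith
      · apply Real.le_sqrt_of_sq_le
        have := sq_nonneg A
        linarith
    refine le_trans ?_ hmax
    rw [div_mul_eq_mul_div, div_le_iff₀ (by positivity)]
    rcases le_total ‖z‖ A with h | h
    · rw [max_eq_left h]
      nlinarith
    · rw [max_eq_right h]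
      nlinarith
  have hfin : (Module.finrank ℝ E3 : ℝ) < ((2 * m + 3 : ℕ) : ℝ) := by
    have h1 : Module.finrank ℝ E3 = 3 := by simp
    rw [h1]
    exact_mod_cast (by omega : 3 < 2 * m + 3)
  have hjb := (integrable_one_add_norm (μ := (volume : Measure E3)) hfin).const_mul
    (4 * π * ((2 * m + 2).factorial : ℝ) * ((A / (A + 1)) ^ (2 * m + 3))⁻¹)
  refine hjb.mono' ?_ ?_
  · apply Continuous.aestronglyMeasurable
    rw [continuous_iff_continuousAt]
    intro z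
    have hmem : {p : ℝ × E3 | 0 < p.1} ∈ nhds ((A, z) : ℝ × E3) :=
      (isOpen_lt continuous_const continuous_fst).mem_nhds hA
    have h1 : ContinuousAt (fun p : ℝ × E3 => kk m p.1 p.2) (A, z) :=
      (kk_cont m).continuousAt hmem
    have h2 : ContinuousAt (fun z : E3 => ((A, z) : ℝ × E3)) z := Continuous.continuousAt (by fun_prop)
    have h3 : ContinuousAt ((fun p : ℝ × E3 => kk m p.1 p.2) ∘ (fun z : E3 => ((A, z) : ℝ × E3))) z :=
      ContinuousAt.comp (x := z) h1 h2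
    exact h3
  · refine Filter.Eventually.of_forall fun z => ?_
    rw [Real.norm_eq_abs]
    refine (kk_bound m hA z).trans ?_
    rw [Real.rpow_neg (by positivity), Real.rpow_natCast, mul_assoc (4 * π * _) _ _, ← mul_inv,
      ← mul_pow]
    have h1 : 0 < A / (A + 1) * (1 + ‖z‖) := by positivity
    gcongr
    exact hlow z

end Pool.Agent.Helper84.CH
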