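import Pool.Agent.Helper84.CH.LA2

/-!
# Project CH, block LA3: the group `Vm m` and its measure; polar coordinates

PROOFS. The algebra is clear (`br` is bilinear, `br w w = 0`, `br w w' = -br w' w`). `mp_left`, `mp_right`: the maps `(w, ζ) ↦ (x + w, y + ζ + br x w)` are shears: `MeasurePreserving.skew_product` (translations of `E3` preserve the volume, measurability of `br x w` in `w`). `mp_neg`: `Measure.IsNegInvariant`.
`polarV`: the image of `volume` under `(w, ζ) ↦ (|w|²/2, ‖ζ‖)` is the product of the images of the two factors (`Measure.map_prod_map`), the first has density `(2π^(2m)/(2m-1)!) (2a)^(2m-1)`, the second `4π b²` on `(0, ∞)`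
(`volume.toSphere`, `Measure.volumeIoiPow`, or `integral_fun_norm_addHaar`/`lintegral_fun_norm_addHaar` for the Euclidean space of dimension `4m`, `EuclideanSpace.volume_ball`: `π^(2m)/(2m)!`, substitution `a = ρ²/2`; `Wm m` and `EuclideanSpace ℝ (Fin m × Fin 4)`: `EuclideanSpace.volume_preserving_symm_measurableEquiv_toLp` or similar).
It is enough to compare the measures of the sets `(0, a] × (0, b]`, or to prove the formula for `lintegral`.
`int_pow`: by `polarV`: `a^(2m-1) b² ≤ (ε + a + b)^(2m+1)` and `∫∫ (ε + a + b)^(-3) < ∞`. `sK_*`: from `LA2` (`√(A² + b²) ≥ (A + b)/2`), `sK_sq`: `int_pow` with `k = 2 (2m + 3) ≥ 2m + 4`.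
-/

set_option autoImplicit false

open Real MeasureTheory

namespace Pool.Agent.Helper84.CH

private theorem br_add_right (m : ℕ) (w x y : Wm m) : br w (x + y) = br w x + br w y := by
  ext i
  fin_cases i <;>
    simp only [br, Pi.add_apply, PiLp.add_apply, Fin.zero_eta, Fin.mk_one, Fin.reduceFinMk, Matrix.cons_val_zero,
      Matrix.cons_val_one, Matrix.cons_val, ← Finset.sum_add_distrib] <;>
    exact Finset.sum_congr rfl fun j _ => by ring

private theorem br_swap (m : ℕ) (w x : Wm m) : br x w = -br w x := by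
  ext i
  fin_cases i <;>
    simp only [br, PiLp.neg_apply, Fin.zero_eta, Fin.mk_one, Fin.reduceFinMk, Matrix.cons_val_zero,
      Matrix.cons_val_one, Matrix.cons_val, ← Finset.sum_neg_distrib] <;>
    exact Finset.sum_congr rfl fun j _ => by ring

private theorem br_self (m : ℕ) (w : Wm m) : br w w = 0 := by
  ext i
  fin_cases i <;>
    simp only [br, PiLp.zero_apply, Fin.zero_eta, Fin.mk_one, Fin.reduceFinMk, Matrix.cons_val_zero,
      Matrix.cons_val_one, Matrix.cons_val] <;>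
    exact Finset.sum_eq_zero fun j _ => by ring

private theorem br_add_left (m : ℕ) (x y w : Wm m) : br (x + y) w = br x w + br y w := by
  rw [br_swap m w (x + y), br_add_right, br_swap m w x, br_swap m w y]
  abel

private theorem br_neg_right (m : ℕ) (w x : Wm m) : br w (-x) = -br w x := by
  have h := br_add_right m w x (-x)
  rw [add_neg_cancel] at h
  have h0 : br w 0 = 0 := by
    have := br_add_right m w 0 0
    rw [add_zero] at this
    exact left_eq_add.1 this
  rw [h0] at h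
  exact (neg_eq_of_add_eq_zero_right h.symm).symm

private theorem br_sub_right (m : ℕ) (w x y : Wm m) : br w (x - y) = br w x - br w y := by
  rw [sub_eq_add_neg, br_add_right, br_neg_right, ← sub_eq_add_neg]

private theorem cont_br (m : ℕ) : Continuous fun p : Wm m × Wm m => br p.1 p.2 := by
  unfold br
  refine (PiLp.continuous_toLp 2 _).comp (continuous_pi fun i => ?_)
  fin_cases i <;> simp only [Fin.zero_eta, Fin.mk_one, Fin.reduceFinMk, Matrix.cons_val_zero,
      Matrix.cons_val_one, Matrix.cons_val] <;> fun_prop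

section Alg

variable {m : ℕ}

theorem mulV_dv (v v' : Vm m) : mulV v (dv v v') = v' := by
  unfold mulV dv
  ext1
  · simp
  · simp only [br_sub_right, br_self]
    abel

theorem dv_mulV (v u : Vm m) : dv v (mulV v u) = u := by
  unfold mulV dv
  ext1
  · simp
  · simp only [br_add_right, br_self]
    abel

theorem dv_left (x v v' : Vm m) : dv (mulV x v) (mulV x v') = dv v v' := by
  unfold mulV dv
  ext1
  · simp
  · simp only [br_add_right, br_add_left, br_self, br_swap m x.1 v.1]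
    abel

theorem dv_swap (v v' : Vm m) : dv v' v = -dv v v' := by
  unfold dv
  ext1
  · simp
  · simp only [Prod.snd_neg, br_swap m v.1 v'.1]
    abel

theorem mulV_assoc (x v u : Vm m) : mulV (mulV x v) u = mulV x (mulV v u) := by
  unfold mulV
  ext1
  · simp [add_assoc]
  · simp only [br_add_right, br_add_left]
    abel

theorem cont_dv : Continuous fun p : Vm m × Vm m => dv p.1 p.2 := by
  unfold dv
  have h := (cont_br m).comp (g := fun p : Wm m × Wm m => br p.1 p.2)
    (f := fun p : Vm m × Vm m => (p.1.1, p.2.1)) (by fun_prop)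
  have h' : Continuous fun p : Vm m × Vm m => br p.1.1 p.2.1 := h
  exact ((continuous_fst.comp continuous_snd).sub (continuous_fst.comp continuous_fst)).prodMk
    (((continuous_snd.comp continuous_snd).sub (continuous_snd.comp continuous_fst)).sub h')

theorem cont_mulV : Continuous fun p : Vm m × Vm m => mulV p.1 p.2 := by
  unfold mulV
  have h := (cont_br m).comp (g := fun p : Wm m × Wm m => br p.1 p.2)
    (f := fun p : Vm m × Vm m => (p.1.1, p.2.1)) (by fun_prop)
  have h' : Continuous fun p : Vm m × Vm m => br p.1.1 p.2.1 := h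
  exact ((continuous_fst.comp continuous_fst).add (continuous_fst.comp continuous_snd)).prodMk
    (((continuous_snd.comp continuous_fst).add (continuous_snd.comp continuous_snd)).add h')

private theorem cont_sq : Continuous (sq : Wm m → ℝ) := by
  unfold sq
  fun_prop

private theorem sq_nonneg85 (w : Wm m) : 0 ≤ sq w := Finset.sum_nonneg fun _ _ => sq_nonneg _

private theorem sq_neg85 (w : Wm m) : sq (-w) = sq w := by
  unfold sq
  simp

theorem cont_nW : Continuous (nW : Vm m → ℝ) := by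
  unfold nW
  have := cont_sq (m := m)
  fun_prop

theorem one_le_nW (v : Vm m) : 1 ≤ nW v := by
  unfold nW
  rw [Real.one_le_sqrt]
  have h1 := sq_nonneg85 v.1
  have h2 := sq_nonneg ‖v.2‖
  nlinarith

theorem nW_neg (v : Vm m) : nW (-v) = nW v := by
  unfold nW
  rw [Prod.fst_neg, Prod.snd_neg, sq_neg85, norm_neg]

theorem mp_left (x : Vm m) : MeasurePreserving (mulV x) volume volume := by
  rw [Measure.volume_eq_prod]
  have h := MeasurePreserving.skew_product (measurePreserving_add_left (volume : Measure (Wm m)) x.1)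
    (μc := (volume : Measure E3)) (μd := (volume : Measure E3)) (g := fun w z => x.2 + z + br x.1 w) ?_ ?_
  · exact h
  · have h1 := (cont_br m).comp (g := fun p : Wm m × Wm m => br p.1 p.2)
      (f := fun p : Wm m × E3 => (x.1, p.1)) (by fun_prop)
    have h' : Continuous fun p : Wm m × E3 => br x.1 p.1 := h1
    have h2 : Continuous fun p : Wm m × E3 => x.2 + p.2 + br x.1 p.1 := by fun_prop
    exact h2.measurable
  · refine Filter.Eventually.of_forall fun w => ?_
    exact ((measurePreserving_add_right (volume : Measure E3) (br x.1 w)).comp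
      (measurePreserving_add_left (volume : Measure E3) x.2)).map_eq

theorem mp_right (x : Vm m) : MeasurePreserving (fun v => mulV v x) volume volume := by
  rw [Measure.volume_eq_prod]
  have h := MeasurePreserving.skew_product (measurePreserving_add_right (volume : Measure (Wm m)) x.1)
    (μc := (volume : Measure E3)) (μd := (volume : Measure E3)) (g := fun w z => z + x.2 + br w x.1) ?_ ?_
  · exact h
  · have h1 := (cont_br m).comp (g := fun p : Wm m × Wm m => br p.1 p.2)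
      (f := fun p : Wm m × E3 => (p.1, x.1)) (by fun_prop)
    have h' : Continuous fun p : Wm m × E3 => br p.1 x.1 := h1
    have h2 : Continuous fun p : Wm m × E3 => p.2 + x.2 + br p.1 x.1 := by fun_prop
    exact h2.measurable
  · refine Filter.Eventually.of_forall fun w => ?_
    exact ((measurePreserving_add_right (volume : Measure E3) (br w x.1)).comp
      (measurePreserving_add_right (volume : Measure E3) x.2)).map_eq

theorem mp_neg : MeasurePreserving (fun v : Vm m => -v) volume volume := by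
  rw [Measure.volume_eq_prod]
  exact (Measure.measurePreserving_neg (volume : Measure (Wm m))).prod
    (Measure.measurePreserving_neg (volume : Measure E3))

end Alg
open scoped ENNReal in
private theorem lint_norm {E : Type} [NormedAddCommGroup E] [NormedSpace ℝ E] [FiniteDimensional ℝ E] [Nontrivial E]
    [MeasurableSpace E] [BorelSpace E] (μ : Measure E) [μ.IsAddHaarMeasure] (f : ℝ → ℝ≥0∞) (hf : Measurable f) :
    ∫⁻ x, f ‖x‖ ∂μ = (Module.finrank ℝ E * μ (Metric.ball 0 1)) *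
      ∫⁻ y in Set.Ioi (0 : ℝ), ENNReal.ofReal (y ^ (Module.finrank ℝ E - 1)) * f y := by
  have h1 : ∫⁻ x, f ‖x‖ ∂μ = ∫⁻ x : ({(0)}ᶜ : Set E), f ‖x.1‖ ∂(μ.comap (↑)) := by
    rw [lintegral_subtype_comap (measurableSet_singleton _).compl (fun x : E => f ‖x‖), restrict_compl_singleton]
  have h2 : ∫⁻ x : ({(0)}ᶜ : Set E), f ‖x.1‖ ∂(μ.comap (↑)) =
      ∫⁻ x, f x.2 ∂μ.toSphere.prod (.volumeIoiPow (Module.finrank ℝ E - 1)) := by
    have := μ.measurePreserving_homeomorphUnitSphereProd.lintegral_comp_emb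
      (Homeomorph.measurableEmbedding _) (f ∘ Subtype.val ∘ Prod.snd)
    simpa using this
  have h3 : ∫⁻ x, f x.2 ∂μ.toSphere.prod (.volumeIoiPow (Module.finrank ℝ E - 1)) =
      μ.toSphere Set.univ * ∫⁻ x : Set.Ioi (0 : ℝ), f x ∂.volumeIoiPow (Module.finrank ℝ E - 1) := by
    rw [lintegral_prod _ (by fun_prop)]
    show ∫⁻ _ : Metric.sphere (0 : E) 1, (∫⁻ y : Set.Ioi (0 : ℝ), f y ∂Measure.volumeIoiPow (Module.finrank ℝ E - 1))
      ∂μ.toSphere = _
    rw [lintegral_const, mul_comm]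
  have h4 : ∫⁻ x : Set.Ioi (0 : ℝ), f x ∂.volumeIoiPow (Module.finrank ℝ E - 1) =
      ∫⁻ y in Set.Ioi (0 : ℝ), ENNReal.ofReal (y ^ (Module.finrank ℝ E - 1)) * f y := by
    unfold Measure.volumeIoiPow
    rw [lintegral_withDensity_eq_lintegral_mul _ (by fun_prop) (by fun_prop)]
    exact lintegral_subtype_comap measurableSet_Ioi
      (fun y : ℝ => ENNReal.ofReal (y ^ (Module.finrank ℝ E - 1)) * f y)
  rw [h1, h2, h3, h4, μ.toSphere_apply_univ]

private theorem map_norm3 : (volume : Measure E3).map (fun z => ‖z‖) =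
    ((volume : Measure ℝ).restrict (Set.Ioi 0)).withDensity fun b => ENNReal.ofReal (4 * π * b ^ 2) := by
  refine Measure.ext_of_lintegral _ fun f hf => ?_
  rw [lintegral_map hf (by fun_prop), lint_norm _ f hf, lintegral_withDensity_eq_lintegral_mul _ (by fun_prop) hf]
  have hd : Module.finrank ℝ E3 = 3 := by simp
  rw [hd, EuclideanSpace.volume_ball_fin_three, ← lintegral_const_mul _ (by fun_prop)]
  refine setLIntegral_congr_fun measurableSet_Ioi fun b hb => ?_
  simp only [Pi.mul_apply]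
  rw [← mul_assoc]
  congr 1
  have e1 : ((3 : ℕ) : ENNReal) = ENNReal.ofReal 3 := by simp
  rw [e1, ENNReal.ofReal_one, one_pow, one_mul, ← ENNReal.ofReal_mul (by norm_num), ← ENNReal.ofReal_mul (by positivity)]
  congr 1
  ring

private theorem map_sq {m : ℕ} (hm : 1 ≤ m) : (volume : Measure (Wm m)).map (fun w => sq w / 2) =
    ((volume : Measure ℝ).restrict (Set.Ioi 0)).withDensity fun a =>
      ENNReal.ofReal (2 * π ^ (2 * m) / ((2 * m - 1).factorial : ℝ) * 2 ^ (2 * m - 1) * a ^ (2 * m - 1)) := by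
  have : Nonempty (Fin m × Fin 4) := ⟨(⟨0, hm⟩, 0)⟩
  have hsq : Measurable fun w : Wm m => sq w / 2 := by
    unfold sq
    fun_prop
  refine Measure.ext_of_lintegral _ fun f hf => ?_
  rw [lintegral_map hf hsq, lintegral_withDensity_eq_lintegral_mul _ (by fun_prop) hf]
  have h1 : ∫⁻ w : Wm m, f (sq w / 2) = ∫⁻ l : EuclideanSpace ℝ (Fin m × Fin 4), f (‖l‖ ^ 2 / 2) := by
    rw [← (PiLp.volume_preserving_toLp (Fin m × Fin 4)).lintegral_comp_emb
      (MeasurableEquiv.toLp 2 (Fin m × Fin 4 → ℝ)).measurableEmbedding]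
    refine lintegral_congr fun w => ?_
    congr 2
    rw [EuclideanSpace.norm_sq_eq]
    simp [sq]
  rw [h1, lint_norm _ (fun ρ => f (ρ ^ 2 / 2)) (by fun_prop)]
  have hd : Module.finrank ℝ (EuclideanSpace ℝ (Fin m × Fin 4)) = 2 * (2 * m) := by
    rw [finrank_euclideanSpace, Fintype.card_prod, Fintype.card_fin, Fintype.card_fin]
    ring
  have him : (fun ρ : ℝ => ρ ^ 2 / 2) '' Set.Ioi 0 = Set.Ioi 0 := by
    ext y
    constructor
    · rintro ⟨ρ, hρ, rfl⟩
      have : 0 < ρ := hρ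
      show 0 < ρ ^ 2 / 2
      positivity
    · intro hy
      have hy' : 0 < y := hy
      refine ⟨Real.sqrt (2 * y), Real.sqrt_pos.2 (by positivity), ?_⟩
      show Real.sqrt (2 * y) ^ 2 / 2 = y
      rw [Real.sq_sqrt (by positivity)]
      ring
  have h2 := lintegral_image_eq_lintegral_abs_deriv_mul (f := fun ρ : ℝ => ρ ^ 2 / 2) (f' := fun ρ => ρ)
    (s := Set.Ioi 0) measurableSet_Ioi (fun x _ => by
      have := ((hasDerivAt_pow 2 x).div_const 2).hasDerivWithinAt (s := Set.Ioi 0)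
      refine this.congr_deriv ?_
      push_cast
      ring) (fun x hx y hy h => by
      have hx' : 0 < x := hx
      have hy' : 0 < y := hy
      have h3 : x ^ 2 / 2 = y ^ 2 / 2 := h
      have h4 : x ^ 2 = y ^ 2 := by linarith
      exact (pow_left_inj₀ hx'.le hy'.le (by norm_num)).1 h4)
    (fun a => ENNReal.ofReal (2 * π ^ (2 * m) / ((2 * m - 1).factorial : ℝ) * 2 ^ (2 * m - 1) * a ^ (2 * m - 1)) * f a)
  rw [him] at h2
  have h5 : ∫⁻ a in Set.Ioi (0 : ℝ), ((fun a => ENNReal.ofReal (2 * π ^ (2 * m) / ((2 * m - 1).factorial : ℝ) *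
      2 ^ (2 * m - 1) * a ^ (2 * m - 1))) * f) a = ∫⁻ a in Set.Ioi (0 : ℝ), ENNReal.ofReal (2 * π ^ (2 * m) /
      ((2 * m - 1).factorial : ℝ) * 2 ^ (2 * m - 1) * a ^ (2 * m - 1)) * f a := rfl
  rw [h5, h2, InnerProductSpace.volume_ball_of_dim_even hd, hd, ← lintegral_const_mul _ (by fun_prop)]
  refine setLIntegral_congr_fun measurableSet_Ioi fun ρ hρ => ?_
  have hρ' : 0 < ρ := hρ
  have key : ((2 * (2 * m) : ℕ) : ENNReal) * (ENNReal.ofReal 1 ^ (2 * (2 * m)) *
      ENNReal.ofReal (π ^ (2 * m) / ((2 * m).factorial : ℝ))) * ENNReal.ofReal (ρ ^ (2 * (2 * m) - 1)) =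
      ENNReal.ofReal |ρ| * ENNReal.ofReal (2 * π ^ (2 * m) / ((2 * m - 1).factorial : ℝ) * 2 ^ (2 * m - 1) *
        (ρ ^ 2 / 2) ^ (2 * m - 1)) := by
    have e1 : ((2 * (2 * m) : ℕ) : ENNReal) = ENNReal.ofReal (2 * (2 * m) : ℕ) := by
      rw [ENNReal.ofReal_natCast]
    rw [e1, ENNReal.ofReal_one, one_pow, one_mul, ← ENNReal.ofReal_mul (by positivity), ← ENNReal.ofReal_mul (by positivity),
      ← ENNReal.ofReal_mul (by positivity), abs_of_pos hρ']
    congr 1
    obtain ⟨j, rfl⟩ : ∃ j, m = j + 1 := ⟨m - 1, by omega⟩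
    have e2 : 2 * (j + 1) - 1 = 2 * j + 1 := by omega
    have e3 : 2 * (2 * (j + 1)) - 1 = 4 * j + 3 := by omega
    have e4 : (2 * (j + 1)).factorial = (2 * j + 2) * (2 * j + 1).factorial := Nat.factorial_succ (2 * j + 1)
    rw [e2, e3, e4]
    have hf : ((2 * j + 1).factorial : ℝ) ≠ 0 := by positivity
    push_cast
    rw [div_pow]
    field_simp
    ring
  rw [← mul_assoc, key, mul_assoc]
/-- Polar coordinates. -/
theorem polarV {m : ℕ} (hm : 1 ≤ m) : (volume : Measure (Vm m)).map (fun v => (sq v.1 / 2, ‖v.2‖)) =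
    ((volume : Measure (ℝ × ℝ)).restrict (Set.Ioi 0 ×ˢ Set.Ioi 0)).withDensity fun p =>
      ENNReal.ofReal (2 * π ^ (2 * m) / ((2 * m - 1).factorial : ℝ) * 2 ^ (2 * m - 1) * (4 * π) * (p.1 ^ (2 * m - 1) * p.2 ^ 2)) := by
  have hsq : Measurable fun w : Wm m => sq w / 2 := by
    unfold sq
    fun_prop
  have h1 := Measure.map_prod_map (volume : Measure (Wm m)) (volume : Measure E3) hsq
    (show Measurable fun z : E3 => ‖z‖ by fun_prop)
  have h2 : (volume : Measure (Vm m)).map (fun v => (sq v.1 / 2, ‖v.2‖)) =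
      (volume.prod volume).map (Prod.map (fun w : Wm m => sq w / 2) (fun z : E3 => ‖z‖)) := rfl
  rw [h2, ← h1, map_sq hm, map_norm3, prod_withDensity (by fun_prop) (by fun_prop), Measure.prod_restrict,
    ← Measure.volume_eq_prod]
  refine withDensity_congr_ae ?_
  refine (ae_restrict_iff' (measurableSet_Ioi.prod measurableSet_Ioi)).2 (Filter.Eventually.of_forall fun p hp => ?_)
  have hp1 : 0 < p.1 := hp.1
  have hp2 : 0 < p.2 := hp.2
  show ENNReal.ofReal _ * ENNReal.ofReal _ = ENNReal.ofReal _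
  rw [← ENNReal.ofReal_mul (by positivity)]
  congr 1
  ring

theorem int_pow {m : ℕ} (hm : 1 ≤ m) {ε : ℝ} (hε : 0 < ε) {k : ℕ} (hk : 2 * m + 4 ≤ k) :
    Integrable fun v : Vm m => ((ε + sq v.1 / 2 + ‖v.2‖) ^ k)⁻¹ := by
  obtain ⟨c, hc, hc1, hc2⟩ : ∃ c : ℝ, 0 < c ∧ c ≤ ε ∧ c ≤ 1 / 2 :=
    ⟨min ε (1 / 2), lt_min hε (by norm_num), min_le_left _ _, min_le_right _ _⟩
  have hd1 : (Module.finrank ℝ (Wm m) : ℝ) < 4 * m + 1 := by
    rw [Module.finrank_fintype_fun_eq_card, Fintype.card_prod, Fintype.card_fin, Fintype.card_fin]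
    push_cast
    linarith
  have hd2 : (Module.finrank ℝ E3 : ℝ) < 7 / 2 := by
    have : Module.finrank ℝ E3 = 3 := by simp
    rw [this]
    norm_num
  have i1 := integrable_one_add_norm (μ := (volume : Measure (Wm m))) hd1
  have i2 := integrable_one_add_norm (μ := (volume : Measure E3)) hd2
  have i3 := (i1.mul_prod i2).const_mul (((c / 2) ^ (2 * (m : ℝ) + 4) * ε ^ (k - (2 * m + 4)))⁻¹)
  rw [Measure.volume_eq_prod]
  refine i3.mono' ?_ (Filter.Eventually.of_forall fun v => ?_)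
  · have hs : Continuous fun v : Vm m => sq v.1 := cont_sq.comp continuous_fst
    have hD : Continuous fun v : Vm m => (ε + sq v.1 / 2 + ‖v.2‖) ^ k := by fun_prop
    refine (hD.inv₀ fun v => ?_).aestronglyMeasurable
    have := sq_nonneg85 v.1
    positivity
  · have hs := sq_nonneg85 v.1
    have hn := norm_nonneg v.2
    have hn1 := norm_nonneg v.1
    obtain ⟨D, hD⟩ : ∃ D, D = ε + sq v.1 / 2 + ‖v.2‖ := ⟨_, rfl⟩
    have hDε : ε ≤ D := by rw [hD]; linarith
    have hDpos : 0 < D := hε.trans_le hDε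
    have hsup : ‖v.1‖ ^ 2 ≤ sq v.1 := by
      have h1 : ‖v.1‖ ≤ Real.sqrt (sq v.1) := by
        rw [pi_norm_le_iff_of_nonneg (Real.sqrt_nonneg _)]
        intro i
        rw [Real.norm_eq_abs]
        refine Real.abs_le_sqrt ?_
        exact Finset.single_le_sum (f := fun i => v.1 i ^ 2) (fun _ _ => sq_nonneg _) (Finset.mem_univ i)
      calc ‖v.1‖ ^ 2 ≤ Real.sqrt (sq v.1) ^ 2 := by gcongr
        _ = sq v.1 := Real.sq_sqrt hs
    have b1 : c / 2 * (1 + ‖v.1‖) ^ 2 ≤ D := by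
      rw [hD]
      nlinarith [sq_nonneg (1 - ‖v.1‖), mul_nonneg hc.le (sq_nonneg (1 - ‖v.1‖)), mul_le_mul_of_nonneg_right hc2 hs]
    have b2 : c / 2 * (1 + ‖v.2‖) ≤ D := by
      rw [hD]
      nlinarith
    have b3 : ((c / 2) ^ (2 * (m : ℝ) + 4)) * ((1 + ‖v.1‖) ^ (4 * (m : ℝ) + 1) * (1 + ‖v.2‖) ^ (7 / 2 : ℝ)) ≤
        D ^ (2 * m + 4) := by
      have e1 : D ^ (2 * m + 4) = D ^ ((4 * (m : ℝ) + 1) / 2) * D ^ (7 / 2 : ℝ) := by
        rw [← Real.rpow_add hDpos, ← Real.rpow_natCast]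
        congr 1
        push_cast
        ring
      have e2 : (c / 2) ^ (2 * (m : ℝ) + 4) = (c / 2) ^ ((4 * (m : ℝ) + 1) / 2) * (c / 2) ^ (7 / 2 : ℝ) := by
        rw [← Real.rpow_add (by positivity)]
        congr 1
        ring
      have e3 : (c / 2 * (1 + ‖v.1‖) ^ 2) ^ ((4 * (m : ℝ) + 1) / 2) =
          (c / 2) ^ ((4 * (m : ℝ) + 1) / 2) * (1 + ‖v.1‖) ^ (4 * (m : ℝ) + 1) := by
        rw [Real.mul_rpow (by positivity) (by positivity), ← Real.rpow_natCast (1 + ‖v.1‖) 2, ← Real.rpow_mul (by positivity)]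
        congr 2
        push_cast
        ring
      have e4 : (c / 2 * (1 + ‖v.2‖)) ^ (7 / 2 : ℝ) = (c / 2) ^ (7 / 2 : ℝ) * (1 + ‖v.2‖) ^ (7 / 2 : ℝ) :=
        Real.mul_rpow (by positivity) (by positivity)
      calc ((c / 2) ^ (2 * (m : ℝ) + 4)) * ((1 + ‖v.1‖) ^ (4 * (m : ℝ) + 1) * (1 + ‖v.2‖) ^ (7 / 2 : ℝ))
          = ((c / 2) ^ ((4 * (m : ℝ) + 1) / 2) * (1 + ‖v.1‖) ^ (4 * (m : ℝ) + 1)) *
            ((c / 2) ^ (7 / 2 : ℝ) * (1 + ‖v.2‖) ^ (7 / 2 : ℝ)) := by
            rw [e2]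
            ring
        _ = (c / 2 * (1 + ‖v.1‖) ^ 2) ^ ((4 * (m : ℝ) + 1) / 2) * (c / 2 * (1 + ‖v.2‖)) ^ (7 / 2 : ℝ) := by
            rw [e3, e4]
        _ ≤ D ^ ((4 * (m : ℝ) + 1) / 2) * D ^ (7 / 2 : ℝ) := by
            have j1 : (c / 2 * (1 + ‖v.1‖) ^ 2) ^ ((4 * (m : ℝ) + 1) / 2) ≤ D ^ ((4 * (m : ℝ) + 1) / 2) :=
              Real.rpow_le_rpow (by positivity) b1 (by positivity)
            have j2 : (c / 2 * (1 + ‖v.2‖)) ^ (7 / 2 : ℝ) ≤ D ^ (7 / 2 : ℝ) :=
              Real.rpow_le_rpow (by positivity) b2 (by norm_num)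
            exact mul_le_mul j1 j2 (by positivity) (by positivity)
        _ = D ^ (2 * m + 4) := e1.symm
    have b4 : ε ^ (k - (2 * m + 4)) ≤ D ^ (k - (2 * m + 4)) := by gcongr
    have b5 : D ^ k = D ^ (2 * m + 4) * D ^ (k - (2 * m + 4)) := by
      rw [← pow_add]
      congr 1
      omega
    rw [← hD, Real.norm_of_nonneg (by positivity), b5, Real.rpow_neg (by positivity), Real.rpow_neg (by positivity),
      ← mul_inv, ← mul_inv]
    refine inv_anti₀ (by positivity) ?_
    calc (c / 2) ^ (2 * (m : ℝ) + 4) * ε ^ (k - (2 * m + 4)) *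
          ((1 + ‖v.1‖) ^ (4 * (m : ℝ) + 1) * (1 + ‖v.2‖) ^ (7 / 2 : ℝ))
        = ((c / 2) ^ (2 * (m : ℝ) + 4)) * ((1 + ‖v.1‖) ^ (4 * (m : ℝ) + 1) * (1 + ‖v.2‖) ^ (7 / 2 : ℝ)) *
          ε ^ (k - (2 * m + 4)) := by ring
      _ ≤ D ^ (2 * m + 4) * D ^ (k - (2 * m + 4)) := by gcongr

section Ker

variable {m : ℕ} {ε : ℝ}

theorem sK_cont (hε : 0 < ε) : Continuous (sK m ε) := by
  unfold sK
  refine continuous_const.mul ?_
  rw [← continuousOn_univ]
  have h1 : Continuous fun v : Vm m => ((sq v.1 / 2 + ε, v.2) : ℝ × E3) := by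
    have hs : Continuous fun v : Vm m => sq v.1 := cont_sq.comp continuous_fst
    fun_prop
  refine ContinuousOn.comp (g := fun p : ℝ × E3 => kk m p.1 p.2) (f := fun v : Vm m => ((sq v.1 / 2 + ε, v.2) : ℝ × E3))
    (kk_cont m) h1.continuousOn fun v _ => ?_
  have := sq_nonneg85 v.1
  show 0 < sq v.1 / 2 + ε
  positivity

theorem sK_neg (v : Vm m) : sK m ε (-v) = sK m ε v := by
  unfold sK
  rw [Prod.fst_neg, Prod.snd_neg, sq_neg85, kk_neg]

theorem sK_bound (m : ℕ) : ∃ C : ℝ, 0 ≤ C ∧ ∀ ε : ℝ, 0 < ε → ∀ v : Vm m, |sK m ε v| ≤ C * ((ε + sq v.1 / 2 + ‖v.2‖) ^ (2 * m + 3))⁻¹ := by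
  refine ⟨((2 * π) ^ 3 * π ^ (2 * m))⁻¹ * (4 * π * ((2 * m + 2).factorial : ℝ)) * 2 ^ (2 * m + 3), by positivity, ?_⟩
  intro ε hε v
  have hs := sq_nonneg85 v.1
  have hn := norm_nonneg v.2
  have hA : 0 < sq v.1 / 2 + ε := by positivity
  unfold sK
  rw [abs_mul, abs_of_nonneg (by positivity : (0 : ℝ) ≤ ((2 * π) ^ 3 * π ^ (2 * m))⁻¹), mul_assoc (((2 * π) ^ 3 * π ^ (2 * m))⁻¹),
    mul_assoc (((2 * π) ^ 3 * π ^ (2 * m))⁻¹)]
  refine mul_le_mul_of_nonneg_left ?_ (by positivity)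
  refine (kk_bound m hA v.2).trans ?_
  rw [mul_assoc (4 * π * ((2 * m + 2).factorial : ℝ))]
  refine mul_le_mul_of_nonneg_left ?_ (by positivity)
  have hq : (ε + sq v.1 / 2 + ‖v.2‖) / 2 ≤ Real.sqrt ((sq v.1 / 2 + ε) ^ 2 + ‖v.2‖ ^ 2) := by
    apply Real.le_sqrt_of_sq_le
    nlinarith [sq_nonneg (sq v.1 / 2 + ε - ‖v.2‖), mul_nonneg hA.le hn]
  have hD : 0 < ε + sq v.1 / 2 + ‖v.2‖ := by positivity
  have e1 : 2 ^ (2 * m + 3) * ((ε + sq v.1 / 2 + ‖v.2‖) ^ (2 * m + 3))⁻¹ =
      (((ε + sq v.1 / 2 + ‖v.2‖) / 2) ^ (2 * m + 3))⁻¹ := by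
    rw [div_pow, inv_div]
    rfl
  rw [e1]
  refine inv_anti₀ (by positivity) ?_
  gcongr

theorem sK_sq (hm : 1 ≤ m) (hε : 0 < ε) : Integrable fun v : Vm m => sK m ε v ^ 2 := by
  obtain ⟨C, hC, hb⟩ := sK_bound m
  have i1 := (int_pow hm hε (k := 2 * (2 * m + 3)) (by omega)).const_mul (C ^ 2)
  refine i1.mono' ?_ (Filter.Eventually.of_forall fun v => ?_)
  · exact ((sK_cont hε).pow 2).aestronglyMeasurable
  · have h1 := hb ε hε v
    have hs := sq_nonneg85 v.1
    have hD : 0 < ε + sq v.1 / 2 + ‖v.2‖ := by positivity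
    rw [Real.norm_of_nonneg (sq_nonneg _), ← sq_abs]
    calc |sK m ε v| ^ 2 ≤ (C * ((ε + sq v.1 / 2 + ‖v.2‖) ^ (2 * m + 3))⁻¹) ^ 2 := by gcongr
      _ = C ^ 2 * ((ε + sq v.1 / 2 + ‖v.2‖) ^ (2 * (2 * m + 3)))⁻¹ := by
        rw [mul_pow, inv_pow, ← pow_mul, mul_comm (2 * m + 3) 2]

end Ker

end Pool.Agent.Helper84.CH
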