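import Pool.Agent.Helper84.CH.LA2

/-!
# Project CH, block LA4: the two integrals of the semigroup property

`kk_conv`. PROOF. Let `h_A(l) = e^(-A‖l‖) ‖l‖^(2m)`, continuous, integrable; `kk m A z = ∫ e^(i l·z) h_A(l) dl` (real because `h_A` is even), an integrable function of `z` (`kk_int`). So (Fubini, `kk_int` and integrability of `h_B`)
`∫ kk m A z' kk m B (z - z') dz' = ∫ h_B(l) e^(i l·z) (∫ kk m A z' e^(-i l·z') dz') dl` and the inner integral is `(2π)³ h_A(l)` by Fourier inversion (`Continuous.fourierInv_fourier_eq` or `Continuous.fourier_fourierInv_eq`, in Mathlib's normalisation `𝓕 f(ξ) = ∫ e^(-2πi x·ξ) f(x) dx`: substitute `z = 2π ξ`, `dz = (2π)³ dξ`).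
`gauss_tw`. PROOF. `integral_cexp_neg_mul_sum_add` (Mathlib; `ι = Fin m × Fin 4`, `b = ‖l‖`) with `c j = ‖l‖ w j - I L j`, where `⟪l, br w' w⟫ = ∑_j w' j L j`: `∑ c_j² = ‖l‖² |w|² - |L|² - 2 I ‖l‖ ∑ w_j L_j = 0`, because `∑ L_j² = ‖l‖² |w|²` (for each of the `m` quaternions, `ring`) and `∑ w_j L_j = ⟪l, br w w⟫ = 0`.
-/

set_option autoImplicit false

open Real MeasureTheory

namespace Pool.Agent.Helper84.CH

private lemma hcont67 (m : ℕ) (A : ℝ) : Continuous (fun l : E3 => Real.exp (-(A * ‖l‖)) * ‖l‖ ^ (2 * m)) := by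
  fun_prop

private lemma hint67 (m : ℕ) {A : ℝ} (hA : 0 < A) :
    Integrable (fun l : E3 => Real.exp (-(A * ‖l‖)) * ‖l‖ ^ (2 * m)) := by
  have h1 : IntegrableOn (fun ρ : ℝ => ρ ^ 2 * (Real.exp (-(A * ρ)) * ρ ^ (2 * m))) (Set.Ioi 0) := by
    have h0 := integrableOn_rpow_mul_exp_neg_mul_rpow (p := 1) (s := ((2 * m + 2 : ℕ) : ℝ)) (b := A)
      (by have : (0 : ℝ) ≤ ((2 * m + 2 : ℕ) : ℝ) := Nat.cast_nonneg _
          linarith) one_pos hA
    refine h0.congr_fun ?_ measurableSet_Ioi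
    intro x hx
    simp only [Real.rpow_natCast, Real.rpow_one]
    rw [neg_mul]
    ring
  exact (radial3 (g := fun ρ => Real.exp (-(A * ρ)) * ρ ^ (2 * m)) h1).1

private lemma sym67 {h : E3 → ℝ} (hc : Continuous h) (hi : Integrable h) (he : ∀ l, h (-l) = h l) (z : E3) :
    ∫ l : E3, Complex.exp (((inner ℝ l z : ℝ) : ℂ) * Complex.I) * ((h l : ℝ) : ℂ) =
      ((∫ l : E3, Real.cos (inner ℝ l z) * h l : ℝ) : ℂ) := by
  have hF : Integrable (fun l : E3 => Complex.exp (((inner ℝ l z : ℝ) : ℂ) * Complex.I) * ((h l : ℝ) : ℂ)) := by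
    refine hi.norm.mono' ?_ ?_
    · have : Continuous (fun l : E3 => Complex.exp (((inner ℝ l z : ℝ) : ℂ) * Complex.I) * ((h l : ℝ) : ℂ)) := by
        have h1 : Continuous (fun l : E3 => (inner ℝ l z : ℝ)) := by fun_prop
        have h2 : Continuous (fun l : E3 => ((inner ℝ l z : ℝ) : ℂ)) := Complex.continuous_ofReal.comp h1
        have h3 : Continuous (fun l : E3 => ((h l : ℝ) : ℂ)) := Complex.continuous_ofReal.comp hc
        exact (Complex.continuous_exp.comp (h2.mul continuous_const)).mul h3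
      exact this.aestronglyMeasurable
    · refine Filter.Eventually.of_forall fun l => ?_
      rw [norm_mul, Complex.norm_exp_ofReal_mul_I, one_mul, Complex.norm_real]
  have hF2 := hF.comp_neg
  have e1 : ∫ l : E3, Complex.exp (((inner ℝ (-l) z : ℝ) : ℂ) * Complex.I) * ((h (-l) : ℝ) : ℂ) =
      ∫ l : E3, Complex.exp (((inner ℝ l z : ℝ) : ℂ) * Complex.I) * ((h l : ℝ) : ℂ) :=
    integral_neg_eq_self (fun l : E3 => Complex.exp (((inner ℝ l z : ℝ) : ℂ) * Complex.I) * ((h l : ℝ) : ℂ)) volume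
  have e2 : ∫ l : E3, (Complex.exp (((inner ℝ l z : ℝ) : ℂ) * Complex.I) * ((h l : ℝ) : ℂ) +
      Complex.exp (((inner ℝ (-l) z : ℝ) : ℂ) * Complex.I) * ((h (-l) : ℝ) : ℂ)) =
      2 * ∫ l : E3, Complex.exp (((inner ℝ l z : ℝ) : ℂ) * Complex.I) * ((h l : ℝ) : ℂ) := by
    rw [integral_add hF hF2, e1]
    ring
  have e3 : ∀ l : E3, (Complex.exp (((inner ℝ l z : ℝ) : ℂ) * Complex.I) * ((h l : ℝ) : ℂ) +
      Complex.exp (((inner ℝ (-l) z : ℝ) : ℂ) * Complex.I) * ((h (-l) : ℝ) : ℂ)) =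
      2 * (((Real.cos (inner ℝ l z) * h l : ℝ)) : ℂ) := by
    intro l
    rw [he l, inner_neg_left]
    push_cast
    rw [Complex.cos]
    ring
  simp_rw [e3] at e2
  rw [integral_const_mul, integral_complex_ofReal] at e2
  exact (mul_left_cancel₀ two_ne_zero e2).symm

private lemma four67 (m : ℕ) {A : ℝ} (hA : 0 < A) (ξ : E3) :
    FourierTransform.fourier (fun l : E3 => ((Real.exp (-(A * ‖l‖)) * ‖l‖ ^ (2 * m) : ℝ) : ℂ)) ξ =
      ((kk m A ((2 * π) • ξ) : ℝ) : ℂ) := by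
  rw [Real.fourier_eq']
  have h1 := sym67 (hcont67 m A) (hint67 m hA) (by intro l; rw [norm_neg]) (-((2 * π) • ξ))
  rw [← kk_neg, kk, ← h1]
  refine integral_congr_ae (Filter.Eventually.of_forall fun l => ?_)
  simp only [smul_eq_mul]
  rw [inner_neg_right, inner_smul_right]
  congr 3
  push_cast
  ring

private lemma four67b (m : ℕ) {B : ℝ} (hB : 0 < B) (z ξ : E3) :
    FourierTransform.fourier (fun l : E3 => Complex.exp (((inner ℝ l z : ℝ) : ℂ) * Complex.I) *
      ((Real.exp (-(B * ‖l‖)) * ‖l‖ ^ (2 * m) : ℝ) : ℂ)) ξ =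
      ((kk m B (z - (2 * π) • ξ) : ℝ) : ℂ) := by
  rw [Real.fourier_eq']
  have h1 := sym67 (hcont67 m B) (hint67 m hB) (by intro l; rw [norm_neg]) (z - (2 * π) • ξ)
  rw [kk, ← h1]
  refine integral_congr_ae (Filter.Eventually.of_forall fun l => ?_)
  simp only [smul_eq_mul]
  rw [← mul_assoc, ← Complex.exp_add, inner_sub_right, inner_smul_right]
  congr 2
  push_cast
  ring

theorem kk_conv {m : ℕ} (hm : 1 ≤ m) {A B : ℝ} (hA : 0 < A) (hB : 0 < B) (z : E3) :
    ∫ z' : E3, kk m A z' * kk m B (z - z') =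
      (2 * π) ^ 3 * ∫ l : E3, Real.cos (inner ℝ l z) * (Real.exp (-((A + B) * ‖l‖)) * ‖l‖ ^ (4 * m)) := by
  have hπ : (2 * π : ℝ) ≠ 0 := by positivity
  set HA : E3 → ℂ := fun l : E3 => ((Real.exp (-(A * ‖l‖)) * ‖l‖ ^ (2 * m) : ℝ) : ℂ) with hHA
  set G : E3 → ℂ := fun l : E3 => Complex.exp (((inner ℝ l z : ℝ) : ℂ) * Complex.I) *
      ((Real.exp (-(B * ‖l‖)) * ‖l‖ ^ (2 * m) : ℝ) : ℂ) with hG
  have hHAc : Continuous HA := Complex.continuous_ofReal.comp (hcont67 m A)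
  have hHAi : Integrable HA := (hint67 m hA).ofReal
  have hGi : Integrable G := by
    refine (hint67 m hB).norm.mono' ?_ ?_
    · have : Continuous G := by
        have h1 : Continuous (fun l : E3 => (inner ℝ l z : ℝ)) := by fun_prop
        have h2 : Continuous (fun l : E3 => ((inner ℝ l z : ℝ) : ℂ)) := Complex.continuous_ofReal.comp h1
        have h3 : Continuous (fun l : E3 => ((Real.exp (-(B * ‖l‖)) * ‖l‖ ^ (2 * m) : ℝ) : ℂ)) :=
          Complex.continuous_ofReal.comp (hcont67 m B)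
        exact (Complex.continuous_exp.comp (h2.mul continuous_const)).mul h3
      exact this.aestronglyMeasurable
    · refine Filter.Eventually.of_forall fun l => ?_
      rw [hG]
      simp only
      rw [norm_mul, Complex.norm_exp_ofReal_mul_I, one_mul, Complex.norm_real]
  have hFA : FourierTransform.fourier HA = fun ξ : E3 => ((kk m A ((2 * π) • ξ) : ℝ) : ℂ) := by
    funext ξ
    exact four67 m hA ξ
  have hFG : FourierTransform.fourier G = fun ξ : E3 => ((kk m B (z - (2 * π) • ξ) : ℝ) : ℂ) := by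
    funext ξ
    exact four67b m hB z ξ
  have hFAi : Integrable (FourierTransform.fourier HA) := by
    rw [hFA]
    exact ((kk_int hm hA).comp_smul hπ).ofReal
  have hinv : ∀ x : E3, FourierTransform.fourier (FourierTransform.fourier HA) x = HA x := by
    intro x
    have h1 := congrFun (hHAc.fourierInv_fourier_eq hHAi hFAi) (-x)
    rw [Real.fourierInv_eq_fourier_neg, neg_neg] at h1
    rw [h1, hHA]
    simp only [norm_neg]
  have hself : ∫ ξ : E3, (FourierTransform.fourier G ξ) * (FourierTransform.fourier HA ξ) =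
      ∫ x : E3, G x * FourierTransform.fourier (FourierTransform.fourier HA) x := by
    simpa using! (VectorFourier.integral_fourierIntegral_smul_eq_flip (L := innerₗ E3)
      Real.continuous_fourierChar continuous_inner hGi hFAi)
  simp_rw [hinv] at hself
  rw [hFG, hFA] at hself
  have hR : ∫ x : E3, G x * HA x = ((∫ l : E3, Real.cos (inner ℝ l z) * (Real.exp (-((A + B) * ‖l‖)) * ‖l‖ ^ (4 * m)) : ℝ) : ℂ) := by
    have hAB : 0 < A + B := by positivity
    have h2m : ∀ l : E3, ‖l‖ ^ (4 * m) = ‖l‖ ^ (2 * (2 * m)) := by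
      intro l
      congr 1
      ring
    simp_rw [h2m]
    rw [← sym67 (hcont67 (2 * m) (A + B)) (hint67 (2 * m) hAB) (by intro l; rw [norm_neg]) z]
    refine integral_congr_ae (Filter.Eventually.of_forall fun l => ?_)
    simp only [hG, hHA]
    rw [mul_assoc, ← Complex.ofReal_mul]
    congr 2
    have : Real.exp (-((A + B) * ‖l‖)) = Real.exp (-(A * ‖l‖)) * Real.exp (-(B * ‖l‖)) := by
      rw [← Real.exp_add]
      congr 1
      ring
    rw [this]
    ring
  have hL : ∫ ξ : E3, ((kk m B (z - (2 * π) • ξ) : ℝ) : ℂ) * ((kk m A ((2 * π) • ξ) : ℝ) : ℂ) =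
      ((∫ ξ : E3, kk m A ((2 * π) • ξ) * kk m B (z - (2 * π) • ξ) : ℝ) : ℂ) := by
    rw [← integral_complex_ofReal]
    refine integral_congr_ae (Filter.Eventually.of_forall fun l => ?_)
    simp only
    push_cast
    ring
  rw [hR, hL] at hself
  have hself' := Complex.ofReal_injective hself
  have hsc := Measure.integral_comp_smul (volume : Measure E3) (fun z' : E3 => kk m A z' * kk m B (z - z')) (2 * π)
  rw [hself'] at hsc
  rw [hsc]
  have hfr : Module.finrank ℝ E3 = 3 := by simp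
  rw [hfr, abs_of_pos (by positivity), smul_eq_mul, ← mul_assoc, mul_inv_cancel₀ (by positivity), one_mul]

theorem gauss_tw {m : ℕ} {l : E3} (hl : l ≠ 0) (w : Wm m) :
    ∫ w' : Wm m, Complex.exp (-(((‖l‖ * ((sq w' + sq (w - w')) / 2) : ℝ)) : ℂ) - Complex.I * ((inner ℝ l (br w' w) : ℝ) : ℂ)) =
      (((π / ‖l‖) ^ (2 * m) * Real.exp (-(‖l‖ * (sq w / 2))) : ℝ) : ℂ) := by
  have hb : 0 < ‖l‖ := norm_pos_iff.2 hl
  set L : Fin m × Fin 4 → ℝ := fun p => (![l 0 * w (p.1, 1) + l 1 * w (p.1, 2) + l 2 * w (p.1, 3),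
    -(l 0 * w (p.1, 0)) + l 1 * w (p.1, 3) - l 2 * w (p.1, 2),
    -(l 0 * w (p.1, 3)) - l 1 * w (p.1, 0) + l 2 * w (p.1, 1),
    l 0 * w (p.1, 2) - l 1 * w (p.1, 1) - l 2 * w (p.1, 0)] : Fin 4 → ℝ) p.2 with hL
  have hin : ∀ w' : Wm m, (inner ℝ l (br w' w) : ℝ) = ∑ p, w' p * L p := by
    intro w'
    rw [Fintype.sum_prod_type]
    simp only [Fin.sum_univ_four, hL]
    simp only [br, PiLp.inner_apply, Fin.sum_univ_three, RCLike.inner_apply, conj_trivial]
    simp only [Matrix.cons_val_zero, Matrix.cons_val_one, Matrix.cons_val]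
    rw [Finset.sum_mul, Finset.sum_mul, Finset.sum_mul, ← Finset.sum_add_distrib, ← Finset.sum_add_distrib]
    refine Finset.sum_congr rfl fun i _ => ?_
    ring
  have hsqw : sq w = ∑ i : Fin m, (w (i, 0) ^ 2 + w (i, 1) ^ 2 + w (i, 2) ^ 2 + w (i, 3) ^ 2) := by
    unfold sq
    rw [Fintype.sum_prod_type]
    simp only [Fin.sum_univ_four]
  have hnl : ‖l‖ ^ 2 = l 0 ^ 2 + l 1 ^ 2 + l 2 ^ 2 := by
    rw [EuclideanSpace.norm_sq_eq]
    simp only [Fin.sum_univ_three, Real.norm_eq_abs, sq_abs]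
  have hL2 : ∑ p, L p ^ 2 = ‖l‖ ^ 2 * sq w := by
    rw [Fintype.sum_prod_type, hsqw, hnl, Finset.mul_sum]
    refine Finset.sum_congr rfl fun i _ => ?_
    simp only [Fin.sum_univ_four, hL]
    simp only [Matrix.cons_val_zero, Matrix.cons_val_one, Matrix.cons_val]
    ring
  have hwL : ∑ p, w p * L p = 0 := by
    rw [Fintype.sum_prod_type]
    refine Finset.sum_eq_zero fun i _ => ?_
    simp only [Fin.sum_univ_four, hL]
    simp only [Matrix.cons_val_zero, Matrix.cons_val_one, Matrix.cons_val]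
    ring
  set c : Fin m × Fin 4 → ℂ := fun p => ((‖l‖ * w p : ℝ) : ℂ) - Complex.I * ((L p : ℝ) : ℂ) with hc
  have hc2 : ∑ p, c p ^ 2 = 0 := by
    have h1 : ∀ p, c p ^ 2 = ((‖l‖ ^ 2 * w p ^ 2 - L p ^ 2 : ℝ) : ℂ) - 2 * Complex.I * ((‖l‖ * (w p * L p) : ℝ) : ℂ) := by
      intro p
      simp only [hc]
      have hI : Complex.I ^ 2 = -1 := Complex.I_sq
      push_cast
      linear_combination ((L p : ℝ) : ℂ) ^ 2 * hI
    simp_rw [h1]
    rw [Finset.sum_sub_distrib, ← Finset.mul_sum, ← Complex.ofReal_sum, ← Complex.ofReal_sum, Finset.sum_sub_distrib,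
      ← Finset.mul_sum, ← Finset.mul_sum, hL2, hwL]
    simp [sq]
  have hexp : ∀ w' : Wm m, Complex.exp (-(((‖l‖ * ((sq w' + sq (w - w')) / 2) : ℝ)) : ℂ) - Complex.I * ((inner ℝ l (br w' w) : ℝ) : ℂ)) =
      Complex.exp (-(((‖l‖ * (sq w / 2) : ℝ)) : ℂ)) *
        Complex.exp (-((‖l‖ : ℝ) : ℂ) * ∑ p, ((w' p : ℝ) : ℂ) ^ 2 + ∑ p, c p * ((w' p : ℝ) : ℂ)) := by
    intro w'
    rw [← Complex.exp_add, hin w']
    congr 1
    have h1 : sq w' + sq (w - w') = ∑ p, (2 * w' p ^ 2 - 2 * (w p * w' p) + w p ^ 2) := by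
      unfold sq
      rw [← Finset.sum_add_distrib]
      refine Finset.sum_congr rfl fun p _ => ?_
      simp only [Pi.sub_apply]
      ring
    rw [h1]
    unfold sq
    push_cast
    simp only [hc]
    rw [Finset.sum_add_distrib, Finset.sum_sub_distrib, ← Finset.mul_sum, ← Finset.mul_sum]
    have h2 : ∑ p, (((‖l‖ * w p : ℝ) : ℂ) - Complex.I * ((L p : ℝ) : ℂ)) * ((w' p : ℝ) : ℂ) =
        ((‖l‖ : ℝ) : ℂ) * ∑ p, ((w p : ℝ) : ℂ) * ((w' p : ℝ) : ℂ) - Complex.I * ∑ p, ((w' p : ℝ) : ℂ) * ((L p : ℝ) : ℂ) := by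
      rw [Finset.mul_sum, Finset.mul_sum, ← Finset.sum_sub_distrib]
      refine Finset.sum_congr rfl fun p _ => ?_
      push_cast
      ring
    rw [h2]
    ring
  simp_rw [hexp]
  rw [integral_const_mul]
  have hg := GaussianFourier.integral_cexp_neg_mul_sum_add (b := ((‖l‖ : ℝ) : ℂ)) (by simpa using hb) c
  rw [hg, hc2]
  have hcard : (Fintype.card (Fin m × Fin 4) : ℂ) / 2 = ((2 * m : ℕ) : ℂ) := by
    rw [Fintype.card_prod, Fintype.card_fin, Fintype.card_fin]
    push_cast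
    ring
  rw [hcard, Complex.cpow_natCast]
  push_cast
  rw [zero_div, Complex.exp_zero, mul_one]
  ring

end Pool.Agent.Helper84.CH
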