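import Pool.Agent.Helper84.CH.LA3
import Pool.Agent.Helper84.CH.LA4

/-!
# Project CH, block LA5: the semigroup property of the kernels

`sK_conv`. PROOF. By `dv_left`, `mp_left` (substitute `v' = mulV u x`) we may assume `u = 0` up to the substitution: `dv u (mulV u x) = x`, `dv (mulV u x) v = dv x (dv u v)` (from `dv_left`, `mulV_dv`). So let `v = (w, ζ)` and prove `∫ v', sK m ε v' * sK m ε (dv v' v) = sK m (2 ε) v`; `dv v' v = (w - w', ζ - ζ' - br w' w)`.
The product is integrable on `Vm m` (`sK_sq`, both factors are in `L²`: `dv v' v = -dv v v'`, `x ↦ dv v x = mulV (-v) x`, `mp_left`, `sK_neg`; `MemLp.integrable_mul`). `c = ((2π)³ π^(2m))⁻¹`. Fubini (`integral_prod`): `∫_w' ∫_ζ'`; for fixed `w'` by `kk_conv`: `∫_ζ' kk m A ζ' kk m B ((ζ - br w' w) - ζ') = (2π)³ ∫_l cos(l·(ζ - br w' w)) e^(-(A+B)‖l‖) ‖l‖^(4m)`,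
`A + B = (|w'|² + |w - w'|²)/2 + 2 ε`. Exchange `∫_w'` and `∫_l` (absolutely integrable: `∫_w' e^(-‖l‖ (|w'|² + |w - w'|²)/2) ≤ (π/‖l‖)^(2m)` by `gauss_tw`-like Gaussian integral, times `‖l‖^(4m) e^(-2ε‖l‖)`); `cos(l·(ζ - br w' w)) = Re (e^(i l·ζ) e^(-i l·br w' w))` and `gauss_tw` give
`c² (2π)³ π^(2m) ∫_l cos(l·ζ) ‖l‖^(2m) e^(-(|w|²/2 + 2ε)‖l‖) = c kk m (|w|²/2 + 2 ε) ζ`.
-/

set_option autoImplicit false

open Real MeasureTheory

namespace Pool.Agent.Helper84.CH

private lemma sq_cont33 {m : ℕ} : Continuous (sq : Wm m → ℝ) := by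
  unfold sq
  fun_prop

private lemma sq_nonneg33 {m : ℕ} (w : Wm m) : 0 ≤ sq w :=
  Finset.sum_nonneg fun i _ => sq_nonneg (w i)

private lemma br_cont33 {m : ℕ} (w : Wm m) : Continuous fun w' : Wm m => br w' w := by
  have h : Continuous fun w' : Wm m => -(dv ((w', 0) : Vm m) ((w, 0) : Vm m)).2 :=
    (continuous_snd.comp (cont_dv.comp
      ((continuous_id.prodMk continuous_const).prodMk continuous_const))).neg
  refine h.congr fun w' => ?_
  simp [dv]

/-- The measurable equivalence `x ↦ mulV u x`. -/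
private noncomputable def eV33 {m : ℕ} (u : Vm m) : Vm m ≃ᵐ Vm m where
  toFun := mulV u
  invFun := dv u
  left_inv := dv_mulV u
  right_inv := mulV_dv u
  measurable_toFun := (cont_mulV.comp (continuous_const.prodMk continuous_id)).measurable
  measurable_invFun := (cont_dv.comp (continuous_const.prodMk continuous_id)).measurable

private lemma mp_dv33 {m : ℕ} (u : Vm m) : MeasurePreserving (dv u) volume volume :=
  (MeasurePreserving.symm (eV33 u) (mp_left u))

private lemma memLp33 {m : ℕ} (hm : 1 ≤ m) {ε : ℝ} (hε : 0 < ε) : MemLp (sK m ε) 2 volume :=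
  (memLp_two_iff_integrable_sq (sK_cont hε).aestronglyMeasurable).2 (sK_sq hm hε)

private lemma int_prod33 {m : ℕ} (hm : 1 ≤ m) {ε : ℝ} (hε : 0 < ε) (V : Vm m) :
    Integrable fun x : Vm m => sK m ε x * sK m ε (dv x V) := by
  have h2 : MemLp (fun x : Vm m => sK m ε (dv x V)) 2 volume := by
    have h := (memLp33 hm hε).comp_measurePreserving (mp_dv33 V)
    have he : (fun x : Vm m => sK m ε (dv x V)) = sK m ε ∘ dv V := by
      funext x
      rw [Function.comp_apply, dv_swap, sK_neg]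
    rw [he]
    exact h
  exact (memLp33 hm hε).integrable_mul h2

/-- The dominating function. -/
private lemma dom33 (m : ℕ) {ε : ℝ} (hε : 0 < ε) :
    Integrable (fun p : Wm m × E3 => Real.exp (-(‖p.2‖ / 2 * sq p.1)) *
      (Real.exp (-(2 * ε * ‖p.2‖)) * ‖p.2‖ ^ (4 * m))) (volume.prod volume) := by
  have hcont : Continuous (fun p : Wm m × E3 => Real.exp (-(‖p.2‖ / 2 * sq p.1)) *
      (Real.exp (-(2 * ε * ‖p.2‖)) * ‖p.2‖ ^ (4 * m))) := by
    have := (sq_cont33 (m := m)).comp (continuous_fst (X := Wm m) (Y := E3))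
    simp only [Function.comp_def] at this
    fun_prop
  have hprod : ∀ (l : E3) (w : Wm m), Real.exp (-(‖l‖ / 2 * sq w)) =
      ∏ i, Real.exp (-(‖l‖ / 2) * (w i) ^ 2) := by
    intro l w
    rw [← Real.exp_sum]
    congr 1
    unfold sq
    rw [Finset.mul_sum, ← Finset.sum_neg_distrib]
    refine Finset.sum_congr rfl fun i _ => ?_
    ring
  have hae : ∀ᵐ l : E3, l ≠ 0 := by
    rw [ae_iff]
    simp
  rw [integrable_prod_iff' hcont.aestronglyMeasurable]
  constructor
  · filter_upwards [hae] with l hl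
    have hl0 : 0 < ‖l‖ / 2 := by
      have := norm_pos_iff.2 hl
      positivity
    refine Integrable.mul_const ?_ _
    simp only [hprod]
    exact Integrable.fintype_prod fun i => integrable_exp_neg_mul_sq hl0
  · have hint : Integrable (fun l : E3 => (2 * π) ^ (2 * m) *
        (‖l‖ ^ (2 * m) * Real.exp (-(2 * ε * ‖l‖)))) := by
      refine Integrable.const_mul ?_ _
      refine (radial3 (g := fun ρ => ρ ^ (2 * m) * Real.exp (-(2 * ε * ρ))) ?_).1
      have h := integrableOn_rpow_mul_exp_neg_mul_rpow (p := 1) (s := ((2 * m + 2 : ℕ) : ℝ))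
        (b := 2 * ε) (by
          have : (0 : ℝ) ≤ ((2 * m + 2 : ℕ) : ℝ) := Nat.cast_nonneg _
          linarith) one_pos (by positivity)
      refine h.congr_fun (fun x hx => ?_) measurableSet_Ioi
      simp only [Real.rpow_natCast, Real.rpow_one]
      rw [show -(2 * ε) * x = -(2 * ε * x) by ring]
      ring
    refine hint.congr ?_
    filter_upwards [hae] with l hl
    have hl0 : 0 < ‖l‖ := norm_pos_iff.2 hl
    have hnn : ∀ w : Wm m, ‖Real.exp (-(‖l‖ / 2 * sq w)) *
        (Real.exp (-(2 * ε * ‖l‖)) * ‖l‖ ^ (4 * m))‖ =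
        (∏ i, Real.exp (-(‖l‖ / 2) * (w i) ^ 2)) *
        (Real.exp (-(2 * ε * ‖l‖)) * ‖l‖ ^ (4 * m)) := by
      intro w
      rw [← hprod, Real.norm_of_nonneg (by positivity)]
    simp only [hnn]
    rw [integral_mul_const, integral_fintype_prod_volume_eq_pow
      (fun x : ℝ => Real.exp (-(‖l‖ / 2) * x ^ 2)), integral_gaussian, Fintype.card_prod,
      Fintype.card_fin, Fintype.card_fin, show m * 4 = 2 * (2 * m) by ring,
      pow_mul (Real.sqrt (π / (‖l‖ / 2))) 2 (2 * m), Real.sq_sqrt (by positivity)]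
    have e1 : π / (‖l‖ / 2) = 2 * π / ‖l‖ := by
      field_simp
    rw [e1, div_pow, show 4 * m = 2 * m + 2 * m by ring, pow_add]
    field_simp

private noncomputable def GG33 (m : ℕ) (ε : ℝ) (w : Wm m) (z : E3) (w' : Wm m) (l : E3) : ℝ :=
  Real.cos (inner ℝ l (z - br w' w)) *
    (Real.exp (-((sq w' / 2 + ε + (sq (w - w') / 2 + ε)) * ‖l‖)) * ‖l‖ ^ (4 * m))

private lemma GG_int33 (m : ℕ) {ε : ℝ} (hε : 0 < ε) (w : Wm m) (z : E3) :
    Integrable (Function.uncurry (GG33 m ε w z)) (volume.prod volume) := by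
  refine (dom33 m hε).mono' ?_ ?_
  · apply Continuous.aestronglyMeasurable
    have h1 := (sq_cont33 (m := m)).comp (continuous_fst (X := Wm m) (Y := E3))
    have h2 := (sq_cont33 (m := m)).comp
      ((continuous_const (y := w)).sub (continuous_fst (X := Wm m) (Y := E3)))
    have h3 := (br_cont33 w).comp (continuous_fst (X := Wm m) (Y := E3))
    simp only [Function.comp_def] at h1 h2 h3
    unfold GG33 Function.uncurry
    fun_prop
  · refine Filter.Eventually.of_forall fun p => ?_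
    obtain ⟨w', l⟩ := p
    show ‖GG33 m ε w z w' l‖ ≤ _
    unfold GG33
    rw [norm_mul, Real.norm_of_nonneg (show (0 : ℝ) ≤ Real.exp (-((sq w' / 2 + ε +
      (sq (w - w') / 2 + ε)) * ‖l‖)) * ‖l‖ ^ (4 * m) by positivity)]
    have hc : ‖Real.cos (inner ℝ l (z - br w' w))‖ ≤ 1 := Real.abs_cos_le_one _
    have he : Real.exp (-((sq w' / 2 + ε + (sq (w - w') / 2 + ε)) * ‖l‖)) ≤
        Real.exp (-(‖l‖ / 2 * sq w')) * Real.exp (-(2 * ε * ‖l‖)) := by
      rw [← Real.exp_add]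
      apply Real.exp_le_exp.2
      have h1 := sq_nonneg33 (w - w')
      have h2 : 0 ≤ sq (w - w') / 2 * ‖l‖ := by positivity
      nlinarith
    calc ‖Real.cos (inner ℝ l (z - br w' w))‖ * (Real.exp (-((sq w' / 2 + ε +
          (sq (w - w') / 2 + ε)) * ‖l‖)) * ‖l‖ ^ (4 * m))
        ≤ 1 * (Real.exp (-((sq w' / 2 + ε + (sq (w - w') / 2 + ε)) * ‖l‖)) *
          ‖l‖ ^ (4 * m)) := mul_le_mul_of_nonneg_right hc (by positivity)
      _ ≤ 1 * ((Real.exp (-(‖l‖ / 2 * sq w')) * Real.exp (-(2 * ε * ‖l‖))) *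
          ‖l‖ ^ (4 * m)) := by
          refine mul_le_mul_of_nonneg_left ?_ zero_le_one
          exact mul_le_mul_of_nonneg_right he (by positivity)
      _ = _ := by ring

private lemma inner33 {m : ℕ} (ε : ℝ) (w : Wm m) (z : E3) {l : E3} (hl : l ≠ 0) :
    ∫ w' : Wm m, GG33 m ε w z w' l = π ^ (2 * m) *
      (Real.cos (inner ℝ l z) * (Real.exp (-((sq w / 2 + 2 * ε) * ‖l‖)) * ‖l‖ ^ (2 * m))) := by
  have hl0 : 0 < ‖l‖ := norm_pos_iff.2 hl
  have hpt : ∀ w' : Wm m, GG33 m ε w z w' l = (Real.exp (-(2 * ε * ‖l‖)) * ‖l‖ ^ (4 * m)) *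
      (Complex.exp (Complex.I * ((inner ℝ l z : ℝ) : ℂ)) *
        Complex.exp (-(((‖l‖ * ((sq w' + sq (w - w')) / 2) : ℝ)) : ℂ) -
          Complex.I * ((inner ℝ l (br w' w) : ℝ) : ℂ))).re := by
    intro w'
    rw [← Complex.exp_add, show Complex.I * ((inner ℝ l z : ℝ) : ℂ) +
        (-(((‖l‖ * ((sq w' + sq (w - w')) / 2) : ℝ)) : ℂ) -
          Complex.I * ((inner ℝ l (br w' w) : ℝ) : ℂ)) =
        ((-(‖l‖ * ((sq w' + sq (w - w')) / 2)) : ℝ) : ℂ) +
          ((inner ℝ l z - inner ℝ l (br w' w) : ℝ) : ℂ) * Complex.I by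
        push_cast
        ring, Complex.exp_add, ← Complex.ofReal_exp, Complex.re_ofReal_mul,
      Complex.exp_ofReal_mul_I_re]
    unfold GG33
    rw [inner_sub_right, show -((sq w' / 2 + ε + (sq (w - w') / 2 + ε)) * ‖l‖) =
      -(‖l‖ * ((sq w' + sq (w - w')) / 2)) + -(2 * ε * ‖l‖) by ring, Real.exp_add]
    ring
  have hgi : Integrable (fun w' : Wm m =>
      Complex.exp (-(((‖l‖ * ((sq w' + sq (w - w')) / 2) : ℝ)) : ℂ) -
          Complex.I * ((inner ℝ l (br w' w) : ℝ) : ℂ))) := by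
    by_contra hni
    have h := gauss_tw hl w
    rw [integral_undef hni] at h
    have hpos : 0 < (π / ‖l‖) ^ (2 * m) * Real.exp (-(‖l‖ * (sq w / 2))) := by positivity
    exact hpos.ne' (Complex.ofReal_eq_zero.1 h.symm)
  simp only [hpt]
  rw [integral_const_mul]
  have hre := integral_re (hgi.const_mul (Complex.exp (Complex.I * ((inner ℝ l z : ℝ) : ℂ))))
  simp only [RCLike.re_to_complex] at hre
  rw [hre, integral_const_mul, gauss_tw hl w, mul_comm Complex.I, Complex.re_mul_ofReal,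
    Complex.exp_ofReal_mul_I_re]
  rw [show -((sq w / 2 + 2 * ε) * ‖l‖) = -(‖l‖ * (sq w / 2)) + -(2 * ε * ‖l‖) by ring,
    Real.exp_add, div_pow, show 4 * m = 2 * m + 2 * m by ring, pow_add]
  field_simp

theorem sK_conv {m : ℕ} (hm : 1 ≤ m) {ε : ℝ} (hε : 0 < ε) (u v : Vm m) :
    ∫ v' : Vm m, sK m ε (dv u v') * sK m ε (dv v' v) = sK m (2 * ε) (dv u v) := by
  -- reduction to `u = 0`
  have hsub : ∫ v' : Vm m, sK m ε (dv u v') * sK m ε (dv v' v) =
      ∫ x : Vm m, sK m ε x * sK m ε (dv x (dv u v)) := by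
    have h := MeasurePreserving.integral_comp' (f := eV33 u) (mp_left u)
      (fun v' : Vm m => sK m ε (dv u v') * sK m ε (dv v' v))
    rw [← h]
    refine integral_congr_ae (Filter.Eventually.of_forall fun x => ?_)
    show sK m ε (dv u (mulV u x)) * sK m ε (dv (mulV u x) v) = _
    rw [dv_mulV]
    congr 2
    rw [← dv_left u x (dv u v), mulV_dv]
  rw [hsub]
  set V : Vm m := dv u v with hV
  have hint := int_prod33 hm hε V
  rw [Measure.volume_eq_prod] at hint ⊢
  rw [integral_prod _ hint]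
  set c : ℝ := ((2 * π) ^ 3 * π ^ (2 * m))⁻¹ with hc
  have hinner : ∀ w' : Wm m, ∫ z' : E3, sK m ε (w', z') * sK m ε (dv (w', z') V) =
      c ^ 2 * (2 * π) ^ 3 * ∫ l : E3, GG33 m ε V.1 V.2 w' l := by
    intro w'
    have hA : 0 < sq w' / 2 + ε := by
      have := sq_nonneg33 w'
      positivity
    have hB : 0 < sq (V.1 - w') / 2 + ε := by
      have := sq_nonneg33 (V.1 - w')
      positivity
    have h1 : ∀ z' : E3, sK m ε (w', z') * sK m ε (dv (w', z') V) =
        c ^ 2 * (kk m (sq w' / 2 + ε) z' *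
          kk m (sq (V.1 - w') / 2 + ε) ((V.2 - br w' V.1) - z')) := by
      intro z'
      show c * kk m (sq w' / 2 + ε) z' *
        (c * kk m (sq (V.1 - w') / 2 + ε) (V.2 - z' - br w' V.1)) = _
      rw [show V.2 - z' - br w' V.1 = (V.2 - br w' V.1) - z' by abel]
      ring
    simp only [h1]
    rw [integral_const_mul, kk_conv hm hA hB, ← mul_assoc]
    rfl
  simp only [hinner]
  rw [integral_const_mul, integral_integral_swap (GG_int33 m hε V.1 V.2)]
  have hae : ∀ᵐ l : E3, l ≠ 0 := by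
    rw [ae_iff]
    simp
  have hl : ∫ l : E3, ∫ w' : Wm m, GG33 m ε V.1 V.2 w' l =
      ∫ l : E3, π ^ (2 * m) * (Real.cos (inner ℝ l V.2) *
        (Real.exp (-((sq V.1 / 2 + 2 * ε) * ‖l‖)) * ‖l‖ ^ (2 * m))) := by
    refine integral_congr_ae ?_
    filter_upwards [hae] with l hl
    exact inner33 ε V.1 V.2 hl
  rw [hl, integral_const_mul]
  show c ^ 2 * (2 * π) ^ 3 * (π ^ (2 * m) * kk m (sq V.1 / 2 + 2 * ε) V.2) =
    c * kk m (sq V.1 / 2 + 2 * ε) V.2
  have hc0 : c * ((2 * π) ^ 3 * π ^ (2 * m)) = 1 := by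
    rw [hc]
    exact inv_mul_cancel₀ (by positivity)
  linear_combination (c * kk m (sq V.1 / 2 + 2 * ε) V.2) * hc0

end Pool.Agent.Helper84.CH
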