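import Pool.Agent.Helper84.CH.LA5

/-!
# Project CH, block LA6: the operators with kernels `sK` are bounded by one

`BC f ρ M`: measurable, bounded by `M`, zero outside the ball of radius `ρ`. `Qf m ε g f = ∫∫ sK m ε (dv v v') ⟪g v, f v'⟫`.
`q_iter`. PROOF. `S f v = ∫ v', sK m ε (dv v v') • f v'` (Bochner). `Qf m ε f f = ∫ ⟪f v, S f v⟫`. `∫ ‖S f v‖² = ∫_v ∫_v' ∫_v'' sK m ε (dv v v') sK m ε (dv v v'') ⟪f v', f v''⟫ = Qf m (2ε) f f` (Fubini: `∫_v |sK (dv v v')| |sK (dv v v'')| ≤ ∫ sK²` is bounded, `f` is bounded with bounded support; `dv v v' = -dv v' v`, `sK_neg`, `sK_conv`).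
In particular `Qf m (2ε) f f` is real and `≥ 0`, hence also `Qf m ε f f` (replace `ε` by `ε/2`), and `‖Qf m ε f f‖² ≤ ∫ ‖f‖² ∫ ‖S f‖²` (Cauchy-Schwarz).
`q_le`. PROOF. `a_j = (Qf m (2^j) f f).re`, `N = ∫ ‖f‖²`: `0 ≤ a_j`, `a_j² ≤ N a_(j+1)`, and `a_j ≤ B` for all `j` (`sK_bound`: `|sK m ε| ≤ C` for `ε ≥ 1`, `f` bounded with bounded support). If `a_0 > N` then `N > 0` (if `N = 0` then `a_0² ≤ 0`), `a_j/N ≥ (a_0/N)^(2^j) → ∞`, contradiction.
`op_bound`. PROOF. `B(g, f) = ∫ ⟪g, f⟫ - 2 Qf m 1 g f` is sesquilinear (conjugate linear in `g`), Hermitian (`sK_neg`, `dv_swap`), and `|B(f, f)| ≤ ∫ ‖f‖²` by `0 ≤ Qf ≤ ∫ ‖f‖²`. Polarisation: `4 Re B(g, f) = B(f+g, f+g) - B(f-g, f-g) ≤ ‖f+g‖² + ‖f-g‖² = 2 ‖f‖² + 2 ‖g‖²`; replace `f` by `c f` (`‖c‖ = 1`) and rescale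
(`f` by `t f`, `g` by `t⁻¹ g`, the case of norm zero by a limit): `‖B(g, f)‖ ≤ ‖f‖ ‖g‖`.
-/

set_option autoImplicit false
set_option linter.unusedSectionVars false

open Real MeasureTheory

namespace Pool.Agent.Helper84.CH

variable {m : ℕ} {H : Type} [NormedAddCommGroup H] [InnerProductSpace ℂ H] [CompleteSpace H]

/-- Measurable bounded functions with bounded support. -/
def BC (f : Vm m → H) (ρ M : ℝ) : Prop := AEStronglyMeasurable f volume ∧ (∀ v, ‖f v‖ ≤ M) ∧ ∀ v, ρ < ‖v‖ → f v = 0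

/-- The sesquilinear form of the kernel. -/
noncomputable def Qf (m : ℕ) (ε : ℝ) (g f : Vm m → H) : ℂ :=
  ∫ v : Vm m, ∫ v' : Vm m, ((sK m ε (dv v v') : ℝ) : ℂ) * inner ℂ (g v) (f v')

section Aux47

private noncomputable def eL (v : Vm m) : Vm m ≃ᵐ Vm m where
  toFun := dv v
  invFun := mulV v
  left_inv := mulV_dv v
  right_inv := dv_mulV v
  measurable_toFun := (cont_dv.comp (Continuous.prodMk_right v)).measurable
  measurable_invFun := (cont_mulV.comp (Continuous.prodMk_right v)).measurable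

private theorem mp_dv (v : Vm m) : MeasurePreserving (eL v) volume volume :=
  MeasurePreserving.symm (eL v).symm (mp_left v)

private theorem kr_symm (ε : ℝ) (v v' : Vm m) : sK m ε (dv v' v) = sK m ε (dv v v') := by
  rw [dv_swap v v', sK_neg]

private theorem kr_cont {ε : ℝ} (hε : 0 < ε) : Continuous fun p : Vm m × Vm m => sK m ε (dv p.1 p.2) :=
  (sK_cont hε).comp cont_dv

private theorem kr_contA {ε : ℝ} (hε : 0 < ε) {α : Type} [TopologicalSpace α] {a b : α → Vm m} (ha : Continuous a)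
    (hb : Continuous b) : Continuous fun x => sK m ε (dv (a x) (b x)) := by
  have h := (kr_cont (m := m) hε).comp₂ ha hb
  exact h

private theorem kr_cont2 {ε : ℝ} (hε : 0 < ε) {α : Type} [TopologicalSpace α] {a b c d : α → Vm m} (ha : Continuous a)
    (hb : Continuous b) (hc : Continuous c) (hd : Continuous d) :
    Continuous fun x => (((sK m ε (dv (a x) (b x)) * sK m ε (dv (c x) (d x)) : ℝ)) : ℂ) :=
  Complex.continuous_ofReal.comp ((kr_contA hε ha hb).mul (kr_contA hε hc hd))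

private theorem kr_bound (m : ℕ) : ∃ C : ℝ, 0 ≤ C ∧ ∀ ε : ℝ, 0 < ε → ∀ v : Vm m, |sK m ε v| ≤ C * (ε ^ (2 * m + 3))⁻¹ := by
  obtain ⟨C, hC, h⟩ := sK_bound m
  refine ⟨C, hC, fun ε hε v => (h ε hε v).trans ?_⟩
  have hs : 0 ≤ sq v.1 := Finset.sum_nonneg fun i _ => sq_nonneg _
  gcongr
  have := norm_nonneg v.2
  linarith

private theorem kr_sq {ε : ℝ} (hm : 1 ≤ m) (hε : 0 < ε) (v' : Vm m) :
    Integrable (fun v : Vm m => sK m ε (dv v v') ^ 2) ∧ ∫ v : Vm m, sK m ε (dv v v') ^ 2 = ∫ v : Vm m, sK m ε v ^ 2 := by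
  have h1 : (fun v : Vm m => sK m ε (dv v v') ^ 2) = (fun u => sK m ε u ^ 2) ∘ (eL v') := by
    funext v
    show _ = sK m ε (dv v' v) ^ 2
    rw [kr_symm]
  constructor
  · rw [h1]
    exact ((mp_dv v').integrable_comp (sK_sq hm hε).aestronglyMeasurable).2 (sK_sq hm hε)
  · rw [h1]
    exact (mp_dv v').integral_comp' (g := fun u => sK m ε u ^ 2)

private theorem ball_int (ρ M : ℝ) : Integrable (Set.indicator (Metric.closedBall (0 : Vm m) ρ) fun _ => M) := by
  apply (integrable_indicator_iff Metric.isClosed_closedBall.measurableSet).2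
  exact integrableOn_const (isCompact_closedBall (0 : Vm m) ρ).measure_lt_top.ne

private theorem BC.norm_int {f : Vm m → H} {ρ M : ℝ} (hf : BC f ρ M) : Integrable (fun v => ‖f v‖) := by
  refine (ball_int (m := m) ρ M).mono' hf.1.norm (Filter.Eventually.of_forall fun v => ?_)
  rw [norm_norm]
  by_cases h : v ∈ Metric.closedBall (0 : Vm m) ρ
  · rw [Set.indicator_of_mem h]
    exact hf.2.1 v
  · rw [Set.indicator_of_notMem h, hf.2.2 v (by simpa using h), norm_zero]

private theorem BC.int {f : Vm m → H} {ρ M : ℝ} (hf : BC f ρ M) : Integrable f :=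
  (integrable_norm_iff hf.1).1 hf.norm_int

private theorem BC.nonneg {f : Vm m → H} {ρ M : ℝ} (hf : BC f ρ M) : 0 ≤ M := (norm_nonneg _).trans (hf.2.1 0)

private theorem BC.sq_int {f : Vm m → H} {ρ M : ℝ} (hf : BC f ρ M) : Integrable (fun v => ‖f v‖ ^ 2) := by
  refine (hf.norm_int.const_mul M).mono' (hf.1.norm.pow 2) (Filter.Eventually.of_forall fun v => ?_)
  rw [Real.norm_of_nonneg (sq_nonneg _), pow_two]
  exact mul_le_mul_of_nonneg_right (hf.2.1 v) (norm_nonneg _)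

private theorem pair_int {f g : Vm m → H} {ρ M ρ' M' : ℝ} (hg : BC g ρ' M') (hf : BC f ρ M) :
    Integrable (fun v => inner ℂ (g v) (f v)) := by
  refine (hf.norm_int.const_mul M').mono' (hg.1.inner hf.1) (Filter.Eventually.of_forall fun v => ?_)
  exact (norm_inner_le_norm _ _).trans (mul_le_mul_of_nonneg_right (hg.2.1 v) (norm_nonneg _))

private theorem dbl_int {ε : ℝ} (hε : 0 < ε) {f g : Vm m → H} {ρ M ρ' M' : ℝ} (hg : BC g ρ' M') (hf : BC f ρ M) :
    Integrable (fun p : Vm m × Vm m => ((sK m ε (dv p.1 p.2) : ℝ) : ℂ) * inner ℂ (g p.1) (f p.2)) (volume.prod volume) := by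
  obtain ⟨C, hC, h⟩ := kr_bound m
  refine ((hg.norm_int.mul_prod hf.norm_int).const_mul (C * (ε ^ (2 * m + 3))⁻¹)).mono' ?_
    (Filter.Eventually.of_forall fun p => ?_)
  · exact (Complex.continuous_ofReal.comp (kr_cont hε)).aestronglyMeasurable.mul (hg.1.comp_fst.inner hf.1.comp_snd)
  · rw [norm_mul, Complex.norm_real, Real.norm_eq_abs]
    exact mul_le_mul (h ε hε _) (norm_inner_le_norm _ _) (norm_nonneg _) (by positivity)

private theorem Qf_eq {ε : ℝ} (hε : 0 < ε) {f g : Vm m → H} {ρ M ρ' M' : ℝ} (hg : BC g ρ' M') (hf : BC f ρ M) :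
    Qf m ε g f = ∫ p : Vm m × Vm m, ((sK m ε (dv p.1 p.2) : ℝ) : ℂ) * inner ℂ (g p.1) (f p.2) ∂(volume.prod volume) := by
  rw [Qf, integral_prod _ (dbl_int hε hg hf)]

/-- the operator -/
private noncomputable def Sf (ε : ℝ) (f : Vm m → H) (v : Vm m) : H := ∫ v' : Vm m, ((sK m ε (dv v v') : ℝ) : ℂ) • f v'

private theorem Sf_int {ε : ℝ} (hε : 0 < ε) {f : Vm m → H} {ρ M : ℝ} (hf : BC f ρ M) (v : Vm m) :
    Integrable (fun v' : Vm m => ((sK m ε (dv v v') : ℝ) : ℂ) • f v') := by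
  obtain ⟨C, hC, h⟩ := kr_bound m
  refine (hf.norm_int.const_mul (C * (ε ^ (2 * m + 3))⁻¹)).mono' ?_ (Filter.Eventually.of_forall fun v' => ?_)
  · exact (Complex.continuous_ofReal.comp ((kr_cont hε).comp (Continuous.prodMk_right v))).aestronglyMeasurable.smul hf.1
  · rw [norm_smul, Complex.norm_real, Real.norm_eq_abs]
    exact mul_le_mul_of_nonneg_right (h ε hε _) (norm_nonneg _)

private theorem inner_Sf {ε : ℝ} (hε : 0 < ε) {f : Vm m → H} {ρ M : ℝ} (hf : BC f ρ M) (x : H) (v : Vm m) :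
    inner ℂ x (Sf ε f v) = ∫ v' : Vm m, ((sK m ε (dv v v') : ℝ) : ℂ) * inner ℂ x (f v') := by
  rw [Sf, ← integral_inner (Sf_int hε hf v) x]
  simp only [inner_smul_right]

private theorem trip_int {ε : ℝ} (hm : 1 ≤ m) (hε : 0 < ε) {f : Vm m → H} {ρ M : ℝ} (hf : BC f ρ M) :
    Integrable (fun q : Vm m × (Vm m × Vm m) => (((sK m ε (dv q.1 q.2.1) * sK m ε (dv q.1 q.2.2) : ℝ)) : ℂ) *
      inner ℂ (f q.2.1) (f q.2.2)) (volume.prod (volume.prod volume)) := by
  have hmeas : AEStronglyMeasurable (fun q : Vm m × (Vm m × Vm m) => (((sK m ε (dv q.1 q.2.1) * sK m ε (dv q.1 q.2.2) : ℝ)) : ℂ) *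
      inner ℂ (f q.2.1) (f q.2.2)) (volume.prod (volume.prod volume)) := by
    refine AEStronglyMeasurable.mul ?_ ?_
    · have c1 : Continuous fun q : Vm m × (Vm m × Vm m) => q.1 := continuous_fst
      have c2 : Continuous fun q : Vm m × (Vm m × Vm m) => q.2.1 := continuous_fst.comp continuous_snd
      have c3 : Continuous fun q : Vm m × (Vm m × Vm m) => q.2.2 := continuous_snd.comp continuous_snd
      exact (kr_cont2 hε c1 c2 c1 c3).aestronglyMeasurable
    · exact (hf.1.comp_fst.inner hf.1.comp_snd).comp_snd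
  have hK : ∀ (c : ℂ) (x y v : Vm m), ‖(((sK m ε (dv v x) * sK m ε (dv v y) : ℝ)) : ℂ) * c‖ ≤
      ((sK m ε (dv v x) ^ 2 + sK m ε (dv v y) ^ 2) / 2) * ‖c‖ := by
    intro c x y v
    rw [norm_mul, Complex.norm_real, Real.norm_eq_abs]
    refine mul_le_mul_of_nonneg_right ?_ (norm_nonneg _)
    rw [abs_mul]
    nlinarith [sq_nonneg (|sK m ε (dv v x)| - |sK m ε (dv v y)|), sq_abs (sK m ε (dv v x)), sq_abs (sK m ε (dv v y))]
  have hB : ∀ (c : ℂ) (x y : Vm m), Integrable (fun v : Vm m => ((sK m ε (dv v x) ^ 2 + sK m ε (dv v y) ^ 2) / 2) * ‖c‖) := by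
    intro c x y
    exact ((((kr_sq hm hε x).1.add (kr_sq hm hε y).1)).div_const 2).mul_const _
  rw [integrable_prod_iff' hmeas]
  constructor
  · refine Filter.Eventually.of_forall fun y => ?_
    refine (hB (inner ℂ (f y.1) (f y.2)) y.1 y.2).mono' ?_ (Filter.Eventually.of_forall fun v => hK _ _ _ _)
    refine AEStronglyMeasurable.mul ?_ (aestronglyMeasurable_const (b := inner ℂ (f y.1) (f y.2)))
    have c1 : Continuous fun q : Vm m => q := continuous_id
    have c2 : Continuous fun _ : Vm m => y.1 := continuous_const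
    have c3 : Continuous fun _ : Vm m => y.2 := continuous_const
    exact (kr_cont2 hε c1 c2 c1 c3).aestronglyMeasurable
  · have hd : Integrable (fun y : Vm m × Vm m => (∫ v : Vm m, sK m ε v ^ 2) * (‖f y.1‖ * ‖f y.2‖)) (volume.prod volume) :=
      (hf.norm_int.mul_prod hf.norm_int).const_mul _
    refine hd.mono' ?_ (Filter.Eventually.of_forall fun y => ?_)
    · exact (hmeas.norm.prod_swap).integral_prod_right'
    · rw [Real.norm_of_nonneg (integral_nonneg fun _ => norm_nonneg _)]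
      have h0 : 0 ≤ ∫ v : Vm m, sK m ε v ^ 2 := integral_nonneg fun _ => sq_nonneg _
      calc ∫ v : Vm m, ‖(((sK m ε (dv v y.1) * sK m ε (dv v y.2) : ℝ)) : ℂ) * inner ℂ (f y.1) (f y.2)‖
          ≤ ∫ v : Vm m, ((sK m ε (dv v y.1) ^ 2 + sK m ε (dv v y.2) ^ 2) / 2) * ‖inner ℂ (f y.1) (f y.2)‖ := by
            refine integral_mono_of_nonneg (Filter.Eventually.of_forall fun _ => norm_nonneg _) (hB _ _ _)
              (Filter.Eventually.of_forall fun v => hK _ _ _ _)
        _ = (∫ v : Vm m, sK m ε v ^ 2) * ‖inner ℂ (f y.1) (f y.2)‖ := by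
            rw [integral_mul_const, integral_div, integral_add (kr_sq hm hε y.1).1 (kr_sq hm hε y.2).1,
              (kr_sq hm hε y.1).2, (kr_sq hm hε y.2).2]
            ring
        _ ≤ _ := mul_le_mul_of_nonneg_left (norm_inner_le_norm _ _) h0

private theorem Sf_sq {ε : ℝ} (hm : 1 ≤ m) (hε : 0 < ε) {f : Vm m → H} {ρ M : ℝ} (hf : BC f ρ M) :
    Integrable (fun v : Vm m => ‖Sf ε f v‖ ^ 2) ∧ ((∫ v : Vm m, ‖Sf ε f v‖ ^ 2 : ℝ) : ℂ) = Qf m (2 * ε) f f := by
  have hT := trip_int hm hε hf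
  have h1 : ∀ v : Vm m, ∫ y : Vm m × Vm m, (((sK m ε (dv v y.1) * sK m ε (dv v y.2) : ℝ)) : ℂ) *
      inner ℂ (f y.1) (f y.2) ∂(volume.prod volume) = ((‖Sf ε f v‖ ^ 2 : ℝ) : ℂ) := by
    intro v
    have hi : Integrable (fun y : Vm m × Vm m => (((sK m ε (dv v y.1) * sK m ε (dv v y.2) : ℝ)) : ℂ) *
      inner ℂ (f y.1) (f y.2)) (volume.prod volume) := by
      obtain ⟨C, hC, h⟩ := kr_bound m
      refine ((hf.norm_int.mul_prod hf.norm_int).const_mul ((C * (ε ^ (2 * m + 3))⁻¹) * (C * (ε ^ (2 * m + 3))⁻¹))).mono' ?_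
        (Filter.Eventually.of_forall fun y => ?_)
      · refine AEStronglyMeasurable.mul ?_ (hf.1.comp_fst.inner hf.1.comp_snd)
        have c1 : Continuous fun _ : Vm m × Vm m => v := continuous_const
        have c2 : Continuous fun q : Vm m × Vm m => q.1 := continuous_fst
        have c3 : Continuous fun q : Vm m × Vm m => q.2 := continuous_snd
        exact (kr_cont2 hε c1 c2 c1 c3).aestronglyMeasurable
      · rw [norm_mul, Complex.norm_real, Real.norm_eq_abs, abs_mul]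
        refine mul_le_mul (mul_le_mul (h ε hε _) (h ε hε _) (abs_nonneg _) (by positivity)) (norm_inner_le_norm _ _)
          (norm_nonneg _) (by positivity)
    rw [integral_prod_symm _ hi]
    have h2 : ((‖Sf ε f v‖ ^ 2 : ℝ) : ℂ) = inner ℂ (Sf ε f v) (Sf ε f v) := by
      rw [inner_self_eq_norm_sq_to_K]
      push_cast
      rfl
    rw [h2, inner_Sf hε hf]
    congr 1
    funext v''
    rw [← inner_conj_symm, inner_Sf hε hf, ← integral_conj, ← integral_const_mul]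
    congr 1
    funext v'
    rw [map_mul, inner_conj_symm, Complex.conj_ofReal]
    push_cast
    ring
  have h3 : Integrable (fun v : Vm m => ((‖Sf ε f v‖ ^ 2 : ℝ) : ℂ)) := by
    have := hT.integral_prod_left
    refine this.congr (Filter.Eventually.of_forall fun v => ?_)
    exact h1 v
  have h4 : Integrable (fun v : Vm m => ‖Sf ε f v‖ ^ 2) := by
    have h := h3.re
    refine h.congr (Filter.Eventually.of_forall fun v => ?_)
    exact Complex.ofReal_re _
  refine ⟨h4, ?_⟩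
  rw [Qf_eq (by positivity) hf hf, ← integral_complex_ofReal]
  calc ∫ v : Vm m, ((‖Sf ε f v‖ ^ 2 : ℝ) : ℂ)
      = ∫ v : Vm m, ∫ y : Vm m × Vm m, (((sK m ε (dv v y.1) * sK m ε (dv v y.2) : ℝ)) : ℂ) *
      inner ℂ (f y.1) (f y.2) ∂(volume.prod volume) := by
        congr 1
        funext v
        exact (h1 v).symm
    _ = ∫ y : Vm m × Vm m, ∫ v : Vm m, (((sK m ε (dv v y.1) * sK m ε (dv v y.2) : ℝ)) : ℂ) *
      inner ℂ (f y.1) (f y.2) ∂(volume.prod volume) := integral_integral_swap hT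
    _ = _ := by
        congr 1
        funext y
        rw [integral_mul_const, integral_complex_ofReal, ← sK_conv hm hε y.1 y.2]
        congr 3
        funext v
        rw [kr_symm ε v y.1]

private theorem Qf_Sf {ε : ℝ} (hε : 0 < ε) {f : Vm m → H} {ρ M : ℝ} (hf : BC f ρ M) :
    Qf m ε f f = ∫ v : Vm m, inner ℂ (f v) (Sf ε f v) := by
  rw [Qf]
  congr 1
  funext v
  rw [inner_Sf hε hf]

private theorem Sf_meas {ε : ℝ} (hε : 0 < ε) {f : Vm m → H} {ρ M : ℝ} (hf : BC f ρ M) :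
    AEStronglyMeasurable (Sf ε f) volume := by
  have h : AEStronglyMeasurable (fun p : Vm m × Vm m => ((sK m ε (dv p.1 p.2) : ℝ) : ℂ) • f p.2) (volume.prod volume) :=
    (Complex.continuous_ofReal.comp (kr_cont hε)).aestronglyMeasurable.smul hf.1.comp_snd
  exact h.integral_prod_right'

private theorem cs_int {a b : Vm m → ℝ} (ha : AEStronglyMeasurable a volume) (hb : AEStronglyMeasurable b volume)
    (ha2 : Integrable fun v => a v ^ 2) (hb2 : Integrable fun v => b v ^ 2) :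
    (∫ v, a v * b v) ^ 2 ≤ (∫ v, a v ^ 2) * ∫ v, b v ^ 2 := by
  have hA : MemLp a 2 volume := (memLp_two_iff_integrable_sq ha).2 ha2
  have hB : MemLp b 2 volume := (memLp_two_iff_integrable_sq hb).2 hb2
  have hab : Integrable (fun v => a v * b v) := hB.integrable_mul hA |>.congr (Filter.Eventually.of_forall fun v => by simp [mul_comm])
  have key : ∀ t : ℝ, 0 ≤ (∫ v, b v ^ 2) * (t * t) + (2 * ∫ v, a v * b v) * t + ∫ v, a v ^ 2 := by
    intro t
    have h1 : 0 ≤ ∫ v, (a v + t * b v) ^ 2 := integral_nonneg fun _ => sq_nonneg _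
    have h2 : ∫ v, (a v + t * b v) ^ 2 = ∫ v, (a v ^ 2 + ((2 * t) * (a v * b v) + (t * t) * b v ^ 2)) := by
      congr 1
      funext v
      ring
    have h3 : ∫ v, (a v ^ 2 + ((2 * t) * (a v * b v) + (t * t) * b v ^ 2)) =
        (∫ v, a v ^ 2) + ((2 * t) * (∫ v, a v * b v) + (t * t) * ∫ v, b v ^ 2) := by
      rw [← integral_const_mul, ← integral_const_mul, ← integral_add (hab.const_mul _) (hb2.const_mul _)]
      exact integral_add ha2 ((hab.const_mul _).add (hb2.const_mul _))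
    rw [h2, h3] at h1
    linarith
  have := discrim_le_zero key
  unfold discrim at this
  nlinarith

end Aux47

theorem q_iter (hm : 1 ≤ m) {ε : ℝ} (hε : 0 < ε) {f : Vm m → H} {ρ M : ℝ} (hf : BC f ρ M) :
    (Qf m ε f f).im = 0 ∧ 0 ≤ (Qf m ε f f).re ∧ (Qf m ε f f).re ^ 2 ≤ (∫ v, ‖f v‖ ^ 2) * (Qf m (2 * ε) f f).re := by
  have hε2 : 0 < ε / 2 := by positivity
  obtain ⟨_, h1⟩ := Sf_sq hm hε2 hf
  rw [show 2 * (ε / 2) = ε by ring] at h1
  obtain ⟨h3, h2⟩ := Sf_sq hm hε hf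
  refine ⟨?_, ?_, ?_⟩
  · rw [← h1, Complex.ofReal_im]
  · rw [← h1, Complex.ofReal_re]
    exact integral_nonneg fun _ => sq_nonneg _
  · rw [← h2, Complex.ofReal_re]
    have h4 : |(Qf m ε f f).re| ≤ ∫ v, ‖f v‖ * ‖Sf ε f v‖ := by
      refine (Complex.abs_re_le_norm _).trans ?_
      rw [Qf_Sf hε hf]
      refine (norm_integral_le_integral_norm _).trans ?_
      refine integral_mono_of_nonneg (Filter.Eventually.of_forall fun _ => norm_nonneg _) ?_
        (Filter.Eventually.of_forall fun v => norm_inner_le_norm _ _)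
      have hA : MemLp (fun v => ‖f v‖) 2 volume := (memLp_two_iff_integrable_sq hf.1.norm).2 hf.sq_int
      have hB : MemLp (fun v => ‖Sf ε f v‖) 2 volume := (memLp_two_iff_integrable_sq (Sf_meas hε hf).norm).2 h3
      exact hB.integrable_mul hA |>.congr (Filter.Eventually.of_forall fun v => by simp [mul_comm])
    calc (Qf m ε f f).re ^ 2 = |(Qf m ε f f).re| ^ 2 := (sq_abs _).symm
      _ ≤ (∫ v, ‖f v‖ * ‖Sf ε f v‖) ^ 2 := by gcongr
      _ ≤ _ := cs_int hf.1.norm (Sf_meas hε hf).norm hf.sq_int h3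

theorem q_le (hm : 1 ≤ m) {f : Vm m → H} {ρ M : ℝ} (hf : BC f ρ M) : (Qf m 1 f f).re ≤ ∫ v, ‖f v‖ ^ 2 := by
  by_contra hlt
  push Not at hlt
  set N : ℝ := ∫ v, ‖f v‖ ^ 2 with hN
  have hN0 : 0 ≤ N := integral_nonneg fun _ => sq_nonneg _
  have hit : ∀ j : ℕ, (Qf m (2 ^ j) f f).re ^ 2 ≤ N * (Qf m (2 ^ (j + 1)) f f).re := by
    intro j
    have h := (q_iter hm (show (0 : ℝ) < 2 ^ j by positivity) hf).2.2
    rwa [show (2 : ℝ) * 2 ^ j = 2 ^ (j + 1) by ring] at h
  have hpos : ∀ j : ℕ, 0 ≤ (Qf m (2 ^ j) f f).re := fun j => (q_iter hm (show (0 : ℝ) < 2 ^ j by positivity) hf).2.1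
  have hNp : 0 < N := by
    rcases hN0.lt_or_eq with h | h
    · exact h
    · exfalso
      have h0 := hit 0
      rw [pow_zero, ← h, zero_mul] at h0
      have : (Qf m 1 f f).re = 0 := by
        have := sq_nonneg (Qf m 1 f f).re
        have h5 : (Qf m 1 f f).re ^ 2 = 0 := le_antisymm h0 this
        simpa using h5
      rw [this, ← h] at hlt
      exact lt_irrefl _ hlt
  obtain ⟨C, hC, hb⟩ := kr_bound m
  have hup : ∀ j : ℕ, (Qf m (2 ^ j) f f).re ≤ C * ((∫ v, ‖f v‖) * ∫ v, ‖f v‖) := by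
    intro j
    have hj : (0 : ℝ) < 2 ^ j := by positivity
    refine (Complex.re_le_norm _).trans ?_
    rw [Qf_eq hj hf hf]
    refine (norm_integral_le_integral_norm _).trans ?_
    rw [← integral_prod_mul, ← integral_const_mul]
    refine integral_mono_of_nonneg (Filter.Eventually.of_forall fun _ => norm_nonneg _)
      ((hf.norm_int.mul_prod hf.norm_int).const_mul _) (Filter.Eventually.of_forall fun p => ?_)
    show ‖((sK m (2 ^ j) (dv p.1 p.2) : ℝ) : ℂ) * inner ℂ (f p.1) (f p.2)‖ ≤ C * (‖f p.1‖ * ‖f p.2‖)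
    rw [norm_mul, Complex.norm_real, Real.norm_eq_abs]
    refine mul_le_mul ((hb _ hj _).trans ?_) (norm_inner_le_norm _ _) (norm_nonneg _) hC
    refine mul_le_of_le_one_right hC ?_
    apply inv_le_one_of_one_le₀
    apply one_le_pow₀
    exact one_le_pow₀ (by norm_num)
  have hlow : ∀ j : ℕ, N * ((Qf m 1 f f).re / N) ^ (2 ^ j) ≤ (Qf m (2 ^ j) f f).re := by
    intro j
    induction j with
    | zero =>
      rw [pow_zero, pow_zero, pow_one]
      exact (mul_div_cancel₀ _ hNp.ne').le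
    | succ j ih =>
      have h1 := hit j
      have hq : 0 ≤ (Qf m 1 f f).re / N := div_nonneg (hN0.trans hlt.le) hN0
      have h2 : (N * ((Qf m 1 f f).re / N) ^ (2 ^ j)) ^ 2 ≤ N * (Qf m (2 ^ (j + 1)) f f).re :=
        le_trans (pow_le_pow_left₀ (by positivity) ih 2) h1
      have h3 : (N * ((Qf m 1 f f).re / N) ^ (2 ^ j)) ^ 2 = N * (N * ((Qf m 1 f f).re / N) ^ (2 ^ (j + 1))) := by
        rw [pow_succ 2 j, pow_mul]
        ring
      rw [h3] at h2
      exact le_of_mul_le_mul_left h2 hNp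
  have hq1 : 1 < (Qf m 1 f f).re / N := (one_lt_div hNp).2 hlt
  obtain ⟨n, hn⟩ := pow_unbounded_of_one_lt (C * ((∫ v, ‖f v‖) * ∫ v, ‖f v‖) / N) hq1
  have h6 := (hlow n).trans (hup n)
  have h7 : ((Qf m 1 f f).re / N) ^ n ≤ ((Qf m 1 f f).re / N) ^ (2 ^ n) :=
    pow_le_pow_right₀ hq1.le Nat.lt_two_pow_self.le
  have h8 : C * ((∫ v, ‖f v‖) * ∫ v, ‖f v‖) / N < ((Qf m 1 f f).re / N) ^ (2 ^ n) := hn.trans_le h7
  rw [div_lt_iff₀ hNp] at h8
  linarith [mul_comm N (((Qf m 1 f f).re / N) ^ (2 ^ n))]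

section Aux47b

private theorem BC.comb {f g : Vm m → H} {ρ M ρ' M' : ℝ} (hf : BC f ρ M) (hg : BC g ρ' M') (s : ℂ) :
    BC (fun v => f v + s • g v) (max ρ ρ') (M + ‖s‖ * M') := by
  refine ⟨hf.1.add (hg.1.const_smul s), fun v => ?_, fun v hv => ?_⟩
  · refine (norm_add_le _ _).trans (add_le_add (hf.2.1 v) ?_)
    rw [norm_smul]
    exact mul_le_mul_of_nonneg_left (hg.2.1 v) (norm_nonneg _)
  · show f v + s • g v = 0
    rw [hf.2.2 v (lt_of_le_of_lt (le_max_left _ _) hv), hg.2.2 v (lt_of_le_of_lt (le_max_right _ _) hv), smul_zero, add_zero]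

private theorem int_comb {α : Type} [MeasurableSpace α] {μ : Measure α} {F a b c d : α → ℂ} {x y z : ℂ} (ha : Integrable a μ)
    (hb : Integrable b μ) (hc : Integrable c μ) (hd : Integrable d μ) (h : ∀ p, F p = a p + x * b p + y * c p + z * d p) :
    ∫ p, F p ∂μ = (∫ p, a p ∂μ) + x * (∫ p, b p ∂μ) + y * (∫ p, c p ∂μ) + z * ∫ p, d p ∂μ := by
  have h1 : F = fun p => a p + x * b p + y * c p + z * d p := funext h
  rw [h1, ← integral_const_mul, ← integral_const_mul, ← integral_const_mul]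
  have i1 : Integrable (fun p => a p + x * b p) μ := ha.add (hb.const_mul x)
  have i2 : Integrable (fun p => a p + x * b p + y * c p) μ := i1.add (hc.const_mul y)
  rw [integral_add i2 (hd.const_mul z), integral_add i1 (hc.const_mul y), integral_add ha (hb.const_mul x)]

private theorem Qf_comb {ε : ℝ} (hε : 0 < ε) {f g : Vm m → H} {ρ M ρ' M' : ℝ} (hf : BC f ρ M) (hg : BC g ρ' M') (s : ℂ) :
    Qf m ε (fun v => f v + s • g v) (fun v => f v + s • g v) =
      Qf m ε f f + s * Qf m ε f g + (starRingEnd ℂ) s * Qf m ε g f + (starRingEnd ℂ) s * s * Qf m ε g g := by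
  rw [Qf_eq hε (hf.comb hg s) (hf.comb hg s), Qf_eq hε hf hf, Qf_eq hε hf hg, Qf_eq hε hg hf, Qf_eq hε hg hg]
  refine int_comb (dbl_int hε hf hf) (dbl_int hε hf hg) (dbl_int hε hg hf) (dbl_int hε hg hg) fun p => ?_
  simp only [inner_add_left, inner_add_right, inner_smul_left, inner_smul_right]
  ring

private theorem I_comb {f g : Vm m → H} {ρ M ρ' M' : ℝ} (hf : BC f ρ M) (hg : BC g ρ' M') (s : ℂ) :
    ∫ v, inner ℂ (f v + s • g v) (f v + s • g v) =
      (∫ v, inner ℂ (f v) (f v)) + s * (∫ v, inner ℂ (f v) (g v)) + (starRingEnd ℂ) s * (∫ v, inner ℂ (g v) (f v)) +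
        (starRingEnd ℂ) s * s * ∫ v, inner ℂ (g v) (g v) := by
  refine int_comb (pair_int hf hf) (pair_int hf hg) (pair_int hg hf) (pair_int hg hg) fun v => ?_
  simp only [inner_add_left, inner_add_right, inner_smul_left, inner_smul_right]
  ring

private theorem I_self {f : Vm m → H} : ∫ v, inner ℂ (f v) (f v) = ((∫ v, ‖f v‖ ^ 2 : ℝ) : ℂ) := by
  rw [← integral_complex_ofReal]
  congr 1
  funext v
  rw [inner_self_eq_norm_sq_to_K]
  push_cast
  rfl

private theorem Qf_conj {ε : ℝ} (hε : 0 < ε) {f g : Vm m → H} {ρ M ρ' M' : ℝ} (hf : BC f ρ M) (hg : BC g ρ' M') :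
    Qf m ε f g = (starRingEnd ℂ) (Qf m ε g f) := by
  rw [Qf_eq hε hf hg, Qf_eq hε hg hf, ← integral_conj, ← integral_prod_swap]
  congr 1
  funext p
  simp only [Prod.fst_swap, Prod.snd_swap, map_mul, Complex.conj_ofReal, inner_conj_symm]
  rw [kr_symm]

private theorem I_conj {f g : Vm m → H} : ∫ v, inner ℂ (f v) (g v) = (starRingEnd ℂ) (∫ v, inner ℂ (g v) (f v)) := by
  rw [← integral_conj]
  simp only [inner_conj_symm]

end Aux47b

theorem op_bound (hm : 1 ≤ m) {f g : Vm m → H} {ρ M : ℝ} (hf : BC f ρ M) (hg : BC g ρ M) :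
    ‖(∫ v, inner ℂ (g v) (f v)) - 2 * Qf m 1 g f‖ ≤ Real.sqrt (∫ v, ‖f v‖ ^ 2) * Real.sqrt (∫ v, ‖g v‖ ^ 2) := by
  set z : ℂ := (∫ v, inner ℂ (g v) (f v)) - 2 * Qf m 1 g f with hz
  set F : ℝ := ∫ v, ‖f v‖ ^ 2 with hF
  set G : ℝ := ∫ v, ‖g v‖ ^ 2 with hG
  have hF0 : 0 ≤ F := integral_nonneg fun _ => sq_nonneg _
  have hG0 : 0 ≤ G := integral_nonneg fun _ => sq_nonneg _
  -- values of the form on f + s g
  have hval : ∀ s : ℂ, (∫ v, ‖f v + s • g v‖ ^ 2) = F + 2 * ((starRingEnd ℂ) s * ∫ v, inner ℂ (g v) (f v)).re + ‖s‖ ^ 2 * G ∧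
      (Qf m 1 (fun v => f v + s • g v) (fun v => f v + s • g v)).re =
        (Qf m 1 f f).re + 2 * ((starRingEnd ℂ) s * Qf m 1 g f).re + ‖s‖ ^ 2 * (Qf m 1 g g).re := by
    intro s
    have hss : (starRingEnd ℂ) s * s = ((‖s‖ ^ 2 : ℝ) : ℂ) := by
      rw [mul_comm, Complex.mul_conj, Complex.normSq_eq_norm_sq]
    have hre : ∀ w : ℂ, (s * (starRingEnd ℂ) w).re = ((starRingEnd ℂ) s * w).re := by
      intro w
      simp [Complex.mul_re]
    constructor
    · have h1 := I_comb hf hg s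
      rw [I_self (f := fun v => f v + s • g v), I_self (f := f), I_self (f := g), I_conj (f := f) (g := g), hss] at h1
      have h2 := congrArg Complex.re h1
      simp only [Complex.add_re, Complex.ofReal_re, hre] at h2
      rw [← Complex.ofReal_mul, Complex.ofReal_re] at h2
      linarith
    · have h1 := Qf_comb (ε := 1) one_pos hf hg s
      rw [Qf_conj one_pos hf hg, hss] at h1
      have h2 := congrArg Complex.re h1
      simp only [Complex.add_re, hre, Complex.re_ofReal_mul] at h2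
      linarith
  have hineq : ∀ s : ℂ, 2 * ((starRingEnd ℂ) s * z).re ≤ F + ‖s‖ ^ 2 * G := by
    intro s
    obtain ⟨h1, h2⟩ := hval s
    obtain ⟨h3, h4⟩ := hval (-s)
    have hp := hf.comb hg s
    have hn := hf.comb hg (-s)
    have h5 := (q_iter hm one_pos hp).2.1
    have h6 := q_le hm hn
    rw [h2] at h5
    rw [h4, h3] at h6
    simp only [map_neg, neg_mul, Complex.neg_re, norm_neg] at h6
    have h7 : ((starRingEnd ℂ) s * z).re = ((starRingEnd ℂ) s * ∫ v, inner ℂ (g v) (f v)).re - 2 * ((starRingEnd ℂ) s * Qf m 1 g f).re := by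
      rw [hz, mul_sub, Complex.sub_re]
      congr 1
      rw [show (starRingEnd ℂ) s * (2 * Qf m 1 g f) = ((2 : ℝ) : ℂ) * ((starRingEnd ℂ) s * Qf m 1 g f) by push_cast; ring,
        Complex.re_ofReal_mul]
    have h8 := q_le hm hp
    have h9 := (q_iter hm one_pos hn).2.1
    rw [h2, h1] at h8
    rw [h4] at h9
    simp only [map_neg, neg_mul, Complex.neg_re, norm_neg] at h9
    rw [h7]
    linarith
  by_cases hz0 : z = 0
  · rw [hz0, norm_zero]
    positivity
  have hzp : 0 < ‖z‖ ^ 2 := by positivity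
  have hquad : ∀ t : ℝ, 0 ≤ (‖z‖ ^ 2 * G) * (t * t) + (-(2 * ‖z‖ ^ 2)) * t + F := by
    intro t
    have h := hineq ((t : ℂ) * z)
    have h1 : ((starRingEnd ℂ) ((t : ℂ) * z) * z) = ((t * ‖z‖ ^ 2 : ℝ) : ℂ) := by
      rw [map_mul, Complex.conj_ofReal, mul_assoc, mul_comm ((starRingEnd ℂ) z) z, Complex.mul_conj, Complex.normSq_eq_norm_sq]
      push_cast
      ring
    rw [h1, Complex.ofReal_re, norm_mul, Complex.norm_real, mul_pow, Real.norm_eq_abs, sq_abs] at h
    nlinarith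
  have hd := discrim_le_zero hquad
  unfold discrim at hd
  have hfin : ‖z‖ ^ 2 ≤ F * G := by
    have h1 : ‖z‖ ^ 2 * (‖z‖ ^ 2) ≤ ‖z‖ ^ 2 * (F * G) := by nlinarith
    exact le_of_mul_le_mul_left h1 hzp
  rw [← Real.sqrt_mul hF0]
  exact Real.le_sqrt_of_sq_le hfin

end Pool.Agent.Helper84.CH
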