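import Pool.Agent.Helper84.SPQ.C6a
import Pool.Agent.Helper84.CH.L0

/-!
# Project CH: the group `Sp(m + 1, 1)` (definitions)

`SpM m`: quaternionic `(m + 2) × (m + 2)` matrices `g` with `gᴴ J g = J`, `J = diag(-1, ..., -1; 1)`, index type `Fin (m + 1) ⊕ Unit`. `entM g`: the last diagonal entry. `KM`: the maximal compact subgroup. `aMat s`: the boost in the plane of `inl 0`, `inr ()`.
-/

set_option autoImplicit false

open Matrix

namespace Pool.Agent.Helper84.CH

open Pool.Agent.Helper84.SPQ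

/-- the signs -/
noncomputable def eM (m : ℕ) : Fin (m + 1) ⊕ Unit → ℝ := Sum.elim (fun _ => -1) (fun _ => 1)

/-- the group `Sp(m + 1, 1)` -/
abbrev SpM (m : ℕ) : Type := SpJ (Fin (m + 1) ⊕ Unit) (eM m)

/-- the matrix -/
def mtM {m : ℕ} (g : SpM m) : MH (Fin (m + 1) ⊕ Unit) := ((g : (MH (Fin (m + 1) ⊕ Unit))ˣ) : MH (Fin (m + 1) ⊕ Unit))

/-- the last diagonal entry -/
def entM {m : ℕ} (g : SpM m) : Hq := mtM g (Sum.inr ()) (Sum.inr ())

/-- the boost -/
noncomputable def aMat (m : ℕ) (s : ℝ) : MH (Fin (m + 1) ⊕ Unit) :=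
  fromBlocks (diagonal fun i => if i = 0 then (Real.cosh s : Hq) else 1) (Matrix.of fun i _ => if i = 0 then (Real.sinh s : Hq) else 0)
    (Matrix.of fun _ j => if j = 0 then (Real.sinh s : Hq) else 0) (Matrix.of fun _ _ => (Real.cosh s : Hq))

theorem sgnM (m : ℕ) : ∀ i, eM m i = 1 ∨ eM m i = -1 := by
  rintro (i | i)
  · exact Or.inr rfl
  · exact Or.inl rfl

instance instLCSpM (m : ℕ) : LocallyCompactSpace (SpM m) := locallyCompact_SpJ (sgnM m)

instance instSCSpM (m : ℕ) : SecondCountableTopology (SpM m) := secondCountable_SpJ (sgnM m)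

instance instT2SpM (m : ℕ) : T2Space (SpM m) := t2_SpJ (sgnM m)

end Pool.Agent.Helper84.CH
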