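import Pool.Agent.Helper84.CH.LG0

/-!
# Project CH, block LG1: `Sp(m + 1, 1)`: the subgroups `K`, `A`, Cartan decomposition

This is `SPQ/C6b.lean` (the case of `Sp(2, 1)`, complete proofs there) for `Fin (m + 1)` instead of `Fin 2`: copy and adapt. Notation: `p = inr ()`.
Column `p` of `gᴴ J g = J`: `‖g p p‖² = 1 + ∑_i ‖g (inl i) p‖²`; the same for the row `p` (`g⁻¹ = J gᴴ J`). `g ∈ KM` iff the entries `(inl i, p)`, `(p, inl i)` vanish. `isCompact_ent`: `‖entM g‖ ≤ R` bounds the column and the row `p`, and then (`gᴴ J g = J`, diagonal entry `inl j`) all entries.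
`kakM`: (i) for `b : Fin (m + 1) → Hq` there is a unitary quaternionic matrix `k` with `k b = (‖b‖, 0, ..., 0)`: induction on `m` with the case `Fin 2` (in `C6b.lean`), or a quaternionic reflection: for `b ≠ 0`, `b 0 = ‖b 0‖ u` (`‖u‖ = 1`), `x = b + ‖b‖ u e_0`, the matrix `1 - 2 x (‖x‖²)⁻¹ xᴴ` is unitary and maps `b` to `-‖b‖ u e_0`
(as `xᴴ b = ‖x‖²/2` is real), then multiply by a diagonal unitary. (ii) there is `k ∈ KM` such that the column `p` of `k g` is the column `p` of `aM m s`, `cosh s = ‖entM g‖`, `s ≥ 0` (multiply the last entry by a unit quaternion as well), so `aM m (-s) k g ∈ KM`.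
`exists_iKM`: the matrices `fromBlocks k 0 0 q` are in `KM`.
-/

set_option autoImplicit false

open Matrix Topology

namespace Pool.Agent.Helper84.CH

open Pool.Agent.Helper84.SPQ

private theorem ssmG (a : Hq) : star a * a = ((‖a‖ ^ 2 : ℝ) : Hq) := by
  rw [Quaternion.star_mul_self, Quaternion.normSq_eq_norm_mul_self, pow_two]

private theorem mtM_mul {m : ℕ} (g h : SpM m) : mtM (g * h) = mtM g * mtM h := rfl

private theorem mtM_one (m : ℕ) : mtM (1 : SpM m) = 1 := rfl

private theorem mtM_eq {m : ℕ} (g : SpM m) : (mtM g)ᴴ * Jm (eM m) * mtM g = Jm (eM m) := g.2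

private theorem JsqG (m : ℕ) : (Jm (eM m) : MH (Fin (m + 1) ⊕ Unit)) * Jm (eM m) = 1 := by
  unfold Jm
  rw [diagonal_mul_diagonal, ← diagonal_one]
  congr 1
  funext i
  rcases i with i | i <;> simp [eM]

private theorem mtM_inv {m : ℕ} (g : SpM m) : mtM g⁻¹ = Jm (eM m) * (mtM g)ᴴ * Jm (eM m) := by
  have h1 : mtM g * mtM g⁻¹ = 1 := by
    rw [← mtM_mul, mul_inv_cancel, mtM_one]
  calc mtM g⁻¹ = (Jm (eM m) * Jm (eM m)) * mtM g⁻¹ := by rw [JsqG, one_mul]
    _ = Jm (eM m) * ((mtM g)ᴴ * Jm (eM m) * mtM g) * mtM g⁻¹ := by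
        rw [mtM_eq]
    _ = Jm (eM m) * (mtM g)ᴴ * Jm (eM m) * (mtM g * mtM g⁻¹) := by noncomm_ring
    _ = Jm (eM m) * (mtM g)ᴴ * Jm (eM m) := by rw [h1, mul_one]

private theorem colG {m : ℕ} (g : SpM m) (j : Fin (m + 1) ⊕ Unit) :
    -(∑ i : Fin (m + 1), ‖mtM g (Sum.inl i) j‖ ^ 2) + ‖mtM g (Sum.inr ()) j‖ ^ 2 = eM m j := by
  have h := congrFun (congrFun (mtM_eq g) j) j
  unfold Jm at h
  rw [mul_apply, diagonal_apply_eq] at h
  simp only [mul_diagonal, conjTranspose_apply, Fintype.sum_sum_type,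
    Finset.univ_unique, Finset.sum_singleton] at h
  have e0 : ∀ i : Fin (m + 1), eM m (Sum.inl i) = -1 := fun _ => rfl
  have e2 : eM m (Sum.inr default) = 1 := rfl
  simp only [e0, e2, Quaternion.coe_neg, Quaternion.coe_one, mul_neg, mul_one, neg_mul, ssmG] at h
  rw [Finset.sum_neg_distrib] at h
  have hs : (∑ x : Fin (m + 1), ((‖mtM g (Sum.inl x) j‖ ^ 2 : ℝ) : Hq)) =
      ((∑ x : Fin (m + 1), ‖mtM g (Sum.inl x) j‖ ^ 2 : ℝ) : Hq) :=
    (map_sum (algebraMap ℝ Hq) (fun x : Fin (m + 1) => ‖mtM g (Sum.inl x) j‖ ^ 2) Finset.univ).symm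
  rw [hs, ← Quaternion.coe_neg, ← Quaternion.coe_add] at h
  exact Quaternion.coe_injective h

private theorem norm_entG {m : ℕ} (g : SpM m) :
    ‖entM g‖ ^ 2 = 1 + ∑ i : Fin (m + 1), ‖mtM g (Sum.inl i) (Sum.inr ())‖ ^ 2 := by
  have h := colG g (Sum.inr ())
  have e2 : eM m (Sum.inr ()) = 1 := rfl
  rw [e2] at h
  change ‖mtM g (Sum.inr ()) (Sum.inr ())‖ ^ 2 = _
  linarith

private theorem ent_invG {m : ℕ} (g : SpM m) : ‖entM g⁻¹‖ = ‖entM g‖ := by
  change ‖mtM g⁻¹ (Sum.inr ()) (Sum.inr ())‖ = ‖mtM g (Sum.inr ()) (Sum.inr ())‖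
  rw [mtM_inv]
  unfold Jm
  rw [mul_diagonal, diagonal_mul, conjTranspose_apply]
  have e2 : eM m (Sum.inr ()) = 1 := rfl
  rw [e2]
  simp

private theorem row_colG {m : ℕ} (g : SpM m) (i : Fin (m + 1)) :
    ‖mtM g (Sum.inr ()) (Sum.inl i)‖ = ‖mtM g⁻¹ (Sum.inl i) (Sum.inr ())‖ := by
  rw [mtM_inv]
  unfold Jm
  rw [mul_diagonal, diagonal_mul, conjTranspose_apply]
  have e0 : eM m (Sum.inl i) = -1 := rfl
  have e2 : eM m (Sum.inr ()) = 1 := rfl
  rw [e0, e2]
  simp

private theorem le_entG {m : ℕ} (g : SpM m) (i : Fin (m + 1)) :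
    1 + ‖mtM g (Sum.inl i) (Sum.inr ())‖ ^ 2 ≤ ‖entM g‖ ^ 2 := by
  rw [norm_entG g]
  have : ‖mtM g (Sum.inl i) (Sum.inr ())‖ ^ 2 ≤ ∑ i : Fin (m + 1), ‖mtM g (Sum.inl i) (Sum.inr ())‖ ^ 2 :=
    Finset.single_le_sum (f := fun i : Fin (m + 1) => ‖mtM g (Sum.inl i) (Sum.inr ())‖ ^ 2)
    (fun _ _ => sq_nonneg _) (Finset.mem_univ i)
  linarith

private theorem zcolG {m : ℕ} {g : SpM m} (hg : ‖entM g‖ = 1) (i : Fin (m + 1)) :
    mtM g (Sum.inl i) (Sum.inr ()) = 0 := by
  have h := le_entG g i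
  rw [hg] at h
  rw [← norm_eq_zero]
  exact pow_eq_zero_iff (two_ne_zero) |>.mp (le_antisymm (by linarith) (sq_nonneg _))

private theorem zrowG {m : ℕ} {g : SpM m} (hg : ‖entM g‖ = 1) (i : Fin (m + 1)) :
    mtM g (Sum.inr ()) (Sum.inl i) = 0 := by
  have h1 : ‖entM g⁻¹‖ = 1 := by rw [ent_invG, hg]
  rw [← norm_eq_zero, row_colG, zcolG h1, norm_zero]

private theorem ent_mulG {m : ℕ} (g h : SpM m) : entM (g * h) =
    (∑ i : Fin (m + 1), mtM g (Sum.inr ()) (Sum.inl i) * mtM h (Sum.inl i) (Sum.inr ())) + entM g * entM h := by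
  change mtM (g * h) (Sum.inr ()) (Sum.inr ()) = _
  rw [mtM_mul, mul_apply]
  simp only [Fintype.sum_sum_type, Finset.univ_unique, Finset.sum_singleton]
  rfl

private theorem kmulG {m : ℕ} {k : SpM m} (hk : ‖entM k‖ = 1) (g : SpM m) : ‖entM (k * g)‖ = ‖entM g‖ := by
  rw [ent_mulG]
  simp only [zrowG hk, zero_mul, Finset.sum_const_zero, zero_add]
  rw [norm_mul, hk, one_mul]

private theorem mulkG {m : ℕ} {k : SpM m} (hk : ‖entM k‖ = 1) (g : SpM m) : ‖entM (g * k)‖ = ‖entM g‖ := by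
  rw [ent_mulG]
  simp only [zcolG hk, mul_zero, Finset.sum_const_zero, zero_add]
  rw [norm_mul, hk, mul_one]

/-- the maximal compact subgroup `Sp(m + 1) × Sp(1)` -/
def KM (m : ℕ) : Subgroup (SpM m) where
  carrier := {g | ‖entM g‖ = 1}
  mul_mem' := by
    intro a b ha hb
    have h := kmulG ha b
    rw [Set.mem_ofPred_eq] at hb
    rw [hb] at h
    exact h
  one_mem' := by
    have h : entM (1 : SpM m) = 1 := by
      change mtM (1 : SpM m) (Sum.inr ()) (Sum.inr ()) = 1
      rw [mtM_one, one_apply_eq]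
    rw [Set.mem_ofPred_eq, h, norm_one]
  inv_mem' := by
    intro a ha
    rw [Set.mem_ofPred_eq, ent_invG]
    exact ha

theorem mem_KM {m : ℕ} {g : SpM m} : g ∈ KM m ↔ ‖entM g‖ = 1 := Iff.rfl

theorem cont_mtM (m : ℕ) : Continuous (mtM : SpM m → MH (Fin (m + 1) ⊕ Unit)) := (isClosedEmbedding_val (sgnM m)).continuous

theorem cont_entM (m : ℕ) : Continuous (entM : SpM m → Hq) := by
  have h : Continuous fun g : SpM m => mtM g (Sum.inr ()) (Sum.inr ()) :=
    (cont_mtM m).matrix_elem _ _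
  exact h

theorem one_le_entM {m : ℕ} (g : SpM m) : 1 ≤ ‖entM g‖ := by
  have h := le_entG g 0
  nlinarith [norm_nonneg (entM g), sq_nonneg (‖mtM g (Sum.inl 0) (Sum.inr ())‖)]

theorem isCompact_ent (m : ℕ) (R : ℝ) : IsCompact {g : SpM m | ‖entM g‖ ≤ R} := by
  have h1 : {g : SpM m | ‖entM g‖ ≤ R} =
      {g : SpM m | ∀ i j, ‖((g : (MH (Fin (m + 1) ⊕ Unit))ˣ) : MH (Fin (m + 1) ⊕ Unit)) i j‖ ≤ |R| + 1} ∩
      {g | ‖entM g‖ ≤ R} := by
    ext g
    constructor
    · intro hg
      have hg1 : ‖entM g‖ ≤ R := hg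
      have hR : 0 ≤ R := (norm_nonneg _).trans hg1
      refine ⟨fun i j => ?_, hg1⟩
      change ‖mtM g i j‖ ≤ |R| + 1
      rw [abs_of_nonneg hR]
      have hsq : ‖entM g‖ ^ 2 ≤ R ^ 2 := pow_le_pow_left₀ (norm_nonneg _) hg1 2
      rcases j with j | j
      · have hrow : ‖mtM g (Sum.inr ()) (Sum.inl j)‖ ≤ R := by
          rw [row_colG]
          have h2 := le_entG g⁻¹ j
          rw [ent_invG] at h2
          exact abs_le_of_sq_le_sq' (by linarith) hR |>.2
        rcases i with i | i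
        · have h2 := colG g (Sum.inl j)
          have e0 : eM m (Sum.inl j) = -1 := rfl
          rw [e0] at h2
          have h3 : ‖mtM g (Sum.inl i) (Sum.inl j)‖ ^ 2 ≤ ∑ i : Fin (m + 1), ‖mtM g (Sum.inl i) (Sum.inl j)‖ ^ 2 :=
            Finset.single_le_sum (f := fun i : Fin (m + 1) => ‖mtM g (Sum.inl i) (Sum.inl j)‖ ^ 2)
            (fun _ _ => sq_nonneg _) (Finset.mem_univ i)
          have h4 : ‖mtM g (Sum.inr ()) (Sum.inl j)‖ ^ 2 ≤ R ^ 2 := pow_le_pow_left₀ (norm_nonneg _) hrow 2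
          refine (abs_le_of_sq_le_sq' ?_ (by linarith)).2
          nlinarith
        · rw [show mtM g (Sum.inr i) (Sum.inl j) = mtM g (Sum.inr ()) (Sum.inl j) from rfl]
          linarith
      · rcases i with i | i
        · rw [show mtM g (Sum.inl i) (Sum.inr j) = mtM g (Sum.inl i) (Sum.inr ()) from rfl]
          have h2 := le_entG g i
          refine (abs_le_of_sq_le_sq' ?_ (by linarith)).2
          nlinarith
        · change ‖entM g‖ ≤ R + 1
          linarith
    · intro hg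
      exact hg.2
  rw [h1]
  refine (isCompact_bdd (sgnM m) (|R| + 1)).inter_right ?_
  exact isClosed_le (cont_entM m).norm continuous_const

theorem isCompact_KM (m : ℕ) : IsCompact (KM m : Set (SpM m)) := by
  have h : (KM m : Set (SpM m)) = {g : SpM m | ‖entM g‖ ≤ 1} := by
    ext g
    exact ⟨fun hg => le_of_eq hg, fun hg => le_antisymm hg (one_le_entM g)⟩
  rw [h]
  exact isCompact_ent m 1

theorem ent_KM_mul {m : ℕ} {k : SpM m} (hk : k ∈ KM m) (g : SpM m) : ‖entM (k * g)‖ = ‖entM g‖ := kmulG hk g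

theorem ent_mul_KM {m : ℕ} {k : SpM m} (hk : k ∈ KM m) (g : SpM m) : ‖entM (g * k)‖ = ‖entM g‖ := mulkG hk g

theorem entM_inv {m : ℕ} (g : SpM m) : ‖entM g⁻¹‖ = ‖entM g‖ := ent_invG g

private theorem JmG (m : ℕ) : Jm (eM m) = fromBlocks (-1 : MH (Fin (m + 1))) 0 0 (1 : MH Unit) := by
  unfold Jm
  ext1 i j
  rcases i with i | i <;> rcases j with j | j
  · rw [fromBlocks_apply₁₁]
    by_cases h : i = j
    · subst h
      rw [diagonal_apply_eq, neg_apply, one_apply_eq]
      simp [eM]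
    · rw [diagonal_apply_ne _ (fun h' => h (Sum.inl_injective h')), neg_apply, one_apply_ne h, neg_zero]
  · rw [fromBlocks_apply₁₂, diagonal_apply_ne _ (by simp)]
    rfl
  · rw [fromBlocks_apply₂₁, diagonal_apply_ne _ (by simp)]
    rfl
  · rw [fromBlocks_apply₂₂, diagonal_apply_eq, one_apply_eq]
    simp [eM]

private theorem blk_memG {m : ℕ} {U : MH (Fin (m + 1))} {u : MH Unit} (hU : Uᴴ * U = 1) (hu : uᴴ * u = 1) :
    (fromBlocks U 0 0 u)ᴴ * Jm (eM m) * fromBlocks U 0 0 u = Jm (eM m) := by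
  rw [JmG, fromBlocks_conjTranspose, fromBlocks_multiply, fromBlocks_multiply]
  simp [hU, hu]

private theorem exists_blkG {m : ℕ} {U : MH (Fin (m + 1))} {u : MH Unit} (hU : Uᴴ * U = 1) (hu : uᴴ * u = 1) :
    ∃ k ∈ KM m, mtM k = fromBlocks U 0 0 u := by
  obtain ⟨k, hk⟩ := exists_of_mem (sgnM m) (blk_memG hU hu)
  have hk' : mtM k = fromBlocks U 0 0 u := hk
  refine ⟨k, ?_, hk'⟩
  rw [mem_KM]
  change ‖mtM k (Sum.inr ()) (Sum.inr ())‖ = 1
  rw [hk', fromBlocks_apply₂₂]
  have h := congrFun (congrFun hu ()) ()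
  rw [mul_apply, Finset.univ_unique, Finset.sum_singleton, conjTranspose_apply, one_apply_eq] at h
  have h2 : ((‖u () ()‖ ^ 2 : ℝ) : Hq) = 1 := by
    rw [← ssmG]
    exact h
  have h3 : ‖u () ()‖ ^ 2 = 1 := by
    rw [← Quaternion.coe_one] at h2
    exact Quaternion.coe_injective h2
  exact (pow_eq_one_iff_of_nonneg (norm_nonneg _) two_ne_zero).mp h3

private theorem sum_coeG {m : ℕ} (f : Fin (m + 1) → ℝ) :
    (∑ i, ((f i : ℝ) : Hq)) = ((∑ i, f i : ℝ) : Hq) :=
  (map_sum (algebraMap ℝ Hq) f Finset.univ).symm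

/-- a quaternion is its norm times a unit quaternion -/
private theorem polarG (a : Hq) : ∃ u : Hq, star u * u = 1 ∧ a = ‖a‖ • u := by
  by_cases h : a = 0
  · exact ⟨1, by simp, by simp [h]⟩
  · have hn : ‖a‖ ≠ 0 := norm_ne_zero_iff.2 h
    refine ⟨‖a‖⁻¹ • a, ?_, ?_⟩
    · rw [ssmG, norm_smul, norm_inv, norm_norm, inv_mul_cancel₀ hn, one_pow, Quaternion.coe_one]
    · rw [smul_smul, mul_inv_cancel₀ hn, one_smul]

/-- `Sp(m + 1)` acts transitively on spheres -/
private theorem transG {m : ℕ} (b : Fin (m + 1) → Hq) : ∃ U : MH (Fin (m + 1)), Uᴴ * U = 1 ∧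
    U *ᵥ Pi.single 0 ((Real.sqrt (∑ i, ‖b i‖ ^ 2) : ℝ) : Hq) = b := by
  set r : ℝ := Real.sqrt (∑ i, ‖b i‖ ^ 2) with hr
  have hS : 0 ≤ ∑ i, ‖b i‖ ^ 2 := Finset.sum_nonneg fun _ _ => sq_nonneg _
  have hr0 : 0 ≤ r := Real.sqrt_nonneg _
  have hr2 : r ^ 2 = ∑ i, ‖b i‖ ^ 2 := Real.sq_sqrt hS
  by_cases h0 : r = 0
  · have hb : b = 0 := by
      have hz : ∑ i, ‖b i‖ ^ 2 = 0 := by rw [← hr2, h0]; norm_num
      rw [Finset.sum_eq_zero_iff_of_nonneg (fun _ _ => sq_nonneg _)] at hz
      funext i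
      have := hz i (Finset.mem_univ i)
      rw [Pi.zero_apply, ← norm_eq_zero]
      exact pow_eq_zero_iff (two_ne_zero) |>.mp this
    refine ⟨1, by simp, ?_⟩
    rw [h0, hb]
    simp
  · have hrp : 0 < r := lt_of_le_of_ne hr0 (Ne.symm h0)
    obtain ⟨u, hu, hbu⟩ := polarG (b 0)
    have hu' : u * star u = 1 := mul_eq_one_comm.1 hu
    -- the vector of the reflection
    set x : Fin (m + 1) → Hq := fun i => b i + (if i = 0 then r • u else 0) with hx
    have hx0 : x 0 = (‖b 0‖ + r) • u := by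
      rw [hx]
      simp only [if_true]
      rw [add_smul, ← hbu]
    have hxi : ∀ i : Fin (m + 1), i ≠ 0 → x i = b i := by
      intro i hi
      simp [hx, hi]
    set c : ℝ := r ^ 2 + r * ‖b 0‖ with hc
    have hcp : 0 < c := by positivity
    have key1 : ∑ i, star (x i) * b i = (c : Hq) := by
      have h1 : ∀ i, star (x i) * b i = ((‖b i‖ ^ 2 + (if i = 0 then r * ‖b 0‖ else 0) : ℝ) : Hq) := by
        intro i
        by_cases hi : i = 0
        · subst hi
          have h2 : star ((‖b 0‖ + r) • u) * b 0 = star ((‖b 0‖ + r) • u) * (‖b 0‖ • u) := by rw [← hbu]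
          rw [hx0, if_pos rfl, h2, Quaternion.star_smul, smul_mul_smul_comm, hu, ← Quaternion.coe_mul_eq_smul, mul_one]
          congr 1
          ring
        · rw [hxi i hi, ssmG, if_neg hi, add_zero]
      rw [Finset.sum_congr rfl fun i _ => h1 i, sum_coeG, Finset.sum_add_distrib, ← hr2]
      simp [hc]
    have key2 : ∑ i, star (x i) * x i = ((2 * c : ℝ) : Hq) := by
      have h1 : ∀ i, star (x i) * x i = ((‖b i‖ ^ 2 + (if i = 0 then 2 * r * ‖b 0‖ + r ^ 2 else 0) : ℝ) : Hq) := by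
        intro i
        by_cases hi : i = 0
        · subst hi
          rw [hx0, if_pos rfl, Quaternion.star_smul, smul_mul_smul_comm, hu, ← Quaternion.coe_mul_eq_smul, mul_one]
          congr 1
          ring
        · rw [hxi i hi, ssmG, if_neg hi, add_zero]
      rw [Finset.sum_congr rfl fun i _ => h1 i, sum_coeG, Finset.sum_add_distrib, ← hr2]
      congr 1
      simp [hc]
      ring
    set P : MH (Fin (m + 1)) := Matrix.of fun i j => x i * star (x j) with hP
    have hPP : P * P = (2 * c) • P := by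
      ext1 i j
      rw [mul_apply, Matrix.smul_apply]
      simp only [hP, of_apply]
      have : ∀ k, x i * star (x k) * (x k * star (x j)) = x i * (star (x k) * x k) * star (x j) := fun k => by
        simp only [mul_assoc]
      rw [Finset.sum_congr rfl fun k _ => this k, ← Finset.sum_mul, ← Finset.mul_sum, key2,
        ← Quaternion.coe_commutes, Quaternion.coe_mul_eq_smul, smul_mul_assoc]
    have hPH : Pᴴ = P := by
      ext1 i j
      rw [conjTranspose_apply]
      simp only [hP, of_apply]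
      rw [star_mul, star_star]
    set H : MH (Fin (m + 1)) := 1 - c⁻¹ • P with hH
    have hHH : H * H = 1 := by
      have h1 : H * H = 1 - c⁻¹ • P - c⁻¹ • P + (c⁻¹ * c⁻¹) • (P * P) := by
        rw [hH]
        simp only [sub_mul, mul_sub, one_mul, mul_one, smul_mul_smul_comm]
        abel
      have h2 : c⁻¹ * c⁻¹ * (2 * c) = 2 * c⁻¹ := by
        field_simp
      rw [h1, hPP, smul_smul, h2, two_mul, add_smul]
      abel
    have hHs : Hᴴ = H := by
      have h1 : (c⁻¹ • P)ᴴ = c⁻¹ • P := by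
        ext1 i j
        have h2 : star (P j i) = P i j := congrFun (congrFun hPH i) j
        rw [conjTranspose_apply, Matrix.smul_apply, Matrix.smul_apply, Quaternion.star_smul, h2]
      rw [hH, conjTranspose_sub, conjTranspose_one, h1]
    have hHb : H *ᵥ b = Pi.single 0 (-(r • u)) := by
      rw [hH, sub_mulVec, one_mulVec]
      have h1 : (c⁻¹ • P) *ᵥ b = x := by
        rw [smul_mulVec]
        funext i
        rw [Pi.smul_apply]
        simp only [mulVec, dotProduct, hP, of_apply]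
        have : ∀ k, x i * star (x k) * b k = x i * (star (x k) * b k) := fun k => mul_assoc _ _ _
        rw [Finset.sum_congr rfl fun k _ => this k, ← Finset.mul_sum, key1, ← Quaternion.coe_commutes,
          Quaternion.coe_mul_eq_smul, smul_smul, inv_mul_cancel₀ hcp.ne', one_smul]
      rw [h1]
      funext i
      rw [Pi.sub_apply]
      by_cases hi : i = 0
      · subst hi
        rw [Pi.single_eq_same]
        simp [hx]
      · rw [Pi.single_eq_of_ne hi, hxi i hi, sub_self]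
    have hHv : H *ᵥ Pi.single 0 (-(r • u)) = b := by
      rw [← hHb, mulVec_mulVec, hHH, one_mulVec]
    refine ⟨H * diagonal (fun i => if i = 0 then -u else 1), ?_, ?_⟩
    · rw [conjTranspose_mul, hHs, Matrix.mul_assoc, ← Matrix.mul_assoc H H, hHH, Matrix.one_mul,
        diagonal_conjTranspose, diagonal_mul_diagonal, ← diagonal_one]
      congr 1
      funext i
      by_cases hi : i = 0
      · simp [hi, hu]
      · simp [hi]
    · rw [← mulVec_mulVec]
      have : diagonal (fun i : Fin (m + 1) => if i = 0 then -u else (1 : Hq)) *ᵥ Pi.single 0 (r : Hq) =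
          Pi.single 0 (-(r • u)) := by
        funext i
        rw [mulVec_diagonal]
        by_cases hi : i = 0
        · subst hi
          rw [Pi.single_eq_same, Pi.single_eq_same, if_pos rfl, neg_mul, ← Quaternion.coe_commutes,
            Quaternion.coe_mul_eq_smul]
        · rw [Pi.single_eq_of_ne hi, Pi.single_eq_of_ne hi, mul_zero]
      rw [this, hHv]

/-- the standard column -/
private noncomputable def wG (m : ℕ) (c : ℝ) : Fin (m + 1) ⊕ Unit → Hq :=
  Sum.elim (Pi.single 0 ((Real.sqrt (c ^ 2 - 1) : ℝ) : Hq)) (fun _ => (c : Hq))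

private theorem norm_formG {m : ℕ} (g : SpM m) : ∃ k ∈ KM m,
    mtM (k * g) *ᵥ Pi.single (Sum.inr ()) 1 = wG m ‖entM g‖ := by
  obtain ⟨U, hU, hUv⟩ := transG (fun i => mtM g (Sum.inl i) (Sum.inr ()))
  have hc : 0 < ‖entM g‖ := by linarith [one_le_entM g]
  have hu : (Matrix.of fun _ _ => ‖entM g‖⁻¹ • entM g : MH Unit)ᴴ * (Matrix.of fun _ _ => ‖entM g‖⁻¹ • entM g : MH Unit) = 1 := by
    ext1 i j
    have h1 : star (‖entM g‖⁻¹ • entM g) * (‖entM g‖⁻¹ • entM g) = 1 := by
      rw [ssmG, norm_smul, norm_inv, norm_norm, inv_mul_cancel₀ hc.ne', one_pow, Quaternion.coe_one]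
    rw [mul_apply, Finset.univ_unique, Finset.sum_singleton, conjTranspose_apply,
      show j = i from Subsingleton.elim _ _, one_apply_eq]
    exact h1
  obtain ⟨k, hk, hkm⟩ := exists_blkG hU hu
  refine ⟨k⁻¹, (KM m).inv_mem hk, ?_⟩
  have h1 : mtM g *ᵥ Pi.single (Sum.inr ()) 1 = mtM k *ᵥ wG m ‖entM g‖ := by
    rw [hkm]
    unfold wG
    rw [fromBlocks_mulVec]
    have hs : Real.sqrt (‖entM g‖ ^ 2 - 1) =
        Real.sqrt (∑ i : Fin (m + 1), ‖mtM g (Sum.inl i) (Sum.inr ())‖ ^ 2) := by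
      congr 1
      have h2 := norm_entG g
      linarith
    have e1 : (Sum.elim (Pi.single 0 ((Real.sqrt (‖entM g‖ ^ 2 - 1) : ℝ) : Hq)) (fun _ : Unit => (‖entM g‖ : Hq)) :
        Fin (m + 1) ⊕ Unit → Hq) ∘ Sum.inl = Pi.single 0 ((Real.sqrt (‖entM g‖ ^ 2 - 1) : ℝ) : Hq) := rfl
    have e2 : (Sum.elim (Pi.single 0 ((Real.sqrt (‖entM g‖ ^ 2 - 1) : ℝ) : Hq)) (fun _ : Unit => (‖entM g‖ : Hq)) :
        Fin (m + 1) ⊕ Unit → Hq) ∘ Sum.inr = fun _ : Unit => (‖entM g‖ : Hq) := rfl
    rw [e1, e2, hs, hUv, mulVec_single_one]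
    funext i
    rcases i with i | i
    · simp
    · have h3 : (‖entM g‖⁻¹ • entM g) * (‖entM g‖ : Hq) = entM g := by
        rw [← Quaternion.coe_commutes, Quaternion.coe_mul_eq_smul, smul_smul,
          mul_inv_cancel₀ hc.ne', one_smul]
      have h4 : ((Matrix.of fun _ _ => ‖entM g‖⁻¹ • entM g : MH Unit) *ᵥ fun _ : Unit => (‖entM g‖ : Hq)) i = entM g := by
        simp only [mulVec, dotProduct, of_apply, Finset.univ_unique, Finset.sum_singleton]
        exact h3
      rw [zero_mulVec, zero_mulVec]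
      simp only [Sum.elim_inr, Pi.add_apply, Pi.zero_apply, zero_add]
      rw [h4]
      rfl
  rw [mtM_mul, ← mulVec_mulVec, h1, mulVec_mulVec, ← mtM_mul, inv_mul_cancel, mtM_one, one_mulVec]

theorem kakM {m : ℕ} {g g' : SpM m} (h : ‖entM g‖ = ‖entM g'‖) : ∃ k ∈ KM m, ∃ k' ∈ KM m, g' = k * g * k' := by
  obtain ⟨k, hk, hkg⟩ := norm_formG g
  obtain ⟨k', hk', hkg'⟩ := norm_formG g'
  rw [← h] at hkg'
  have h1 : mtM ((k * g)⁻¹ * (k' * g')) *ᵥ Pi.single (Sum.inr ()) 1 = Pi.single (Sum.inr ()) 1 := by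
    rw [mtM_mul, ← mulVec_mulVec, hkg', ← hkg, mulVec_mulVec, ← mtM_mul, inv_mul_cancel, mtM_one,
      one_mulVec]
  have h2 : entM ((k * g)⁻¹ * (k' * g')) = 1 := by
    have h3 := congrFun h1 (Sum.inr ())
    rw [mulVec_single_one, Pi.single_eq_same] at h3
    exact h3
  refine ⟨k'⁻¹ * k, (KM m).mul_mem ((KM m).inv_mem hk') hk, (k * g)⁻¹ * (k' * g'), ?_, ?_⟩
  · rw [mem_KM, h2, norm_one]
  · group

private theorem a11G (m : ℕ) (s : ℝ) (i j : Fin (m + 1)) : aMat m s (Sum.inl i) (Sum.inl j) =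
    if i = j then (if i = 0 then (Real.cosh s : Hq) else 1) else 0 := by
  unfold aMat
  rw [fromBlocks_apply₁₁, diagonal_apply]

private theorem a12G (m : ℕ) (s : ℝ) (i : Fin (m + 1)) (j : Unit) : aMat m s (Sum.inl i) (Sum.inr j) =
    if i = 0 then (Real.sinh s : Hq) else 0 := rfl

private theorem a21G (m : ℕ) (s : ℝ) (i : Unit) (j : Fin (m + 1)) : aMat m s (Sum.inr i) (Sum.inl j) =
    if j = 0 then (Real.sinh s : Hq) else 0 := rfl

private theorem a22G (m : ℕ) (s : ℝ) (i j : Unit) : aMat m s (Sum.inr i) (Sum.inr j) = (Real.cosh s : Hq) := rfl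

private theorem mulG {m : ℕ} (A B : MH (Fin (m + 1) ⊕ Unit)) (i j : Fin (m + 1) ⊕ Unit) : (A * B) i j =
    (∑ k : Fin (m + 1), A i (Sum.inl k) * B (Sum.inl k) j) + A i (Sum.inr ()) * B (Sum.inr ()) j := by
  rw [mul_apply]
  simp only [Fintype.sum_sum_type, Finset.univ_unique, Finset.sum_singleton]

private theorem aMat_addG (m : ℕ) (s t : ℝ) : aMat m (s + t) = aMat m s * aMat m t := by
  have hcomm : (Real.cosh s : Hq) * (Real.sinh t : Hq) = (Real.sinh t : Hq) * (Real.cosh s : Hq) :=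
    Quaternion.coe_commutes _ _
  ext1 i j
  rw [mulG]
  rcases i with i | i <;> rcases j with j | j
  · simp only [a11G, a12G, a21G]
    by_cases hi : i = 0
    · subst hi
      by_cases hj : j = 0
      · subst hj
        simp only [if_true, ite_mul, zero_mul, Finset.sum_ite_eq, Finset.mem_univ, Real.cosh_add,
          Quaternion.coe_add, Quaternion.coe_mul]
      · have hj' : ¬ (0 = j) := fun h => hj h.symm
        simp only [if_true, ite_mul, zero_mul, Finset.sum_ite_eq, Finset.mem_univ, hj, hj', if_false, mul_zero,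
          add_zero]
    · simp only [hi, if_false, ite_mul, zero_mul, one_mul, Finset.sum_ite_eq, Finset.mem_univ, if_true, add_zero]
  · simp only [a11G, a12G, a22G]
    by_cases hi : i = 0
    · subst hi
      simp only [if_true, ite_mul, zero_mul, Finset.sum_ite_eq, Finset.mem_univ, Real.sinh_add,
          Quaternion.coe_add, Quaternion.coe_mul]
      abel
    · simp only [hi, if_false, ite_mul, zero_mul, one_mul, Finset.sum_ite_eq, Finset.mem_univ, if_true, add_zero]
  · simp only [a11G, a21G, a22G]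
    by_cases hj : j = 0
    · subst hj
      simp only [if_true, mul_ite, mul_zero, ite_mul, zero_mul, Finset.sum_ite_eq', Finset.mem_univ, Real.sinh_add,
          Quaternion.coe_add, Quaternion.coe_mul]
    · simp only [hj, if_false, mul_ite, mul_zero, mul_one, ite_mul, zero_mul, Finset.sum_ite_eq', Finset.mem_univ,
        if_true, add_zero]
  · simp only [a12G, a21G, a22G, mul_ite, mul_zero, ite_mul, zero_mul, Finset.sum_ite_eq', Finset.mem_univ, if_true]
    simp only [Real.cosh_add, Quaternion.coe_add, Quaternion.coe_mul]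
    have : ∀ k : Fin (m + 1), (if k = 0 then (if k = 0 then (Real.sinh s : Hq) * (Real.sinh t : Hq) else 0) else 0) =
      if k = 0 then (Real.sinh s : Hq) * (Real.sinh t : Hq) else 0 := fun k => by split_ifs <;> rfl
    simp [add_comm]

private theorem aMat_zeroG (m : ℕ) : aMat m 0 = 1 := by
  ext1 i j
  rcases i with i | i <;> rcases j with j | j
  · rw [a11G, one_apply]
    simp
  · rw [a12G, one_apply_ne (by simp)]
    simp
  · rw [a21G, one_apply_ne (by simp)]
    simp
  · rw [a22G, show i = j from rfl, one_apply_eq]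
    simp

private theorem aMat_conjG (m : ℕ) (s : ℝ) : (aMat m s)ᴴ = aMat m s := by
  ext1 i j
  rw [conjTranspose_apply]
  rcases i with i | i <;> rcases j with j | j
  · rw [a11G, a11G]
    by_cases h : i = j
    · subst h
      split_ifs <;> simp
    · rw [if_neg h, if_neg (fun h' => h h'.symm), star_zero]
  · rw [a12G, a21G]
    split_ifs <;> simp
  · rw [a12G, a21G]
    split_ifs <;> simp
  · simp [a22G]

private theorem J_aMat_JG (m : ℕ) (s : ℝ) : Jm (eM m) * aMat m s * Jm (eM m) = aMat m (-s) := by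
  unfold Jm
  ext1 i j
  rw [mul_diagonal, diagonal_mul]
  rcases i with i | i <;> rcases j with j | j
  · rw [a11G, a11G]
    have e0 : ∀ i, eM m (Sum.inl i) = -1 := fun _ => rfl
    rw [e0, e0, Real.cosh_neg]
    split_ifs <;> simp
  · rw [a12G, a12G]
    have e0 : eM m (Sum.inl i) = -1 := rfl
    have e2 : eM m (Sum.inr j) = 1 := rfl
    rw [e0, e2, Real.sinh_neg]
    split_ifs <;> simp
  · rw [a21G, a21G]
    have e0 : eM m (Sum.inl j) = -1 := rfl
    have e2 : eM m (Sum.inr i) = 1 := rfl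
    rw [e0, e2, Real.sinh_neg]
    split_ifs <;> simp
  · rw [a22G, a22G]
    have e2 : ∀ i, eM m (Sum.inr i) = 1 := fun _ => rfl
    simp only [e2, Real.cosh_neg]
    simp

private theorem aMat_memG (m : ℕ) (s : ℝ) : (aMat m s)ᴴ * Jm (eM m) * aMat m s = Jm (eM m) := by
  rw [aMat_conjG]
  calc aMat m s * Jm (eM m) * aMat m s = (Jm (eM m) * Jm (eM m)) * aMat m s * Jm (eM m) * aMat m s := by
        rw [JsqG, one_mul]
    _ = Jm (eM m) * (Jm (eM m) * aMat m s * Jm (eM m)) * aMat m s := by noncomm_ring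
    _ = Jm (eM m) * (aMat m (-s) * aMat m s) := by rw [J_aMat_JG, mul_assoc]
    _ = Jm (eM m) := by rw [← aMat_addG, neg_add_cancel, aMat_zeroG, mul_one]

private theorem cont_aMatG (m : ℕ) : Continuous (aMat m) := by
  have hc : Continuous fun s : ℝ => (Real.cosh s : Hq) := Quaternion.continuous_coe.comp Real.continuous_cosh
  have hs : Continuous fun s : ℝ => (Real.sinh s : Hq) := Quaternion.continuous_coe.comp Real.continuous_sinh
  refine continuous_matrix fun i j => ?_
  rcases i with i | i <;> rcases j with j | j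
  · simp only [a11G]
    split_ifs
    · exact hc
    · exact continuous_const
    · exact continuous_const
  · simp only [a12G]
    split_ifs
    · exact hs
    · exact continuous_const
  · simp only [a21G]
    split_ifs
    · exact hs
    · exact continuous_const
  · exact hc

theorem exists_aM (m : ℕ) : ∃ aa : ℝ → SpM m, (∀ s t, aa (s + t) = aa s * aa t) ∧ Continuous aa ∧ ∀ s, mtM (aa s) = aMat m s := by
  choose f hf using fun s => exists_of_mem (sgnM m) (aMat_memG m s)
  refine ⟨f, fun s t => ?_, ?_, hf⟩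
  · refine spJ_ext ?_
    rw [hf, aMat_addG, ← hf s, ← hf t]
    rfl
  · rw [(isClosedEmbedding_val (sgnM m)).isInducing.continuous_iff]
    refine (cont_aMatG m).congr fun s => ?_
    exact (hf s).symm

/-- the one parameter group -/
noncomputable def aM (m : ℕ) : ℝ → SpM m := (exists_aM m).choose

theorem aM_add (m : ℕ) (s t : ℝ) : aM m (s + t) = aM m s * aM m t := (exists_aM m).choose_spec.1 s t

theorem cont_aM (m : ℕ) : Continuous (aM m) := (exists_aM m).choose_spec.2.1

theorem aM_coe (m : ℕ) (s : ℝ) : mtM (aM m s) = aMat m s := (exists_aM m).choose_spec.2.2 s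

theorem ent_aM (m : ℕ) (s : ℝ) : ‖entM (aM m s)‖ = Real.cosh s := by
  change ‖mtM (aM m s) (Sum.inr ()) (Sum.inr ())‖ = Real.cosh s
  rw [aM_coe, a22G, Quaternion.norm_coe, Real.norm_eq_abs, abs_of_pos (Real.cosh_pos s)]

end Pool.Agent.Helper84.CH
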