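import Pool.Agent.Helper84.CH.LG0

/-!
# Project CH, block LG2: the Heisenberg group in `Sp(m + 1, 1)`

PROOF. Vectors `x : Fin (m + 1) ⊕ Unit → Hq`, `x_p = x (inr ())`, `x_0 = x (inl 0)`, `x' i = x (inl i.succ)`; form `‖x_p‖² - ‖x_0‖² - ∑ ‖x' i‖²`, i.e. (polarised) `conj(x_p) y_p - conj(x_0) y_0 - ∑ conj(x' i) y' i`. For `(w, ζ)`, `w i : Hq` with real coordinates `w (i, 0..3)`, `ζ` the imaginary quaternion with coordinates `ζ 0, ζ 1, ζ 2`, let
`β = x_p - x_0`, `s = ∑ conj(w i) x' i + (½ |w|² + ζ) β`, `uM (w, ζ) x = (x_p + s, x_0 + s, x' i + w i β)`. It preserves the form: with `α = x_p + x_0` the form is `Re`-type: `½ (conj α β + conj β α) - ∑ conj(x') x'`, new `α' = α + 2 s`, `β' = β`, and `½ (2 conj(s) β + 2 conj(β) s) = ∑ (conj(x' i) w i β + conj(β) conj(w i) x' i) + |w|² ‖β‖²` (the terms with `ζ` cancel, `conj ζ = -ζ`),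
which equals `∑ (conj(x' + w β)(x' + w β) - conj(x') x')`. Product: `uM (w, ζ) uM (w', ζ') = uM (w + w', ζ + ζ' + Im ∑ conj(w i) w' i)`, `Im ∑ conj(w i) w' i = br w w'` (in coordinates, `ring`), so `(uM v)⁻¹ uM v' = uM (dv v v')`, and the entry `(p, p)` of the matrix of `uM (w, ζ)` is `1 + ½ |w|² + ζ`, of norm `nW (w, ζ)`.
Matrix entries: `(p, p): 1 + t`, `(p, 0): -t`, `(0, p): t`, `(0, 0): 1 - t`, `(p, i) = (0, i) = conj(w i)`, `(i, p): w i`, `(i, 0): -w i`, `(i, j) = δ_ij`, `t = ½ |w|² + ζ`. Use `exists_of_mem (sgnM m)`, `spJ_ext`, `isClosedEmbedding_val (sgnM m)` (`SPQ/C6a.lean`) for membership, equality, continuity.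
-/

set_option autoImplicit false

open Matrix Topology

namespace Pool.Agent.Helper84.CH

open Pool.Agent.Helper84.SPQ

private noncomputable def A65 {m : ℕ} (t : Hq) (q : Fin m → Hq) : MH (Fin (m + 1) ⊕ Unit) := fun r k =>
  match r, k with
  | .inr _, .inr _ => 1 + t
  | .inr _, .inl k => Fin.cases (-t) (fun j => star (q j)) k
  | .inl r, .inr _ => Fin.cases t q r
  | .inl r, .inl k => Fin.cases (Fin.cases (1 - t) (fun j => star (q j)) k)
      (fun i => Fin.cases (-q i) (fun j => if i = j then 1 else 0) k) r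

private theorem key65 {m : ℕ} (A B : MH (Fin (m + 1) ⊕ Unit)) (k l : Fin (m + 1) ⊕ Unit) :
    (Aᴴ * Jm (eM m) * B) k l = star (A (Sum.inr ()) k) * B (Sum.inr ()) l -
      star (A (Sum.inl 0) k) * B (Sum.inl 0) l -
      ∑ i : Fin m, star (A (Sum.inl i.succ) k) * B (Sum.inl i.succ) l := by
  rw [Matrix.mul_apply, Fintype.sum_sum_type, Fin.sum_univ_succ]
  unfold Jm
  simp only [Matrix.mul_diagonal, Matrix.conjTranspose_apply, eM, Sum.elim_inl, Sum.elim_inr,
    Finset.univ_unique, Finset.sum_singleton, PUnit.default_eq_unit]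
  have h1 : ((-1 : ℝ) : Hq) = -1 := by norm_cast
  have h2 : ((1 : ℝ) : Hq) = 1 := by norm_cast
  simp only [h1, h2, mul_neg, mul_one, neg_mul, Finset.sum_neg_distrib]
  abel

private theorem mem65 {m : ℕ} (t : Hq) (q : Fin m → Hq) (h : star t + t = ∑ i, star (q i) * q i) :
    (A65 t q)ᴴ * Jm (eM m) * A65 t q = Jm (eM m) := by
  have hJ : ∀ k l, Jm (eM m) k l = if k = l then ((eM m k : ℝ) : Hq) else 0 := fun k l => by
    unfold Jm
    rw [Matrix.diagonal_apply]
  have h1 : ((-1 : ℝ) : Hq) = -1 := by norm_cast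
  have h2 : ((1 : ℝ) : Hq) = 1 := by norm_cast
  ext1 k l
  rw [key65, hJ]
  rcases k with k | k
  · rcases l with l | l
    · refine Fin.cases ?_ (fun i => ?_) k
      · refine Fin.cases ?_ (fun j => ?_) l
        · rw [if_pos rfl]
          show star (-t) * -t - star (1 - t) * (1 - t) - ∑ i, star (-q i) * -q i = (((-1 : ℝ)) : Hq)
          rw [h1]
          simp only [star_neg, star_sub, star_one, neg_mul, mul_neg, neg_neg, ← h]
          noncomm_ring
        · rw [if_neg (by simp [Fin.ext_iff])]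
          show star (-t) * star (q j) - star (1 - t) * star (q j) -
            ∑ i, star (-q i) * (if i = j then (1 : Hq) else 0) = 0
          simp only [star_neg, star_sub, star_one, neg_mul, mul_ite, mul_one, mul_zero,
            Finset.sum_ite_eq', Finset.mem_univ, if_true]
          noncomm_ring
      · refine Fin.cases ?_ (fun j => ?_) l
        · rw [if_neg (by simp [Fin.ext_iff])]
          show star (star (q i)) * -t - star (star (q i)) * (1 - t) -
            ∑ r, star (if r = i then (1 : Hq) else 0) * -q r = 0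
          have h3 : ∀ r, star (if r = i then (1 : Hq) else 0) * -q r = if r = i then -q r else 0 := by
            intro r
            split_ifs <;> simp
          simp only [h3, star_star, Finset.sum_ite_eq', Finset.mem_univ, if_true]
          noncomm_ring
        · show star (star (q i)) * star (q j) - star (star (q i)) * star (q j) -
            ∑ r, star (if r = i then (1 : Hq) else 0) * (if r = j then (1 : Hq) else 0) =
            if (Sum.inl i.succ : Fin (m + 1) ⊕ Unit) = Sum.inl j.succ then (((-1 : ℝ)) : Hq) else 0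
          rw [h1, sub_self, zero_sub]
          have h3 : ∀ r, star (if r = i then (1 : Hq) else 0) * (if r = j then (1 : Hq) else 0) =
              if r = i then (if i = j then 1 else 0) else 0 := by
            intro r
            by_cases hr : r = i
            · subst hr
              simp
            · simp [hr]
          simp only [h3, Finset.sum_ite_eq', Finset.mem_univ, if_true]
          by_cases hij : i = j
          · rw [if_pos hij, if_pos (by rw [hij])]
          · rw [if_neg hij, if_neg (by simpa [Fin.ext_iff] using hij), neg_zero]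
    · rw [if_neg (by simp)]
      refine Fin.cases ?_ (fun i => ?_) k
      · show star (-t) * (1 + t) - star (1 - t) * t - ∑ i, star (-q i) * q i = 0
        simp only [star_neg, star_sub, star_one, neg_mul, Finset.sum_neg_distrib, ← h]
        noncomm_ring
      · show star (star (q i)) * (1 + t) - star (star (q i)) * t -
          ∑ r, star (if r = i then (1 : Hq) else 0) * q r = 0
        have h3 : ∀ r, star (if r = i then (1 : Hq) else 0) * q r = if r = i then q r else 0 := by
          intro r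
          split_ifs <;> simp
        simp only [h3, star_star, Finset.sum_ite_eq', Finset.mem_univ, if_true]
        noncomm_ring
  · rcases l with l | l
    · rw [if_neg (by simp)]
      refine Fin.cases ?_ (fun j => ?_) l
      · show star (1 + t) * -t - star t * (1 - t) - ∑ i, star (q i) * -q i = 0
        simp only [star_add, star_one, mul_neg, Finset.sum_neg_distrib, ← h]
        noncomm_ring
      · show star (1 + t) * star (q j) - star t * star (q j) -
          ∑ i, star (q i) * (if i = j then (1 : Hq) else 0) = 0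
        simp only [star_add, star_one, mul_ite, mul_one, mul_zero, Finset.sum_ite_eq', Finset.mem_univ, if_true]
        noncomm_ring
    · rw [if_pos rfl]
      show star (1 + t) * (1 + t) - star t * t - ∑ i, star (q i) * q i = (((1 : ℝ)) : Hq)
      rw [h2]
      simp only [star_add, star_one, ← h]
      noncomm_ring

private noncomputable def qt65 (a b c d : ℝ) : Hq := ⟨a, b, c, d⟩

private noncomputable def e165 : Hq := ⟨1, 0, 0, 0⟩
private noncomputable def e265 : Hq := ⟨0, 1, 0, 0⟩
private noncomputable def e365 : Hq := ⟨0, 0, 1, 0⟩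
private noncomputable def e465 : Hq := ⟨0, 0, 0, 1⟩

private theorem qt65_eq (a b c d : ℝ) : qt65 a b c d = a • e165 + b • e265 + c • e365 + d • e465 := by
  ext
  · show a = a * 1 + b * 0 + c * 0 + d * 0
    ring
  · show b = a * 0 + b * 1 + c * 0 + d * 0
    ring
  · show c = a * 0 + b * 0 + c * 1 + d * 0
    ring
  · show d = a * 0 + b * 0 + c * 0 + d * 1
    ring

private noncomputable def re65 : Hq →+ ℝ := ⟨⟨fun x => x.re, rfl⟩, fun _ _ => rfl⟩
private noncomputable def i65 : Hq →+ ℝ := ⟨⟨fun x => x.imI, rfl⟩, fun _ _ => rfl⟩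
private noncomputable def j65 : Hq →+ ℝ := ⟨⟨fun x => x.imJ, rfl⟩, fun _ _ => rfl⟩
private noncomputable def k65 : Hq →+ ℝ := ⟨⟨fun x => x.imK, rfl⟩, fun _ _ => rfl⟩

private noncomputable def q65 {m : ℕ} (w : Wm m) (i : Fin m) : Hq := qt65 (w (i, 0)) (w (i, 1)) (w (i, 2)) (w (i, 3))

private noncomputable def t65 {m : ℕ} (v : Vm m) : Hq := qt65 (sq v.1 / 2) (v.2 0) (v.2 1) (v.2 2)

private theorem sq65 {m : ℕ} (w : Wm m) : sq w = ∑ i, (w (i, 0) ^ 2 + w (i, 1) ^ 2 + w (i, 2) ^ 2 + w (i, 3) ^ 2) := by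
  unfold sq
  rw [Fintype.sum_prod_type]
  exact Finset.sum_congr rfl fun i _ => Fin.sum_univ_four _

private theorem sum65 {m : ℕ} (w w' : Wm m) : ∑ i, star (q65 w i) * q65 w' i = qt65
    (∑ i : Fin m, (w (i, 0) * w' (i, 0) + w (i, 1) * w' (i, 1) + w (i, 2) * w' (i, 2) + w (i, 3) * w' (i, 3)))
    ((br w w') 0) ((br w w') 1) ((br w w') 2) := by
  ext
  · show re65 _ = _
    rw [map_sum]
    refine Finset.sum_congr rfl fun i _ => ?_
    change (star (q65 w i) * q65 w' i).re = _
    rw [Quaternion.re_mul, Quaternion.re_star, Quaternion.imI_star, Quaternion.imJ_star, Quaternion.imK_star]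
    simp only [q65, qt65]
    ring
  · show i65 _ = ∑ i : Fin m, (w (i, 0) * w' (i, 1) - w (i, 1) * w' (i, 0) - w (i, 2) * w' (i, 3) + w (i, 3) * w' (i, 2))
    rw [map_sum]
    refine Finset.sum_congr rfl fun i _ => ?_
    change (star (q65 w i) * q65 w' i).imI = _
    rw [Quaternion.imI_mul, Quaternion.re_star, Quaternion.imI_star, Quaternion.imJ_star, Quaternion.imK_star]
    simp only [q65, qt65]
    ring
  · show j65 _ = ∑ i : Fin m, (w (i, 0) * w' (i, 2) - w (i, 2) * w' (i, 0) - w (i, 3) * w' (i, 1) + w (i, 1) * w' (i, 3))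
    rw [map_sum]
    refine Finset.sum_congr rfl fun i _ => ?_
    change (star (q65 w i) * q65 w' i).imJ = _
    rw [Quaternion.imJ_mul, Quaternion.re_star, Quaternion.imI_star, Quaternion.imJ_star, Quaternion.imK_star]
    simp only [q65, qt65]
    ring
  · show k65 _ = ∑ i : Fin m, (w (i, 0) * w' (i, 3) - w (i, 3) * w' (i, 0) - w (i, 1) * w' (i, 2) + w (i, 2) * w' (i, 1))
    rw [map_sum]
    refine Finset.sum_congr rfl fun i _ => ?_
    change (star (q65 w i) * q65 w' i).imK = _
    rw [Quaternion.imK_mul, Quaternion.re_star, Quaternion.imI_star, Quaternion.imJ_star, Quaternion.imK_star]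
    simp only [q65, qt65]
    ring

private theorem brself65 {m : ℕ} (w : Wm m) (i : Fin 3) : (br w w) i = 0 := by
  fin_cases i
  · show ∑ i : Fin m, (w (i, 0) * w (i, 1) - w (i, 1) * w (i, 0) - w (i, 2) * w (i, 3) + w (i, 3) * w (i, 2)) = 0
    exact Finset.sum_eq_zero fun i _ => by ring
  · show ∑ i : Fin m, (w (i, 0) * w (i, 2) - w (i, 2) * w (i, 0) - w (i, 3) * w (i, 1) + w (i, 1) * w (i, 3)) = 0
    exact Finset.sum_eq_zero fun i _ => by ring
  · show ∑ i : Fin m, (w (i, 0) * w (i, 3) - w (i, 3) * w (i, 0) - w (i, 1) * w (i, 2) + w (i, 2) * w (i, 1)) = 0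
    exact Finset.sum_eq_zero fun i _ => by ring

private theorem hyp65 {m : ℕ} (v : Vm m) : star (t65 v) + t65 v = ∑ i, star (q65 v.1 i) * q65 v.1 i := by
  rw [sum65, brself65, brself65, brself65]
  have h1 : sq v.1 = ∑ i : Fin m, (v.1 (i, 0) * v.1 (i, 0) + v.1 (i, 1) * v.1 (i, 1) + v.1 (i, 2) * v.1 (i, 2) +
      v.1 (i, 3) * v.1 (i, 3)) := by
    rw [sq65]
    exact Finset.sum_congr rfl fun i _ => by ring
  rw [← h1]
  ext
  · rw [Quaternion.re_add, Quaternion.re_star]
    simp only [t65, qt65]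
    ring
  · rw [Quaternion.imI_add, Quaternion.imI_star]
    simp only [t65, qt65]
    ring
  · rw [Quaternion.imJ_add, Quaternion.imJ_star]
    simp only [t65, qt65]
    ring
  · rw [Quaternion.imK_add, Quaternion.imK_star]
    simp only [t65, qt65]
    ring

private theorem cont65 {m : ℕ} : Continuous fun v : Vm m => A65 (t65 v) (q65 v.1) := by
  have ht : Continuous fun v : Vm m => t65 v := by
    have h1 : (fun v : Vm m => t65 v) = fun v : Vm m => (sq v.1 / 2) • e165 + (v.2 0) • e265 +
        (v.2 1) • e365 + (v.2 2) • e465 := by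
      funext v
      exact qt65_eq _ _ _ _
    rw [h1]
    unfold sq
    fun_prop
  have hq : ∀ i, Continuous fun v : Vm m => q65 v.1 i := by
    intro i
    have h1 : (fun v : Vm m => q65 v.1 i) = fun v : Vm m => (v.1 (i, 0)) • e165 + (v.1 (i, 1)) • e265 +
        (v.1 (i, 2)) • e365 + (v.1 (i, 3)) • e465 := by
      funext v
      exact qt65_eq _ _ _ _
    rw [h1]
    fun_prop
  refine continuous_matrix fun r k => ?_
  rcases r with r | r
  · rcases k with k | k
    · refine Fin.cases ?_ (fun i => ?_) r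
      · refine Fin.cases ?_ (fun j => ?_) k
        · exact continuous_const.sub ht
        · exact (hq j).star
      · refine Fin.cases ?_ (fun j => ?_) k
        · exact (hq i).neg
        · exact continuous_const
    · refine Fin.cases ?_ (fun i => ?_) r
      · exact ht
      · exact hq i
  · rcases k with k | k
    · refine Fin.cases ?_ (fun j => ?_) k
      · exact ht.neg
      · exact (hq j).star
    · exact continuous_const.add ht

private theorem ent65 {m : ℕ} (g h : SpM m) : entM (g⁻¹ * h) = ((mtM g)ᴴ * Jm (eM m) * mtM h) (Sum.inr ()) (Sum.inr ()) := by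
  have hg : (mtM g)ᴴ * Jm (eM m) * mtM g = Jm (eM m) := g.2
  have h1 : mtM g * mtM (g⁻¹ * h) = mtM h := by
    have h2 : g * (g⁻¹ * h) = h := by group
    conv_rhs => rw [← h2]
    rfl
  have h3 : (mtM g)ᴴ * Jm (eM m) * mtM h = Jm (eM m) * mtM (g⁻¹ * h) := by
    rw [← h1, ← Matrix.mul_assoc, hg]
  rw [h3]
  unfold Jm entM
  rw [Matrix.diagonal_mul]
  have h2 : ((1 : ℝ) : Hq) = 1 := by norm_cast
  show _ = (((1 : ℝ)) : Hq) * _
  rw [h2, one_mul]

theorem exists_uM (m : ℕ) : ∃ uM : Vm m → SpM m, Continuous uM ∧ ∀ v v', ‖entM ((uM v)⁻¹ * uM v')‖ = nW (dv v v') := by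
  choose uM hM using fun v : Vm m => exists_of_mem (sgnM m) (mem65 (t65 v) (q65 v.1) (hyp65 v))
  refine ⟨uM, ?_, fun v v' => ?_⟩
  · rw [(isClosedEmbedding_val (sgnM m)).isInducing.continuous_iff]
    refine cont65.congr fun v => ?_
    exact (hM v).symm
  · rw [ent65]
    have h1 : mtM (uM v) = A65 (t65 v) (q65 v.1) := hM v
    have h2 : mtM (uM v') = A65 (t65 v') (q65 v'.1) := hM v'
    rw [h1, h2, key65]
    show ‖star (1 + t65 v) * (1 + t65 v') - star (t65 v) * t65 v' - ∑ i, star (q65 v.1 i) * q65 v'.1 i‖ = _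
    rw [sum65]
    have h3 : star (1 + t65 v) * (1 + t65 v') - star (t65 v) * t65 v' = 1 + star (t65 v) + t65 v' := by
      rw [star_add, star_one]
      noncomm_ring
    rw [h3]
    have h4 : 1 + star (t65 v) + t65 v' - qt65
        (∑ i : Fin m, (v.1 (i, 0) * v'.1 (i, 0) + v.1 (i, 1) * v'.1 (i, 1) + v.1 (i, 2) * v'.1 (i, 2) +
          v.1 (i, 3) * v'.1 (i, 3)))
        ((br v.1 v'.1) 0) ((br v.1 v'.1) 1) ((br v.1 v'.1) 2) =
        qt65 (1 + sq (dv v v').1 / 2) ((dv v v').2 0) ((dv v v').2 1) ((dv v v').2 2) := by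
      have h5 : sq (dv v v').1 = sq v.1 + sq v'.1 - 2 * ∑ i : Fin m, (v.1 (i, 0) * v'.1 (i, 0) +
          v.1 (i, 1) * v'.1 (i, 1) + v.1 (i, 2) * v'.1 (i, 2) + v.1 (i, 3) * v'.1 (i, 3)) := by
        rw [sq65, sq65, sq65, Finset.mul_sum, ← Finset.sum_add_distrib, ← Finset.sum_sub_distrib]
        refine Finset.sum_congr rfl fun i _ => ?_
        show (v'.1 (i, 0) - v.1 (i, 0)) ^ 2 + (v'.1 (i, 1) - v.1 (i, 1)) ^ 2 + (v'.1 (i, 2) - v.1 (i, 2)) ^ 2 +
          (v'.1 (i, 3) - v.1 (i, 3)) ^ 2 = _
        ring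
      have h6 : ∀ i, (dv v v').2 i = v'.2 i - v.2 i - (br v.1 v'.1) i := fun i => rfl
      rw [h5, h6, h6, h6]
      ext
      · rw [Quaternion.re_sub, Quaternion.re_add, Quaternion.re_add, Quaternion.re_star, Quaternion.re_one]
        simp only [t65, qt65]
        ring
      · rw [Quaternion.imI_sub, Quaternion.imI_add, Quaternion.imI_add, Quaternion.imI_star, Quaternion.imI_one]
        simp only [t65, qt65]
        ring
      · rw [Quaternion.imJ_sub, Quaternion.imJ_add, Quaternion.imJ_add, Quaternion.imJ_star, Quaternion.imJ_one]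
        simp only [t65, qt65]
        ring
      · rw [Quaternion.imK_sub, Quaternion.imK_add, Quaternion.imK_add, Quaternion.imK_star, Quaternion.imK_one]
        simp only [t65, qt65]
        ring
    rw [h4]
    unfold nW
    rw [← Real.sqrt_sq (norm_nonneg (qt65 _ _ _ _))]
    congr 1
    have h7 : ∀ x : Hq, ‖x‖ ^ 2 = x.re ^ 2 + x.imI ^ 2 + x.imJ ^ 2 + x.imK ^ 2 := by
      intro x
      rw [pow_two, ← Quaternion.normSq_eq_norm_mul_self, Quaternion.normSq_def']
    rw [h7, EuclideanSpace.norm_sq_eq, Fin.sum_univ_three]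
    simp only [qt65, Real.norm_eq_abs, sq_abs]
    ring

end Pool.Agent.Helper84.CH
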