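import Pool.Agent.Helper84.CH.LG1

/-!
# Project CH, block LG3: averages over the maximal compact subgroup

`exists_muKM`: Haar measure of the compact group `KM m` (`MeasureTheory.Measure.haar`, normalised; compact groups are unimodular: see `exists_muK` in `SPQ/C3a.lean`).
`radial_avg`. PROOF. `P g = ∫ p (g * k) dμ`, `Q h = ∫ q (h * k) dμ` (Bochner; continuous integrands on a compact space). Norms: `‖P g‖ ≤ √C`. Continuity: `continuous_of_dominated` (bounded by `√C`, finite measure). `⟪P g, Q h⟫ = ∫∫ ψ(k⁻¹ g⁻¹ h k') = Ψ(g⁻¹ h)`, `Ψ x = ∫∫ ψ(k x k')` (the measure is invariant under inversion: `IsInvInvariant` from two sided invariance and total mass one).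
`Ψ (k x k') = Ψ x` for `k, k' ∈ KM`. `F r = Ψ (aM m (log (r + √(r² - 1))))`: `cosh` of the argument is `r` for `r ≥ 1`, so `‖ent‖ = r`, and `Ψ g = F ‖entM g‖` by `kakM`, `ent_aM`, `one_le_entM`. `F` is continuous on `[1, ∞)` since `Ψ` is continuous (dominated convergence, `‖ψ‖ ≤ C`; `ψ x = ⟪p 1, q x⟫` is continuous).
-/

set_option autoImplicit false

open Matrix Topology MeasureTheory

namespace Pool.Agent.Helper84.CH

open Pool.Agent.Helper84.SPQ

noncomputable instance instMeasKM (m : ℕ) : MeasurableSpace (KM m) := borel _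

instance instBorelKM (m : ℕ) : BorelSpace (KM m) := ⟨rfl⟩

instance instCompactKM (m : ℕ) : CompactSpace (KM m) := isCompact_iff_compactSpace.1 (isCompact_KM m)

private theorem eq_of_left74 {G : Type*} [Group G] [TopologicalSpace G] [IsTopologicalGroup G]
    [CompactSpace G] [MeasurableSpace G] [BorelSpace G] (μ ν : Measure G) [IsProbabilityMeasure μ]
    [IsProbabilityMeasure ν] [μ.IsHaarMeasure] [ν.IsMulLeftInvariant] : ν = μ := by
  have h6 := Measure.isMulInvariant_eq_smul_of_compactSpace ν μ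
  have h7 := congrArg (fun m : Measure G => m Set.univ) h6
  simp only [measure_univ, Measure.smul_apply] at h7
  rw [h6]
  have h8 : Measure.haarScalarFactor ν μ = 1 := by
    have h9 : (1 : ENNReal) = (Measure.haarScalarFactor ν μ : ENNReal) := by
      rw [h7, ENNReal.smul_def, smul_eq_mul, mul_one]
    exact_mod_cast h9.symm
  rw [h8, one_smul]

theorem exists_muKM (m : ℕ) : ∃ μ : Measure (KM m), IsProbabilityMeasure μ ∧ μ.IsMulLeftInvariant ∧ μ.IsMulRightInvariant ∧ μ.IsInvInvariant := by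
  let μ : Measure (KM m) := Measure.haarMeasure (⊤ : TopologicalSpace.PositiveCompacts (KM m))
  have h1 : IsProbabilityMeasure μ := ⟨Measure.haarMeasure_self⟩
  have h2 : μ.IsMulLeftInvariant := inferInstance
  have h3 : μ.IsHaarMeasure := inferInstance
  have h4 : μ.IsMulRightInvariant := by
    refine ⟨fun g => ?_⟩
    have hm : Measurable fun x : KM m => x * g := (continuous_mul_const g).measurable
    have h4 : IsProbabilityMeasure (μ.map (· * g)) := Measure.isProbabilityMeasure_map hm.aemeasurable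
    have h5 : (μ.map (· * g)).IsMulLeftInvariant := inferInstance
    exact eq_of_left74 μ _
  refine ⟨μ, h1, h2, h4, ⟨?_⟩⟩
  have hm : Measurable fun x : KM m => x⁻¹ := continuous_inv.measurable
  have h5 : IsProbabilityMeasure μ.inv := Measure.isProbabilityMeasure_map hm.aemeasurable
  exact eq_of_left74 μ _

private theorem avg_cont74 {G K H : Type*} [TopologicalSpace G] [FirstCountableTopology G]
    [LocallyCompactSpace G] [TopologicalSpace K] [CompactSpace K] [MeasurableSpace K] [BorelSpace K]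
    [SecondCountableTopology K] [NormedAddCommGroup H] [NormedSpace ℝ H] (μ : Measure K)
    [IsProbabilityMeasure μ] {f : G → K → H} (hf : Continuous f.uncurry) :
    Continuous fun g => ∫ k, f g k ∂μ := by
  have h := continuous_parametric_integral_of_continuous (μ := μ) hf (isCompact_univ (X := K))
  simpa using h

private theorem int_cont74 {K H : Type*} [TopologicalSpace K] [CompactSpace K] [T2Space K]
    [MeasurableSpace K]
    [BorelSpace K] [SecondCountableTopology K] [NormedAddCommGroup H] (μ : Measure K)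
    [IsProbabilityMeasure μ] {f : K → H} (hf : Continuous f) : Integrable f μ := by
  have h := hf.continuousOn.integrableOn_compact (μ := μ) (isCompact_univ (X := K))
  rwa [integrableOn_univ] at h

theorem radial_avg {m : ℕ} (μ : Measure (KM m)) [IsProbabilityMeasure μ] [μ.IsMulLeftInvariant] [μ.IsMulRightInvariant] [μ.IsInvInvariant]
    {H : Type} [NormedAddCommGroup H] [InnerProductSpace ℂ H] [CompleteSpace H] {C : ℝ} {p q : SpM m → H} {ψ : SpM m → ℂ}
    (hp : Continuous p) (hq : Continuous q) (hpC : ∀ g, ‖p g‖ ^ 2 ≤ C) (hqC : ∀ g, ‖q g‖ ^ 2 ≤ C)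
    (hψ : ∀ g h, inner ℂ (p g) (q h) = ψ (g⁻¹ * h)) :
    ∃ (F : ℝ → ℂ) (P Q : SpM m → H), Continuous P ∧ Continuous Q ∧ (∀ g, ‖P g‖ ^ 2 ≤ C) ∧ (∀ g, ‖Q g‖ ^ 2 ≤ C) ∧
      ContinuousOn F (Set.Ici 1) ∧ (∀ g h, inner ℂ (P g) (Q h) = F ‖entM (g⁻¹ * h)‖) ∧
      ∀ g, F ‖entM g‖ = ∫ k : KM m, ∫ k' : KM m, ψ ((k : SpM m) * g * (k' : SpM m)) ∂μ ∂μ := by
  have hsc : SecondCountableTopology (KM m) := TopologicalSpace.Subtype.secondCountableTopology _
  have hC : 0 ≤ C := le_trans (sq_nonneg _) (hpC 1)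
  set Pp : SpM m → H := fun g => ∫ k : KM m, p (g * (k : SpM m)) ∂μ with hP
  set Qz : SpM m → H := fun g => ∫ k : KM m, q (g * (k : SpM m)) ∂μ with hQ
  set Ψ : SpM m → ℂ := fun g => ∫ k : KM m, ∫ k' : KM m, ψ ((k : SpM m) * g * (k' : SpM m)) ∂μ ∂μ
    with hΨ
  have cP : Continuous Pp := avg_cont74 μ (f := fun g (k : KM m) => p (g * (k : SpM m))) (by
    exact hp.comp (continuous_fst.mul (continuous_subtype_val.comp continuous_snd)))
  have cQ : Continuous Qz := avg_cont74 μ (f := fun g (k : KM m) => q (g * (k : SpM m))) (by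
    exact hq.comp (continuous_fst.mul (continuous_subtype_val.comp continuous_snd)))
  have ip : ∀ g, Integrable (fun k : KM m => p (g * (k : SpM m))) μ := fun g =>
    int_cont74 μ (hp.comp (continuous_const.mul continuous_subtype_val))
  have iq : ∀ g, Integrable (fun k : KM m => q (g * (k : SpM m))) μ := fun g =>
    int_cont74 μ (hq.comp (continuous_const.mul continuous_subtype_val))
  have hb : ∀ f : SpM m → H, (∀ g, ‖f g‖ ^ 2 ≤ C) → ∀ g, ‖∫ k : KM m, f (g * (k : SpM m)) ∂μ‖ ^ 2 ≤ C := by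
    intro f hf g
    have h1 : ‖∫ k : KM m, f (g * (k : SpM m)) ∂μ‖ ≤ √C * μ.real Set.univ :=
      norm_integral_le_of_norm_le_const (Filter.Eventually.of_forall fun k =>
        Real.le_sqrt_of_sq_le (hf _))
    rw [probReal_univ, mul_one] at h1
    calc ‖∫ k : KM m, f (g * (k : SpM m)) ∂μ‖ ^ 2 ≤ (√C) ^ 2 := by gcongr
      _ = C := Real.sq_sqrt hC
  have key : ∀ g h, inner ℂ (Pp g) (Qz h) = Ψ (g⁻¹ * h) := by
    intro g h
    have h1 : inner ℂ (Pp g) (Qz h) = ∫ k : KM m, inner ℂ (p (g * (k : SpM m))) (Qz h) ∂μ := by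
      have h2 := integral_inner (𝕜 := ℂ) (ip g) (Qz h)
      have h3 : inner ℂ (Pp g) (Qz h) = starRingEnd ℂ (inner ℂ (Qz h) (Pp g)) :=
        (inner_conj_symm _ _).symm
      rw [h3, ← h2, ← integral_conj]
      refine integral_congr_ae (Filter.Eventually.of_forall fun k => ?_)
      exact inner_conj_symm _ _
    have h2 : ∀ k : KM m, inner ℂ (p (g * (k : SpM m))) (Qz h)
        = ∫ k' : KM m, ψ ((k : SpM m)⁻¹ * (g⁻¹ * h) * (k' : SpM m)) ∂μ := by
      intro k
      rw [hQ, ← integral_inner (𝕜 := ℂ) (iq h)]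
      refine integral_congr_ae (Filter.Eventually.of_forall fun k' => ?_)
      change inner ℂ (p (g * (k : SpM m))) (q (h * (k' : SpM m))) = _
      rw [hψ]
      congr 1
      group
    rw [h1]
    simp only [h2]
    have h3 := integral_inv_eq_self (fun k : KM m => ∫ k' : KM m,
      ψ ((k : SpM m) * (g⁻¹ * h) * (k' : SpM m)) ∂μ) μ
    exact h3
  have cΨ : Continuous Ψ := by
    have h1 : Ψ = fun x => inner ℂ (Pp 1) (Qz x) := by
      funext x
      rw [key, inv_one, one_mul]
    rw [h1]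
    exact continuous_const.inner cQ
  have inv : ∀ (k k' : KM m) (x : SpM m), Ψ ((k : SpM m) * x * (k' : SpM m)) = Ψ x := by
    intro k0 k1 x
    have h1 : ∀ k : KM m, ∫ k' : KM m, ψ ((k : SpM m) * ((k0 : SpM m) * x * (k1 : SpM m)) * (k' : SpM m)) ∂μ
        = ∫ k' : KM m, ψ (((k * k0 : KM m) : SpM m) * x * (k' : SpM m)) ∂μ := by
      intro k
      have h2 := integral_mul_left_eq_self (μ := μ) (fun k' : KM m =>
        ψ (((k * k0 : KM m) : SpM m) * x * (k' : SpM m))) k1
      rw [← h2]
      refine integral_congr_ae (Filter.Eventually.of_forall fun k' => ?_)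
      change ψ _ = ψ _
      congr 1
      simp only [Subgroup.coe_mul]
      group
    rw [hΨ]
    simp only [h1]
    exact integral_mul_right_eq_self (μ := μ) (fun k : KM m => ∫ k' : KM m,
      ψ ((k : SpM m) * x * (k' : SpM m)) ∂μ) k0
  have hF : ∀ g, Ψ (aM m (Real.log (‖entM g‖ + √(‖entM g‖ ^ 2 - 1)))) = Ψ g := by
    intro g
    set r := ‖entM g‖ with hr
    have r1 : 1 ≤ r := one_le_entM g
    have hpos : 0 < r + √(r ^ 2 - 1) := by positivity
    have hs : (√(r ^ 2 - 1)) ^ 2 = r ^ 2 - 1 := Real.sq_sqrt (by nlinarith)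
    have h1 : Real.cosh (Real.log (r + √(r ^ 2 - 1))) = r := by
      rw [Real.cosh_log hpos]
      have h2 : (r + √(r ^ 2 - 1))⁻¹ = r - √(r ^ 2 - 1) := by
        apply inv_eq_of_mul_eq_one_right
        nlinarith
      rw [h2]
      ring
    have h2 : ‖entM g‖ = ‖entM (aM m (Real.log (r + √(r ^ 2 - 1))))‖ := by
      rw [ent_aM, h1]
    obtain ⟨k, hk, k', hk', h3⟩ := kakM h2
    rw [h3]
    exact inv ⟨k, hk⟩ ⟨k', hk'⟩ g
  refine ⟨fun r => Ψ (aM m (Real.log (r + √(r ^ 2 - 1)))), Pp, Qz, cP, cQ, hb p hpC, hb q hqC, ?_,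
    ?_, ?_⟩
  · refine cΨ.comp_continuousOn ((cont_aM m).comp_continuousOn ?_)
    refine ContinuousOn.log ?_ ?_
    · exact (continuous_id.add (Real.continuous_sqrt.comp ((continuous_id.pow 2).sub
        continuous_const))).continuousOn
    · intro r hr
      have : (1 : ℝ) ≤ r := hr
      positivity
  · intro g h
    rw [key]
    exact (hF _).symm
  · intro g
    exact hF g

end Pool.Agent.Helper84.CH
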