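import Pool.Agent.Helper84.CH.LG2
import Pool.Agent.Helper84.CH.LG3
import Pool.Agent.Helper84.CH.LA10

/-!
# Project CH, block LG4: the lower bound for `Sp(m + 1, 1)`

`lb_main`. PROOF. `lb_core` gives `R0, δ0, w`. Let `δ = min δ0 (δ0/(8 w + 8))`. Take `μ` (`exists_muKM`), `F, P, Q` (`radial_avg`), `uM` (`exists_uM`), and apply `lb_core` to `F`, `P ∘ uM`, `Q ∘ uM` (`⟪P (uM v), Q (uM v')⟫ = F ‖entM ((uM v)⁻¹ uM v')‖ = F (nW (dv v v'))`).
For `1 ≤ r ≤ R0`: `r = ‖entM (aM m t)‖` (`t = arcosh r`), `F r - 1 = ∫∫ (ψ(k (aM m t) k') - 1)`, `‖entM (k a k')‖ = r ≤ R0`: `‖F r - 1‖ ≤ δ ≤ δ0`.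
Window: `‖F (cosh t)‖ ≤ Θ t := ∫∫ ‖ψ(k (aM m t) k')‖`, `Θ` continuous, `0 ≤ Θ ≤ |C|` (`‖ψ x‖ = ‖⟪p 1, q x⟫‖ ≤ C`). Let `A_J = (1/J) ∫_0^τ ∑_(j<J) Θ(τ j + s) ds = (1/J) ∫_0^(τ J) Θ`. The functions `(k, k', s) ↦ (1/J) ∑_(j<J) ‖ψ(k (aM m (τ j + s)) k')‖` are measurable, bounded by `C`, and eventually `≤ δ` at each point of
`KM × KM × [0, τ]`: so `limsup A_J ≤ δ τ` (the bounded measurable functions `max(·, δ) - δ` tend to `0` pointwise: dominated convergence). So `∫_0^(τ J) Θ ≤ 2 δ τ J` for `J ≥ J0`. Suppose `∫_T^(T+w) ‖F(cosh t)‖ dt > δ0` for all `T ≥ T0 ≥ 0`: then `∫_0^(T0 + N w) Θ ≥ N δ0`; with `J = ⌈(T0 + N w)/τ⌉`: `N δ0 ≤ 2 δ τ J ≤ 2 δ (T0 + N w + τ)`,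
false for large `N` since `2 δ w ≤ δ0/4`.
-/

set_option autoImplicit false

open Matrix Topology MeasureTheory Filter

namespace Pool.Agent.Helper84.CH

open Pool.Agent.Helper84.SPQ

/-- averages of a bounded continuous function over windows -/
private theorem avg_window {X : Type*} [TopologicalSpace X] [MeasurableSpace X] [BorelSpace X]
    [SecondCountableTopology X] (ν : Measure X) [IsProbabilityMeasure ν] {f : X → ℝ → ℝ}
    (hf : Continuous (fun z : X × ℝ => f z.1 z.2)) {C δ τ : ℝ} (hC : ∀ x t, f x t ≤ C)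
    (h0 : ∀ x t, 0 ≤ f x t) (hC0 : 0 ≤ C) (hδ : 0 < δ) (hτ : 0 < τ)
    (hΘ : Continuous fun t => ∫ x, f x t ∂ν)
    (hev : ∀ x, ∀ s ∈ Set.Icc 0 τ, ∀ᶠ J : ℕ in atTop,
      ∑ j ∈ Finset.range J, f x (τ * j + s) ≤ δ * J) :
    ∀ᶠ J : ℕ in atTop, ∫ t in (0 : ℝ)..(τ * J), (∫ x, f x t ∂ν) ≤ 2 * δ * τ * J := by
  set ρ : Measure (X × ℝ) := ν.prod (volume.restrict (Set.Icc 0 τ)) with hρ
  have hρu : ρ.real Set.univ = τ := by
    rw [hρ, measureReal_def, Measure.prod_apply MeasurableSet.univ]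
    simp [hτ.le]
  have hfj : ∀ j : ℕ, Continuous fun z : X × ℝ => f z.1 (τ * j + z.2) := fun j =>
    hf.comp (continuous_fst.prodMk (continuous_const.add continuous_snd))
  have hg : ∀ J : ℕ, Continuous fun z : X × ℝ =>
      (J : ℝ)⁻¹ * ∑ j ∈ Finset.range J, f z.1 (τ * j + z.2) := fun J =>
    continuous_const.mul (continuous_finset_sum _ fun j _ => hfj j)
  have hg0 : ∀ (J : ℕ) (z : X × ℝ), 0 ≤ (J : ℝ)⁻¹ * ∑ j ∈ Finset.range J, f z.1 (τ * j + z.2) :=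
    fun J z => mul_nonneg (by positivity) (Finset.sum_nonneg fun j _ => h0 _ _)
  have hgC : ∀ (J : ℕ) (z : X × ℝ), (J : ℝ)⁻¹ * ∑ j ∈ Finset.range J, f z.1 (τ * j + z.2) ≤ C := by
    intro J z
    have h1 : ∑ j ∈ Finset.range J, f z.1 (τ * j + z.2) ≤ J * C := by
      calc ∑ j ∈ Finset.range J, f z.1 (τ * j + z.2) ≤ ∑ _j ∈ Finset.range J, C :=
            Finset.sum_le_sum fun j _ => hC _ _
        _ = J * C := by simp
    have h2 : (J : ℝ)⁻¹ * ((J : ℝ) * C) ≤ C := by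
      rcases Nat.eq_zero_or_pos J with h3 | h3
      · simp [h3, hC0]
      · rw [inv_mul_cancel_left₀ (by positivity)]
    exact (mul_le_mul_of_nonneg_left h1 (by positivity)).trans h2
  -- dominated convergence
  have hlim : Tendsto (fun J : ℕ => ∫ z, (max ((J : ℝ)⁻¹ *
      ∑ j ∈ Finset.range J, f z.1 (τ * j + z.2)) δ - δ) ∂ρ) atTop (𝓝 (∫ _z, (0 : ℝ) ∂ρ)) := by
    refine tendsto_integral_of_dominated_convergence (fun _ => C) ?_ (integrable_const C) ?_ ?_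
    · intro J
      exact (((hg J).max continuous_const).sub continuous_const).aestronglyMeasurable
    · intro J
      refine Eventually.of_forall fun z => ?_
      rw [Real.norm_eq_abs, abs_of_nonneg (sub_nonneg.2 (le_max_right _ _)), sub_le_iff_le_add]
      exact max_le ((hgC J z).trans (by linarith)) (by linarith)
    · have h1 : ∀ᵐ z ∂ρ, z.2 ∈ Set.Icc 0 τ := by
        have h2 : ∀ᵐ s ∂(volume.restrict (Set.Icc 0 τ) : Measure ℝ), s ∈ Set.Icc 0 τ :=
          ae_restrict_mem measurableSet_Icc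
        exact Measure.quasiMeasurePreserving_snd.ae h2
      filter_upwards [h1] with z hz
      refine tendsto_const_nhds.congr' ?_
      filter_upwards [hev z.1 z.2 hz, eventually_gt_atTop 0] with J hJ hJ0
      have hJ1 : (0 : ℝ) < J := by exact_mod_cast hJ0
      have h3 : (J : ℝ)⁻¹ * ∑ j ∈ Finset.range J, f z.1 (τ * j + z.2) ≤ δ := by
        rw [inv_mul_le_iff₀ hJ1]
        linarith
      rw [max_eq_right h3, sub_self]
  rw [integral_zero] at hlim
  have hlt := hlim.eventually (gt_mem_nhds (show (0 : ℝ) < δ * τ by positivity))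
  filter_upwards [hlt, eventually_gt_atTop 0] with J hJ hJ0
  have hJ1 : (0 : ℝ) < J := by exact_mod_cast hJ0
  have hint : ∀ u : X × ℝ → ℝ, Continuous u → (∀ z, ‖u z‖ ≤ C + 2 * δ) → Integrable u ρ := fun u hu hb =>
    (integrable_const (C + 2 * δ)).mono' hu.aestronglyMeasurable (Eventually.of_forall hb)
  -- the integral of the averages
  have h1 : ∫ z, ((J : ℝ)⁻¹ * ∑ j ∈ Finset.range J, f z.1 (τ * j + z.2)) ∂ρ ≤ 2 * δ * τ := by
    have h2 : ∫ z, ((J : ℝ)⁻¹ * ∑ j ∈ Finset.range J, f z.1 (τ * j + z.2)) ∂ρ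
        ≤ ∫ z, ((max ((J : ℝ)⁻¹ * ∑ j ∈ Finset.range J, f z.1 (τ * j + z.2)) δ - δ) + δ) ∂ρ := by
      refine integral_mono (hint _ (hg J) fun z => ?_) (hint _ ?_ fun z => ?_) fun z => ?_
      · rw [Real.norm_eq_abs, abs_of_nonneg (hg0 J z)]
        have := hgC J z
        linarith
      · exact (((hg J).max continuous_const).sub continuous_const).add continuous_const
      · rw [sub_add_cancel, Real.norm_eq_abs, abs_of_nonneg (hδ.le.trans (le_max_right _ _))]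
        have := hgC J z
        exact max_le (by linarith) (by linarith)
      · show _ ≤ _
        rw [sub_add_cancel]
        exact le_max_left _ _
    have h3 : ∫ z, ((max ((J : ℝ)⁻¹ * ∑ j ∈ Finset.range J, f z.1 (τ * j + z.2)) δ - δ) + δ) ∂ρ
        = (∫ z, (max ((J : ℝ)⁻¹ * ∑ j ∈ Finset.range J, f z.1 (τ * j + z.2)) δ - δ) ∂ρ)
          + δ * τ := by
      rw [integral_add ?_ (integrable_const δ), integral_const, hρu, smul_eq_mul, mul_comm τ δ]
      refine hint _ (((hg J).max continuous_const).sub continuous_const) fun z => ?_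
      rw [Real.norm_eq_abs, abs_of_nonneg (sub_nonneg.2 (le_max_right _ _)), sub_le_iff_le_add]
      have := hgC J z
      exact max_le (by linarith) (by linarith)
    rw [h3] at h2
    linarith
  -- the same as an integral over a long interval
  have h2 : ∫ z, ((J : ℝ)⁻¹ * ∑ j ∈ Finset.range J, f z.1 (τ * j + z.2)) ∂ρ
      = (J : ℝ)⁻¹ * ∫ t in (0 : ℝ)..(τ * J), (∫ x, f x t ∂ν) := by
    have hfjint : ∀ j : ℕ, Integrable (fun z : X × ℝ => f z.1 (τ * j + z.2)) ρ := fun j =>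
      hint _ (hfj j) fun z => by
        rw [Real.norm_eq_abs, abs_of_nonneg (h0 _ _)]
        have := hC z.1 (τ * j + z.2)
        linarith
    rw [integral_const_mul, integral_finset_sum _ fun j _ => hfjint j]
    congr 1
    have h3 : ∀ j : ℕ, ∫ z, f z.1 (τ * j + z.2) ∂ρ
        = ∫ t in (τ * (j : ℕ))..(τ * ((j + 1 : ℕ) : ℝ)), (∫ x, f x t ∂ν) := by
      intro j
      rw [hρ, integral_prod_symm _ (hfjint j), integral_Icc_eq_integral_Ioc,
        ← intervalIntegral.integral_of_le hτ.le,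
        intervalIntegral.integral_comp_add_left (fun t => ∫ x, f x t ∂ν) (τ * j)]
      congr 1
      · ring
      · push_cast; ring
    rw [Finset.sum_congr rfl fun j _ => h3 j]
    have h4 := intervalIntegral.sum_integral_adjacent_intervals (μ := volume)
      (f := fun t => ∫ x, f x t ∂ν) (a := fun j : ℕ => τ * (j : ℝ)) (n := J)
      (fun j _ => hΘ.intervalIntegrable _ _)
    rw [h4]
    simp
  rw [h2, inv_mul_le_iff₀ hJ1] at h1
  linarith

/-- windows with a small integral -/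
private theorem exists_window {X : Type*} [TopologicalSpace X] [MeasurableSpace X] [BorelSpace X]
    [SecondCountableTopology X] (ν : Measure X) [IsProbabilityMeasure ν] {f : X → ℝ → ℝ} {Φ : ℝ → ℝ}
    (hf : Continuous (fun z : X × ℝ => f z.1 z.2)) {C δ δ0 w τ : ℝ} (hC : ∀ x t, f x t ≤ C)
    (h0 : ∀ x t, 0 ≤ f x t) (hC0 : 0 ≤ C) (hδpos : 0 < δ) (hδ0 : 0 < δ0) (hw : 0 < w)
    (hδ2 : δ * (8 * w + 8) ≤ δ0) (hτ : 0 < τ) (hFc : Continuous Φ)
    (hFΘ : ∀ t, Φ t ≤ ∫ x, f x t ∂ν)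
    (hev : ∀ x, ∀ s ∈ Set.Icc 0 τ, ∀ᶠ J : ℕ in atTop,
      ∑ j ∈ Finset.range J, f x (τ * j + s) ≤ δ * J) :
    ∀ T0 : ℝ, ∃ T : ℝ, T0 ≤ T ∧ ∫ t in T..(T + w), Φ t ≤ δ0 := by
  have hΘc : Continuous fun t => ∫ x, f x t ∂ν := by
    refine continuous_of_dominated (bound := fun _ => C) ?_ ?_ (integrable_const C) ?_
    · intro t
      exact (hf.comp (continuous_id.prodMk continuous_const)).aestronglyMeasurable
    · intro t
      refine Eventually.of_forall fun x => ?_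
      rw [Real.norm_eq_abs, abs_of_nonneg (h0 _ _)]
      exact hC x t
    · refine Eventually.of_forall fun x => ?_
      exact hf.comp (continuous_const.prodMk continuous_id)
  have hΘ0 : ∀ t, 0 ≤ ∫ x, f x t ∂ν := fun t => integral_nonneg fun x => h0 _ _
  have hav := avg_window ν hf hC h0 hC0 hδpos hτ hΘc hev
  obtain ⟨J0, hJ0⟩ := eventually_atTop.1 hav
  obtain ⟨Θ, hΘe⟩ : ∃ Θ : ℝ → ℝ, ∀ t, ∫ x, f x t ∂ν = Θ t := ⟨_, fun _ => rfl⟩
  simp only [hΘe] at hΘc hΘ0 hFΘ hJ0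
  clear hav
  intro T0
  by_contra hcon
  push Not at hcon
  set T1 := max T0 0 with hT1
  have hT10 : 0 ≤ T1 := le_max_right _ _
  -- the lower bound
  have hlow : ∀ N : ℕ, N * δ0 ≤ ∫ t in T1..(T1 + N * w), Θ t := by
    intro N
    induction N with
    | zero => simp
    | succ N ih =>
      have h1 := hcon (T1 + N * w) ((le_max_left T0 0).trans (by
        have : 0 ≤ (N : ℝ) * w := by positivity
        linarith))
      have h2 : ∫ t in (T1 + N * w)..(T1 + N * w + w), Φ t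
          ≤ ∫ t in (T1 + N * w)..(T1 + N * w + w), Θ t :=
        intervalIntegral.integral_mono_on (by linarith) (hFc.intervalIntegrable _ _)
          (hΘc.intervalIntegrable _ _) fun t _ => hFΘ t
      have h3 := intervalIntegral.integral_add_adjacent_intervals
        (hΘc.intervalIntegrable (μ := volume) T1 (T1 + N * w))
        (hΘc.intervalIntegrable (T1 + N * w) (T1 + N * w + w))
      have h4 : T1 + ((N + 1 : ℕ) : ℝ) * w = T1 + N * w + w := by push_cast; ring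
      rw [h4, ← h3]
      push_cast
      linarith
  obtain ⟨N, hN⟩ := exists_nat_gt (max (J0 * τ / w) (4 * δ * (T1 + τ) / δ0))
  have hN1 : J0 * τ < N * w := by
    have := (le_max_left _ _).trans_lt hN
    rwa [div_lt_iff₀ hw] at this
  have hN2 : 4 * δ * (T1 + τ) < N * δ0 := by
    have := (le_max_right _ _).trans_lt hN
    rwa [div_lt_iff₀ hδ0] at this
  set J := ⌈(T1 + N * w) / τ⌉₊ with hJ
  have hJge : T1 + N * w ≤ τ * J := by
    have := Nat.le_ceil ((T1 + N * w) / τ)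
    rw [div_le_iff₀ hτ] at this
    linarith
  have hTN : 0 ≤ T1 + N * w := by positivity
  have hJle : τ * J ≤ T1 + N * w + τ := by
    have := Nat.ceil_lt_add_one (div_nonneg hTN hτ.le)
    have h2 : (J : ℝ) * τ < ((T1 + N * w) / τ + 1) * τ := by
      exact mul_lt_mul_of_pos_right this hτ
    rw [add_mul, div_mul_cancel₀ _ hτ.ne', one_mul] at h2
    linarith
  have hJJ : J0 ≤ J := by
    have h1 : (J0 : ℝ) * τ ≤ J * τ := by linarith
    have h2 : (J0 : ℝ) ≤ J := le_of_mul_le_mul_right h1 hτ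
    exact_mod_cast h2
  have h1 := hJ0 J hJJ
  have h2 : ∫ t in T1..(T1 + N * w), Θ t ≤ ∫ t in (0 : ℝ)..(τ * J), Θ t := by
    refine intervalIntegral.integral_mono_interval hT10 (by
      have : 0 ≤ (N : ℝ) * w := by positivity
      linarith) hJge (Eventually.of_forall fun t => hΘ0 t) (hΘc.intervalIntegrable _ _)
  have h3 := hlow N
  have h4 : 2 * δ * τ * J ≤ 2 * δ * (T1 + N * w + τ) := by
    have : 0 ≤ 2 * δ := by positivity
    nlinarith
  have h5 : 2 * δ * (N * w) ≤ N * δ0 / 4 := by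
    have h6 : 8 * (δ * w) ≤ δ0 := by nlinarith
    have h7 : (0 : ℝ) ≤ N := by positivity
    nlinarith
  have h8 : 0 < δ * (T1 + τ) := by positivity
  nlinarith

private instance instSCKM_LG4 (m : ℕ) : SecondCountableTopology (KM m) :=
  TopologicalSpace.Subtype.secondCountableTopology (KM m : Set (SpM m))

private instance instBorelKM2_LG4 (m : ℕ) : BorelSpace (KM m × KM m) := Prod.borelSpace

private theorem cont_kak (m : ℕ) : Continuous fun z : (KM m × KM m) × ℝ =>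
    (z.1.1 : SpM m) * aM m z.2 * (z.1.2 : SpM m) :=
  ((continuous_subtype_val.comp (continuous_fst.comp continuous_fst)).mul
    ((cont_aM m).comp continuous_snd)).mul
    (continuous_subtype_val.comp (continuous_snd.comp continuous_fst))

private theorem cont_psi {m : ℕ} {ψ : SpM m → ℂ} (hψc : Continuous ψ) :
    Continuous fun z : (KM m × KM m) × ℝ => ψ ((z.1.1 : SpM m) * aM m z.2 * (z.1.2 : SpM m)) :=
  hψc.comp (cont_kak m)

private theorem cont_kak' (m : ℕ) (t : ℝ) : Continuous fun x : KM m × KM m =>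
    (x.1 : SpM m) * aM m t * (x.2 : SpM m) :=
  ((continuous_subtype_val.comp continuous_fst).mul continuous_const).mul
    (continuous_subtype_val.comp continuous_snd)

private theorem cont_psi' {m : ℕ} {ψ : SpM m → ℂ} (hψc : Continuous ψ) (t : ℝ) :
    Continuous fun x : KM m × KM m => ψ ((x.1 : SpM m) * aM m t * (x.2 : SpM m)) :=
  hψc.comp (cont_kak' m t)

private theorem int_psi {m : ℕ} (μ : Measure (KM m)) [IsProbabilityMeasure μ] {ψ : SpM m → ℂ}
    (hψc : Continuous ψ) {C : ℝ} (hψC : ∀ x, ‖ψ x‖ ≤ C) (t : ℝ) :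
    Integrable (fun x : KM m × KM m => ψ ((x.1 : SpM m) * aM m t * (x.2 : SpM m))) (μ.prod μ) :=
  (integrable_const C).mono' (cont_psi' hψc t).aestronglyMeasurable
    (Eventually.of_forall fun x => hψC _)

private theorem F_cosh {m : ℕ} (μ : Measure (KM m)) [IsProbabilityMeasure μ] {ψ : SpM m → ℂ}
    (hψc : Continuous ψ) {C : ℝ} (hψC : ∀ x, ‖ψ x‖ ≤ C) {F : ℝ → ℂ}
    (hFe : ∀ g, F ‖entM g‖ = ∫ k : KM m, ∫ k' : KM m, ψ ((k : SpM m) * g * (k' : SpM m)) ∂μ ∂μ)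
    (t : ℝ) : F (Real.cosh t)
      = ∫ x : KM m × KM m, ψ ((x.1 : SpM m) * aM m t * (x.2 : SpM m)) ∂(μ.prod μ) := by
  rw [← ent_aM m t, hFe, integral_prod _ (int_psi μ hψc hψC t)]


/-- the norms on `(K × K) × ℝ` -/
private noncomputable def fK {m : ℕ} (ψ : SpM m → ℂ) (x : KM m × KM m) (t : ℝ) : ℝ :=
  ‖ψ ((x.1 : SpM m) * aM m t * (x.2 : SpM m))‖

private theorem cont_fK {m : ℕ} {ψ : SpM m → ℂ} (hψc : Continuous ψ) :
    Continuous fun z : (KM m × KM m) × ℝ => fK ψ z.1 z.2 :=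
  (cont_psi hψc).norm

private theorem norm_F_cosh_le {m : ℕ} (μ : Measure (KM m)) [IsProbabilityMeasure μ]
    {ψ : SpM m → ℂ} (hψc : Continuous ψ) {C : ℝ} (hψC : ∀ x, ‖ψ x‖ ≤ C) {F : ℝ → ℂ}
    (hFe : ∀ g, F ‖entM g‖ = ∫ k : KM m, ∫ k' : KM m, ψ ((k : SpM m) * g * (k' : SpM m)) ∂μ ∂μ)
    (t : ℝ) : ‖F (Real.cosh t)‖ ≤ ∫ x, fK ψ x t ∂(μ.prod μ) := by
  rw [F_cosh μ hψc hψC hFe]
  exact norm_integral_le_integral_norm _

private theorem F_near_one {m : ℕ} (μ : Measure (KM m)) [IsProbabilityMeasure μ]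
    {ψ : SpM m → ℂ} (hψc : Continuous ψ) {C : ℝ} (hψC : ∀ x, ‖ψ x‖ ≤ C) {F : ℝ → ℂ}
    (hFe : ∀ g, F ‖entM g‖ = ∫ k : KM m, ∫ k' : KM m, ψ ((k : SpM m) * g * (k' : SpM m)) ∂μ ∂μ)
    {R0 δ : ℝ} (hnear : ∀ g, ‖entM g‖ ≤ R0 → ‖ψ g - 1‖ ≤ δ) (t : ℝ) (ht : Real.cosh t ≤ R0) :
    ‖F (Real.cosh t) - 1‖ ≤ δ := by
  rw [F_cosh μ hψc hψC hFe]
  have h1 : (1 : ℂ) = ∫ _x : KM m × KM m, (1 : ℂ) ∂(μ.prod μ) := by simp
  rw [h1, ← integral_sub (int_psi μ hψc hψC t) (integrable_const 1)]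
  have h2 : ∀ x : KM m × KM m, ‖ψ ((x.1 : SpM m) * aM m t * (x.2 : SpM m)) - 1‖ ≤ δ := by
    intro x
    apply hnear
    rw [ent_mul_KM x.2.2, ent_KM_mul x.1.2, ent_aM]
    exact ht
  have h3 := norm_integral_le_of_norm_le_const (μ := μ.prod μ) (Eventually.of_forall h2)
  simpa using h3

theorem lb_main {m : ℕ} (hm : 1 ≤ m) {C τ : ℝ} (hC : C < 2 * m + 1) (hτ : 0 < τ) : ∃ R0 δ : ℝ, 1 ≤ R0 ∧ 0 < δ ∧
    ∀ (H : Type) [NormedAddCommGroup H] [InnerProductSpace ℂ H] [CompleteSpace H] (p q : SpM m → H) (ψ : SpM m → ℂ),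
      Continuous p → Continuous q → (∀ g, ‖p g‖ ^ 2 ≤ C) → (∀ g, ‖q g‖ ^ 2 ≤ C) → (∀ g h, inner ℂ (p g) (q h) = ψ (g⁻¹ * h)) →
      (∀ g, ‖entM g‖ ≤ R0 → ‖ψ g - 1‖ ≤ δ) →
      (∀ k ∈ KM m, ∀ k' ∈ KM m, ∀ s ∈ Set.Icc 0 τ, ∀ᶠ J : ℕ in atTop,
        ∑ j ∈ Finset.range J, ‖ψ (k * aM m (τ * j + s) * k')‖ ≤ δ * J) → False := by
  obtain ⟨R0, δ0, w, hR0, hδ0, hw, hcore⟩ := lb_core hm hC
  have hδpos : 0 < min δ0 (δ0 / (8 * w + 8)) := lt_min hδ0 (by positivity)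
  refine ⟨R0, min δ0 (δ0 / (8 * w + 8)), hR0, hδpos, ?_⟩
  intro H _ _ _ p q ψ hp hq hpC hqC hψ hnear hwin
  obtain ⟨δ, hδ⟩ : ∃ δ, δ = min δ0 (δ0 / (8 * w + 8)) := ⟨_, rfl⟩
  rw [← hδ] at hδpos hnear hwin
  have hδ1 : δ ≤ δ0 := hδ ▸ min_le_left _ _
  have hδ2 : δ * (8 * w + 8) ≤ δ0 := by
    have := hδ ▸ min_le_right δ0 (δ0 / (8 * w + 8))
    rwa [le_div_iff₀ (by positivity)] at this
  obtain ⟨μ, hμ1, hμ2, hμ3, hμ4⟩ := exists_muKM m
  obtain ⟨F, P, Q, hP, hQ, hPC, hQC, hF, hPQ, hFe⟩ := radial_avg μ hp hq hpC hqC hψ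
  obtain ⟨uM, huc, hue⟩ := exists_uM m
  -- the function `ψ`
  have hψe : ∀ x, ψ x = inner ℂ (p 1) (q x) := by
    intro x
    rw [hψ, inv_one, one_mul]
  have hψc : Continuous ψ := by
    have : Continuous fun x => (inner ℂ (p 1) (q x) : ℂ) := continuous_const.inner hq
    exact this.congr fun x => (hψe x).symm
  have hψC : ∀ x, ‖ψ x‖ ≤ C := by
    intro x
    rw [hψe]
    have h1 := norm_inner_le_norm (𝕜 := ℂ) (p 1) (q x)
    have h2 := hpC 1
    have h3 := hqC x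
    nlinarith [sq_nonneg (‖p 1‖ - ‖q x‖)]
  have hC0 : 0 ≤ C := (norm_nonneg _).trans (hψC 1)
  refine hcore H F (P ∘ uM) (Q ∘ uM) (hP.comp huc) (hQ.comp huc) (fun v => hPC _) (fun v => hQC _)
    hF ?_ ?_ ?_
  · intro v v'
    show inner ℂ (P (uM v)) (Q (uM v')) = _
    rw [hPQ, hue]
  · intro r hr1 hr2
    have ht := Real.cosh_arcosh hr1
    have h1 := F_near_one μ hψc hψC hFe hnear (Real.arcosh r) (by rw [ht]; exact hr2)
    rw [ht] at h1
    exact h1.trans hδ1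
  · have hFc : Continuous fun t => ‖F (Real.cosh t)‖ :=
      (hF.comp_continuous Real.continuous_cosh fun t => Real.one_le_cosh t).norm
    exact exists_window (μ.prod μ) (cont_fK hψc) (fun x t => hψC _) (fun x t => norm_nonneg _)
      hC0 hδpos hδ0 hw hδ2 hτ hFc (fun t => norm_F_cosh_le μ hψc hψC hFe t)
      (fun x s hs => hwin x.1 x.1.2 x.2 x.2.2 s hs)

end Pool.Agent.Helper84.CH
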