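import Pool.Agent.Helper84.SPQ.D0
import Pool.Agent.Helper66.RK.StmtDef

/-!
# Project CH, block M1: complex matrices of quaternionic matrices

`exists_cpx`. PROOF. A quaternion `h = ⟨a, b, c, d⟩ = a + b i + c j + d k` is written `z + w j`, `z = a + b i`, `w = c + d i`; `A = Z + W j` for quaternionic matrices (`Z`, `W` complex matrices, entrywise); `κ0 A = fromBlocks Z W (-conj W) (conj Z)` in `Matrix (n ⊕ n) (n ⊕ n) ℂ`, `n = Fin p ⊕ Fin q`, multiplicative (`j z = conj z j`, `j j = -1`), `κ0 Aᴴ = (κ0 A)ᴴ`, `κ0 (Jm e) = diagonal (Sum.elim e e)`.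
Then reindex with a bijection `E : n ⊕ n ≃ Fin (2 * (p + q))` which maps the indices `inl (inl i)`, `inr (inl i)` (sign `+1`) onto the first `2 p` indices: for example `n ⊕ n ≃ (Fin p ⊕ Fin p) ⊕ (Fin q ⊕ Fin q) ≃ Fin (p + p) ⊕ Fin (q + q) ≃ Fin ((p + p) + (q + q))` (`finSumFinEquiv`, `Equiv.sumSumSumComm`, `finCongr`). `form N p = diagonal (if i < p then 1 else -1)` (`Helper66/RK/StmtDef.lean`).
`j = ` the reindexed matrix `fromBlocks 0 1 (-1) 0` (check: `fromBlocks Z W (-conj W) (conj Z) * fromBlocks 0 1 (-1) 0 = fromBlocks (-W) Z (-conj Z) (-conj W)`, `fromBlocks 0 1 (-1) 0 * conj (..) = fromBlocks (-W) Z (-conj Z) (-conj W)`). The norm: `‖A a b‖ ^ 2 = ‖Z a b‖ ^ 2 + ‖W a b‖ ^ 2 ≤ 2 R ^ 2`.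
-/

set_option autoImplicit false

open Filter Topology Matrix

namespace Pool.Agent.Helper84.CH

open Pool.Agent.Helper84.SPQ Pool.Agent.Helper66.RKS

/-- the part `a + b i` -/
private def Zc74 : Hq →+ ℂ where
  toFun h := ⟨h.re, h.imI⟩
  map_zero' := rfl
  map_add' _ _ := rfl

/-- the part `c + d i` -/
private def Wc74 : Hq →+ ℂ where
  toFun h := ⟨h.imJ, h.imK⟩
  map_zero' := rfl
  map_add' _ _ := rfl

private theorem Zre74 (h : Hq) : (Zc74 h).re = h.re := rfl
private theorem Zim74 (h : Hq) : (Zc74 h).im = h.imI := rfl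
private theorem Wre74 (h : Hq) : (Wc74 h).re = h.imJ := rfl
private theorem Wim74 (h : Hq) : (Wc74 h).im = h.imK := rfl

private theorem Zc_mul74 (h k : Hq) :
    Zc74 (h * k) = Zc74 h * Zc74 k + Wc74 h * (-(starRingEnd ℂ (Wc74 k))) := by
  apply Complex.ext <;> simp [Zre74, Zim74, Wre74, Wim74] <;> ring

private theorem Wc_mul74 (h k : Hq) :
    Wc74 (h * k) = Zc74 h * Wc74 k + Wc74 h * starRingEnd ℂ (Zc74 k) := by
  apply Complex.ext <;> simp [Zre74, Zim74, Wre74, Wim74] <;> ring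

private theorem Zc_star74 (h : Hq) : Zc74 (star h) = starRingEnd ℂ (Zc74 h) := by
  apply Complex.ext <;> simp [Zre74, Zim74]

private theorem Wc_star74 (h : Hq) : Wc74 (star h) = -Wc74 h := by
  apply Complex.ext <;> simp [Wre74, Wim74]

private theorem Zc_real74 (r : ℝ) : Zc74 (r : Hq) = r := by
  apply Complex.ext <;> simp [Zre74, Zim74]

private theorem Wc_real74 (r : ℝ) : Wc74 (r : Hq) = 0 := by
  apply Complex.ext <;> simp [Wre74, Wim74]

private theorem norm_Hq74 (h : Hq) : ‖h‖ ^ 2 = ‖Zc74 h‖ ^ 2 + ‖Wc74 h‖ ^ 2 := by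
  have h1 : ‖h‖ ^ 2 = Quaternion.normSq h := by
    rw [Quaternion.normSq_eq_norm_mul_self, sq]
  rw [h1, Quaternion.normSq_def', ← Complex.normSq_eq_norm_sq, ← Complex.normSq_eq_norm_sq,
    Complex.normSq_apply, Complex.normSq_apply]
  simp only [Zre74, Zim74, Wre74, Wim74]
  ring

section

set_option linter.unusedSectionVars false

variable {n : Type} [Fintype n] [DecidableEq n]

/-- the complex matrix of a quaternionic matrix -/
private def k074 (A : MH n) : Matrix (n ⊕ n) (n ⊕ n) ℂ :=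
  fromBlocks (A.map Zc74) (A.map Wc74) (A.map fun h => -(starRingEnd ℂ (Wc74 h)))
    (A.map fun h => starRingEnd ℂ (Zc74 h))

/-- the structure -/
private def j074 : Matrix (n ⊕ n) (n ⊕ n) ℂ := fromBlocks 0 1 (-1) 0

private theorem k0_mul74 (A B : MH n) : k074 (A * B) = k074 A * k074 B := by
  unfold k074
  rw [fromBlocks_multiply]
  congr 1
  · ext a b
    simp only [Matrix.map_apply, Matrix.mul_apply, Matrix.add_apply, map_sum, Zc_mul74]
    rw [← Finset.sum_add_distrib]
  · ext a b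
    simp only [Matrix.map_apply, Matrix.mul_apply, Matrix.add_apply, map_sum, Wc_mul74]
    rw [← Finset.sum_add_distrib]
  · ext a b
    simp only [Matrix.map_apply, Matrix.mul_apply, Matrix.add_apply, map_sum, Wc_mul74]
    rw [← Finset.sum_add_distrib, ← Finset.sum_neg_distrib]
    refine Finset.sum_congr rfl fun c _ => ?_
    simp only [map_add, map_mul, Complex.conj_conj]
    ring
  · ext a b
    simp only [Matrix.map_apply, Matrix.mul_apply, Matrix.add_apply, map_sum, Zc_mul74]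
    rw [← Finset.sum_add_distrib]
    refine Finset.sum_congr rfl fun c _ => ?_
    simp only [map_add, map_mul, map_neg, Complex.conj_conj]
    ring

private theorem k0_neg74 (A : MH n) : k074 (-A) = -k074 A := by
  unfold k074
  rw [fromBlocks_neg]
  congr 1

private theorem k0_star74 (A : MH n) : k074 Aᴴ = (k074 A)ᴴ := by
  unfold k074
  rw [fromBlocks_conjTranspose]
  congr 1 <;> ext a b <;>
    simp only [Matrix.map_apply, Matrix.conjTranspose_apply, Zc_star74, Wc_star74, map_neg,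
      neg_neg, RCLike.star_def, Complex.conj_conj]

private theorem k0_real74 (e : n → ℝ) :
    k074 (Jm e) = diagonal (Sum.elim (fun i => (e i : ℂ)) fun i => (e i : ℂ)) := by
  unfold k074
  rw [← fromBlocks_diagonal]
  congr 1
  · ext a b
    by_cases h : a = b
    · subst h
      simp [Jm, Zc_real74]
    · simp [Jm, h]
  · ext a b
    by_cases h : a = b
    · subst h
      simp [Jm, Wc_real74]
    · simp [Jm, h]
  · ext a b
    by_cases h : a = b
    · subst h
      simp [Jm, Wc_real74]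
    · simp [Jm, h]
  · ext a b
    by_cases h : a = b
    · subst h
      simp [Jm, Zc_real74]
    · simp [Jm, h]

private theorem k0_one74 : k074 (1 : MH n) = 1 := by
  have h : (1 : MH n) = Jm fun _ => 1 := by
    unfold Jm
    rw [← diagonal_one]
    congr 1
  rw [h, k0_real74]
  ext a b
  by_cases h : a = b
  · subst h
    rcases a with a | a <;> simp
  · rw [diagonal_apply_ne _ h, Matrix.one_apply_ne h]

private theorem j0_star74 : (j074 : Matrix (n ⊕ n) (n ⊕ n) ℂ)ᴴ * j074 = 1 := by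
  unfold j074
  rw [fromBlocks_conjTranspose, fromBlocks_multiply, ← fromBlocks_one]
  congr 1 <;> simp

private theorem j0_tr74 : (j074 : Matrix (n ⊕ n) (n ⊕ n) ℂ)ᵀ = -j074 := by
  unfold j074
  rw [fromBlocks_transpose, fromBlocks_neg]
  congr 1 <;> simp

private theorem k0_j74 (A : MH n) : k074 A * j074 = j074 * (k074 A)ᴴᵀ := by
  unfold k074 j074
  rw [fromBlocks_conjTranspose, fromBlocks_transpose, fromBlocks_multiply, fromBlocks_multiply]
  congr 1
  · ext a b
    simp
  · ext a b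
    simp
  · ext a b
    simp
  · ext a b
    simp

end

/-- the numbering of the indices -/
private def E74 (p q : ℕ) : (Fin p ⊕ Fin q) ⊕ (Fin p ⊕ Fin q) ≃ Fin (2 * (p + q)) :=
  (Equiv.sumSumSumComm (Fin p) (Fin q) (Fin p) (Fin q)).trans
    (((Equiv.sumCongr finSumFinEquiv finSumFinEquiv).trans finSumFinEquiv).trans
      (finCongr (by ring)))

private theorem E_lt74 (p q : ℕ) (x : (Fin p ⊕ Fin q) ⊕ (Fin p ⊕ Fin q)) :
    (if ((E74 p q x : Fin (2 * (p + q))) : ℕ) < 2 * p then (1 : ℂ) else -1)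
      = Sum.elim (fun i => (epq p q i : ℂ)) (fun i => (epq p q i : ℂ)) x := by
  rcases x with (i | i) | (i | i)
  · have h : ((E74 p q (Sum.inl (Sum.inl i)) : Fin (2 * (p + q))) : ℕ) = i := by
      simp [E74]
    rw [h, if_pos (by omega)]
    simp [epq]
  · have h : ((E74 p q (Sum.inl (Sum.inr i)) : Fin (2 * (p + q))) : ℕ) = p + p + i := by
      simp [E74]
    rw [h, if_neg (by omega)]
    simp [epq]
  · have h : ((E74 p q (Sum.inr (Sum.inl i)) : Fin (2 * (p + q))) : ℕ) = p + i := by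
      simp [E74]
      omega
    rw [h, if_pos (by omega)]
    simp [epq]
  · have h : ((E74 p q (Sum.inr (Sum.inr i)) : Fin (2 * (p + q))) : ℕ) = p + p + (q + i) := by
      simp [E74]
      omega
    rw [h, if_neg (by omega)]
    simp [epq]

theorem exists_cpx (p q : ℕ) : ∃ (κ : MH (Fin p ⊕ Fin q) → Matrix (Fin (2 * (p + q))) (Fin (2 * (p + q))) ℂ)
    (j : Matrix (Fin (2 * (p + q))) (Fin (2 * (p + q))) ℂ),
    κ 1 = 1 ∧ (∀ A B, κ (A * B) = κ A * κ B) ∧ (∀ A, κ (-A) = -κ A) ∧ (∀ A, κ Aᴴ = (κ A)ᴴ) ∧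
    κ (Jm (epq p q)) = form (2 * (p + q)) (2 * p) ∧ jᴴ * j = 1 ∧ jᵀ = -j ∧ (∀ A, κ A * j = j * (κ A)ᴴᵀ) ∧
    form (2 * (p + q)) (2 * p) * j = j * form (2 * (p + q)) (2 * p) ∧
    ∀ (R : ℝ) (A : MH (Fin p ⊕ Fin q)), (∀ a b, ‖κ A a b‖ ≤ R) → ∀ a b, ‖A a b‖ ≤ 2 * R := by
  set E := E74 p q with hE
  have hJ : (k074 (Jm (epq p q))).submatrix E.symm E.symm = form (2 * (p + q)) (2 * p) := by
    ext a b
    obtain ⟨x, rfl⟩ := E.surjective a
    obtain ⟨y, rfl⟩ := E.surjective b
    rw [submatrix_apply, Equiv.symm_apply_apply, Equiv.symm_apply_apply, k0_real74]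
    unfold form
    by_cases h : x = y
    · subst h
      rw [diagonal_apply_eq, diagonal_apply_eq, hE, E_lt74]
    · rw [diagonal_apply_ne _ h, diagonal_apply_ne _ (fun h' => h (E.injective h'))]
  have hkj : ∀ A : MH (Fin p ⊕ Fin q), (k074 A).submatrix E.symm E.symm * (j074).submatrix E.symm E.symm
      = (j074).submatrix E.symm E.symm * ((k074 A).submatrix E.symm E.symm)ᴴᵀ := by
    intro A
    rw [submatrix_mul_equiv, k0_j74, ← submatrix_mul_equiv _ _ E.symm E.symm E.symm]
    rfl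
  refine ⟨fun A => (k074 A).submatrix E.symm E.symm, (j074).submatrix E.symm E.symm,
    ?_, ?_, ?_, ?_, hJ, ?_, ?_, hkj, ?_, ?_⟩
  · change (k074 1).submatrix E.symm E.symm = 1
    rw [k0_one74, submatrix_one_equiv]
  · intro A B
    change (k074 (A * B)).submatrix E.symm E.symm = _
    rw [submatrix_mul_equiv, k0_mul74]
  · intro A
    change (k074 (-A)).submatrix E.symm E.symm = _
    rw [k0_neg74]
    rfl
  · intro A
    change (k074 Aᴴ).submatrix E.symm E.symm = _
    rw [k0_star74]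
    rfl
  · rw [conjTranspose_submatrix, submatrix_mul_equiv, j0_star74, submatrix_one_equiv]
  · rw [transpose_submatrix, j0_tr74]
    rfl
  · have h1 := hkj (Jm (epq p q))
    rw [hJ] at h1
    have h2 : (form (2 * (p + q)) (2 * p))ᴴᵀ = form (2 * (p + q)) (2 * p) := by
      unfold form
      rw [diagonal_conjTranspose, diagonal_transpose]
      congr 1
      funext i
      simp only [Pi.star_apply]
      split_ifs <;> simp
    rw [h2] at h1
    exact h1
  · intro R A h a b
    have h1 := h (E (Sum.inl a)) (E (Sum.inl b))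
    have h2 := h (E (Sum.inl a)) (E (Sum.inr b))
    change ‖k074 A (E.symm (E (Sum.inl a))) (E.symm (E (Sum.inl b)))‖ ≤ R at h1
    change ‖k074 A (E.symm (E (Sum.inl a))) (E.symm (E (Sum.inr b)))‖ ≤ R at h2
    rw [Equiv.symm_apply_apply, Equiv.symm_apply_apply] at h1 h2
    change ‖Zc74 (A a b)‖ ≤ R at h1
    change ‖Wc74 (A a b)‖ ≤ R at h2
    have hR : 0 ≤ R := le_trans (norm_nonneg _) h1
    have h3 := norm_Hq74 (A a b)
    have h4 : ‖Zc74 (A a b)‖ ^ 2 ≤ R ^ 2 := pow_le_pow_left₀ (norm_nonneg _) h1 2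
    have h5 : ‖Wc74 (A a b)‖ ^ 2 ≤ R ^ 2 := pow_le_pow_left₀ (norm_nonneg _) h2 2
    refine (pow_le_pow_iff_left₀ (norm_nonneg _) (by positivity) two_ne_zero).1 ?_
    nlinarith [sq_nonneg R]

end Pool.Agent.Helper84.CH
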