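import Pool.Agent.Helper84.CH.UF0
import Pool.Agent.Helper96.RK.Ty3
import Pool.Agent.Helper84.SPQ.ZDef

/-!
# Project CH, part V: strata with the Cowling-Haagerup constant `C` (definitions)

`CocL R L C`: a field of unitaries over the region, multiplicative in the limit (left translations only), with two sections `Q`, `P` of norm at most `√C` and a vector `q0` fixed in the limit; the functions `γ ↦ ⟪P γ, pi s γ (Q (s⁻¹ γ))⟫` are invariant in the limit under right translations.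
`HSR R C`: there are such cocycles for which `Q` is close to `q0` and `⟪P γ, q0⟫` is close to `1` on `W n0`, and `⟪P γ, q0⟫` tends to zero outside the `W n`.
`QHerm ρ p q`: the matrices of `ρ` are in `Sp(p, q)`.
-/

set_option autoImplicit false

open Filter Topology Matrix

namespace Pool.Agent.Helper84.CH

open Pool.Agent.Helper84.SPQ NI GN Pool.Agent.Helper90.RK

/-- A field of unitaries for the left translations with two sections. -/
structure CocL {G : Type} [Group G] (R : Reg G) (L : Type) [NormedAddCommGroup L] [InnerProductSpace ℂ L] (C : ℝ) where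
  /-- the field of unitaries -/
  pi : G → G → (L ≃ₗᵢ[ℂ] L)
  /-- the first section -/
  Q : G → L
  /-- the second section -/
  P : G → L
  /-- the constant section -/
  q0 : L
  one : ∀ γ w, pi 1 γ w = w
  cpt : ∀ (g : G) (n : ℕ) (w : L), ∃ K : Set L, IsCompact K ∧ ∀ᶠ γ in R.F n, pi g γ w ∈ K
  mul : ∀ (g g' : G) (n : ℕ) (w : L), Tendsto (fun γ => pi (g * g') γ w - pi g γ (pi g' (g⁻¹ * γ * 1) w)) (R.F n) (𝓝 0)
  bQ : ∀ γ, ‖Q γ‖ ^ 2 ≤ C
  bP : ∀ γ, ‖P γ‖ ^ 2 ≤ C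
  b0 : ‖q0‖ ^ 2 ≤ C
  cptQ : ∀ n : ℕ, ∃ K : Set L, IsCompact K ∧ ∀ᶠ γ in R.F n, Q γ ∈ K
  cptP : ∀ n : ℕ, ∃ K : Set L, IsCompact K ∧ ∀ᶠ γ in R.F n, P γ ∈ K
  left : ∀ (g : G) (n : ℕ), Tendsto (fun γ => pi g γ q0 - q0) (R.F n) (𝓝 0)
  inv : ∀ (s h : G) (n : ℕ), Tendsto (fun γ => (inner ℂ (P (γ * h)) (pi s (γ * h) (Q (s⁻¹ * (γ * h) * 1))) : ℂ) -
    inner ℂ (P γ) (pi s γ (Q (s⁻¹ * γ * 1)))) (R.F n) (𝓝 0)

/-- The region has Cowling-Haagerup constant at most `C` (in the sense of families of sections). -/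
def HSR {G : Type} [Group G] (R : Reg G) (C : ℝ) : Prop :=
  ∀ (n0 : ℕ) (ε : ℝ), 0 < ε → ∃ (L : Type) (_ : NormedAddCommGroup L) (_ : InnerProductSpace ℂ L) (_ : CompleteSpace L)
    (Γ : CocL R L C) (s : Set G), (∀ n, s ∈ R.F n) ∧
      (∀ γ ∈ s, γ ∈ R.W n0 → ‖Γ.Q γ - Γ.q0‖ ≤ ε ∧ ‖(inner ℂ (Γ.P γ) Γ.q0 : ℂ) - 1‖ ≤ ε) ∧
      ∀ δ : ℝ, 0 < δ → ∃ n, ∀ γ ∈ s, γ ∉ R.W n → ‖(inner ℂ (Γ.P γ) Γ.q0 : ℂ)‖ ≤ δ

open Pool.Agent.Helper66.RKS

/-- The matrices of `ρ` are in `U(2 p, 2 q)` and commute with a quaternionic structure `v ↦ j conj(v)` compatible with the Hermitian form: they are in `Sp(p, q)`. -/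
def QHerm {Γ : Type} [Group Γ] {N : ℕ} (ρ : PRep Γ N) (p q : ℕ) : Prop :=
  N = 2 * (p + q) ∧ ρ.Hermitian (2 * p) ∧ ∃ j : Matrix (Fin N) (Fin N) ℂ, jᴴ * j = 1 ∧ jᵀ = -j ∧ (∀ g, ρ.ι g * j = j * (ρ.ι g)ᴴᵀ) ∧
    form N (2 * p) * j = j * form N (2 * p)

end Pool.Agent.Helper84.CH
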