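import Pool.Agent.Helper84.CH.M1
import Pool.Agent.Helper84.CH.V0
import Pool.Agent.Helper84.SPQ.E1

/-!
# Project CH, block M2: discrete subgroups of `PSp(p, q)` have a proper projective representation with `QHerm`

`exists_prepQ`. PROOF. `κ`, `j` from `exists_cpx p q` (block M1). For `γ : Γ` choose `x γ : SpQ p q` with `(x γ : PSpQ p q) = γ` (`Quotient.out` or `QuotientGroup.mk_surjective`) and put `ρ.ι γ = κ (mx (x γ))` (`mx` in `SPQ/E1.lean`). `norm_det`: `mx x` satisfies `(mx x)ᴴ * Jm (epq p q) * mx x = Jm (epq p q)` (`x.2`, `mem_SpJ`), so `(κ (mx x))ᴴ * form * κ (mx x) = form`,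
determinants: `‖det κ‖² ‖det form‖ = ‖det form‖ ≠ 0` (`form * form = 1`: see `form_sq84` in `SPQ/Z1.lean`). `mul`: `x (g * h) = x g * x h * c` with `c` in the centre (`QuotientGroup.eq`), `mx c = 1 ∨ mx c = -1` (`center_pm` in `SPQ/E1.lean`). `proper`: the set `K = {x : SpQ p q | ∀ a b, ‖mx x a b‖ ≤ 2 R}` is compact (`isCompact_bdd` in `SPQ/C6a.lean`, `sgnpq`), so its image in `PSpQ p q` is compact;
`PSpQ p q` is Hausdorff (see `main_PSpQ` in `SPQ/Z1.lean`), so the set of the `γ : Γ` in it is finite (`Subgroup.tendsto_coe_cofinite_of_discrete`). `QHerm`: `CH/V0.lean`.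
`qherm_classical`: `Hermitian (2 p)`, `N - 2 p = 2 q`, `min (2 p) (2 q) / 2 = p`.
-/

set_option autoImplicit false

open Filter Topology Matrix

namespace Pool.Agent.Helper84.CH

open Pool.Agent.Helper84.SPQ Pool.Agent.Helper66.RKS

private theorem form_sq77 (N p : ℕ) : form N p * form N p = 1 := by
  unfold form
  rw [diagonal_mul_diagonal, ← diagonal_one]
  congr 1
  funext i
  split_ifs <;> simp

private theorem mx_mul77 {p q : ℕ} (x y : SpQ p q) : mx (x * y) = mx x * mx y := rfl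

theorem exists_prepQ {p q : ℕ} (hp : 1 ≤ p) (hq : 1 ≤ q) (Γ : Subgroup (PSpQ p q)) (hd : DiscreteTopology Γ) :
    ∃ ρ : PRep Γ (2 * (p + q)), QHerm ρ p q := by
  obtain ⟨κ, j, -, hmul, hneg, hstar, hJ, hj1, hj2, hj3, hj4, hbd⟩ := exists_cpx p q
  have i1 : T2Space (SpQ p q) := t2_SpJ (sgnpq p q)
  have i2 : LocallyCompactSpace (SpQ p q) := locallyCompact_SpJ (sgnpq p q)
  have hcl : IsClosed (Subgroup.center (SpQ p q) : Set (SpQ p q)) := (center_compact p q).isClosed
  have i4 : T2Space (PSpQ p q) := by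
    have h3 : T3Space (SpQ p q ⧸ Subgroup.center (SpQ p q)) := @QuotientGroup.instT3Space _ _ _ _ _ _ hcl
    infer_instance
  choose x hx using fun γ : Γ => QuotientGroup.mk_surjective (γ : PSpQ p q)
  have hform : ∀ y : SpQ p q, (κ (mx y))ᴴ * form (2 * (p + q)) (2 * p) * κ (mx y) = form (2 * (p + q)) (2 * p) := by
    intro y
    rw [← hJ, ← hstar, ← hmul, ← hmul]
    exact congrArg κ (mem_SpJ.1 y.2)
  have hdet : ∀ y : SpQ p q, ‖(κ (mx y)).det‖ = 1 := by
    intro y
    have h := congrArg Matrix.det (hform y)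
    rw [det_mul, det_mul, det_conjTranspose] at h
    have hne : (form (2 * (p + q)) (2 * p)).det ≠ 0 := by
      intro h0
      have h1 := congrArg Matrix.det (form_sq77 (2 * (p + q)) (2 * p))
      rw [det_mul, h0, det_one, mul_zero] at h1
      exact zero_ne_one h1
    have h2 : star (κ (mx y)).det * (κ (mx y)).det = 1 := by
      apply mul_left_cancel₀ hne
      linear_combination h
    have h3 := congrArg norm h2
    rw [norm_mul, norm_star, norm_one] at h3
    nlinarith [norm_nonneg (κ (mx y)).det]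
  have hsig : ∀ y z : SpQ p q, y⁻¹ * z ∈ Subgroup.center (SpQ p q) →
      ∃ c : ℂ, ‖c‖ = 1 ∧ κ (mx z) = c • κ (mx y) := by
    intro y z hc
    have e : z = y * (y⁻¹ * z) := by group
    rcases center_pm hp hq hc with h | h
    · refine ⟨1, norm_one, ?_⟩
      rw [one_smul]
      nth_rewrite 1 [e]
      rw [mx_mul77, h, mul_one]
    · refine ⟨-1, by simp, ?_⟩
      nth_rewrite 1 [e]
      rw [mx_mul77, h, mul_neg, mul_one, hneg, neg_smul, one_smul]
  refine ⟨⟨fun γ => κ (mx (x γ)), fun γ => hdet _, ?_, ?_⟩, ?_⟩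
  · intro g h
    obtain ⟨c, hc, he⟩ := hsig (x g * x h) (x (g * h)) (by
      rw [← QuotientGroup.eq, QuotientGroup.mk_mul, hx, hx, hx]
      rfl)
    refine ⟨c, hc, ?_⟩
    rw [he, mx_mul77, hmul]
  · intro R
    have hK := isCompact_bdd (sgnpq p q) (2 * R)
    have hK' : IsCompact ((fun y : SpQ p q => (y : PSpQ p q)) ''
        {g : SpQ p q | ∀ i j, ‖((g : (MH (Fin p ⊕ Fin q))ˣ) : MH (Fin p ⊕ Fin q)) i j‖ ≤ 2 * R}) :=
      hK.image continuous_quotient_mk'
    have h1 := Subgroup.tendsto_coe_cofinite_of_discrete Γ ⟨hd⟩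
    have h2 := h1 hK'.compl_mem_cocompact
    rw [mem_map, mem_cofinite] at h2
    refine h2.subset ?_
    intro γ hγ
    simp only [Set.mem_compl_iff, Set.mem_preimage, not_not]
    exact ⟨x γ, fun a b => hbd R (mx (x γ)) hγ a b, hx γ⟩
  · exact ⟨rfl, fun g => hform _, j, hj1, hj2, fun g => hj3 _, hj4⟩

theorem qherm_classical {Γ : Type} [Group Γ] {N p q : ℕ} (ρ : PRep Γ N) (h : QHerm ρ p q) (hpq : p ≤ q) : ρ.Classical p := by
  obtain ⟨hN, hH, j, k1, k2, k3, -⟩ := h
  refine Or.inr (Or.inr (Or.inr ⟨2 * p, hH, Or.inr ⟨⟨j, k1, k2, k3⟩, ?_⟩⟩))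
  omega

end Pool.Agent.Helper84.CH
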