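import Pool.Agent.Helper84.CH.V3
import Pool.Agent.Helper84.SPQ.S3
import Pool.Agent.Helper84.SPQ.K5

/-!
# Project CH, block V4: the strata of chains of length `p - 1` for `Sp(p, p + m)`

`hsr_class`. PROOF. As `haag_sostar` in `SPQ/S3.lean` (complete proof there), `N = 4 p + 2 m`. `s_i s_{rev i} = 1` (`upq_symm`), `s_i = 1` for `2 p ≤ i ≤ N - 2 p - 1` (`hone` for `i` and `rev i`), `s_i = s_{i+1}` for even `i` (`quat_double`). Classes: `cl i = some l`, `l = min ((i - 1)/2) ((N - 3 - i)/2)`, for odd `i` with `i + 1 < N` and `l < p`; `none` otherwise (even `i`; `i = N - 1`; odd `i`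
with `2 p + 1 ≤ i ≤ N - 2 p - 3`: `s_i = s_{i+1} = 1`): then `lg i = 0`. `lg_symm`. `chain_class` (`r = p`): one class `l`. If its index `2 l + 1` is not in `J`: `haag_class_zero`. If `l + 1 < p`: `haag_class_quat` with `a = 2 l`. If `l = p - 1`: `J` contains `2 p - 2, ..., N - 2 p` (odd ones strictly between `2 p - 1` and `N - 2 p - 1` are in no class, `c1`),
not `2 p - 3`, `N - 2 p + 1` (class `p - 2`): `bJ_int` with `a = 2 p - 2`, `b = 2 p + 2 m + 1`; `hsr_mid` (right alternative); `hgood`, `hout` as in `haag_sostar` (`lg (2 p - 1) = log (s_{2p-1}/s_{2p}) = log s_{2p-1}`; `s_{2p} = 1` because either `m > 0` and `hone`, or `m = 0`: then `s_{2p} = 1/s_{2p-1}` and `lg (2p - 1) = 2 log s_{2p-1}`).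
`hsr_qherm`: `Φ = form N (2 p)` (`form_star84`, `form_sq84`, `form_trans84` in `SPQ/Z1.lean`, trace as `form_tr56`, private in `SPQ/K5.lean`), `hone` from `upq_le_one` with `form_eq` (see `haag_class2` in `SPQ/K5.lean`), `m = q - p`.
-/

set_option autoImplicit false

open Filter Topology Matrix

namespace Pool.Agent.Helper84.CH

open Pool.Agent.Helper84.SPQ NI GN Pool.Agent.Helper90.RK Pool.Agent.Helper66.RK Pool.Agent.Helper96.RK Pool.Agent.Helper66.RKS

variable {G : Type} [Group G] {N : ℕ} {P : PH G N}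

private theorem form_star82 (N p : ℕ) : (form N p)ᴴ = form N p := by
  unfold form
  rw [diagonal_conjTranspose]
  congr 1
  funext i
  rw [Pi.star_apply]
  split_ifs <;> simp

private theorem form_trans82 (N p : ℕ) : (form N p)ᵀ = form N p := by
  unfold form
  rw [diagonal_transpose]

private theorem form_sq82 (N p : ℕ) : form N p * form N p = 1 := by
  unfold form
  rw [diagonal_mul_diagonal, ← diagonal_one]
  congr 1
  funext i
  split_ifs <;> simp

private theorem form_tr82 {N p : ℕ} (hp : p ≤ N) : (form N p).trace = 2 * (p : ℂ) - N := by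
  unfold form
  rw [trace_diagonal]
  have h1 : ∀ i : Fin N, (if (i : ℕ) < p then (1 : ℂ) else -1) = 2 * (if (i : ℕ) < p then (1 : ℂ) else 0) - 1 := by
    intro i
    split_ifs <;> norm_num
  rw [Finset.sum_congr rfl fun i _ => h1 i, Finset.sum_sub_distrib, ← Finset.mul_sum, Finset.sum_const, Finset.card_univ,
    Fintype.card_fin, nsmul_eq_mul, mul_one]
  congr 2
  rw [Finset.sum_boole, ← Finset.sum_boole]
  have h2 : ∑ i : Fin N, (if (i : ℕ) < p then (1 : ℂ) else 0) = ∑ i ∈ Finset.range N, (if i < p then (1 : ℂ) else 0) :=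
    Fin.sum_univ_eq_sum_range (fun i => if i < p then (1 : ℂ) else 0) N
  rw [h2, Finset.sum_boole]
  congr 1
  have h3 : (Finset.range N).filter (fun i => i < p) = Finset.range p := by
    ext i
    rw [Finset.mem_filter, Finset.mem_range, Finset.mem_range]
    omega
  rw [h3, Finset.card_range]

theorem hsr_class {S : Sv P} {Φ j : MN N} (h1 : Φᴴ = Φ) (h2 : Φ * Φ = 1) (h4 : ∀ g, (P.ι g)ᴴ * Φ * P.ι g = Φ)
    (k1 : jᴴ * j = 1) (k2 : jᵀ = -j) (k3 : ∀ g, P.ι g * j = j * (P.ι g)ᴴᵀ) (hrel : Φ * j = j * Φᴴᵀ)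
    {p m : ℕ} (hN : N = 4 * p + 2 * m) (h3 : Φ.trace = 4 * (p : ℂ) - N) (hone : ∀ γ (i : Fin N), 2 * p ≤ (i : ℕ) → S.s γ i ≤ 1)
    {J : Finset (Fin N)} {c : List (Finset (Fin N))} (hch : IsCh (J :: c)) (hne : ∀ m, (TC S (J :: c) m).Nonempty) (hl : c.length + 2 = p) :
    HaagR (Pool.Agent.Helper96.RK.toReg (chStr S J c)) ∨ ∀ ε : ℝ, 0 < ε → HSR (Pool.Agent.Helper96.RK.toReg (chStr S J c)) (2 * m + 2 + ε) := by
  have hr : 2 ≤ p := by omega
  have hs : ∀ γ i, S.s γ i * S.s γ (Fin.rev i) = 1 := fun γ i => upq_symm h2 h4 S γ i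
  have hmid : ∀ γ (i : Fin N), 2 * p ≤ (i : ℕ) → (i : ℕ) + 2 * p + 1 ≤ N → S.s γ i = 1 := by
    intro γ i hi hi'
    have e1 := hs γ i
    have e2 := hone γ i hi
    have e3 : S.s γ (Fin.rev i) ≤ 1 := hone γ (Fin.rev i) (by
      rw [Fin.val_rev]
      omega)
    have e4 := S.pos γ i
    have e5 := S.pos γ (Fin.rev i)
    refine le_antisymm e2 ?_
    by_contra hcon
    rw [not_le] at hcon
    have e6 : S.s γ i * S.s γ (Fin.rev i) < 1 := by
      calc S.s γ i * S.s γ (Fin.rev i) < 1 * S.s γ (Fin.rev i) := mul_lt_mul_of_pos_right hcon e5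
        _ = S.s γ (Fin.rev i) := one_mul _
        _ ≤ 1 := e3
    exact absurd e1 (ne_of_lt e6)
  have hdouble : ∀ (γ : G) (i k : Fin N), (k : ℕ) = i + 1 → Even (i : ℕ) → S.s γ i = S.s γ k := fun γ i k hk hi =>
    quat_double k1 k2 k3 S γ i k hk hi
  have lg_even : ∀ (γ : G) {i : Fin N}, Even (i : ℕ) → lg S γ i = 0 := by
    intro γ i hi
    unfold lg gp
    split_ifs with h
    · rw [hdouble γ i ⟨(i : ℕ) + 1, h⟩ rfl hi, div_self (S.pos γ _).ne', Real.log_one]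
    · exact Real.log_one
  have lg_last : ∀ (γ : G) {i : Fin N}, ¬ (i : ℕ) + 1 < N → lg S γ i = 0 := by
    intro γ i hi
    unfold lg gp
    rw [dif_neg hi, Real.log_one]
  have lg_mid : ∀ (γ : G) {i : Fin N}, 2 * p ≤ (i : ℕ) → (i : ℕ) + 2 * p + 2 ≤ N → lg S γ i = 0 := by
    intro γ i hi hi'
    have h : (i : ℕ) + 1 < N := by omega
    unfold lg gp
    rw [dif_pos h, hmid γ i hi (by omega), hmid γ ⟨(i : ℕ) + 1, h⟩ (by
      change 2 * p ≤ (i : ℕ) + 1
      omega) (by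
      change (i : ℕ) + 1 + 2 * p + 1 ≤ N
      omega), div_one, Real.log_one]
  obtain ⟨cl, hcl⟩ : ∃ cl : Fin N → Option (Fin p), ∀ i, cl i = if h : ¬ Even (i : ℕ) ∧ (i : ℕ) + 1 < N ∧
      min (((i : ℕ) - 1) / 2) ((N - 3 - (i : ℕ)) / 2) < p then
      some ⟨min (((i : ℕ) - 1) / 2) ((N - 3 - (i : ℕ)) / 2), h.2.2⟩ else none := ⟨_, fun _ => rfl⟩
  have hsome : ∀ (i : Fin N) (h : ¬ Even (i : ℕ) ∧ (i : ℕ) + 1 < N ∧ min (((i : ℕ) - 1) / 2) ((N - 3 - (i : ℕ)) / 2) < p),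
      ∃ l : Fin p, cl i = some l ∧
      ((i : ℕ) = 2 * (l : ℕ) + 1 ∨ (i : ℕ) + 2 * (l : ℕ) + 3 = N) ∧ (l : ℕ) = min (((i : ℕ) - 1) / 2) ((N - 3 - (i : ℕ)) / 2) := by
    intro i h
    refine ⟨⟨min (((i : ℕ) - 1) / 2) ((N - 3 - (i : ℕ)) / 2), h.2.2⟩, by rw [hcl i, dif_pos h], ?_, rfl⟩
    obtain ⟨t, ht⟩ := Nat.not_even_iff_odd.1 h.1
    have h5 := h.2.1
    change (i : ℕ) = 2 * (min (((i : ℕ) - 1) / 2) ((N - 3 - (i : ℕ)) / 2)) + 1 ∨
      (i : ℕ) + 2 * (min (((i : ℕ) - 1) / 2) ((N - 3 - (i : ℕ)) / 2)) + 3 = N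
    omega
  have hnone : ∀ i : Fin N, cl i = none → Even (i : ℕ) ∨ ¬ (i : ℕ) + 1 < N ∨ (2 * p ≤ (i : ℕ) ∧ (i : ℕ) + 2 * p + 2 ≤ N) := by
    intro i h
    by_contra hcon
    push Not at hcon
    obtain ⟨h5, h6, h7⟩ := hcon
    have h8 : min (((i : ℕ) - 1) / 2) ((N - 3 - (i : ℕ)) / 2) < p := by
      obtain ⟨t, ht⟩ := Nat.not_even_iff_odd.1 h5
      by_cases h9 : 2 * p ≤ (i : ℕ)
      · have := h7 h9
        omega
      · omega
    obtain ⟨l, hl', -⟩ := hsome i ⟨h5, h6, h8⟩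
    rw [hl'] at h
    exact absurd h (by simp)
  have hz : ∀ i, cl i = none → ∀ γ, lg S γ i = 0 := by
    intro i h γ
    rcases hnone i h with h4 | h4 | h4
    · exact lg_even γ h4
    · exact lg_last γ h4
    · exact lg_mid γ h4.1 h4.2
  have hev : ∀ i : Fin N, Even (i : ℕ) → cl i = none := by
    intro i hi
    rw [hcl i, dif_neg (fun h => h.1 hi)]
  have hsm : ∀ (i : Fin N) (l : Fin p), cl i = some l → ((i : ℕ) = 2 * (l : ℕ) + 1 ∨ (i : ℕ) + 2 * (l : ℕ) + 3 = N) := by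
    intro i l h
    by_cases h4 : ¬ Even (i : ℕ) ∧ (i : ℕ) + 1 < N ∧ min (((i : ℕ) - 1) / 2) ((N - 3 - (i : ℕ)) / 2) < p
    · obtain ⟨l', h5, h6, -⟩ := hsome i h4
      rw [h5] at h
      rw [← Option.some.inj h]
      exact h6
    · rw [hcl i, dif_neg h4] at h
      exact absurd h (by simp)
  have hsame : ∀ i k, cl i = cl k → ∀ γ, lg S γ i = lg S γ k := by
    intro i k h γ
    cases hci : cl i with
    | none => rw [hz i hci γ, hz k (h ▸ hci) γ]
    | some l =>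
      rcases hsm i l hci with e1 | e1 <;> rcases hsm k l (h ▸ hci) with e2 | e2
      · rw [Fin.ext (e1.trans e2.symm)]
      · exact lg_symm hs γ (by omega)
      · exact lg_symm hs γ (by omega)
      · rw [Fin.ext (show (i : ℕ) = (k : ℕ) by omega)]
  obtain ⟨c1, c2, l, c3⟩ := chain_class cl hz hsame hch hne hl
  have hl2 := l.2
  obtain ⟨i, hi⟩ : ∃ i : Fin N, (i : ℕ) = 2 * (l : ℕ) + 1 := ⟨⟨2 * (l : ℕ) + 1, by omega⟩, rfl⟩
  have hcli : cl i = some l := by
    obtain ⟨l', h5, -, h6⟩ := hsome i ⟨Nat.not_even_iff_odd.2 ⟨l, hi⟩, by omega, by omega⟩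
    rw [h5]
    congr 1
    exact Fin.ext (by omega)
  have hclass : ∀ (k : Fin N), k ∈ J → ∀ m : ℕ, ¬ Even (k : ℕ) → (k : ℕ) + 1 < N → m < p →
      m = min (((k : ℕ) - 1) / 2) ((N - 3 - (k : ℕ)) / 2) → m = l := by
    intro k hk m h5 h6 h6' h7
    obtain ⟨l', h8, -, h9⟩ := hsome k ⟨h5, h6, h7 ▸ h6'⟩
    rcases c3 k hk with h | h
    · rw [h8] at h
      exact absurd h (by simp)
    · rw [h8] at h
      have h10 := Option.some.inj h
      rw [← h10, h9, h7]
  by_cases hiJ : i ∈ J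
  swap
  · left
    refine haag_class_zero fun k hk => ?_
    rcases c3 k hk with h4 | h4
    · exact hz k h4
    · exact absurd (c2 k i hk (h4.trans hcli.symm)) hiJ
  have hpair : ∀ k ∈ J, (∀ γ, lg S γ k = 0) ∨ ∀ γ, lg S γ k = lg S γ i := by
    intro k hk
    rcases c3 k hk with h4 | h4
    · exact Or.inl (hz k h4)
    · exact Or.inr (hsame k i (h4.trans hcli.symm))
  by_cases hlr : (l : ℕ) + 1 < p
  · left
    refine haag_class_quat k1 k2 k3 (even_two_mul (l : ℕ)) (by omega) hi hiJ (fun k hk => c1 k (hev k hk)) ?_ ?_ hpair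
    · intro k hk hkJ
      have := hclass k hkJ ((l : ℕ) - 1) (by rw [Nat.even_iff]; omega) (by omega) (by omega) (by omega)
      omega
    · intro k hk hkN hkJ
      have := hclass k hkJ ((l : ℕ) + 1) (by rw [Nat.even_iff]; omega) (by omega) (by omega) (by omega)
      omega
  · right
    intro ε hε
    have hlv : (l : ℕ) = p - 1 := by omega
    have hn0 : 2 * p - 2 < N := by omega
    have hn1 : 2 * p - 3 < N := by omega
    have hi1J : (⟨2 * p - 3, hn1⟩ : Fin N) ∉ J := by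
      intro hkJ
      have := hclass _ hkJ (p - 2) (by
        change ¬ Even (2 * p - 3)
        rw [Nat.even_iff]; omega) (by
        change 2 * p - 3 + 1 < N
        omega) (by omega) (by
        change p - 2 = min ((2 * p - 3 - 1) / 2) ((N - 3 - (2 * p - 3)) / 2)
        omega)
      omega
    refine hsr_mid h1 h2 h4 k1 k2 k3 hrel hr hN h3 hone (i0 := ⟨2 * p - 2, hn0⟩) (i1 := ⟨2 * p - 3, hn1⟩) rfl rfl (chStr S J c)
      ?_ ?_ ?_ hε
    · refine bJ_int (J := J) (a := 2 * p - 2) (b := 2 * p + 2 * m + 1) (by omega) (by omega) ?_ ?_ ?_ (i0 := ⟨2 * p - 2, hn0⟩) rfl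
      · intro k hk1 hk2
        rcases Nat.even_or_odd (k : ℕ) with h5 | h5
        · exact c1 k (hev k h5)
        · obtain ⟨t, ht⟩ := h5
          by_cases h8 : min (((k : ℕ) - 1) / 2) ((N - 3 - (k : ℕ)) / 2) < p
          · refine c2 i k hiJ (hcli.trans ?_)
            obtain ⟨l', h6, -, h7⟩ := hsome k ⟨Nat.not_even_iff_odd.2 ⟨t, ht⟩, by omega, h8⟩
            rw [h6]
            congr 1
            exact Fin.ext (by omega)
          · refine c1 k ?_
            rw [hcl k, dif_neg (fun h => h8 h.2.2)]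
      · intro k hk
        have h5 : k = ⟨2 * p - 3, hn1⟩ := Fin.ext (by
          change (k : ℕ) = 2 * p - 3
          omega)
        rw [h5]
        exact hi1J
      · intro k hk hkN hkJ
        have := hclass k hkJ (p - 2) (by rw [Nat.even_iff]; omega) (by omega) (by omega) (by omega)
        omega
    · intro n
      filter_upwards [TC_mem_FC S J c 1 n] with γ hγ
      have h5 := ((TC_cons S).1 hγ).1 _ hi1J
      have h6 := sum_lg_nonneg S γ J
      push_cast at h5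
      have h7 : (1 : ℝ) < gp S γ ⟨2 * p - 3, hn1⟩ := by
        rw [gp_eq_exp]
        exact Real.one_lt_exp_iff.2 (by linarith)
      unfold gp at h7
      have hi' : ((⟨2 * p - 3, hn1⟩ : Fin N) : ℕ) + 1 < N := by
        change 2 * p - 3 + 1 < N
        omega
      rw [dif_pos hi', one_lt_div (S.pos _ _)] at h7
      have h8 : (⟨((⟨2 * p - 3, hn1⟩ : Fin N) : ℕ) + 1, hi'⟩ : Fin N) = ⟨2 * p - 2, hn0⟩ := Fin.ext (by
        change 2 * p - 3 + 1 = 2 * p - 2
        omega)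
      rw [h8] at h7
      exact h7
    · intro x
      refine ⟨⌈Real.log (x ^ 2)⌉₊, fun γ hγ => ?_⟩
      change ∀ i ∈ J, lg S γ i ≤ (⌈Real.log (x ^ 2)⌉₊ : ℕ)
      intro k hk
      rcases hpair k hk with h | h
      · rw [h γ]
        exact Nat.cast_nonneg _
      · rw [h γ]
        have hi' : (i : ℕ) + 1 < N := by omega
        have e1 := hs γ i
        have e2 : S.s γ (Fin.rev i) ≤ S.s γ ⟨(i : ℕ) + 1, hi'⟩ := S.anti γ (Fin.le_def.2 (by
          rw [Fin.val_rev]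
          change (i : ℕ) + 1 ≤ N - ((i : ℕ) + 1)
          omega))
        have e3 := S.pos γ i
        have e4 := S.pos γ ⟨(i : ℕ) + 1, hi'⟩
        have h6 : S.s γ i ≤ S.s γ ⟨2 * p - 2, hn0⟩ := S.anti γ (Fin.le_def.2 (by
          change 2 * p - 2 ≤ (i : ℕ)
          omega))
        have h5 : lg S γ i = Real.log (S.s γ i / S.s γ ⟨(i : ℕ) + 1, hi'⟩) := by
          unfold lg gp
          rw [dif_pos hi']
        rw [h5]
        have h7 : S.s γ i ^ 2 ≤ x ^ 2 := pow_le_pow_left₀ e3.le (h6.trans hγ) 2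
        have h8 : 1 ≤ S.s γ i * S.s γ ⟨(i : ℕ) + 1, hi'⟩ := by
          rw [← e1]
          exact mul_le_mul_of_nonneg_left e2 e3.le
        have h9 : S.s γ i / S.s γ ⟨(i : ℕ) + 1, hi'⟩ ≤ x ^ 2 := by
          rw [div_le_iff₀ e4]
          calc S.s γ i = S.s γ i * 1 := (mul_one _).symm
            _ ≤ S.s γ i * (S.s γ i * S.s γ ⟨(i : ℕ) + 1, hi'⟩) := mul_le_mul_of_nonneg_left h8 e3.le
            _ = S.s γ i ^ 2 * S.s γ ⟨(i : ℕ) + 1, hi'⟩ := by ring
            _ ≤ x ^ 2 * S.s γ ⟨(i : ℕ) + 1, hi'⟩ := mul_le_mul_of_nonneg_right h7 e4.le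
        exact (Real.log_le_log (div_pos e3 e4) h9).trans (Nat.le_ceil _)

theorem hsr_qherm {Γ : Type} [Group Γ] {N p q : ℕ} (ρ : PRep Γ N) (hρ : QHerm ρ p q) (hpq : p ≤ q) (S : Sv ρ.ph)
    {J : Finset (Fin N)} {c : List (Finset (Fin N))} (hch : IsCh (J :: c)) (hne : ∀ m, (TC S (J :: c) m).Nonempty) (hl : c.length + 2 = p) :
    HaagR (Pool.Agent.Helper96.RK.toReg (chStr S J c)) ∨
      ∀ ε : ℝ, 0 < ε → HSR (Pool.Agent.Helper96.RK.toReg (chStr S J c)) (2 * ((q - p : ℕ) : ℝ) + 2 + ε) := by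
  obtain ⟨hN, hH, j, k1, k2, k3, k4⟩ := hρ
  have hN' : N = 4 * p + 2 * (q - p) := by omega
  have hpN : 2 * p ≤ N := by omega
  have hinv : ∀ g, (ρ.ph.ι g)ᴴ * form N (2 * p) * ρ.ph.ι g = form N (2 * p) := hH
  obtain ⟨e, he⟩ := form_eq hpN
  refine hsr_class (Φ := form N (2 * p)) (j := j) (form_star82 N (2 * p)) (form_sq82 N (2 * p)) hinv k1 k2 k3 ?_ hN' ?_ ?_ hch hne hl
  · rw [form_star82, form_trans82]
    exact k4
  · rw [form_tr82 hpN]
    push_cast
    ring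
  · intro γ i hi
    refine upq_le_one (P := ρ.ph) e ?_ S γ i (by omega)
    rw [← he]
    exact hinv

end Pool.Agent.Helper84.CH
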