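import Pool.Agent.Helper84.CH.T7
import Pool.Agent.Helper84.CH.V4
import Pool.Agent.Helper84.CH.G4
import Pool.Agent.Helper84.SPQ.Z1

/-!
# Project CH, block N1: the induction with the Cowling-Haagerup constant in the last step
-/

set_option autoImplicit false
set_option linter.unusedSectionVars false

open MeasureTheory Filter Topology

namespace Pool.Agent.Helper84.CH

open Pool.Agent.Helper84.SPQ
open Pool.Agent.Helper84.NI Pool.Agent.Helper84.GN Pool.Agent.Helper84.GVN Pool.Agent.Helper90.RK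
open Pool.Agent.Helper96.RK Pool.Agent.Helper66.FR Pool.Agent.Helper84.FR Pool.Agent.Helper96.FR
open Pool.Agent.Helper66.RKS Pool.Agent.Helper55.FR

section Core

variable {X : Type} [MeasurableSpace X] {μ : Measure X} [IsProbabilityMeasure μ]
variable {G1 G Λ : Type} [Group G1] [TopologicalSpace G1] [IsTopologicalGroup G1] [MulAction G1 X]
  [MeasurableConstSMul G1 X] [SMulInvariantMeasure G1 X μ] [Group G] [Group Λ] [Countable Λ]

theorem no_emb_coreN {N : ℕ} {P : PH G N} {S : Sv P} {r m : ℕ} {C : ℝ} (hr : 2 ≤ r) (hm : 1 ≤ m) (hC : C < 2 * m + 1)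
    (hI : ∀ T : Str S, HasCoc (Pool.Agent.Helper96.RK.toReg T))
    (hH : ∀ (J : Finset (Fin N)) (c : List (Finset (Fin N))), IsCh (J :: c) → (∀ m, (TC S (J :: c) m).Nonempty) →
      c.length + 2 = r → HaagR (Pool.Agent.Helper96.RK.toReg (chStr S J c)) ∨ HSR (Pool.Agent.Helper96.RK.toReg (chStr S J c)) C)
    (E : Emb Λ G) (a : Cocy G1 X Λ)
    (hF2 : ∀ l : Λ, Tendsto (fun g : G1 => μ {x | a.a g x = l}) (cocompact G1) (𝓝 0))
    (h3 : Tendsto (fun g : G1 => μ {x | a.a g x ≠ 1}) (𝓝 1) (𝓝 0))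
    (hp : ∀ F : Subgroup G1, DiscreteTopology F → Countable F ∧ ∃ p : X → Λ → F,
      (∀ (l : Λ) (s : Set F), MeasurableSet {x | p x l ∈ s}) ∧
        ∀ (f : F) (x : X) (l : Λ), p ((f : G1) • x) (a.a f x * l) = f * p x l)
    (hG : RankN G1 m r) : False := by
  obtain ⟨A, u, w, φ, φ', g0, τ, haa, ha0, hstep, hφ, hφ', hτ, hφ0, hφc⟩ := hG
  have hmp : ∀ g : G1, MeasurePreserving (fun x => g • x) μ μ := fun g => measurePreserving_smul g μ
  let z := zx μ a E
  have hz : ∀ g, ∀ᵐ x ∂μ, z g x = cf (E.U (a.a g (g⁻¹ • x))) := fun g => zv_apply (mea_a (a := a) g g⁻¹)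
  have hz1 : ∀ i, ∀ᵐ y ∂μ, ‖z i y‖ ≤ 1 := zx_bound
  let i0 : Fin r := ⟨0, by omega⟩
  let iL : Fin r := ⟨r - 1, by omega⟩
  have hE : Esc z hz1 := esc a E h3 hp
  have hn : ∀ g, ‖z g‖ = 1 := fun g => norm_zx g
  obtain ⟨J, c, b, hcl, hch, hb, hcomp⟩ := chainX (S := S) z hz1 (fun k => (VV A k : Set G1)) (r - 2) (fun g _ => hn g)
    (by
      intro F hF
      have h1 := tendsto_mass (μ := μ) E (f := fun m : ℕ => z (A i0 ^ m))
        (c := fun m x => a.a (A i0 ^ m) ((A i0 ^ m)⁻¹ • x)) (fun m l => (hmp _).measurable (a.meas _ l))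
        (fun m => hz _) (fun l => by
          have h2 := (ENNReal.tendsto_toReal ENNReal.zero_ne_top).comp ((hF2 l).comp (ha0 i0 rfl))
          rw [ENNReal.toReal_zero] at h2
          refine h2.congr fun m => ?_
          have h3 := (hmp (A i0 ^ m)⁻¹).measure_preimage (a.meas (A i0 ^ m) l).nullMeasurableSet
          change (μ (a.a (A i0 ^ m) ⁻¹' {l})).toReal =
            (μ ((fun x => (A i0 ^ m)⁻¹ • x) ⁻¹' (a.a (A i0 ^ m) ⁻¹' {l}))).toReal
          rw [h3]) hF.toFinset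
      obtain ⟨m, hm⟩ := (h1.eventually (gt_mem_nhds (show (0 : ℝ) < 3 / 4 by norm_num))).exists
      refine ⟨A i0 ^ m, (VV A 1).pow_mem (mem_VV A i0 Nat.zero_lt_one) m, ?_⟩
      rw [hF.coe_toFinset] at hm
      exact hm.le)
    (by
      intro k hk hkr J ch b hb hcomp
      let i : Fin r := ⟨k, by omega⟩
      have hi : (i : ℕ) ≠ 0 := by
        change k ≠ 0
        omega
      obtain ⟨hco, hu, hw, hdisc, hna⟩ := hstep i hi
      obtain ⟨β, hβ, h⟩ := hE (Pool.Agent.Helper96.RK.toReg (chStr S J ch)) (hI _) b hcomp (A i) (u i) (w i)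
        (fun n => VV_comm A (fun j _ => haa j i) (hb n))
        (fun n => VV_comm A (fun j hj => (hco j (Fin.lt_def.2 hj)).1) (hb n))
        (fun n => VV_comm A (fun j hj => (hco j (Fin.lt_def.2 hj)).2) (hb n)) hu hw hdisc hna
      refine ⟨β, hβ, fun m => ?_⟩
      obtain ⟨n, q, hnq⟩ := h (TC S (J :: ch) m) (fun n => TC_mem_FC S J ch m n) m
      refine ⟨A i ^ q * b n, ?_, hnq⟩
      exact (VV A (k + 1)).mul_mem ((VV A (k + 1)).zpow_mem (mem_VV A i (Nat.lt_succ_self k)) q)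
        (VV_mono A (Nat.le_succ k) (hb n)))
  have hk : r - 2 + 1 = r - 1 := by omega
  rw [hk] at hb
  have hL : (iL : ℕ) ≠ 0 := by
    change r - 1 ≠ 0
    omega
  obtain ⟨hco, hu, hw, hdisc, hna⟩ := hstep iL hL
  have hne := fun m => TC_nonemptyX (hz := hz1) (b := b) hcomp m
  obtain ⟨hA, hA'⟩ := hφ0 iL (by change r - 1 + 1 = r; omega)
  rcases hH J c hch hne (by omega) with hHaag | hHSR
  · rw [hA'] at hu hw
    exact no_haag a E h3 hp _ (hI _) hHaag b hcomp φ' hφ'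
      (fun n x => VV_comm A (fun j hj => (hφc j (by omega)).2 x) (hb n)) g0 (u iL) (w iL)
      (fun n => VV_comm A (fun j hj => (hco j (Fin.lt_def.2 hj)).1) (hb n))
      (fun n => VV_comm A (fun j hj => (hco j (Fin.lt_def.2 hj)).2) (hb n)) hu hw hdisc hna
  · rw [hA] at hu hw
    exact no_hsr a E h3 hp _ (hI _) hm hC hHSR b hcomp φ hφ
      (fun n x => VV_comm A (fun j hj => (hφc j (by omega)).1 x) (hb n)) hτ (u iL) (w iL)
      (fun n => VV_comm A (fun j hj => (hco j (Fin.lt_def.2 hj)).1) (hb n))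
      (fun n => VV_comm A (fun j hj => (hco j (Fin.lt_def.2 hj)).2) (hb n)) hu hw hdisc hna

end Core

section Main

variable {G1 : Type} [Group G1] [TopologicalSpace G1] [IsTopologicalGroup G1] [LocallyCompactSpace G1]
  [SecondCountableTopology G1] [T2Space G1] {Γ1 : Subgroup G1} {Γ2 : Type} [Group Γ2] {p q m N : ℕ}

theorem no_embN (hL : Pool.Agent.Helper96.FR.Lattice Γ1) (hp : 2 ≤ p) (hG : RankN G1 m p) (ρ : PRep Γ2 N) (hpq : p ≤ q) (hqm : q < p + m)
    (hρ : QHerm ρ p q) (E : Emb Γ1 Γ2) : False := by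
  obtain ⟨S⟩ := nonempty_sv ρ.ph
  have hd : DiscreteTopology Γ1 := hL.1
  have hcount : Countable Γ1 := countable_of_discrete Γ1
  obtain ⟨X, mX, act, μ, hμ, c, hmp, hme, hmul, hF2, hF3, hF4⟩ := exists_cocycle Γ1 hL
  have i1 : MeasurableConstSMul G1 X := ⟨fun g => (hmp g).measurable⟩
  have i2 : SMulInvariantMeasure G1 X μ := ⟨fun g s hs => (hmp g).measure_preimage hs.nullMeasurableSet⟩
  let a : Cocy G1 X Γ1 := ⟨c, fun h l => hme h {l}, hmul⟩
  have hC : 2 * ((q - p : ℕ) : ℝ) + 2 + 1 / 2 < 2 * m + 1 := by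
    have h1 : q - p + 1 ≤ m := by omega
    have h2 : ((q - p : ℕ) : ℝ) + 1 ≤ m := by exact_mod_cast h1
    linarith
  refine no_emb_coreN (S := S) (a := a) (C := 2 * ((q - p : ℕ) : ℝ) + 2 + 1 / 2) hp (by omega) hC (fun T => hasCoc T)
    (fun J c hch hne hl => ?_) E hF2 hF3 (fun F hF => ⟨countable_of_discrete F, hF4 F hF⟩) hG
  rcases hsr_qherm ρ hρ hpq S hch hne hl with h | h
  · exact Or.inl h
  · exact Or.inr (h (1 / 2) (by norm_num))

theorem no_homN (hL : Pool.Agent.Helper96.FR.Lattice Γ1) (hp : 2 ≤ p) (hG : RankN G1 m p) (ρ : PRep Γ2 N) (hpq : p ≤ q) (hqm : q < p + m)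
    (hρ : QHerm ρ p q) (θ : LH Γ1 →⋆ₐ[ℂ] LH Γ2) (hτ : ∀ x, (θ x).tr = x.tr) : False := by
  refine no_embN hL hp hG ρ hpq hqm hρ (homEmb (((bridge Γ2).toStarAlgHom.comp θ).comp (bridge Γ1).symm.toStarAlgHom) fun x => ?_)
  have h1 := hτ ((bridge Γ1).symm x)
  change (θ ((bridge Γ1).symm x)).coeff 1 = ((bridge Γ1).symm x).coeff 1 at h1
  rw [← bridge_coeff, ← bridge_coeff] at h1
  exact h1

theorem no_isoN (hL : Pool.Agent.Helper96.FR.Lattice Γ1) (hp : 2 ≤ p) (hG : RankN G1 m p) (hicc : IsICC Γ1) (ρ : PRep Γ2 N) (hpq : p ≤ q)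
    (hqm : q < p + m) (hρ : QHerm ρ p q) : ¬ IsoL Γ1 Γ2 := by
  rintro ⟨e⟩
  let e' : LG Γ1 ≃⋆ₐ[ℂ] LG Γ2 := (bridge Γ1).symm.trans (e.trans (bridge Γ2))
  exact no_embN hL hp hG ρ hpq hqm hρ (homEmb e'.toStarAlgHom fun x => Pool.Agent.Helper84.TU.tr_iso hicc e' x)

end Main

end Pool.Agent.Helper84.CH
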