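import Pool.Agent.Helper84.CH.V0
import Pool.Agent.Helper84.CH.LG0

/-!
# Project CH (MP_0f6f3f_an): definitions for the main theorem

`SpNOne m`: the group `Sp(m + 1, 1)`. `HasSpN G k m`: there is a proper continuous homomorphism from `SL(2, ℝ)^k × Sp(m + 1, 1)` to `G`. `Below ρ p q`: the matrices of the proper projective representation `ρ` are in
a classical group of real rank at most `p`, different from the groups `Sp(p, q')` with `q' ≥ q`.
-/

set_option autoImplicit false

open Filter Matrix

namespace Pool.Agent.Helper84.CH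

open Pool.Agent.Helper84.SPQ Pool.Agent.Helper66.RKS

/-- The group `Sp(m + 1, 1)`. -/
def SpNOne (m : ℕ) : Type := SpM m

noncomputable instance instGroupSpNOne (m : ℕ) : Group (SpNOne m) := (SpJ (Fin (m + 1) ⊕ Unit) (eM m)).toGroup

noncomputable instance instTopSpNOne (m : ℕ) : TopologicalSpace (SpNOne m) := @instTopologicalSpaceSubtype (MH (Fin (m + 1) ⊕ Unit))ˣ _ _

/-- There is a continuous proper homomorphism from `SL(2, ℝ)^k × Sp(m + 1, 1)` to `G`. -/
def HasSpN (G : Type) [Group G] [TopologicalSpace G] (k m : ℕ) : Prop :=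
  ∃ f : (Fin k → SpecialLinearGroup (Fin 2) ℝ) × SpNOne m →* G, Continuous f ∧ Tendsto f (cocompact _) (cocompact G)

/-- The matrices of `ρ` are in a classical group of real rank at most `p` which is not one of the groups `Sp(p, q')`, `q' ≥ q`: either in one of the groups of `NotSp ρ r`, `r ≤ p`,
or in `Sp(p', q')` with `p' ≤ q'` and `p' < p` or `p' = p`, `q' < q`. -/
def Below {Γ : Type} [Group Γ] {N : ℕ} (ρ : PRep Γ N) (p q : ℕ) : Prop :=
  (∃ r, r ≤ p ∧ NotSp ρ r) ∨ ∃ p' q', p' ≤ q' ∧ (p' < p ∨ (p' = p ∧ q' < q)) ∧ QHerm ρ p' q'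

end Pool.Agent.Helper84.CH
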