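import Pool.Agent.Helper84.CH.M2
import Pool.Agent.Helper84.CH.N1
import Pool.Agent.Helper84.CH.G5
import Pool.Agent.Helper84.CH.ZDef2

/-!
# Project CH, block M3: the main theorems
-/

set_option autoImplicit false
set_option linter.unusedSectionVars false

open MeasureTheory Filter Topology

namespace Pool.Agent.Helper84.CH

open Pool.Agent.Helper84.SPQ
open Pool.Agent.Helper84.NI Pool.Agent.Helper84.GN Pool.Agent.Helper84.GVN Pool.Agent.Helper90.RK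
open Pool.Agent.Helper96.RK Pool.Agent.Helper66.FR Pool.Agent.Helper84.FR Pool.Agent.Helper96.FR
open Pool.Agent.Helper66.RKS Pool.Agent.Helper55.FR Pool.Agent.Helper66.RK

section Main

variable {G1 : Type} [Group G1] [TopologicalSpace G1] [IsTopologicalGroup G1] [LocallyCompactSpace G1]
  [SecondCountableTopology G1] [T2Space G1] {Γ1 : Subgroup G1} {Γ2 : Type} [Group Γ2] {p m N : ℕ}

theorem below_hom (hL : Pool.Agent.Helper96.FR.Lattice Γ1) (hp : 2 ≤ p) (hG : RankN G1 m p) (ρ : PRep Γ2 N)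
    (hρ : Below ρ p (p + m)) (θ : LH Γ1 →⋆ₐ[ℂ] LH Γ2) (hτ : ∀ x, (θ x).tr = x.tr) : False := by
  rcases hρ with ⟨r, hr, hN⟩ | ⟨p', q', hpq, h | ⟨h, hq⟩, hQ⟩
  · exact no_hom3 hL hp hG.rankT ρ hr hN θ hτ
  · have h1 := full_rank_tr hL (rankT_rankGE hG.rankT) (classical_rankLE ρ p' (qherm_classical ρ hQ hpq)) θ hτ
    omega
  · subst h
    exact no_homN hL hp hG ρ hpq hq hQ θ hτ

theorem below_iso (hL : Pool.Agent.Helper96.FR.Lattice Γ1) (hp : 2 ≤ p) (hG : RankN G1 m p) (hicc : IsICC Γ1) (ρ : PRep Γ2 N)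
    (hρ : Below ρ p (p + m)) : ¬ IsoL Γ1 Γ2 := by
  intro hiso
  rcases hρ with ⟨r, hr, hN⟩ | ⟨p', q', hpq, h | ⟨h, hq⟩, hQ⟩
  · exact no_iso3 hL hp hG.rankT hicc ρ hr hN hiso
  · have h1 := full_rank hL hicc (rankT_rankGE hG.rankT) (classical_rankLE ρ p' (qherm_classical ρ hQ hpq)) hiso
    omega
  · subst h
    exact no_isoN hL hp hG hicc ρ hpq hq hQ hiso

end Main

theorem isoL_symm {Γ Λ : Type} [Group Γ] [Group Λ] (h : IsoL Γ Λ) : IsoL Λ Γ := by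
  obtain ⟨e⟩ := h
  exact ⟨e.symm⟩

theorem insts_PSpQ (p q : ℕ) : LocallyCompactSpace (PSpQ p q) ∧ SecondCountableTopology (PSpQ p q) ∧ T2Space (PSpQ p q) := by
  have i1 : T2Space (SpQ p q) := t2_SpJ (sgnpq p q)
  have i2 : LocallyCompactSpace (SpQ p q) := locallyCompact_SpJ (sgnpq p q)
  have i3 : SecondCountableTopology (SpQ p q) := secondCountable_SpJ (sgnpq p q)
  have hcl : IsClosed (Subgroup.center (SpQ p q) : Set (SpQ p q)) := (center_compact p q).isClosed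
  have i4 : T2Space (PSpQ p q) := by
    have h3 : T3Space (SpQ p q ⧸ Subgroup.center (SpQ p q)) := @QuotientGroup.instT3Space _ _ _ _ _ _ hcl
    infer_instance
  exact ⟨inferInstance, inferInstance, i4⟩

theorem main_PSpQ2 {p q : ℕ} (hp : 2 ≤ p) (hpq : p < q) (Γ₁ : Subgroup (PSpQ p q)) (hL : Pool.Agent.Helper96.FR.Lattice Γ₁)
    (Γ₂ : Type) [Group Γ₂] (N : ℕ) (ρ : PRep Γ₂ N) (hρ : Below ρ p q) :
    ¬ Pool.Agent.Helper66.BD.EmbL Γ₁ Γ₂ ∧ ¬ IsoL Γ₁ Γ₂ := by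
  obtain ⟨i1, i2, i3⟩ := insts_PSpQ p q
  have e : q = p + (q - p) := by omega
  have hρ' : Below ρ p (p + (q - p)) := by
    rw [← e]
    exact hρ
  refine ⟨?_, below_iso hL hp (rankN_PSpQ hp hpq) (icc_PSpQ (by omega) (by omega) hL) ρ hρ'⟩
  rintro ⟨θ, hτ⟩
  exact below_hom hL hp (rankN_PSpQ hp hpq) ρ hρ' θ hτ

private theorem rank_le84 {p q p' q' : ℕ} (hp : 1 ≤ p) (hpq : p ≤ q) (hp' : 1 ≤ p') (hpq' : p' ≤ q') (Γ₁ : Subgroup (PSpQ p q))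
    (h₁ : Pool.Agent.Helper96.FR.Lattice Γ₁) (Γ₂ : Subgroup (PSpQ p' q')) (h₂ : Pool.Agent.Helper96.FR.Lattice Γ₂) (h : IsoL Γ₁ Γ₂) :
    p ≤ p' := by
  obtain ⟨i1, i2, i3⟩ := insts_PSpQ p q
  obtain ⟨ρ, hρ⟩ := exists_prepQ hp' (by omega) Γ₂ h₂.1
  exact full_rank h₁ (icc_PSpQ hp (by omega) h₁) (rankGE_PSpQ hp hpq) (classical_rankLE ρ p' (qherm_classical ρ hρ hpq')) h

private theorem qq_le84 {p q q' : ℕ} (hp : 2 ≤ p) (hpq : p ≤ q) (hpq' : p ≤ q') (Γ₁ : Subgroup (PSpQ p q))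
    (h₁ : Pool.Agent.Helper96.FR.Lattice Γ₁) (Γ₂ : Subgroup (PSpQ p q')) (h₂ : Pool.Agent.Helper96.FR.Lattice Γ₂) (h : IsoL Γ₁ Γ₂) :
    q ≤ q' := by
  by_contra hcon
  rw [not_le] at hcon
  obtain ⟨ρ, hρ⟩ := exists_prepQ (by omega) (by omega) Γ₂ h₂.1
  exact (main_PSpQ2 hp (by omega) Γ₁ h₁ Γ₂ _ ρ (Or.inr ⟨p, q', hpq', Or.inr ⟨rfl, hcon⟩, hρ⟩)).2 h

/-- The algebra of a lattice of `PSp(p, q)` determines `p` and `q`. -/
theorem sp_determined {p q p' q' : ℕ} (hp : 2 ≤ p) (hpq : p ≤ q) (hp' : 1 ≤ p') (hpq' : p' ≤ q') (Γ₁ : Subgroup (PSpQ p q))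
    (h₁ : Pool.Agent.Helper96.FR.Lattice Γ₁) (Γ₂ : Subgroup (PSpQ p' q')) (h₂ : Pool.Agent.Helper96.FR.Lattice Γ₂) (h : IsoL Γ₁ Γ₂) :
    p = p' ∧ q = q' := by
  have e : p = p' := le_antisymm (rank_le84 (by omega) hpq hp' hpq' Γ₁ h₁ Γ₂ h₂ h)
    (rank_le84 hp' hpq' (by omega) hpq Γ₂ h₂ Γ₁ h₁ (isoL_symm h))
  subst e
  exact ⟨rfl, le_antisymm (qq_le84 hp hpq hpq' Γ₁ h₁ Γ₂ h₂ h) (qq_le84 hp hpq' hpq Γ₂ h₂ Γ₁ h₁ (isoL_symm h))⟩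

end Pool.Agent.Helper84.CH
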