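import Pool.Agent.Helper84.CH.V0
import Pool.Agent.Helper84.FR.XS

/-!
# Project CH, part T: the representation of the left translations on `XVp` for a cocycle `CocL` (definitions)

`WhatL Γ g ξ γ = Γ.pi g γ (ξ (g⁻¹ γ 1))`, `XAL μ Γ`: the representation of `G` on `XVp μ R L`; `VQ`, `VP`, `V0 : XUa μ R → XVp μ R L`: multiplication by the sections `Q`, `P`, `q0`.
-/

set_option autoImplicit false

open Filter Topology Matrix

namespace Pool.Agent.Helper84.CH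

open NI GVN GN FR MeasureTheory Pool.Agent.Helper66.FR

section What

variable {G : Type} [Group G] {R : Reg G} {L : Type} [NormedAddCommGroup L] [InnerProductSpace ℂ L] {C : ℝ}

/-- The operator `(ξ_γ) ↦ (pi g γ ξ_{g⁻¹ γ})` on `ℓ²(G; L)`. -/
noncomputable def WhatL (Γ : CocL R L C) (g : G) : Lv G L ≃ₗᵢ[ℂ] Lv G L :=
  (permV (tr g 1)).trans (dgU fun γ => Γ.pi g γ)

theorem WhatL_apply (Γ : CocL R L C) (g : G) (ξ : Lv G L) (γ : G) :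
    WhatL Γ g ξ γ = Γ.pi g γ (ξ (g⁻¹ * γ * 1)) := rfl

end What

variable {G X : Type} [Group G] [MeasurableSpace X] {μ : Measure X} {R : Reg G} {L : Type} [NormedAddCommGroup L] [InnerProductSpace ℂ L]
  {C : ℝ}

theorem xwl_gen' (Γ : CocL R L C) (g : G) {F : G → L} {K : ℝ} (hC : ∀ γ, ‖F γ‖ ≤ K) (a : UE μ (L2 G)) :
    UE.mapU μ (WhatL Γ g) (UE.map μ (mulF F) a) =
      UE.map μ (mulF fun γ => Γ.pi g γ (F (g⁻¹ * γ * 1)))
      (UE.map μ ((permV (tr g 1) : Lv G ℂ ≃ₗᵢ[ℂ] Lv G ℂ).toContinuousLinearEquiv : L2 G →L[ℂ] L2 G) a) := by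
  rw [UE.mapU_apply, ← UE.map_comp, ← UE.map_comp]
  refine congrArg (fun T => UE.map μ T a) ?_
  ext f : 1
  refine lv_ext fun γ => ?_
  have h' : ∀ γ, ‖Γ.pi g γ (F (g⁻¹ * γ * 1))‖ ≤ K := fun γ => by
    rw [LinearIsometryEquiv.norm_map]
    exact hC _
  change WhatL Γ g (mulF F f) γ = mulF (fun γ => Γ.pi g γ (F (g⁻¹ * γ * 1))) (permV (tr g 1) f) γ
  rw [WhatL_apply, mulF_apply hC, mulF_apply h', permV_tr, map_smul]

theorem xwl_gen (Γ : CocL R L C) (g : G) (w : L) (a : UE μ (L2 G)) :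
    UE.mapU μ (WhatL Γ g) (UE.map μ (mulF fun _ => w) a) = UE.map μ (mulF fun γ => Γ.pi g γ w)
      (UE.map μ ((permV (tr g 1) : Lv G ℂ ≃ₗᵢ[ℂ] Lv G ℂ).toContinuousLinearEquiv : L2 G →L[ℂ] L2 G) a) :=
  xwl_gen' Γ g (F := fun _ => w) (fun _ => le_refl ‖w‖) a

theorem xwl_mem (Γ : CocL R L C) (g : G) (ξ : UE μ (Lv G L)) (hξ : ξ ∈ (XVp μ R L)) :
    UE.mapU μ (WhatL Γ g) ξ ∈ (XVp μ R L) := by
  set T : UE μ (Lv G L) →L[ℂ] UE μ (Lv G L) :=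
    UE.map μ ((WhatL Γ g).toContinuousLinearEquiv : Lv G L →L[ℂ] Lv G L) with hT
  have hcl : IsClosed ((((XVp μ R L)).comap (T : UE μ (Lv G L) →ₗ[ℂ] UE μ (Lv G L)) :
      Submodule ℂ (UE μ (Lv G L))) : Set (UE μ (Lv G L))) := by
    have h1 : IsClosed (((XVp μ R L)) : Set (UE μ (Lv G L))) :=
      Submodule.isClosed_topologicalClosure _
    exact h1.preimage T.continuous
  have hle : (XVp μ R L) ≤ ((XVp μ R L)).comap (T : UE μ (Lv G L) →ₗ[ℂ] UE μ (Lv G L)) := by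
    refine Submodule.topologicalClosure_minimal _ (Submodule.span_le.mpr ?_) hcl
    rintro _ ⟨w, a, ha, rfl⟩
    change UE.mapU μ (WhatL Γ g) (UE.map μ (mulF fun _ => w) a) ∈ (XVp μ R L)
    rw [xwl_gen]
    exact xmap_mulF_mem R (C := ‖w‖) (fun γ => by rw [LinearIsometryEquiv.norm_map])
      (fun n => Γ.cpt g n w) (perm_mem_XUa R g 1 ha)
  exact hle hξ

theorem xwl_mul (Γ : CocL R L C) (g g' : G) (ξ : UE μ (Lv G L)) (hξ : ξ ∈ (XVp μ R L)) :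
    UE.mapU μ (WhatL Γ (g * g')) ξ = UE.mapU μ (WhatL Γ g) (UE.mapU μ (WhatL Γ g') ξ) := by
  set T1 : UE μ (Lv G L) →L[ℂ] UE μ (Lv G L) :=
    UE.map μ ((WhatL Γ (g * g')).toContinuousLinearEquiv : Lv G L →L[ℂ] Lv G L) with hT1
  set T2 : UE μ (Lv G L) →L[ℂ] UE μ (Lv G L) :=
    UE.map μ ((WhatL Γ g).toContinuousLinearEquiv : Lv G L →L[ℂ] Lv G L) with hT2
  set T3 : UE μ (Lv G L) →L[ℂ] UE μ (Lv G L) :=
    UE.map μ ((WhatL Γ g').toContinuousLinearEquiv : Lv G L →L[ℂ] Lv G L) with hT3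
  have hcl : IsClosed ((LinearMap.ker ((T1 - T2.comp T3 : UE μ (Lv G L) →L[ℂ] UE μ (Lv G L)) :
      UE μ (Lv G L) →ₗ[ℂ] UE μ (Lv G L)) : Submodule ℂ (UE μ (Lv G L))) : Set (UE μ (Lv G L))) :=
    ContinuousLinearMap.isClosed_ker _
  have hle : (XVp μ R L) ≤ LinearMap.ker ((T1 - T2.comp T3 : UE μ (Lv G L) →L[ℂ] UE μ (Lv G L)) :
      UE μ (Lv G L) →ₗ[ℂ] UE μ (Lv G L)) := by
    refine Submodule.topologicalClosure_minimal _ (Submodule.span_le.mpr ?_) hcl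
    rintro _ ⟨w, a, ha, rfl⟩
    rw [SetLike.mem_coe, LinearMap.mem_ker]
    change UE.mapU μ (WhatL Γ (g * g')) (UE.map μ (mulF fun _ => w) a) -
      UE.mapU μ (WhatL Γ g) (UE.mapU μ (WhatL Γ g') (UE.map μ (mulF fun _ => w) a)) = 0
    have b1 : ∀ γ, ‖Γ.pi g' γ w‖ ≤ ‖w‖ := fun γ => by rw [LinearIsometryEquiv.norm_map]
    have b2 : ∀ γ, ‖Γ.pi (g * g') γ w‖ ≤ ‖w‖ := fun γ => by
      rw [LinearIsometryEquiv.norm_map]
    have b3 : ∀ γ, ‖Γ.pi g γ (Γ.pi g' (g⁻¹ * γ * 1) w)‖ ≤ ‖w‖ := fun γ => by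
      rw [LinearIsometryEquiv.norm_map, LinearIsometryEquiv.norm_map]
    have b4 : ∀ γ, ‖Γ.pi (g * g') γ w -
        Γ.pi g γ (Γ.pi g' (g⁻¹ * γ * 1) w)‖ ≤ ‖w‖ + ‖w‖ := fun γ =>
      (norm_sub_le _ _).trans (add_le_add (b2 γ) (b3 γ))
    rw [xwl_gen, xwl_gen, xwl_gen' Γ g b1, xperm_perm, one_mul]
    rw [← UE.map_sub, mulF_sub' b2 b3]
    exact xmap_mulF_zero R b4 (fun n => Γ.mul g g' n w) (perm_mem_XUa R _ _ ha)
  have h1 := hle hξ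
  rw [LinearMap.mem_ker] at h1
  exact sub_eq_zero.mp h1

theorem xwl_one (Γ : CocL R L C) (ξ : UE μ (Lv G L)) : UE.mapU μ (WhatL Γ 1) ξ = ξ := by
  rw [UE.mapU_apply]
  refine Eq.trans (congrArg (fun T => UE.map μ T ξ) ?_) (UE.map_id ξ)
  ext f : 1
  refine lv_ext fun γ => ?_
  change WhatL Γ 1 f γ = f γ
  rw [WhatL_apply, Γ.one, inv_one, one_mul, mul_one]

variable (μ) in
/-- The left action on `XVp`. -/
noncomputable def XAL (Γ : CocL R L C) : G →* ((XVp μ R L) ≃ₗᵢ[ℂ] (XVp μ R L)) :=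
  partialRep (fun g => UE.mapU μ (WhatL Γ g)) ((XVp μ R L)) (fun g x hx => xwl_mem Γ g x hx)
    (fun x _ => xwl_one Γ x) (fun g g' x hx => xwl_mul Γ g g' x hx)

theorem coe_XAL (Γ : CocL R L C) (g : G) (x : (XVp μ R L)) : (XAL μ Γ g x : UE μ (Lv G L)) = UE.mapU μ (WhatL Γ g) x := rfl

variable (μ) in
/-- Multiplication by a section. -/
noncomputable def VF (F : G → L) {K : ℝ} (hK : ∀ γ, ‖F γ‖ ≤ K) (hc : ∀ n, ∃ K : Set L, IsCompact K ∧ ∀ᶠ γ in R.F n, F γ ∈ K) :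
    (XUa μ R) →L[ℂ] (XVp μ R L) :=
  rst (UE.map μ (mulF F)) (XUa μ R) (XVp μ R L) fun _ ha => xmap_mulF_mem R hK hc ha

theorem coe_VF {F : G → L} {K : ℝ} {hK : ∀ γ, ‖F γ‖ ≤ K} {hc : ∀ n, ∃ K : Set L, IsCompact K ∧ ∀ᶠ γ in R.F n, F γ ∈ K} (a : XUa μ R) :
    (VF μ F hK hc a : UE μ (Lv G L)) = UE.map μ (mulF F) (a : UE μ (L2 G)) := rfl

theorem norm_sq_le {v : L} {C : ℝ} (h : ‖v‖ ^ 2 ≤ C) : ‖v‖ ≤ Real.sqrt C := Real.le_sqrt_of_sq_le h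

variable (μ) in
/-- The section `Q`. -/
noncomputable def VQ (Γ : CocL R L C) : (XUa μ R) →L[ℂ] (XVp μ R L) := VF μ Γ.Q (fun γ => norm_sq_le (Γ.bQ γ)) Γ.cptQ

variable (μ) in
/-- The section `P`. -/
noncomputable def VP (Γ : CocL R L C) : (XUa μ R) →L[ℂ] (XVp μ R L) := VF μ Γ.P (fun γ => norm_sq_le (Γ.bP γ)) Γ.cptP

variable (μ) in
/-- The constant section. -/
noncomputable def V1 (Γ : CocL R L C) : (XUa μ R) →L[ℂ] (XVp μ R L) :=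
  VF μ (fun _ => Γ.q0) (K := ‖Γ.q0‖) (fun _ => le_rfl) fun _ => ⟨{Γ.q0}, isCompact_singleton, Eventually.of_forall fun _ => rfl⟩

end Pool.Agent.Helper84.CH
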