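import Pool.Agent.Helper84.CH.T0
import Pool.Agent.Helper84.SPQ.A2

/-!
# Project CH, block T1: the representation `XAL` and the sections `VQ`, `VP`, `V1`

PROOFS. `hom_XAL`: as `mrep_XV` in `FR/XS.lean` (`hom_rst (xmU_hom b ..) ..`). `hom_VF`: as `hom_XTL` there. `norm_VF`: `UE.norm_map_le_of`, `norm_mulF_le`. `V1_A`: as `XTR_A` in `FR/XE.lean` (`xwl_gen`, `Γ.left`, `xmap_mulF_zero`).
`inner_VP_V1`: as `adj_mulF`, `inner_XTL_XTR` in `FR/XE.lean` (`(mulF P)* mulF q0 = mulop ⟪P γ, q0⟫`; the bounds `√C` instead of `1`). `inv_V`. PROOF. With `f γ = ⟪P γ, pi s γ (Q (s⁻¹ γ 1))⟫` (bounded by `C`): `⟪VP η, XAL s (VQ ξ)⟫ = ⟪η, mulop f (XAlim s ξ)⟫` (`xwl_gen'`, and `(mulF P)* mulF F = mulop ⟪P γ, F γ⟫` for bounded `F`, as `adj_mulF`).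
`XBlim g` is the right translation `permV (tr 1 g)`: `⟪XBU g⁻¹ η, ζ⟫ = ⟪η, XBU g ζ⟫`; `XBlim g (mulop f x) = mulop (γ ↦ f (γ g)) (XBlim g x)`, `XAlim` and `XBlim` commute, so the difference of the two sides is `⟪η, mulop (γ ↦ f γ - f (γ g)) (XBlim g (XAlim s ξ))⟫ = 0`, since `mulop (f - f(. g))` kills `XUa` (`xmap_mulF_zero` with `L = ℂ`:
`mulop F = mulF F` up to the identification of `F γ • x` with `x * F γ`, or repeat its proof) by `Γ.inv s g`.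
-/

set_option autoImplicit false

open Filter Topology Matrix

namespace Pool.Agent.Helper84.CH

open NI GVN GN FR MeasureTheory Pool.Agent.Helper66.FR

section Hom

variable {G1 X : Type} [Group G1] [MeasurableSpace X] {μ : Measure X} [MulAction G1 X]
  [MeasurableConstSMul G1 X] [SMulInvariantMeasure G1 X μ] [IsProbabilityMeasure μ]
variable {G : Type} [Group G] {R : Reg G} {L : Type} [NormedAddCommGroup L] [InnerProductSpace ℂ L]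
  [CompleteSpace L] {C : ℝ} (b : ℕ → G1)

theorem hom_XAL (Γ : CocL R L C) (g : G) :
    (xmVp μ b R L).Hom (xmVp μ b R L) ((XAL μ Γ g).toContinuousLinearEquiv : XVp μ R L →L[ℂ] XVp μ R L) :=
  hom_rst (xmU_hom b (((WhatL Γ g).toContinuousLinearEquiv : Lv G L →L[ℂ] Lv G L))) _ _
    (fun x hx => xwl_mem Γ g x hx)

theorem hom_VF {F : G → L} {K : ℝ} (hK : ∀ γ, ‖F γ‖ ≤ K) (hc : ∀ n, ∃ K : Set L, IsCompact K ∧ ∀ᶠ γ in R.F n, F γ ∈ K) :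
    (xmUa μ b R).Hom (xmVp μ b R L) (VF μ F hK hc) :=
  hom_rst (xmU_hom b (mulF F)) _ _ fun _ ha => xmap_mulF_mem R hK hc ha

end Hom

variable {G X : Type} [Group G] [MeasurableSpace X] {μ : Measure X} {R : Reg G} {L : Type} [NormedAddCommGroup L] [InnerProductSpace ℂ L]
  {C : ℝ}

theorem norm_VF {F : G → L} {K : ℝ} (hK : ∀ γ, ‖F γ‖ ≤ K) (hc : ∀ n, ∃ K : Set L, IsCompact K ∧ ∀ᶠ γ in R.F n, F γ ∈ K) (a : XUa μ R) :
    ‖VF μ F hK hc a‖ ≤ K * ‖a‖ := by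
  have hK0 : 0 ≤ K := (norm_nonneg _).trans (hK 1)
  have h1 := UE.norm_map_le_of hK0 (norm_mulF_le hK0 hK) (a : UE μ (L2 G))
  change ‖UE.map μ (mulF F) (a : UE μ (L2 G))‖ ≤ K * ‖(a : UE μ (L2 G))‖
  exact h1

theorem V1_A (Γ : CocL R L C) (g : G) (a : XUa μ R) : V1 μ Γ (XAU R g a) = XAL μ Γ g (V1 μ Γ a) := by
  apply Subtype.ext
  rw [coe_XAL]
  change UE.map μ (mulF fun _ => Γ.q0) (XAlim μ G g (a : UE μ (L2 G))) =
    UE.mapU μ (WhatL Γ g) (UE.map μ (mulF fun _ => Γ.q0) (a : UE μ (L2 G)))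
  rw [xwl_gen, XAlim_apply]
  have b1 : ∀ γ : G, ‖(fun _ : G => Γ.q0) γ‖ ≤ ‖Γ.q0‖ := fun _ => le_rfl
  have b2 : ∀ γ, ‖Γ.pi g γ Γ.q0‖ ≤ ‖Γ.q0‖ := fun γ => by rw [LinearIsometryEquiv.norm_map]
  rw [← sub_eq_zero, ← UE.map_sub, mulF_sub' b1 b2]
  refine xmap_mulF_zero R (C := ‖Γ.q0‖ + ‖Γ.q0‖)
    (fun γ => (norm_sub_le _ _).trans (add_le_add (b1 γ) (b2 γ)))
    (fun n => ?_) (perm_mem_XUa R g 1 a.2)
  have h := (Γ.left g n).neg
  rw [neg_zero] at h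
  exact h.congr fun γ => neg_sub _ _

omit [Group G] in
private theorem mulop_eq_h12 {f : G → ℂ} {K : ℝ} (hf : ∀ γ, ‖f γ‖ ≤ K) : (mulop f : L2 G →L[ℂ] L2 G) = mulF f := by
  ext x : 1
  refine lv_ext fun γ => ?_
  rw [mulF_apply hf]
  unfold mulop
  rw [dg_apply (C := K) (fun i y => by
    rw [_root_.smul_apply, norm_smul]
    exact mul_le_mul_of_nonneg_right (hf i) (norm_nonneg _))]
  rw [_root_.smul_apply, ContinuousLinearMap.id_apply, smul_eq_mul, smul_eq_mul, mul_comm]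

omit [Group G] in
private theorem adj_h12 [CompleteSpace L] {F F' : G → L} {K K' : ℝ} (hF : ∀ γ, ‖F γ‖ ≤ K) (hF' : ∀ γ, ‖F' γ‖ ≤ K') :
    (ContinuousLinearMap.adjoint (mulF F : L2 G →L[ℂ] Lv G L)).comp (mulF F') =
      mulop fun γ => inner ℂ (F γ) (F' γ) := by
  have hfb : ∀ γ, ‖(inner ℂ (F γ) (F' γ) : ℂ)‖ ≤ K * K' := fun γ => by
    refine (norm_inner_le_norm _ _).trans ?_
    exact mul_le_mul (hF γ) (hF' γ) (norm_nonneg _) ((norm_nonneg _).trans (hF γ))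
  have key : ∀ x y : L2 G, inner ℂ (mulF F x) (mulF F' y) =
      inner ℂ x (mulop (fun γ => inner ℂ (F γ) (F' γ)) y) := by
    intro x y
    refine (lv_inner _ _).unique ?_
    have e : (fun γ => inner ℂ (mulF F x γ) (mulF F' y γ)) =
        fun γ => inner ℂ (x γ) (mulop (fun γ => inner ℂ (F γ) (F' γ)) y γ) := by
      funext γ
      rw [mulop_eq_h12 hfb, mulF_apply hF, mulF_apply hF', mulF_apply hfb, inner_smul_left, inner_smul_right,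
        RCLike.inner_apply, smul_eq_mul]
      ring
    rw [e]
    exact lv_inner x (mulop (fun γ => inner ℂ (F γ) (F' γ)) y)
  refine ContinuousLinearMap.ext fun y => ?_
  refine ext_inner_left ℂ fun x => ?_
  rw [ContinuousLinearMap.comp_apply, ContinuousLinearMap.adjoint_inner_right]
  exact key x y

omit [Group G] in
private theorem inner_h12 [CompleteSpace L] {F F' : G → L} {K K' : ℝ} (hF : ∀ γ, ‖F γ‖ ≤ K) (hF' : ∀ γ, ‖F' γ‖ ≤ K')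
    (a b : UE μ (L2 G)) : (inner ℂ (UE.map μ (mulF F) a) (UE.map μ (mulF F') b) : ℂ) =
      inner ℂ a (UE.map μ (mulop fun γ => inner ℂ (F γ) (F' γ)) b) := by
  rw [UE.inner_map, ← UE.map_comp, adj_h12 hF hF']

theorem inner_VP_V1 [CompleteSpace L] (Γ : CocL R L C) (a b : XUa μ R) : (inner ℂ (VP μ Γ a) (V1 μ Γ b) : ℂ) =
    inner ℂ (a : UE μ (L2 G)) (UE.map μ (mulop fun γ => inner ℂ (Γ.P γ) Γ.q0) (b : UE μ (L2 G))) := by
  change (inner ℂ (UE.map μ (mulF Γ.P) (a : UE μ (L2 G)))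
    (UE.map μ (mulF fun _ => Γ.q0) (b : UE μ (L2 G))) : ℂ) = _
  exact inner_h12 (fun γ => norm_sq_le (Γ.bP γ)) (fun _ => le_refl ‖Γ.q0‖) _ _

private theorem perm_mulop_h12 (g : G) {f : G → ℂ} {K : ℝ} (hf : ∀ γ, ‖f γ‖ ≤ K) (a : UE μ (L2 G)) :
    UE.map μ ((permV (tr 1 g) : Lv G ℂ ≃ₗᵢ[ℂ] Lv G ℂ).toContinuousLinearEquiv : L2 G →L[ℂ] L2 G)
      (UE.map μ (mulop f) a) = UE.map μ (mulop fun γ => f (γ * g))
      (UE.map μ ((permV (tr 1 g) : Lv G ℂ ≃ₗᵢ[ℂ] Lv G ℂ).toContinuousLinearEquiv : L2 G →L[ℂ] L2 G) a) := by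
  rw [← UE.map_comp, ← UE.map_comp]
  refine congrArg (fun T => UE.map μ T a) ?_
  ext x : 1
  refine lv_ext fun γ => ?_
  have hf' : ∀ γ, ‖(fun γ => f (γ * g)) γ‖ ≤ K := fun γ => hf _
  change permV (tr 1 g) (mulop f x) γ = mulop (fun γ => f (γ * g)) (permV (tr 1 g) x) γ
  rw [permV_tr, mulop_eq_h12 hf, mulop_eq_h12 hf', mulF_apply hf, mulF_apply hf', permV_tr]
  rw [inv_one, one_mul]

theorem inv_V [CompleteSpace L] (Γ : CocL R L C) (s g : G) (η ξ : XUa μ R) :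
    (inner ℂ (VP μ Γ η) (XAL μ Γ s (VQ μ Γ (XBU R g ξ))) : ℂ) = inner ℂ (VP μ Γ (XBU R g⁻¹ η)) (XAL μ Γ s (VQ μ Γ ξ)) := by
  have bP : ∀ γ, ‖Γ.P γ‖ ≤ Real.sqrt C := fun γ => norm_sq_le (Γ.bP γ)
  have bQ : ∀ γ, ‖Γ.Q γ‖ ≤ Real.sqrt C := fun γ => norm_sq_le (Γ.bQ γ)
  have bQ' : ∀ γ, ‖Γ.pi s γ (Γ.Q (s⁻¹ * γ * 1))‖ ≤ Real.sqrt C := fun γ => by
    rw [LinearIsometryEquiv.norm_map]
    exact bQ _
  set f : G → ℂ := fun γ => inner ℂ (Γ.P γ) (Γ.pi s γ (Γ.Q (s⁻¹ * γ * 1))) with hf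
  have hfb : ∀ γ, ‖f γ‖ ≤ Real.sqrt C * Real.sqrt C := fun γ => by
    refine (norm_inner_le_norm _ _).trans ?_
    exact mul_le_mul (bP γ) (bQ' γ) (norm_nonneg _) (Real.sqrt_nonneg _)
  have hfb' : ∀ γ, ‖(fun γ => f (γ * g)) γ‖ ≤ Real.sqrt C * Real.sqrt C := fun γ => hfb _
  change (inner ℂ (UE.map μ (mulF Γ.P) (η : UE μ (L2 G)))
      (UE.mapU μ (WhatL Γ s) (UE.map μ (mulF Γ.Q) (XBlim μ G g (ξ : UE μ (L2 G))))) : ℂ) =
    inner ℂ (UE.map μ (mulF Γ.P) (XBlim μ G g⁻¹ (η : UE μ (L2 G))))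
      (UE.mapU μ (WhatL Γ s) (UE.map μ (mulF Γ.Q) (ξ : UE μ (L2 G))))
  rw [xwl_gen' Γ s bQ, xwl_gen' Γ s bQ, inner_h12 bP bQ', inner_h12 bP bQ']
  have h1 : ∀ x y : UE μ (L2 G), (inner ℂ (XBlim μ G g⁻¹ x) y : ℂ) = inner ℂ x (XBlim μ G g y) := by
    intro x y
    rw [← LinearIsometryEquiv.inner_map_map (XBlim μ G g), map_inv]
    congr 1
    exact LinearIsometryEquiv.apply_symm_apply _ _
  rw [h1, XBlim_apply, XBlim_apply, perm_mulop_h12 g hfb, xperm_perm, xperm_perm, one_mul, one_mul, mul_one, mul_one]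
  congr 1
  have hz := perm_mem_XUa (μ := μ) R s g ξ.2
  rw [mulop_eq_h12 hfb, mulop_eq_h12 hfb', ← sub_eq_zero, ← UE.map_sub, mulF_sub' hfb hfb']
  refine xmap_mulF_zero R (C := Real.sqrt C * Real.sqrt C + Real.sqrt C * Real.sqrt C)
    (fun γ => (norm_sub_le _ _).trans (add_le_add (hfb γ) (hfb' γ))) (fun n => ?_) hz
  have h := (Γ.inv s g n).neg
  rw [neg_zero] at h
  exact h.congr fun γ => neg_sub _ _

end Pool.Agent.Helper84.CH
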