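import Pool.Agent.Helper84.FR.SG

/-!
# Project CH, block T2: matrix coefficients of the normal extension; the operators `VP* L_k VQ`

`dc_ext`. PROOF. On the Hilbert space `K2 = WithLp 2 (K × K)` let `A2 = A ⊕ A` (a homomorphism `G →* (K2 ≃ₗᵢ[ℂ] K2)`; `LinearIsometryEquiv` from the two components), `x = (ξ1, ξ2)`, `y = (η1, -η2)`. `Z` = closed span of the `A2 s x`: invariant under all `A2 s`, so the projection `P` on `Z` commutes with `A2` (`proj_comm`-type argument, see `proj_comm` in `FR/XR.lean`),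
so with `ext A2 E l` (`map_ext` with `T = P`). `x ∈ Z`, so `ext A2 E l x = P (ext A2 E l x) ∈ Z`, and `y ⟂ Z` by `h`. The coordinates of `ext A2 E l x` are `ext A E l ξ1`, `ext A E l ξ2` (`map_ext` with the coordinate projections `K2 → K`).
`Tk`. Let `T k = VP* (L_k (VQ ·))`, `L_k = opL M a (ext A E) k = S_k tw(px, ext A E, a_k)`. `Tk_B`: by `tw_hasSum`, `T k ξ = ∑_l VP* S_k px{a_k = l} (ext A E l (VQ ξ))`; `VP*` commutes with shifts and projections like `VP` (adjoints: `PV.symm`, `(M.S h)* = M.S h⁻¹`), so the terms are `S_k px{a_k = l} (VP* (ext A E l (VQ ξ)))`;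
and `VP* (ext A E l (VQ (B0 g ξ))) = B0 g (VP* (ext A E l (VQ ξ)))` by `dc_ext` and `hinv` (test with `η`; `B0 g` is unitary: `⟪B0 g⁻¹ η, ζ⟫ = ⟪η, B0 g ζ⟫`); `B0 g` commutes with `S_k`, `px`. `Tk_py`: `py` commutes with `tw(px, ..)` (`tw_comm`) and `S_k` moves it (`M.Sy`); `VQ`, `VP*` commute with `py`.
`Tk_tw`: `tw_shift` for `S = T k`, `P = M0.py`, `U = ext B0 E.conj`, `e x = k⁻¹ • x`, with `T k (ext B0 E.conj l ξ) = ext B0 E.conj l (T k ξ)` (`map_ext`).
-/

set_option autoImplicit false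

open Filter Topology MeasureTheory

namespace Pool.Agent.Helper84.CH

open NI GVN FR

variable {C X Λ G : Type} [Group C] [MulAction C X] [MeasurableSpace X] [MeasurableConstSMul C X]
  [Group Λ] [Countable Λ] [Group G]
variable {H K : Type} [NormedAddCommGroup H] [InnerProductSpace ℂ H] [CompleteSpace H]
  [NormedAddCommGroup K] [InnerProductSpace ℂ K] [CompleteSpace K]

section aux67

omit [CompleteSpace K] in
private theorem proj_comm67 {V : Submodule ℂ K} [V.HasOrthogonalProjection] {T T' : K →L[ℂ] K}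
    (hadj : ∀ x y, inner ℂ (T x) y = inner ℂ x (T' y)) (h1 : ∀ x ∈ V, T x ∈ V) (h2 : ∀ x ∈ V, T' x ∈ V)
    (f : K) : V.starProjection (T f) = T (V.starProjection f) := by
  apply Submodule.eq_starProjection_of_mem_orthogonal
  · exact h1 _ (Submodule.starProjection_apply_mem V f)
  · rw [← map_sub, Submodule.mem_orthogonal']
    intro u hu
    have h3 := (Submodule.mem_orthogonal' _ _).1 (Submodule.sub_starProjection_mem_orthogonal
      (K := V) f) (T' u) (h2 u hu)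
    rw [hadj]
    exact h3

/-- the vectors orthogonal to an orbit -/
private noncomputable def ZZ67 (A : G →* (K ≃ₗᵢ[ℂ] K)) (y : K) : Submodule ℂ K :=
  (Submodule.span ℂ (Set.range fun s => A s y))ᗮ

omit [CompleteSpace K] in
private theorem mem_ZZ67 {A : G →* (K ≃ₗᵢ[ℂ] K)} {y z : K} : z ∈ ZZ67 A y ↔ ∀ s, (inner ℂ (A s y) z : ℂ) = 0 := by
  constructor
  · intro h s
    exact (Submodule.mem_orthogonal _ _).1 h _ (Submodule.subset_span ⟨s, rfl⟩)
  · intro h
    rw [ZZ67, Submodule.mem_orthogonal]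
    intro u hu
    induction hu using Submodule.span_induction with
    | mem x hx =>
      obtain ⟨s, rfl⟩ := hx
      exact h s
    | zero => exact inner_zero_left _
    | add x y _ _ hx hy => rw [inner_add_left, hx, hy, add_zero]
    | smul a x _ hx => rw [inner_smul_left, hx, mul_zero]

omit [CompleteSpace K] in
private theorem adj67 (A : G →* (K ≃ₗᵢ[ℂ] K)) (g : G) (x y : K) : (inner ℂ (A g x) y : ℂ) = inner ℂ x (A g⁻¹ y) := by
  rw [← LinearIsometryEquiv.inner_map_map (A g) x (A g⁻¹ y)]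
  congr 1
  change y = (A g * A g⁻¹) y
  rw [← map_mul, mul_inv_cancel, map_one]
  rfl

omit [CompleteSpace K] in
private theorem ZZ_inv67 {A : G →* (K ≃ₗᵢ[ℂ] K)} {y z : K} (g : G) (hz : z ∈ ZZ67 A y) : A g z ∈ ZZ67 A y := by
  rw [mem_ZZ67] at hz ⊢
  intro s
  have h1 := hz (g⁻¹ * s)
  rw [map_mul] at h1
  have h2 := adj67 A g⁻¹ (A s y) z
  rw [inv_inv] at h2
  rw [← h2]
  exact h1

omit [Countable Λ] in
private theorem ext_mem67 {A : G →* (K ≃ₗᵢ[ℂ] K)} {y z : K} (E : Emb Λ G) (l : Λ) (hz : z ∈ ZZ67 A y) :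
    NI.ext A E l z ∈ ZZ67 A y := by
  have hc : CompleteSpace (ZZ67 A y) := (Submodule.isClosed_orthogonal _).completeSpace_coe
  have h1 : ∀ g x, (ZZ67 A y).starProjection (A g x) = A g ((ZZ67 A y).starProjection x) := by
    intro g x
    exact proj_comm67 (T := ((A g).toContinuousLinearEquiv : K →L[ℂ] K))
      (T' := ((A g⁻¹).toContinuousLinearEquiv : K →L[ℂ] K)) (fun x y => adj67 A g x y)
      (fun x hx => ZZ_inv67 g hx) (fun x hx => ZZ_inv67 g⁻¹ hx) x
  have h2 := map_ext (T := (ZZ67 A y).starProjection) h1 E l z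
  rw [Submodule.starProjection_eq_self_iff.2 hz] at h2
  rw [← h2]
  exact Submodule.starProjection_apply_mem _ _

/-- two copies of a representation -/
private noncomputable def AA67 (A : G →* (K ≃ₗᵢ[ℂ] K)) :
    G →* (PiLp 2 (fun _ : Fin 2 => K) ≃ₗᵢ[ℂ] PiLp 2 (fun _ : Fin 2 => K)) where
  toFun g := LinearIsometryEquiv.piLpCongrRight 2 fun _ => A g
  map_one' := by
    refine LinearIsometryEquiv.ext fun x => ?_
    refine PiLp.ext fun i => ?_
    rw [map_one]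
    rfl
  map_mul' g h := by
    refine LinearIsometryEquiv.ext fun x => ?_
    refine PiLp.ext fun i => ?_
    rw [map_mul]
    rfl

end aux67

omit [Countable Λ] in
theorem dc_ext (A : G →* (K ≃ₗᵢ[ℂ] K)) (E : Emb Λ G) {ξ1 ξ2 η1 η2 : K}
    (h : ∀ s : G, (inner ℂ η1 (A s ξ1) : ℂ) = inner ℂ η2 (A s ξ2)) (l : Λ) :
    (inner ℂ η1 (NI.ext A E l ξ1) : ℂ) = inner ℂ η2 (NI.ext A E l ξ2) := by
  classical
  set x : PiLp 2 (fun _ : Fin 2 => K) := WithLp.toLp 2 ![ξ1, ξ2] with hx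
  set y : PiLp 2 (fun _ : Fin 2 => K) := WithLp.toLp 2 ![η1, -η2] with hy
  have h1 : x ∈ ZZ67 (AA67 A) y := by
    rw [mem_ZZ67]
    intro s
    rw [adj67, PiLp.inner_apply, Fin.sum_univ_two]
    change (inner ℂ η1 (A s⁻¹ ξ1) : ℂ) + inner ℂ (-η2) (A s⁻¹ ξ2) = 0
    rw [inner_neg_left, h s⁻¹, add_neg_cancel]
  have h2 := mem_ZZ67.1 (ext_mem67 E l h1) 1
  rw [map_one] at h2
  change (inner ℂ y (NI.ext (AA67 A) E l x) : ℂ) = 0 at h2
  rw [PiLp.inner_apply, Fin.sum_univ_two] at h2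
  have h3 : ∀ i : Fin 2, (NI.ext (AA67 A) E l x) i = NI.ext A E l (x i) := fun i =>
    map_ext (T := PiLp.proj (𝕜 := ℂ) 2 (fun _ : Fin 2 => K) i) (A := AA67 A) (A' := A) (fun g x => rfl) E l x
  rw [h3, h3] at h2
  change (inner ℂ η1 (NI.ext A E l ξ1) : ℂ) + inner ℂ (-η2) (NI.ext A E l ξ2) = 0 at h2
  rw [inner_neg_left] at h2
  exact add_neg_eq_zero.1 h2

/-- The operator `VP* L_k VQ`. -/
noncomputable def Tk (M : XM C X K) (a : Cocy C X Λ) (E : Emb Λ G) (A : G →* (K ≃ₗᵢ[ℂ] K)) (VP VQ : H →L[ℂ] K) (k : C) : H →L[ℂ] H :=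
  (ContinuousLinearMap.adjoint VP).comp ((opL M a (CRep.ext A E) k).comp VQ)

section

variable (a : Cocy C X Λ) (E : Emb Λ G) {M0 : XM C X H} {A0 B0 : G →* (H ≃ₗᵢ[ℂ] H)}
  (h0 : MRep M0 A0 B0) {M : XM C X K} {A : G →* (K ≃ₗᵢ[ℂ] K)}
  (hA : ∀ g, M.Hom M ((A g).toContinuousLinearEquiv : K →L[ℂ] K)) {VP VQ : H →L[ℂ] K} (hP : M0.Hom M VP) (hQ : M0.Hom M VQ)
  (hinv : ∀ (s g : G) (η ξ : H), (inner ℂ (VP η) (A s (VQ (B0 g ξ))) : ℂ) = inner ℂ (VP (B0 g⁻¹ η)) (A s (VQ ξ)))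

omit [MeasurableConstSMul C X] in
private theorem hom_adj67 {M0 : XM C X H} {M : XM C X K} {V : H →L[ℂ] K} (hV : M0.Hom M V) :
    M.Hom M0 (ContinuousLinearMap.adjoint V) where
  S h ξ := by
    refine ext_inner_right ℂ fun η => ?_
    rw [ContinuousLinearMap.adjoint_inner_left, adj67 M.S, adj67 M0.S, ContinuousLinearMap.adjoint_inner_left, hV.S]
  x A hA ξ := by
    refine ext_inner_right ℂ fun η => ?_
    rw [ContinuousLinearMap.adjoint_inner_left, M.px.symm A hA, M0.px.symm A hA, ContinuousLinearMap.adjoint_inner_left,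
      hV.x A hA]
  y A hA ξ := by
    refine ext_inner_right ℂ fun η => ?_
    rw [ContinuousLinearMap.adjoint_inner_left, M.py.symm A hA, M0.py.symm A hA, ContinuousLinearMap.adjoint_inner_left,
      hV.y A hA]

include hA hP in
private theorem sum67 (k : C) (ξ : H) : HasSum (fun l => M0.S k (M0.px.p (a.a k ⁻¹' {l})
    (ContinuousLinearMap.adjoint VP (NI.ext A E l (VQ ξ))))) (Tk M a E A VP VQ k ξ) := by
  have h1 := tw_hasSum M.px (CRep.ext A E) (uhom_ext E hA).px (a.meas k) (VQ ξ)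
  have h2 := h1.mapL ((ContinuousLinearMap.adjoint VP).comp ((M.S k).toContinuousLinearEquiv : K →L[ℂ] K))
  have h3 : Tk M a E A VP VQ k ξ = ((ContinuousLinearMap.adjoint VP).comp ((M.S k).toContinuousLinearEquiv : K →L[ℂ] K))
      (tw M.px (CRep.ext A E) (a.a k) (VQ ξ)) := rfl
  rw [h3]
  refine h2.congr_fun fun l => ?_
  have h4 := hom_adj67 hP
  change _ = ContinuousLinearMap.adjoint VP (M.S k (M.px.p (a.a k ⁻¹' {l}) (NI.ext A E l (VQ ξ))))
  rw [h4.S, h4.x _ (a.meas k l)]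

include h0 hA hP hQ hinv in
theorem Tk_B (k : C) (g : G) (ξ : H) : Tk M a E A VP VQ k (B0 g ξ) = B0 g (Tk M a E A VP VQ k ξ) := by
  have h1 : ∀ l, ContinuousLinearMap.adjoint VP (NI.ext A E l (VQ (B0 g ξ))) =
      B0 g (ContinuousLinearMap.adjoint VP (NI.ext A E l (VQ ξ))) := by
    intro l
    refine ext_inner_left ℂ fun η => ?_
    have h2 := adj67 B0 g⁻¹ η (ContinuousLinearMap.adjoint VP (NI.ext A E l (VQ ξ)))
    rw [inv_inv] at h2
    rw [ContinuousLinearMap.adjoint_inner_right, ← h2, ContinuousLinearMap.adjoint_inner_right]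
    exact dc_ext A E (fun s => hinv s g η ξ) l
  have h2 := sum67 a E hA hP (VQ := VQ) k (B0 g ξ)
  have h3 := (sum67 a E hA hP (VQ := VQ) k ξ).mapL ((B0 g).toContinuousLinearEquiv : H →L[ℂ] H)
  refine h2.unique (h3.congr_fun fun l => ?_)
  change _ = B0 g (M0.S k (M0.px.p (a.a k ⁻¹' {l}) (ContinuousLinearMap.adjoint VP (NI.ext A E l (VQ ξ)))))
  have h4 := (h0.hB g).S k (M0.px.p (a.a k ⁻¹' {l}) (ContinuousLinearMap.adjoint VP (NI.ext A E l (VQ ξ))))
  have h5 := (h0.hB g).x _ (a.meas k l) (ContinuousLinearMap.adjoint VP (NI.ext A E l (VQ ξ)))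
  change B0 g (M0.S k _) = M0.S k (B0 g _) at h4
  change B0 g (M0.px.p _ _) = M0.px.p _ (B0 g _) at h5
  rw [h4, h5, h1]

include hA hP hQ in
theorem Tk_py (k : C) {D : Set X} (hD : MeasurableSet D) (ξ : H) :
    Tk M a E A VP VQ k (M0.py.p D ξ) = M0.py.p ((fun x => k⁻¹ • x) ⁻¹' D) (Tk M a E A VP VQ k ξ) := by
  have hU := uhom_ext E hA
  have h4 := hom_adj67 hP
  change ContinuousLinearMap.adjoint VP (M.S k (tw M.px (CRep.ext A E) (a.a k) (VQ (M0.py.p D ξ)))) =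
    M0.py.p ((fun x => k⁻¹ • x) ⁻¹' D) (ContinuousLinearMap.adjoint VP (M.S k (tw M.px (CRep.ext A E) (a.a k) (VQ ξ))))
  rw [hQ.y D hD, ← tw_comm M.px (CRep.ext A E) hU.px (a.meas k) (T := M.py.p D)
    (fun B hB ξ => (M.comm B D hB hD ξ).symm) (fun l ξ => ((hU l).y D hD ξ).symm), M.Sy k D hD, h4.y]
  exact (measurable_const_smul k⁻¹) hD

include h0 hA hP hQ hinv in
theorem Tk_tw (k : C) {c : X → Λ} (hc : Mea c) (ξ : H) : Tk M a E A VP VQ k (tw M0.py (CRep.ext B0 E.conj) c ξ) =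
    tw M0.py (CRep.ext B0 E.conj) (fun x => c (k⁻¹ • x)) (Tk M a E A VP VQ k ξ) := by
  exact tw_shift M0.py (CRep.ext B0 E.conj) (uhom_ext E.conj h0.hB).py hc (S := Tk M a E A VP VQ k)
    (e := fun x => k⁻¹ • x) (measurable_const_smul k⁻¹) (fun D hD ξ => Tk_py a E hA hP hQ k hD ξ)
    (fun l ξ => map_ext (T := Tk M a E A VP VQ k) (A := B0) (A' := B0)
      (fun g x => Tk_B a E h0 hA hP hQ hinv k g x) E.conj l ξ) ξ

end

end Pool.Agent.Helper84.CH
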