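import Pool.Agent.Helper84.CH.T2
import Pool.Agent.Helper84.SPQ.A1

/-!
# Project CH, block T3: the coefficient is a function of `g⁻¹ h`; continuity

Notation: `L_g = opL M a (ext A E) g`, `L0_g = opL M0 a (ext A0 E) g`, `R0_g = opR M0 a (ext B0 E.conj) g = tw M0.py (ext B0 E.conj) (a.a g)`. PROOFS.
`key_inv`. `⟪L_g VP L0_{g⁻¹} ζ, L_h VQ L0_{h⁻¹} ζ⟫ = ⟪VP L0_{g⁻¹} ζ, L_{g⁻¹ h} VQ L0_{h⁻¹} ζ⟫` (`opL_adj`, `opL_mul`) `= ⟪R0_g ζ, T_k R0_h ζ⟫`, `k = g⁻¹ h` (`hcen`, `Tk`). `R0_h ζ = tw M0.py U' (a.a h) ζ`, so (`Tk_tw`) it is `⟪tw (a.a g) ζ, tw (x ↦ a.a h (k⁻¹ x)) (T_k ζ)⟫ = ⟪tw (x ↦ (a.a h (k⁻¹ x))⁻¹ * a.a g x) ζ, T_k ζ⟫`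
(`tw_adj`, `tw_mul`), and `h = g k`: `a.a h (k⁻¹ x) = a.a g x * a.a k (k⁻¹ x)` (`a.mul g k (k⁻¹ x)`), so `(a.a h (k⁻¹ x))⁻¹ * a.a g x = (a.a k (k⁻¹ x))⁻¹ = a.a k⁻¹ x` (`Cocy.a_inv`). So it is `⟪R0_{k⁻¹} ζ, T_k ζ⟫ = ⟪L0_k ζ, T_k ζ⟫ = ⟪VP L0_k ζ, L_k VQ ζ⟫` (`hcen k⁻¹`).
`orb_cont`. `L_{g v} V L0_{(g v)⁻¹} ζ - L_g V L0_{g⁻¹} ζ = L_g (L_v V L0_{v⁻¹} y - L_1 V y)`, `y = L0_{g⁻¹} ζ` (`L_g = L_g L_1`), and `‖L_v V L0_{v⁻¹} y - L_1 V y‖ ≤ 2 ‖V‖ √(ν {a v ≠ 1})`: ADAPT `hx_near61` (private in `SPQ/A1.lean`, complete proof): `D' = {a v = 1}`, `D = v D' = {a v⁻¹ = 1}`;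
`px D (L_v V L0_{v⁻¹} y) = S_v px D' (ext A E 1) (V L0_{v⁻¹} y) = (ext A E 1) V S_v (px D' L0_{v⁻¹} y)`, `px D' (L0_{v⁻¹} y) = L0_{v⁻¹} (px D y) = S_{v⁻¹} px D y` (`ext A0 E 1 y = y`), so it is `px D (L_1 V y)`, `L_1 = ext A E 1` (`opL_one`). On `Dᶜ` both terms are at most `‖V‖ ‖px (D'ᶜ or Dᶜ) y‖`,
`‖px S y‖² = ‖L0_{g⁻¹} (px (g S) ζ)‖² ≤ ν S` (`opL_px`, `hν`, invariance of `ν`).
`orb_zero`: `L0_v ζ = R0_{v⁻¹} ζ` (`hcen v⁻¹`) `= tw M0.py U' (a.a v⁻¹) ζ`; on `D = {a.a v⁻¹ = 1}` `py D (tw ..) = py D (ext B0 E.conj 1 ζ) = py D ζ` (`ζ ∈ VB B0`); on `Dᶜ` both are at most `‖py Dᶜ ζ‖ ≤ √(ν Dᶜ)` (`hy`). `near_L`: `L_k V0 ζ = V0 L0_k ζ` (`opL_nat`, `map_ext`) and `L_k` is a contraction.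
-/

set_option autoImplicit false

open Filter Topology MeasureTheory

namespace Pool.Agent.Helper84.CH

open NI GVN FR

variable {C X Λ G : Type} [Group C] [MulAction C X] [MeasurableSpace X] [MeasurableConstSMul C X]
  [Group Λ] [Countable Λ] [Group G]
variable {H K : Type} [NormedAddCommGroup H] [InnerProductSpace ℂ H] [CompleteSpace H]
  [NormedAddCommGroup K] [InnerProductSpace ℂ K] [CompleteSpace K]

omit [MeasurableConstSMul C X] [Countable Λ] [CompleteSpace K] in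
private theorem S_inv46 (M : XM C X K) (h : C) (ξ : K) : M.S h (M.S h⁻¹ ξ) = ξ := by
  have e : M.S h (M.S h⁻¹ ξ) = (M.S h * M.S h⁻¹) ξ := rfl
  rw [e, ← map_mul, mul_inv_cancel, map_one]
  rfl

/-- `opL` on the set where the cocycle is trivial. -/
private theorem const46 (a : Cocy C X Λ) {M : XM C X K} {U : CRep Λ K} (hU : UHom M U) (h : C) (ξ : K) :
    opL M a U h (M.px.p {x | a.a h x = 1} ξ) = M.S h (M.px.p {x | a.a h x = 1} (U.U 1 ξ)) := by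
  have hm : MeasurableSet {x | a.a h x = 1} := a.meas h 1
  have e : opL M a U h (M.px.p {x | a.a h x = 1} ξ) =
      M.S h (tw M.px U (a.a h) (M.px.p {x | a.a h x = 1} ξ)) := rfl
  rw [e, ← tw_p M.px U hU.px (a.meas h) hm, tw_const M.px U hU.px (a.meas h) hm (l := 1) (fun x hx => hx)]

omit [Countable Λ] in
private theorem mea_inv46 {c : X → Λ} (hc : Mea c) : Mea fun x => (c x)⁻¹ := by
  intro l
  have e : (fun x => (c x)⁻¹) ⁻¹' {l} = c ⁻¹' {l⁻¹} := by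
    ext x
    simp only [Set.mem_preimage, Set.mem_singleton_iff]
    exact inv_eq_iff_eq_inv
  rw [e]
  exact hc l⁻¹

variable (a : Cocy C X Λ) (E : Emb Λ G) {M0 : XM C X H} {A0 B0 : G →* (H ≃ₗᵢ[ℂ] H)}
  (h0 : MRep M0 A0 B0) {M : XM C X K} {A : G →* (K ≃ₗᵢ[ℂ] K)}
  (hA : ∀ g, M.Hom M ((A g).toContinuousLinearEquiv : K →L[ℂ] K)) {VP VQ : H →L[ℂ] K} (hP : M0.Hom M VP) (hQ : M0.Hom M VQ)
  (hinv : ∀ (s g : G) (η ξ : H), (inner ℂ (VP η) (A s (VQ (B0 g ξ))) : ℂ) = inner ℂ (VP (B0 g⁻¹ η)) (A s (VQ ξ)))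
  {ζ : H} (hcen : ∀ v : C, opL M0 a (CRep.ext A0 E) v⁻¹ ζ = opR M0 a (CRep.ext B0 E.conj) v ζ)

include h0 hA hP hQ hinv hcen in
theorem key_inv (g h : C) :
    (inner ℂ (opL M a (CRep.ext A E) g (VP (opL M0 a (CRep.ext A0 E) g⁻¹ ζ)))
      (opL M a (CRep.ext A E) h (VQ (opL M0 a (CRep.ext A0 E) h⁻¹ ζ))) : ℂ) =
    inner ℂ (VP (opL M0 a (CRep.ext A0 E) (g⁻¹ * h) ζ)) (opL M a (CRep.ext A E) (g⁻¹ * h) (VQ ζ)) := by
  have hU : UHom M (CRep.ext A E) := uhom_ext E hA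
  have hU' : UHom M0 (CRep.ext B0 E.conj) := uhom_ext E.conj h0.hB
  set k : C := g⁻¹ * h with hk
  have hgk : h = g * k := by rw [hk, mul_inv_cancel_left]
  have hmh : Mea fun x => a.a h (k⁻¹ • x) := a.mea_shift h k⁻¹
  have e1 : (inner ℂ (opL M a (CRep.ext A E) g (VP (opL M0 a (CRep.ext A0 E) g⁻¹ ζ)))
      (opL M a (CRep.ext A E) h (VQ (opL M0 a (CRep.ext A0 E) h⁻¹ ζ))) : ℂ) =
      inner ℂ (opL M0 a (CRep.ext A0 E) g⁻¹ ζ) (Tk M a E A VP VQ k (opL M0 a (CRep.ext A0 E) h⁻¹ ζ)) := by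
    rw [opL_adj M a hU, ← opL_mul M a hU, ← hk]
    exact (ContinuousLinearMap.adjoint_inner_right VP _ _).symm
  have e2 : (inner ℂ (VP (opL M0 a (CRep.ext A0 E) k ζ)) (opL M a (CRep.ext A E) k (VQ ζ)) : ℂ) =
      inner ℂ (opL M0 a (CRep.ext A0 E) k ζ) (Tk M a E A VP VQ k ζ) :=
    (ContinuousLinearMap.adjoint_inner_right VP _ _).symm
  have e3 : opL M0 a (CRep.ext A0 E) k ζ = opR M0 a (CRep.ext B0 E.conj) k⁻¹ ζ := by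
    have := hcen k⁻¹
    rwa [inv_inv] at this
  have f1 : opR M0 a (CRep.ext B0 E.conj) g ζ = tw M0.py (CRep.ext B0 E.conj) (a.a g) ζ := rfl
  have f2 : opR M0 a (CRep.ext B0 E.conj) h ζ = tw M0.py (CRep.ext B0 E.conj) (a.a h) ζ := rfl
  have f3 : opR M0 a (CRep.ext B0 E.conj) k⁻¹ ζ = tw M0.py (CRep.ext B0 E.conj) (a.a k⁻¹) ζ := rfl
  rw [e1, e2, e3, hcen g, hcen h, f1, f2, f3, Tk_tw a E h0 hA hP hQ hinv k (a.meas h) ζ]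
  have e4 := tw_adj M0.py (CRep.ext B0 E.conj) hU'.py (mea_inv46 hmh)
    (tw M0.py (CRep.ext B0 E.conj) (a.a g) ζ) (Tk M a E A VP VQ k ζ)
  simp only [inv_inv] at e4
  rw [← e4, ← tw_mul M0.py (CRep.ext B0 E.conj) hU'.py (mea_inv46 hmh) (a.meas g)]
  have e5 : (fun x => (a.a h (k⁻¹ • x))⁻¹ * a.a g x) = a.a k⁻¹ := by
    funext x
    rw [← a.a_inv k x, hgk, a.mul g k, smul_inv_smul, mul_inv_rev, inv_mul_cancel_right]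
  rw [e5]

include h0 hA hQ in
theorem orb_cont {ν : Measure X} [IsFiniteMeasure ν] [SMulInvariantMeasure C X ν] (hζ : ζ ∈ VB A0)
    (hν : ∀ D : Set X, MeasurableSet D → ‖M0.px.p D ζ‖ ^ 2 ≤ (ν D).toReal) (g v : C) :
    ‖opL M a (CRep.ext A E) (g * v) (VQ (opL M0 a (CRep.ext A0 E) (g * v)⁻¹ ζ)) -
      opL M a (CRep.ext A E) g (VQ (opL M0 a (CRep.ext A0 E) g⁻¹ ζ))‖ ≤ 2 * ‖VQ‖ * Real.sqrt (ν {x | a.a v x ≠ 1}).toReal := by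
  have hU : UHom M (CRep.ext A E) := uhom_ext E hA
  have hU0 : UHom M0 (CRep.ext A0 E) := uhom_ext E h0.hA
  set y : H := opL M0 a (CRep.ext A0 E) g⁻¹ ζ with hy
  have hyA : (CRep.ext A0 E).U 1 y = y := by
    have hmem : y ∈ VB A0 := by
      have e1 := opL_mul M0 a hU0 1 g⁻¹ ζ
      have e2 : opL M0 a (CRep.ext A0 E) 1 (opL M0 a (CRep.ext A0 E) g⁻¹ ζ) = ext A0 E 1 _ :=
        opL_one M0 a hU0 _
      rw [one_mul] at e1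
      rw [hy, e1, e2]
      exact ext_mem A0 E 1 _
    exact ext_one_apply E hmem
  have s1 : opL M0 a (CRep.ext A0 E) (g * v)⁻¹ ζ = opL M0 a (CRep.ext A0 E) v⁻¹ y := by
    rw [mul_inv_rev, opL_mul M0 a hU0]
  have s2 : ∀ x, opL M a (CRep.ext A E) g x = opL M a (CRep.ext A E) g (opL M a (CRep.ext A E) 1 x) := by
    intro x
    rw [← opL_mul M a hU, mul_one]
  rw [s1, opL_mul M a hU, s2 (VQ y), ← map_sub]
  refine (norm_opL_le M a hU g _).trans ?_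
  set D' : Set X := {x | a.a v x = 1} with hD'
  have hD'm : MeasurableSet D' := a.meas v 1
  set D : Set X := (fun x => v⁻¹ • x) ⁻¹' D' with hD
  have hDm : MeasurableSet D := (measurable_const_smul v⁻¹) hD'm
  have hDD : (fun x => (v⁻¹)⁻¹ • x) ⁻¹' D = D' := by
    ext x
    simp only [hD, hD', Set.mem_preimage, Set.mem_ofPred_eq, inv_inv, inv_smul_smul]
  have hDDc : (fun x => (v⁻¹)⁻¹ • x) ⁻¹' Dᶜ = D'ᶜ := by rw [Set.preimage_compl, hDD]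
  have hDinv : D = {x | a.a v⁻¹ x = 1} := by
    ext x
    simp only [hD, hD', Set.mem_preimage, Set.mem_ofPred_eq]
    rw [← a.a_inv v x, inv_eq_one]
  have hDc : (fun x => v⁻¹ • x) ⁻¹' D'ᶜ = Dᶜ := rfl
  have k1 : M0.px.p D' (opL M0 a (CRep.ext A0 E) v⁻¹ y) = M0.S v⁻¹ (M0.px.p D y) := by
    have h2 := opL_px M0 a hU0 v⁻¹ hDm y
    rw [hDD] at h2
    rw [← h2, hDinv, const46 a hU0 v⁻¹ y, hyA]
  have k1c : M0.px.p D'ᶜ (opL M0 a (CRep.ext A0 E) v⁻¹ y) = opL M0 a (CRep.ext A0 E) v⁻¹ (M0.px.p Dᶜ y) := by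
    have h2 := opL_px M0 a hU0 v⁻¹ hDm.compl y
    rw [hDDc] at h2
    exact h2.symm
  have k3 : M.px.p D (opL M a (CRep.ext A E) v (VQ (opL M0 a (CRep.ext A0 E) v⁻¹ y))) =
      M.px.p D (opL M a (CRep.ext A E) 1 (VQ y)) := by
    have h2 := opL_px M a hU v hD'm (VQ (opL M0 a (CRep.ext A0 E) v⁻¹ y))
    rw [← h2, ← hQ.x D' hD'm, k1, hQ.S, hQ.x D hDm]
    have h3 := M.Sx v⁻¹ D hDm (VQ y)
    rw [hDD] at h3
    rw [h3, const46 a hU v, (hU 1).S v⁻¹ (VQ y)]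
    have h4 := M.Sx v⁻¹ D hDm ((CRep.ext A E).U 1 (VQ y))
    rw [hDD] at h4
    rw [← h4, S_inv46, opL_one M a hU]
  have k4 : M.px.p Dᶜ (opL M a (CRep.ext A E) v (VQ (opL M0 a (CRep.ext A0 E) v⁻¹ y))) =
      opL M a (CRep.ext A E) v (VQ (opL M0 a (CRep.ext A0 E) v⁻¹ (M0.px.p Dᶜ y))) := by
    have h2 := opL_px M a hU v hD'm.compl (VQ (opL M0 a (CRep.ext A0 E) v⁻¹ y))
    rw [hDc] at h2
    rw [← h2, ← hQ.x D'ᶜ hD'm.compl, k1c]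
  have k5 : M.px.p Dᶜ (opL M a (CRep.ext A E) 1 (VQ y)) = opL M a (CRep.ext A E) 1 (VQ (M0.px.p Dᶜ y)) := by
    rw [opL_one M a hU, opL_one M a hU, hQ.x Dᶜ hDm.compl]
    exact ((hU 1).x Dᶜ hDm.compl _).symm
  have k6 : ‖M0.px.p Dᶜ y‖ ≤ Real.sqrt (ν D'ᶜ).toReal := by
    have hSm : MeasurableSet ((fun x => g⁻¹ • x) ⁻¹' Dᶜ) := (measurable_const_smul g⁻¹) hDm.compl
    have h2 := opL_px M0 a hU0 g⁻¹ hSm ζ
    have e : (fun x => (g⁻¹)⁻¹ • x) ⁻¹' ((fun x => g⁻¹ • x) ⁻¹' Dᶜ) = Dᶜ := by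
      ext x
      simp only [Set.mem_preimage, inv_inv, inv_smul_smul]
    rw [e] at h2
    rw [hy, ← h2]
    refine (norm_opL_le M0 a hU0 _ _).trans (Real.le_sqrt_of_sq_le ?_)
    refine (hν _ hSm).trans (le_of_eq ?_)
    have m1 : ν ((fun x => g⁻¹ • x) ⁻¹' Dᶜ) = ν Dᶜ := measure_preimage_smul ν g⁻¹ Dᶜ
    have m2 : ν Dᶜ = ν D'ᶜ := by
      rw [← hDc]
      exact measure_preimage_smul ν v⁻¹ D'ᶜ
    rw [m1, m2]
  have hset : {x | a.a v x ≠ 1} = D'ᶜ := rfl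
  rw [hset]
  set d : K := opL M a (CRep.ext A E) v (VQ (opL M0 a (CRep.ext A0 E) v⁻¹ y)) -
    opL M a (CRep.ext A E) 1 (VQ y) with hd
  have k7 := M.px.p_compl hDm d
  have k8 : M.px.p D d = 0 := by rw [hd, map_sub, k3, sub_self]
  rw [k8, zero_add] at k7
  rw [← k7, hd, map_sub, k4, k5]
  have n1 : ‖opL M a (CRep.ext A E) v (VQ (opL M0 a (CRep.ext A0 E) v⁻¹ (M0.px.p Dᶜ y)))‖ ≤
      ‖VQ‖ * Real.sqrt (ν D'ᶜ).toReal := by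
    refine (norm_opL_le M a hU v _).trans ((VQ.le_opNorm _).trans ?_)
    exact mul_le_mul_of_nonneg_left ((norm_opL_le M0 a hU0 _ _).trans k6) (norm_nonneg _)
  have n2 : ‖opL M a (CRep.ext A E) 1 (VQ (M0.px.p Dᶜ y))‖ ≤ ‖VQ‖ * Real.sqrt (ν D'ᶜ).toReal := by
    refine (norm_opL_le M a hU 1 _).trans ((VQ.le_opNorm _).trans ?_)
    exact mul_le_mul_of_nonneg_left k6 (norm_nonneg _)
  refine (norm_sub_le _ _).trans ?_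
  linarith

include h0 hcen in
theorem orb_zero {ν : Measure X} [IsFiniteMeasure ν] (hζB : ζ ∈ VB B0)
    (hy : ∀ D : Set X, MeasurableSet D → ‖M0.py.p D ζ‖ ^ 2 ≤ (ν D).toReal) (v : C) :
    ‖opL M0 a (CRep.ext A0 E) v ζ - ζ‖ ≤ 2 * Real.sqrt (ν {x | a.a v⁻¹ x ≠ 1}).toReal := by
  have hU' : UHom M0 (CRep.ext B0 E.conj) := uhom_ext E.conj h0.hB
  have e3 : opL M0 a (CRep.ext A0 E) v ζ = tw M0.py (CRep.ext B0 E.conj) (a.a v⁻¹) ζ := by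
    have := hcen v⁻¹
    rw [inv_inv] at this
    exact this
  have hDm : MeasurableSet {x | a.a v⁻¹ x = 1} := a.meas v⁻¹ 1
  set D : Set X := {x | a.a v⁻¹ x = 1} with hD
  have hset : {x | a.a v⁻¹ x ≠ 1} = Dᶜ := rfl
  rw [e3, hset]
  set d : H := tw M0.py (CRep.ext B0 E.conj) (a.a v⁻¹) ζ - ζ with hd
  have k8 : M0.py.p D d = 0 := by
    have e : (CRep.ext B0 E.conj).U 1 ζ = ζ := ext_one_apply E.conj hζB
    rw [hd, map_sub, tw_const M0.py (CRep.ext B0 E.conj) hU'.py (a.meas v⁻¹) hDm (l := 1) (fun x hx => hx), e,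
      sub_self]
  have k7 := M0.py.p_compl hDm d
  rw [k8, zero_add] at k7
  have k6 : ‖M0.py.p Dᶜ ζ‖ ≤ Real.sqrt (ν Dᶜ).toReal := Real.le_sqrt_of_sq_le (hy _ hDm.compl)
  rw [← k7, hd, map_sub, tw_p M0.py (CRep.ext B0 E.conj) hU'.py (a.meas v⁻¹) hDm.compl]
  refine (norm_sub_le _ _).trans ?_
  have := norm_tw_le M0.py (CRep.ext B0 E.conj) hU'.py (a.meas v⁻¹) (M0.py.p Dᶜ ζ)
  linarith

include h0 hA in
theorem near_L {V0 : H →L[ℂ] K} (hV : M0.Hom M V0) (hV0 : ∀ g x, V0 (A0 g x) = A g (V0 x)) (k : C) (y : H) :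
    ‖opL M a (CRep.ext A E) k (VQ y) - V0 (opL M0 a (CRep.ext A0 E) k y)‖ ≤ ‖VQ y - V0 y‖ := by
  have hU : UHom M (CRep.ext A E) := uhom_ext E hA
  have hU0 : UHom M0 (CRep.ext A0 E) := uhom_ext E h0.hA
  rw [opL_nat M0 a hU0 hU hV (fun l ξ => map_ext (T := V0) hV0 E l ξ) k y, ← map_sub]
  exact norm_opL_le M a hU k _

end Pool.Agent.Helper84.CH
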