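import Pool.Agent.Helper84.CH.T1

/-!
# Project CH, block T4: the sections are close over parts of the region; decay

`vq_near`. PROOF. As `xua_near` in `SPQ/A2.lean` (complete proof; make private copies of the private lemmas `sub88`, `carrier88`, `mono88`, `mulop_apply88`, `norm_mulop88`): `y'` with index `n0`, `‖y - y'‖ ≤ δ`; for `n ≥ n0`, `t = s ∩ R.W n` is in `R.F n0`, `ind t y' = y'`. `(mulF Q - mulF q0) y' = mulF (1_t (Q - q0)) y'` has norm `≤ ε ‖y'‖`, and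
`‖mulF Q (y - y')‖ ≤ √C δ`, `‖mulF q0 (y - y')‖ ≤ √C δ`. With `c γ = ⟪P γ, q0⟫` (`‖c γ‖ ≤ C`): `‖(mulop c - 1) y'‖ ≤ ε ‖y'‖`, `‖(mulop c - 1) (y - y')‖ ≤ (C + 1) δ`, and `⟪y, mulop c y⟫ - ‖y‖² = ⟪y, (mulop c - 1) y⟫`.
`vq_decay`: as `xua_decay` in `SPQ/A2.lean` with the bound `K` instead of `1`.
-/

set_option autoImplicit false

open Filter Topology Matrix

namespace Pool.Agent.Helper84.CH

open NI GVN GN FR MeasureTheory Pool.Agent.Helper66.FR

variable {G X : Type} [Group G] [MeasurableSpace X] {μ : Measure X} {R : Reg G}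

private theorem mono89 (R : Reg G) {n n' : ℕ} (h : n ≤ n') : R.F n ≤ R.F n' := by
  induction n', h using Nat.le_induction with
  | base => exact le_rfl
  | succ m _ ih => exact ih.trans (R.monoF m)

/-- the vectors carried by the sets of one of the filters, as a submodule -/
private def sub89 (μ : Measure X) (R : Reg G) : Submodule ℂ (UE μ (L2 G)) where
  carrier := {η : UE μ (L2 G) | ∃ n : ℕ, ∀ s ∈ R.F n, UE.map μ (ind ℂ s) η = η}
  add_mem' := by
    rintro a b ⟨n, h1⟩ ⟨n', h2⟩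
    refine ⟨max n n', fun s hs => ?_⟩
    rw [map_add, h1 s (mono89 R (le_max_left n n') hs), h2 s (mono89 R (le_max_right n n') hs)]
  zero_mem' := ⟨0, fun E _ => map_zero _⟩
  smul_mem' := by
    rintro c a ⟨n, h1⟩
    refine ⟨n, fun E hE => ?_⟩
    rw [map_smul, h1 E hE]

private theorem carrier89 {y : UE μ (L2 G)} (hy : y ∈ XUa μ R) {δ : ℝ} (hδ : 0 < δ) :
    ∃ (y' : UE μ (L2 G)) (n : ℕ), (∀ s ∈ R.F n, UE.map μ (ind ℂ s) y' = y') ∧ ‖y - y'‖ ≤ δ := by
  have hle : (XUa μ R) ≤ (sub89 μ R).topologicalClosure := by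
    refine Submodule.topologicalClosure_minimal _ ?_ (Submodule.isClosed_topologicalClosure _)
    rw [Submodule.span_le]
    intro b hb
    exact Submodule.le_topologicalClosure _ hb
  have h := hle hy
  rw [← SetLike.mem_coe, Submodule.topologicalClosure_coe, Metric.mem_closure_iff] at h
  obtain ⟨y', ⟨n, hn⟩, hd⟩ := h δ hδ
  exact ⟨y', n, hn, by rw [← dist_eq_norm]; exact hd.le⟩

omit [Group G] in
private theorem mulop_apply89 {f : G → ℂ} {C : ℝ} (hf : ∀ γ, ‖f γ‖ ≤ C) (x : L2 G) (γ : G) :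
    mulop f x γ = f γ * x γ := by
  unfold mulop
  rw [dg_apply (C := C) (fun i y => by
    rw [_root_.smul_apply, ContinuousLinearMap.id_apply, norm_smul]
    exact mul_le_mul_of_nonneg_right (hf i) (norm_nonneg _)), _root_.smul_apply,
    ContinuousLinearMap.id_apply, smul_eq_mul]

omit [Group G] in
private theorem norm_mulop89 {f : G → ℂ} {C : ℝ} (hC : 0 ≤ C) (hf : ∀ γ, ‖f γ‖ ≤ C)
    (y : UE μ (L2 G)) : ‖UE.map μ (mulop f) y‖ ≤ C * ‖y‖ := by
  refine UE.norm_map_le_of hC (fun x => ?_) y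
  unfold mulop
  refine norm_dg_le hC (fun i y => ?_) x
  rw [_root_.smul_apply, ContinuousLinearMap.id_apply, norm_smul]
  exact mul_le_mul_of_nonneg_right (hf i) (norm_nonneg _)

theorem vq_near {y : UE μ (L2 G)} (hy : y ∈ XUa μ R) {C δ : ℝ} (hδ : 0 < δ) : ∃ n0 : ℕ, ∀ n, n0 ≤ n →
    ∀ (L : Type) [NormedAddCommGroup L] [InnerProductSpace ℂ L] [CompleteSpace L] (Γ : CocL R L C) (s : Set G) (ε : ℝ), 0 ≤ ε →
      (∀ m, s ∈ R.F m) → (∀ γ ∈ s, γ ∈ R.W n → ‖Γ.Q γ - Γ.q0‖ ≤ ε ∧ ‖(inner ℂ (Γ.P γ) Γ.q0 : ℂ) - 1‖ ≤ ε) →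
      ‖UE.map μ (mulF Γ.Q) y - UE.map μ (mulF fun _ => Γ.q0) y‖ ≤ ε * (‖y‖ + δ) + 2 * Real.sqrt C * δ ∧
      ‖(inner ℂ y (UE.map μ (mulop fun γ => inner ℂ (Γ.P γ) Γ.q0) y) : ℂ) - ((‖y‖ ^ 2 : ℝ) : ℂ)‖ ≤
        ‖y‖ * (ε * (‖y‖ + δ) + (C + 1) * δ) := by
  classical
  obtain ⟨y', n0, hy', hd⟩ := carrier89 hy hδ
  refine ⟨n0, fun n hn L _ _ _ Γ s ε hε hs hsv => ?_⟩
  -- the constants
  have hC0 : 0 ≤ C := le_trans (by positivity) Γ.b0
  have hQ : ∀ γ, ‖Γ.Q γ‖ ≤ Real.sqrt C := fun γ => norm_sq_le (Γ.bQ γ)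
  have hP : ∀ γ, ‖Γ.P γ‖ ≤ Real.sqrt C := fun γ => norm_sq_le (Γ.bP γ)
  have h0 : ‖Γ.q0‖ ≤ Real.sqrt C := norm_sq_le Γ.b0
  have hr0 : 0 ≤ Real.sqrt C := Real.sqrt_nonneg C
  have hc : ∀ γ, ‖(inner ℂ (Γ.P γ) Γ.q0 : ℂ)‖ ≤ C := fun γ => by
    calc ‖(inner ℂ (Γ.P γ) Γ.q0 : ℂ)‖ ≤ ‖Γ.P γ‖ * ‖Γ.q0‖ := norm_inner_le_norm _ _
      _ ≤ Real.sqrt C * Real.sqrt C := mul_le_mul (hP γ) h0 (norm_nonneg _) hr0
      _ = C := Real.mul_self_sqrt hC0
  -- the set
  obtain ⟨t, ht⟩ : ∃ t : Set G, t = s ∩ R.W n := ⟨_, rfl⟩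
  have htF : t ∈ R.F n0 := by
    have h1 : t ∈ R.F n := by
      rw [ht]
      exact inter_mem (hs n) (R.le n (mem_principal_self _))
    exact mono89 R hn h1
  have hyt : UE.map μ (ind ℂ t) y' = y' := hy' t htF
  have hy'n : ‖y'‖ ≤ ‖y‖ + δ := by
    have : y' = y - (y - y') := by abel
    calc ‖y'‖ = ‖y - (y - y')‖ := by rw [← this]
      _ ≤ ‖y‖ + ‖y - y'‖ := norm_sub_le _ _
      _ ≤ ‖y‖ + δ := by linarith
  have h4 := mul_le_mul_of_nonneg_left hy'n hε
  constructor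
  · have hcomp : (mulF Γ.Q - mulF (fun _ : G => Γ.q0)).comp (ind ℂ t) =
        mulF (t.indicator fun γ => Γ.Q γ - Γ.q0) := by
      have hb : ∀ γ, ‖t.indicator (fun γ => Γ.Q γ - Γ.q0) γ‖ ≤ Real.sqrt C + Real.sqrt C := by
        intro γ
        unfold Set.indicator
        split_ifs
        · exact (norm_sub_le _ _).trans (add_le_add (hQ γ) h0)
        · rw [norm_zero]
          linarith
      refine ContinuousLinearMap.ext fun f => lv_ext fun i => ?_
      rw [ContinuousLinearMap.comp_apply, _root_.sub_apply, lp.coeFn_sub, Pi.sub_apply,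
        mulF_apply (C := Real.sqrt C) hQ, mulF_apply (C := Real.sqrt C) (fun _ => h0),
        mulF_apply hb, ind_apply]
      unfold Set.indicator
      by_cases h : i ∈ t
      · rw [if_pos h, if_pos h, smul_sub]
      · rw [if_neg h, if_neg h, zero_smul, zero_smul, sub_zero, smul_zero]
    have hmid : ‖UE.map μ (mulF Γ.Q) y' - UE.map μ (mulF fun _ => Γ.q0) y'‖ ≤ ε * ‖y'‖ := by
      have h1 : UE.map μ (mulF Γ.Q) y' - UE.map μ (mulF fun _ => Γ.q0) y' =
          UE.map μ (mulF (t.indicator fun γ => Γ.Q γ - Γ.q0)) y' := by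
        rw [← UE.map_sub, ← hcomp, UE.map_comp, hyt]
      rw [h1]
      refine UE.norm_map_le_of hε (norm_mulF_le hε fun γ => ?_) y'
      unfold Set.indicator
      split_ifs with h2
      · rw [ht] at h2
        exact (hsv γ h2.1 h2.2).1
      · rw [norm_zero]
        exact hε
    have hA : ‖UE.map μ (mulF Γ.Q) (y - y')‖ ≤ Real.sqrt C * δ :=
      (UE.norm_map_le_of hr0 (norm_mulF_le hr0 hQ) _).trans (mul_le_mul_of_nonneg_left hd hr0)
    have hB : ‖UE.map μ (mulF fun _ => Γ.q0) (y - y')‖ ≤ Real.sqrt C * δ :=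
      (UE.norm_map_le_of hr0 (norm_mulF_le hr0 fun _ => h0) _).trans
        (mul_le_mul_of_nonneg_left hd hr0)
    have hdec : UE.map μ (mulF Γ.Q) y - UE.map μ (mulF fun _ => Γ.q0) y =
        UE.map μ (mulF Γ.Q) (y - y') +
          (UE.map μ (mulF Γ.Q) y' - UE.map μ (mulF fun _ => Γ.q0) y') -
          UE.map μ (mulF fun _ => Γ.q0) (y - y') := by
      rw [map_sub, map_sub]
      abel
    rw [hdec]
    refine (norm_sub_le _ _).trans ?_
    have h3 := norm_add_le (UE.map μ (mulF Γ.Q) (y - y'))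
      (UE.map μ (mulF Γ.Q) y' - UE.map μ (mulF fun _ => Γ.q0) y')
    linarith
  · obtain ⟨c, hcdef⟩ : ∃ c : G → ℂ, c = fun γ => (inner ℂ (Γ.P γ) Γ.q0 : ℂ) := ⟨_, rfl⟩
    have hcb : ∀ γ, ‖c γ‖ ≤ C := fun γ => by rw [hcdef]; exact hc γ
    obtain ⟨d, hddef⟩ : ∃ d : G → ℂ, d = fun γ => c γ - 1 := ⟨_, rfl⟩
    have hdb : ∀ γ, ‖d γ‖ ≤ C + 1 := fun γ => by
      rw [hddef]
      refine (norm_sub_le _ _).trans ?_
      rw [norm_one]
      exact add_le_add (hcb γ) le_rfl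
    have hd1 : mulop d = mulop c - ContinuousLinearMap.id ℂ (L2 G) := by
      refine ContinuousLinearMap.ext fun x => lv_ext fun i => ?_
      rw [_root_.sub_apply, lp.coeFn_sub, Pi.sub_apply, ContinuousLinearMap.id_apply,
        mulop_apply89 hdb, mulop_apply89 hcb, hddef]
      ring
    have hval : UE.map μ (mulop c) y - y = UE.map μ (mulop d) y := by
      rw [hd1, UE.map_sub, UE.map_id]
    have hdt : (mulop d).comp (ind ℂ t) = mulop (t.indicator d) := by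
      have hb : ∀ γ, ‖t.indicator d γ‖ ≤ C + 1 := by
        intro γ
        unfold Set.indicator
        split_ifs
        · exact hdb γ
        · rw [norm_zero]
          linarith
      refine ContinuousLinearMap.ext fun x => lv_ext fun i => ?_
      rw [ContinuousLinearMap.comp_apply, mulop_apply89 hdb, mulop_apply89 hb, ind_apply]
      unfold Set.indicator
      by_cases h : i ∈ t
      · rw [if_pos h, if_pos h]
      · rw [if_neg h, if_neg h, zero_mul, mul_zero]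
    have hm1 : ‖UE.map μ (mulop d) y'‖ ≤ ε * ‖y'‖ := by
      have h1 : UE.map μ (mulop d) y' = UE.map μ (mulop (t.indicator d)) y' := by
        rw [← hdt, UE.map_comp, hyt]
      rw [h1]
      refine norm_mulop89 hε (fun γ => ?_) y'
      unfold Set.indicator
      split_ifs with h2
      · rw [ht] at h2
        rw [hddef, hcdef]
        exact (hsv γ h2.1 h2.2).2
      · rw [norm_zero]
        exact hε
    have hm2 : ‖UE.map μ (mulop d) (y - y')‖ ≤ (C + 1) * δ :=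
      (norm_mulop89 (by linarith) hdb _).trans (mul_le_mul_of_nonneg_left hd (by linarith))
    have hm3 : ‖UE.map μ (mulop d) y‖ ≤ ε * (‖y‖ + δ) + (C + 1) * δ := by
      have h1 : UE.map μ (mulop d) y = UE.map μ (mulop d) y' + UE.map μ (mulop d) (y - y') := by
        rw [map_sub]
        abel
      rw [h1]
      refine (norm_add_le _ _).trans ?_
      linarith
    have hin : (inner ℂ y (UE.map μ (mulop fun γ => inner ℂ (Γ.P γ) Γ.q0) y) : ℂ) -
        ((‖y‖ ^ 2 : ℝ) : ℂ) = inner ℂ y (UE.map μ (mulop d) y) := by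
      rw [← hcdef, ← hval, inner_sub_right, inner_self_eq_norm_sq_to_K]
      push_cast
      rfl
    rw [hin]
    exact (norm_inner_le_norm _ _).trans (mul_le_mul_of_nonneg_left hm3 (norm_nonneg _))

theorem vq_decay {y : UE μ (L2 G)} (hy : y ∈ XUa μ R) {s W : Set G} (hs : ∀ m, s ∈ R.F m) {f : G → ℂ} {K : ℝ} (hK : 0 ≤ K)
    (hf : ∀ γ, ‖f γ‖ ≤ K) {δ : ℝ} (hδ : 0 ≤ δ) (h : ∀ γ ∈ s, γ ∉ W → ‖f γ‖ ≤ δ) :
    ‖(inner ℂ y (UE.map μ (mulop f) y) : ℂ)‖ ≤ K * ‖UE.map μ (ind ℂ W) y‖ ^ 2 + δ * ‖y‖ ^ 2 := by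
  classical
  obtain ⟨f2, hf2⟩ : ∃ f2 : G → ℂ, f2 = (s \ W).indicator f := ⟨_, rfl⟩
  have hb2 : ∀ γ, ‖f2 γ‖ ≤ δ := by
    intro γ
    rw [hf2]
    unfold Set.indicator
    split_ifs with h1
    · exact h γ h1.1 h1.2
    · rw [norm_zero]
      exact hδ
  have hop : (mulop f).comp (ind ℂ s) =
      (ind ℂ W).comp ((mulop f).comp ((ind ℂ W).comp (ind ℂ s))) + mulop f2 := by
    refine ContinuousLinearMap.ext fun x => lv_ext fun i => ?_
    rw [_root_.add_apply, lp.coeFn_add, Pi.add_apply, mulop_apply89 hb2,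
      ContinuousLinearMap.comp_apply, ContinuousLinearMap.comp_apply,
      ContinuousLinearMap.comp_apply, ContinuousLinearMap.comp_apply, ind_apply,
      mulop_apply89 hf, mulop_apply89 hf, ind_apply, ind_apply, ind_apply, hf2]
    unfold Set.indicator
    by_cases h1 : i ∈ W <;> by_cases h2 : i ∈ s <;> simp [h1, h2]
  have hys : UE.map μ (ind ℂ s) y = y := XUa_ind R hs hy
  have hdec : UE.map μ (mulop f) y =
      UE.map μ (ind ℂ W) (UE.map μ (mulop f) (UE.map μ (ind ℂ W) y)) + UE.map μ (mulop f2) y := by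
    calc UE.map μ (mulop f) y = UE.map μ (mulop f) (UE.map μ (ind ℂ s) y) := by rw [hys]
      _ = UE.map μ ((mulop f).comp (ind ℂ s)) y := by rw [UE.map_comp]
      _ = _ := by
        rw [hop, UE.map_add, UE.map_comp, UE.map_comp, UE.map_comp, hys]
  rw [hdec, inner_add_right]
  refine (norm_add_le _ _).trans (add_le_add ?_ ?_)
  · rw [← xinner_ind]
    refine (norm_inner_le_norm _ _).trans ?_
    have h1 := norm_mulop89 (μ := μ) hK hf (UE.map μ (ind ℂ W) y)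
    calc ‖UE.map μ (ind ℂ W) y‖ * ‖UE.map μ (mulop f) (UE.map μ (ind ℂ W) y)‖ ≤
        ‖UE.map μ (ind ℂ W) y‖ * (K * ‖UE.map μ (ind ℂ W) y‖) :=
          mul_le_mul_of_nonneg_left h1 (norm_nonneg _)
      _ = K * ‖UE.map μ (ind ℂ W) y‖ ^ 2 := by ring
  · refine (norm_inner_le_norm _ _).trans ?_
    have h1 := norm_mulop89 (μ := μ) hδ hb2 y
    calc ‖y‖ * ‖UE.map μ (mulop f2) y‖ ≤ ‖y‖ * (δ * ‖y‖) :=
          mul_le_mul_of_nonneg_left h1 (norm_nonneg _)
      _ = δ * ‖y‖ ^ 2 := by ring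

end Pool.Agent.Helper84.CH
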