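import Pool.Agent.Helper84.FR.HX
import Pool.Agent.Helper84.SPQ.A1

/-!
# Project CH, block T5: averages along a cyclic group converge to a fixed vector

`ces_fixed`. Notation of `hullX` (`FR/HX.lean`): `z = (VB A).starProjection`, `v = z (TL ζ)`, `σ h = sgm M a (ext A E) (ext B E.conj) h`, `L0 h = opL M0 a (ext A0 E) h`. ALL THE INGREDIENTS ARE IN THE PROOF OF `hullX` (complete proof there; for the private lemmas make private copies; see also `orbit_facts` in `SPQ/A1.lean`, whose statement gives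
`σ (g h) x = σ g (σ h x)`, `⟪σ h v, TR ζ⟫ = ⟪TL (L0 h⁻¹ ζ), TR (L0 h⁻¹ ζ)⟫`, contraction, adjoint, `σ 1 v = v`, `‖σ h v - v‖ ≤ 2 √(ν {a h ≠ 1})`). PROOF. Let `x = σ g2⁻¹ v`, `T = σ a0⁻¹` (a contraction). Mean ergodic theorem (`ContinuousLinearMap.tendsto_birkhoffAverage_orthogonalProjection`): `(1/J) ∑_(j<J) T^j x → P x`, `T (P x) = P x`.
`T^j x = σ (a0^j)⁻¹ x` (for `j = 0`: `σ 1 x = x` because `x = σ g2⁻¹ v = σ (1 g2⁻¹) v`). `η = σ g1⁻¹ (P x)`: the limit of the averages of `σ (g2 a0^j g1)⁻¹ v`. Inner products with `TR ζ`: the last claim. `σ a0 (P x) = σ a0 (σ a0⁻¹ (P x)) = σ 1 (P x) = P x` (`σ 1` fixes the `T^j x`), so `σ (g1⁻¹ a0 g1) η = σ (g1⁻¹) (σ a0 (σ 1 (P x))) = η`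
(`σ g1 (σ g1⁻¹ y) = σ 1 y`). `BddX M ν B`: holds for `v` and the `σ h v` (as in `hullX`: (2) of its documentation), the set is closed and convex, so it contains the averages and the limit. Continuity: (3) of its documentation: holds for the `σ h v`, and for the closed subspace they span.
-/

set_option autoImplicit false

open Filter Topology MeasureTheory

namespace Pool.Agent.Helper84.CH

open NI GVN FR SPQ

/-- The set of vectors bounded with a given constant is closed. -/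
private theorem hx_closed38 {G K : Type} [Group G] [NormedAddCommGroup K] [InnerProductSpace ℂ K]
    (B' : G →* (K ≃ₗᵢ[ℂ] K)) {c : ℝ} (hc : 0 ≤ c) : IsClosed {ξ : K | Bdd B' c ξ} := by
  have h : {ξ : K | Bdd B' c ξ} = ⋂ (s : Finset G) (a : G → ℂ),
      {ξ : K | ‖∑ g ∈ s, a g • B' g ξ‖ ^ 2 ≤ c ^ 2 * ∑ g ∈ s, ‖a g‖ ^ 2} := by
    ext ξ
    simp only [Set.mem_ofPred_eq, Set.mem_iInter, Bdd]
    exact ⟨fun h => h.2, fun h => ⟨hc, h⟩⟩
  rw [h]
  refine isClosed_iInter fun s => isClosed_iInter fun a => ?_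
  refine isClosed_le (Continuous.pow (Continuous.norm ?_) 2) continuous_const
  exact continuous_finsetSum s fun g _ => ((B' g).continuous).const_smul _

/-- The vectors on which a family of contractions is continuous form a closed set. -/
private theorem hx_tclosed38 {α K : Type} [NormedAddCommGroup K] [NormedSpace ℂ K] (l : Filter α)
    (σ : α → (K →L[ℂ] K)) (hσ : ∀ i x, ‖σ i x‖ ≤ ‖x‖) :
    IsClosed {ξ : K | Tendsto (fun i => σ i ξ) l (𝓝 ξ)} := by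
  refine isClosed_of_closure_subset fun ξ hξ => ?_
  rw [Set.mem_ofPred_eq, Metric.tendsto_nhds]
  intro ε hε
  obtain ⟨ξ', hξ', hd⟩ := Metric.mem_closure_iff.1 hξ (ε / 3) (by positivity)
  have h1 : Tendsto (fun i => σ i ξ') l (𝓝 ξ') := hξ'
  rw [Metric.tendsto_nhds] at h1
  filter_upwards [h1 (ε / 3) (by positivity)] with i hi
  rw [dist_eq_norm] at hd hi ⊢
  have e : σ i ξ - ξ = σ i (ξ - ξ') + (σ i ξ' - ξ') - (ξ - ξ') := by
    rw [map_sub]
    abel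
  rw [e]
  have h2 := norm_sub_le (σ i (ξ - ξ') + (σ i ξ' - ξ')) (ξ - ξ')
  have h3 := norm_add_le (σ i (ξ - ξ')) (σ i ξ' - ξ')
  have h4 := hσ i (ξ - ξ')
  linarith

/-- Averages of a cyclic semigroup of contractions converge, mapped by a further operator. -/
private theorem ces_abs38 {C K : Type} [Group C] [NormedAddCommGroup K] [InnerProductSpace ℂ K]
    [CompleteSpace K] (σ : C → (K →L[ℂ] K)) (hσn : ∀ v x, ‖σ v x‖ ≤ ‖x‖)
    (hσm : ∀ g h x, σ (g * h) x = σ g (σ h x)) (v : K) (S : Set K) (hScl : IsClosed S)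
    (hSconv : Convex ℝ S) (horb : ∀ h, σ h v ∈ S) (a0 g1 g2 : C) :
    ∃ η : K, η ∈ S ∧ σ (g1⁻¹ * a0 * g1) η = η ∧
      Tendsto (fun J : ℕ => (J : ℂ)⁻¹ • ∑ j ∈ Finset.range J, σ (g2 * a0 ^ j * g1)⁻¹ v) atTop (𝓝 η) := by
  have hn : ‖σ a0⁻¹‖ ≤ 1 := (σ a0⁻¹).opNorm_le_bound zero_le_one fun x => by
    rw [one_mul]; exact hσn a0⁻¹ x
  obtain ⟨w, hwf, hT⟩ : ∃ w : K, σ a0⁻¹ w = w ∧
      Tendsto (birkhoffAverage ℂ (σ a0⁻¹) _root_.id · (σ g2⁻¹ v)) atTop (𝓝 w) := by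
    refine ⟨_, ?_, ContinuousLinearMap.tendsto_birkhoffAverage_orthogonalProjection (𝕜 := ℂ) (σ a0⁻¹) hn (σ g2⁻¹ v)⟩
    exact (Submodule.orthogonalProjectionOnto (LinearMap.eqLocus (σ a0⁻¹ : K →ₗ[ℂ] K)
      ((1 : K →L[ℂ] K) : K →ₗ[ℂ] K)) (σ g2⁻¹ v)).2
  have hw1 : σ 1 w = w := by
    have h2 : σ (1 * a0⁻¹) w = σ 1 (σ a0⁻¹ w) := hσm 1 a0⁻¹ w
    rw [one_mul, hwf] at h2
    exact h2.symm
  have hwa : σ a0 w = w := by
    have h2 : σ (a0 * a0⁻¹) w = σ a0 (σ a0⁻¹ w) := hσm a0 a0⁻¹ w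
    rw [mul_inv_cancel, hwf, hw1] at h2
    exact h2.symm
  have hit : ∀ j : ℕ, (σ a0⁻¹)^[j] (σ g2⁻¹ v) = σ ((a0 ^ j)⁻¹ * g2⁻¹) v := by
    intro j
    induction j with
    | zero => simp
    | succ j ih =>
      rw [Function.iterate_succ_apply', ih, ← hσm]
      congr 2
      rw [pow_succ]
      group
  have hT2 : Tendsto (fun J : ℕ => (J : ℂ)⁻¹ • ∑ j ∈ Finset.range J, σ (g2 * a0 ^ j * g1)⁻¹ v)
      atTop (𝓝 (σ g1⁻¹ w)) := by
    have h2 := ((σ g1⁻¹).continuous.tendsto w).comp hT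
    refine h2.congr fun J => ?_
    show σ g1⁻¹ (birkhoffAverage ℂ (σ a0⁻¹) _root_.id J (σ g2⁻¹ v)) = _
    rw [birkhoffAverage, birkhoffSum, map_smul, map_sum]
    congr 1
    refine Finset.sum_congr rfl fun j _ => ?_
    show σ g1⁻¹ ((σ a0⁻¹)^[j] (σ g2⁻¹ v)) = _
    rw [hit, ← hσm]
    congr 2
    group
  refine ⟨σ g1⁻¹ w, ?_, ?_, hT2⟩
  · refine hScl.mem_of_tendsto hT2 ?_
    filter_upwards [eventually_ge_atTop 1] with J hJ
    have hJ0 : (0 : ℝ) < J := by exact_mod_cast hJ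
    have e : (J : ℂ)⁻¹ • ∑ j ∈ Finset.range J, σ (g2 * a0 ^ j * g1)⁻¹ v =
        ∑ j ∈ Finset.range J, (J : ℝ)⁻¹ • σ (g2 * a0 ^ j * g1)⁻¹ v := by
      rw [Finset.smul_sum]
      refine Finset.sum_congr rfl fun j _ => ?_
      have ea : (J : ℝ)⁻¹ • σ (g2 * a0 ^ j * g1)⁻¹ v = (((J : ℝ)⁻¹ : ℝ) : ℂ) • σ (g2 * a0 ^ j * g1)⁻¹ v := rfl
      rw [ea]
      push_cast
      rfl
    rw [e]
    refine hSconv.sum_mem (fun _ _ => by positivity) ?_ fun j _ => horb _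
    rw [Finset.sum_const, Finset.card_range, nsmul_eq_mul, mul_inv_cancel₀ hJ0.ne']
  · rw [← hσm]
    have e : g1⁻¹ * a0 * g1 * g1⁻¹ = g1⁻¹ * a0 := by group
    rw [e, hσm, hwa]

variable {C X Λ G : Type} [Group C] [TopologicalSpace C] [IsTopologicalGroup C] [MulAction C X]
  [MeasurableSpace X] [MeasurableConstSMul C X] [Group Λ] [Countable Λ] [Group G]
variable {H K : Type} [NormedAddCommGroup H] [InnerProductSpace ℂ H] [CompleteSpace H]
  [NormedAddCommGroup K] [InnerProductSpace ℂ K] [CompleteSpace K]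

omit [TopologicalSpace C] [IsTopologicalGroup C] [MeasurableConstSMul C X] in
private theorem hx_zhom38 {M : XM C X K} {A B : G →* (K ≃ₗᵢ[ℂ] K)} (h1 : MRep M A B) :
    M.Hom M (VB A).starProjection where
  S h ξ := (map_starProjection (T := ((M.S h).toContinuousLinearEquiv : K →L[ℂ] K)) (A := A) (A' := A)
    (fun g x => ((h1.hA g).S h x).symm) ξ).symm
  x D hD ξ := (map_starProjection (T := M.px.p D) (A := A) (A' := A)
    (fun g x => ((h1.hA g).x D hD x).symm) ξ).symm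
  y D hD ξ := (map_starProjection (T := M.py.p D) (A := A) (A' := A)
    (fun g x => ((h1.hA g).y D hD x).symm) ξ).symm

theorem ces_fixed (a : Cocy C X Λ) (E : Emb Λ G) {M0 : XM C X H} {A0 B0 : G →* (H ≃ₗᵢ[ℂ] H)}
    (h0 : MRep M0 A0 B0) {M : XM C X K} {A B : G →* (K ≃ₗᵢ[ℂ] K)} (h1 : MRep M A B)
    (TL TR : H →ₗᵢ[ℂ] K) (hR : ∀ g x, TR (A0 g x) = A g (TR x)) (hL : ∀ g x, TL (B0 g x) = B g (TL x))
    (hRM : M0.Hom M TR.toContinuousLinearMap) (hLM : M0.Hom M TL.toContinuousLinearMap)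
    {ν : Measure X} [IsFiniteMeasure ν] [SMulInvariantMeasure C X ν]
    {ζ : H} (hA : ζ ∈ VB A0) (hB : BddX M0 ν B0 ζ)
    (hcen : ∀ v : C, opL M0 a (CRep.ext A0 E) v⁻¹ ζ = opR M0 a (CRep.ext B0 E.conj) v ζ)
    (hν : ∀ D : Set X, MeasurableSet D → ‖M0.px.p D ζ‖ ^ 2 ≤ (ν D).toReal)
    (h3 : Tendsto (fun h : C => ν {x | a.a h x ≠ 1}) (𝓝 1) (𝓝 0)) (a0 g1 g2 : C) :
    ∃ η : K, BddX M ν B η ∧ sgm M a (CRep.ext A E) (CRep.ext B E.conj) (g1⁻¹ * a0 * g1) η = η ∧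
      Tendsto (fun h : C => sgm M a (CRep.ext A E) (CRep.ext B E.conj) h η) (𝓝 1) (𝓝 η) ∧
      Tendsto (fun J : ℕ => (J : ℝ)⁻¹ * ∑ j ∈ Finset.range J,
        (inner ℂ (TL (opL M0 a (CRep.ext A0 E) (g2 * a0 ^ j * g1) ζ)) (TR (opL M0 a (CRep.ext A0 E) (g2 * a0 ^ j * g1) ζ))).re)
        atTop (𝓝 (inner ℂ η (TR ζ)).re) := by
  let U : CRep Λ K := CRep.ext A E
  let U' : CRep Λ K := CRep.ext B E.conj
  let z : K →L[ℂ] K := (VB A).starProjection
  let σ : C → (K →L[ℂ] K) := sgm M a U U'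
  obtain ⟨o1, -, o3, o4, -, o6, -, -⟩ := orbit_facts a E h0 h1 TL TR hR hL hRM hLM hA hcen hν
    (v := (VB A).starProjection (TL ζ)) rfl
  have hz : M.Hom M z := hx_zhom38 h1
  have hzB : ∀ g x, z (B g x) = B g (z x) := fun g x =>
    (map_starProjection (T := ((B g).toContinuousLinearEquiv : K →L[ℂ] K)) (A := A) (A' := A)
      (fun h x => (h1.comm2 h g x).symm) x).symm
  let T : H →L[ℂ] K := z.comp TL.toContinuousLinearMap
  have hTx : ∀ x, T x = z (TL x) := fun x => rfl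
  have hzn : ∀ x, ‖z x‖ ≤ ‖x‖ := fun x => Submodule.norm_starProjection_apply_le _ x
  have hTn : ∀ x, ‖T x‖ ≤ ‖x‖ := fun x => (hzn _).trans (TL.norm_map x).le
  have hTy : ∀ D : Set X, MeasurableSet D → ∀ ξ, T (M0.py.p D ξ) = M.py.p D (T ξ) := by
    intro D hD ξ
    have e : TL (M0.py.p D ξ) = M.py.p D (TL ξ) := hLM.y D hD ξ
    rw [hTx, hTx, e]
    exact hz.y D hD _
  have hTB : BddX M ν B (T ζ) := by
    intro D hD
    rw [← hTy D hD]
    have hTc : ∀ g x, T (B0 g x) = B g (T x) := by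
      intro g x
      rw [hTx, hTx, hL, hzB]
    refine (Bdd.map hTc (hB D hD)).mono ?_
    refine mul_le_of_le_one_left (Real.sqrt_nonneg _) ?_
    exact T.opNorm_le_bound zero_le_one fun x => by rw [one_mul]; exact hTn x
  have hσn : ∀ v x, ‖σ v x‖ ≤ ‖x‖ := o6
  have hσm : ∀ g h x, σ (g * h) x = σ g (σ h x) := o4
  have hin : ∀ v, inner ℂ (σ v (T ζ)) (TR ζ) =
      inner ℂ (TL (opL M0 a (CRep.ext A0 E) v⁻¹ ζ)) (TR (opL M0 a (CRep.ext A0 E) v⁻¹ ζ)) := o3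
  have hcont0 : Tendsto (fun h : C => σ h (T ζ)) (𝓝 1) (𝓝 (T ζ)) := by
    rw [tendsto_iff_norm_sub_tendsto_zero]
    have h2 : ∀ h : C, ‖σ h (T ζ) - T ζ‖ ≤ 2 * Real.sqrt (ν {x | a.a h x ≠ 1}).toReal := o1
    have h4 : Tendsto (fun h : C => 2 * Real.sqrt (ν {x | a.a h x ≠ 1}).toReal) (𝓝 1) (𝓝 0) := by
      have h5 := (ENNReal.tendsto_toReal ENNReal.zero_ne_top).comp h3
      rw [ENNReal.toReal_zero] at h5
      have h6 := ((Real.continuous_sqrt.tendsto 0).comp h5).const_mul 2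
      rw [Real.sqrt_zero, mul_zero] at h6
      exact h6
    exact squeeze_zero (fun h => norm_nonneg _) h2 h4
  have hcontv : ∀ v : C, Tendsto (fun h : C => σ h (σ v (T ζ))) (𝓝 1) (𝓝 (σ v (T ζ))) := by
    intro v
    have h2 : Tendsto (fun h : C => v⁻¹ * h * v) (𝓝 1) (𝓝 1) := by
      have h5 : Continuous fun h : C => v⁻¹ * h * v := by fun_prop
      have h6 := h5.tendsto 1
      rw [mul_one, inv_mul_cancel] at h6
      exact h6
    have h4 := ((σ v).continuous.tendsto (T ζ)).comp (hcont0.comp h2)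
    refine h4.congr fun h => ?_
    show σ v (σ (v⁻¹ * h * v) (T ζ)) = σ h (σ v (T ζ))
    rw [← hσm, ← hσm]
    congr 2
    group
  let S : Set K := {ξ | BddX M ν B ξ ∧ Tendsto (fun h : C => σ h ξ) (𝓝 1) (𝓝 ξ)}
  have hScl : IsClosed S := by
    have e1 : IsClosed {ξ : K | BddX M ν B ξ} := by
      have e : {ξ : K | BddX M ν B ξ} = ⋂ (D : Set X) (_ : MeasurableSet D),
          (M.py.p D) ⁻¹' {ξ : K | Bdd B (Real.sqrt (ν D).toReal) ξ} := by
        ext ξ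
        simp only [Set.mem_ofPred_eq, Set.mem_iInter, Set.mem_preimage, BddX]
      rw [e]
      refine isClosed_iInter fun D => isClosed_iInter fun _ => ?_
      exact (hx_closed38 B (Real.sqrt_nonneg _)).preimage (M.py.p D).continuous
    exact e1.inter (hx_tclosed38 (𝓝 (1 : C)) σ hσn)
  have hSconv : Convex ℝ S := by
    rintro x ⟨x1, x3⟩ y ⟨y1, y3⟩ p q hp hq hpq
    have ea : p • x = (p : ℂ) • x := rfl
    have eb : q • y = (q : ℂ) • y := rfl
    rw [ea, eb]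
    refine ⟨fun D hD => ?_, ?_⟩
    · rw [map_add, map_smul, map_smul]
      refine (((x1 D hD).smul (p : ℂ)).add ((y1 D hD).smul (q : ℂ))).mono ?_
      rw [Complex.norm_real, Complex.norm_real, Real.norm_of_nonneg hp, Real.norm_of_nonneg hq,
        ← add_mul, hpq, one_mul]
    · have h2 := (x3.const_smul (p : ℂ)).add (y3.const_smul (q : ℂ))
      refine h2.congr fun h => ?_
      rw [map_add, map_smul, map_smul]
  have horb : ∀ v, σ v (T ζ) ∈ S := by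
    intro v
    refine ⟨?_, hcontv v⟩
    exact bddX_opL a E h1 (bddX_opR a E h1 hTB v) v
  obtain ⟨η, hη, hfix, hlim⟩ := ces_abs38 σ hσn hσm (T ζ) S hScl hSconv horb a0 g1 g2
  refine ⟨η, hη.1, hfix, hη.2, ?_⟩
  have h2 : Tendsto (fun J : ℕ => (inner ℂ ((J : ℂ)⁻¹ • ∑ j ∈ Finset.range J,
      σ (g2 * a0 ^ j * g1)⁻¹ (T ζ)) (TR ζ)).re) atTop (𝓝 (inner ℂ η (TR ζ)).re) :=
    (Complex.continuous_re.tendsto _).comp (hlim.inner tendsto_const_nhds)
  refine h2.congr fun J => ?_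
  rw [inner_smul_left, sum_inner]
  have e1 : (starRingEnd ℂ) (J : ℂ)⁻¹ = (((J : ℝ)⁻¹ : ℝ) : ℂ) := by
    rw [map_inv₀, Complex.conj_natCast]
    push_cast
    rfl
  rw [e1, Complex.re_ofReal_mul, Complex.re_sum]
  congr 1
  refine Finset.sum_congr rfl fun j _ => ?_
  rw [hin, inv_inv]

end Pool.Agent.Helper84.CH
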