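import Pool.Agent.Helper84.CH.T5
import Pool.Agent.Helper84.SPQ.A3

/-!
# Project CH, block T6: no fixed vectors; the mass of the component leaves the regions on average

`no_fixedX`. PROOF. Copy the proof of `esc_mass` (`SPQ/A3.lean`: the elements `u'`, `w'`, the isomorphism `e` of `closure {u', w'}` with `closure {u, w}`, `hna'`, `hp`, the structure `I0`) and then the second half of the proof of `escapeX` (`FR/ET.lean`: from `have hU : UHom ..` on: `mautnerX`, `finalX`), with the given `η` instead of the vector of `hullX`;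
`T`, `hTV`, `hTP`, `v0` as in `esc_mass` (`Too μ a E b`, `Too_V`, `Too_P0`, `v0 μ Λ`, `Too_v0`).
`cesaro_zero`. PROOF. Let `ζ = XPpr R (vec μ a E b)`; `hzV`, `hbB`, `hcen`, `hν`, `h3'` as in the proof of `escapeX`. `ces_fixed` (`M0 = xmUa μ b R`, `M = xmVp μ b R L`, `TL = XTL μ Γ`, `TR = XTR μ Γ`): `η`. If `Re ⟪η, TR ζ⟫ > 0`: `no_fixedX` for `g1⁻¹ a0 g1`, `g1⁻¹ u g1`, `g1⁻¹ w g1` (contraction properties by conjugation, `closure {g1⁻¹ u g1, g1⁻¹ w g1}` is the image of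
`closure {u, w}` under the automorphism `x ↦ g1⁻¹ x g1` of `G1`: a homeomorphism, so discrete; `NonAm` by `nonAm_iff` and `congr` as in `esc_mass`). So the limit of the averages of `Re ⟪TL y_j, TR y_j⟫`, `y_j = L0 (g2 a0^j g1) ζ`, is `≤ 0`. Lower bound: `Re ⟪TL y, TR y⟫ ≥ c ‖ind (W n) y‖²` (`inner_XTL_XTR`, `xlower`, `Γ.pos n`, `Γ.nonneg`, as in `escapeX`). Squeeze.
-/

set_option autoImplicit false
set_option linter.unusedSectionVars false

open Filter Topology Matrix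

namespace Pool.Agent.Helper84.CH

open NI GVN GN FR MeasureTheory Pool.Agent.Helper66.FR Pool.Agent.Helper90.RK Pool.Agent.Helper55.FR
open Pool.Agent.Helper96.RK (HasCoc)

variable {G1 X : Type} [Group G1] [TopologicalSpace G1] [IsTopologicalGroup G1] [MeasurableSpace X]
  {μ : Measure X} [MulAction G1 X] [MeasurableConstSMul G1 X] [SMulInvariantMeasure G1 X μ]
  [IsProbabilityMeasure μ]
variable {G Λ : Type} [Group G] [Group Λ] [Countable Λ]

theorem no_fixedX (a : Cocy G1 X Λ) (E : Emb Λ G) (h3 : Tendsto (fun g : G1 => μ {x | a.a g x ≠ 1}) (𝓝 1) (𝓝 0))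
    (hp : ∀ F : Subgroup G1, DiscreteTopology F → Countable F ∧ ∃ p : X → Λ → F,
      (∀ (l : Λ) (s : Set F), MeasurableSet {x | p x l ∈ s}) ∧
        ∀ (f : F) (x : X) (l : Λ), p ((f : G1) • x) (a.a f x * l) = f * p x l)
    {R : Reg G} {L : Type} [NormedAddCommGroup L] [InnerProductSpace ℂ L] [CompleteSpace L] (Γ : Coc R L)
    (hD : ∀ (Q : Finset G) (ε : ℝ), 0 < ε → Nonempty (Mul Γ Q ε)) (b : ℕ → G1) (a0 u w : cen b)
    (hu : Tendsto (fun m : ℕ => (a0 ^ m)⁻¹ * u * a0 ^ m) atTop (𝓝 1)) (hw : Tendsto (fun m : ℕ => a0 ^ m * w * (a0 ^ m)⁻¹) atTop (𝓝 1))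
    (hdisc : DiscreteTopology (Subgroup.closure {(u : G1), (w : G1)})) (hna : NonAm (Subgroup.closure {(u : G1), (w : G1)}))
    {η : XVp μ R L} (h1 : BddX (xmVp μ b R L) μ (XBV μ Γ) η)
    (h2 : 0 < (inner ℂ η (XTR μ Γ (XPpr R (vec μ a E b)))).re)
    (hfix : sgm (xmVp μ b R L) (cres a (cen b)) (CRep.ext (XAV μ Γ) E) (CRep.ext (XBV μ Γ) E.conj) a0 η = η)
    (hcont : Tendsto (fun h : cen b => sgm (xmVp μ b R L) (cres a (cen b)) (CRep.ext (XAV μ Γ) E) (CRep.ext (XBV μ Γ) E.conj) h η)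
      (𝓝 1) (𝓝 η)) : False := by
  classical
  have hu1 : ∀ n, b n * (u : G1) = (u : G1) * b n := mem_cen.1 u.2
  -- the group generated by `u`, `w`
  have hmap : (Subgroup.closure {u, w}).map (cen b).subtype = Subgroup.closure {(u : G1), (w : G1)} := by
    rw [MonoidHom.map_closure, Set.image_pair]
    rfl
  let e : Subgroup.closure {u, w} ≃* Subgroup.closure {(u : G1), (w : G1)} :=
    ((Subgroup.closure {u, w}).equivMapOfInjective (cen b).subtype (cen b).subtype_injective).trans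
      (MulEquiv.subgroupCongr hmap)
  have he : ∀ f : Subgroup.closure {u, w}, ((e f : Subgroup.closure {(u : G1), (w : G1)}) : G1) = ((f : cen b) : G1) :=
    fun f => rfl
  have hna' : NonAm (Subgroup.closure {u, w}) := by
    rw [Pool.Agent.Helper66.RK.nonAm_iff] at hna ⊢
    exact fun h => hna (h.congr e)
  obtain ⟨hcount, p, hpm, hpe⟩ := hp (Subgroup.closure {(u : G1), (w : G1)}) hdisc
  have hcount' : Countable (Subgroup.closure {u, w}) := e.toEquiv.countable_iff.2 hcount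
  have hsmi : SMulInvariantMeasure (Subgroup.closure {u, w}) X μ :=
    ⟨fun g _ hs => SMulInvariantMeasure.measure_preimage_smul ((g : cen b) : G1) hs⟩
  have hmcs : MeasurableConstSMul (Subgroup.closure {u, w}) X :=
    ⟨fun g => measurable_const_smul ((g : cen b) : G1)⟩
  let aF : Cocy (Subgroup.closure {u, w}) X Λ := cres (cres a (cen b)) (Subgroup.closure {u, w})
  let I0 : Imp (Subgroup.closure {u, w}) X (XL μ (L2 Λ)) := impX μ aF (fun x l => e.symm (p x l))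
    (fun l g => by
      have h := hpm l {e g}
      refine (congrArg MeasurableSet ?_).mp h
      ext x
      simp only [Set.mem_ofPred_eq, Set.mem_singleton_iff]
      exact (MulEquiv.symm_apply_eq e).symm)
    (fun f x l => by
      have h := hpe (e f) x l
      change e.symm (p (((f : cen b) : G1) • x) (a.a ((f : cen b) : G1) x * l)) = f * e.symm (p x l)
      rw [MulEquiv.symm_apply_eq, map_mul, MulEquiv.apply_symm_apply]
      exact h)
  have hTV : ∀ (f : Subgroup.closure {u, w}) x,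
      Too μ a E b (I0.V f x) = opL (xmU μ b (L2 G)) (cres a (cen b)) (CRep.ext (AE μ G) E) f (Too μ a E b x) :=
    fun f φ => Too_V (aF := aF) b f (f : cen b) (fun _ => rfl) (fun _ => rfl) φ
  have hTP : ∀ D : Set X, MeasurableSet D → ∀ x, Too μ a E b (I0.P0.p D x) = (xmU μ b (L2 G)).py.p D (Too μ a E b x) :=
    fun D hDm φ => Too_P0 b hDm φ
  have hU : UHom (xmVp μ b R L) (CRep.ext (XAV μ Γ) E) := uhom_ext E (mrep_XV b Γ).hA
  have hU' : UHom (xmVp μ b R L) (CRep.ext (XBV μ Γ) E.conj) := uhom_ext E.conj (mrep_XV b Γ).hB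
  have hUU := ucom_ext (mrep_XV (μ := μ) (R := R) b Γ).comm2 E E.conj
  let σ : CRep (cen b) (XVp μ R L) :=
    { U := sgm (xmVp μ b R L) (cres a (cen b)) (CRep.ext (XAV μ Γ) E) (CRep.ext (XBV μ Γ) E.conj)
      mul := sgm_mul (xmVp μ b R L) (cres a (cen b)) hU hU' hUU
      norm_le := norm_sgm_le (xmVp μ b R L) (cres a (cen b)) hU hU'
      adj := sgm_adj (xmVp μ b R L) (cres a (cen b)) hU hU' hUU }
  have hfix' : ∀ f ∈ Subgroup.closure {u, w}, σ.U f η = η := by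
    refine mautnerX (σ := σ) hcont (a0 := a0) hfix ?_
    rintro x (rfl | hx)
    · exact Or.inl hu
    · rw [Set.mem_singleton_iff] at hx
      subst hx
      exact Or.inr hw
  obtain ⟨F, ε₀, hε₀, hF⟩ := hna'
  let T' : XL μ (L2 Λ) →L[ℂ] XVp μ R L := ((XTR μ Γ).toContinuousLinearMap.comp (XPpr R)).comp (Too μ a E b)
  have hT' : ∀ x, T' x = XTR μ Γ (XPpr R (Too μ a E b x)) := fun x => rfl
  obtain ⟨q, hq, hq2⟩ := finalX (cres a (cen b)) E (mrep_XV b Γ) (xapx Γ b hD) (Subgroup.closure {u, w}) I0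
    T' (fun f x => by
      rw [hT', hT', hTV, XPpr_opL, XTR_opL]) (fun D hDm x => by
      rw [hT', hT', hTP D hDm]
      have e1 := (hom_XPpr (μ := μ) (R := R) b).y D hDm (Too μ a E b x)
      have e2 := (hom_XTR (μ := μ) b Γ).y D hDm (XPpr R (Too μ a E b x))
      rw [e1]
      exact e2) (v0 μ Λ) h1 (by
      rw [hT', Too_v0]
      intro h0
      rw [h0, Complex.zero_re] at h2
      exact lt_irrefl _ h2) hfix' F (half_pos hε₀)
  obtain ⟨g, hg, hg2⟩ := hF q hq
  have h5 := hq2 g hg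
  linarith

theorem cesaro_zero (a : Cocy G1 X Λ) (E : Emb Λ G) (h3 : Tendsto (fun g : G1 => μ {x | a.a g x ≠ 1}) (𝓝 1) (𝓝 0))
    (hp : ∀ F : Subgroup G1, DiscreteTopology F → Countable F ∧ ∃ p : X → Λ → F,
      (∀ (l : Λ) (s : Set F), MeasurableSet {x | p x l ∈ s}) ∧
        ∀ (f : F) (x : X) (l : Λ), p ((f : G1) • x) (a.a f x * l) = f * p x l)
    {R : Reg G} (hco : HasCoc R) (b : ℕ → G1) (a0 u w : cen b)
    (hu : Tendsto (fun m : ℕ => (a0 ^ m)⁻¹ * u * a0 ^ m) atTop (𝓝 1)) (hw : Tendsto (fun m : ℕ => a0 ^ m * w * (a0 ^ m)⁻¹) atTop (𝓝 1))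
    (hdisc : DiscreteTopology (Subgroup.closure {(u : G1), (w : G1)})) (hna : NonAm (Subgroup.closure {(u : G1), (w : G1)}))
    (n : ℕ) (g1 g2 : cen b) :
    Tendsto (fun J : ℕ => (J : ℝ)⁻¹ * ∑ j ∈ Finset.range J, ‖UE.map μ (ind ℂ (R.W n))
      ((opL (xmUa μ b R) (cres a (cen b)) (CRep.ext (XAU R) E) (g2 * a0 ^ j * g1) (XPpr R (vec μ a E b)) : XUa μ R) : UE μ (L2 G))‖ ^ 2)
      atTop (𝓝 0) := by
  classical
  obtain ⟨L, _, _, _, Γ, hD⟩ := hco
  obtain ⟨c, hc, hpos⟩ := Γ.pos n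
  have hbA : Bdd (XAU R) 1 (XPpr R (vec μ a E b)) :=
    (Bdd.map (A := AE μ G) (T := XPpr R) (XPpr_A R) (bdd_A_vec b)).mono (by
      simpa using norm_XPpr (μ := μ) R)
  have hbB : BddX (xmUa μ b R) μ (XBU R) (XPpr R (vec μ a E b)) := by
    intro D hDm
    have h1 := (hom_XPpr (μ := μ) (R := R) b).y D hDm (vec μ a E b)
    rw [← h1]
    refine (Bdd.map (A := BE μ G) (T := XPpr R) (XPpr_B R) (bddX_vec (b := b) (a := a) (E := E) hDm)).mono ?_
    have := mul_le_mul_of_nonneg_right (norm_XPpr (μ := μ) R) (Real.sqrt_nonneg (μ D).toReal)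
    linarith
  have hcen : ∀ v : cen b, opL (xmUa μ b R) (cres a (cen b)) (CRep.ext (XAU R) E) v⁻¹ (XPpr R (vec μ a E b)) =
      opR (xmUa μ b R) (cres a (cen b)) (CRep.ext (XBU R) E.conj) v (XPpr R (vec μ a E b)) := by
    intro v
    rw [← XPpr_opL, ← XPpr_opR, vec_central]
  have hν : ∀ D : Set X, MeasurableSet D → ‖(xmUa μ b R).px.p D (XPpr R (vec μ a E b))‖ ^ 2 ≤ (μ D).toReal := by
    intro D hDm
    have h1 := (hom_XPpr (μ := μ) (R := R) b).x D hDm (vec μ a E b)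
    rw [← h1]
    exact (pow_le_pow_left₀ (norm_nonneg _) (norm_XPpr_le _) 2).trans (norm_px_vec hDm)
  have h3' : Tendsto (fun h : cen b => μ {x | (cres a (cen b)).a h x ≠ 1}) (𝓝 1) (𝓝 0) := by
    have h4 : Tendsto (fun h : cen b => (h : G1)) (𝓝 1) (𝓝 1) := continuous_subtype_val.tendsto (1 : cen b)
    exact h3.comp h4
  obtain ⟨η, h1, hfix, hcont, hlim⟩ := ces_fixed (cres a (cen b)) E (mrep_XU b) (mrep_XV b Γ) (XTL μ Γ) (XTR μ Γ)
    (XTR_A μ Γ) (XTL_B μ Γ) (hom_XTR b Γ) (hom_XTL b Γ) (ν := μ) hbA.mem_VB hbB hcen hν h3' a0 g1 g2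
  -- the pointwise lower bound
  have hlow : ∀ y : XUa μ R, c * ‖UE.map μ (ind ℂ (R.W n)) (y : UE μ (L2 G))‖ ^ 2 ≤
      (inner ℂ (XTL μ Γ y) (XTR μ Γ y)).re := by
    intro y
    rw [inner_XTL_XTR]
    refine xlower (W := R.W n) (c := c) (fun γ => ?_) (fun γ => Γ.nonneg γ) (fun γ hγ => hpos γ hγ) _
    refine (norm_inner_le_norm _ _).trans ?_
    rw [Γ.nvX, Γ.nv, mul_one]
  -- the limit is nonpositive
  have hle : (inner ℂ η (XTR μ Γ (XPpr R (vec μ a E b)))).re ≤ 0 := by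
    by_contra hcon
    push Not at hcon
    have hpow : ∀ m : ℕ, (g1⁻¹ * a0 * g1) ^ m = g1⁻¹ * a0 ^ m * g1 := by
      intro m
      have h := conj_pow (a := g1⁻¹) (b := a0) (i := m)
      rw [inv_inv] at h
      exact h
    have hcj : Tendsto (fun x : cen b => g1⁻¹ * x * g1) (𝓝 1) (𝓝 1) := by
      have h : Continuous fun x : cen b => g1⁻¹ * x * g1 := by fun_prop
      have h' := h.tendsto (1 : cen b)
      rwa [mul_one, inv_mul_cancel] at h'
    have hu' : Tendsto (fun m : ℕ => ((g1⁻¹ * a0 * g1) ^ m)⁻¹ * (g1⁻¹ * u * g1) * (g1⁻¹ * a0 * g1) ^ m)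
        atTop (𝓝 1) := by
      refine (hcj.comp hu).congr fun m => ?_
      rw [hpow]
      change g1⁻¹ * ((a0 ^ m)⁻¹ * u * a0 ^ m) * g1 = _
      group
    have hw' : Tendsto (fun m : ℕ => (g1⁻¹ * a0 * g1) ^ m * (g1⁻¹ * w * g1) * ((g1⁻¹ * a0 * g1) ^ m)⁻¹)
        atTop (𝓝 1) := by
      refine (hcj.comp hw).congr fun m => ?_
      rw [hpow]
      change g1⁻¹ * (a0 ^ m * w * (a0 ^ m)⁻¹) * g1 = _
      group
    -- conjugation
    let κ : G1 ≃* G1 := MulAut.conj ((g1 : G1)⁻¹)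
    have hκ : ∀ x : G1, κ x = (g1 : G1)⁻¹ * x * g1 := by
      intro x
      change (g1 : G1)⁻¹ * x * ((g1 : G1)⁻¹)⁻¹ = _
      rw [inv_inv]
    have hmap : (Subgroup.closure {(u : G1), (w : G1)}).map κ.toMonoidHom =
        Subgroup.closure {((g1⁻¹ * u * g1 : cen b) : G1), ((g1⁻¹ * w * g1 : cen b) : G1)} := by
      rw [MonoidHom.map_closure, Set.image_pair]
      change Subgroup.closure {κ (u : G1), κ (w : G1)} = _
      rw [hκ, hκ]
      rfl
    let e : Subgroup.closure {(u : G1), (w : G1)} ≃*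
        Subgroup.closure {((g1⁻¹ * u * g1 : cen b) : G1), ((g1⁻¹ * w * g1 : cen b) : G1)} :=
      ((Subgroup.closure {(u : G1), (w : G1)}).equivMapOfInjective κ.toMonoidHom κ.injective).trans
        (MulEquiv.subgroupCongr hmap)
    have he : ∀ f : Subgroup.closure {(u : G1), (w : G1)}, (e f : G1) = (g1 : G1)⁻¹ * (f : G1) * g1 :=
      fun f => hκ f
    have he' : ∀ y, ((e.symm y : Subgroup.closure {(u : G1), (w : G1)}) : G1) = (g1 : G1) * (y : G1) * (g1 : G1)⁻¹ := by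
      intro y
      have h := he (e.symm y)
      rw [MulEquiv.apply_symm_apply] at h
      rw [h]
      group
    have hdisc' : DiscreteTopology (Subgroup.closure
        {((g1⁻¹ * u * g1 : cen b) : G1), ((g1⁻¹ * w * g1 : cen b) : G1)}) := by
      have hcont' : Continuous e.symm := by
        rw [continuous_induced_rng]
        have hc2 : Continuous fun y : Subgroup.closure
            {((g1⁻¹ * u * g1 : cen b) : G1), ((g1⁻¹ * w * g1 : cen b) : G1)} =>
            (g1 : G1) * (y : G1) * (g1 : G1)⁻¹ := by fun_prop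
        exact hc2.congr fun y => (he' y).symm
      exact DiscreteTopology.of_continuous_injective hcont' e.symm.injective
    have hna' : NonAm (Subgroup.closure {((g1⁻¹ * u * g1 : cen b) : G1), ((g1⁻¹ * w * g1 : cen b) : G1)}) := by
      rw [Pool.Agent.Helper66.RK.nonAm_iff] at hna ⊢
      exact fun h => hna (h.congr e.symm)
    exact no_fixedX a E h3 hp Γ hD b (g1⁻¹ * a0 * g1) (g1⁻¹ * u * g1) (g1⁻¹ * w * g1) hu' hw' hdisc' hna'
      h1 hcon hfix hcont
  -- the averages of the lower bound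
  have havg : ∀ J : ℕ, c * ((J : ℝ)⁻¹ * ∑ j ∈ Finset.range J, ‖UE.map μ (ind ℂ (R.W n))
      ((opL (xmUa μ b R) (cres a (cen b)) (CRep.ext (XAU R) E) (g2 * a0 ^ j * g1) (XPpr R (vec μ a E b)) : XUa μ R) : UE μ (L2 G))‖ ^ 2) ≤
      (J : ℝ)⁻¹ * ∑ j ∈ Finset.range J,
        (inner ℂ (XTL μ Γ (opL (xmUa μ b R) (cres a (cen b)) (CRep.ext (XAU R) E) (g2 * a0 ^ j * g1) (XPpr R (vec μ a E b))))
          (XTR μ Γ (opL (xmUa μ b R) (cres a (cen b)) (CRep.ext (XAU R) E) (g2 * a0 ^ j * g1) (XPpr R (vec μ a E b))))).re := by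
    intro J
    rw [mul_left_comm, Finset.mul_sum]
    exact mul_le_mul_of_nonneg_left (Finset.sum_le_sum fun j _ => hlow _) (by positivity)
  have hnn : ∀ J : ℕ, 0 ≤ (J : ℝ)⁻¹ * ∑ j ∈ Finset.range J, ‖UE.map μ (ind ℂ (R.W n))
      ((opL (xmUa μ b R) (cres a (cen b)) (CRep.ext (XAU R) E) (g2 * a0 ^ j * g1) (XPpr R (vec μ a E b)) : XUa μ R) : UE μ (L2 G))‖ ^ 2 := by
    intro J
    positivity
  have hL0 : (inner ℂ η (XTR μ Γ (XPpr R (vec μ a E b)))).re = 0 := by
    refine le_antisymm hle (ge_of_tendsto' hlim fun J => ?_)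
    exact (mul_nonneg hc.le (hnn J)).trans (havg J)
  rw [hL0] at hlim
  have hlim' := hlim.const_mul c⁻¹
  rw [mul_zero] at hlim'
  refine squeeze_zero hnn (fun J => ?_) hlim'
  rw [le_inv_mul_iff₀ hc]
  exact havg J

end Pool.Agent.Helper84.CH
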