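import Pool.Agent.Helper84.CH.T3
import Pool.Agent.Helper84.CH.T4
import Pool.Agent.Helper84.CH.T6
import Pool.Agent.Helper84.CH.LG4

/-!
# Project CH, block T7: the last step of the induction, Cowling-Haagerup constants

`no_hsr`. PROOF. As in `no_haag` (`SPQ/A4.lean`): `ζ = XPpr R (vec μ a E b)`, `N0 = ‖ζ‖ > 0`, `φ' x = ⟨φ x, _⟩ : cen b`, `L0_k = opL (xmUa μ b R) (cres a (cen b)) (ext (XAU R) E) k`; `hzV`, `hcen`, `hν` as there, `ζ ∈ VB (XBU R)` and `‖py D ζ‖² ≤ μ D` from `hbB` (proof of `escapeX`: `BddX` with `D = univ` resp. with one group element).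
(a) `lb_main` with the constants `C`, `τ` gives `R0`, `δ`. The set `{k | ‖entM k‖ ≤ R0}` is compact (`isCompact_ent`). Let `η > 0` be small (see below), `V` a neighbourhood of `1` in `SpM m` with `2 √(μ {a (φ v)⁻¹ ≠ 1}) ≤ η N0` for `v ∈ V`, `t` a finite set with `{‖entM‖ ≤ R0} ⊆ ⋃_(g ∈ t) g⁻¹ V` (`compact_covered_by_mul_left_translates`).
`k = g⁻¹ v`: `‖L0_k ζ - L0_{g⁻¹} ζ‖ ≤ ‖L0_v ζ - ζ‖ ≤ η N0` (`opL_mul`, `orb_zero`).
(b) `vq_near` for `ζ` and the `L0_{g⁻¹} ζ`, `g ∈ t`, with `δ'` small: `n0`; then `HSR R C` with `n0` and `ε` small: `L`, `Γ : CocL R L C`, `s`, so that `‖VQ y - V1 y‖ ≤ η N0` and `|⟪y, M_c y⟫ - ‖y‖²| ≤ η N0²` for these vectors, `c γ = ⟪P γ, q0⟫`, `M_c = mulop c` (norm `≤ |C|`: `‖P‖, ‖q0‖ ≤ √C`).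
(c) `p g = N0⁻¹ • L_g (VP (L0_{g⁻¹} ζ))`, `q h = N0⁻¹ • L_h (VQ (L0_{h⁻¹} ζ))` (arguments `φ' g`, `φ' h`; `L = opL (xmVp μ b R L) .. (ext (XAL μ Γ) E)`), `ψ k = N0⁻² ⟪VP L0_k ζ, L_k VQ ζ⟫`. `key_inv` (`hom_XAL`, `hom_VF`, `inv_V`): `⟪p g, q h⟫ = ψ (g⁻¹ h)`. Norms: `≤ √C` (`norm_VF`, contractions).
Continuity of `p`, `q`: `orb_cont` and `h3` (topological group: `h → g` iff `g⁻¹ h → 1`).
(d) `|ψ k - N0⁻² ⟪L0_k ζ, M_c L0_k ζ⟫| ≤ √C η`: `near_L` with `V0 = V1 μ Γ` (`V1_A`), `inner_VP_V1`, `‖VP L0_k ζ‖ ≤ √C N0`. For `‖entM k‖ ≤ R0`: `|⟪L0_k ζ, M_c L0_k ζ⟫ - N0²| ≤ (2 |C| + ...) η N0²` by (a), (b) (`‖L0_k ζ‖ = N0`: `esc_norm`). So `‖ψ k - 1‖ ≤ δ` if `η` is small compared to `δ`, depending on `C` only.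
(e) Given `k`, `k' ∈ KM m`, `s ∈ [0, τ]`: `n` from the last property of `HSR` for `δ/4`; `w_j = k (aM (τ j + s)) k' = k (aM τ)^j (aM s k')` (`aM_add`): `vq_decay` with `y = L0_{w_j} ζ`: `‖ψ w_j‖ ≤ √C η + N0⁻² (|C| ‖ind (W n) y_j‖² + (δ/4) N0²)`, and the averages of `‖ind (W n) y_j‖²` tend to zero (`cesaro_zero` with `a0 = φ' (aM τ)`, `g2 = φ' k`, `g1 = φ' (aM s k')`):
eventually `∑_(j<J) ‖ψ w_j‖ ≤ δ J`. Contradiction by `lb_main`.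
-/

set_option autoImplicit false
set_option linter.unusedSectionVars false

open Filter Topology Matrix

namespace Pool.Agent.Helper84.CH

open NI GVN GN FR MeasureTheory Pool.Agent.Helper66.FR Pool.Agent.Helper90.RK Pool.Agent.Helper55.FR
open Pool.Agent.Helper96.RK (HasCoc)

section Aux7

variable {G1 X : Type} [Group G1] [TopologicalSpace G1] [IsTopologicalGroup G1] [MeasurableSpace X]
  {μ : Measure X} [MulAction G1 X] [MeasurableConstSMul G1 X] [SMulInvariantMeasure G1 X μ]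
  [IsProbabilityMeasure μ]
variable {G Λ : Type} [Group G] [Group Λ] [Countable Λ]

omit [IsProbabilityMeasure μ] in
private theorem norm_mulop7 {f : G → ℂ} {C : ℝ} (hC : 0 ≤ C) (hf : ∀ γ, ‖f γ‖ ≤ C)
    (y : UE μ (L2 G)) : ‖UE.map μ (mulop f) y‖ ≤ C * ‖y‖ := by
  refine UE.norm_map_le_of hC (fun x => ?_) y
  unfold mulop
  refine norm_dg_le hC (fun i y => ?_) x
  rw [_root_.smul_apply, ContinuousLinearMap.id_apply, norm_smul]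
  exact mul_le_mul_of_nonneg_right (hf i) (norm_nonneg _)

private theorem D_facts (C : ℝ) : 1 ≤ |C| + 1 ∧ C ≤ |C| + 1 ∧ Real.sqrt C ≤ |C| + 1 := by
  have h0 : 0 ≤ |C| := abs_nonneg C
  have h1 : C ≤ |C| := le_abs_self C
  refine ⟨by linarith, by linarith, ?_⟩
  rw [Real.sqrt_le_left (by linarith)]
  nlinarith

/-- A finite set of vectors: the sections are close. -/
private theorem near_fin7 {ι : Type} {R : Reg G} {C : ℝ} (t : Finset ι) (y : ι → XUa μ R) {N0 : ℝ} (hy : ∀ i, ‖y i‖ = N0)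
    (hN0 : 0 < N0) {η : ℝ} (hη : 0 < η) (hH : HSR R C) :
    ∃ (L : Type) (_ : NormedAddCommGroup L) (_ : InnerProductSpace ℂ L) (_ : CompleteSpace L)
      (Γ : CocL R L C) (s : Set G), (∀ n, s ∈ R.F n) ∧ (∀ i ∈ t, ‖VQ μ Γ (y i) - V1 μ Γ (y i)‖ ≤ η * N0 ∧
        ‖(inner ℂ (y i : UE μ (L2 G)) (UE.map μ (mulop fun γ => inner ℂ (Γ.P γ) Γ.q0) (y i : UE μ (L2 G))) : ℂ) -
          ((N0 ^ 2 : ℝ) : ℂ)‖ ≤ η * N0 ^ 2) ∧
        ∀ δ : ℝ, 0 < δ → ∃ n, ∀ γ ∈ s, γ ∉ R.W n → ‖(inner ℂ (Γ.P γ) Γ.q0 : ℂ)‖ ≤ δ := by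
  obtain ⟨hD1, hD2, hD3⟩ := D_facts C
  obtain ⟨D, hD⟩ : ∃ D : ℝ, D = |C| + 1 := ⟨_, rfl⟩
  rw [← hD] at hD1 hD2 hD3
  have hDp : 0 < D := by linarith
  obtain ⟨δ, hδ⟩ : ∃ δ : ℝ, δ = η * N0 / (8 * D) := ⟨_, rfl⟩
  have hδp : 0 < δ := by
    rw [hδ]
    positivity
  have hδD : D * δ = η * N0 / 8 := by
    rw [hδ]
    field_simp
  obtain ⟨ε, hε⟩ : ∃ ε : ℝ, ε = η * N0 / (2 * (N0 + δ)) := ⟨_, rfl⟩
  have hεp : 0 < ε := by
    rw [hε]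
    positivity
  have hεN : ε * (N0 + δ) = η * N0 / 2 := by
    rw [hε]
    field_simp
  have h1 := fun i => vq_near (μ := μ) (R := R) (y i).2 (C := C) hδp
  choose n0 hn0 using h1
  obtain ⟨L, i1, i2, i3, Γ, s, hs, hcl, hdec⟩ := hH (t.sup n0) ε hεp
  refine ⟨L, i1, i2, i3, Γ, s, hs, fun i hi => ?_, hdec⟩
  have h2 := hn0 i (t.sup n0) (Finset.le_sup hi) L Γ s ε hεp.le hs hcl
  have hyi : ‖(y i : UE μ (L2 G))‖ = N0 := hy i
  rw [hyi, hεN] at h2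
  have h3 : Real.sqrt C * δ ≤ η * N0 / 8 := by
    rw [← hδD]
    exact mul_le_mul_of_nonneg_right hD3 hδp.le
  have h4 : (C + 1) * δ ≤ η * N0 / 4 := by
    have h5 : (C + 1) * δ ≤ (2 * D) * δ := mul_le_mul_of_nonneg_right (by linarith) hδp.le
    linarith
  have h6 : 0 < η * N0 := by positivity
  refine ⟨?_, ?_⟩
  · have h7 : ‖VQ μ Γ (y i) - V1 μ Γ (y i)‖ =
        ‖UE.map μ (mulF Γ.Q) (y i : UE μ (L2 G)) - UE.map μ (mulF fun _ => Γ.q0) (y i : UE μ (L2 G))‖ := rfl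
    rw [h7]
    refine h2.1.trans ?_
    nlinarith
  · refine h2.2.trans ?_
    have h8 : N0 * (η * N0 / 2 + (C + 1) * δ) ≤ N0 * (η * N0) := mul_le_mul_of_nonneg_left (by linarith) hN0.le
    nlinarith

end Aux7

variable {G1 X : Type} [Group G1] [TopologicalSpace G1] [IsTopologicalGroup G1] [MeasurableSpace X]
  {μ : Measure X} [MulAction G1 X] [MeasurableConstSMul G1 X] [SMulInvariantMeasure G1 X μ]
  [IsProbabilityMeasure μ]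
variable {G Λ : Type} [Group G] [Group Λ] [Countable Λ]

theorem no_hsr (a : Cocy G1 X Λ) (E : Emb Λ G) (h3 : Tendsto (fun g : G1 => μ {x | a.a g x ≠ 1}) (𝓝 1) (𝓝 0))
    (hp : ∀ F : Subgroup G1, DiscreteTopology F → Countable F ∧ ∃ p : X → Λ → F,
      (∀ (l : Λ) (s : Set F), MeasurableSet {x | p x l ∈ s}) ∧
        ∀ (f : F) (x : X) (l : Λ), p ((f : G1) • x) (a.a f x * l) = f * p x l)
    (R : Reg G) (hco : HasCoc R) {m : ℕ} (hm : 1 ≤ m) {C : ℝ} (hC : C < 2 * m + 1) (hH : HSR R C) (b : ℕ → G1)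
    (hcomp : HasComp R (zx μ a E) (fun g => zx_bound g) b)
    (φ : SpM m →* G1) (hφ : Continuous φ) (hcomm : ∀ n x, b n * φ x = φ x * b n) {τ : ℝ} (hτ : 0 < τ)
    (u w : G1) (hu : ∀ n, b n * u = u * b n) (hw : ∀ n, b n * w = w * b n)
    (hu1 : Tendsto (fun j : ℕ => (φ (aM m τ) ^ j)⁻¹ * u * φ (aM m τ) ^ j) atTop (𝓝 1))
    (hw1 : Tendsto (fun j : ℕ => φ (aM m τ) ^ j * w * (φ (aM m τ) ^ j)⁻¹) atTop (𝓝 1))
    (hdisc : DiscreteTopology (Subgroup.closure {u, w})) (hna : NonAm (Subgroup.closure {u, w})) : False := by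
  classical
  obtain ⟨R0, δ, hR0, hδ, hmain⟩ := lb_main hm hC hτ
  obtain ⟨hD1, hD2, hD3⟩ := D_facts C
  obtain ⟨D, hD⟩ : ∃ D : ℝ, D = |C| + 1 := ⟨_, rfl⟩
  rw [← hD] at hD1 hD2 hD3
  have hDp : 0 < D := by linarith
  -- the component
  have hne : XPpr R (vec μ a E b) ≠ 0 := by
    obtain ⟨ξ, ⟨n, hn⟩, hin⟩ := hcomp
    exact XPpr_ne_zero R (Submodule.le_topologicalClosure _ (Submodule.subset_span ⟨n, hn⟩)) hin
  obtain ⟨ζ, hζ⟩ : ∃ ζ : XUa μ R, ζ = XPpr R (vec μ a E b) := ⟨_, rfl⟩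
  obtain ⟨N0, hN0⟩ : ∃ N0 : ℝ, N0 = ‖ζ‖ := ⟨_, rfl⟩
  have hN0p : 0 < N0 := by
    rw [hN0, hζ]
    exact norm_pos_iff.2 hne
  -- the homomorphism to the centraliser
  let φ' : SpM m →* cen b :=
    { toFun := fun x => ⟨φ x, mem_cen.2 fun n => hcomm n x⟩
      map_one' := Subtype.ext φ.map_one
      map_mul' := fun x y => Subtype.ext (φ.map_mul x y) }
  have hφ' : ∀ x, ((φ' x : cen b) : G1) = φ x := fun x => rfl
  -- the vectors of the orbit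
  have hzV : ζ ∈ VB (XAU R) := by
    rw [hζ]
    exact (Bdd.map (A := AE μ G) (T := XPpr R) (XPpr_A R) (bdd_A_vec b)).mem_VB
  have hbB : BddX (xmUa μ b R) μ (XBU R) ζ := by
    rw [hζ]
    intro D hDm
    have h1 := (hom_XPpr (μ := μ) (R := R) b).y D hDm (vec μ a E b)
    rw [← h1]
    refine (Bdd.map (A := BE μ G) (T := XPpr R) (XPpr_B R) (bddX_vec (b := b) (a := a) (E := E) hDm)).mono ?_
    have := mul_le_mul_of_nonneg_right (norm_XPpr (μ := μ) R) (Real.sqrt_nonneg (μ D).toReal)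
    linarith
  have hzB : ζ ∈ VB (XBU R) := by
    have h1 := hbB Set.univ MeasurableSet.univ
    rw [(xmUa μ b R).py.univ] at h1
    exact h1.mem_VB
  have hyB : ∀ D : Set X, MeasurableSet D → ‖(xmUa μ b R).py.p D ζ‖ ^ 2 ≤ (μ D).toReal := by
    intro D hDm
    have h1 := (hbB D hDm).norm_le {1} (fun _ => 1)
    simp only [Finset.sum_singleton, one_smul, map_one, norm_one, one_pow, Real.sqrt_one, mul_one] at h1
    have h2 : ‖(xmUa μ b R).py.p D ζ‖ ≤ Real.sqrt (μ D).toReal := h1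
    have h3 := pow_le_pow_left₀ (norm_nonneg _) h2 2
    rwa [Real.sq_sqrt ENNReal.toReal_nonneg] at h3
  have hcen : ∀ v : cen b, opL (xmUa μ b R) (cres a (cen b)) (CRep.ext (XAU R) E) v⁻¹ ζ =
      opR (xmUa μ b R) (cres a (cen b)) (CRep.ext (XBU R) E.conj) v ζ := by
    intro v
    rw [hζ, ← XPpr_opL, ← XPpr_opR, vec_central]
  have hν : ∀ D : Set X, MeasurableSet D → ‖(xmUa μ b R).px.p D ζ‖ ^ 2 ≤ (μ D).toReal := by
    intro D hDm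
    have h1 := (hom_XPpr (μ := μ) (R := R) b).x D hDm (vec μ a E b)
    rw [hζ, ← h1]
    exact (pow_le_pow_left₀ (norm_nonneg _) (norm_XPpr_le _) 2).trans (norm_px_vec hDm)
  obtain ⟨zz, hzz⟩ : ∃ zz : cen b → XUa μ R,
      zz = fun h => opL (xmUa μ b R) (cres a (cen b)) (CRep.ext (XAU R) E) h ζ := ⟨_, rfl⟩
  have hzzn : ∀ h, ‖zz h‖ = N0 := by
    intro h
    rw [hzz, hN0]
    exact esc_norm a E b h hzV
  -- the constants
  obtain ⟨η, hη⟩ : ∃ η : ℝ, η = δ / (4 * D) := ⟨_, rfl⟩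
  have hηp : 0 < η := by
    rw [hη]
    positivity
  have hηD : D * η = δ / 4 := by
    rw [hη]
    field_simp
  have hηN : 0 < η * N0 := by positivity
  -- the neighbourhood of one
  have hφ1 : Tendsto φ (𝓝 1) (𝓝 1) := by
    have e3 := hφ.tendsto 1
    rwa [map_one] at e3
  have hm1 : Tendsto (fun g : SpM m => 2 * Real.sqrt (μ {x | (cres a (cen b)).a (φ' g) x ≠ 1}).toReal) (𝓝 1) (𝓝 0) := by
    have e1 : Tendsto (fun g : SpM m => μ {x | a.a (φ g) x ≠ 1}) (𝓝 1) (𝓝 0) := h3.comp hφ1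
    have e4 : Tendsto (fun g : SpM m => (μ {x | a.a (φ g) x ≠ 1}).toReal) (𝓝 1) (𝓝 0) := by
      have e5 := (ENNReal.tendsto_toReal ENNReal.zero_ne_top).comp e1
      exact e5
    have e6 := (Real.continuous_sqrt.tendsto 0).comp e4
    rw [Real.sqrt_zero] at e6
    have e7 := e6.const_mul 2
    rw [mul_zero] at e7
    exact e7
  have hm0 : Tendsto (fun g : SpM m => 2 * Real.sqrt (μ {x | (cres a (cen b)).a (φ' g)⁻¹ x ≠ 1}).toReal) (𝓝 1) (𝓝 0) := by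
    have e1 : Tendsto (fun g : SpM m => g⁻¹) (𝓝 1) (𝓝 1) := by
      have e2 := (continuous_inv (G := SpM m)).tendsto 1
      rwa [inv_one] at e2
    have e3 := hm1.comp e1
    refine e3.congr fun g => ?_
    simp only [Function.comp_apply, map_inv]
  have hU : {g : SpM m | 2 * Real.sqrt (μ {x | (cres a (cen b)).a (φ' g)⁻¹ x ≠ 1}).toReal ≤ η * N0} ∈ 𝓝 (1 : SpM m) :=
    (hm0.eventually (gt_mem_nhds hηN)).mono fun g hg => le_of_lt hg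
  obtain ⟨t, ht⟩ := compact_covered_by_mul_left_translates (isCompact_ent m R0)
    (V := {g : SpM m | 2 * Real.sqrt (μ {x | (cres a (cen b)).a (φ' g)⁻¹ x ≠ 1}).toReal ≤ η * N0})
    ⟨1, mem_interior_iff_mem_nhds.2 hU⟩
  -- the sections
  obtain ⟨L, i1, i2, i3, Γ, s, hs, hnear, hdec⟩ := near_fin7 (μ := μ) (insert 1 t)
    (fun g : SpM m => zz (φ' g⁻¹)) (fun g => hzzn _) hN0p hηp hH
  have hnear1 : ∀ g ∈ insert (1 : SpM m) t, ‖VQ μ Γ (zz (φ' g⁻¹)) - V1 μ Γ (zz (φ' g⁻¹))‖ ≤ η * N0 ∧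
      ‖(inner ℂ (zz (φ' g⁻¹) : UE μ (L2 G)) (UE.map μ (mulop fun γ => inner ℂ (Γ.P γ) Γ.q0) (zz (φ' g⁻¹) : UE μ (L2 G))) : ℂ) -
          ((N0 ^ 2 : ℝ) : ℂ)‖ ≤ η * N0 ^ 2 := hnear
  have hC0 : 0 ≤ C := (sq_nonneg _).trans Γ.b0
  have hz1 : zz 1 = ζ := by
    rw [hzz]
    show opL (xmUa μ b R) (cres a (cen b)) (CRep.ext (XAU R) E) 1 ζ = ζ
    rw [opL_one (xmUa μ b R) (cres a (cen b)) (uhom_ext E (mrep_XU b).hA) ζ]
    exact ext_one_apply E hzV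
  have hQζ : ‖VQ μ Γ ζ - V1 μ Γ ζ‖ ≤ η * N0 := by
    have h1 := (hnear1 1 (Finset.mem_insert_self _ _)).1
    rwa [inv_one, map_one, hz1] at h1
  have hVPn : ∀ y, ‖VP μ Γ y‖ ≤ Real.sqrt C * ‖y‖ := fun y => norm_VF _ _ y
  have hVQn : ∀ y, ‖VQ μ Γ y‖ ≤ Real.sqrt C * ‖y‖ := fun y => norm_VF _ _ y
  have hA : ∀ g, (xmVp μ b R L).Hom (xmVp μ b R L) ((XAL μ Γ g).toContinuousLinearEquiv : XVp μ R L →L[ℂ] XVp μ R L) :=
    fun g => hom_XAL b Γ g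
  have hPh : (xmUa μ b R).Hom (xmVp μ b R L) (VP μ Γ) := hom_VF b _ _
  have hQh : (xmUa μ b R).Hom (xmVp μ b R L) (VQ μ Γ) := hom_VF b _ _
  have h1h : (xmUa μ b R).Hom (xmVp μ b R L) (V1 μ Γ) := hom_VF b _ _
  have hinv : ∀ (s g : G) (η ξ : XUa μ R), (inner ℂ (VP μ Γ η) (XAL μ Γ s (VQ μ Γ (XBU R g ξ))) : ℂ) =
      inner ℂ (VP μ Γ (XBU R g⁻¹ η)) (XAL μ Γ s (VQ μ Γ ξ)) := fun s g η ξ => inv_V Γ s g η ξ
  have hUL : UHom (xmVp μ b R L) (CRep.ext (XAL μ Γ) E) := uhom_ext E hA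
  obtain ⟨Lo, hLo⟩ : ∃ Lo : cen b → (XVp μ R L →L[ℂ] XVp μ R L),
      Lo = opL (xmVp μ b R L) (cres a (cen b)) (CRep.ext (XAL μ Γ) E) := ⟨_, rfl⟩
  have hLon : ∀ h x, ‖Lo h x‖ ≤ ‖x‖ := by
    intro h x
    rw [hLo]
    exact norm_opL_le _ _ hUL h x
  -- the multiplication operator
  obtain ⟨Mc, hMc⟩ : ∃ Mc : UE μ (L2 G) →L[ℂ] UE μ (L2 G), Mc = UE.map μ (mulop fun γ => inner ℂ (Γ.P γ) Γ.q0) := ⟨_, rfl⟩
  have hcb : ∀ γ, ‖(inner ℂ (Γ.P γ) Γ.q0 : ℂ)‖ ≤ C := by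
    intro γ
    have h1 := norm_inner_le_norm (𝕜 := ℂ) (Γ.P γ) Γ.q0
    have h2 := Γ.bP γ
    have h3 := Γ.b0
    nlinarith [sq_nonneg (‖Γ.P γ‖ - ‖Γ.q0‖)]
  have hMn : ∀ y, ‖Mc y‖ ≤ C * ‖y‖ := by
    intro y
    rw [hMc]
    exact norm_mulop7 hC0 hcb y
  rw [← hMc] at hnear1
  -- the function
  obtain ⟨ψ0, hψ0⟩ : ∃ ψ0 : cen b → ℂ, ψ0 = fun k => ((N0⁻¹ : ℝ) : ℂ) * (((N0⁻¹ : ℝ) : ℂ) * inner ℂ (VP μ Γ (zz k)) (Lo k (VQ μ Γ ζ))) := ⟨_, rfl⟩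
  have hnn : ‖((N0⁻¹ : ℝ) : ℂ)‖ = N0⁻¹ := by
    rw [Complex.norm_real, Real.norm_of_nonneg (inv_nonneg.2 hN0p.le)]
  have hψ1 : ∀ k, ‖ψ0 k - ((N0⁻¹ : ℝ) : ℂ) * (((N0⁻¹ : ℝ) : ℂ) * inner ℂ (zz k : UE μ (L2 G)) (Mc (zz k : UE μ (L2 G))))‖ ≤ δ / 4 := by
    intro k
    have e1 : (inner ℂ (zz k : UE μ (L2 G)) (Mc (zz k : UE μ (L2 G))) : ℂ) = inner ℂ (VP μ Γ (zz k)) (V1 μ Γ (zz k)) := by
      rw [inner_VP_V1, hMc]
    have e2 : ψ0 k - ((N0⁻¹ : ℝ) : ℂ) * (((N0⁻¹ : ℝ) : ℂ) * inner ℂ (zz k : UE μ (L2 G)) (Mc (zz k : UE μ (L2 G)))) =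
        ((N0⁻¹ : ℝ) : ℂ) * (((N0⁻¹ : ℝ) : ℂ) * inner ℂ (VP μ Γ (zz k)) (Lo k (VQ μ Γ ζ) - V1 μ Γ (zz k))) := by
      rw [e1, hψ0, inner_sub_right]
      ring
    have e3 : ‖Lo k (VQ μ Γ ζ) - V1 μ Γ (zz k)‖ ≤ η * N0 := by
      have h1 := near_L (cres a (cen b)) E (mrep_XU (μ := μ) (R := R) b) hA (VQ := VQ μ Γ) h1h (fun g x => V1_A Γ g x) k ζ
      rw [hLo, hzz]
      exact h1.trans hQζ
    have e4 : ‖(inner ℂ (VP μ Γ (zz k)) (Lo k (VQ μ Γ ζ) - V1 μ Γ (zz k)) : ℂ)‖ ≤ (Real.sqrt C * N0) * (η * N0) := by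
      refine (norm_inner_le_norm _ _).trans (mul_le_mul ?_ e3 (norm_nonneg _) (by positivity))
      have := hVPn (zz k)
      rwa [hzzn] at this
    rw [e2, norm_mul, norm_mul, hnn]
    have e5 : N0⁻¹ * (N0⁻¹ * ((Real.sqrt C * N0) * (η * N0))) = Real.sqrt C * η := by
      field_simp
    have e6 : N0⁻¹ * (N0⁻¹ * ‖(inner ℂ (VP μ Γ (zz k)) (Lo k (VQ μ Γ ζ) - V1 μ Γ (zz k)) : ℂ)‖) ≤
        N0⁻¹ * (N0⁻¹ * ((Real.sqrt C * N0) * (η * N0))) := by gcongr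
    have e7 : Real.sqrt C * η ≤ D * η := mul_le_mul_of_nonneg_right hD3 hηp.le
    linarith
  -- the two functions
  have hzcont : ∀ (F : XUa μ R →L[ℂ] XVp μ R L), (xmUa μ b R).Hom (xmVp μ b R L) F →
      Continuous fun g : SpM m => ((N0⁻¹ : ℝ) : ℂ) • Lo (φ' g) (F (zz (φ' g)⁻¹)) := by
    intro F hF
    suffices hcc : Continuous (fun g : SpM m => Lo (φ' g) (F (zz (φ' g)⁻¹))) from hcc.const_smul ((N0⁻¹ : ℝ) : ℂ)
    rw [continuous_iff_continuousAt]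
    intro g
    rw [ContinuousAt, tendsto_iff_norm_sub_tendsto_zero]
    have e1 : Tendsto (fun h : SpM m => g⁻¹ * h) (𝓝 g) (𝓝 1) := by
      have e0 : Continuous fun h : SpM m => g⁻¹ * h := continuous_const.mul continuous_id
      have e2 : Tendsto (fun h : SpM m => g⁻¹ * h) (𝓝 g) (𝓝 (g⁻¹ * g)) := e0.tendsto g
      rwa [inv_mul_cancel] at e2
    have e3 := (hm1.comp e1).const_mul ‖F‖
    rw [mul_zero] at e3
    refine squeeze_zero (fun _ => norm_nonneg _) (fun h => ?_) e3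
    have e4 := orb_cont (cres a (cen b)) E (mrep_XU (μ := μ) (R := R) b) hA (VQ := F) hF (ν := μ) hzV hν (φ' g) (φ' (g⁻¹ * h))
    rw [← map_mul, mul_inv_cancel_left] at e4
    rw [hLo, hzz]
    refine e4.trans (le_of_eq ?_)
    simp only [Function.comp_apply]
    ring
  refine hmain (XVp μ R L) (fun g => ((N0⁻¹ : ℝ) : ℂ) • Lo (φ' g) (VP μ Γ (zz (φ' g)⁻¹)))
    (fun g => ((N0⁻¹ : ℝ) : ℂ) • Lo (φ' g) (VQ μ Γ (zz (φ' g)⁻¹))) (fun k => ψ0 (φ' k)) (hzcont _ hPh) (hzcont _ hQh) ?_ ?_ ?_ ?_ ?_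
  · intro g
    have e1 : ‖((N0⁻¹ : ℝ) : ℂ) • Lo (φ' g) (VP μ Γ (zz (φ' g)⁻¹))‖ ≤ Real.sqrt C := by
      rw [norm_smul, hnn, inv_mul_le_iff₀ hN0p]
      refine (hLon _ _).trans ?_
      have := hVPn (zz (φ' g)⁻¹)
      rwa [hzzn, mul_comm] at this
    have e2 := pow_le_pow_left₀ (norm_nonneg _) e1 2
    rwa [Real.sq_sqrt hC0] at e2
  · intro g
    have e1 : ‖((N0⁻¹ : ℝ) : ℂ) • Lo (φ' g) (VQ μ Γ (zz (φ' g)⁻¹))‖ ≤ Real.sqrt C := by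
      rw [norm_smul, hnn, inv_mul_le_iff₀ hN0p]
      refine (hLon _ _).trans ?_
      have := hVQn (zz (φ' g)⁻¹)
      rwa [hzzn, mul_comm] at this
    have e2 := pow_le_pow_left₀ (norm_nonneg _) e1 2
    rwa [Real.sq_sqrt hC0] at e2
  · intro g h
    have e1 := key_inv (cres a (cen b)) E (mrep_XU (μ := μ) (R := R) b) hA hPh hQh hinv hcen (φ' g) (φ' h)
    rw [inner_smul_left, inner_smul_right, Complex.conj_ofReal, hLo, hzz, e1, hψ0, hLo, hzz, map_mul, map_inv]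
  · intro k hk
    obtain ⟨g, hg, hg2⟩ := Set.mem_iUnion₂.1 (ht hk)
    have hg3 : 2 * Real.sqrt (μ {x | (cres a (cen b)).a (φ' (g * k))⁻¹ x ≠ 1}).toReal ≤ η * N0 := hg2
    have e1 : φ' k = φ' g⁻¹ * φ' (g * k) := by
      rw [← map_mul, inv_mul_cancel_left]
    have e2 : zz (φ' k) - zz (φ' g⁻¹) = opL (xmUa μ b R) (cres a (cen b)) (CRep.ext (XAU R) E) (φ' g⁻¹)
        (opL (xmUa μ b R) (cres a (cen b)) (CRep.ext (XAU R) E) (φ' (g * k)) ζ - ζ) := by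
      rw [e1, hzz, map_sub]
      congr 1
      exact opL_mul (xmUa μ b R) (cres a (cen b)) (uhom_ext E (mrep_XU b).hA) _ _ _
    have e3 : ‖zz (φ' k) - zz (φ' g⁻¹)‖ ≤ η * N0 := by
      rw [e2]
      refine (norm_opL_le (xmUa μ b R) (cres a (cen b)) (uhom_ext E (mrep_XU b).hA) _ _).trans ?_
      exact (orb_zero (cres a (cen b)) E (mrep_XU (μ := μ) (R := R) b) hcen (ν := μ) hzB hyB (φ' (g * k))).trans hg3
    obtain ⟨y, hy⟩ : ∃ y : UE μ (L2 G), y = (zz (φ' k) : UE μ (L2 G)) := ⟨_, rfl⟩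
    obtain ⟨y0, hy0⟩ : ∃ y0 : UE μ (L2 G), y0 = (zz (φ' g⁻¹) : UE μ (L2 G)) := ⟨_, rfl⟩
    have hyn : ‖y‖ = N0 := by
      rw [hy]
      exact hzzn _
    have hy0n : ‖y0‖ = N0 := by
      rw [hy0]
      exact hzzn _
    have hyy : ‖y - y0‖ ≤ η * N0 := by
      rw [hy, hy0]
      exact e3
    have e4 := (hnear1 g (Finset.mem_insert_of_mem hg)).2
    rw [← hy0] at e4
    have e5 := hψ1 (φ' k)
    rw [← hy] at e5
    have e6 : (inner ℂ y (Mc y) : ℂ) - ((N0 ^ 2 : ℝ) : ℂ) = inner ℂ (y - y0) (Mc y) + inner ℂ y0 (Mc (y - y0)) +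
        ((inner ℂ y0 (Mc y0) : ℂ) - ((N0 ^ 2 : ℝ) : ℂ)) := by
      rw [inner_sub_left, map_sub, inner_sub_right]
      ring
    have e7 : ‖(inner ℂ (y - y0) (Mc y) : ℂ)‖ ≤ (η * N0) * (D * N0) := by
      refine (norm_inner_le_norm _ _).trans (mul_le_mul hyy ?_ (norm_nonneg _) hηN.le)
      refine (hMn y).trans ?_
      rw [hyn]
      exact mul_le_mul_of_nonneg_right hD2 hN0p.le
    have e8 : ‖(inner ℂ y0 (Mc (y - y0)) : ℂ)‖ ≤ N0 * (D * (η * N0)) := by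
      refine (norm_inner_le_norm _ _).trans ?_
      rw [hy0n]
      refine mul_le_mul_of_nonneg_left ((hMn _).trans ?_) hN0p.le
      exact mul_le_mul hD2 hyy (norm_nonneg _) hDp.le
    have e9 : ‖(inner ℂ y (Mc y) : ℂ) - ((N0 ^ 2 : ℝ) : ℂ)‖ ≤ (2 * D * η + η) * N0 ^ 2 := by
      rw [e6]
      refine (norm_add₃_le).trans ?_
      nlinarith
    have e10 : ψ0 (φ' k) - 1 = (ψ0 (φ' k) - ((N0⁻¹ : ℝ) : ℂ) * (((N0⁻¹ : ℝ) : ℂ) * inner ℂ y (Mc y))) +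
        ((N0⁻¹ : ℝ) : ℂ) * (((N0⁻¹ : ℝ) : ℂ) * (inner ℂ y (Mc y) - ((N0 ^ 2 : ℝ) : ℂ))) := by
      have e11 : ((N0⁻¹ : ℝ) : ℂ) * (((N0⁻¹ : ℝ) : ℂ) * ((N0 ^ 2 : ℝ) : ℂ)) = 1 := by
        rw [← Complex.ofReal_mul, ← Complex.ofReal_mul]
        have : N0⁻¹ * (N0⁻¹ * N0 ^ 2) = 1 := by
          field_simp
        rw [this, Complex.ofReal_one]
      rw [mul_sub, mul_sub, e11]
      ring
    rw [e10]
    refine (norm_add_le _ _).trans ?_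
    have e12 : ‖((N0⁻¹ : ℝ) : ℂ) * (((N0⁻¹ : ℝ) : ℂ) * ((inner ℂ y (Mc y) : ℂ) - ((N0 ^ 2 : ℝ) : ℂ)))‖ ≤ 2 * D * η + η := by
      rw [norm_mul, norm_mul, hnn]
      have e13 : N0⁻¹ * (N0⁻¹ * ‖(inner ℂ y (Mc y) : ℂ) - ((N0 ^ 2 : ℝ) : ℂ)‖) ≤ N0⁻¹ * (N0⁻¹ * ((2 * D * η + η) * N0 ^ 2)) := by gcongr
      have e14 : N0⁻¹ * (N0⁻¹ * ((2 * D * η + η) * N0 ^ 2)) = 2 * D * η + η := by
        field_simp
      linarith
    have e15 : η ≤ D * η := by nlinarith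
    linarith
  · intro k hk k' hk' s0 hs0
    obtain ⟨n, hn⟩ := hdec (δ / 4) (by positivity)
    have hu' : ∀ n, b n * u = u * b n := hu
    have hces := cesaro_zero a E h3 hp hco b (φ' (aM m τ)) ⟨u, mem_cen.2 hu⟩ ⟨w, mem_cen.2 hw⟩ (by
      rw [Topology.IsInducing.subtypeVal.tendsto_nhds_iff]
      exact hu1) (by
      rw [Topology.IsInducing.subtypeVal.tendsto_nhds_iff]
      exact hw1) hdisc hna n (φ' (aM m s0 * k')) (φ' k)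
    rw [← hζ] at hces
    have hc1 : 0 < δ * N0 ^ 2 / (2 * (C + 1)) := by positivity
    have hev := hces.eventually (gt_mem_nhds hc1)
    filter_upwards [hev, eventually_gt_atTop 0] with J hJ hJ0
    have hJ1 : (0 : ℝ) < J := by exact_mod_cast hJ0
    have e1 : ∀ j : ℕ, k * aM m (τ * j + s0) * k' = k * aM m τ ^ j * (aM m s0 * k') := by
      intro j
      have e2 : aM m (τ * j) = aM m τ ^ j := by
        induction j with
        | zero =>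
          rw [Nat.cast_zero, mul_zero, pow_zero]
          have e3 := aM_add m 0 0
          rw [add_zero] at e3
          exact (mul_eq_left.1 e3.symm)
        | succ j ih =>
          rw [Nat.cast_succ, mul_add, mul_one, aM_add, ih, pow_succ]
      rw [aM_add, e2]
      group
    have e4 : ∀ j : ℕ, ‖ψ0 (φ' (k * aM m (τ * j + s0) * k'))‖ ≤ δ / 2 + N0⁻¹ * (N0⁻¹ * (C * ‖UE.map μ (ind ℂ (R.W n))
        ((opL (xmUa μ b R) (cres a (cen b)) (CRep.ext (XAU R) E) (φ' k * φ' (aM m τ) ^ j * φ' (aM m s0 * k')) ζ : XUa μ R) :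
          UE μ (L2 G))‖ ^ 2)) := by
      intro j
      obtain ⟨kk, hkk⟩ : ∃ kk : cen b, kk = φ' k * φ' (aM m τ) ^ j * φ' (aM m s0 * k') := ⟨_, rfl⟩
      have e5 : φ' (k * aM m (τ * j + s0) * k') = kk := by
        rw [e1, map_mul, map_mul, map_pow, hkk]
      rw [e5, ← hkk]
      have e6 := hψ1 kk
      have e7 := vq_decay (μ := μ) (zz kk).2 (W := R.W n) hs
        (f := fun γ => (inner ℂ (Γ.P γ) Γ.q0 : ℂ)) hC0 hcb (δ := δ / 4) (by positivity) hn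
      rw [← hMc] at e7
      have e8 : ‖(zz kk : UE μ (L2 G))‖ = N0 := hzzn _
      rw [e8] at e7
      have e9 : (zz kk : XUa μ R) = opL (xmUa μ b R) (cres a (cen b)) (CRep.ext (XAU R) E) kk ζ := by
        rw [hzz]
      rw [← e9]
      have e10 : ‖((N0⁻¹ : ℝ) : ℂ) * (((N0⁻¹ : ℝ) : ℂ) * (inner ℂ (zz kk : UE μ (L2 G)) (Mc (zz kk : UE μ (L2 G))) : ℂ))‖ ≤
          δ / 4 + N0⁻¹ * (N0⁻¹ * (C * ‖UE.map μ (ind ℂ (R.W n)) (zz kk : UE μ (L2 G))‖ ^ 2)) := by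
        rw [norm_mul, norm_mul, hnn]
        have e11 : N0⁻¹ * (N0⁻¹ * ‖(inner ℂ (zz kk : UE μ (L2 G)) (Mc (zz kk : UE μ (L2 G))) : ℂ)‖) ≤
            N0⁻¹ * (N0⁻¹ * (C * ‖UE.map μ (ind ℂ (R.W n)) (zz kk : UE μ (L2 G))‖ ^ 2 + δ / 4 * N0 ^ 2)) := by gcongr
        have e12 : N0⁻¹ * (N0⁻¹ * (C * ‖UE.map μ (ind ℂ (R.W n)) (zz kk : UE μ (L2 G))‖ ^ 2 + δ / 4 * N0 ^ 2)) =
            δ / 4 + N0⁻¹ * (N0⁻¹ * (C * ‖UE.map μ (ind ℂ (R.W n)) (zz kk : UE μ (L2 G))‖ ^ 2)) := by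
          field_simp
          ring
        linarith
      have e13 := norm_le_norm_add_norm_sub' (ψ0 kk)
        (((N0⁻¹ : ℝ) : ℂ) * (((N0⁻¹ : ℝ) : ℂ) * (inner ℂ (zz kk : UE μ (L2 G)) (Mc (zz kk : UE μ (L2 G))) : ℂ)))
      linarith
    refine (Finset.sum_le_sum fun j _ => e4 j).trans ?_
    rw [Finset.sum_add_distrib, ← Finset.mul_sum, ← Finset.mul_sum, ← Finset.mul_sum]
    simp only [Finset.sum_const, Finset.card_range, nsmul_eq_mul]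
    rw [inv_mul_lt_iff₀ hJ1] at hJ
    have e14 : N0⁻¹ * (N0⁻¹ * (C * (J * (δ * N0 ^ 2 / (2 * (C + 1)))))) ≤ J * (δ / 2) := by
      have e15 : N0⁻¹ * (N0⁻¹ * (C * (J * (δ * N0 ^ 2 / (2 * (C + 1)))))) = C / (C + 1) * (J * (δ / 2)) := by
        have : C + 1 ≠ 0 := by positivity
        field_simp
      rw [e15]
      have e16 : C / (C + 1) ≤ 1 := by
        rw [div_le_one (by positivity)]
        linarith
      have e17 : 0 ≤ J * (δ / 2) := by positivity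
      nlinarith
    have e18 : N0⁻¹ * (N0⁻¹ * (C * ∑ j ∈ Finset.range J, ‖UE.map μ (ind ℂ (R.W n))
        ((opL (xmUa μ b R) (cres a (cen b)) (CRep.ext (XAU R) E) (φ' k * φ' (aM m τ) ^ j * φ' (aM m s0 * k')) ζ : XUa μ R) :
          UE μ (L2 G))‖ ^ 2)) ≤ N0⁻¹ * (N0⁻¹ * (C * (J * (δ * N0 ^ 2 / (2 * (C + 1)))))) := by gcongr
    linarith

end Pool.Agent.Helper84.CH
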