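import Pool.Agent.Helper84.SPQ.C3a

/-!
# Project CH, part U: kernels on the quaternionic hyperbolic space (Siegel domain), definitions

Points `x = (w, t)`, `w : Fin m → Hq`, `t : Hq`, height `hh x = (Re t - |w|²)/2 > 0`. `WW x y = (conj t + t')/2 - ∑ conj(w_i) w'_i`. `phi s x y = (4 h h')^s ‖WW x y‖^(-2s)`. For `u` in the unit sphere `cD u W` is the complex part of `conj(u) W u`;
`Eu r r' u x y = exp(-r D - r' conj D)`, `D = cD u (WW x y)`. `gs s`: the measure `r^(s-1)/Γ(s) dr` on `(0, ∞)`. The kernels: `KP - KN = phi`,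
`KP = (4hh')^s ∫∫ ((1 - 2s) + ½ (R h + 1)(R h' + 1) + m R/r̂) E`, `KN = (4hh')^s ∫∫ (½ (R h - 1)(R h' - 1) + ½ (R/r̂) (2m - r̂ ∑ ‖w_i - w'_i‖²)) E`, `R = r + r'`, `r̂ = max r r'`.
-/

set_option autoImplicit false

open MeasureTheory

namespace Pool.Agent.Helper84.CH

open Pool.Agent.Helper84.SPQ

/-- points of the Siegel domain -/
abbrev SP (m : ℕ) : Type := (Fin m → Hq) × Hq

variable {m : ℕ}

/-- the height -/
noncomputable def hh (x : SP m) : ℝ := (x.2.re - ∑ i, ‖x.1 i‖ ^ 2) / 2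

/-- the Hermitian product -/
noncomputable def WW (x y : SP m) : Hq := (1 / 2 : ℝ) • (star x.2 + y.2) - ∑ i, star (x.1 i) * y.1 i

/-- the Siegel domain -/
abbrev Dom (m : ℕ) : Type := {x : SP m // 0 < hh x}

/-- the spherical kernel -/
noncomputable def phi (s : ℝ) (x y : SP m) : ℝ := (4 * hh x * hh y) ^ s * ‖WW x y‖ ^ (-(2 * s))

/-- the complex part of `conj(u) W u` -/
noncomputable def cD (u W : Hq) : ℂ := ⟨(star u * W * u).re, (star u * W * u).imI⟩

/-- the exponential kernels -/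
noncomputable def Eu (r r' : ℝ) (u : Hq) (x y : SP m) : ℂ :=
  Complex.exp (-((r : ℂ) * cD u (WW x y) + (r' : ℂ) * (starRingEnd ℂ) (cD u (WW x y))))

/-- the measure `r^(s-1)/Γ(s) dr` -/
noncomputable def gs (s : ℝ) : Measure ℝ :=
  (volume.restrict (Set.Ioi 0)).withDensity fun r => ENNReal.ofReal (r ^ (s - 1) / Real.Gamma s)

/-- the squared distance of the horizontal parts -/
noncomputable def dS (x y : SP m) : ℝ := ∑ i, ‖x.1 i - y.1 i‖ ^ 2

/-- the first coefficient -/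
noncomputable def cP (s r r' : ℝ) (x y : SP m) : ℝ :=
  (1 - 2 * s) + 1 / 2 * ((r + r') * hh x + 1) * ((r + r') * hh y + 1) + (r + r') / max r r' * m

/-- the second coefficient -/
noncomputable def cN (r r' : ℝ) (x y : SP m) : ℝ :=
  1 / 2 * ((r + r') * hh x - 1) * ((r + r') * hh y - 1) + 1 / 2 * ((r + r') / max r r') * (2 * m - max r r' * dS x y)

/-- the first kernel -/
noncomputable def KP (ν : Measure U1) (s : ℝ) (x y : SP m) : ℂ := (((4 * hh x * hh y) ^ s : ℝ) : ℂ) *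
  ∫ z : U1 × (ℝ × ℝ), ((cP s z.2.1 z.2.2 x y : ℝ) : ℂ) * Eu z.2.1 z.2.2 (z.1 : Hq) x y ∂(ν.prod ((gs s).prod (gs s)))

/-- the second kernel -/
noncomputable def KN (ν : Measure U1) (s : ℝ) (x y : SP m) : ℂ := (((4 * hh x * hh y) ^ s : ℝ) : ℂ) *
  ∫ z : U1 × (ℝ × ℝ), ((cN z.2.1 z.2.2 x y : ℝ) : ℂ) * Eu z.2.1 z.2.2 (z.1 : Hq) x y ∂(ν.prod ((gs s).prod (gs s)))

/-- the error term -/
noncomputable def dl (s : ℝ) : ℝ := 2 * Real.Gamma (2 * s) / ((s + 1) * Real.Gamma s ^ 2)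

end Pool.Agent.Helper84.CH
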