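import Pool.Agent.Helper84.CH.U0

/-!
# Project CH, block UA: Archimedes, and the mean value identity

`arch`. PROOF. (`(star u * Z * u).imI` is the product `⟨θ, Z⟩` with `θ = u i conj(u)`, a uniform point of the sphere `S²`; so it is uniform on `[-‖Z‖, ‖Z‖]`.) Let `f(Z) = ∫ g((star u * Z * u).imI) dν(u)` for imaginary `Z`; left invariance of `ν` (`u ↦ v u`): `f(v Z conj v) = f(Z)`, so `f(Z)` depends on `‖Z‖` only (unit quaternions act transitively on spheres of imaginary quaternions).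
POLYNOMIALS: for `g(t) = t^k`: `k` odd: `0` (choose `v` with `v Z conj v = -Z`); `k = 2j`: `f(Z) = c_j ‖Z‖^(2j)` is a polynomial in the three coordinates; apply the Laplacian: `Δ ⟨θ, Z⟩^(2j) = 2j(2j-1) ⟨θ, Z⟩^(2j-2)` (`‖θ‖ = 1`), `Δ ‖Z‖^(2j) = 2j(2j+1) ‖Z‖^(2j-2)`, so `(2j+1) c_j = (2j-1) c_(j-1)`, `c_j = 1/(2j+1)` = `½ ∫_(-1)^1 τ^(2j)`. Then Weierstrass.
OR: for `g` continuous: `∫_(ℝ³) f(Z) w(‖Z‖) dZ = ∫_(ℝ³) g(Z_1) w(‖Z‖) dZ` for every continuous `w` with compact support (rotation invariance of the Lebesgue measure, Fubini), and the right side is `∫_(ℝ³) w(‖Z‖) (½ ∫_(-1)^1 g(‖Z‖ τ) dτ) dZ` (cylinder coordinates as in `plane`, `LA1.lean`), so the two continuous radial functions agree.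
OR: explicit coordinates on `U1`, or the derivative in `‖Z‖` (`u1_ibp` in `SPQ/C1.lean` gives the law of `Re u`). You may use any proof.
`mean_id`. PROOF. `W = A + Z`, `A = W.re > 0`, `‖cD u W‖² = A² + ((star u * Z * u).imI)²`. By `arch` the left side is `½ ∫_(-1)^1 ((1 - 2s) f(τ) + 2 s A² (A² + τ²‖Z‖²)^(-s-1)) dτ` with `f(τ) = (A² + τ²‖Z‖²)^(-s)`, and the integrand is `f(τ) + τ f'(τ) = (τ f(τ))'`; so it is `½ (f(1) + f(-1)) = (A² + ‖Z‖²)^(-s) = ‖W‖^(-2s)`.
-/

set_option autoImplicit false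

open MeasureTheory

namespace Pool.Agent.Helper84.CH

open Pool.Agent.Helper84.SPQ

private theorem normSq38 (u : U1) :
    (u : Hq).re ^ 2 + (u : Hq).imI ^ 2 + (u : Hq).imJ ^ 2 + (u : Hq).imK ^ 2 = 1 := by
  have h1 : Quaternion.normSq (u : Hq) = 1 := by
    rw [Quaternion.normSq_eq_norm_mul_self, norm_eq_of_mem_sphere, mul_one]
  rwa [Quaternion.normSq_def'] at h1

/-- the first coordinate of `u i conj(u)` -/
private noncomputable def cA38 (u : U1) : ℝ :=
  (u : Hq).re ^ 2 + (u : Hq).imI ^ 2 - (u : Hq).imJ ^ 2 - (u : Hq).imK ^ 2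

/-- the second coordinate -/
private noncomputable def cB38 (u : U1) : ℝ :=
  2 * ((u : Hq).re * (u : Hq).imK + (u : Hq).imI * (u : Hq).imJ)

/-- the third coordinate -/
private noncomputable def cC38 (u : U1) : ℝ :=
  2 * ((u : Hq).imI * (u : Hq).imK - (u : Hq).re * (u : Hq).imJ)

private theorem coord38 (u : U1) {Z : Hq} (hZ : Z.re = 0) :
    (star (u : Hq) * Z * (u : Hq)).imI = Z.imI * cA38 u + Z.imJ * cB38 u + Z.imK * cC38 u := by
  simp only [Quaternion.imI_mul, Quaternion.re_mul, Quaternion.imJ_mul, Quaternion.imK_mul,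
    Quaternion.re_star, Quaternion.imI_star, Quaternion.imJ_star, Quaternion.imK_star, hZ,
    cA38, cB38, cC38]
  ring

private theorem sum38 (u : U1) : cA38 u ^ 2 + cB38 u ^ 2 + cC38 u ^ 2 = 1 := by
  have h := normSq38 u
  have e : cA38 u ^ 2 + cB38 u ^ 2 + cC38 u ^ 2 =
      ((u : Hq).re ^ 2 + (u : Hq).imI ^ 2 + (u : Hq).imJ ^ 2 + (u : Hq).imK ^ 2) ^ 2 := by
    simp only [cA38, cB38, cC38]
    ring
  rw [e, h, one_pow]

private theorem absA38 (u : U1) : |cA38 u| ≤ 1 := by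
  rw [← sq_le_one_iff_abs_le_one]
  nlinarith [sum38 u, sq_nonneg (cB38 u), sq_nonneg (cC38 u)]

private theorem absB38 (u : U1) : |cB38 u| ≤ 1 := by
  rw [← sq_le_one_iff_abs_le_one]
  nlinarith [sum38 u, sq_nonneg (cA38 u), sq_nonneg (cC38 u)]

private theorem absC38 (u : U1) : |cC38 u| ≤ 1 := by
  rw [← sq_le_one_iff_abs_le_one]
  nlinarith [sum38 u, sq_nonneg (cA38 u), sq_nonneg (cB38 u)]

private theorem cre38 : Continuous fun u : U1 => (u : Hq).re :=
  Quaternion.continuous_re.comp continuous_subtype_val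

private theorem cI38 : Continuous fun u : U1 => (u : Hq).imI :=
  Quaternion.continuous_imI.comp continuous_subtype_val

private theorem cJ38 : Continuous fun u : U1 => (u : Hq).imJ :=
  Quaternion.continuous_imJ.comp continuous_subtype_val

private theorem cK38 : Continuous fun u : U1 => (u : Hq).imK :=
  Quaternion.continuous_imK.comp continuous_subtype_val

private theorem contA38 : Continuous cA38 := by
  unfold cA38
  exact (((cre38.pow 2).add (cI38.pow 2)).sub (cJ38.pow 2)).sub (cK38.pow 2)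

private theorem contB38 : Continuous cB38 := by
  unfold cB38
  exact continuous_const.mul ((cre38.mul cK38).add (cI38.mul cJ38))

private theorem contC38 : Continuous cC38 := by
  unfold cC38
  exact continuous_const.mul ((cI38.mul cK38).sub (cre38.mul cJ38))

private theorem int38 (ν : Measure U1) [IsProbabilityMeasure ν] {f : U1 → ℝ} (hf : Continuous f) {M : ℝ}
    (hM : ∀ u, |f u| ≤ M) : Integrable f ν :=
  Integrable.of_bound hf.aestronglyMeasurable M (Filter.Eventually.of_forall fun u => by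
    rw [Real.norm_eq_abs]
    exact hM u)

/-- One direction. -/
private theorem dir38 (ν : Measure U1) [IsProbabilityMeasure ν] [ν.IsMulLeftInvariant] (n : ℕ)
    (w : ℝ → U1) (X Y : U1 → ℝ) (hX : Continuous X) (hY : Continuous Y) (hXb : ∀ u, |X u| ≤ 1)
    (hYb : ∀ u, |Y u| ≤ 1)
    (h0 : ∀ φ u, X (w φ * u) = Real.cos φ * X u + Real.sin φ * Y u)
    (h1 : ∀ φ u, Y (w φ * u) = Real.cos φ * Y u - Real.sin φ * X u) :
    (n : ℝ) * ∫ u : U1, X u ^ (n - 1) * Y u ^ 2 ∂ν = ∫ u : U1, X u ^ (n + 1) ∂ν := by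
  classical
  set F : ℝ → U1 → ℝ := fun φ u =>
    (Real.cos φ * X u + Real.sin φ * Y u) ^ n *
      (Real.cos φ * Y u - Real.sin φ * X u) with hF
  set F' : ℝ → U1 → ℝ := fun φ u =>
    (n : ℝ) * (Real.cos φ * X u + Real.sin φ * Y u) ^ (n - 1) *
        (-Real.sin φ * X u + Real.cos φ * Y u) *
        (Real.cos φ * Y u - Real.sin φ * X u) +
      (Real.cos φ * X u + Real.sin φ * Y u) ^ n *
        (-Real.sin φ * Y u - Real.cos φ * X u) with hF'
  have hFe : ∀ φ u, F φ u = X (w φ * u) ^ n * Y (w φ * u) := fun φ u => by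
    rw [hF, h0, h1]
  have hFc : ∀ φ, Continuous (F φ) := fun φ =>
    (((continuous_const.mul hX).add (continuous_const.mul hY)).pow n).mul
      ((continuous_const.mul hY).sub (continuous_const.mul hX))
  have hFc' : ∀ φ, Continuous (F' φ) := fun φ =>
    (((continuous_const.mul (((continuous_const.mul hX).add (continuous_const.mul hY)).pow (n - 1))).mul
      ((continuous_const.mul hX).add (continuous_const.mul hY))).mul
      ((continuous_const.mul hY).sub (continuous_const.mul hX))).add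
      ((((continuous_const.mul hX).add (continuous_const.mul hY)).pow n).mul
      ((continuous_const.mul hY).sub (continuous_const.mul hX)))
  have hconst : ∀ φ, ∫ u, F φ u ∂ν = ∫ u : U1, X u ^ n * Y u ∂ν := fun φ => by
    rw [← integral_mul_left_eq_self (μ := ν) (fun u : U1 => X u ^ n * Y u) (w φ)]
    exact integral_congr_ae (Filter.Eventually.of_forall fun u => hFe φ u)
  have b1 : ∀ φ u, |Real.cos φ * X u + Real.sin φ * Y u| ≤ 1 := fun φ u => by
    rw [← h0]
    exact hXb _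
  have b2 : ∀ φ u, |Real.cos φ * Y u - Real.sin φ * X u| ≤ 1 := fun φ u => by
    rw [← h1]
    exact hYb _
  have hder := (hasDerivAt_integral_of_dominated_loc_of_deriv_le (μ := ν) (F := F) (F' := F')
    (x₀ := (0 : ℝ)) (s := Set.univ) (bound := fun _ => (n : ℝ) + 1) Filter.univ_mem
    (Filter.Eventually.of_forall fun φ => (hFc φ).aestronglyMeasurable)
    (int38 ν (hFc 0) (M := 1) fun u => by
      rw [hF]
      simp only
      rw [abs_mul, abs_pow]
      exact mul_le_one₀ (pow_le_one₀ (abs_nonneg _) (b1 0 u)) (abs_nonneg _) (b2 0 u))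
    ((hFc' 0).aestronglyMeasurable)
    (Filter.Eventually.of_forall fun u φ _ => by
      rw [Real.norm_eq_abs, hF']
      simp only
      refine (abs_add_le _ _).trans (add_le_add ?_ ?_)
      · have e1 : -Real.sin φ * X u + Real.cos φ * Y u = Real.cos φ * Y u - Real.sin φ * X u := by ring
        rw [e1, abs_mul, abs_mul, abs_mul, abs_pow, Nat.abs_cast]
        have h2 := pow_le_one₀ (n := n - 1) (abs_nonneg _) (b1 φ u)
        have h3 : (n : ℝ) * |Real.cos φ * X u + Real.sin φ * Y u| ^ (n - 1) ≤ n :=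
          mul_le_of_le_one_right (Nat.cast_nonneg n) h2
        have h4 : 0 ≤ (n : ℝ) * |Real.cos φ * X u + Real.sin φ * Y u| ^ (n - 1) := by positivity
        have h5 : (n : ℝ) * |Real.cos φ * X u + Real.sin φ * Y u| ^ (n - 1) *
            |Real.cos φ * Y u - Real.sin φ * X u| ≤ n :=
          (mul_le_of_le_one_right h4 (b2 φ u)).trans h3
        exact (mul_le_of_le_one_right (by positivity) (b2 φ u)).trans h5
      · have e1 : -Real.sin φ * Y u - Real.cos φ * X u = -(Real.cos φ * X u + Real.sin φ * Y u) := by ring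
        rw [e1, abs_mul, abs_pow, abs_neg]
        exact mul_le_one₀ (pow_le_one₀ (abs_nonneg _) (b1 φ u)) (abs_nonneg _) (b1 φ u))
    (integrable_const _)
    (Filter.Eventually.of_forall fun u φ _ => by
      have d1 : HasDerivAt (fun φ => Real.cos φ * X u + Real.sin φ * Y u)
          (-Real.sin φ * X u + Real.cos φ * Y u) φ :=
        ((Real.hasDerivAt_cos φ).mul_const _).add ((Real.hasDerivAt_sin φ).mul_const _)
      have d2 : HasDerivAt (fun φ => Real.cos φ * Y u - Real.sin φ * X u)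
          (-Real.sin φ * Y u - Real.cos φ * X u) φ :=
        ((Real.hasDerivAt_cos φ).mul_const _).sub ((Real.hasDerivAt_sin φ).mul_const _)
      exact (d1.pow n).mul d2)).2
  have hz : ∫ u, F' 0 u ∂ν = 0 := by
    have h2 : HasDerivAt (fun φ => ∫ u, F φ u ∂ν) 0 0 := by
      have e : (fun φ => ∫ u, F φ u ∂ν) = fun _ => ∫ u : U1, X u ^ n * Y u ∂ν := funext hconst
      rw [e]
      exact hasDerivAt_const _ _
    exact hder.unique h2
  have e3 : ∀ u, F' 0 u = (n : ℝ) * (X u ^ (n - 1) * Y u ^ 2) - X u ^ (n + 1) := fun u => by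
    simp only [hF', Real.cos_zero, Real.sin_zero]
    ring
  have e4 : ∫ u, F' 0 u ∂ν = ∫ u, ((n : ℝ) * (X u ^ (n - 1) * Y u ^ 2) - X u ^ (n + 1)) ∂ν :=
    integral_congr_ae (Filter.Eventually.of_forall e3)
  rw [e4, integral_sub, integral_const_mul] at hz
  · linarith
  · refine (int38 ν (f := fun u => X u ^ (n - 1) * Y u ^ 2) ((hX.pow (n - 1)).mul (hY.pow 2)) (M := 1)
      fun u => ?_).const_mul _
    rw [abs_mul, abs_pow, abs_pow]
    exact mul_le_one₀ (pow_le_one₀ (abs_nonneg _) (hXb u)) (by positivity)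
      (pow_le_one₀ (abs_nonneg _) (hYb u))
  · refine int38 ν (hX.pow (n + 1)) (M := 1) fun u => ?_
    rw [abs_pow]
    exact pow_le_one₀ (abs_nonneg _) (hXb u)

private def qd38 (a b c d : ℝ) : Hq := ⟨a, b, c, d⟩

private theorem mem38 (a b c d : ℝ) (h : a ^ 2 + b ^ 2 + c ^ 2 + d ^ 2 = 1) :
    qd38 a b c d ∈ Metric.sphere (0 : Hq) 1 := by
  rw [mem_sphere_zero_iff_norm]
  have h1 : Quaternion.normSq (qd38 a b c d) = 1 := by
    rw [Quaternion.normSq_def']
    exact h
  rw [Quaternion.normSq_eq_norm_mul_self] at h1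
  nlinarith [norm_nonneg (qd38 a b c d)]

private noncomputable def wB38 (φ : ℝ) : U1 :=
  ⟨qd38 (Real.cos (φ / 2)) 0 0 (-Real.sin (φ / 2)), mem38 _ _ _ _ (by
    have := Real.sin_sq_add_cos_sq (φ / 2)
    nlinarith)⟩

private noncomputable def wC38 (φ : ℝ) : U1 :=
  ⟨qd38 (Real.cos (φ / 2)) 0 (Real.sin (φ / 2)) 0, mem38 _ _ _ _ (by
    have := Real.sin_sq_add_cos_sq (φ / 2)
    nlinarith)⟩

private theorem half38 (φ : ℝ) : Real.cos φ = Real.cos (φ / 2) ^ 2 - Real.sin (φ / 2) ^ 2 ∧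
    Real.sin φ = 2 * Real.sin (φ / 2) * Real.cos (φ / 2) := by
  have e : φ = 2 * (φ / 2) := by ring
  constructor
  · conv_lhs => rw [e]
    rw [Real.cos_two_mul']
  · conv_lhs => rw [e]
    rw [Real.sin_two_mul]

private theorem dirB38 (φ : ℝ) (u : U1) : cA38 (wB38 φ * u) = Real.cos φ * cA38 u + Real.sin φ * cB38 u ∧
    cB38 (wB38 φ * u) = Real.cos φ * cB38 u - Real.sin φ * cA38 u := by
  obtain ⟨h1, h2⟩ := half38 φ
  rw [h1, h2]
  simp only [cA38, cB38, wB38, qd38, Metric.unitSphere.coe_mul, Quaternion.re_mul, Quaternion.imI_mul,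
    Quaternion.imJ_mul, Quaternion.imK_mul]
  constructor <;> ring

private theorem dirC38 (φ : ℝ) (u : U1) : cA38 (wC38 φ * u) = Real.cos φ * cA38 u + Real.sin φ * cC38 u ∧
    cC38 (wC38 φ * u) = Real.cos φ * cC38 u - Real.sin φ * cA38 u := by
  obtain ⟨h1, h2⟩ := half38 φ
  rw [h1, h2]
  simp only [cA38, cC38, wC38, qd38, Metric.unitSphere.coe_mul, Quaternion.re_mul, Quaternion.imI_mul,
    Quaternion.imJ_mul, Quaternion.imK_mul]
  constructor <;> ring

private theorem rec38 (ν : Measure U1) [IsProbabilityMeasure ν] [ν.IsMulLeftInvariant] (n : ℕ) :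
    ((n : ℝ) + 2) * ∫ u : U1, cA38 u ^ (n + 1) ∂ν = n * ∫ u : U1, cA38 u ^ (n - 1) ∂ν := by
  have h1 := dir38 ν n wB38 cA38 cB38 contA38 contB38 absA38 absB38 (fun φ u => (dirB38 φ u).1)
    (fun φ u => (dirB38 φ u).2)
  have h2 := dir38 ν n wC38 cA38 cC38 contA38 contC38 absA38 absC38 (fun φ u => (dirC38 φ u).1)
    (fun φ u => (dirC38 φ u).2)
  rcases n with _ | n
  · simp only [Nat.cast_zero, zero_mul] at h1 h2 ⊢
    rw [← h1]
    ring
  · simp only [Nat.add_sub_cancel] at h1 h2 ⊢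
    have hi : ∀ m : ℕ, Integrable (fun u => cA38 u ^ m) ν := fun m =>
      int38 ν (contA38.pow m) (M := 1) fun u => by
        rw [abs_pow]
        exact pow_le_one₀ (abs_nonneg _) (absA38 u)
    have hB : Integrable (fun u => cA38 u ^ n * cB38 u ^ 2) ν :=
      int38 ν ((contA38.pow n).mul (contB38.pow 2)) (M := 1) fun u => by
        rw [abs_mul, abs_pow, abs_pow]
        exact mul_le_one₀ (pow_le_one₀ (abs_nonneg _) (absA38 u)) (by positivity)
          (pow_le_one₀ (abs_nonneg _) (absB38 u))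
    have hC : Integrable (fun u => cA38 u ^ n * cC38 u ^ 2) ν :=
      int38 ν ((contA38.pow n).mul (contC38.pow 2)) (M := 1) fun u => by
        rw [abs_mul, abs_pow, abs_pow]
        exact mul_le_one₀ (pow_le_one₀ (abs_nonneg _) (absA38 u)) (by positivity)
          (pow_le_one₀ (abs_nonneg _) (absC38 u))
    have e : ∫ u : U1, cA38 u ^ n ∂ν = ∫ u : U1, cA38 u ^ (n + 1 + 1) ∂ν + ∫ u, cA38 u ^ n * cB38 u ^ 2 ∂ν
        + ∫ u, cA38 u ^ n * cC38 u ^ 2 ∂ν := by
      have hAB : Integrable (fun u => cA38 u ^ (n + 1 + 1) + cA38 u ^ n * cB38 u ^ 2) ν := (hi _).add hB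
      rw [← integral_add (hi _) hB, ← integral_add hAB hC]
      refine integral_congr_ae (Filter.Eventually.of_forall fun u => ?_)
      have h := sum38 u
      simp only
      calc cA38 u ^ n = cA38 u ^ n * (cA38 u ^ 2 + cB38 u ^ 2 + cC38 u ^ 2) := by rw [h, mul_one]
        _ = _ := by ring
    rw [e]
    push_cast at h1 h2 ⊢
    linear_combination -h1 - h2

private theorem mom38 (ν : Measure U1) [IsProbabilityMeasure ν] [ν.IsMulLeftInvariant] (n : ℕ) :
    ∫ u : U1, cA38 u ^ n ∂ν = 1 / 2 * ∫ τ in (-1 : ℝ)..1, τ ^ n := by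
  have hI : ∀ m : ℕ, ∫ τ in (-1 : ℝ)..1, τ ^ m = (1 - (-1) ^ (m + 1)) / ((m : ℝ) + 1) := fun m => by
    rw [integral_pow]
    simp
  induction n using Nat.strong_induction_on with
  | _ n ih =>
    rcases n with _ | _ | n
    · rw [hI]
      norm_num
    · have h := rec38 ν 0
      rw [hI]
      simp only [Nat.cast_zero, zero_mul, zero_add] at h ⊢
      norm_num at h ⊢
      exact h
    · have h := rec38 ν (n + 1)
      have h2 := ih n (by omega)
      simp only [Nat.add_sub_cancel] at h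
      rw [h2, hI] at h
      rw [hI]
      have e : ((-1 : ℝ)) ^ (n + 1 + 1 + 1) = (-1) ^ (n + 1) := by
        rw [pow_succ, pow_succ]
        ring
      rw [e]
      push_cast at h ⊢
      have p1 : (n : ℝ) + 1 + 2 ≠ 0 := by positivity
      have p2 : (n : ℝ) + 1 ≠ 0 := by positivity
      have p3 : (n : ℝ) + 1 + 1 + 1 ≠ 0 := by positivity
      have h5 : ∫ u : U1, cA38 u ^ (n + 1 + 1) ∂ν =
          (((n : ℝ) + 1) * (1 / 2 * ((1 - (-1) ^ (n + 1)) / ((n : ℝ) + 1)))) / ((n : ℝ) + 1 + 2) := by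
        rw [eq_div_iff p1, mul_comm]
        exact h
      rw [h5]
      field_simp
      ring

private theorem poly38 (ν : Measure U1) [IsProbabilityMeasure ν] [ν.IsMulLeftInvariant] (p : Polynomial ℝ) :
    ∫ u : U1, p.eval (cA38 u) ∂ν = 1 / 2 * ∫ τ in (-1 : ℝ)..1, p.eval τ := by
  simp only [Polynomial.eval_eq_sum_range]
  rw [integral_finsetSum, intervalIntegral.integral_finsetSum, Finset.mul_sum]
  · refine Finset.sum_congr rfl fun i _ => ?_
    rw [integral_const_mul, intervalIntegral.integral_const_mul, mom38]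
    ring
  · intro i _
    exact (Continuous.intervalIntegrable (continuous_const.mul (continuous_pow i)) _ _)
  · intro i _
    refine (int38 ν (f := fun u => cA38 u ^ i) (contA38.pow i) (M := 1) fun u => ?_).const_mul _
    rw [abs_pow]
    exact pow_le_one₀ (abs_nonneg _) (absA38 u)

private theorem cont38 (ν : Measure U1) [IsProbabilityMeasure ν] [ν.IsMulLeftInvariant] {h : ℝ → ℝ}
    (hh : Continuous h) : ∫ u : U1, h (cA38 u) ∂ν = 1 / 2 * ∫ τ in (-1 : ℝ)..1, h τ := by
  have key : ∀ ε : ℝ, 0 < ε → |∫ u : U1, h (cA38 u) ∂ν - 1 / 2 * ∫ τ in (-1 : ℝ)..1, h τ| ≤ 2 * ε := by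
    intro ε hε
    obtain ⟨p, hp⟩ := exists_polynomial_near_of_continuousOn (-1) 1 h hh.continuousOn ε hε
    obtain ⟨M, hM⟩ := isCompact_Icc.exists_bound_of_continuousOn (s := Set.Icc (-1 : ℝ) 1) hh.continuousOn
    obtain ⟨M', hM'⟩ := isCompact_Icc.exists_bound_of_continuousOn (s := Set.Icc (-1 : ℝ) 1)
      p.continuous.continuousOn
    have i1 : Integrable (fun u => h (cA38 u)) ν := int38 ν (hh.comp contA38) (M := M) fun u =>
      hM _ (abs_le.1 (absA38 u))
    have i2 : Integrable (fun u => p.eval (cA38 u)) ν := int38 ν (p.continuous.comp contA38) (M := M') fun u =>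
      hM' _ (abs_le.1 (absA38 u))
    have e1 : |∫ u : U1, h (cA38 u) ∂ν - ∫ u : U1, p.eval (cA38 u) ∂ν| ≤ ε := by
      rw [← integral_sub i1 i2, ← Real.norm_eq_abs]
      refine (norm_integral_le_of_norm_le_const (C := ε) (Filter.Eventually.of_forall fun u => ?_)).trans ?_
      · rw [Real.norm_eq_abs, abs_sub_comm]
        exact (hp _ (abs_le.1 (absA38 u))).le
      · simp
    have e2 : |(∫ τ in (-1 : ℝ)..1, h τ) - ∫ τ in (-1 : ℝ)..1, p.eval τ| ≤ ε * 2 := by
      rw [← intervalIntegral.integral_sub (hh.intervalIntegrable _ _) (p.continuous.intervalIntegrable _ _),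
        ← Real.norm_eq_abs]
      refine (intervalIntegral.norm_integral_le_of_norm_le_const (C := ε) fun τ hτ => ?_).trans ?_
      · rw [Real.norm_eq_abs, abs_sub_comm]
        rw [Set.uIoc_of_le (by norm_num)] at hτ
        exact (hp _ ⟨hτ.1.le, hτ.2⟩).le
      · norm_num
    have e3 := poly38 ν p
    rw [abs_le] at e1 e2 ⊢
    constructor <;> linarith [e1.1, e1.2, e2.1, e2.2]
  have h0 : |∫ u : U1, h (cA38 u) ∂ν - 1 / 2 * ∫ τ in (-1 : ℝ)..1, h τ| ≤ 0 := by
    refine le_of_forall_pos_le_add fun ε hε => ?_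
    have := key (ε / 2) (by positivity)
    linarith
  have h1 := abs_nonpos_iff.1 h0
  linarith

private theorem exv38 {Z : Hq} (hZ : Z.re = 0) : ∃ v : U1, star (v : Hq) * Z * (v : Hq) = qd38 0 ‖Z‖ 0 0 := by
  have hn : ‖Z‖ * ‖Z‖ = Z.imI ^ 2 + Z.imJ ^ 2 + Z.imK ^ 2 := by
    rw [← Quaternion.normSq_eq_norm_mul_self, Quaternion.normSq_def', hZ]
    ring
  have hR0 : 0 ≤ ‖Z‖ := norm_nonneg Z
  set R := ‖Z‖ with hR
  by_cases h : R + Z.imI = 0 
  · have hI : Z.imI = -R := by linarith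
    have hJK : Z.imJ ^ 2 + Z.imK ^ 2 = 0 := by
      rw [hI] at hn
      nlinarith
    have hJ : Z.imJ = 0 := by nlinarith [sq_nonneg Z.imJ, sq_nonneg Z.imK]
    have hK : Z.imK = 0 := by nlinarith [sq_nonneg Z.imJ, sq_nonneg Z.imK]
    refine ⟨⟨qd38 0 0 1 0, mem38 _ _ _ _ (by norm_num)⟩, ?_⟩
    apply Quaternion.ext <;>
    simp [qd38, hZ, hI, hJ, hK]
  · have hpos : 0 < R + Z.imI := by
      refine lt_of_le_of_ne ?_ (Ne.symm h)
      nlinarith [sq_nonneg Z.imJ, sq_nonneg Z.imK, abs_nonneg Z.imI, abs_le_of_sq_le_sq' (a := Z.imI) (b := R) (by nlinarith [sq_nonneg Z.imJ, sq_nonneg Z.imK]) hR0]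
    have hRp : 0 < R := by
      rcases hR0.lt_or_eq with h1 | h1
      · exact h1
      · exfalso
        rw [← h1] at hn hpos
        nlinarith [sq_nonneg Z.imJ, sq_nonneg Z.imK, sq_nonneg Z.imI]
    set N := Real.sqrt (2 * R * (R + Z.imI)) with hN
    have hN2 : N ^ 2 = 2 * R * (R + Z.imI) := Real.sq_sqrt (by positivity)
    have hNp : 0 < N := Real.sqrt_pos.2 (by positivity)
    refine ⟨⟨qd38 0 ((R + Z.imI) / N) (Z.imJ / N) (Z.imK / N), mem38 _ _ _ _ ?_⟩, ?_⟩
    · field_simp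
      rw [hN2]
      nlinarith
    · apply Quaternion.ext
      · simp [qd38, hZ]
        field_simp
        ring
      · simp [qd38, hZ]
        field_simp
        rw [hN2]
        nlinarith
      · simp [qd38, hZ]
        field_simp
        linear_combination (-Z.imJ) * hn
      · simp [qd38, hZ]
        field_simp
        linear_combination (-Z.imK) * hn

theorem arch (ν : Measure U1) [IsProbabilityMeasure ν] [ν.IsMulLeftInvariant] {g : ℝ → ℝ} (hg : Continuous g) {Z : Hq} (hZ : Z.re = 0) :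
    ∫ u : U1, g (star (u : Hq) * Z * (u : Hq)).imI ∂ν = 1 / 2 * ∫ τ in (-1 : ℝ)..1, g (‖Z‖ * τ) := by
  obtain ⟨v, hv⟩ := exv38 hZ
  have e1 : ∫ u : U1, g (star (u : Hq) * Z * (u : Hq)).imI ∂ν =
      ∫ u : U1, g (star ((v * u : U1) : Hq) * Z * ((v * u : U1) : Hq)).imI ∂ν :=
    (integral_mul_left_eq_self (μ := ν) (fun u : U1 => g (star (u : Hq) * Z * (u : Hq)).imI) v).symm
  rw [e1, ← cont38 ν (h := fun t => g (‖Z‖ * t)) (hg.comp (continuous_const.mul continuous_id))]
  refine integral_congr_ae (Filter.Eventually.of_forall fun u => ?_)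
  have e2 : star ((v * u : U1) : Hq) * Z * ((v * u : U1) : Hq) =
      star (u : Hq) * qd38 0 ‖Z‖ 0 0 * (u : Hq) := by
    rw [← hv, Metric.unitSphere.coe_mul, star_mul]
    noncomm_ring
  simp only
  rw [e2, coord38 u (Z := qd38 0 ‖Z‖ 0 0) rfl]
  simp [qd38]

theorem mean_id (ν : Measure U1) [IsProbabilityMeasure ν] [ν.IsMulLeftInvariant] {s : ℝ} (hs : 0 < s) {W : Hq} (hW : 0 < W.re) :
    ∫ u : U1, ((1 - 2 * s) * ‖cD (u : Hq) W‖ ^ (-(2 * s)) + 2 * s * W.re ^ 2 * ‖cD (u : Hq) W‖ ^ (-(2 * s) - 2)) ∂ν = ‖W‖ ^ (-(2 * s)) := by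
  have hZ0 : (W - (W.re : Hq)).re = 0 := by simp
  set A : ℝ := W.re with hA
  set Z : Hq := W - (A : Hq) with hZ
  have hn : ‖W‖ ^ 2 = A ^ 2 + ‖Z‖ ^ 2 := by
    rw [pow_two, pow_two ‖Z‖, ← Quaternion.normSq_eq_norm_mul_self, ← Quaternion.normSq_eq_norm_mul_self,
      Quaternion.normSq_def', Quaternion.normSq_def']
    simp [hZ, hA]
    ring
  have hcd : ∀ u : U1, ‖cD (u : Hq) W‖ ^ 2 = A ^ 2 + (star (u : Hq) * Z * (u : Hq)).imI ^ 2 := fun u => by
    have h := normSq38 u
    have e1 : (star (u : Hq) * W * (u : Hq)).re = A := by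
      have : (star (u : Hq) * W * (u : Hq)).re = W.re * ((u : Hq).re ^ 2 + (u : Hq).imI ^ 2 +
          (u : Hq).imJ ^ 2 + (u : Hq).imK ^ 2) := by
        simp only [Quaternion.imI_mul, Quaternion.re_mul, Quaternion.imJ_mul, Quaternion.imK_mul,
          Quaternion.re_star, Quaternion.imI_star, Quaternion.imJ_star, Quaternion.imK_star]
        ring
      rw [this, h, mul_one]
    have e2 : (star (u : Hq) * W * (u : Hq)).imI = (star (u : Hq) * Z * (u : Hq)).imI := by
      simp only [Quaternion.imI_mul, Quaternion.re_mul, Quaternion.imJ_mul, Quaternion.imK_mul,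
          Quaternion.re_star, Quaternion.imI_star, Quaternion.imJ_star, Quaternion.imK_star, hZ,
          Quaternion.re_sub, Quaternion.imI_sub, Quaternion.imJ_sub, Quaternion.imK_sub,
          Quaternion.re_coe, Quaternion.imI_coe, Quaternion.imJ_coe, Quaternion.imK_coe]
      ring
    unfold cD
    rw [e1, e2, ← Complex.normSq_eq_norm_sq, Complex.normSq_mk]
    ring
  have hpow : ∀ x y : ℝ, 0 ≤ x → ∀ q : ℝ, x ^ 2 = y → x ^ (2 * q) = y ^ q := fun x y hx q hxy => by
    rw [← hxy, Real.rpow_mul hx]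
    norm_num
  set g : ℝ → ℝ := fun t => (1 - 2 * s) * (A ^ 2 + t ^ 2) ^ (-s) + 2 * s * A ^ 2 * (A ^ 2 + t ^ 2) ^ (-s - 1)
    with hg
  have hpos : ∀ t : ℝ, 0 < A ^ 2 + t ^ 2 := fun t => by
    have := sq_nonneg t
    positivity
  have hb : Continuous fun t : ℝ => A ^ 2 + t ^ 2 := by fun_prop
  have hgc : Continuous g := by
    refine Continuous.add (continuous_const.mul ?_) (continuous_const.mul ?_)
    · exact hb.rpow_const fun t => Or.inl (hpos t).ne'
    · exact hb.rpow_const fun t => Or.inl (hpos t).ne'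
  have e1 : ∀ u : U1, (1 - 2 * s) * ‖cD (u : Hq) W‖ ^ (-(2 * s)) + 2 * s * A ^ 2 *
      ‖cD (u : Hq) W‖ ^ (-(2 * s) - 2) = g (star (u : Hq) * Z * (u : Hq)).imI := fun u => by
    have a1 := hpow _ _ (norm_nonneg _) (-s) (hcd u)
    have a2 := hpow _ _ (norm_nonneg _) (-s - 1) (hcd u)
    have b1 : -(2 * s) = 2 * (-s) := by ring
    have b2 : 2 * (-s) - 2 = 2 * (-s - 1) := by ring
    rw [b1, b2, a1, a2]
  rw [integral_congr_ae (Filter.Eventually.of_forall e1), arch ν hgc hZ0]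
  set R := ‖Z‖ with hR
  have hder : ∀ τ : ℝ, HasDerivAt (fun τ : ℝ => τ * (A ^ 2 + (R * τ) ^ 2) ^ (-s)) (g (R * τ)) τ := fun τ => by
    have d1 : HasDerivAt (fun τ : ℝ => A ^ 2 + (R * τ) ^ 2) (2 * R ^ 2 * τ) τ := by
      have := ((((hasDerivAt_id τ).const_mul R).pow 2).const_add (A ^ 2))
      refine this.congr_deriv ?_
      simp
      ring
    have d2 := d1.rpow_const (p := -s) (Or.inl (hpos (R * τ)).ne')
    have d3 := (hasDerivAt_id τ).mul d2
    refine d3.congr_deriv ?_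
    have e5 : (A ^ 2 + (R * τ) ^ 2) ^ (-s) = (A ^ 2 + (R * τ) ^ 2) ^ (-s - 1) * (A ^ 2 + (R * τ) ^ 2) := by
      rw [← Real.rpow_add_one (hpos (R * τ)).ne']
      congr 1
      ring
    simp only [hg, id]
    rw [e5]
    ring
  rw [intervalIntegral.integral_eq_sub_of_hasDerivAt (fun τ _ => hder τ)
    ((hgc.comp (continuous_const.mul continuous_id)).intervalIntegrable _ _)]
  have b1 : -(2 * s) = 2 * (-s) := by ring
  rw [b1, hpow _ _ (norm_nonneg _) (-s) hn]
  have c1 : A ^ 2 + (R * 1) ^ 2 = A ^ 2 + R ^ 2 := by ring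
  have c2 : A ^ 2 + (R * -1) ^ 2 = A ^ 2 + R ^ 2 := by ring
  rw [c1, c2]
  ring

end Pool.Agent.Helper84.CH
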