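import Pool.Agent.Helper84.CH.U0

/-!
# Project CH, block UB: Gamma integrals

`gs s` has density `r^(s-1)/Γ(s)` on `(0, ∞)`. PROOFS. `gs_exp`: `Complex.integral_cpow_mul_exp_neg_mul_Ioi`; integrability: `‖e^(-rD)‖ = e^(-r Re D)`. `gg_id`: product of two integrals (`integral_prod_mul`), `D^(-s) (conj D)^(-s) = ‖D‖^(-2s)` (`Re D > 0`: arguments in `(-π/2, π/2)`, opposite).
`gg_lin`: `∫ r e^(-rD) dgs s = s D^(-s-1)` (`Γ(s+1) = s Γ(s)`), so the integral is `s D^(-s-1) (conj D)^(-s) + s D^(-s) (conj D)^(-s-1) = s (conj D + D) ‖D‖^(-2s-2)`. `gg_int`: `r^(s-1) r^k e^(-cr)` is integrable. `gg_zero`, `gg_one`: the cases `D = c` real.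
`gg_two`: `∫ r² e^(-cr) dgs s = s (s+1) c^(-s-2)`: `2 s (s+1) + 2 s² = 2s(2s+1)`. `gg_min`: `(r + r')/max r r' - 1 = min r r'/max r r'`. On `r' < r`: `(r'/r) (r r')^(s-1) e^(-cr-cr') ≤ r^(s-2) r'^s e^(-cr)`, integrate in `r'` over `(0, r)`: `r^(2s-1) e^(-cr)/(s+1)`, then in `r`: `Γ(2s) c^(-2s)/(s+1)`; twice, divided by `Γ(s)²`.
`dl_tendsto`: `Γ(2s)/Γ(s)² = s Γ(2s+1)/(2 Γ(s+1)²)`.
-/

set_option autoImplicit false

open MeasureTheory Filter Topology

namespace Pool.Agent.Helper84.CH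

open Pool.Agent.Helper84.SPQ

instance instSFgs (s : ℝ) : SFinite (gs s) := by
  unfold gs
  infer_instance

private theorem meas77 (s : ℝ) : Measurable fun r : ℝ => ENNReal.ofReal (r ^ (s - 1) / Real.Gamma s) :=
  ((measurable_id.pow_const _).div_const _).ennreal_ofReal

private theorem w_nonneg77 {s : ℝ} (hs : 0 < s) {r : ℝ} (hr : 0 < r) : 0 ≤ r ^ (s - 1) / Real.Gamma s :=
  div_nonneg (Real.rpow_nonneg hr.le _) (Real.Gamma_pos_of_pos hs).le

private theorem int_gs77 {E : Type} [NormedAddCommGroup E] [NormedSpace ℝ E] {s : ℝ} (hs : 0 < s) (g : ℝ → E) :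
    ∫ r, g r ∂(gs s) = ∫ r in Set.Ioi 0, (r ^ (s - 1) / Real.Gamma s) • g r := by
  unfold gs
  rw [integral_withDensity_eq_integral_toReal_smul (meas77 s) (ae_of_all _ fun _ => ENNReal.ofReal_lt_top)]
  refine setIntegral_congr_fun measurableSet_Ioi fun r hr => ?_
  rw [ENNReal.toReal_ofReal (w_nonneg77 hs hr)]

private theorem integrable_gs77 {E : Type} [NormedAddCommGroup E] [NormedSpace ℝ E] {s : ℝ} (hs : 0 < s) (g : ℝ → E) :
    Integrable g (gs s) ↔ IntegrableOn (fun r : ℝ => (r ^ (s - 1) / Real.Gamma s) • g r) (Set.Ioi 0) := by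
  unfold gs
  rw [integrable_withDensity_iff_integrable_smul' (meas77 s) (ae_of_all _ fun _ => ENNReal.ofReal_lt_top)]
  refine integrableOn_congr_fun (fun r hr => ?_) measurableSet_Ioi
  rw [ENNReal.toReal_ofReal (w_nonneg77 hs hr)]

private theorem gs_mom77 {s : ℝ} (hs : 0 < s) {c : ℝ} (hc : 0 < c) (k : ℕ) :
    Integrable (fun r : ℝ => r ^ k * Real.exp (-(c * r))) (gs s) ∧
      ∫ r : ℝ, r ^ k * Real.exp (-(c * r)) ∂(gs s) = Real.Gamma (s + k) / Real.Gamma s * c ^ (-(s + k)) := by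
  have hk : (0 : ℝ) ≤ k := Nat.cast_nonneg k
  have hΓ := Real.Gamma_pos_of_pos hs
  have key : ∀ r : ℝ, r ∈ Set.Ioi (0 : ℝ) → (r ^ (s - 1) / Real.Gamma s) • (r ^ k * Real.exp (-(c * r))) =
      (Real.Gamma s)⁻¹ * (r ^ (s + k - 1) * Real.exp (-(c * r))) := by
    intro r hr
    have hr' : (0 : ℝ) < r := hr
    have e : s + k - 1 = (s - 1) + k := by ring
    rw [e, Real.rpow_add hr', Real.rpow_natCast, smul_eq_mul]
    field_simp
  constructor
  · rw [integrable_gs77 hs, integrableOn_congr_fun key measurableSet_Ioi]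
    have h1 := integrableOn_rpow_mul_exp_neg_mul_rpow (p := 1) (s := s + k - 1) (b := c) (by linarith) one_pos hc
    refine IntegrableOn.congr_fun (h1.const_mul (Real.Gamma s)⁻¹) (fun r _ => ?_) measurableSet_Ioi
    simp only [Real.rpow_one, neg_mul]
  · rw [int_gs77 hs, setIntegral_congr_fun measurableSet_Ioi key, integral_const_mul,
      Real.integral_rpow_mul_exp_neg_mul_Ioi (by linarith) hc, one_div, Real.inv_rpow hc.le, Real.rpow_neg hc.le]
    field_simp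

private theorem gs_exp0_77 {s : ℝ} (hs : 0 < s) {c : ℝ} (hc : 0 < c) :
    Integrable (fun r : ℝ => Real.exp (-(c * r))) (gs s) := by
  have h := (gs_mom77 hs hc 0).1
  simpa using h

theorem gs_pos (s : ℝ) : ∀ᵐ r ∂(gs s), 0 < r := by
  have h1 : gs s ≪ volume.restrict (Set.Ioi (0 : ℝ)) := withDensity_absolutelyContinuous _ _
  exact h1.ae_le (ae_restrict_mem measurableSet_Ioi)

private theorem cexp_integrable77 {s : ℝ} (hs : 0 < s) {D : ℂ} (hD : 0 < D.re) :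
    Integrable (fun r : ℝ => Complex.exp (-((r : ℂ) * D))) (gs s) := by
  refine Integrable.mono' (gs_exp0_77 hs hD) (by fun_prop) (ae_of_all _ fun r => ?_)
  rw [Complex.norm_exp, Complex.neg_re, Complex.re_ofReal_mul, mul_comm]

private theorem mul_cexp_integrable77 {s : ℝ} (hs : 0 < s) {D : ℂ} (hD : 0 < D.re) :
    Integrable (fun r : ℝ => (r : ℂ) * Complex.exp (-((r : ℂ) * D))) (gs s) := by
  refine Integrable.mono' (gs_mom77 hs hD 1).1 (by fun_prop) ?_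
  filter_upwards [gs_pos s] with r hr
  rw [norm_mul, Complex.norm_exp, Complex.neg_re, Complex.re_ofReal_mul, mul_comm r D.re, Complex.norm_real,
    Real.norm_of_nonneg hr.le, pow_one]

private theorem mem_int77 {s : ℝ} (hs : 0 < s) {t : ℝ} (ht : t < 0) :
    t ∈ interior (ProbabilityTheory.integrableExpSet id (gs s)) := by
  rw [mem_interior]
  refine ⟨Set.Iio 0, fun u hu => ?_, isOpen_Iio, ht⟩
  have hu' : (0 : ℝ) < -u := by
    have : u < 0 := hu
    linarith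
  have h := gs_exp0_77 hs hu'
  change Integrable (fun r : ℝ => Real.exp (u * r)) (gs s)
  simpa using h

private theorem mgf_eq77 {s : ℝ} (hs : 0 < s) :
    Set.EqOn (ProbabilityTheory.complexMGF id (gs s)) (fun z => (-z) ^ (-(s : ℂ))) {z : ℂ | z.re < 0} := by
  have hopen : IsOpen {z : ℂ | z.re < 0} := isOpen_lt Complex.continuous_re continuous_const
  have h1 : AnalyticOnNhd ℂ (ProbabilityTheory.complexMGF id (gs s)) {z : ℂ | z.re < 0} := fun z hz =>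
    ProbabilityTheory.analyticOnNhd_complexMGF z (mem_int77 hs hz)
  have h2 : AnalyticOnNhd ℂ (fun z : ℂ => (-z) ^ (-(s : ℂ))) {z : ℂ | z.re < 0} := by
    refine DifferentiableOn.analyticOnNhd (fun z hz => ?_) hopen
    refine DifferentiableAt.differentiableWithinAt ?_
    refine DifferentiableAt.cpow (by fun_prop) (by fun_prop) ?_
    left
    have : z.re < 0 := hz
    rw [Complex.neg_re]
    linarith
  have hconv : IsPreconnected {z : ℂ | z.re < 0} := (convex_halfSpace_re_lt 0).isPreconnected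
  refine AnalyticOnNhd.eqOn_of_preconnected_of_frequently_eq h1 h2 hconv (z₀ := ((-1 : ℝ) : ℂ)) (by simp) ?_
  have h_real : ∃ᶠ (x : ℝ) in 𝓝[≠] (-1 : ℝ),
      ProbabilityTheory.complexMGF id (gs s) (x : ℂ) = (-(x : ℂ)) ^ (-(s : ℂ)) := by
    refine Eventually.frequently ?_
    have h3 : ∀ᶠ x : ℝ in 𝓝 (-1 : ℝ), x < 0 := Iio_mem_nhds (by norm_num)
    filter_upwards [nhdsWithin_le_nhds h3] with x hx
    have hx' : (0 : ℝ) < -x := by linarith
    rw [ProbabilityTheory.complexMGF_ofReal]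
    have h4 := (gs_mom77 hs hx' 0).2
    have h5 : ProbabilityTheory.mgf id (gs s) x = (-x) ^ (-s) := by
      have hΓ := (Real.Gamma_pos_of_pos hs).ne'
      have h6 : ∫ r : ℝ, Real.exp (x * r) ∂(gs s) = (-x) ^ (-s) := by
        simpa [hΓ] using h4
      exact h6
    rw [h5, ← Complex.ofReal_neg, ← Complex.ofReal_neg, ← Complex.ofReal_cpow hx'.le]
  rw [frequently_iff_seq_forall] at h_real ⊢
  obtain ⟨xs, hx_tendsto, hx_eq⟩ := h_real
  refine ⟨fun n => xs n, ?_, fun n => ?_⟩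
  · rw [tendsto_nhdsWithin_iff] at hx_tendsto ⊢
    constructor
    · rw [tendsto_ofReal_iff]
      exact hx_tendsto.1
    · filter_upwards [hx_tendsto.2] with n hn
      intro hh
      exact hn (Complex.ofReal_injective hh)
  · exact hx_eq n

private theorem lap77 {s : ℝ} (hs : 0 < s) {D : ℂ} (hD : 0 < D.re) :
    ∫ r : ℝ, Complex.exp (-((r : ℂ) * D)) ∂(gs s) = D ^ (-(s : ℂ)) := by
  have h1 := mgf_eq77 hs (x := -D) (by
    change (-D).re < 0
    rw [Complex.neg_re]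
    linarith)
  simp only [neg_neg] at h1
  rw [← h1]
  unfold ProbabilityTheory.complexMGF
  refine integral_congr_ae (ae_of_all _ fun r => ?_)
  simp only [id]
  congr 1
  ring

private theorem lap1_77 {s : ℝ} (hs : 0 < s) {D : ℂ} (hD : 0 < D.re) :
    ∫ r : ℝ, (r : ℂ) * Complex.exp (-((r : ℂ) * D)) ∂(gs s) = s * D ^ (-(s : ℂ) - 1) := by
  have hD' : (-D).re < 0 := by
    rw [Complex.neg_re]
    linarith
  have hopen : IsOpen {z : ℂ | z.re < 0} := isOpen_lt Complex.continuous_re continuous_const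
  have h1 := ProbabilityTheory.hasDerivAt_complexMGF (X := id) (μ := gs s) (z := -D) (mem_int77 hs hD')
  have h2 : HasDerivAt (fun z : ℂ => (-z) ^ (-(s : ℂ))) (-(s : ℂ) * (-(-D)) ^ (-(s : ℂ) - 1) * (-1)) (-D) := by
    refine HasDerivAt.cpow_const (hasDerivAt_neg _) ?_
    left
    rw [neg_neg]
    exact hD
  have h3 : ProbabilityTheory.complexMGF id (gs s) =ᶠ[𝓝 (-D)] fun z : ℂ => (-z) ^ (-(s : ℂ)) :=
    (mgf_eq77 hs).eventuallyEq_of_mem (hopen.mem_nhds hD')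
  have h4 := h1.unique (h2.congr_of_eventuallyEq h3)
  rw [neg_neg] at h4
  have h5 : ∫ r : ℝ, (r : ℂ) * Complex.exp (-((r : ℂ) * D)) ∂(gs s) =
      ∫ r : ℝ, ((id r : ℝ) : ℂ) * Complex.exp (-D * ((id r : ℝ) : ℂ)) ∂(gs s) := by
    refine integral_congr_ae (ae_of_all _ fun r => ?_)
    simp only [id]
    congr 2
    ring
  rw [h5, h4]
  ring

theorem gs_exp {s : ℝ} (hs : 0 < s) {D : ℂ} (hD : 0 < D.re) :
    Integrable (fun r : ℝ => Complex.exp (-((r : ℂ) * D))) (gs s) ∧ ∫ r : ℝ, Complex.exp (-((r : ℂ) * D)) ∂(gs s) = D ^ (-(s : ℂ)) :=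
  ⟨cexp_integrable77 hs hD, lap77 hs hD⟩

private theorem arg_ne77 {D : ℂ} (hD : 0 < D.re) : D.arg ≠ Real.pi := by
  rw [Ne, Complex.arg_eq_pi_iff]
  rintro ⟨h, -⟩
  linarith

private theorem conj_pow77 {s : ℝ} {D : ℂ} (hD : 0 < D.re) :
    D ^ (-(s : ℂ)) * ((starRingEnd ℂ) D) ^ (-(s : ℂ)) = ((‖D‖ ^ (-(2 * s)) : ℝ) : ℂ) := by
  have e : (-(s : ℂ)) = ((-s : ℝ) : ℂ) := by push_cast; rfl
  rw [Complex.conj_cpow _ _ (arg_ne77 hD), e, Complex.conj_ofReal, Complex.mul_conj, Complex.normSq_eq_norm_sq,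
    Complex.norm_cpow_real]
  congr 1
  rw [← Real.rpow_natCast, ← Real.rpow_mul (norm_nonneg _)]
  congr 1
  push_cast
  ring

private theorem re_conj77 {D : ℂ} (hD : 0 < D.re) : 0 < ((starRingEnd ℂ) D).re := by
  rwa [Complex.conj_re]

theorem gg_id {s : ℝ} (hs : 0 < s) {D : ℂ} (hD : 0 < D.re) :
    ∫ p : ℝ × ℝ, Complex.exp (-((p.1 : ℂ) * D + (p.2 : ℂ) * (starRingEnd ℂ) D)) ∂((gs s).prod (gs s)) = ((‖D‖ ^ (-(2 * s)) : ℝ) : ℂ) := by
  have h1 : ∀ p : ℝ × ℝ, Complex.exp (-((p.1 : ℂ) * D + (p.2 : ℂ) * (starRingEnd ℂ) D)) =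
      Complex.exp (-((p.1 : ℂ) * D)) * Complex.exp (-((p.2 : ℂ) * (starRingEnd ℂ) D)) := by
    intro p
    rw [← Complex.exp_add]
    congr 1
    ring
  simp_rw [h1]
  rw [integral_prod_mul (fun r : ℝ => Complex.exp (-((r : ℂ) * D)))
    (fun r : ℝ => Complex.exp (-((r : ℂ) * (starRingEnd ℂ) D))), lap77 hs hD, lap77 hs (re_conj77 hD), conj_pow77 hD]

theorem gg_lin {s : ℝ} (hs : 0 < s) {D : ℂ} (hD : 0 < D.re) :
    ∫ p : ℝ × ℝ, ((p.1 + p.2 : ℝ) : ℂ) * Complex.exp (-((p.1 : ℂ) * D + (p.2 : ℂ) * (starRingEnd ℂ) D)) ∂((gs s).prod (gs s)) =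
      ((2 * s * D.re * ‖D‖ ^ (-(2 * s) - 2) : ℝ) : ℂ) := by
  have hDc := re_conj77 hD
  have h1 : ∀ p : ℝ × ℝ, ((p.1 + p.2 : ℝ) : ℂ) * Complex.exp (-((p.1 : ℂ) * D + (p.2 : ℂ) * (starRingEnd ℂ) D)) =
      ((p.1 : ℂ) * Complex.exp (-((p.1 : ℂ) * D))) * Complex.exp (-((p.2 : ℂ) * (starRingEnd ℂ) D)) +
      Complex.exp (-((p.1 : ℂ) * D)) * ((p.2 : ℂ) * Complex.exp (-((p.2 : ℂ) * (starRingEnd ℂ) D))) := by
    intro p
    have h2 : Complex.exp (-((p.1 : ℂ) * D + (p.2 : ℂ) * (starRingEnd ℂ) D)) =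
        Complex.exp (-((p.1 : ℂ) * D)) * Complex.exp (-((p.2 : ℂ) * (starRingEnd ℂ) D)) := by
      rw [← Complex.exp_add]
      congr 1
      ring
    rw [h2]
    push_cast
    ring
  simp_rw [h1]
  rw [integral_add ((mul_cexp_integrable77 hs hD).mul_prod (cexp_integrable77 hs hDc))
    ((cexp_integrable77 hs hD).mul_prod (mul_cexp_integrable77 hs hDc))]
  rw [integral_prod_mul (fun r : ℝ => (r : ℂ) * Complex.exp (-((r : ℂ) * D)))
    (fun r : ℝ => Complex.exp (-((r : ℂ) * (starRingEnd ℂ) D))),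
    integral_prod_mul (fun r : ℝ => Complex.exp (-((r : ℂ) * D)))
    (fun r : ℝ => (r : ℂ) * Complex.exp (-((r : ℂ) * (starRingEnd ℂ) D))),
    lap77 hs hD, lap77 hs hDc, lap1_77 hs hD, lap1_77 hs hDc]
  have hD0 : D ≠ 0 := by
    rintro rfl
    simp at hD
  have hDc0 : (starRingEnd ℂ) D ≠ 0 := by
    rwa [Ne, map_eq_zero]
  rw [Complex.cpow_sub _ _ hD0, Complex.cpow_sub _ _ hDc0, Complex.cpow_one, Complex.cpow_one]
  have hn : (0 : ℝ) < ‖D‖ := norm_pos_iff.2 hD0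
  have h3 : ((2 * s * D.re * ‖D‖ ^ (-(2 * s) - 2) : ℝ) : ℂ) =
      (s : ℂ) * ((‖D‖ ^ (-(2 * s)) : ℝ) : ℂ) * ((2 * D.re : ℝ) : ℂ) / ((‖D‖ ^ 2 : ℝ) : ℂ) := by
    have e : ‖D‖ ^ (-(2 * s) - 2) = ‖D‖ ^ (-(2 * s)) / ‖D‖ ^ 2 := by
      rw [Real.rpow_sub hn]
      congr 1
      exact Real.rpow_natCast _ 2
    rw [e]
    push_cast
    ring
  have h4 : ((2 * D.re : ℝ) : ℂ) = D + (starRingEnd ℂ) D := (Complex.add_conj D).symm
  have h5 : ((‖D‖ ^ 2 : ℝ) : ℂ) = D * (starRingEnd ℂ) D := by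
    rw [Complex.mul_conj, Complex.normSq_eq_norm_sq]
  rw [h3, ← conj_pow77 hD, h4, h5]
  field_simp
  ring

private theorem prod_exp77 (c : ℝ) (p : ℝ × ℝ) : Real.exp (-(c * (p.1 + p.2))) = Real.exp (-(c * p.1)) * Real.exp (-(c * p.2)) := by
  rw [← Real.exp_add]
  congr 1
  ring

theorem gg_int {s : ℝ} (hs : 0 < s) {c : ℝ} (hc : 0 < c) (k : ℕ) :
    Integrable (fun p : ℝ × ℝ => (p.1 + p.2) ^ k * Real.exp (-(c * (p.1 + p.2)))) ((gs s).prod (gs s)) := by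
  have h1 : (fun p : ℝ × ℝ => (p.1 + p.2) ^ k * Real.exp (-(c * (p.1 + p.2)))) = fun p : ℝ × ℝ =>
      ∑ j ∈ Finset.range (k + 1), (k.choose j : ℝ) *
        ((p.1 ^ j * Real.exp (-(c * p.1))) * (p.2 ^ (k - j) * Real.exp (-(c * p.2)))) := by
    funext p
    rw [prod_exp77, add_pow, Finset.sum_mul]
    refine Finset.sum_congr rfl fun j _ => ?_
    ring
  rw [h1]
  refine integrable_finset_sum _ fun j _ => Integrable.const_mul ?_ _
  exact (gs_mom77 hs hc j).1.mul_prod (gs_mom77 hs hc (k - j)).1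

private theorem mom_prod77 {s : ℝ} (hs : 0 < s) {c : ℝ} (hc : 0 < c) (j k : ℕ) :
    ∫ p : ℝ × ℝ, (p.1 ^ j * Real.exp (-(c * p.1))) * (p.2 ^ k * Real.exp (-(c * p.2))) ∂((gs s).prod (gs s)) =
      (Real.Gamma (s + j) / Real.Gamma s * c ^ (-(s + j))) * (Real.Gamma (s + k) / Real.Gamma s * c ^ (-(s + k))) := by
  rw [integral_prod_mul (fun r : ℝ => r ^ j * Real.exp (-(c * r))) (fun r : ℝ => r ^ k * Real.exp (-(c * r))),
    (gs_mom77 hs hc j).2, (gs_mom77 hs hc k).2]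

private theorem m0_77 {s : ℝ} (hs : 0 < s) (c : ℝ) :
    Real.Gamma (s + (0 : ℕ)) / Real.Gamma s * c ^ (-(s + (0 : ℕ))) = c ^ (-s) := by
  have hΓ := (Real.Gamma_pos_of_pos hs).ne'
  simp [hΓ]

private theorem m1_77 {s : ℝ} (hs : 0 < s) {c : ℝ} (hc : 0 < c) :
    Real.Gamma (s + (1 : ℕ)) / Real.Gamma s * c ^ (-(s + (1 : ℕ))) = s * (c ^ (-s) / c) := by
  have hΓ := (Real.Gamma_pos_of_pos hs).ne'
  have e : -(s + ((1 : ℕ) : ℝ)) = -s - 1 := by push_cast; ring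
  rw [e, Real.rpow_sub_one hc.ne', Nat.cast_one, Real.Gamma_add_one hs.ne']
  field_simp

private theorem m2_77 {s : ℝ} (hs : 0 < s) {c : ℝ} (hc : 0 < c) :
    Real.Gamma (s + (2 : ℕ)) / Real.Gamma s * c ^ (-(s + (2 : ℕ))) = s * (s + 1) * (c ^ (-s) / c ^ 2) := by
  have hΓ := (Real.Gamma_pos_of_pos hs).ne'
  have e : -(s + ((2 : ℕ) : ℝ)) = -s - 1 - 1 := by push_cast; ring
  have e2 : s + ((2 : ℕ) : ℝ) = (s + 1) + 1 := by push_cast; ring
  rw [e, Real.rpow_sub_one hc.ne', Real.rpow_sub_one hc.ne', e2, Real.Gamma_add_one (by linarith : (0 : ℝ) < s + 1).ne', Real.Gamma_add_one hs.ne']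
  field_simp

private theorem two77 {s : ℝ} {c : ℝ} (hc : 0 < c) : c ^ (-(2 * s)) = c ^ (-s) * c ^ (-s) := by
  rw [← Real.rpow_add hc]
  congr 1
  ring

theorem gg_zero {s : ℝ} (hs : 0 < s) {c : ℝ} (hc : 0 < c) :
    ∫ p : ℝ × ℝ, Real.exp (-(c * (p.1 + p.2))) ∂((gs s).prod (gs s)) = c ^ (-(2 * s)) := by
  have h1 := mom_prod77 hs hc 0 0
  rw [m0_77 hs] at h1
  rw [two77 hc, ← h1]
  refine integral_congr_ae (ae_of_all _ fun p => ?_)
  simp only
  rw [prod_exp77]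
  ring

theorem gg_one {s : ℝ} (hs : 0 < s) {c : ℝ} (hc : 0 < c) :
    ∫ p : ℝ × ℝ, (p.1 + p.2) * Real.exp (-(c * (p.1 + p.2))) ∂((gs s).prod (gs s)) = 2 * s * c ^ (-(2 * s) - 1) := by
  have h1 := mom_prod77 hs hc 1 0
  have h2 := mom_prod77 hs hc 0 1
  rw [m0_77 hs, m1_77 hs hc] at h1 h2
  have h3 : ∀ p : ℝ × ℝ, (p.1 + p.2) * Real.exp (-(c * (p.1 + p.2))) =
      (p.1 ^ 1 * Real.exp (-(c * p.1))) * (p.2 ^ 0 * Real.exp (-(c * p.2))) +
      (p.1 ^ 0 * Real.exp (-(c * p.1))) * (p.2 ^ 1 * Real.exp (-(c * p.2))) := by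
    intro p
    rw [prod_exp77]
    ring
  simp_rw [h3]
  rw [integral_add ((gs_mom77 hs hc 1).1.mul_prod (gs_mom77 hs hc 0).1)
    ((gs_mom77 hs hc 0).1.mul_prod (gs_mom77 hs hc 1).1), h1, h2, Real.rpow_sub_one hc.ne', two77 hc]
  ring

theorem gg_two {s : ℝ} (hs : 0 < s) {c : ℝ} (hc : 0 < c) :
    ∫ p : ℝ × ℝ, (p.1 + p.2) ^ 2 * Real.exp (-(c * (p.1 + p.2))) ∂((gs s).prod (gs s)) = 2 * s * (2 * s + 1) * c ^ (-(2 * s) - 2) := by
  have h1 := mom_prod77 hs hc 2 0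
  have h2 := mom_prod77 hs hc 0 2
  have h0 := mom_prod77 hs hc 1 1
  rw [m0_77 hs, m2_77 hs hc] at h1 h2
  rw [m1_77 hs hc] at h0
  have h3 : ∀ p : ℝ × ℝ, (p.1 + p.2) ^ 2 * Real.exp (-(c * (p.1 + p.2))) =
      ((p.1 ^ 2 * Real.exp (-(c * p.1))) * (p.2 ^ 0 * Real.exp (-(c * p.2))) +
      (p.1 ^ 0 * Real.exp (-(c * p.1))) * (p.2 ^ 2 * Real.exp (-(c * p.2)))) +
      2 * ((p.1 ^ 1 * Real.exp (-(c * p.1))) * (p.2 ^ 1 * Real.exp (-(c * p.2)))) := by
    intro p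
    rw [prod_exp77]
    ring
  have i1 := (gs_mom77 hs hc 2).1.mul_prod (gs_mom77 hs hc 0).1
  have i2 := (gs_mom77 hs hc 0).1.mul_prod (gs_mom77 hs hc 2).1
  have i3 := (gs_mom77 hs hc 1).1.mul_prod (gs_mom77 hs hc 1).1
  have i12 : Integrable (fun p : ℝ × ℝ => (p.1 ^ 2 * Real.exp (-(c * p.1))) * (p.2 ^ 0 * Real.exp (-(c * p.2))) +
      (p.1 ^ 0 * Real.exp (-(c * p.1))) * (p.2 ^ 2 * Real.exp (-(c * p.2)))) ((gs s).prod (gs s)) := i1.add i2
  simp_rw [h3]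
  rw [integral_add i12 (i3.const_mul 2), integral_add i1 i2, integral_const_mul, h1, h2, h0]
  have e : c ^ (-(2 * s) - 2) = c ^ (-s) * c ^ (-s) / c ^ 2 := by
    rw [Real.rpow_sub hc, two77 hc]
    congr 1
    exact Real.rpow_natCast _ 2
  rw [e]
  field_simp
  ring

private noncomputable def G77 (c : ℝ) (p : ℝ × ℝ) : ℝ := if p.2 ≤ p.1 then p.2 / p.1 * Real.exp (-(c * p.1)) else 0

private theorem G_meas77 (c : ℝ) : Measurable (G77 c) := by
  unfold G77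
  refine Measurable.ite (measurableSet_le measurable_snd measurable_fst) ?_ measurable_const
  fun_prop

private theorem pos_prod77 (s : ℝ) : ∀ᵐ p : ℝ × ℝ ∂((gs s).prod (gs s)), 0 < p.1 ∧ 0 < p.2 := by
  have h1 : ∀ᵐ p : ℝ × ℝ ∂((gs s).prod (gs s)), 0 < p.1 :=
    (Measure.quasiMeasurePreserving_fst (μ := gs s) (ν := gs s)).ae (gs_pos s)
  have h2 : ∀ᵐ p : ℝ × ℝ ∂((gs s).prod (gs s)), 0 < p.2 :=
    (Measure.quasiMeasurePreserving_snd (μ := gs s) (ν := gs s)).ae (gs_pos s)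
  filter_upwards [h1, h2] with p hp hp'
  exact ⟨hp, hp'⟩

private theorem G_int77 {s : ℝ} (hs : 0 < s) {c : ℝ} (hc : 0 < c) : Integrable (G77 c) ((gs s).prod (gs s)) := by
  have h1 := gg_int hs (half_pos hc) 0
  refine Integrable.mono' h1 (G_meas77 c).aestronglyMeasurable ?_
  filter_upwards [pos_prod77 s] with p hp
  unfold G77
  rw [pow_zero, one_mul]
  split_ifs with h
  · rw [norm_mul, Real.norm_of_nonneg (div_nonneg hp.2.le hp.1.le), Real.norm_of_nonneg (Real.exp_nonneg _)]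
    have h2 : p.2 / p.1 ≤ 1 := (div_le_one hp.1).2 h
    have h3 : Real.exp (-(c * p.1)) ≤ Real.exp (-(c / 2 * (p.1 + p.2))) := by
      refine Real.exp_le_exp.2 ?_
      nlinarith
    calc p.2 / p.1 * Real.exp (-(c * p.1)) ≤ 1 * Real.exp (-(c * p.1)) :=
          mul_le_mul_of_nonneg_right h2 (Real.exp_nonneg _)
      _ = Real.exp (-(c * p.1)) := one_mul _
      _ ≤ _ := h3
  · rw [norm_zero]
    exact Real.exp_nonneg _

private theorem inner77 {s : ℝ} (hs : 0 < s) (c : ℝ) {r : ℝ} (hr : 0 < r) :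
    ∫ r' : ℝ, G77 c (r, r') ∂(gs s) = r ^ s * Real.exp (-(c * r)) / ((s + 1) * Real.Gamma s) := by
  have hΓ := (Real.Gamma_pos_of_pos hs).ne'
  rw [int_gs77 hs]
  have h1 : ∀ r' : ℝ, r' ∈ Set.Ioi (0 : ℝ) → (r' ^ (s - 1) / Real.Gamma s) • G77 c (r, r') =
      (Set.Iic r).indicator (fun r' : ℝ => (Real.exp (-(c * r)) / (r * Real.Gamma s)) * r' ^ s) r' := by
    intro r' hr'
    have hr'' : (0 : ℝ) < r' := hr'
    unfold G77
    simp only
    by_cases h : r' ≤ r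
    · rw [if_pos h, Set.indicator_of_mem (by exact h), Real.rpow_sub_one hr''.ne', smul_eq_mul]
      field_simp
    · rw [if_neg h, Set.indicator_of_notMem (by exact h), smul_zero]
  rw [setIntegral_congr_fun measurableSet_Ioi h1, setIntegral_indicator measurableSet_Iic,
    Set.Ioi_inter_Iic, integral_const_mul, ← intervalIntegral.integral_of_le hr.le,
    integral_rpow (Or.inl (by linarith)), Real.zero_rpow (by linarith), sub_zero, Real.rpow_add_one hr.ne']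
  field_simp

private theorem G_val77 {s : ℝ} (hs : 0 < s) {c : ℝ} (hc : 0 < c) :
    ∫ p : ℝ × ℝ, G77 c p ∂((gs s).prod (gs s)) = c ^ (-(2 * s)) * Real.Gamma (2 * s) / ((s + 1) * Real.Gamma s ^ 2) := by
  have hΓ := (Real.Gamma_pos_of_pos hs).ne'
  rw [integral_prod _ (G_int77 hs hc), int_gs77 hs]
  have h1 : ∀ r : ℝ, r ∈ Set.Ioi (0 : ℝ) → (r ^ (s - 1) / Real.Gamma s) • ∫ r' : ℝ, G77 c (r, r') ∂(gs s) =
      (1 / ((s + 1) * Real.Gamma s ^ 2)) * (r ^ (2 * s - 1) * Real.exp (-(c * r))) := by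
    intro r hr
    have hr' : (0 : ℝ) < r := hr
    have e : 2 * s - 1 = (s - 1) + s := by ring
    rw [inner77 hs c hr', e, Real.rpow_add hr', smul_eq_mul]
    field_simp
  rw [setIntegral_congr_fun measurableSet_Ioi h1, integral_const_mul,
    Real.integral_rpow_mul_exp_neg_mul_Ioi (by linarith) hc, one_div c, Real.inv_rpow hc.le, Real.rpow_neg hc.le]
  field_simp

theorem gg_min {s : ℝ} (hs : 0 < s) {c : ℝ} (hc : 0 < c) :
    Integrable (fun p : ℝ × ℝ => ((p.1 + p.2) / max p.1 p.2 - 1) * Real.exp (-(c * (p.1 + p.2)))) ((gs s).prod (gs s)) ∧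
    ∫ p : ℝ × ℝ, ((p.1 + p.2) / max p.1 p.2 - 1) * Real.exp (-(c * (p.1 + p.2))) ∂((gs s).prod (gs s)) ≤ c ^ (-(2 * s)) * dl s := by
  have hbound : ∀ p : ℝ × ℝ, 0 < p.1 → 0 < p.2 → 0 ≤ (p.1 + p.2) / max p.1 p.2 - 1 ∧
      (p.1 + p.2) / max p.1 p.2 - 1 ≤ 1 := by
    intro p h1 h2
    have h3 : 0 < max p.1 p.2 := lt_max_of_lt_left h1
    constructor
    · rw [sub_nonneg, one_le_div h3]
      exact max_le (by linarith) (by linarith)
    · rw [sub_le_iff_le_add, div_le_iff₀ h3]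
      have h4 := le_max_left p.1 p.2
      have h5 := le_max_right p.1 p.2
      linarith
  have hint : Integrable (fun p : ℝ × ℝ => ((p.1 + p.2) / max p.1 p.2 - 1) * Real.exp (-(c * (p.1 + p.2))))
      ((gs s).prod (gs s)) := by
    refine Integrable.mono' (gg_int hs hc 0) (by fun_prop) ?_
    filter_upwards [pos_prod77 s] with p hp
    obtain ⟨h1, h2⟩ := hbound p hp.1 hp.2
    rw [norm_mul, Real.norm_of_nonneg h1, Real.norm_of_nonneg (Real.exp_nonneg _), pow_zero]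
    exact mul_le_mul_of_nonneg_right h2 (Real.exp_nonneg _)
  refine ⟨hint, ?_⟩
  have hG := G_int77 hs hc
  have hG' : Integrable (fun p : ℝ × ℝ => G77 c p.swap) ((gs s).prod (gs s)) := hG.swap
  have hle : ∫ p : ℝ × ℝ, ((p.1 + p.2) / max p.1 p.2 - 1) * Real.exp (-(c * (p.1 + p.2))) ∂((gs s).prod (gs s)) ≤
      ∫ p : ℝ × ℝ, (G77 c p + G77 c p.swap) ∂((gs s).prod (gs s)) := by
    refine integral_mono_ae hint (hG.add hG') ?_
    filter_upwards [pos_prod77 s] with p hp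
    have hGn : ∀ q : ℝ × ℝ, 0 < q.1 → 0 < q.2 → 0 ≤ G77 c q := by
      intro q h1 h2
      unfold G77
      split_ifs
      · positivity
      · exact le_rfl
    have hexp : ∀ x y : ℝ, 0 < y → Real.exp (-(c * (x + y))) ≤ Real.exp (-(c * x)) := by
      intro x y hy
      refine Real.exp_le_exp.2 ?_
      nlinarith
    have hkey : ∀ x y : ℝ, 0 < x → 0 < y → y ≤ x → (x + y) / x - 1 = y / x := by
      intro x y hx _ _
      field_simp
      ring
    rcases le_total p.2 p.1 with h | h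
    · rw [max_eq_left h, hkey p.1 p.2 hp.1 hp.2 h]
      have h1 : G77 c p = p.2 / p.1 * Real.exp (-(c * p.1)) := if_pos h
      have h2 := hGn p.swap hp.2 hp.1
      have h3 : p.2 / p.1 * Real.exp (-(c * (p.1 + p.2))) ≤ p.2 / p.1 * Real.exp (-(c * p.1)) :=
        mul_le_mul_of_nonneg_left (hexp p.1 p.2 hp.2) (div_nonneg hp.2.le hp.1.le)
      rw [h1]
      linarith
    · rw [max_eq_right h, add_comm p.1 p.2, hkey p.2 p.1 hp.2 hp.1 h]
      have h1 : G77 c p.swap = p.1 / p.2 * Real.exp (-(c * p.2)) := if_pos h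
      have h2 := hGn p hp.1 hp.2
      have h3 : p.1 / p.2 * Real.exp (-(c * (p.2 + p.1))) ≤ p.1 / p.2 * Real.exp (-(c * p.2)) :=
        mul_le_mul_of_nonneg_left (hexp p.2 p.1 hp.1) (div_nonneg hp.1.le hp.2.le)
      rw [h1]
      linarith
  refine hle.trans (le_of_eq ?_)
  rw [integral_add hG hG', integral_prod_swap, G_val77 hs hc]
  unfold dl
  ring

theorem dl_tendsto : Tendsto dl (𝓝[>] 0) (𝓝 0) := by
  have h1 : ContinuousAt (fun s : ℝ => s * Real.Gamma (2 * s + 1) / ((s + 1) * Real.Gamma (s + 1) ^ 2)) 0 := by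
    have hg : ContinuousAt Real.Gamma 1 := by
      refine (Real.differentiableAt_Gamma fun m => ?_).continuousAt
      have : (0 : ℝ) ≤ m := Nat.cast_nonneg m
      linarith
    have hg1 : ContinuousAt (fun s : ℝ => Real.Gamma (2 * s + 1)) 0 := by
      refine ContinuousAt.comp (f := fun s : ℝ => 2 * s + 1) (g := Real.Gamma) ?_ (by fun_prop)
      simpa using hg
    have hg2 : ContinuousAt (fun s : ℝ => Real.Gamma (s + 1)) 0 := by
      refine ContinuousAt.comp (f := fun s : ℝ => s + 1) (g := Real.Gamma) ?_ (by fun_prop)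
      simpa using hg
    refine ContinuousAt.div (by fun_prop) (by fun_prop) ?_
    simp
  have h2 : Tendsto (fun s : ℝ => s * Real.Gamma (2 * s + 1) / ((s + 1) * Real.Gamma (s + 1) ^ 2)) (𝓝[>] 0) (𝓝 0) := by
    have h3 := h1.tendsto.mono_left (nhdsWithin_le_nhds (s := Set.Ioi (0 : ℝ)))
    simpa using h3
  refine h2.congr' ?_
  filter_upwards [self_mem_nhdsWithin] with s hs
  have hs' : (0 : ℝ) < s := hs
  have hΓ := (Real.Gamma_pos_of_pos hs').ne'
  unfold dl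
  rw [Real.Gamma_add_one (by linarith : (0 : ℝ) < 2 * s).ne', Real.Gamma_add_one hs'.ne']
  field_simp

end Pool.Agent.Helper84.CH
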