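import Pool.Agent.Helper84.CH.U0
import Pool.Agent.Helper84.SPQ.P0

/-!
# Project CH, block UC: positive definite kernels

`Dk τ a x y = ½ (conj τ(x) + τ(y)) - ∑_k conj(a x k) a y k`. PROOFS. Tools: Schur product (`Matrix.PosSemidef.hadamard` if available, or the private lemmas of `SPQ/P0.lean`, `SPQ/U1.lean`, `NI/FS.lean` for kernels: rank one kernels `conj(f x) f y`, finite sums, products, exponentials, limits of positive semidefinite kernels). All kernels are on an arbitrary index type; positive semidefinite means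
(finite sums) as in Mathlib's `Matrix.PosSemidef` for infinite index types.
`psd_E`: `exp(-r Dk - r' conj Dk) = conj(f x) f y · exp(r ∑ conj(a x k) a y k) · exp(r' ∑ a x k conj(a y k))`, `f y = exp(-r τ(y)/2 - r' conj(τ(y))/2)`. `psd_L`: let `r ≥ r'`, `q = r conj(a) a'` for the coordinate `k` (`a = a x k`, `a' = a y k`). Then
`(1 - r ‖a - a'‖²) e^q = ∑_(n ≥ 0) conj(f_n x) f_n y`, where `f_0 x = √r conj(a)`... precisely: `(1 - r‖a - a'‖²) e^q = r a conj(a') + ∑_(n ≥ 1) (r^(n-1)/n!) conj(a)^(n-1) a'^(n-1) (n - r‖a‖²)(n - r‖a'‖²)`: indeed `1 - r‖a - a'‖² = 1 + q - r‖a‖² - r‖a'‖² + r a conj(a')`, `∑_(n≥1) n² q^(n-1)/n! = (1 + q) e^q`, `∑_(n≥1) n q^(n-1)/n! = e^q`,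
`r² ‖a‖² ‖a'‖² ∑_(n≥1) q^(n-1)/n! = r a conj(a') (e^q - 1)` (`r² ‖a‖²‖a'‖² = q r a conj(a')`). A convergent sum of rank one kernels, so positive semidefinite; multiply by the remaining factor of `Eu` (coordinates other than `k` with `r`, all with `r'`, and the rank one factor). For `r' ≥ r` exchange the roles (complex conjugate kernel).
`psd_int`: `∑ conj(c_x) c_y ∫ K = ∫ ∑ conj(c_x) c_y K ≥ 0`. `cD_WW`: with `q = w_i u = α + β j` (`α = ⟨q.re, q.imI⟩`, `β = ⟨q.imJ, q.imK⟩`), the complex part of `conj(q) q'` is `conj(α) α' + β conj(β')`; `star u * (star t + t') * u = star (star u * t * u) + star u * t' * u`. All in coordinates (`ext`, `simp`, `ring`).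
-/

set_option autoImplicit false

open MeasureTheory
open scoped ComplexOrder

namespace Pool.Agent.Helper84.CH

open Pool.Agent.Helper84.SPQ

/-- the complex Hermitian product in Siegel coordinates -/
noncomputable def Dk {X κ : Type} [Fintype κ] (τ : X → ℂ) (a : X → κ → ℂ) (x y : X) : ℂ :=
  ((starRingEnd ℂ) (τ x) + τ y) / 2 - ∑ k, (starRingEnd ℂ) (a x k) * a y k

section Psd

variable {X : Type}

private theorem rank26 (v : X → ℂ) : (Matrix.of fun x y => star (v x) * v y).PosSemidef := by
  refine ⟨?_, ?_⟩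
  · ext x y
    rw [Matrix.conjTranspose_apply, Matrix.of_apply, Matrix.of_apply, star_mul', star_star, mul_comm]
  · intro f
    have h1 : (f.sum fun i xi => f.sum fun j xj => star xi *
        (Matrix.of fun x y => star (v x) * v y) i j * xj) =
        star (f.sum fun i xi => v i * xi) * (f.sum fun i xi => v i * xi) := by
      unfold Finsupp.sum
      rw [star_sum, Finset.sum_mul_sum]
      refine Finset.sum_congr rfl fun i _ => Finset.sum_congr rfl fun j _ => ?_
      change star (f i) * (star (v i) * v j) * f j = star (v i * f i) * (v j * f j)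
      rw [star_mul']
      ring
    rw [h1]
    exact star_mul_self_nonneg _

private theorem zero26 : (Matrix.of fun (_ _ : X) => (0 : ℂ)).PosSemidef := by
  refine (congrArg Matrix.PosSemidef ?_).mp (rank26 (X := X) (fun _ => 0))
  ext x y
  simp

private theorem mul26 {A B : Matrix X X ℂ} (hA : A.PosSemidef) (hB : B.PosSemidef) :
    (Matrix.of fun x y => A x y * B x y).PosSemidef := hA.hadamard hB

private theorem smul26 {A : Matrix X X ℂ} (hA : A.PosSemidef) {c : ℝ} (hc : 0 ≤ c) :
    (Matrix.of fun x y => (c : ℂ) * A x y).PosSemidef := by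
  have h1 := rank26 (X := X) (fun _ => ((√c : ℝ) : ℂ))
  have h2 := mul26 h1 hA
  refine (congrArg Matrix.PosSemidef ?_).mp h2
  ext x y
  rw [Matrix.of_apply, Matrix.of_apply, Matrix.of_apply]
  congr 1
  have h3 : star ((√c : ℝ) : ℂ) = ((√c : ℝ) : ℂ) := Complex.conj_ofReal _
  rw [h3, ← Complex.ofReal_mul, Real.mul_self_sqrt hc]

private theorem add26 {A B : Matrix X X ℂ} (hA : A.PosSemidef) (hB : B.PosSemidef) :
    (Matrix.of fun x y => A x y + B x y).PosSemidef := hA.add hB

private theorem pow26 {A : Matrix X X ℂ} (hA : A.PosSemidef) (n : ℕ) :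
    (Matrix.of fun x y => A x y ^ n).PosSemidef := by
  induction n with
  | zero =>
    refine (congrArg Matrix.PosSemidef ?_).mp (rank26 (X := X) (fun _ => 1))
    ext x y
    simp
  | succ n ih =>
    refine (congrArg Matrix.PosSemidef ?_).mp (mul26 ih hA)
    ext x y
    rw [Matrix.of_apply, Matrix.of_apply, Matrix.of_apply, pow_succ]

private theorem fsum26 {ι : Type} {A : ι → Matrix X X ℂ} (s : Finset ι) (hA : ∀ k, (A k).PosSemidef) :
    (Matrix.of fun x y => ∑ k ∈ s, A k x y).PosSemidef := by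
  classical
  induction s using Finset.induction_on with
  | empty =>
    refine (congrArg Matrix.PosSemidef ?_).mp (zero26 (X := X))
    ext x y
    simp
  | insert a s ha ih =>
    refine (congrArg Matrix.PosSemidef ?_).mp (add26 (hA a) ih)
    ext x y
    rw [Matrix.of_apply, Matrix.of_apply, Matrix.of_apply, Finset.sum_insert ha]

private theorem exp26 {A : Matrix X X ℂ} (hA : A.PosSemidef) :
    (Matrix.of fun x y => Complex.exp (A x y)).PosSemidef := by
  have h1 : ∀ n : ℕ, (Matrix.of fun x y => (((n.factorial : ℝ)⁻¹ : ℝ) : ℂ) * A x y ^ n).PosSemidef :=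
    fun n => smul26 (pow26 hA n) (by positivity)
  refine Pool.Agent.Helper90.Fib.psd_lim (fun n => fsum26 (Finset.range n) h1) fun x y => ?_
  have h2 : HasSum (fun n : ℕ => (((n.factorial : ℝ)⁻¹ : ℝ) : ℂ) * A x y ^ n) (Complex.exp (A x y)) := by
    have h3 := NormedSpace.expSeries_div_hasSum_exp (𝔸 := ℂ) (A x y)
    rw [← Complex.exp_eq_exp_ℂ] at h3
    refine (congrArg (fun f => HasSum f (Complex.exp (A x y))) (funext fun n => ?_)).mp h3
    push_cast
    rw [div_eq_mul_inv, mul_comm]
  exact h2.tendsto_sum_nat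

end Psd

open Filter Topology in
private theorem lag_sum26 (q A B p : ℂ) (h : A * B = q * p) :
    HasSum (fun n : ℕ => q ^ n / ((n + 1).factorial : ℂ) * (((n : ℂ) + 1 - A) * ((n : ℂ) + 1 - B)))
      ((1 + q - A - B + p) * Complex.exp q - p) := by
  have h0 : HasSum (fun n : ℕ => q ^ n / (n.factorial : ℂ)) (Complex.exp q) := by
    have h3 := NormedSpace.expSeries_div_hasSum_exp (𝔸 := ℂ) q
    rwa [← Complex.exp_eq_exp_ℂ] at h3
  have hf : ∀ n : ℕ, (n.factorial : ℂ) ≠ 0 := fun n => by exact_mod_cast n.factorial_ne_zero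
  have hn : ∀ n : ℕ, ((n : ℂ) + 1) ≠ 0 := fun n => by exact_mod_cast n.succ_ne_zero
  have hfs : ∀ n : ℕ, ((n + 1).factorial : ℂ) = ((n : ℂ) + 1) * (n.factorial : ℂ) := fun n => by
    rw [Nat.factorial_succ]
    push_cast
    ring
  have h1 : HasSum (fun n : ℕ => (n : ℂ) * (q ^ n / (n.factorial : ℂ))) (q * Complex.exp q) := by
    have h2 : HasSum (fun n : ℕ => ((n + 1 : ℕ) : ℂ) * (q ^ (n + 1) / ((n + 1).factorial : ℂ)))
        (q * Complex.exp q) := by
      refine (h0.mul_left q).congr_fun fun n => ?_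
      rw [hfs]
      push_cast
      have := hf n
      have := hn n
      field_simp
      ring
    have h3 := (hasSum_nat_add_iff (f := fun n : ℕ => (n : ℂ) * (q ^ n / (n.factorial : ℂ))) 1).1 h2
    simpa using h3
  have h2 : HasSum (fun n : ℕ => q ^ (n + 1) / ((n + 1).factorial : ℂ)) (Complex.exp q - 1) := by
    have h3 := (hasSum_nat_add_iff' (f := fun n : ℕ => q ^ n / (n.factorial : ℂ)) 1).2 h0
    simpa using h3
  have h3 := ((h1.add h0).sub (h0.mul_left (A + B))).add (h2.mul_left p)
  have e1 : (1 + q - A - B + p) * Complex.exp q - p = q * Complex.exp q + Complex.exp q -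
      (A + B) * Complex.exp q + p * (Complex.exp q - 1) := by ring
  rw [e1]
  refine h3.congr_fun fun n => ?_
  rw [hfs]
  have := hf n
  have := hn n
  field_simp
  linear_combination (q ^ n) * h

private theorem lag26 {X : Type} (a : X → ℂ) {r : ℝ} (hr : 0 ≤ r) :
    (Matrix.of fun x y : X => ((1 - r * ‖a x - a y‖ ^ 2 : ℝ) : ℂ) *
      Complex.exp ((r : ℂ) * (star (a x) * a y))).PosSemidef := by
  have h1 : ∀ n : ℕ, (Matrix.of fun x y : X => ((r ^ n / ((n + 1).factorial : ℝ) : ℝ) : ℂ) *
      (Matrix.of fun x y : X => star (a x ^ n * ((n : ℂ) + 1 - r * (star (a x) * a x))) *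
        (a y ^ n * ((n : ℂ) + 1 - r * (star (a y) * a y)))) x y).PosSemidef :=
    fun n => smul26 (rank26 _) (by positivity)
  have h2 := smul26 (rank26 (fun x : X => star (a x))) hr
  have h3 : (Matrix.of fun x y : X => ((1 - r * ‖a x - a y‖ ^ 2 : ℝ) : ℂ) *
      Complex.exp ((r : ℂ) * (star (a x) * a y)) - (r : ℂ) * (a x * star (a y))).PosSemidef := by
    refine Pool.Agent.Helper90.Fib.psd_lim (fun n => fsum26 (Finset.range n) h1) fun x y => ?_
    have h4 := lag_sum26 (r * (star (a x) * a y)) (r * (star (a x) * a x)) (r * (star (a y) * a y))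
      (r * (a x * star (a y))) (by ring)
    have h5 : ((1 - r * ‖a x - a y‖ ^ 2 : ℝ) : ℂ) = 1 + r * (star (a x) * a y) - r * (star (a x) * a x) -
        r * (star (a y) * a y) + r * (a x * star (a y)) := by
      have h6 : ((‖a x - a y‖ ^ 2 : ℝ) : ℂ) = star (a x - a y) * (a x - a y) := by
        have := Complex.conj_mul' (a x - a y)
        push_cast
        exact this.symm
      push_cast at h6 ⊢
      rw [h6, star_sub]
      ring
    simp only [Matrix.of_apply]
    rw [h5]
    refine HasSum.tendsto_sum_nat (f := fun n : ℕ => ((r ^ n / ((n + 1).factorial : ℝ) : ℝ) : ℂ) *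
      (star (a x ^ n * ((n : ℂ) + 1 - r * (star (a x) * a x))) *
        (a y ^ n * ((n : ℂ) + 1 - r * (star (a y) * a y))))) ?_
    refine h4.congr_fun fun n => ?_
    rw [star_mul', star_pow, star_sub, star_add, star_one, star_mul', star_mul', star_star, star_natCast]
    have e : star (r : ℂ) = (r : ℂ) := Complex.conj_ofReal r
    rw [e]
    push_cast
    ring
  refine (congrArg Matrix.PosSemidef ?_).mp (add26 h3 h2)
  ext x y
  simp only [Matrix.of_apply]
  rw [star_star]
  ring

private theorem hpsd26 {X κ : Type} (s : Finset κ) (a : X → κ → ℂ) :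
    (Matrix.of fun x y : X => ∑ k ∈ s, star (a x k) * a y k).PosSemidef :=
  fsum26 (A := fun k => Matrix.of fun x y : X => star (a x k) * a y k) s fun _ => rank26 _

private theorem hpsd26' {X κ : Type} (s : Finset κ) (a : X → κ → ℂ) :
    (Matrix.of fun x y : X => ∑ k ∈ s, a x k * star (a y k)).PosSemidef := by
  refine (congrArg Matrix.PosSemidef ?_).mp (hpsd26 s fun x k => star (a x k))
  ext x y
  simp only [Matrix.of_apply, star_star]

private theorem expand26 {X κ : Type} [Fintype κ] (τ : X → ℂ) (a : X → κ → ℂ) (r r' : ℝ) (x y : X) :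
    -((r : ℂ) * Dk τ a x y + (r' : ℂ) * (starRingEnd ℂ) (Dk τ a x y)) =
      star (-(r * τ x + r' * star (τ x)) / 2) + (-(r * τ y + r' * star (τ y)) / 2) +
      (r * ∑ k, star (a x k) * a y k + r' * ∑ k, a x k * star (a y k)) := by
  have e : ∀ t : ℝ, star (t : ℂ) = (t : ℂ) := fun t => Complex.conj_ofReal t
  have e2 : star (2 : ℂ) = 2 := by
    have := e 2
    push_cast at this
    exact this
  have e3 : (starRingEnd ℂ) (Dk τ a x y) = (τ x + star (τ y)) / 2 - ∑ k, a x k * star (a y k) := by
    unfold Dk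
    rw [map_sub, map_div₀, map_add, map_sum, Complex.conj_conj]
    have e5 : (starRingEnd ℂ) 2 = 2 := e2
    rw [e5]
    congr 1
    refine Finset.sum_congr rfl fun k _ => ?_
    rw [map_mul, Complex.conj_conj]
    rfl
  have e4 : Dk τ a x y = (star (τ x) + τ y) / 2 - ∑ k, star (a x k) * a y k := rfl
  rw [e3, e4, star_div₀, star_neg, star_add, star_mul', star_mul', star_star, e, e, e2]
  ring

section

variable {X κ : Type} [Fintype κ] (τ : X → ℂ) (a : X → κ → ℂ)

theorem psd_E {r r' : ℝ} (hr : 0 ≤ r) (hr' : 0 ≤ r') :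
    (Matrix.of fun x y : X => Complex.exp (-((r : ℂ) * Dk τ a x y + (r' : ℂ) * (starRingEnd ℂ) (Dk τ a x y)))).PosSemidef := by
  have h1 := rank26 (fun x : X => Complex.exp (-(r * τ x + r' * star (τ x)) / 2))
  have h2 := exp26 (add26 (smul26 (hpsd26 Finset.univ a) hr) (smul26 (hpsd26' Finset.univ a) hr'))
  refine (congrArg Matrix.PosSemidef ?_).mp (mul26 h1 h2)
  ext x y
  simp only [Matrix.of_apply]
  have e : star (Complex.exp (-(r * τ x + r' * star (τ x)) / 2)) =
      Complex.exp (star (-(r * τ x + r' * star (τ x)) / 2)) := by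
    change (starRingEnd ℂ) _ = Complex.exp ((starRingEnd ℂ) _)
    rw [← Complex.exp_conj]
  rw [expand26, e]
  simp only [Complex.exp_add]

theorem psd_L {r r' : ℝ} (hr : 0 ≤ r) (hr' : 0 ≤ r') (k : κ) :
    (Matrix.of fun x y : X => ((1 - max r r' * ‖a x k - a y k‖ ^ 2 : ℝ) : ℂ) *
      Complex.exp (-((r : ℂ) * Dk τ a x y + (r' : ℂ) * (starRingEnd ℂ) (Dk τ a x y)))).PosSemidef := by
  classical
  have h1 := rank26 (fun x : X => Complex.exp (-(r * τ x + r' * star (τ x)) / 2))
  rcases le_total r' r with h | h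
  · rw [max_eq_left h]
    have h2 := exp26 (add26 (smul26 (hpsd26 (Finset.univ.erase k) a) hr) (smul26 (hpsd26' Finset.univ a) hr'))
    have h3 := lag26 (fun x => a x k) hr
    refine (congrArg Matrix.PosSemidef ?_).mp (mul26 h1 (mul26 h3 h2))
    ext x y
    simp only [Matrix.of_apply]
    rw [expand26, ← Finset.add_sum_erase Finset.univ (fun k => star (a x k) * a y k) (Finset.mem_univ k), mul_add]
    have e : star (Complex.exp (-(r * τ x + r' * star (τ x)) / 2)) =
        Complex.exp (star (-(r * τ x + r' * star (τ x)) / 2)) := by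
      change (starRingEnd ℂ) _ = Complex.exp ((starRingEnd ℂ) _)
      rw [← Complex.exp_conj]
    rw [e]
    simp only [Complex.exp_add]
    ring
  · rw [max_eq_right h]
    have h2 := exp26 (add26 (smul26 (hpsd26 Finset.univ a) hr) (smul26 (hpsd26' (Finset.univ.erase k) a) hr'))
    have h3 := lag26 (fun x => star (a x k)) hr'
    refine (congrArg Matrix.PosSemidef ?_).mp (mul26 h1 (mul26 h3 h2))
    ext x y
    simp only [Matrix.of_apply]
    rw [expand26, ← Finset.add_sum_erase Finset.univ (fun k => a x k * star (a y k)) (Finset.mem_univ k), mul_add,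
      ← star_sub, norm_star, star_star]
    have e : star (Complex.exp (-(r * τ x + r' * star (τ x)) / 2)) =
        Complex.exp (star (-(r * τ x + r' * star (τ x)) / 2)) := by
      change (starRingEnd ℂ) _ = Complex.exp ((starRingEnd ℂ) _)
      rw [← Complex.exp_conj]
    rw [e]
    simp only [Complex.exp_add]
    ring

end

theorem psd_int {X Ω : Type} [MeasurableSpace Ω] {μ : Measure Ω} {K : Ω → X → X → ℂ} (h : ∀ᵐ z ∂μ, (Matrix.of (K z)).PosSemidef)
    (hi : ∀ x y, Integrable (fun z => K z x y) μ) : (Matrix.of fun x y : X => ∫ z, K z x y ∂μ).PosSemidef := by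
  refine ⟨?_, fun v => ?_⟩
  · ext x y
    rw [Matrix.conjTranspose_apply, Matrix.of_apply, Matrix.of_apply]
    change (starRingEnd ℂ) _ = _
    rw [← integral_conj]
    refine integral_congr_ae ?_
    filter_upwards [h] with z hz
    exact hz.1.apply x y
  · have h1 : (v.sum fun i xi => v.sum fun j xj => star xi *
        (Matrix.of fun x y : X => ∫ z, K z x y ∂μ) i j * xj) =
        ∫ z, (v.sum fun i xi => v.sum fun j xj => star xi * K z i j * xj) ∂μ := by
      unfold Finsupp.sum
      rw [integral_finsetSum]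
      · refine Finset.sum_congr rfl fun i _ => ?_
        rw [integral_finsetSum]
        · refine Finset.sum_congr rfl fun j _ => ?_
          change star (v i) * (∫ z, K z i j ∂μ) * v j = ∫ z, star (v i) * K z i j * v j ∂μ
          rw [integral_mul_const, integral_const_mul]
        · intro j _
          exact ((hi i j).const_mul _).mul_const _
      · intro i _
        exact integrable_finsetSum _ fun j _ => ((hi i j).const_mul _).mul_const _
    rw [h1]
    refine integral_nonneg_of_ae ?_
    filter_upwards [h] with z hz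
    exact hz.2 v

theorem psd_rank {X : Type} {K : X → X → ℂ} (h : (Matrix.of K).PosSemidef) (f : X → ℝ) :
    (Matrix.of fun x y : X => ((f x * f y : ℝ) : ℂ) * K x y).PosSemidef := by
  have h1 := Pool.Agent.Helper90.Fib.psd_diag h f
  refine (congrArg Matrix.PosSemidef ?_).mp h1
  ext x y
  simp only [Matrix.of_apply]
  push_cast
  ring

/-- the complex coordinates of the quaternion `w_i u` -/
noncomputable def au {m : ℕ} (u : Hq) (x : SP m) (k : Fin m × Fin 2) : ℂ :=
  if k.2 = 0 then ⟨(x.1 k.1 * u).re, (x.1 k.1 * u).imI⟩ else ⟨(x.1 k.1 * u).imJ, -(x.1 k.1 * u).imK⟩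

/-- the complex part as a linear map -/
private noncomputable def cc26 : Hq →ₗ[ℝ] ℂ where
  toFun q := ⟨q.re, q.imI⟩
  map_add' p q := by
    apply Complex.ext <;> simp
  map_smul' c q := by
    apply Complex.ext <;> simp

private theorem cD_cc26 (u W : Hq) : cD u W = cc26 (star u * W * u) := rfl

private theorem cc_star26 (q : Hq) : cc26 (star q) = (starRingEnd ℂ) (cc26 q) := by
  apply Complex.ext <;> simp [cc26]

private theorem cc_mul26 (p q : Hq) : cc26 (star p * q) =
    (starRingEnd ℂ) (cc26 p) * cc26 q + (starRingEnd ℂ) (⟨p.imJ, -p.imK⟩ : ℂ) * ⟨q.imJ, -q.imK⟩ := by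
  apply Complex.ext
  · simp [cc26]
    ring
  · simp [cc26]
    ring

private theorem nsq26 (q : Hq) : ‖q‖ ^ 2 = q.re ^ 2 + q.imI ^ 2 + q.imJ ^ 2 + q.imK ^ 2 := by
  rw [← Quaternion.normSq_def', Quaternion.normSq_eq_norm_mul_self, sq]

private theorem re_sum26 {ι : Type} {s : Finset ι} (f : ι → Hq) : (∑ i ∈ s, f i).re = ∑ i ∈ s, (f i).re := by
  classical
  induction s using Finset.induction_on with
  | empty => rfl
  | insert a s ha ih => rw [Finset.sum_insert ha, Finset.sum_insert ha, Quaternion.re_add, ih]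

private theorem le_of_sq_le_sq26 {a b : ℝ} (hb : 0 ≤ b) (h : a ^ 2 ≤ b ^ 2) : a ≤ b :=
  le_of_sq_le_sq h hb

theorem cD_WW {m : ℕ} {u : Hq} (hu : ‖u‖ = 1) (x y : SP m) : cD u (WW x y) = Dk (fun x : SP m => cD u x.2) (au u) x y := by
  have _ := hu
  have hs : ∀ i, cc26 (star (x.1 i * u) * (y.1 i * u)) =
      (starRingEnd ℂ) (au u x (i, 0)) * au u y (i, 0) + (starRingEnd ℂ) (au u x (i, 1)) * au u y (i, 1) := by
    intro i
    rw [cc_mul26]
    simp [au, cc26]
  unfold Dk
  rw [cD_cc26, Fintype.sum_prod_type]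
  have h1 : star u * WW x y * u = (1 / 2 : ℝ) • (star (star u * x.2 * u) + star u * y.2 * u) -
      ∑ i, star (x.1 i * u) * (y.1 i * u) := by
    unfold WW
    rw [mul_sub, sub_mul, Finset.mul_sum, Finset.sum_mul, mul_smul_comm, smul_mul_assoc, mul_add, add_mul]
    congr 1
    · simp only [star_mul, star_star, mul_assoc]
    · refine Finset.sum_congr rfl fun i _ => ?_
      simp only [star_mul, mul_assoc]
  rw [h1, map_sub, map_sum]
  simp only [Fin.sum_univ_two]
  rw [Finset.sum_congr rfl fun i _ => hs i]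
  congr 1
  rw [map_smul, map_add, cc_star26, ← cD_cc26, ← cD_cc26, Complex.real_smul]
  push_cast
  ring

theorem au_sum {m : ℕ} {u : Hq} (hu : ‖u‖ = 1) (x y : SP m) : ∑ k, ‖au u x k - au u y k‖ ^ 2 = dS x y := by
  rw [Fintype.sum_prod_type]
  unfold dS
  refine Finset.sum_congr rfl fun i _ => ?_
  have h1 : ‖x.1 i - y.1 i‖ ^ 2 = ‖x.1 i * u - y.1 i * u‖ ^ 2 := by
    rw [← sub_mul, norm_mul, hu, mul_one]
  rw [h1, Fin.sum_univ_two, nsq26]
  simp only [au, ← Complex.normSq_eq_norm_sq, Complex.normSq_apply]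
  simp
  ring

theorem cD_re {u : Hq} (hu : ‖u‖ = 1) (W : Hq) : (cD u W).re = W.re ∧ ‖cD u W‖ ≤ ‖W‖ := by
  have h1 : Quaternion.normSq u = 1 := by
    rw [Quaternion.normSq_eq_norm_mul_self, hu, mul_one]
  rw [Quaternion.normSq_def'] at h1
  constructor
  · have h2 : (star u * W * u).re = (u.re ^ 2 + u.imI ^ 2 + u.imJ ^ 2 + u.imK ^ 2) * W.re := by
      simp
      ring
    change (star u * W * u).re = W.re
    rw [h2, h1, one_mul]
  · have h2 : ‖star u * W * u‖ = ‖W‖ := by
      rw [norm_mul, norm_mul, norm_star, hu, one_mul, mul_one]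
    rw [← h2]
    refine le_of_sq_le_sq26 (norm_nonneg _) ?_
    rw [nsq26, ← Complex.normSq_eq_norm_sq, Complex.normSq_apply]
    unfold cD
    nlinarith [sq_nonneg (star u * W * u).imJ, sq_nonneg (star u * W * u).imK]

theorem WW_re {m : ℕ} (x y : SP m) : (WW x y).re = hh x + hh y + dS x y / 2 := by
  unfold WW hh dS
  have h1 : ∀ i, ‖x.1 i - y.1 i‖ ^ 2 = ‖x.1 i‖ ^ 2 + ‖y.1 i‖ ^ 2 - 2 * (star (x.1 i) * y.1 i).re := by
    intro i
    rw [nsq26, nsq26, nsq26]
    simp
    ring
  rw [Finset.sum_congr rfl fun i _ => h1 i, Finset.sum_sub_distrib, Finset.sum_add_distrib, ← Finset.mul_sum]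
  have h2 : (∑ i, star (x.1 i) * y.1 i).re = ∑ i, (star (x.1 i) * y.1 i).re := re_sum26 _
  rw [Quaternion.re_sub, h2]
  simp only [Quaternion.re_smul, Quaternion.re_add, Quaternion.re_star, smul_eq_mul]
  ring

end Pool.Agent.Helper84.CH
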