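import Pool.Agent.Helper84.CH.UA
import Pool.Agent.Helper84.CH.UB
import Pool.Agent.Helper84.CH.UC

/-!
# Project CH, block UD: the two kernels: positivity, difference, continuity

`Eu_norm`: `‖Eu r r' u x y‖ = exp(-(r + r') Re WW)` (`cD_re`). `Eu_int`: `gg_int` with `c = Re (WW x y) > 0` (`WW_re`), finite measure `ν`; measurability from continuity of `cD` in `u`. `KP_psd`, `KN_psd`. PROOF. For fixed `z = (u, r, r')`, `r, r' > 0`, the kernel `Eu` is positive semidefinite (`psd_E`, `cD_WW`), and so are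
`(1 - 2s) Eu`, `½ (R h + 1)(R h' + 1) Eu`, `½ (R h - 1)(R h' - 1) Eu` (`psd_rank`), `(R/r̂) m Eu`, and `(2 m - r̂ dS) Eu = ∑_(k : Fin m × Fin 2) (1 - r̂ ‖au x k - au y k‖²) Eu` (`psd_L`, `au_sum`). `psd_int` (`gs_pos`: almost all `r, r'` are positive), `psd_rank` with `f x = (2 hh x)^s` (`(4 h h')^s = (2h)^s (2h')^s`).
`KP_sub`. PROOF. `cP - cN = (1 - 2s) + R (h + h') + ½ (R/r̂) r̂ dS = (1 - 2s) + R Re WW` (for `r̂ > 0`). Fubini (`Eu_int`): for fixed `u`, `D = cD u (WW x y)`: `gg_id`, `gg_lin`: `(1 - 2s) ‖D‖^(-2s) + Re W · 2 s Re D ‖D‖^(-2s-2)`, `Re D = Re W` (`cD_re`); then `mean_id`.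
Continuity: dominated convergence: near `(x0, y0)` in `Dom × Dom`: `Re WW ≥ c > 0`, the coefficients are bounded by `C (1 + R + R²)` (`(r + r')/max r r' ≤ 2`), `gg_int`.
-/

set_option autoImplicit false

open MeasureTheory
open scoped ComplexOrder

namespace Pool.Agent.Helper84.CH

open Pool.Agent.Helper84.SPQ

variable {m : ℕ}

theorem Eu_norm {u : Hq} (hu : ‖u‖ = 1) (r r' : ℝ) (x y : SP m) : ‖Eu r r' u x y‖ = Real.exp (-((r + r') * (WW x y).re)) := by
  unfold Eu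
  rw [Complex.norm_exp]
  congr 1
  rw [Complex.neg_re, Complex.add_re, Complex.re_ofReal_mul, Complex.re_ofReal_mul, Complex.conj_re,
    (cD_re hu (WW x y)).1]
  ring

private theorem cD_eq82 (u W : Hq) :
    cD u W = ((star u * W * u).re : ℂ) + ((star u * W * u).imI : ℂ) * Complex.I := by
  apply Complex.ext
  · simp [cD]
  · simp [cD]

private theorem cD_cont82 {X : Type*} [TopologicalSpace X] {f g : X → Hq} (hf : Continuous f) (hg : Continuous g) :
    Continuous fun x => cD (f x) (g x) := by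
  have h : (fun x => cD (f x) (g x)) = fun x => ((star (f x) * g x * f x).re : ℂ) +
      ((star (f x) * g x * f x).imI : ℂ) * Complex.I := funext fun x => cD_eq82 (f x) (g x)
  rw [h]
  have h0 : Continuous fun x => star (f x) := continuous_star.comp hf
  have h1 : Continuous fun x => star (f x) * g x * f x := (h0.mul hg).mul hf
  exact (Complex.continuous_ofReal.comp (Quaternion.continuous_re.comp h1)).add
    ((Complex.continuous_ofReal.comp (Quaternion.continuous_imI.comp h1)).mul continuous_const)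

private theorem WW_cont82 {X : Type*} [TopologicalSpace X] {f g : X → SP m} (hf : Continuous f) (hg : Continuous g) :
    Continuous fun x => WW (f x) (g x) := by
  unfold WW
  have h1 : Continuous fun x => (f x).2 := continuous_snd.comp hf
  have h2 : Continuous fun x => (g x).2 := continuous_snd.comp hg
  have h3 : ∀ i, Continuous fun x => (f x).1 i := fun i => (continuous_apply i).comp (continuous_fst.comp hf)
  have h4 : ∀ i, Continuous fun x => (g x).1 i := fun i => (continuous_apply i).comp (continuous_fst.comp hg)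
  have h5 : Continuous fun x => star (f x).2 + (g x).2 := (continuous_star.comp h1).add h2
  have h6 : Continuous fun x => ∑ i, star ((f x).1 i) * (g x).1 i :=
    continuous_finsetSum _ fun i _ => (continuous_star.comp (h3 i)).mul (h4 i)
  exact (h5.const_smul (1 / 2 : ℝ)).sub h6

private theorem hh_cont82 {X : Type*} [TopologicalSpace X] {f : X → SP m} (hf : Continuous f) :
    Continuous fun x => hh (f x) := by
  unfold hh
  have h1 : Continuous fun x => (f x).2.re := Quaternion.continuous_re.comp (continuous_snd.comp hf)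
  have h3 : ∀ i, Continuous fun x => (f x).1 i := fun i => (continuous_apply i).comp (continuous_fst.comp hf)
  have h6 : Continuous fun x => ∑ i, ‖(f x).1 i‖ ^ 2 := continuous_finsetSum _ fun i _ => (h3 i).norm.pow 2
  exact (h1.sub h6).div_const 2

private theorem dS_cont82 {X : Type*} [TopologicalSpace X] {f g : X → SP m} (hf : Continuous f) (hg : Continuous g) :
    Continuous fun x => dS (f x) (g x) := by
  unfold dS
  have h3 : ∀ i, Continuous fun x => (f x).1 i := fun i => (continuous_apply i).comp (continuous_fst.comp hf)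
  have h4 : ∀ i, Continuous fun x => (g x).1 i := fun i => (continuous_apply i).comp (continuous_fst.comp hg)
  exact continuous_finsetSum _ fun i _ => ((h3 i).sub (h4 i)).norm.pow 2

private theorem dS_nonneg82 (x y : SP m) : 0 ≤ dS x y := by
  unfold dS
  positivity

private theorem Eu_contz82 (x y : SP m) :
    Continuous fun z : U1 × (ℝ × ℝ) => Eu z.2.1 z.2.2 (z.1 : Hq) x y := by
  unfold Eu
  have h1 : Continuous fun z : U1 × (ℝ × ℝ) => cD (z.1 : Hq) (WW x y) :=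
    cD_cont82 (continuous_subtype_val.comp continuous_fst) continuous_const
  have h2 : Continuous fun z : U1 × (ℝ × ℝ) => (starRingEnd ℂ) (cD (z.1 : Hq) (WW x y)) :=
    Complex.continuous_conj.comp h1
  fun_prop

private theorem Eu_contp82 {X : Type*} [TopologicalSpace X] {f g : X → SP m} (hf : Continuous f) (hg : Continuous g)
    (r r' : ℝ) (u : Hq) : Continuous fun x => Eu r r' u (f x) (g x) := by
  unfold Eu
  have h1 : Continuous fun x => cD u (WW (f x) (g x)) := cD_cont82 continuous_const (WW_cont82 hf hg)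
  have h2 : Continuous fun x => (starRingEnd ℂ) (cD u (WW (f x) (g x))) := Complex.continuous_conj.comp h1
  exact Complex.continuous_exp.comp ((continuous_const.mul h1).add (continuous_const.mul h2)).neg

private theorem WW_pos82 {x y : SP m} (hx : 0 < hh x) (hy : 0 < hh y) : 0 < (WW x y).re := by
  rw [WW_re]
  have := dS_nonneg82 x y
  linarith

private theorem gint82 (ν : Measure U1) [IsProbabilityMeasure ν] {s : ℝ} (hs : 0 < s) {c : ℝ} (hc : 0 < c) (k : ℕ) :
    Integrable (fun z : U1 × (ℝ × ℝ) => (z.2.1 + z.2.2) ^ k * Real.exp (-(c * (z.2.1 + z.2.2))))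
      (ν.prod ((gs s).prod (gs s))) := by
  have h := (integrable_const (μ := ν) (1 : ℝ)).mul_prod (gg_int hs hc k)
  refine h.congr (Filter.Eventually.of_forall fun z => ?_)
  simp

theorem Eu_int (ν : Measure U1) [IsProbabilityMeasure ν] {s : ℝ} (hs : 0 < s) {x y : SP m} (hx : 0 < hh x) (hy : 0 < hh y) (k : ℕ) :
    Integrable (fun z : U1 × (ℝ × ℝ) => (((z.2.1 + z.2.2) ^ k : ℝ) : ℂ) * Eu z.2.1 z.2.2 (z.1 : Hq) x y) (ν.prod ((gs s).prod (gs s))) := by
  refine (gint82 ν hs (WW_pos82 hx hy) k).mono ?_ (Filter.Eventually.of_forall fun z => ?_)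
  · have h1 : Continuous fun z : U1 × (ℝ × ℝ) => (((z.2.1 + z.2.2) ^ k : ℝ) : ℂ) := by fun_prop
    exact (h1.mul (Eu_contz82 x y)).aestronglyMeasurable
  · rw [norm_mul, Complex.norm_real, norm_mul, Eu_norm (by simp), Real.norm_eq_abs (Real.exp _),
      abs_of_pos (Real.exp_pos _), mul_comm (WW x y).re]

private theorem ae_pos82 (ν : Measure U1) [IsProbabilityMeasure ν] (s : ℝ) :
    ∀ᵐ z : U1 × (ℝ × ℝ) ∂(ν.prod ((gs s).prod (gs s))), 0 < z.2.1 ∧ 0 < z.2.2 := by
  have h1 : ∀ᵐ p : ℝ × ℝ ∂((gs s).prod (gs s)), 0 < p.1 := Measure.quasiMeasurePreserving_fst.ae (gs_pos s)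
  have h2 : ∀ᵐ p : ℝ × ℝ ∂((gs s).prod (gs s)), 0 < p.2 := Measure.quasiMeasurePreserving_snd.ae (gs_pos s)
  exact Measure.quasiMeasurePreserving_snd.ae (h1.and h2)

/-- the bound for the coefficients -/
private def CC82 (m : ℕ) (s H : ℝ) : ℝ := |1 - 2 * s| + (H + 1) ^ 2 + 2 * m + H

private theorem rat82 {r r' : ℝ} (hr : 0 < r) (hr' : 0 < r') :
    0 < (r + r') / max r r' ∧ (r + r') / max r r' ≤ 2 ∧ (r + r') / max r r' * max r r' = r + r' := by
  have h0 : 0 < max r r' := lt_max_of_lt_left hr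
  refine ⟨by positivity, ?_, div_mul_cancel₀ _ h0.ne'⟩
  rw [div_le_iff₀ h0]
  linarith [le_max_left r r', le_max_right r r']

private theorem cP_bd82 {s r r' H : ℝ} {x y : SP m} (hr : 0 < r) (hr' : 0 < r') (hx : 0 < hh x) (hy : 0 < hh y)
    (hxH : hh x ≤ H) (hyH : hh y ≤ H) :
    |cP s r r' x y| ≤ CC82 m s H * (1 + (r + r') + (r + r') ^ 2) := by
  obtain ⟨q1, q2, q3⟩ := rat82 hr hr'
  unfold cP CC82
  set R := r + r' with hR
  have hR0 : 0 < R := by positivity
  set q := R / max r r' with hq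
  have hH : 0 < H := lt_of_lt_of_le hx hxH
  have h1 : 0 ≤ (R * hh x + 1) * (R * hh y + 1) := by positivity
  have h2 : (R * hh x + 1) * (R * hh y + 1) ≤ (R * H + 1) * (R * H + 1) :=
    mul_le_mul (by nlinarith) (by nlinarith) (by positivity) (by positivity)
  have h3 : (R * H + 1) * (R * H + 1) ≤ (H + 1) ^ 2 * (1 + R + R ^ 2) := by
    nlinarith [mul_pos hR0 hH, sq_nonneg H, sq_nonneg R, mul_nonneg (sq_nonneg R) hH.le, mul_nonneg hR0.le (sq_nonneg H)]
  have h4 : |(1 - 2 * s) + 1 / 2 * (R * hh x + 1) * (R * hh y + 1) + q * m| ≤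
      |1 - 2 * s| + |1 / 2 * (R * hh x + 1) * (R * hh y + 1)| + |q * m| :=
    (abs_add_le _ _).trans (add_le_add (abs_add_le _ _) le_rfl)
  have h5 : |1 / 2 * (R * hh x + 1) * (R * hh y + 1)| = 1 / 2 * ((R * hh x + 1) * (R * hh y + 1)) := by
    rw [mul_assoc, abs_of_nonneg (by positivity)]
  have h6 : |q * m| ≤ 2 * m := by
    rw [abs_of_nonneg (by positivity)]
    exact mul_le_mul_of_nonneg_right q2 (by positivity)
  rw [h5] at h4
  have h7 : 0 ≤ |1 - 2 * s| := abs_nonneg _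
  have h8 : 0 ≤ (m : ℝ) := by positivity
  have h9 : 0 ≤ R + R ^ 2 := by positivity
  have h10 : (|1 - 2 * s| + (H + 1) ^ 2 + 2 * m + H) * (1 + R + R ^ 2) =
      (|1 - 2 * s| + 2 * m + H) + (|1 - 2 * s| + 2 * m + H) * (R + R ^ 2) + (H + 1) ^ 2 * (1 + R + R ^ 2) := by ring
  rw [h10]
  have h11 : 0 ≤ (|1 - 2 * s| + 2 * m + H) * (R + R ^ 2) := by positivity
  linarith

private theorem cN_bd82 {r r' H : ℝ} (s : ℝ) {x y : SP m} (hr : 0 < r) (hr' : 0 < r') (hx : 0 < hh x) (hy : 0 < hh y)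
    (hxH : hh x ≤ H) (hyH : hh y ≤ H) (hd : dS x y ≤ H) :
    |cN r r' x y| ≤ CC82 m s H * (1 + (r + r') + (r + r') ^ 2) := by
  obtain ⟨q1, q2, q3⟩ := rat82 hr hr'
  have hd0 := dS_nonneg82 x y
  unfold cN CC82
  have e1 : 1 / 2 * ((r + r') / max r r') * (2 * m - max r r' * dS x y) =
      (r + r') / max r r' * m - 1 / 2 * ((r + r') * dS x y) := by
    have : 1 / 2 * ((r + r') / max r r') * (2 * m - max r r' * dS x y) =
      (r + r') / max r r' * m - 1 / 2 * ((r + r') / max r r' * max r r' * dS x y) := by ring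
    rw [this, q3]
  rw [e1]
  set R := r + r' with hR
  have hR0 : 0 < R := by positivity
  set q := R / max r r' with hq
  have hH : 0 < H := lt_of_lt_of_le hx hxH
  have a1 : |R * hh x - 1| ≤ R * H + 1 := by
    rw [abs_le]
    constructor <;> nlinarith
  have a2 : |R * hh y - 1| ≤ R * H + 1 := by
    rw [abs_le]
    constructor <;> nlinarith
  have h2 : |1 / 2 * (R * hh x - 1) * (R * hh y - 1)| ≤ 1 / 2 * ((R * H + 1) * (R * H + 1)) := by
    rw [mul_assoc, abs_mul, abs_mul, abs_of_pos (by norm_num : (0 : ℝ) < 1 / 2)]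
    exact mul_le_mul_of_nonneg_left (mul_le_mul a1 a2 (abs_nonneg _) (by positivity)) (by norm_num)
  have h3 : (R * H + 1) * (R * H + 1) ≤ (H + 1) ^ 2 * (1 + R + R ^ 2) := by
    nlinarith [mul_pos hR0 hH, sq_nonneg H, sq_nonneg R, mul_nonneg (sq_nonneg R) hH.le, mul_nonneg hR0.le (sq_nonneg H)]
  have h4 : |1 / 2 * (R * hh x - 1) * (R * hh y - 1) + (q * m - 1 / 2 * (R * dS x y))| ≤
      |1 / 2 * (R * hh x - 1) * (R * hh y - 1)| + (|q * m| + |1 / 2 * (R * dS x y)|) :=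
    (abs_add_le _ _).trans (add_le_add le_rfl (abs_sub _ _))
  have h6 : |q * m| ≤ 2 * m := by
    rw [abs_of_nonneg (by positivity)]
    exact mul_le_mul_of_nonneg_right q2 (by positivity)
  have h5 : |1 / 2 * (R * dS x y)| ≤ 1 / 2 * (R * H) := by
    rw [abs_of_nonneg (by positivity)]
    exact mul_le_mul_of_nonneg_left (mul_le_mul_of_nonneg_left hd hR0.le) (by norm_num)
  have h7 : 0 ≤ |1 - 2 * s| := abs_nonneg _
  have h8 : 0 ≤ (m : ℝ) := by positivity
  have h10 : (|1 - 2 * s| + (H + 1) ^ 2 + 2 * m + H) * (1 + R + R ^ 2) =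
      2 * m + H * R + (|1 - 2 * s| * (1 + R + R ^ 2) + 2 * m * (R + R ^ 2) + H * (1 + R ^ 2)) +
        (H + 1) ^ 2 * (1 + R + R ^ 2) := by ring
  rw [h10]
  have h11 : 0 ≤ |1 - 2 * s| * (1 + R + R ^ 2) + 2 * m * (R + R ^ 2) + H * (1 + R ^ 2) := by positivity
  have h12 : 0 ≤ R * H := by positivity
  have h13 : 0 ≤ (H + 1) ^ 2 * (1 + R + R ^ 2) := by positivity
  linarith

private theorem bdi82 (ν : Measure U1) [IsProbabilityMeasure ν] {s : ℝ} (hs : 0 < s) {c : ℝ} (hc : 0 < c) (C : ℝ) :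
    Integrable (fun z : U1 × (ℝ × ℝ) => C * (1 + (z.2.1 + z.2.2) + (z.2.1 + z.2.2) ^ 2) *
      Real.exp (-(c * (z.2.1 + z.2.2)))) (ν.prod ((gs s).prod (gs s))) := by
  have h := (((gint82 ν hs hc 0).add (gint82 ν hs hc 1)).add (gint82 ν hs hc 2)).const_mul C
  refine h.congr (Filter.Eventually.of_forall fun z => ?_)
  simp only [Pi.add_apply, pow_zero, pow_one]
  ring

private theorem coef_int82 (ν : Measure U1) [IsProbabilityMeasure ν] {s : ℝ} (hs : 0 < s) {x y : SP m} (hx : 0 < hh x)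
    (hy : 0 < hh y) {c : ℝ × ℝ → ℝ} (hc : Measurable c) {C : ℝ}
    (hb : ∀ p : ℝ × ℝ, 0 < p.1 → 0 < p.2 → |c p| ≤ C * (1 + (p.1 + p.2) + (p.1 + p.2) ^ 2)) :
    Integrable (fun z : U1 × (ℝ × ℝ) => ((c z.2 : ℝ) : ℂ) * Eu z.2.1 z.2.2 (z.1 : Hq) x y)
      (ν.prod ((gs s).prod (gs s))) := by
  refine (bdi82 ν hs (WW_pos82 hx hy) C).mono' ?_ ?_
  · exact (Complex.measurable_ofReal.comp (hc.comp measurable_snd)).aestronglyMeasurable.mul
      (Eu_contz82 x y).aestronglyMeasurable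
  · filter_upwards [ae_pos82 ν s] with z hz
    rw [norm_mul, Complex.norm_real, Eu_norm (by simp), Real.norm_eq_abs, mul_comm (WW x y).re]
    exact mul_le_mul_of_nonneg_right (hb z.2 hz.1 hz.2) (Real.exp_pos _).le

private theorem cP_meas82 (s : ℝ) (x y : SP m) : Measurable fun p : ℝ × ℝ => cP s p.1 p.2 x y := by
  unfold cP
  fun_prop

private theorem cN_meas82 (x y : SP m) : Measurable fun p : ℝ × ℝ => cN p.1 p.2 x y := by
  unfold cN
  fun_prop

private theorem cP_int82 (ν : Measure U1) [IsProbabilityMeasure ν] {s : ℝ} (hs : 0 < s) {x y : SP m} (hx : 0 < hh x)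
    (hy : 0 < hh y) : Integrable (fun z : U1 × (ℝ × ℝ) => ((cP s z.2.1 z.2.2 x y : ℝ) : ℂ) *
      Eu z.2.1 z.2.2 (z.1 : Hq) x y) (ν.prod ((gs s).prod (gs s))) :=
  coef_int82 ν hs hx hy (cP_meas82 s x y) (C := CC82 m s (hh x + hh y)) fun p h1 h2 =>
    cP_bd82 h1 h2 hx hy (by linarith) (by linarith)

private theorem cN_int82 (ν : Measure U1) [IsProbabilityMeasure ν] {s : ℝ} (hs : 0 < s) {x y : SP m} (hx : 0 < hh x)
    (hy : 0 < hh y) : Integrable (fun z : U1 × (ℝ × ℝ) => ((cN z.2.1 z.2.2 x y : ℝ) : ℂ) *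
      Eu z.2.1 z.2.2 (z.1 : Hq) x y) (ν.prod ((gs s).prod (gs s))) := by
  have hd := dS_nonneg82 x y
  exact coef_int82 ν hs hx hy (cN_meas82 x y) (C := CC82 m s (hh x + hh y + dS x y)) fun p h1 h2 =>
    cN_bd82 s h1 h2 hx hy (by linarith) (by linarith) (by linarith)

/-! ### positivity -/

private theorem E_psd82 {r r' : ℝ} (hr : 0 ≤ r) (hr' : 0 ≤ r') {u : Hq} (hu : ‖u‖ = 1) :
    (Matrix.of fun x y : Dom m => Eu r r' u (x : SP m) (y : SP m)).PosSemidef := by
  have h := psd_E (X := Dom m) (fun x => cD u (x : SP m).2) (fun x => au u (x : SP m)) hr hr'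
  have e : (Matrix.of fun x y : Dom m => Eu r r' u (x : SP m) (y : SP m)) = Matrix.of fun x y : Dom m =>
      Complex.exp (-((r : ℂ) * Dk (fun x : Dom m => cD u (x : SP m).2) (fun x => au u (x : SP m)) x y +
        (r' : ℂ) * (starRingEnd ℂ) (Dk (fun x : Dom m => cD u (x : SP m).2) (fun x => au u (x : SP m)) x y))) := by
    ext x y
    show Eu r r' u (x : SP m) (y : SP m) = _
    unfold Eu
    rw [cD_WW hu]
    rfl
  rw [e]
  exact h

private theorem L_psd82 {r r' : ℝ} (hr : 0 ≤ r) (hr' : 0 ≤ r') {u : Hq} (hu : ‖u‖ = 1) :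
    (Matrix.of fun x y : Dom m => ((2 * m - max r r' * dS (x : SP m) (y : SP m) : ℝ) : ℂ) *
      Eu r r' u (x : SP m) (y : SP m)).PosSemidef := by
  have h := fun k => psd_L (X := Dom m) (fun x => cD u (x : SP m).2) (fun x => au u (x : SP m)) hr hr' k
  have e : (Matrix.of fun x y : Dom m => ((2 * m - max r r' * dS (x : SP m) (y : SP m) : ℝ) : ℂ) *
      Eu r r' u (x : SP m) (y : SP m)) = ∑ k : Fin m × Fin 2, Matrix.of fun x y : Dom m =>
      ((1 - max r r' * ‖au u (x : SP m) k - au u (y : SP m) k‖ ^ 2 : ℝ) : ℂ) *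
      Complex.exp (-((r : ℂ) * Dk (fun x : Dom m => cD u (x : SP m).2) (fun x => au u (x : SP m)) x y +
        (r' : ℂ) * (starRingEnd ℂ) (Dk (fun x : Dom m => cD u (x : SP m).2) (fun x => au u (x : SP m)) x y))) := by
    ext x y
    rw [Matrix.sum_apply]
    simp only [Matrix.of_apply]
    rw [← Finset.sum_mul, ← Complex.ofReal_sum, Finset.sum_sub_distrib, ← Finset.mul_sum, au_sum hu]
    have h1 : ∑ _k : Fin m × Fin 2, (1 : ℝ) = 2 * m := by
      rw [Finset.sum_const, Finset.card_univ, Fintype.card_prod, Fintype.card_fin, Fintype.card_fin, nsmul_eq_mul]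
      push_cast
      ring
    rw [h1]
    congr 1
    unfold Eu
    rw [cD_WW hu]
    rfl
  rw [e]
  exact Matrix.posSemidef_sum _ fun k _ => h k

private theorem cst82 {X : Type} {K : X → X → ℂ} (h : (Matrix.of K).PosSemidef) {c : ℝ} (hc : 0 ≤ c) :
    (Matrix.of fun x y : X => (c : ℂ) * K x y).PosSemidef := by
  have h1 := psd_rank h (fun _ => Real.sqrt c)
  simp only [Real.mul_self_sqrt hc] at h1
  exact h1

private theorem add82 {X : Type} {K L : X → X → ℂ} (h : (Matrix.of K).PosSemidef) (h' : (Matrix.of L).PosSemidef) :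
    (Matrix.of fun x y : X => K x y + L x y).PosSemidef := h.add h'

private theorem outer82 {K : Dom m → Dom m → ℂ} (h : (Matrix.of K).PosSemidef) (s : ℝ) :
    (Matrix.of fun x y : Dom m => (((4 * hh (x : SP m) * hh (y : SP m)) ^ s : ℝ) : ℂ) * K x y).PosSemidef := by
  have h1 := psd_rank h (fun x : Dom m => (2 * hh (x : SP m)) ^ s)
  have e : (Matrix.of fun x y : Dom m => (((4 * hh (x : SP m) * hh (y : SP m)) ^ s : ℝ) : ℂ) * K x y) =
      Matrix.of fun x y : Dom m => (((2 * hh (x : SP m)) ^ s * (2 * hh (y : SP m)) ^ s : ℝ) : ℂ) * K x y := by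
    ext x y
    simp only [Matrix.of_apply]
    rw [← Real.mul_rpow (by linarith [x.2]) (by linarith [y.2])]
    congr 3
    ring
  rw [e]
  exact h1

theorem KP_psd (ν : Measure U1) [IsProbabilityMeasure ν] {s : ℝ} (hs : 0 < s) (hs' : s < 1 / 2) :
    (Matrix.of fun x y : Dom m => KP ν s (x : SP m) (y : SP m)).PosSemidef := by
  have h := psd_int (X := Dom m) (μ := ν.prod ((gs s).prod (gs s)))
    (K := fun z x y => ((cP s z.2.1 z.2.2 (x : SP m) (y : SP m) : ℝ) : ℂ) * Eu z.2.1 z.2.2 (z.1 : Hq) (x : SP m) (y : SP m))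
    ?_ (fun x y => cP_int82 ν hs x.2 y.2)
  · exact outer82 h s
  · filter_upwards [ae_pos82 ν s] with z hz
    obtain ⟨h1, h2⟩ := hz
    obtain ⟨q1, q2, q3⟩ := rat82 h1 h2
    have hu : ‖(z.1 : Hq)‖ = 1 := by simp
    have hE := E_psd82 (m := m) h1.le h2.le hu
    have k1 := cst82 hE (c := 1 - 2 * s) (by linarith)
    have k2 := cst82 (psd_rank hE (fun x : Dom m => (z.2.1 + z.2.2) * hh (x : SP m) + 1)) (c := 1 / 2) (by norm_num)
    have k3 := cst82 hE (c := (z.2.1 + z.2.2) / max z.2.1 z.2.2 * m) (by positivity)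
    have k4 := add82 (add82 k1 k2) k3
    have e : (Matrix.of fun x y : Dom m => ((cP s z.2.1 z.2.2 (x : SP m) (y : SP m) : ℝ) : ℂ) *
        Eu z.2.1 z.2.2 (z.1 : Hq) (x : SP m) (y : SP m)) = Matrix.of fun x y : Dom m =>
          ((1 - 2 * s : ℝ) : ℂ) * Eu z.2.1 z.2.2 (z.1 : Hq) (x : SP m) (y : SP m) +
          ((1 / 2 : ℝ) : ℂ) * (((((z.2.1 + z.2.2) * hh (x : SP m) + 1) * ((z.2.1 + z.2.2) * hh (y : SP m) + 1) : ℝ) : ℂ) *
            Eu z.2.1 z.2.2 (z.1 : Hq) (x : SP m) (y : SP m)) +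
          (((z.2.1 + z.2.2) / max z.2.1 z.2.2 * m : ℝ) : ℂ) * Eu z.2.1 z.2.2 (z.1 : Hq) (x : SP m) (y : SP m) := by
      ext x y
      simp only [Matrix.of_apply]
      unfold cP
      push_cast
      ring
    rw [e]
    exact k4

theorem KN_psd (ν : Measure U1) [IsProbabilityMeasure ν] {s : ℝ} (hs : 0 < s) :
    (Matrix.of fun x y : Dom m => KN ν s (x : SP m) (y : SP m)).PosSemidef := by
  have h := psd_int (X := Dom m) (μ := ν.prod ((gs s).prod (gs s)))
    (K := fun z x y => ((cN z.2.1 z.2.2 (x : SP m) (y : SP m) : ℝ) : ℂ) * Eu z.2.1 z.2.2 (z.1 : Hq) (x : SP m) (y : SP m))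
    ?_ (fun x y => cN_int82 ν hs x.2 y.2)
  · exact outer82 h s
  · filter_upwards [ae_pos82 ν s] with z hz
    obtain ⟨h1, h2⟩ := hz
    obtain ⟨q1, q2, q3⟩ := rat82 h1 h2
    have hu : ‖(z.1 : Hq)‖ = 1 := by simp
    have hE := E_psd82 (m := m) h1.le h2.le hu
    have k2 := cst82 (psd_rank hE (fun x : Dom m => (z.2.1 + z.2.2) * hh (x : SP m) - 1)) (c := 1 / 2) (by norm_num)
    have k3 := cst82 (L_psd82 (m := m) h1.le h2.le hu) (c := 1 / 2 * ((z.2.1 + z.2.2) / max z.2.1 z.2.2)) (by positivity)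
    have k4 := add82 k2 k3
    have e : (Matrix.of fun x y : Dom m => ((cN z.2.1 z.2.2 (x : SP m) (y : SP m) : ℝ) : ℂ) *
        Eu z.2.1 z.2.2 (z.1 : Hq) (x : SP m) (y : SP m)) = Matrix.of fun x y : Dom m =>
          ((1 / 2 : ℝ) : ℂ) * (((((z.2.1 + z.2.2) * hh (x : SP m) - 1) * ((z.2.1 + z.2.2) * hh (y : SP m) - 1) : ℝ) : ℂ) *
            Eu z.2.1 z.2.2 (z.1 : Hq) (x : SP m) (y : SP m)) +
          ((1 / 2 * ((z.2.1 + z.2.2) / max z.2.1 z.2.2) : ℝ) : ℂ) *
            (((2 * m - max z.2.1 z.2.2 * dS (x : SP m) (y : SP m) : ℝ) : ℂ) *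
              Eu z.2.1 z.2.2 (z.1 : Hq) (x : SP m) (y : SP m)) := by
      ext x y
      simp only [Matrix.of_apply]
      unfold cN
      push_cast
      ring
    rw [e]
    exact k4

theorem KP_sub (ν : Measure U1) [IsProbabilityMeasure ν] [ν.IsMulLeftInvariant] {s : ℝ} (hs : 0 < s) {x y : SP m} (hx : 0 < hh x)
    (hy : 0 < hh y) : KP ν s x y - KN ν s x y = ((phi s x y : ℝ) : ℂ) := by
  have hW := WW_pos82 hx hy
  unfold KP KN
  rw [← mul_sub, ← integral_sub (cP_int82 ν hs hx hy) (cN_int82 ν hs hx hy)]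
  have e1 : ∫ z : U1 × (ℝ × ℝ), (((cP s z.2.1 z.2.2 x y : ℝ) : ℂ) * Eu z.2.1 z.2.2 (z.1 : Hq) x y -
      ((cN z.2.1 z.2.2 x y : ℝ) : ℂ) * Eu z.2.1 z.2.2 (z.1 : Hq) x y) ∂(ν.prod ((gs s).prod (gs s))) =
      ∫ z : U1 × (ℝ × ℝ), (((1 - 2 * s : ℝ) : ℂ) * ((((z.2.1 + z.2.2) ^ 0 : ℝ) : ℂ) * Eu z.2.1 z.2.2 (z.1 : Hq) x y) +
        (((WW x y).re : ℝ) : ℂ) * ((((z.2.1 + z.2.2) ^ 1 : ℝ) : ℂ) * Eu z.2.1 z.2.2 (z.1 : Hq) x y))
          ∂(ν.prod ((gs s).prod (gs s))) := by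
    refine integral_congr_ae ?_
    filter_upwards [ae_pos82 ν s] with z hz
    obtain ⟨q1, q2, q3⟩ := rat82 hz.1 hz.2
    rw [← sub_mul, ← Complex.ofReal_sub]
    have e2 : cP s z.2.1 z.2.2 x y - cN z.2.1 z.2.2 x y = (1 - 2 * s) + (WW x y).re * (z.2.1 + z.2.2) := by
      rw [WW_re]
      unfold cP cN
      have e3 : 1 / 2 * ((z.2.1 + z.2.2) / max z.2.1 z.2.2) * (2 * m - max z.2.1 z.2.2 * dS x y) =
          (z.2.1 + z.2.2) / max z.2.1 z.2.2 * m -
            1 / 2 * ((z.2.1 + z.2.2) / max z.2.1 z.2.2 * max z.2.1 z.2.2 * dS x y) := by ring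
      rw [e3, q3]
      ring
    rw [e2]
    push_cast
    ring
  rw [e1]
  have i0 := (Eu_int ν hs hx hy 0).const_mul (((1 - 2 * s : ℝ) : ℂ))
  have i1 := (Eu_int ν hs hx hy 1).const_mul ((((WW x y).re : ℝ) : ℂ))
  have i2 : Integrable (fun z : U1 × (ℝ × ℝ) => (((1 - 2 * s : ℝ) : ℂ) *
      ((((z.2.1 + z.2.2) ^ 0 : ℝ) : ℂ) * Eu z.2.1 z.2.2 (z.1 : Hq) x y) +
        (((WW x y).re : ℝ) : ℂ) * ((((z.2.1 + z.2.2) ^ 1 : ℝ) : ℂ) * Eu z.2.1 z.2.2 (z.1 : Hq) x y)))
      (ν.prod ((gs s).prod (gs s))) := i0.add i1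
  rw [integral_prod _ i2]
  have e4 : ∀ u : U1, ∫ p : ℝ × ℝ, (((1 - 2 * s : ℝ) : ℂ) * ((((p.1 + p.2) ^ 0 : ℝ) : ℂ) * Eu p.1 p.2 (u : Hq) x y) +
        (((WW x y).re : ℝ) : ℂ) * ((((p.1 + p.2) ^ 1 : ℝ) : ℂ) * Eu p.1 p.2 (u : Hq) x y)) ∂((gs s).prod (gs s)) =
      (((1 - 2 * s) * ‖cD (u : Hq) (WW x y)‖ ^ (-(2 * s)) +
        2 * s * (WW x y).re ^ 2 * ‖cD (u : Hq) (WW x y)‖ ^ (-(2 * s) - 2) : ℝ) : ℂ) := by
    intro u
    have hu : ‖(u : Hq)‖ = 1 := by simp
    have hre := (cD_re hu (WW x y)).1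
    have hD : 0 < (cD (u : Hq) (WW x y)).re := by rw [hre]; exact hW
    have j : ∀ k : ℕ, Integrable (fun p : ℝ × ℝ => (((p.1 + p.2) ^ k : ℝ) : ℂ) * Eu p.1 p.2 (u : Hq) x y)
        ((gs s).prod (gs s)) := by
      intro k
      refine (gg_int hs hW k).mono ?_ (Filter.Eventually.of_forall fun p => ?_)
      · have c1 : Continuous fun p : ℝ × ℝ => (((p.1 + p.2) ^ k : ℝ) : ℂ) := by fun_prop
        have c2 : Continuous fun p : ℝ × ℝ => Eu p.1 p.2 (u : Hq) x y :=
          (Eu_contz82 x y).comp (continuous_const.prodMk continuous_id)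
        exact (c1.mul c2).aestronglyMeasurable
      · rw [norm_mul, Complex.norm_real, norm_mul, Eu_norm hu, Real.norm_eq_abs (Real.exp _),
          abs_of_pos (Real.exp_pos _), mul_comm (WW x y).re]
    rw [integral_add ((j 0).const_mul _) ((j 1).const_mul _), integral_const_mul, integral_const_mul]
    have g0 := gg_id hs hD
    have g1 := gg_lin hs hD
    have f0 : ∫ p : ℝ × ℝ, (((p.1 + p.2) ^ 0 : ℝ) : ℂ) * Eu p.1 p.2 (u : Hq) x y ∂((gs s).prod (gs s)) =
        ((‖cD (u : Hq) (WW x y)‖ ^ (-(2 * s)) : ℝ) : ℂ) := by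
      rw [← g0]
      refine integral_congr_ae (Filter.Eventually.of_forall fun p => ?_)
      simp only [pow_zero, Complex.ofReal_one, one_mul]
      rfl
    have f1 : ∫ p : ℝ × ℝ, (((p.1 + p.2) ^ 1 : ℝ) : ℂ) * Eu p.1 p.2 (u : Hq) x y ∂((gs s).prod (gs s)) =
        ((2 * s * (cD (u : Hq) (WW x y)).re * ‖cD (u : Hq) (WW x y)‖ ^ (-(2 * s) - 2) : ℝ) : ℂ) := by
      rw [← g1]
      refine integral_congr_ae (Filter.Eventually.of_forall fun p => ?_)
      simp only [pow_one]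
      rfl
    rw [f0, f1, hre]
    push_cast
    ring
  simp only [e4]
  have e5 : ∫ u : U1, (((1 - 2 * s) * ‖cD (u : Hq) (WW x y)‖ ^ (-(2 * s)) +
      2 * s * (WW x y).re ^ 2 * ‖cD (u : Hq) (WW x y)‖ ^ (-(2 * s) - 2) : ℝ) : ℂ) ∂ν =
      ((∫ u : U1, ((1 - 2 * s) * ‖cD (u : Hq) (WW x y)‖ ^ (-(2 * s)) +
      2 * s * (WW x y).re ^ 2 * ‖cD (u : Hq) (WW x y)‖ ^ (-(2 * s) - 2)) ∂ν : ℝ) : ℂ) := integral_complex_ofReal
  refine (congrArg (fun t : ℂ => (((4 * hh x * hh y) ^ s : ℝ) : ℂ) * t) e5).trans ?_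
  rw [mean_id ν hs hW]
  unfold phi
  push_cast
  ring

private theorem dom_cont82 (ν : Measure U1) [IsProbabilityMeasure ν] {s : ℝ} (hs : 0 < s)
    (c : ℝ × ℝ → SP m → SP m → ℝ) (hm : ∀ x y, Measurable fun p => c p x y)
    (hc : ∀ p, Continuous fun q : SP m × SP m => c p q.1 q.2)
    (hb : ∀ (H : ℝ) (p : ℝ × ℝ) (x y : SP m), 0 < p.1 → 0 < p.2 → 0 < hh x → 0 < hh y → hh x ≤ H → hh y ≤ H →
      dS x y ≤ H → |c p x y| ≤ CC82 m s H * (1 + (p.1 + p.2) + (p.1 + p.2) ^ 2)) :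
    Continuous fun p : Dom m × Dom m => (((4 * hh (p.1 : SP m) * hh (p.2 : SP m)) ^ s : ℝ) : ℂ) *
      ∫ z : U1 × (ℝ × ℝ), ((c z.2 (p.1 : SP m) (p.2 : SP m) : ℝ) : ℂ) * Eu z.2.1 z.2.2 (z.1 : Hq) (p.1 : SP m) (p.2 : SP m)
        ∂(ν.prod ((gs s).prod (gs s))) := by
  have v1 : Continuous fun p : Dom m × Dom m => (p.1 : SP m) := continuous_subtype_val.comp continuous_fst
  have v2 : Continuous fun p : Dom m × Dom m => (p.2 : SP m) := continuous_subtype_val.comp continuous_snd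
  have hv : Continuous fun p : Dom m × Dom m => ((p.1 : SP m), (p.2 : SP m)) := v1.prodMk v2
  have h1 : Continuous fun p : Dom m × Dom m => hh (p.1 : SP m) := hh_cont82 v1
  have h2 : Continuous fun p : Dom m × Dom m => hh (p.2 : SP m) := hh_cont82 v2
  have h3 : Continuous fun p : Dom m × Dom m => dS (p.1 : SP m) (p.2 : SP m) := dS_cont82 v1 v2
  have h4 : Continuous fun p : Dom m × Dom m => (WW (p.1 : SP m) (p.2 : SP m)).re :=
    Quaternion.continuous_re.comp (WW_cont82 v1 v2)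
  refine Continuous.mul ?_ ?_
  · refine Complex.continuous_ofReal.comp (Continuous.rpow_const ?_ fun p => Or.inr hs.le)
    exact (continuous_const.mul h1).mul h2
  · rw [continuous_iff_continuousAt]
    intro p0
    have hW0 := WW_pos82 p0.1.2 p0.2.2
    set c0 := (WW (p0.1 : SP m) (p0.2 : SP m)).re with hc0
    set H := hh (p0.1 : SP m) + hh (p0.2 : SP m) + dS (p0.1 : SP m) (p0.2 : SP m) + 1 with hH
    have hd0 := dS_nonneg82 (p0.1 : SP m) (p0.2 : SP m)
    have t1 := p0.1.2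
    have t2 := p0.2.2
    have n1 : ∀ᶠ p : Dom m × Dom m in nhds p0, hh (p.1 : SP m) < H :=
      h1.continuousAt.eventually (gt_mem_nhds (by linarith))
    have n2 : ∀ᶠ p : Dom m × Dom m in nhds p0, hh (p.2 : SP m) < H :=
      h2.continuousAt.eventually (gt_mem_nhds (by linarith))
    have n3 : ∀ᶠ p : Dom m × Dom m in nhds p0, dS (p.1 : SP m) (p.2 : SP m) < H :=
      h3.continuousAt.eventually (gt_mem_nhds (by linarith))
    have n4 : ∀ᶠ p : Dom m × Dom m in nhds p0, c0 / 2 < (WW (p.1 : SP m) (p.2 : SP m)).re :=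
      h4.continuousAt.eventually (lt_mem_nhds (by linarith))
    refine continuousAt_of_dominated (bound := fun z => CC82 m s H * (1 + (z.2.1 + z.2.2) + (z.2.1 + z.2.2) ^ 2) *
      Real.exp (-(c0 / 2 * (z.2.1 + z.2.2)))) ?_ ?_ (bdi82 ν hs (by linarith) _) ?_
    · refine Filter.Eventually.of_forall fun p => ?_
      exact (Complex.measurable_ofReal.comp ((hm _ _).comp measurable_snd)).aestronglyMeasurable.mul
        (Eu_contz82 _ _).aestronglyMeasurable
    · filter_upwards [n1, n2, n3, n4] with p k1 k2 k3 k4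
      filter_upwards [ae_pos82 ν s] with z hz
      rw [norm_mul, Complex.norm_real, Eu_norm (by simp), Real.norm_eq_abs]
      refine mul_le_mul (hb H z.2 _ _ hz.1 hz.2 p.1.2 p.2.2 k1.le k2.le k3.le) ?_ (Real.exp_pos _).le
        ((abs_nonneg _).trans (hb H z.2 _ _ hz.1 hz.2 p.1.2 p.2.2 k1.le k2.le k3.le))
      apply Real.exp_le_exp.2
      have k5 : 0 < z.2.1 + z.2.2 := by linarith [hz.1, hz.2]
      have k6 : c0 / 2 * (z.2.1 + z.2.2) ≤ (WW (p.1 : SP m) (p.2 : SP m)).re * (z.2.1 + z.2.2) :=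
        mul_le_mul_of_nonneg_right k4.le k5.le
      linarith
    · refine Filter.Eventually.of_forall fun z => ?_
      have c1 : Continuous fun p : Dom m × Dom m => ((c z.2 (p.1 : SP m) (p.2 : SP m) : ℝ) : ℂ) :=
        Complex.continuous_ofReal.comp ((hc z.2).comp hv)
      have c2 : Continuous fun p : Dom m × Dom m => Eu z.2.1 z.2.2 (z.1 : Hq) (p.1 : SP m) (p.2 : SP m) :=
        Eu_contp82 v1 v2 _ _ _
      exact (c1.mul c2).continuousAt

theorem KP_cont (ν : Measure U1) [IsProbabilityMeasure ν] {s : ℝ} (hs : 0 < s) :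
    Continuous fun p : Dom m × Dom m => KP ν s (p.1 : SP m) (p.2 : SP m) := by
  refine dom_cont82 ν hs (fun p x y => cP s p.1 p.2 x y) (fun x y => cP_meas82 s x y) (fun p => ?_)
    (fun H p x y h1 h2 h3 h4 h5 h6 _ => cP_bd82 h1 h2 h3 h4 h5 h6)
  unfold cP
  have k1 : Continuous fun q : SP m × SP m => hh q.1 := hh_cont82 continuous_fst
  have k2 : Continuous fun q : SP m × SP m => hh q.2 := hh_cont82 continuous_snd
  fun_prop

theorem KN_cont (ν : Measure U1) [IsProbabilityMeasure ν] {s : ℝ} (hs : 0 < s) :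
    Continuous fun p : Dom m × Dom m => KN ν s (p.1 : SP m) (p.2 : SP m) := by
  refine dom_cont82 ν hs (fun p x y => cN p.1 p.2 x y) (fun x y => cN_meas82 x y) (fun p => ?_)
    (fun H p x y h1 h2 h3 h4 h5 h6 h7 => cN_bd82 s h1 h2 h3 h4 h5 h6 h7)
  unfold cN
  have k1 : Continuous fun q : SP m × SP m => hh q.1 := hh_cont82 continuous_fst
  have k2 : Continuous fun q : SP m × SP m => hh q.2 := hh_cont82 continuous_snd
  have k3 : Continuous fun q : SP m × SP m => dS q.1 q.2 := dS_cont82 continuous_fst continuous_snd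
  fun_prop

end Pool.Agent.Helper84.CH
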