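import Pool.Agent.Helper84.CH.UD

/-!
# Project CH, block UE: the two kernels on the diagonal and on compact sets

`KPN_diag`. PROOF. `WW x x = 2 h` (real), `Eu = e^(-2hR)`, `dS x x = 0`: `KP + KN = (2h)^(2s) ∫ ((1 - 2s) + R²h² + 1 + 2m (R/r̂)) e^(-2hR)`; with `c = 2h`: `gg_zero`, `gg_two` (`R² h² = R² c²/4`: `2s(2s+1)/4 = s² + s/2`), `gg_min` (`R/r̂ = 1 + (R/r̂ - 1)`):
`≤ (1 - 2s) + (s² + s/2) + 1 + 2m (1 + dl s) ≤ 2m + 2 + s² + 2m dl s`.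
`K_near`. PROOF. Let `c = 1/(2ρ)`... any `c > 0` with `Re WW ≥ c` and `‖WW‖ ≤ B` on the set (`WW_re`; `‖WW‖ ≤ ρ + m ρ²`, `hh ≤ ρ`, `dS ≤ 4 m ρ²`). `‖Eu - e^(-cR)‖ ≤ R (B + c) e^(-cR)` (`‖e^(-a) - e^(-b)‖ ≤ ‖a - b‖ e^(-min(Re a, Re b))`, `‖r D + r' conj D - c R‖ ≤ R (B + c)`, `cD_re`). So
`‖cP Eu - (m + 3/2) e^(-cR)‖ ≤ |cP - (m + 3/2)| ‖Eu‖ + (m + 3/2) ‖Eu - e^(-cR)‖ ≤ C (s + R + R² + (R/r̂ - 1)) e^(-cR)`, and the integral of the right side is `≤ C (s c^(-2s) + 2 s c^(-2s-1) + 2s(2s+1) c^(-2s-2) + c^(-2s) dl s) → 0` as `s → 0+` (`dl_tendsto`). `∫ e^(-cR) = c^(-2s) → 1`, and `(4hh')^s → 1` uniformly for `ρ⁻¹ ≤ h, h' ≤ ρ`.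
The same for `cN` with `m + 1/2`.
-/

set_option autoImplicit false

open MeasureTheory
open scoped ComplexOrder

namespace Pool.Agent.Helper84.CH

open Pool.Agent.Helper84.SPQ

variable {m : ℕ}

private theorem WW_self (x : SP m) : WW x x = (((2 * hh x : ℝ)) : Hq) := by
  have h1 : ∀ i, star (x.1 i) * x.1 i = ((‖x.1 i‖ ^ 2 : ℝ) : Hq) := by
    intro i
    rw [Quaternion.star_mul_self, Quaternion.normSq_eq_norm_mul_self, sq]
  have h2 : ∑ i, star (x.1 i) * x.1 i = ((∑ i, ‖x.1 i‖ ^ 2 : ℝ) : Hq) := by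
    simp only [h1]
    exact (map_sum (algebraMap ℝ Hq) (fun i => ‖x.1 i‖ ^ 2) Finset.univ).symm
  have h3 : (2 * hh x : ℝ) = x.2.re - ∑ i, ‖x.1 i‖ ^ 2 := by
    unfold hh
    ring
  unfold WW
  rw [h2, h3, Quaternion.star_add_self']
  ext <;> simp

private theorem cD_real {u : Hq} (hu : ‖u‖ = 1) (c : ℝ) : cD u (c : Hq) = (c : ℂ) := by
  have h1 : star u * (c : Hq) * u = (c : Hq) := by
    rw [← (Quaternion.coe_commutes c (star u)), mul_assoc, Quaternion.star_mul_self, Quaternion.normSq_eq_norm_mul_self, hu]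
    simp
  unfold cD
  rw [h1]
  apply Complex.ext <;> simp

private theorem Eu_self {u : Hq} (hu : ‖u‖ = 1) (r r' : ℝ) (x : SP m) :
    Eu r r' u x x = ((Real.exp (-(2 * hh x * (r + r'))) : ℝ) : ℂ) := by
  unfold Eu
  rw [WW_self, cD_real hu, Complex.conj_ofReal, Complex.ofReal_exp]
  congr 1
  push_cast
  ring

private theorem dS_self (x : SP m) : dS x x = 0 := by
  unfold dS
  simp

private theorem pos_ae (s : ℝ) : ∀ᵐ p ∂((gs s).prod (gs s)), 0 < p.1 ∧ 0 < p.2 := by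
  have h1 := (Measure.quasiMeasurePreserving_fst (μ := gs s) (ν := gs s)).ae (gs_pos s)
  have h2 := (Measure.quasiMeasurePreserving_snd (μ := gs s) (ν := gs s)).ae (gs_pos s)
  filter_upwards [h1, h2] with p hp1 hp2 using ⟨hp1, hp2⟩

private theorem int_zero {s : ℝ} (hs : 0 < s) {c : ℝ} (hc : 0 < c) :
    Integrable (fun p : ℝ × ℝ => Real.exp (-(c * (p.1 + p.2)))) ((gs s).prod (gs s)) := by
  simpa using gg_int hs hc 0

private theorem int_one {s : ℝ} (hs : 0 < s) {c : ℝ} (hc : 0 < c) :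
    Integrable (fun p : ℝ × ℝ => (p.1 + p.2) * Real.exp (-(c * (p.1 + p.2)))) ((gs s).prod (gs s)) := by
  simpa using gg_int hs hc 1

private theorem comb {s : ℝ} (hs : 0 < s) {c : ℝ} (hc : 0 < c) (a0 a1 a2 a3 : ℝ) :
    Integrable (fun p : ℝ × ℝ => (a0 + a1 * (p.1 + p.2) + a2 * (p.1 + p.2) ^ 2 + a3 * ((p.1 + p.2) / max p.1 p.2 - 1)) *
      Real.exp (-(c * (p.1 + p.2)))) ((gs s).prod (gs s)) ∧
    ∫ p : ℝ × ℝ, (a0 + a1 * (p.1 + p.2) + a2 * (p.1 + p.2) ^ 2 + a3 * ((p.1 + p.2) / max p.1 p.2 - 1)) *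
      Real.exp (-(c * (p.1 + p.2))) ∂((gs s).prod (gs s)) =
      a0 * c ^ (-(2 * s)) + a1 * (2 * s * c ^ (-(2 * s) - 1)) + a2 * (2 * s * (2 * s + 1) * c ^ (-(2 * s) - 2)) +
        a3 * ∫ p : ℝ × ℝ, ((p.1 + p.2) / max p.1 p.2 - 1) * Real.exp (-(c * (p.1 + p.2))) ∂((gs s).prod (gs s)) := by
  have i0 := (int_zero hs hc).const_mul a0
  have i1 := (int_one hs hc).const_mul a1
  have i2 := (gg_int hs hc 2).const_mul a2
  have i3 := (gg_min hs hc).1.const_mul a3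
  have e : (fun p : ℝ × ℝ => (a0 + a1 * (p.1 + p.2) + a2 * (p.1 + p.2) ^ 2 + a3 * ((p.1 + p.2) / max p.1 p.2 - 1)) *
      Real.exp (-(c * (p.1 + p.2)))) = fun p => a0 * Real.exp (-(c * (p.1 + p.2))) + a1 * ((p.1 + p.2) * Real.exp (-(c * (p.1 + p.2)))) +
        a2 * ((p.1 + p.2) ^ 2 * Real.exp (-(c * (p.1 + p.2)))) +
        a3 * (((p.1 + p.2) / max p.1 p.2 - 1) * Real.exp (-(c * (p.1 + p.2)))) := by
    funext p
    ring
  rw [e]
  have i01 : Integrable (fun p : ℝ × ℝ => a0 * Real.exp (-(c * (p.1 + p.2))) + a1 * ((p.1 + p.2) * Real.exp (-(c * (p.1 + p.2)))))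
      ((gs s).prod (gs s)) := i0.add i1
  have i012 : Integrable (fun p : ℝ × ℝ => a0 * Real.exp (-(c * (p.1 + p.2))) + a1 * ((p.1 + p.2) * Real.exp (-(c * (p.1 + p.2)))) +
        a2 * ((p.1 + p.2) ^ 2 * Real.exp (-(c * (p.1 + p.2))))) ((gs s).prod (gs s)) := i01.add i2
  refine ⟨i012.add i3, ?_⟩
  rw [integral_add i012 i3, integral_add i01 i2, integral_add i0 i1]
  simp only [integral_const_mul]
  rw [gg_zero hs hc, gg_one hs hc, gg_two hs hc]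

private theorem cP_self (s : ℝ) (x : SP m) {p : ℝ × ℝ} :
    cP s p.1 p.2 x x = (3 / 2 - 2 * s + m) + hh x * (p.1 + p.2) + hh x ^ 2 / 2 * (p.1 + p.2) ^ 2 + m * ((p.1 + p.2) / max p.1 p.2 - 1) := by
  unfold cP
  ring

private theorem cN_self (x : SP m) {p : ℝ × ℝ} :
    cN p.1 p.2 x x = (1 / 2 + m) + (-hh x) * (p.1 + p.2) + hh x ^ 2 / 2 * (p.1 + p.2) ^ 2 + m * ((p.1 + p.2) / max p.1 p.2 - 1) := by
  unfold cN
  rw [dS_self]
  ring

theorem KPN_diag (ν : Measure U1) [IsProbabilityMeasure ν] {s : ℝ} (hs : 0 < s) {x : SP m} (hx : 0 < hh x) :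
    (KP ν s x x + KN ν s x x).re ≤ 2 * m + 2 + s ^ 2 + 2 * m * dl s := by
  have hc : 0 < 2 * hh x := by positivity
  have key : ∀ f : ℝ × ℝ → ℝ, ∫ z : U1 × (ℝ × ℝ), ((f z.2 : ℝ) : ℂ) * Eu z.2.1 z.2.2 (z.1 : Hq) x x ∂(ν.prod ((gs s).prod (gs s))) =
      ((∫ p : ℝ × ℝ, f p * Real.exp (-(2 * hh x * (p.1 + p.2))) ∂((gs s).prod (gs s)) : ℝ) : ℂ) := by
    intro f
    have e1 : ∀ z : U1 × (ℝ × ℝ), ((f z.2 : ℝ) : ℂ) * Eu z.2.1 z.2.2 (z.1 : Hq) x x =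
        (fun q : ℝ × ℝ => ((f q * Real.exp (-(2 * hh x * (q.1 + q.2))) : ℝ) : ℂ)) z.2 := by
      intro z
      rw [Eu_self (by simp)]
      push_cast
      rfl
    rw [show (fun z : U1 × (ℝ × ℝ) => ((f z.2 : ℝ) : ℂ) * Eu z.2.1 z.2.2 (z.1 : Hq) x x) =
      fun z => (fun q : ℝ × ℝ => ((f q * Real.exp (-(2 * hh x * (q.1 + q.2))) : ℝ) : ℂ)) z.2 from funext e1]
    rw [integral_fun_snd (fun q : ℝ × ℝ => ((f q * Real.exp (-(2 * hh x * (q.1 + q.2))) : ℝ) : ℂ))]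
    simp only [probReal_univ, one_smul]
    exact integral_ofReal
  have kP := key (fun p => cP s p.1 p.2 x x)
  have kN := key (fun p => cN p.1 p.2 x x)
  have hP := (comb hs hc (3 / 2 - 2 * s + m) (hh x) (hh x ^ 2 / 2) m).2
  have hN := (comb hs hc (1 / 2 + m) (-hh x) (hh x ^ 2 / 2) m).2
  have hM := (gg_min hs hc).2
  simp only [cP_self] at kP
  simp only [cN_self] at kN
  rw [hP] at kP
  rw [hN] at kN
  unfold KP KN
  simp only [cP_self, cN_self]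
  rw [kP, kN, ← Complex.ofReal_mul, ← Complex.ofReal_mul, ← Complex.ofReal_add, Complex.ofReal_re]
  set J := ∫ p : ℝ × ℝ, ((p.1 + p.2) / max p.1 p.2 - 1) * Real.exp (-(2 * hh x * (p.1 + p.2))) ∂((gs s).prod (gs s)) with hJ
  set c := 2 * hh x with hcdef
  have hh' : hh x = c / 2 := by rw [hcdef]; ring
  rw [hh']
  have e4 : (4 * (c / 2) * (c / 2)) ^ s = c ^ (2 * s) := by
    rw [show 4 * (c / 2) * (c / 2) = c ^ (2 : ℝ) by rw [Real.rpow_two]; ring, ← Real.rpow_mul hc.le]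
  rw [e4]
  have m0 : c ^ (2 * s) * c ^ (-(2 * s)) = 1 := by
    rw [← Real.rpow_add hc]
    simp
  have m2 : c ^ (2 * s) * ((c / 2) ^ 2 * c ^ (-(2 * s) - 2)) = 1 / 4 := by
    have : c ^ (-(2 * s) - 2) = c ^ (-(2 * s)) * (c ^ 2)⁻¹ := by
      rw [Real.rpow_sub hc, Real.rpow_two, div_eq_mul_inv]
    rw [this, show c ^ (2 * s) * ((c / 2) ^ 2 * (c ^ (-(2 * s)) * (c ^ 2)⁻¹)) = (c ^ (2 * s) * c ^ (-(2 * s))) * ((c / 2) ^ 2 * (c ^ 2)⁻¹) by ring, m0]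
    have := hc.ne'
    field_simp
    norm_num
  have m3 : c ^ (2 * s) * J ≤ dl s := by
    have := mul_le_mul_of_nonneg_left hM (Real.rpow_nonneg hc.le (2 * s))
    rw [← mul_assoc, m0, one_mul] at this
    exact this
  have tot : c ^ (2 * s) * ((3 / 2 - 2 * s + m) * c ^ (-(2 * s)) + c / 2 * (2 * s * c ^ (-(2 * s) - 1)) +
      (c / 2) ^ 2 / 2 * (2 * s * (2 * s + 1) * c ^ (-(2 * s) - 2)) + m * J) +
      c ^ (2 * s) * ((1 / 2 + m) * c ^ (-(2 * s)) + -(c / 2) * (2 * s * c ^ (-(2 * s) - 1)) +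
      (c / 2) ^ 2 / 2 * (2 * s * (2 * s + 1) * c ^ (-(2 * s) - 2)) + m * J) =
      (2 - 2 * s + 2 * m) * (c ^ (2 * s) * c ^ (-(2 * s))) + (2 * s * (2 * s + 1)) * (c ^ (2 * s) * ((c / 2) ^ 2 * c ^ (-(2 * s) - 2))) +
        2 * m * (c ^ (2 * s) * J) := by ring
  rw [tot, m0, m2]
  have hm : (0 : ℝ) ≤ 2 * m := by positivity
  nlinarith [mul_le_mul_of_nonneg_left m3 hm]

private theorem exp_near {z : ℂ} (hz : 0 ≤ z.re) : ‖Complex.exp (-z) - 1‖ ≤ 2 * ‖z‖ := by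
  rcases le_total ‖z‖ 1 with h | h
  · have := Complex.norm_exp_sub_one_le (x := -z) (by simpa using h)
    simpa using this
  · calc ‖Complex.exp (-z) - 1‖ ≤ ‖Complex.exp (-z)‖ + ‖(1 : ℂ)‖ := norm_sub_le _ _
      _ ≤ 1 + 1 := by
        rw [Complex.norm_exp, norm_one]
        have : Real.exp (-z).re ≤ 1 := Real.exp_le_one_iff.mpr (by simpa using hz)
        linarith
      _ ≤ 2 * ‖z‖ := by linarith

private theorem Eu_near {u : Hq} (hu : ‖u‖ = 1) {r r' : ℝ} (hr : 0 < r) (hr' : 0 < r') {x y : SP m} {c B : ℝ} (hc : 0 < c)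
    (hW : c ≤ (WW x y).re) (hB : ‖WW x y‖ ≤ B) :
    ‖Eu r r' u x y - ((Real.exp (-(c * (r + r'))) : ℝ) : ℂ)‖ ≤ 2 * ((r + r') * (B + c)) * Real.exp (-(c * (r + r'))) := by
  obtain ⟨h1, h2⟩ := cD_re hu (WW x y)
  set D := cD u (WW x y) with hD
  set z : ℂ := (r : ℂ) * D + (r' : ℂ) * (starRingEnd ℂ) D - ((c * (r + r') : ℝ) : ℂ) with hz
  have hre : z.re = (r + r') * ((WW x y).re - c) := by
    rw [hz]
    simp only [Complex.sub_re, Complex.add_re, Complex.re_ofReal_mul, Complex.conj_re, Complex.ofReal_re, h1]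
    ring
  have hre0 : 0 ≤ z.re := by
    rw [hre]
    exact mul_nonneg (by linarith) (by linarith)
  have hn : ‖z‖ ≤ (r + r') * (B + c) := by
    have a1 : ‖(r : ℂ) * D‖ ≤ r * B := by
      rw [norm_mul, Complex.norm_real, Real.norm_of_nonneg hr.le]
      exact mul_le_mul_of_nonneg_left (h2.trans hB) hr.le
    have a2 : ‖(r' : ℂ) * (starRingEnd ℂ) D‖ ≤ r' * B := by
      rw [norm_mul, Complex.norm_real, Real.norm_of_nonneg hr'.le, RCLike.norm_conj]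
      exact mul_le_mul_of_nonneg_left (h2.trans hB) hr'.le
    have a3 : ‖((c * (r + r') : ℝ) : ℂ)‖ = c * (r + r') := by
      rw [Complex.norm_real, Real.norm_of_nonneg (by positivity)]
    calc ‖z‖ ≤ ‖(r : ℂ) * D + (r' : ℂ) * (starRingEnd ℂ) D‖ + ‖((c * (r + r') : ℝ) : ℂ)‖ := norm_sub_le _ _
      _ ≤ (‖(r : ℂ) * D‖ + ‖(r' : ℂ) * (starRingEnd ℂ) D‖) + c * (r + r') := by
        rw [a3]
        gcongr
        exact norm_add_le _ _
      _ ≤ (r * B + r' * B) + c * (r + r') := by gcongr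
      _ = (r + r') * (B + c) := by ring
  have e : Eu r r' u x y - ((Real.exp (-(c * (r + r'))) : ℝ) : ℂ) = ((Real.exp (-(c * (r + r'))) : ℝ) : ℂ) * (Complex.exp (-z) - 1) := by
    unfold Eu
    rw [← hD, mul_sub, mul_one, Complex.ofReal_exp, ← Complex.exp_add]
    congr 2
    rw [hz]
    push_cast
    ring
  rw [e, norm_mul, Complex.norm_real, Real.norm_of_nonneg (Real.exp_pos _).le, mul_comm]
  refine mul_le_mul_of_nonneg_right ?_ (Real.exp_pos _).le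
  exact (exp_near hre0).trans (by linarith)

private theorem Eu_le {u : Hq} (hu : ‖u‖ = 1) {r r' : ℝ} (hr : 0 < r) (hr' : 0 < r') {x y : SP m} {c : ℝ}
    (hW : c ≤ (WW x y).re) : ‖Eu r r' u x y‖ ≤ Real.exp (-(c * (r + r'))) := by
  rw [Eu_norm hu]
  apply Real.exp_le_exp.mpr
  have : (r + r') * c ≤ (r + r') * (WW x y).re := mul_le_mul_of_nonneg_left hW (by linarith)
  linarith

private theorem rat_ge {r r' : ℝ} (hr : 0 < r) (hr' : 0 < r') : 0 ≤ (r + r') / max r r' - 1 := by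
  have h : 0 < max r r' := lt_max_of_lt_left hr
  rw [sub_nonneg, le_div_iff₀ h, one_mul]
  exact max_le (by linarith) (by linarith)

private theorem near_gen (ν : Measure U1) [IsProbabilityMeasure ν] {s : ℝ} (hs : 0 < s) {x y : SP m} (hx : 0 < hh x) (hy : 0 < hh y)
    {c B A α β γ : ℝ} (hc : 0 < c) (hW : c ≤ (WW x y).re) (hB : ‖WW x y‖ ≤ B) (hA : 0 ≤ A) (hγ : 0 ≤ γ) (f : ℝ × ℝ → ℝ) (hf : Measurable f)
    (hfe : ∀ p : ℝ × ℝ, 0 < p.1 → 0 < p.2 → |f p - A| ≤ 2 * s + β * (p.1 + p.2) + α * (p.1 + p.2) ^ 2 + γ * ((p.1 + p.2) / max p.1 p.2 - 1)) :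
    ‖(∫ z : U1 × (ℝ × ℝ), ((f z.2 : ℝ) : ℂ) * Eu z.2.1 z.2.2 (z.1 : Hq) x y ∂(ν.prod ((gs s).prod (gs s)))) - ((A * c ^ (-(2 * s)) : ℝ) : ℂ)‖ ≤
      2 * s * c ^ (-(2 * s)) + (β + 2 * A * (B + c)) * (2 * s * c ^ (-(2 * s) - 1)) + α * (2 * s * (2 * s + 1) * c ^ (-(2 * s) - 2)) +
        γ * (c ^ (-(2 * s)) * dl s) := by
  obtain ⟨ci, cv⟩ := comb hs hc (2 * s) (β + 2 * A * (B + c)) α γ
  have ci' : Integrable (fun z : U1 × (ℝ × ℝ) => (fun p : ℝ × ℝ => (2 * s + (β + 2 * A * (B + c)) * (p.1 + p.2) + α * (p.1 + p.2) ^ 2 +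
      γ * ((p.1 + p.2) / max p.1 p.2 - 1)) * Real.exp (-(c * (p.1 + p.2)))) z.2) (ν.prod ((gs s).prod (gs s))) := ci.comp_snd ν
  have ei0 : Integrable (fun p : ℝ × ℝ => ((A * Real.exp (-(c * (p.1 + p.2))) : ℝ) : ℂ)) ((gs s).prod (gs s)) :=
    ((int_zero hs hc).const_mul A).ofReal
  have ei : Integrable (fun z : U1 × (ℝ × ℝ) => (fun p : ℝ × ℝ => ((A * Real.exp (-(c * (p.1 + p.2))) : ℝ) : ℂ)) z.2) (ν.prod ((gs s).prod (gs s))) :=
    ei0.comp_snd ν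
  have hae : ∀ᵐ z ∂(ν.prod ((gs s).prod (gs s))), 0 < z.2.1 ∧ 0 < z.2.2 :=
    (Measure.quasiMeasurePreserving_snd (μ := ν) (ν := (gs s).prod (gs s))).ae (pos_ae s)
  have hEm : AEStronglyMeasurable (fun z : U1 × (ℝ × ℝ) => Eu z.2.1 z.2.2 (z.1 : Hq) x y) (ν.prod ((gs s).prod (gs s))) := by
    have := (Eu_int ν hs hx hy 0).1
    simpa using this
  have hfm : AEStronglyMeasurable (fun z : U1 × (ℝ × ℝ) => ((f z.2 : ℝ) : ℂ)) (ν.prod ((gs s).prod (gs s))) :=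
    (Complex.measurable_ofReal.comp (hf.comp measurable_snd)).aestronglyMeasurable
  have bound : ∀ᵐ z ∂(ν.prod ((gs s).prod (gs s))), ‖((f z.2 : ℝ) : ℂ) * Eu z.2.1 z.2.2 (z.1 : Hq) x y -
      (fun p : ℝ × ℝ => ((A * Real.exp (-(c * (p.1 + p.2))) : ℝ) : ℂ)) z.2‖ ≤
      (fun p : ℝ × ℝ => (2 * s + (β + 2 * A * (B + c)) * (p.1 + p.2) + α * (p.1 + p.2) ^ 2 +
      γ * ((p.1 + p.2) / max p.1 p.2 - 1)) * Real.exp (-(c * (p.1 + p.2)))) z.2 := by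
    filter_upwards [hae] with z hz
    obtain ⟨u, r, r'⟩ := z
    obtain ⟨hr, hr'⟩ := hz
    have hu : ‖(u : Hq)‖ = 1 := by simp
    simp only at hr hr' ⊢
    have h1 := Eu_near hu hr hr' hc hW hB
    have h2 := Eu_le hu hr hr' hW
    have h3 := hfe (r, r') hr hr'
    simp only at h3
    set e := Real.exp (-(c * (r + r'))) with he
    have he0 : 0 < e := Real.exp_pos _
    have sp : ((f (r, r') : ℝ) : ℂ) * Eu r r' (u : Hq) x y - ((A * e : ℝ) : ℂ) =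
        ((f (r, r') - A : ℝ) : ℂ) * Eu r r' (u : Hq) x y + (A : ℂ) * (Eu r r' (u : Hq) x y - ((e : ℝ) : ℂ)) := by
      push_cast
      ring
    rw [sp]
    calc _ ≤ ‖((f (r, r') - A : ℝ) : ℂ) * Eu r r' (u : Hq) x y‖ + ‖(A : ℂ) * (Eu r r' (u : Hq) x y - ((e : ℝ) : ℂ))‖ := norm_add_le _ _
      _ ≤ (2 * s + β * (r + r') + α * (r + r') ^ 2 + γ * ((r + r') / max r r' - 1)) * e + A * (2 * ((r + r') * (B + c)) * e) := by
        rw [norm_mul, norm_mul, Complex.norm_real, Complex.norm_real, Real.norm_eq_abs, Real.norm_of_nonneg hA]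
        have p1 : |f (r, r') - A| * ‖Eu r r' (u : Hq) x y‖ ≤ |f (r, r') - A| * e := mul_le_mul_of_nonneg_left h2 (abs_nonneg _)
        have p2 : |f (r, r') - A| * e ≤ (2 * s + β * (r + r') + α * (r + r') ^ 2 + γ * ((r + r') / max r r' - 1)) * e :=
          mul_le_mul_of_nonneg_right h3 he0.le
        have p3 := mul_le_mul_of_nonneg_left h1 hA
        linarith
      _ = _ := by ring
  have hi : Integrable (fun z : U1 × (ℝ × ℝ) => ((f z.2 : ℝ) : ℂ) * Eu z.2.1 z.2.2 (z.1 : Hq) x y -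
      (fun p : ℝ × ℝ => ((A * Real.exp (-(c * (p.1 + p.2))) : ℝ) : ℂ)) z.2) (ν.prod ((gs s).prod (gs s))) :=
    Integrable.mono' ci' ((hfm.mul hEm).sub ei.1) bound
  have hsum : (∫ z : U1 × (ℝ × ℝ), ((f z.2 : ℝ) : ℂ) * Eu z.2.1 z.2.2 (z.1 : Hq) x y ∂(ν.prod ((gs s).prod (gs s)))) - ((A * c ^ (-(2 * s)) : ℝ) : ℂ) =
      ∫ z : U1 × (ℝ × ℝ), (((f z.2 : ℝ) : ℂ) * Eu z.2.1 z.2.2 (z.1 : Hq) x y -
      (fun p : ℝ × ℝ => ((A * Real.exp (-(c * (p.1 + p.2))) : ℝ) : ℂ)) z.2) ∂(ν.prod ((gs s).prod (gs s))) := by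
    have hi1 : Integrable (fun z : U1 × (ℝ × ℝ) => ((f z.2 : ℝ) : ℂ) * Eu z.2.1 z.2.2 (z.1 : Hq) x y) (ν.prod ((gs s).prod (gs s))) := by
      have := hi.add ei
      refine this.congr (Filter.Eventually.of_forall fun z => ?_)
      simp
    rw [integral_sub hi1 ei]
    congr 1
    rw [integral_fun_snd (fun p : ℝ × ℝ => ((A * Real.exp (-(c * (p.1 + p.2))) : ℝ) : ℂ))]
    simp only [probReal_univ, one_smul]
    rw [show (∫ p : ℝ × ℝ, ((A * Real.exp (-(c * (p.1 + p.2))) : ℝ) : ℂ) ∂((gs s).prod (gs s))) =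
      ((∫ p : ℝ × ℝ, A * Real.exp (-(c * (p.1 + p.2))) ∂((gs s).prod (gs s)) : ℝ) : ℂ) from integral_ofReal, integral_const_mul, gg_zero hs hc]
  rw [hsum]
  refine (norm_integral_le_of_norm_le ci' bound).trans ?_
  rw [integral_fun_snd (fun p : ℝ × ℝ => (2 * s + (β + 2 * A * (B + c)) * (p.1 + p.2) + α * (p.1 + p.2) ^ 2 +
      γ * ((p.1 + p.2) / max p.1 p.2 - 1)) * Real.exp (-(c * (p.1 + p.2))))]
  simp only [probReal_univ, one_smul]
  rw [cv]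
  have := mul_le_mul_of_nonneg_left (gg_min hs hc).2 hγ
  linarith

private theorem le_of_sq_le_sq' {a b : ℝ} (h : a ^ 2 ≤ b ^ 2) (hb : 0 ≤ b) : a ≤ b := by
  by_contra hn
  push Not at hn
  nlinarith

private theorem re_le (q : Hq) : q.re ≤ ‖q‖ := by
  have h : q.re ^ 2 ≤ ‖q‖ ^ 2 := by
    rw [sq ‖q‖, ← Quaternion.normSq_eq_norm_mul_self, Quaternion.normSq_def']
    nlinarith [sq_nonneg q.imI, sq_nonneg q.imJ, sq_nonneg q.imK]
  exact le_of_sq_le_sq' h (norm_nonneg q)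

private theorem hh_le {ρ : ℝ} {x : SP m} (hx : ‖x‖ ≤ ρ) : hh x ≤ ρ := by
  unfold hh
  have h1 : x.2.re ≤ ‖x.2‖ := re_le _
  have h2 : ‖x.2‖ ≤ ‖x‖ := norm_snd_le x
  have h3 : 0 ≤ ∑ i, ‖x.1 i‖ ^ 2 := Finset.sum_nonneg fun i _ => by positivity
  have h4 : 0 ≤ ‖x‖ := norm_nonneg x
  linarith

private theorem co_le {ρ : ℝ} {x : SP m} (hx : ‖x‖ ≤ ρ) (i : Fin m) : ‖x.1 i‖ ≤ ρ :=
  ((norm_le_pi_norm x.1 i).trans (norm_fst_le x)).trans hx

private theorem dS_le {ρ : ℝ} {x y : SP m} (hx : ‖x‖ ≤ ρ) (hy : ‖y‖ ≤ ρ) : dS x y ≤ 4 * m * ρ ^ 2 := by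
  unfold dS
  have : ∀ i ∈ (Finset.univ : Finset (Fin m)), ‖x.1 i - y.1 i‖ ^ 2 ≤ 4 * ρ ^ 2 := by
    intro i _
    have h1 : ‖x.1 i - y.1 i‖ ≤ ρ + ρ := (norm_sub_le _ _).trans (add_le_add (co_le hx i) (co_le hy i))
    have h2 := norm_nonneg (x.1 i - y.1 i)
    nlinarith
  refine (Finset.sum_le_sum this).trans (le_of_eq ?_)
  simp
  ring

private theorem dS_nn (x y : SP m) : 0 ≤ dS x y := Finset.sum_nonneg fun i _ => by positivity

private theorem WW_le {ρ : ℝ} {x y : SP m} (hx : ‖x‖ ≤ ρ) (hy : ‖y‖ ≤ ρ) : ‖WW x y‖ ≤ ρ + m * ρ ^ 2 := by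
  unfold WW
  have hρ : 0 ≤ ρ := (norm_nonneg x).trans hx
  have h1 : ‖(1 / 2 : ℝ) • (star x.2 + y.2)‖ ≤ ρ := by
    rw [norm_smul, Real.norm_of_nonneg (by norm_num)]
    have : ‖star x.2 + y.2‖ ≤ ρ + ρ := by
      refine (norm_add_le _ _).trans (add_le_add ?_ ?_)
      · rw [norm_star]
        exact (norm_snd_le x).trans hx
      · exact (norm_snd_le y).trans hy
    linarith
  have h2 : ‖∑ i, star (x.1 i) * y.1 i‖ ≤ m * ρ ^ 2 := by
    have : ∀ i ∈ (Finset.univ : Finset (Fin m)), ‖star (x.1 i) * y.1 i‖ ≤ ρ ^ 2 := by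
      intro i _
      rw [norm_mul, norm_star, sq]
      exact mul_le_mul (co_le hx i) (co_le hy i) (norm_nonneg _) hρ
    refine (norm_sum_le_of_le _ this).trans (le_of_eq ?_)
    simp
  exact (norm_sub_le _ _).trans (add_le_add h1 h2)

private theorem fin_gen {ρ s A M Q t c : ℝ} (hA : 0 ≤ A) (hAM : A ≤ M) (ht : 0 ≤ t) (ht1 : t ≤ (4 * ρ ^ 2) ^ s)
    (ht2 : 1 ≤ t * c ^ (-(2 * s))) (ht3 : t * c ^ (-(2 * s)) ≤ (4 * ρ ^ 4) ^ s) {I : ℂ}
    (hI : ‖I - ((A * c ^ (-(2 * s)) : ℝ) : ℂ)‖ ≤ Q) : ‖((t : ℝ) : ℂ) * I - (A : ℂ)‖ ≤ (4 * ρ ^ 2) ^ s * Q + M * ((4 * ρ ^ 4) ^ s - 1) := by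
  have hQ : 0 ≤ Q := (norm_nonneg _).trans hI
  have e : ((t : ℝ) : ℂ) * I - (A : ℂ) = ((t : ℝ) : ℂ) * (I - ((A * c ^ (-(2 * s)) : ℝ) : ℂ)) + ((A * (t * c ^ (-(2 * s)) - 1) : ℝ) : ℂ) := by
    push_cast
    ring
  rw [e]
  refine (norm_add_le _ _).trans (add_le_add ?_ ?_)
  · rw [norm_mul, Complex.norm_real, Real.norm_of_nonneg ht]
    exact mul_le_mul ht1 hI (norm_nonneg _) (ht.trans ht1)
  · rw [Complex.norm_real, Real.norm_of_nonneg (mul_nonneg hA (by linarith))]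
    exact mul_le_mul hAM (by linarith) (by linarith) (hA.trans hAM)

theorem K_near (ν : Measure U1) [IsProbabilityMeasure ν] (m : ℕ) {ρ ε : ℝ} (hρ : 1 ≤ ρ) (hε : 0 < ε) : ∃ s0 : ℝ, 0 < s0 ∧ ∀ s : ℝ, 0 < s → s < s0 →
    ∀ x y : SP m, ρ⁻¹ ≤ hh x → ρ⁻¹ ≤ hh y → ‖x‖ ≤ ρ → ‖y‖ ≤ ρ →
      ‖KP ν s x y - ((m : ℂ) + 3 / 2)‖ ≤ ε ∧ ‖KN ν s x y - ((m : ℂ) + 1 / 2)‖ ≤ ε := by
  have hρ0 : 0 < ρ := by linarith
  set c : ℝ := ρ⁻¹ with hcdef
  have hc : 0 < c := inv_pos.mpr hρ0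
  have hc1 : c ≤ 1 := inv_le_one_of_one_le₀ hρ
  set B : ℝ := ρ + m * ρ ^ 2 with hB
  have hB0 : 0 ≤ B := by positivity
  set α : ℝ := ρ ^ 2 / 2 with hα
  set β : ℝ := ρ + 2 * m * ρ ^ 2 with hβ
  have hβ0 : 0 ≤ β := by positivity
  let Q : ℝ → ℝ := fun s => 2 * s * c ^ (-(2 * s)) + (β + 2 * (m + 2) * (B + c)) * (2 * s * c ^ (-(2 * s) - 1)) +
    α * (2 * s * (2 * s + 1) * c ^ (-(2 * s) - 2)) + m * (c ^ (-(2 * s)) * dl s)
  let E : ℝ → ℝ := fun s => (4 * ρ ^ 2) ^ s * Q s + (m + 2) * ((4 * ρ ^ 4) ^ s - 1)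
  have hE : Filter.Tendsto E (nhdsWithin 0 (Set.Ioi 0)) (nhds 0) := by
    have tc : ∀ (a b d : ℝ), 0 < a → Filter.Tendsto (fun s : ℝ => a ^ (b * s + d)) (nhdsWithin 0 (Set.Ioi 0)) (nhds (a ^ (b * 0 + d))) := by
      intro a b d ha
      have : Continuous fun s : ℝ => a ^ (b * s + d) := by
        apply Continuous.rpow continuous_const (by fun_prop)
        intro s
        exact Or.inl ha.ne'
      exact (this.tendsto 0).mono_left nhdsWithin_le_nhds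
    have tl : ∀ (b d : ℝ), Filter.Tendsto (fun s : ℝ => b * s + d) (nhdsWithin 0 (Set.Ioi 0)) (nhds (b * 0 + d)) := by
      intro b d
      have : Continuous fun s : ℝ => b * s + d := by fun_prop
      exact (this.tendsto 0).mono_left nhdsWithin_le_nhds
    have t1 := tc c (-2) 0 hc
    have t2 := tc c (-2) (-1) hc
    have t3 := tc c (-2) (-2) hc
    have t4 := tc (4 * ρ ^ 2) 1 0 (by positivity)
    have t5 := tc (4 * ρ ^ 4) 1 0 (by positivity)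
    have l1 := tl 2 0
    have l2 := tl 2 1
    have tQ := ((((l1.mul t1).add ((l1.mul t2).const_mul (β + 2 * (m + 2) * (B + c)))).add (((l1.mul l2).mul t3).const_mul α)).add
      ((t1.mul dl_tendsto).const_mul (m : ℝ)))
    have tE := (t4.mul tQ).add ((t5.sub_const 1).const_mul ((m : ℝ) + 2))
    have e0 : (4 * ρ ^ 2) ^ ((1 : ℝ) * 0 + 0) * ((2 * 0 + 0) * c ^ ((-2 : ℝ) * 0 + 0) + (β + 2 * (m + 2) * (B + c)) * ((2 * 0 + 0) * c ^ ((-2 : ℝ) * 0 + (-1))) +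
        α * ((2 * 0 + 0) * (2 * 0 + 1) * c ^ ((-2 : ℝ) * 0 + (-2))) + m * (c ^ ((-2 : ℝ) * 0 + 0) * 0)) + (m + 2) * ((4 * ρ ^ 4) ^ ((1 : ℝ) * 0 + 0) - 1) = 0 := by
      simp
    rw [e0] at tE
    refine tE.congr fun s => ?_
    simp only [E, Q, one_mul, add_zero]
    rw [show (-2 : ℝ) * s + -1 = -(2 * s) - 1 by ring, show (-2 : ℝ) * s + -2 = -(2 * s) - 2 by ring, show (-2 : ℝ) * s = -(2 * s) by ring]
  have hev : ∀ᶠ s in nhdsWithin (0 : ℝ) (Set.Ioi 0), E s < ε := hE.eventually (gt_mem_nhds hε)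
  obtain ⟨s0, hs0, hsub⟩ := mem_nhdsGT_iff_exists_Ioo_subset.mp hev
  refine ⟨s0, hs0, fun s hs hss x y hx hy hxn hyn => ?_⟩
  have hEs : E s < ε := hsub ⟨hs, hss⟩
  have hx0 : 0 < hh x := hc.trans_le hx
  have hy0 : 0 < hh y := hc.trans_le hy
  have hxρ := hh_le hxn
  have hyρ := hh_le hyn
  have hd0 := dS_nn x y
  have hd1 := dS_le hxn hyn
  have hW : c ≤ (WW x y).re := by
    rw [WW_re]
    linarith
  have hWB : ‖WW x y‖ ≤ B := WW_le hxn hyn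
  have ht : 0 ≤ (4 * hh x * hh y) ^ s := Real.rpow_nonneg (by positivity) _
  have ht1 : (4 * hh x * hh y) ^ s ≤ (4 * ρ ^ 2) ^ s := by
    apply Real.rpow_le_rpow (by positivity) _ hs.le
    nlinarith [mul_le_mul hxρ hyρ hy0.le hρ0.le]
  have hcs : c ^ (-(2 * s)) = (ρ ^ 2) ^ s := by
    rw [hcdef, Real.inv_rpow hρ0.le, Real.rpow_neg hρ0.le, inv_inv, Real.rpow_mul hρ0.le, Real.rpow_two]
  have hts : (4 * hh x * hh y) ^ s * c ^ (-(2 * s)) = (4 * hh x * hh y * ρ ^ 2) ^ s := by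
    rw [hcs, ← Real.mul_rpow (by positivity) (by positivity)]
  have hx1 : 1 ≤ hh x * ρ := by
    have := mul_le_mul_of_nonneg_right hx hρ0.le
    rwa [hcdef, inv_mul_cancel₀ hρ0.ne'] at this
  have hy1 : 1 ≤ hh y * ρ := by
    have := mul_le_mul_of_nonneg_right hy hρ0.le
    rwa [hcdef, inv_mul_cancel₀ hρ0.ne'] at this
  have ht2 : 1 ≤ (4 * hh x * hh y) ^ s * c ^ (-(2 * s)) := by
    rw [hts]
    apply Real.one_le_rpow _ hs.le
    nlinarith [mul_le_mul hx1 hy1 zero_le_one (by positivity)]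
  have ht3 : (4 * hh x * hh y) ^ s * c ^ (-(2 * s)) ≤ (4 * ρ ^ 4) ^ s := by
    rw [hts]
    apply Real.rpow_le_rpow (by positivity) _ hs.le
    have : hh x * hh y ≤ ρ * ρ := mul_le_mul hxρ hyρ hy0.le hρ0.le
    have := mul_le_mul_of_nonneg_right this (sq_nonneg ρ)
    nlinarith
  have hQA : ∀ A : ℝ, A ≤ m + 2 → 2 * s * c ^ (-(2 * s)) + (β + 2 * A * (B + c)) * (2 * s * c ^ (-(2 * s) - 1)) +
      α * (2 * s * (2 * s + 1) * c ^ (-(2 * s) - 2)) + m * (c ^ (-(2 * s)) * dl s) ≤ Q s := by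
    intro A hA
    have h1 : 0 ≤ 2 * s * c ^ (-(2 * s) - 1) := by positivity
    have h2 : (β + 2 * A * (B + c)) * (2 * s * c ^ (-(2 * s) - 1)) ≤ (β + 2 * (m + 2) * (B + c)) * (2 * s * c ^ (-(2 * s) - 1)) := by
      apply mul_le_mul_of_nonneg_right _ h1
      have : A * (B + c) ≤ (m + 2) * (B + c) := mul_le_mul_of_nonneg_right hA (by linarith)
      linarith
    simp only [Q]
    linarith
  have hm0 : (0 : ℝ) ≤ m := Nat.cast_nonneg m
  constructor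
  · have hf : Measurable fun p : ℝ × ℝ => cP s p.1 p.2 x y := by
      unfold cP
      fun_prop
    have h1 := near_gen ν hs hx0 hy0 hc hW hWB (A := m + 3 / 2) (α := α) (β := β) (γ := m) (by positivity) hm0 (fun p => cP s p.1 p.2 x y) hf (by
      intro p hp1 hp2
      have hr := rat_ge hp1 hp2
      have e : cP s p.1 p.2 x y - (m + 3 / 2) = -(2 * s) + 1 / 2 * ((hh x * hh y) * (p.1 + p.2) ^ 2) + 1 / 2 * ((hh x + hh y) * (p.1 + p.2)) +
          m * ((p.1 + p.2) / max p.1 p.2 - 1) := by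
        unfold cP
        ring
      rw [e]
      have hR : 0 < p.1 + p.2 := by linarith
      have a1 : 0 ≤ (hh x * hh y) * (p.1 + p.2) ^ 2 := by positivity
      have a2 : (hh x * hh y) * (p.1 + p.2) ^ 2 ≤ ρ ^ 2 * (p.1 + p.2) ^ 2 := by
        apply mul_le_mul_of_nonneg_right _ (sq_nonneg _)
        rw [sq]
        exact mul_le_mul hxρ hyρ hy0.le hρ0.le
      have a3 : 0 ≤ (hh x + hh y) * (p.1 + p.2) := by positivity
      have a4 : (hh x + hh y) * (p.1 + p.2) ≤ (2 * ρ) * (p.1 + p.2) := mul_le_mul_of_nonneg_right (by linarith) hR.le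
      have a5 : 0 ≤ m * ((p.1 + p.2) / max p.1 p.2 - 1) := mul_nonneg hm0 hr
      have a6 : 0 ≤ 2 * m * ρ ^ 2 * (p.1 + p.2) := by positivity
      rw [abs_le, hα, hβ]
      constructor <;> linarith)
    have h2 := fin_gen (M := m + 2) (by positivity) (by linarith) ht ht1 ht2 ht3 (h1.trans (hQA _ (by linarith)))
    have h3 := h2.trans hEs.le
    rw [show (((m : ℝ) + 3 / 2 : ℝ) : ℂ) = (m : ℂ) + 3 / 2 by push_cast; ring] at h3
    exact h3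
  · have hf : Measurable fun p : ℝ × ℝ => cN p.1 p.2 x y := by
      unfold cN
      fun_prop
    have h1 := near_gen ν hs hx0 hy0 hc hW hWB (A := m + 1 / 2) (α := α) (β := β) (γ := m) (by positivity) hm0 (fun p => cN p.1 p.2 x y) hf (by
      intro p hp1 hp2
      have hr := rat_ge hp1 hp2
      have hmx : 0 < max p.1 p.2 := lt_max_of_lt_left hp1
      have e : cN p.1 p.2 x y - (m + 1 / 2) = 1 / 2 * ((hh x * hh y) * (p.1 + p.2) ^ 2) - 1 / 2 * ((hh x + hh y) * (p.1 + p.2)) +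
          m * ((p.1 + p.2) / max p.1 p.2 - 1) - 1 / 2 * (dS x y * (p.1 + p.2)) := by
        unfold cN
        field_simp
        ring
      rw [e]
      have hR : 0 < p.1 + p.2 := by linarith
      have a1 : 0 ≤ (hh x * hh y) * (p.1 + p.2) ^ 2 := by positivity
      have a2 : (hh x * hh y) * (p.1 + p.2) ^ 2 ≤ ρ ^ 2 * (p.1 + p.2) ^ 2 := by
        apply mul_le_mul_of_nonneg_right _ (sq_nonneg _)
        rw [sq]
        exact mul_le_mul hxρ hyρ hy0.le hρ0.le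
      have a3 : 0 ≤ (hh x + hh y) * (p.1 + p.2) := by positivity
      have a4 : (hh x + hh y) * (p.1 + p.2) ≤ (2 * ρ) * (p.1 + p.2) := mul_le_mul_of_nonneg_right (by linarith) hR.le
      have a5 : 0 ≤ m * ((p.1 + p.2) / max p.1 p.2 - 1) := mul_nonneg hm0 hr
      have a6 : 0 ≤ dS x y * (p.1 + p.2) := by positivity
      have a7 : dS x y * (p.1 + p.2) ≤ 4 * m * ρ ^ 2 * (p.1 + p.2) := mul_le_mul_of_nonneg_right hd1 hR.le
      rw [abs_le, hα, hβ]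
      constructor <;> linarith)
    have h2 := fin_gen (M := m + 2) (by positivity) (by linarith) ht ht1 ht2 ht3 (h1.trans (hQA _ (by linarith)))
    have h3 := h2.trans hEs.le
    rw [show (((m : ℝ) + 1 / 2 : ℝ) : ℂ) = (m : ℂ) + 1 / 2 by push_cast; ring] at h3
    exact h3

end Pool.Agent.Helper84.CH
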