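import Pool.Agent.Helper84.CH.U0
import Pool.Agent.Helper84.SPQ.S1

/-!
# Project CH, part UF: the group `Sp(m + 1, 1)` times unit scalars as complex matrices (definitions)

Index type `MS m = Fin 2 ⊕ (Fin (m + 1) × Fin 2)`. `JS m`: the Hermitian form, `1` on `inl`, `-1` on `inr`. `jS m`: the quaternionic structure, blocks `[0, -1; 1, 0]`. `fC m A = 0`: `Aᴴ JS A = JS` and `QS (jS m) A` (`A jS = c jS conj A`, `‖c‖ = 1`).
`qz a c = a + j c`. `pI A`, `pJ A i`: the quaternionic coordinates of the first column of `A`; `bt = pI - pJ 0`; `xq A`: the point of the Siegel domain. `cn A B`: the square of the modulus of the quaternionic Hermitian product of the first columns.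
`UU f`: the unitary matrices in `HH f`. `MdC f L`: a unitary representation `σ` of `UU f` with two equivariant maps `q`, `p : HH f → L` which are right invariant under `UU f` and whose inner products are `HH f`-invariant.
-/

set_option autoImplicit false

open Filter Topology Matrix MeasureTheory

namespace Pool.Agent.Helper84.CH

open Pool.Agent.Helper84.SPQ NI

/-- the index type -/
abbrev MS (m : ℕ) : Type := Fin 2 ⊕ (Fin (m + 1) × Fin 2)

/-- the Hermitian form -/
def JS (m : ℕ) : Matrix (MS m) (MS m) ℂ := fromBlocks 1 0 0 (-1)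

/-- the quaternionic structure -/
def jS (m : ℕ) : Matrix (MS m) (MS m) ℂ :=
  fromBlocks !![0, -1; 1, 0] 0 0 (Matrix.of fun a b => if a.1 = b.1 then !![0, -1; 1, 0] a.2 b.2 else 0)

/-- the equation of `Sp(m + 1, 1)` times unit scalars -/
noncomputable def fC (m : ℕ) (A : Matrix (MS m) (MS m) ℂ) : ℝ := ns (Aᴴ * JS m * A - JS m) + fS (jS m) A

/-- the quaternion `a + j c` -/
noncomputable def qz (a c : ℂ) : Hq := ⟨a.re, a.im, c.re, -c.im⟩

variable {m : ℕ}

/-- the positive coordinate of the first column -/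
noncomputable def pI (A : Matrix (MS m) (MS m) ℂ) : Hq := qz (A (Sum.inl 0) (Sum.inl 0)) (A (Sum.inl 1) (Sum.inl 0))

/-- the negative coordinates of the first column -/
noncomputable def pJ (A : Matrix (MS m) (MS m) ℂ) (i : Fin (m + 1)) : Hq :=
  qz (A (Sum.inr (i, 0)) (Sum.inl 0)) (A (Sum.inr (i, 1)) (Sum.inl 0))

/-- the denominator -/
noncomputable def bt (A : Matrix (MS m) (MS m) ℂ) : Hq := pI A - pJ A 0

/-- the point of the Siegel domain -/
noncomputable def xq (A : Matrix (MS m) (MS m) ℂ) : SP m := (fun i => pJ A i.succ * (bt A)⁻¹, (pI A + pJ A 0) * (bt A)⁻¹)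

/-- the square of the modulus of the Hermitian product of the first columns -/
noncomputable def cn (A B : Matrix (MS m) (MS m) ℂ) : ℝ :=
  ‖(Aᴴ * JS m * B) (Sum.inl 0) (Sum.inl 0)‖ ^ 2 + ‖(Aᴴ * JS m * B) (Sum.inl 1) (Sum.inl 0)‖ ^ 2

section Model

variable {M : Type} [Fintype M] [DecidableEq M]

/-- the unitary matrices in `HH f` -/
def UU (f : Matrix M M ℂ → ℝ) : Set (Matrix M M ℂ) := {k | k ∈ HH f ∧ kᴴ * k = 1}

/-- a unitary representation of `UU f` with two equivariant maps -/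
structure MdC (f : Matrix M M ℂ → ℝ) (L : Type) [NormedAddCommGroup L] [InnerProductSpace ℂ L] where
  /-- the representation -/
  σ : Matrix M M ℂ → (L ≃ₗᵢ[ℂ] L)
  mul : ∀ k ∈ UU f, ∀ k' ∈ UU f, ∀ w, σ (k * k') w = σ k (σ k' w)
  scal : ∀ (c : ℂ), ∀ k ∈ UU f, c • k ∈ UU f → σ (c • k) = σ k
  cont : ∀ w, ContinuousOn (fun k => σ k w) (UU f)
  /-- the first map -/
  q : Matrix M M ℂ → L
  /-- the second map -/
  p : Matrix M M ℂ → L
  qcont : ContinuousOn q (HH f)
  pcont : ContinuousOn p (HH f)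
  qk : ∀ k ∈ UU f, ∀ A ∈ HH f, q (k * A) = σ k (q A)
  pk : ∀ k ∈ UU f, ∀ A ∈ HH f, p (k * A) = σ k (p A)
  qr : ∀ A ∈ HH f, ∀ k ∈ UU f, q (A * k) = q A
  pr : ∀ A ∈ HH f, ∀ k ∈ UU f, p (A * k) = p A
  qs : ∀ (c : ℂ), ∀ A ∈ HH f, c • A ∈ HH f → q (c • A) = q A
  ps : ∀ (c : ℂ), ∀ A ∈ HH f, c • A ∈ HH f → p (c • A) = p A
  inv : ∀ g ∈ HH f, ∀ A ∈ HH f, ∀ B ∈ HH f, (inner ℂ (p (g * A)) (q (g * B)) : ℂ) = inner ℂ (p A) (q B)

end Model

end Pool.Agent.Helper84.CH
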