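import Pool.Agent.Helper84.CH.UF0

/-!
# Project CH, block UF1: the group `HH (fC m)`

`fC_eq`, `fC_isG`: copy `f6_eq`, `f6_isG` of `SPQ/S1.lean` (with `JS m`, `jS m`; `JS * JS = 1`). `fC_unit`: `c • A`, `A ∈ HH`: `‖c‖² JS = JS`. `cn_left`: `(g A)ᴴ JS (g B) = Aᴴ JS B`.
`cn_one`. PROOF. `Aᴴ JS` at `(inl 0, inl 0)` is `conj (A (inl 0) (inl 0))`, at `(inl 1, inl 0)` it is `conj (A (inl 0) (inl 1))`. By `QS` each `2 × 2` block of `A` is `[a, -l conj c; c, l conj a]` with `‖l‖ = 1`, so `cn A 1 = ½ ns A₁₁`. With `a, b, c, d` the `ns` of the four blocks `A₁₁, A₁₂, A₂₁, A₂₂`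
(`toBlocks`): `Aᴴ JS A = JS` gives (traces of the diagonal blocks) `a - c = 2`, `b - d = -2(m + 1)`; `A JS Aᴴ = JS` (since `JS Aᴴ JS A = 1`) gives `a - b = 2`; so `ns A = a + b + c + d = 4 a + 2 m - 4`.
`qs_col`: from `A jS = c jS conj A`, entries.
-/

set_option autoImplicit false

open Filter Topology Matrix

namespace Pool.Agent.Helper84.CH

open Pool.Agent.Helper84.SPQ NI

variable {m : ℕ} {A B g : Matrix (MS m) (MS m) ℂ}

private theorem nsn52 {n l : Type} [Fintype n] [Fintype l] (A : Matrix n l ℂ) : 0 ≤ ns A :=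
  Finset.sum_nonneg fun _ _ => Finset.sum_nonneg fun _ _ => sq_nonneg _

private theorem nsz52 {n : Type} [Fintype n] {A : Matrix n n ℂ} (h : ns A = 0) : A = 0 := by
  unfold ns at h
  ext i j
  have h1 := (Finset.sum_eq_zero_iff_of_nonneg (fun i _ => Finset.sum_nonneg fun j _ => sq_nonneg ‖A i j‖)).1 h i
    (Finset.mem_univ i)
  have h2 := (Finset.sum_eq_zero_iff_of_nonneg (fun j _ => sq_nonneg ‖A i j‖)).1 h1 j (Finset.mem_univ j)
  simpa using h2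

private theorem nst52 {n l : Type} [Fintype n] [Fintype l] (A : Matrix n l ℂ) :
    (Aᴴ * A).trace = ((ns A : ℝ) : ℂ) := by
  unfold ns Matrix.trace
  simp only [Matrix.diag_apply, Matrix.mul_apply, conjTranspose_apply]
  rw [Finset.sum_comm]
  push_cast
  refine Finset.sum_congr rfl fun i _ => Finset.sum_congr rfl fun j _ => ?_
  rw [← Complex.ofReal_pow, ← Complex.normSq_eq_norm_sq, Complex.normSq_eq_conj_mul_self]
  rfl

private theorem nst52' {n l : Type} [Fintype n] [Fintype l] (A : Matrix n l ℂ) :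
    (A * Aᴴ).trace = ((ns A : ℝ) : ℂ) := by
  rw [Matrix.trace_mul_comm, nst52]

private theorem nsb52 (A : Matrix (MS m) (MS m) ℂ) :
    ns A = ns A.toBlocks₁₁ + ns A.toBlocks₁₂ + ns A.toBlocks₂₁ + ns A.toBlocks₂₂ := by
  unfold ns
  simp only [Fintype.sum_sum_type, toBlocks₁₁, toBlocks₁₂, toBlocks₂₁, toBlocks₂₂, Matrix.of_apply,
    Finset.sum_add_distrib]
  ring

private theorem JSsq52 (m : ℕ) : JS m * JS m = 1 := by
  unfold JS
  rw [fromBlocks_multiply]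
  simp

theorem fC_eq : fC m A = 0 ↔ Aᴴ * JS m * A = JS m ∧ QS (jS m) A := by
  unfold fC
  constructor
  · intro h
    have h1 := nsn52 (Aᴴ * JS m * A - JS m)
    have h2 := fS_nonneg (jS m) A
    have h3 : ns (Aᴴ * JS m * A - JS m) = 0 := by linarith
    have h4 : fS (jS m) A = 0 := by linarith
    exact ⟨sub_eq_zero.1 (nsz52 h3), fS_eq.1 h4⟩
  · rintro ⟨h1, h2⟩
    rw [h1, sub_self, fS_eq.2 h2, add_zero]
    simp [ns]

theorem fC_isG (m : ℕ) : IsG (fC m) where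
  cont := by
    have h1 : Continuous fun A : Matrix (MS m) (MS m) ℂ => Aᴴ * JS m * A - JS m := by fun_prop
    have h2 : Continuous fun A : Matrix (MS m) (MS m) ℂ => ns A := by
      unfold ns
      fun_prop
    exact (h2.comp h1).add (fS_cont (jS m))
  one := by
    rw [fC_eq]
    exact ⟨by simp, qs_one (jS m)⟩
  mul A hA B hB := by
    obtain ⟨h1, h1'⟩ := fC_eq.1 hA.1
    obtain ⟨h2, h2'⟩ := fC_eq.1 hB.1
    rw [fC_eq]
    refine ⟨?_, qs_mul h1' h2'⟩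
    rw [conjTranspose_mul]
    calc Bᴴ * Aᴴ * JS m * (A * B) = Bᴴ * (Aᴴ * JS m * A) * B := by
          simp only [Matrix.mul_assoc]
      _ = JS m := by rw [h1, h2]
  inv A hA := by
    obtain ⟨h1, h1'⟩ := fC_eq.1 hA.1
    have hu : IsUnit A.det := isUnit_iff_ne_zero.2 hA.2
    rw [fC_eq]
    refine ⟨?_, qs_inv h1' hA.2⟩
    have h3 : (A⁻¹)ᴴ * Aᴴ = 1 := by
      rw [← conjTranspose_mul, Matrix.mul_nonsing_inv _ hu, conjTranspose_one]
    calc (A⁻¹)ᴴ * JS m * A⁻¹ = (A⁻¹)ᴴ * (Aᴴ * JS m * A) * A⁻¹ := by rw [h1]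
      _ = ((A⁻¹)ᴴ * Aᴴ) * JS m * (A * A⁻¹) := by simp only [Matrix.mul_assoc]
      _ = JS m := by rw [h3, Matrix.mul_nonsing_inv _ hu, Matrix.one_mul, Matrix.mul_one]
  smul c hc A hA := by
    obtain ⟨h1, h1'⟩ := fC_eq.1 hA.1
    have hc0 : c ≠ 0 := by
      intro h
      rw [h, norm_zero] at hc
      exact zero_ne_one hc
    rw [fC_eq]
    refine ⟨?_, qs_smul h1' hc0⟩
    rw [conjTranspose_smul, Matrix.smul_mul, Matrix.smul_mul, Matrix.mul_smul, h1, smul_smul]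
    have h2 : star c * c = 1 := by
      have h3 : star c * c = ((Complex.normSq c : ℝ) : ℂ) := by
        rw [Complex.normSq_eq_conj_mul_self]
        rfl
      rw [h3, Complex.normSq_eq_norm_sq, hc]
      simp
    rw [h2, one_smul]

theorem fC_unit (hA : A ∈ HH (fC m)) {c : ℂ} (hc : c • A ∈ HH (fC m)) : ‖c‖ = 1 := by
  obtain ⟨h1, -⟩ := fC_eq.1 hA.1
  obtain ⟨h2, -⟩ := fC_eq.1 hc.1
  rw [conjTranspose_smul, Matrix.smul_mul, Matrix.smul_mul, Matrix.mul_smul, h1, smul_smul] at h2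
  have h3 := congrFun (congrFun h2 (Sum.inl 0)) (Sum.inl 0)
  have h4 : JS m (Sum.inl 0) (Sum.inl 0) = 1 := by
    simp [JS]
  rw [Matrix.smul_apply, h4, smul_eq_mul, mul_one] at h3
  have h5 : star c * c = ((‖c‖ ^ 2 : ℝ) : ℂ) := by
    rw [← Complex.normSq_eq_norm_sq, Complex.normSq_eq_conj_mul_self]
    rfl
  rw [h5] at h3
  have h6 : ‖c‖ ^ 2 = 1 := by exact_mod_cast h3
  nlinarith [norm_nonneg c]

theorem cn_left (hg : g ∈ HH (fC m)) : cn (g * A) (g * B) = cn A B := by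
  obtain ⟨h1, -⟩ := fC_eq.1 hg.1
  have h2 : (g * A)ᴴ * JS m * (g * B) = Aᴴ * JS m * B := by
    rw [conjTranspose_mul]
    calc Aᴴ * gᴴ * JS m * (g * B) = Aᴴ * (gᴴ * JS m * g) * B := by
          simp only [Matrix.mul_assoc]
      _ = Aᴴ * JS m * B := by rw [h1]
  unfold cn
  rw [h2]

/-- the second column of the first block -/
private theorem qs_col52 (hA : A ∈ HH (fC m)) : ∃ c : ℂ, ‖c‖ = 1 ∧
    (A (Sum.inl 0) (Sum.inl 1) = -(c * star (A (Sum.inl 1) (Sum.inl 0))) ∧ A (Sum.inl 1) (Sum.inl 1) = c * star (A (Sum.inl 0) (Sum.inl 0))) ∧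
    ∀ i : Fin (m + 1), A (Sum.inr (i, 0)) (Sum.inl 1) = -(c * star (A (Sum.inr (i, 1)) (Sum.inl 0))) ∧
      A (Sum.inr (i, 1)) (Sum.inl 1) = c * star (A (Sum.inr (i, 0)) (Sum.inl 0)) := by
  obtain ⟨-, c, hc, h2⟩ := fC_eq.1 hA.1
  have hl : ∀ x, (A * jS m) x (Sum.inl 0) = A x (Sum.inl 1) := fun x => by
    simp [Matrix.mul_apply, jS, Fintype.sum_sum_type, Fin.sum_univ_two]
  have hr0 : ∀ y, (jS m * Aᴴᵀ) (Sum.inl 0) y = -star (A (Sum.inl 1) y) := fun y => by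
    simp [Matrix.mul_apply, jS, Fintype.sum_sum_type, Fin.sum_univ_two]
  have hr1 : ∀ y, (jS m * Aᴴᵀ) (Sum.inl 1) y = star (A (Sum.inl 0) y) := fun y => by
    simp [Matrix.mul_apply, jS, Fintype.sum_sum_type, Fin.sum_univ_two]
  have hs0 : ∀ i y, (jS m * Aᴴᵀ) (Sum.inr (i, 0)) y = -star (A (Sum.inr (i, 1)) y) := fun i y => by
    simp [Matrix.mul_apply, jS, Fintype.sum_sum_type, Fintype.sum_prod_type, Fin.sum_univ_two]
  have hs1 : ∀ i y, (jS m * Aᴴᵀ) (Sum.inr (i, 1)) y = star (A (Sum.inr (i, 0)) y) := fun i y => by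
    simp [Matrix.mul_apply, jS, Fintype.sum_sum_type, Fintype.sum_prod_type, Fin.sum_univ_two]
  have key : ∀ x, A x (Sum.inl 1) = c * (jS m * Aᴴᵀ) x (Sum.inl 0) := fun x => by
    have h3 := congrFun (congrFun h2 x) (Sum.inl 0)
    rw [hl, Matrix.smul_apply, smul_eq_mul] at h3
    exact h3
  refine ⟨c, hc, ⟨?_, ?_⟩, fun i => ⟨?_, ?_⟩⟩
  · rw [key, hr0, mul_neg]
  · rw [key, hr1]
  · rw [key, hs0, mul_neg]
  · rw [key, hs1]

private theorem mulb52 (A : Matrix (MS m) (MS m) ℂ) :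
    Aᴴ * JS m * A = fromBlocks
      ((A.toBlocks₁₁)ᴴ * A.toBlocks₁₁ - (A.toBlocks₂₁)ᴴ * A.toBlocks₂₁)
      ((A.toBlocks₁₁)ᴴ * A.toBlocks₁₂ - (A.toBlocks₂₁)ᴴ * A.toBlocks₂₂)
      ((A.toBlocks₁₂)ᴴ * A.toBlocks₁₁ - (A.toBlocks₂₂)ᴴ * A.toBlocks₂₁)
      ((A.toBlocks₁₂)ᴴ * A.toBlocks₁₂ - (A.toBlocks₂₂)ᴴ * A.toBlocks₂₂) := by
  conv_lhs => rw [← fromBlocks_toBlocks A]
  unfold JS
  rw [fromBlocks_conjTranspose, fromBlocks_multiply, fromBlocks_multiply]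
  simp [sub_eq_add_neg]

private theorem mulc52 (A : Matrix (MS m) (MS m) ℂ) :
    (A * JS m * Aᴴ).toBlocks₁₁ = A.toBlocks₁₁ * (A.toBlocks₁₁)ᴴ - A.toBlocks₁₂ * (A.toBlocks₁₂)ᴴ := by
  conv_lhs => rw [← fromBlocks_toBlocks A]
  unfold JS
  rw [fromBlocks_conjTranspose, fromBlocks_multiply, fromBlocks_multiply, toBlocks_fromBlocks₁₁]
  simp [sub_eq_add_neg]

theorem cn_one (hA : A ∈ HH (fC m)) : cn A 1 = (ns A - 2 * m + 4) / 8 := by
  obtain ⟨c, hc, ⟨e1, e2⟩, -⟩ := qs_col52 hA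
  obtain ⟨h1, -⟩ := fC_eq.1 hA.1
  -- the value
  have hv : cn A 1 = ns A.toBlocks₁₁ / 2 := by
    have h2 : ∀ x : MS m, (Aᴴ * JS m * (1 : Matrix (MS m) (MS m) ℂ)) x (Sum.inl 0) = star (A (Sum.inl 0) x) := fun x => by
      rw [Matrix.mul_one]
      simp [Matrix.mul_apply, JS, Fintype.sum_sum_type, Matrix.one_apply]
    unfold cn
    rw [h2, h2, norm_star, norm_star]
    have h3 : ns A.toBlocks₁₁ = ‖A (Sum.inl 0) (Sum.inl 0)‖ ^ 2 + ‖A (Sum.inl 0) (Sum.inl 1)‖ ^ 2 +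
        (‖A (Sum.inl 1) (Sum.inl 0)‖ ^ 2 + ‖A (Sum.inl 1) (Sum.inl 1)‖ ^ 2) := by
      simp only [ns, toBlocks₁₁, Matrix.of_apply, Fin.sum_univ_two]
    rw [h3, e1, e2, norm_neg, norm_mul, norm_mul, norm_star, norm_star, hc, one_mul, one_mul]
    ring
  -- the other product
  have h2 : A * JS m * Aᴴ = JS m := by
    have h3 : (JS m * Aᴴ * JS m) * A = 1 := by
      rw [Matrix.mul_assoc, Matrix.mul_assoc, ← Matrix.mul_assoc Aᴴ, h1, JSsq52]
    have h4 : A * (JS m * Aᴴ * JS m) = 1 := mul_eq_one_comm.1 h3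
    calc A * JS m * Aᴴ = A * JS m * Aᴴ * (JS m * JS m) := by rw [JSsq52, Matrix.mul_one]
      _ = A * (JS m * Aᴴ * JS m) * JS m := by simp only [Matrix.mul_assoc]
      _ = JS m := by rw [h4, Matrix.one_mul]
  have t3 : ns A.toBlocks₁₁ - ns A.toBlocks₁₂ = 2 := by
    have h3 : A.toBlocks₁₁ * (A.toBlocks₁₁)ᴴ - A.toBlocks₁₂ * (A.toBlocks₁₂)ᴴ = 1 := by
      rw [← mulc52, h2]
      unfold JS
      rw [toBlocks_fromBlocks₁₁]
    have h4 := congrArg Matrix.trace h3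
    rw [Matrix.trace_sub, nst52', nst52', Matrix.trace_one, Fintype.card_fin] at h4
    exact_mod_cast h4
  rw [mulb52] at h1
  unfold JS at h1
  rw [fromBlocks_inj] at h1
  obtain ⟨g1, -, -, g2⟩ := h1
  have t1 : ns A.toBlocks₁₁ - ns A.toBlocks₂₁ = 2 := by
    have h4 := congrArg Matrix.trace g1
    rw [Matrix.trace_sub, nst52, nst52, Matrix.trace_one, Fintype.card_fin] at h4
    exact_mod_cast h4
  have t2 : ns A.toBlocks₁₂ - ns A.toBlocks₂₂ = -(2 * (m + 1)) := by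
    have h4 := congrArg Matrix.trace g2
    rw [Matrix.trace_sub, nst52, nst52, Matrix.trace_neg, Matrix.trace_one, Fintype.card_prod, Fintype.card_fin,
      Fintype.card_fin] at h4
    have h5 : (((ns A.toBlocks₁₂ - ns A.toBlocks₂₂ : ℝ)) : ℂ) = ((-((m + 1) * 2) : ℝ) : ℂ) := by
      push_cast at h4 ⊢
      exact h4
    have h6 := Complex.ofReal_injective h5
    linarith
  rw [hv, nsb52 A]
  linarith

/-- the second column of the first block -/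
theorem qs_col (hA : A ∈ HH (fC m)) : ∃ c : ℂ, ‖c‖ = 1 ∧
    (A (Sum.inl 0) (Sum.inl 1) = -(c * star (A (Sum.inl 1) (Sum.inl 0))) ∧ A (Sum.inl 1) (Sum.inl 1) = c * star (A (Sum.inl 0) (Sum.inl 0))) ∧
    ∀ i : Fin (m + 1), A (Sum.inr (i, 0)) (Sum.inl 1) = -(c * star (A (Sum.inr (i, 1)) (Sum.inl 0))) ∧
      A (Sum.inr (i, 1)) (Sum.inl 1) = c * star (A (Sum.inr (i, 0)) (Sum.inl 0)) := by
  exact qs_col52 hA

end Pool.Agent.Helper84.CH
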