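import Pool.Agent.Helper84.CH.UF1

/-!
# Project CH, block UF2: the point of the Siegel domain of an element of the group

Let `p₀ = pI A`, `p_i = pJ A i`. `star (qz a c) * qz a' c' = (conj a a' + conj c c') + j (a c' - c a')` (coordinates). PROOFS.
`cn_eq`: the first component of `∑ ± star p_i p'_i` is the entry `(inl 0, inl 0)` of `Aᴴ JS B`; the second is `∑ ± (a c' - c a')`, which has the modulus of the entry `(inl 1, inl 0)` by `qs_col` (`A (.,1) = (-l conj c, l conj a)`). `pn_one`: `cn_eq` for `B = A` is not needed: `Aᴴ JS A = JS` at `(inl 0, inl 0)`.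
`bt_ne`: `‖p₀‖² ≥ 1 + ‖pJ A 0‖²`, so `‖bt‖ ≥ ‖p₀‖ - ‖p₁‖ > 0`. `WW_xq`: with `p₀ = (α + β)/2`, `p₁ = (α - β)/2`, `β = bt`: `star p₀ p₀' - star p₁ p₁' = ½ (star α β' + star β α')`. `hh_xq`: `WW x x = 2 hh x` (real) and `WW_xq`, `pn_one` (or directly `hh = (Re (α β⁻¹) - ∑ ‖p_i‖²/‖β‖²)/2`, `Re (α β⁻¹) = Re (star β α)/‖β‖² = (‖p₀‖² - ‖p₁‖²)/‖β‖²`).
`phi_xq`: `4 hh hh' = (‖β‖² ‖β'‖²)⁻¹`, `‖WW‖ = √cn/(‖β‖ ‖β'‖)` (`norm_mul` of quaternions), `Real.rpow` rules (`cn > 0` since `Re WW > 0`: `WW_re` in `UC.lean`, or treat `0` separately).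
`xq_right`: `k ∈ UU (fC m)`: `k⁻¹ = kᴴ` and `kᴴ JS k = JS`, so `JS k = k JS` and `k` is block diagonal: the first column of `A k` is `A (.,0) a + A (.,1) c` with `(a, c) = (k (inl 0) (inl 0), k (inl 1) (inl 0))`, `(a, c) ≠ 0`; by `qs_col` this is the column of the quaternions `p_i * qz a (l c)`, `l` the scalar of `qs_col`: `(a_i + j c_i)(a + j l c) = (a_i a - conj(c_i) l c) + j (c_i a + conj(a_i) l c)`. So all `p_i` are multiplied on the right
by the same nonzero quaternion. `xq_smul`: `qz (c a) (c b) = qz a b * ⟨c.re, c.im, 0, 0⟩`. `xq_cont`: `bt` is continuous and nonzero on `HH`. `xq_bd`: entries `≤ R` gives `‖p_i‖ ≤ 2 R`, `‖β‖ ≤ 4 R`, `‖β‖ ≥ (‖p₀‖² - ‖p₁‖²)/(‖p₀‖ + ‖p₁‖) ≥ 1/(4 R)`.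
-/

set_option autoImplicit false

open Filter Topology Matrix

namespace Pool.Agent.Helper84.CH

open Pool.Agent.Helper84.SPQ NI

variable {m : ℕ} {A B k : Matrix (MS m) (MS m) ℂ}

private theorem qz_re97 (a c : ℂ) : (qz a c).re = a.re := rfl
private theorem qz_imI97 (a c : ℂ) : (qz a c).imI = a.im := rfl
private theorem qz_imJ97 (a c : ℂ) : (qz a c).imJ = c.re := rfl
private theorem qz_imK97 (a c : ℂ) : (qz a c).imK = -c.im := rfl

private theorem qz_mul97 (a c a' c' : ℂ) :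
    qz a c * qz a' c' = qz (a * a' - star c * c') (star a * c' + c * a') := by
  apply Quaternion.ext <;>
    simp only [Quaternion.re_mul, Quaternion.imI_mul, Quaternion.imJ_mul, Quaternion.imK_mul, qz_re97, qz_imI97, qz_imJ97,
      qz_imK97, Complex.star_def, Complex.mul_re, Complex.mul_im, Complex.add_re, Complex.add_im, Complex.sub_re,
      Complex.sub_im, Complex.conj_re, Complex.conj_im] <;> ring

private theorem qz_star97 (a c : ℂ) : star (qz a c) = qz (star a) (-c) := by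
  apply Quaternion.ext <;>
    simp [qz_re97, qz_imI97, qz_imJ97, qz_imK97]

private theorem qz_add97 (a c a' c' : ℂ) : qz a c + qz a' c' = qz (a + a') (c + c') := by
  apply Quaternion.ext <;>
    (simp [qz_re97, qz_imI97, qz_imJ97, qz_imK97]; try ring)

private theorem qz_sub97 (a c a' c' : ℂ) : qz a c - qz a' c' = qz (a - a') (c - c') := by
  apply Quaternion.ext <;>
    (simp [qz_re97, qz_imI97, qz_imJ97, qz_imK97]; try ring)

private theorem qz_norm97 (a c : ℂ) : ‖qz a c‖ ^ 2 = ‖a‖ ^ 2 + ‖c‖ ^ 2 := by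
  have h := Quaternion.normSq_eq_norm_mul_self (qz a c)
  rw [pow_two, ← h, Quaternion.normSq_def', ← Complex.normSq_eq_norm_sq, ← Complex.normSq_eq_norm_sq,
    Complex.normSq_apply, Complex.normSq_apply, qz_re97, qz_imI97, qz_imJ97, qz_imK97]
  ring

private theorem qz_zero97 : qz 0 0 = 0 := by
  apply Quaternion.ext <;>
    simp [qz_re97, qz_imI97, qz_imJ97, qz_imK97] <;> rfl

private theorem qz_sum97 {ι : Type} (s : Finset ι) (f g : ι → ℂ) :
    ∑ i ∈ s, qz (f i) (g i) = qz (∑ i ∈ s, f i) (∑ i ∈ s, g i) := by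
  classical
  induction s using Finset.induction_on with
  | empty => simp [qz_zero97]
  | insert a s ha ih => rw [Finset.sum_insert ha, Finset.sum_insert ha, Finset.sum_insert ha, ih, qz_add97]

private theorem entry97 (A B : Matrix (MS m) (MS m) ℂ) (x y : MS m) :
    (Aᴴ * JS m * B) x y = (star (A (Sum.inl 0) x) * B (Sum.inl 0) y + star (A (Sum.inl 1) x) * B (Sum.inl 1) y) -
      ∑ i : Fin (m + 1), (star (A (Sum.inr (i, 0)) x) * B (Sum.inr (i, 0)) y + star (A (Sum.inr (i, 1)) x) * B (Sum.inr (i, 1)) y) := by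
  have hJ : Aᴴ * JS m = fun x t => match t with
      | Sum.inl t => star (A (Sum.inl t) x)
      | Sum.inr t => -star (A (Sum.inr t) x) := by
    ext x t
    rw [Matrix.mul_apply, Fintype.sum_sum_type]
    rcases t with t | t
    · unfold JS
      simp [Matrix.one_apply]
    · unfold JS
      simp [Matrix.one_apply]
  rw [Matrix.mul_apply, hJ, Fintype.sum_sum_type, Fintype.sum_prod_type]
  simp only [Fin.sum_univ_two]
  rw [sub_eq_add_neg, ← Finset.sum_neg_distrib]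
  congr 1
  refine Finset.sum_congr rfl fun i _ => ?_
  ring

/-- the first entry -/
private theorem JS00_97 (m : ℕ) : JS m (Sum.inl 0) (Sum.inl 0) = 1 := by
  unfold JS
  simp

private theorem csq97 (z : ℂ) : star z * z = ((‖z‖ ^ 2 : ℝ) : ℂ) := by
  rw [← Complex.normSq_eq_norm_sq, Complex.star_def, Complex.normSq_eq_conj_mul_self]

private theorem pI_sq97 (A : Matrix (MS m) (MS m) ℂ) :
    ‖pI A‖ ^ 2 = ‖A (Sum.inl 0) (Sum.inl 0)‖ ^ 2 + ‖A (Sum.inl 1) (Sum.inl 0)‖ ^ 2 := qz_norm97 _ _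

private theorem pJ_sq97 (A : Matrix (MS m) (MS m) ℂ) (i : Fin (m + 1)) :
    ‖pJ A i‖ ^ 2 = ‖A (Sum.inr (i, 0)) (Sum.inl 0)‖ ^ 2 + ‖A (Sum.inr (i, 1)) (Sum.inl 0)‖ ^ 2 := qz_norm97 _ _

theorem pn_one (hA : A ∈ HH (fC m)) : ‖pI A‖ ^ 2 - ∑ i, ‖pJ A i‖ ^ 2 = 1 := by
  have h := (fC_eq.1 hA.1).1
  have h1 := congrFun (congrFun h (Sum.inl 0)) (Sum.inl 0)
  rw [entry97, JS00_97] at h1
  simp only [csq97] at h1
  simp only [pI_sq97, pJ_sq97]
  exact_mod_cast h1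

private theorem p1_lt97 (hA : A ∈ HH (fC m)) : ‖pJ A 0‖ ^ 2 + 1 ≤ ‖pI A‖ ^ 2 := by
  have h := pn_one hA
  have h1 : ‖pJ A 0‖ ^ 2 ≤ ∑ i, ‖pJ A i‖ ^ 2 :=
    Finset.single_le_sum (f := fun i => ‖pJ A i‖ ^ 2) (fun i _ => sq_nonneg _) (Finset.mem_univ 0)
  linarith

theorem bt_ne (hA : A ∈ HH (fC m)) : bt A ≠ 0 := by
  intro h
  have h1 := p1_lt97 hA
  unfold bt at h
  rw [sub_eq_zero.1 h] at h1
  linarith

/-- star q times q -/
private theorem ss97 (q : Hq) : star q * q = ((‖q‖ ^ 2 : ℝ) : Hq) := by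
  rw [Quaternion.star_mul_self, Quaternion.normSq_eq_norm_mul_self, pow_two]

private theorem ss97' (q : Hq) : q * star q = ((‖q‖ ^ 2 : ℝ) : Hq) := by
  rw [Quaternion.self_mul_star, Quaternion.normSq_eq_norm_mul_self, pow_two]

private theorem inv97 {q : Hq} (hq : q ≠ 0) : q⁻¹ = (‖q‖ ^ 2 : ℝ)⁻¹ • star q := by
  have h : ‖q‖ ^ 2 ≠ 0 := pow_ne_zero _ (norm_ne_zero_iff.2 hq)
  refine inv_eq_of_mul_eq_one_left ?_
  rw [smul_mul_assoc, ss97, Quaternion.smul_coe, inv_mul_cancel₀ h, Quaternion.coe_one]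

theorem WW_xq (hA : A ∈ HH (fC m)) (hB : B ∈ HH (fC m)) :
    star (bt A) * WW (xq A) (xq B) * bt B = star (pI A) * pI B - ∑ i, star (pJ A i) * pJ B i := by
  have hb := bt_ne hA
  have hb' := bt_ne hB
  have hs : star (bt A) * star ((pI A + pJ A 0) * (bt A)⁻¹) = star (pI A + pJ A 0) := by
    rw [← star_mul, mul_assoc, inv_mul_cancel₀ hb, mul_one]
  have hs' : (pI B + pJ B 0) * (bt B)⁻¹ * bt B = pI B + pJ B 0 := by
    rw [mul_assoc, inv_mul_cancel₀ hb', mul_one]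
  have ht : ∀ i : Fin m, star (bt A) * (star (pJ A i.succ * (bt A)⁻¹) * (pJ B i.succ * (bt B)⁻¹)) * bt B =
      star (pJ A i.succ) * pJ B i.succ := fun i => by
    rw [← mul_assoc (star (bt A)), ← star_mul, mul_assoc (pJ A i.succ), inv_mul_cancel₀ hb, mul_one, mul_assoc,
      mul_assoc, inv_mul_cancel₀ hb', mul_one]
  unfold WW xq
  simp only
  rw [mul_sub, sub_mul, Finset.mul_sum, Finset.sum_mul, Finset.sum_congr rfl fun i _ => ht i, Fin.sum_univ_succ,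
    mul_smul_comm, smul_mul_assoc, mul_add, add_mul, hs, mul_assoc (star (bt A)) _ (bt B), hs']
  unfold bt
  have e : star (pI A + pJ A 0) * (pI B - pJ B 0) + star (pI A - pJ A 0) * (pI B + pJ B 0) =
      (2 : ℝ) • (star (pI A) * pI B - star (pJ A 0) * pJ B 0) := by
    rw [star_add, star_sub, two_smul]
    noncomm_ring
  rw [e, smul_smul]
  norm_num
  abel

private theorem abs_le_of_sq97 {a b : ℝ} (h : a ^ 2 ≤ b ^ 2) (hb : 0 ≤ b) : a ≤ b :=
  (le_abs_self a).trans (by rw [← abs_of_nonneg hb]; exact sq_le_sq.1 h)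

private theorem nsq97 (q : Hq) : ‖q‖ ^ 2 = q.re ^ 2 + q.imI ^ 2 + q.imJ ^ 2 + q.imK ^ 2 := by
  rw [pow_two, ← Quaternion.normSq_eq_norm_mul_self, Quaternion.normSq_def']

private theorem re97 (p q : Hq) : ((p + q) * star (p - q)).re = ‖p‖ ^ 2 - ‖q‖ ^ 2 := by
  rw [nsq97, nsq97, Quaternion.re_mul]
  simp
  ring

theorem hh_xq (hA : A ∈ HH (fC m)) : hh (xq A) = (2 * ‖bt A‖ ^ 2)⁻¹ := by
  have hb := bt_ne hA
  have hp : 0 < ‖bt A‖ := norm_pos_iff.2 hb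
  have h1 := pn_one hA
  have h2 : ((pI A + pJ A 0) * (bt A)⁻¹).re = (‖bt A‖ ^ 2)⁻¹ * (‖pI A‖ ^ 2 - ‖pJ A 0‖ ^ 2) := by
    rw [inv97 hb, mul_smul_comm, Quaternion.re_smul, smul_eq_mul]
    unfold bt
    rw [re97]
  have h3 : ∀ i : Fin m, ‖pJ A i.succ * (bt A)⁻¹‖ ^ 2 = (‖bt A‖ ^ 2)⁻¹ * ‖pJ A i.succ‖ ^ 2 := fun i => by
    rw [norm_mul, norm_inv, mul_pow, inv_pow, mul_comm]
  unfold hh xq
  simp only
  rw [h2, Finset.sum_congr rfl fun i _ => h3 i, ← Finset.mul_sum, ← mul_sub]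
  rw [Fin.sum_univ_succ] at h1
  have h4 : ‖pI A‖ ^ 2 - ‖pJ A 0‖ ^ 2 - ∑ i : Fin m, ‖pJ A i.succ‖ ^ 2 = 1 := by linarith
  rw [h4, mul_one, mul_inv]
  ring

theorem hh_xq_pos (hA : A ∈ HH (fC m)) : 0 < hh (xq A) := by
  rw [hh_xq hA]
  have := norm_pos_iff.2 (bt_ne hA)
  positivity

theorem cn_eq (hA : A ∈ HH (fC m)) : ‖star (pI A) * pI B - ∑ i, star (pJ A i) * pJ B i‖ ^ 2 = cn A B := by
  obtain ⟨l, hl, ⟨h1, h2⟩, h3⟩ := qs_col hA
  have e : ∀ a c a' c' : ℂ, star (qz a c) * qz a' c' = qz (star a * a' + star c * c') (a * c' - c * a') := fun a c a' c' => by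
    rw [qz_star97, qz_mul97]
    congr 1
    · rw [star_neg]
      ring
    · rw [star_star]
      ring
  unfold pI pJ cn
  simp only [e]
  rw [qz_sum97, qz_sub97, qz_norm97, entry97, entry97]
  congr 1
  have e1 : ∀ a c a' c' : ℂ, star (-(l * star c)) * a' + star (l * star a) * c' = star l * (a * c' - c * a') := fun a c a' c' => by
    rw [star_neg, star_mul', star_mul', star_star, star_star]
    ring
  simp only [h1, h2, h3, e1]
  rw [← Finset.mul_sum, ← mul_sub, norm_mul, norm_star, hl, one_mul]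

theorem phi_xq {s : ℝ} (hs : 0 < s) (hA : A ∈ HH (fC m)) (hB : B ∈ HH (fC m)) : phi s (xq A) (xq B) = cn A B ^ (-s) := by
  have _ := hs
  have hb : 0 < ‖bt A‖ := norm_pos_iff.2 (bt_ne hA)
  have hb' : 0 < ‖bt B‖ := norm_pos_iff.2 (bt_ne hB)
  have hw := norm_nonneg (WW (xq A) (xq B))
  rw [← cn_eq hA, ← WW_xq hA hB, norm_mul, norm_mul, norm_star]
  unfold phi
  rw [hh_xq hA, hh_xq hB]
  have e1 : 4 * (2 * ‖bt A‖ ^ 2)⁻¹ * (2 * ‖bt B‖ ^ 2)⁻¹ = ((‖bt A‖ * ‖bt B‖) ^ 2)⁻¹ := by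
    rw [mul_pow]
    field_simp
    norm_num
  have e2 : (‖bt A‖ * ‖WW (xq A) (xq B)‖ * ‖bt B‖) ^ 2 = (‖bt A‖ * ‖bt B‖) ^ 2 * ‖WW (xq A) (xq B)‖ ^ 2 := by ring
  rw [e1, e2, Real.mul_rpow (sq_nonneg _) (sq_nonneg _), Real.inv_rpow (sq_nonneg _), ← Real.rpow_neg (sq_nonneg _),
    ← Real.rpow_natCast ‖WW (xq A) (xq B)‖, ← Real.rpow_mul hw]
  congr 2
  push_cast
  ring

private theorem xq_mul97 {A' : Matrix (MS m) (MS m) ℂ} {w : Hq} (hw : w ≠ 0) (h0 : pI A' = pI A * w)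
    (h : ∀ i, pJ A' i = pJ A i * w) : xq A' = xq A := by
  have hb : bt A' = bt A * w := by
    unfold bt
    rw [h0, h, sub_mul]
  have e : ∀ p : Hq, p * w * (bt A * w)⁻¹ = p * (bt A)⁻¹ := fun p => by
    rw [_root_.mul_inv_rev, mul_assoc, ← mul_assoc w, mul_inv_cancel₀ hw, one_mul]
  unfold xq
  rw [hb, h0, h, ← add_mul, e]
  congr 1
  funext i
  rw [h, e]

theorem xq_right (hA : A ∈ HH (fC m)) (hk : k ∈ UU (fC m)) : xq (A * k) = xq A := by
  obtain ⟨hk1, hk2⟩ := hk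
  have h1 := (fC_eq.1 hk1.1).1
  have h2 : k * kᴴ = 1 := mul_eq_one_comm.1 hk2
  have h3 : JS m * k = k * JS m := by
    calc JS m * k = k * kᴴ * (JS m * k) := by rw [h2, one_mul]
      _ = k * (kᴴ * JS m * k) := by simp only [mul_assoc]
      _ = k * JS m := by rw [h1]
  have h4 : ∀ t, k (Sum.inr t) (Sum.inl 0) = 0 := fun t => by
    have h5 := congrFun (congrFun h3 (Sum.inr t)) (Sum.inl 0)
    rw [Matrix.mul_apply, Matrix.mul_apply, Fintype.sum_sum_type, Fintype.sum_sum_type] at h5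
    unfold JS at h5
    simp [Matrix.one_apply] at h5
    have h6 : (2 : ℂ) * k (Sum.inr t) (Sum.inl 0) = 0 := by linear_combination -h5
    simpa using h6
  have h5 : ∀ x, (A * k) x (Sum.inl 0) = A x (Sum.inl 0) * k (Sum.inl 0) (Sum.inl 0) + A x (Sum.inl 1) * k (Sum.inl 1) (Sum.inl 0) := fun x => by
    have h6 : ∑ t, A x (Sum.inr t) * k (Sum.inr t) (Sum.inl 0) = 0 :=
      Finset.sum_eq_zero fun t _ => by rw [h4, mul_zero]
    rw [Matrix.mul_apply, Fintype.sum_sum_type, h6, add_zero, Fin.sum_univ_two]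
  obtain ⟨l, hl, ⟨ha, hb⟩, hc⟩ := qs_col hA
  have hw : qz (k (Sum.inl 0) (Sum.inl 0)) (l * k (Sum.inl 1) (Sum.inl 0)) ≠ 0 := fun h => by
    have e1 := qz_norm97 (k (Sum.inl 0) (Sum.inl 0)) (l * k (Sum.inl 1) (Sum.inl 0))
    rw [h, norm_zero, norm_mul, hl, one_mul, ← pI_sq97] at e1
    have e2 := p1_lt97 hk1
    nlinarith [sq_nonneg ‖pJ k 0‖]
  refine xq_mul97 hw ?_ fun i => ?_
  · unfold pI
    rw [h5, h5, ha, hb, qz_mul97]
    congr 1 <;> ring
  · unfold pJ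
    rw [h5, h5, (hc i).1, (hc i).2, qz_mul97]
    congr 1 <;> ring

theorem xq_smul {c : ℂ} (hc : c ≠ 0) (A : Matrix (MS m) (MS m) ℂ) : xq (c • A) = xq A := by
  have hw : qz c 0 ≠ 0 := fun h => by
    have e1 := qz_norm97 c 0
    rw [h, norm_zero, norm_zero] at e1
    have e2 : 0 < ‖c‖ := norm_pos_iff.2 hc
    nlinarith
  refine xq_mul97 hw ?_ fun i => ?_
  · unfold pI
    rw [qz_mul97, Matrix.smul_apply, Matrix.smul_apply, smul_eq_mul, smul_eq_mul]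
    congr 1 <;> ring
  · unfold pJ
    rw [qz_mul97, Matrix.smul_apply, Matrix.smul_apply, smul_eq_mul, smul_eq_mul]
    congr 1 <;> ring

private def u97 (a b c d : ℝ) : Hq := ⟨a, b, c, d⟩

private theorem qz_lin97 (a c : ℂ) : qz a c = a.re • u97 1 0 0 0 + a.im • u97 0 1 0 0 + c.re • u97 0 0 1 0 - c.im • u97 0 0 0 1 := by
  have e0 : ∀ a b c d : ℝ, (u97 a b c d).re = a := fun _ _ _ _ => rfl
  have e1 : ∀ a b c d : ℝ, (u97 a b c d).imI = b := fun _ _ _ _ => rfl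
  have e2 : ∀ a b c d : ℝ, (u97 a b c d).imJ = c := fun _ _ _ _ => rfl
  have e3 : ∀ a b c d : ℝ, (u97 a b c d).imK = d := fun _ _ _ _ => rfl
  apply Quaternion.ext <;>
    simp [qz_re97, qz_imI97, qz_imJ97, qz_imK97, e0, e1, e2, e3]

private theorem qz_cont97 (x y z t : MS m) : Continuous fun A : Matrix (MS m) (MS m) ℂ => qz (A x y) (A z t) := by
  simp only [qz_lin97]
  have h : ∀ x y : MS m, Continuous fun A : Matrix (MS m) (MS m) ℂ => A x y := fun x y =>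
    (continuous_apply y).comp (continuous_apply x)
  have h1 : ∀ x y : MS m, Continuous fun A : Matrix (MS m) (MS m) ℂ => (A x y).re := fun x y =>
    Complex.continuous_re.comp (h x y)
  have h2 : ∀ x y : MS m, Continuous fun A : Matrix (MS m) (MS m) ℂ => (A x y).im := fun x y =>
    Complex.continuous_im.comp (h x y)
  exact ((((h1 x y).smul continuous_const).add ((h2 x y).smul continuous_const)).add ((h1 z t).smul continuous_const)).sub
    ((h2 z t).smul continuous_const)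

theorem xq_cont (m : ℕ) : ContinuousOn (xq : Matrix (MS m) (MS m) ℂ → SP m) (HH (fC m)) := by
  have hI : Continuous (pI : Matrix (MS m) (MS m) ℂ → Hq) := qz_cont97 _ _ _ _
  have hJ : ∀ i, Continuous fun A : Matrix (MS m) (MS m) ℂ => pJ A i := fun i => qz_cont97 _ _ _ _
  have hb : Continuous (bt : Matrix (MS m) (MS m) ℂ → Hq) := hI.sub (hJ 0)
  have hb' : ContinuousOn (fun A : Matrix (MS m) (MS m) ℂ => (bt A)⁻¹) (HH (fC m)) :=
    hb.continuousOn.inv₀ fun A hA => bt_ne hA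
  unfold xq
  refine ContinuousOn.prodMk (continuousOn_pi.2 fun i => (hJ _).continuousOn.mul hb') ((hI.add (hJ 0)).continuousOn.mul hb')

theorem xq_bd (m : ℕ) (R : ℝ) : ∃ ρ : ℝ, 1 ≤ ρ ∧ ∀ A ∈ HH (fC m), (∀ i j, ‖A i j‖ ≤ R) → ρ⁻¹ ≤ hh (xq A) ∧ ‖xq A‖ ≤ ρ := by
  set S := max R 1 with hS
  have hS1 : 1 ≤ S := le_max_right _ _
  have hR : R ≤ S := le_max_left _ _
  refine ⟨32 * S ^ 2, by nlinarith, fun A hA hb => ?_⟩
  have hb' : ∀ i j, ‖A i j‖ ≤ S := fun i j => (hb i j).trans hR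
  have hp0 : ‖pI A‖ ≤ 2 * S := by
    refine abs_le_of_sq97 ?_ (by linarith)
    rw [pI_sq97]
    nlinarith [hb' (Sum.inl 0) (Sum.inl 0), hb' (Sum.inl 1) (Sum.inl 0), norm_nonneg (A (Sum.inl 0) (Sum.inl 0)),
      norm_nonneg (A (Sum.inl 1) (Sum.inl 0))]
  have hpi : ∀ i, ‖pJ A i‖ ≤ 2 * S := fun i => by
    refine abs_le_of_sq97 ?_ (by linarith)
    rw [pJ_sq97]
    nlinarith [hb' (Sum.inr (i, 0)) (Sum.inl 0), hb' (Sum.inr (i, 1)) (Sum.inl 0), norm_nonneg (A (Sum.inr (i, 0)) (Sum.inl 0)),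
      norm_nonneg (A (Sum.inr (i, 1)) (Sum.inl 0))]
  have hβ : 0 < ‖bt A‖ := norm_pos_iff.2 (bt_ne hA)
  have hβ1 : ‖bt A‖ ≤ 4 * S := by
    unfold bt
    exact (norm_sub_le _ _).trans (by linarith [hpi 0])
  have hβ2 : ‖pI A‖ - ‖pJ A 0‖ ≤ ‖bt A‖ := norm_sub_norm_le _ _
  have h1 := p1_lt97 hA
  have hβ3 : 1 ≤ ‖bt A‖ * (4 * S) := by
    have e1 : 1 ≤ (‖pI A‖ - ‖pJ A 0‖) * (‖pI A‖ + ‖pJ A 0‖) := by nlinarith
    have e2 : 0 ≤ ‖pI A‖ + ‖pJ A 0‖ := by positivity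
    calc (1 : ℝ) ≤ (‖pI A‖ - ‖pJ A 0‖) * (‖pI A‖ + ‖pJ A 0‖) := e1
      _ ≤ ‖bt A‖ * (‖pI A‖ + ‖pJ A 0‖) := by gcongr
      _ ≤ ‖bt A‖ * (4 * S) := by
          have := hpi 0
          gcongr
          linarith
  have hinv : ‖(bt A)⁻¹‖ ≤ 4 * S := by
    rw [norm_inv]
    rw [inv_le_comm₀ hβ (by positivity)]
    rw [inv_le_iff_one_le_mul₀ (by positivity)]
    exact hβ3
  refine ⟨?_, ?_⟩
  · rw [hh_xq hA]
    apply inv_anti₀ (by positivity)
    nlinarith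
  · have hz : (0 : ℝ) ≤ 32 * S ^ 2 := by positivity
    unfold xq
    rw [Prod.norm_def]
    refine max_le ((pi_norm_le_iff_of_nonneg hz).2 fun i => ?_) ?_
    · rw [norm_mul]
      calc ‖pJ A i.succ‖ * ‖(bt A)⁻¹‖ ≤ (2 * S) * (4 * S) := by
            have := hpi i.succ
            gcongr
        _ ≤ 32 * S ^ 2 := by nlinarith
    · rw [norm_mul]
      calc ‖pI A + pJ A 0‖ * ‖(bt A)⁻¹‖ ≤ (4 * S) * (4 * S) := by
            have := (norm_add_le (pI A) (pJ A 0)).trans (add_le_add hp0 (hpi 0))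
            have h' : ‖pI A + pJ A 0‖ ≤ 4 * S := by linarith
            gcongr
        _ ≤ 32 * S ^ 2 := by nlinarith

end Pool.Agent.Helper84.CH
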