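import Pool.Agent.Helper84.CH.UF0

/-!
# Project CH, block UF3: Haar measure of the compact group of the unitary matrices of `HH f`

`isCompact_UU`: closed (`f k = 0`, `kᴴ k = 1`; then `‖det k‖ = 1`) and entries of modulus at most one (see `isCompact_KH` in `SPQ/B3.lean`). `UU_mul`, `UU_star` (`kᴴ = k⁻¹`), `UU_one`: `IsG`. `exists_muUU`. PROOF. `UU f` is the carrier of a compact subgroup of `Matrix.unitaryGroup M ℂ` (or make `UU f` a topological group by hand):
its Haar measure (`MeasureTheory.Measure.haar`, normalised to total mass one) is left invariant; push forward by `k ↦ kᴴ` to obtain a right invariant probability measure. Transport to `UU f` by the homeomorphism of subtypes.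
-/

set_option autoImplicit false

open Filter Topology Matrix MeasureTheory

namespace Pool.Agent.Helper84.CH

open Pool.Agent.Helper84.SPQ NI

variable {M : Type} [Fintype M] [DecidableEq M] {f : Matrix M M ℂ → ℝ}

noncomputable instance instMeasUU : MeasurableSpace (UU f) := borel _

instance instBorelUU : BorelSpace (UU f) := ⟨rfl⟩

private theorem uf_det {k : Matrix M M ℂ} (hk : kᴴ * k = 1) : k.det ≠ 0 := by
  intro h0
  have h := congrArg Matrix.det hk
  rw [Matrix.det_mul, h0, mul_zero, Matrix.det_one] at h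
  exact zero_ne_one h

private theorem uf_inv {k : Matrix M M ℂ} (hk : kᴴ * k = 1) : k⁻¹ = kᴴ := Matrix.inv_eq_left_inv hk

private theorem uf_comm {k : Matrix M M ℂ} (hk : kᴴ * k = 1) : k * kᴴ = 1 := mul_eq_one_comm.1 hk

theorem isCompact_UU (hf : Continuous f) : IsCompact (UU f) := by
  have hK : IsCompact (Set.pi Set.univ fun _ : M => Set.pi Set.univ fun _ : M => Metric.closedBall (0 : ℂ) 1) :=
    isCompact_univ_pi fun _ => isCompact_univ_pi fun _ => isCompact_closedBall _ _
  have he : UU f = {k : Matrix M M ℂ | f k = 0} ∩ {k : Matrix M M ℂ | kᴴ * k = 1} := by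
    ext k
    constructor
    · rintro ⟨⟨h1, -⟩, h2⟩
      exact ⟨h1, h2⟩
    · rintro ⟨h1, h2⟩
      exact ⟨⟨h1, uf_det h2⟩, h2⟩
  have hc : IsClosed (UU f) := by
    rw [he]
    refine (isClosed_eq hf continuous_const).inter (isClosed_eq ?_ continuous_const)
    exact (continuous_id.matrix_conjTranspose).matrix_mul continuous_id
  refine IsCompact.of_isClosed_subset hK hc ?_
  rintro k ⟨-, hk⟩ i - j -
  rw [mem_closedBall_zero_iff]
  have h := congrFun (congrFun hk j) j
  rw [Matrix.mul_apply, Matrix.one_apply_eq] at h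
  have h1 : ∑ l, ‖k l j‖ ^ 2 = 1 := by
    have h2 : ((∑ l, ‖k l j‖ ^ 2 : ℝ) : ℂ) = 1 := by
      rw [← h]
      push_cast
      refine Finset.sum_congr rfl fun l _ => ?_
      rw [Matrix.conjTranspose_apply, ← Complex.conj_mul']
      rfl
    exact_mod_cast h2
  have h3 : ‖k i j‖ ^ 2 ≤ 1 := by
    rw [← h1]
    exact Finset.single_le_sum (f := fun l => ‖k l j‖ ^ 2) (fun _ _ => sq_nonneg _) (Finset.mem_univ i)
  nlinarith [norm_nonneg (k i j)]

theorem UU_one (hf : IsG f) : (1 : Matrix M M ℂ) ∈ UU f := by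
  refine ⟨⟨hf.one, ?_⟩, ?_⟩
  · rw [Matrix.det_one]
    exact one_ne_zero
  · rw [Matrix.conjTranspose_one, one_mul]

theorem UU_mul (hf : IsG f) {k k' : Matrix M M ℂ} (hk : k ∈ UU f) (hk' : k' ∈ UU f) : k * k' ∈ UU f := by
  have h : (k * k')ᴴ * (k * k') = 1 := by
    rw [Matrix.conjTranspose_mul, Matrix.mul_assoc, ← Matrix.mul_assoc kᴴ, hk.2, Matrix.one_mul, hk'.2]
  exact ⟨⟨hf.mul k hk.1 k' hk'.1, uf_det h⟩, h⟩

theorem UU_star (hf : IsG f) {k : Matrix M M ℂ} (hk : k ∈ UU f) : kᴴ ∈ UU f := by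
  have h : kᴴᴴ * kᴴ = 1 := by
    rw [Matrix.conjTranspose_conjTranspose]
    exact uf_comm hk.2
  refine ⟨⟨?_, uf_det h⟩, h⟩
  rw [← uf_inv hk.2]
  exact hf.inv k hk.1

theorem exists_muUU (hf : IsG f) : ∃ μ : Measure (UU f), IsProbabilityMeasure μ ∧ ∀ (k0 : UU f) (F : UU f → ℂ), Continuous F →
    ∫ k : UU f, F ⟨(k : Matrix M M ℂ) * (k0 : Matrix M M ℂ), UU_mul hf k.2 k0.2⟩ ∂μ = ∫ k : UU f, F k ∂μ := by
  let _ : Group (UU f) :=
    { mul := fun a b => ⟨(a : Matrix M M ℂ) * b, UU_mul hf a.2 b.2⟩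
      mul_assoc := fun a b c => Subtype.ext (Matrix.mul_assoc _ _ _)
      one := ⟨1, UU_one hf⟩
      one_mul := fun a => Subtype.ext (Matrix.one_mul _)
      mul_one := fun a => Subtype.ext (Matrix.mul_one _)
      inv := fun a => ⟨(a : Matrix M M ℂ)ᴴ, UU_star hf a.2⟩
      inv_mul_cancel := fun a => Subtype.ext a.2.2 }
  have _ : IsTopologicalGroup (UU f) :=
    { continuous_mul := by
        refine Continuous.subtype_mk ?_ _
        exact (continuous_subtype_val.comp continuous_fst).matrix_mul (continuous_subtype_val.comp continuous_snd)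
      continuous_inv := by
        refine Continuous.subtype_mk ?_ _
        exact continuous_subtype_val.matrix_conjTranspose }
  have _ : CompactSpace (UU f) := isCompact_iff_compactSpace.1 (isCompact_UU hf.cont)
  let K0 : TopologicalSpace.PositiveCompacts (UU f) := ⊤
  let ν : Measure (UU f) := Measure.haarMeasure K0
  have hν : ν Set.univ = 1 := Measure.haarMeasure_self (K₀ := K0)
  refine ⟨ν.inv, ⟨?_⟩, fun k0 F _ => ?_⟩
  · rw [Measure.inv_apply, Set.inv_univ, hν]
  · exact integral_mul_right_eq_self (μ := ν.inv) F k0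

end Pool.Agent.Helper84.CH
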