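import Pool.Agent.Helper84.CH.UF3
import Pool.Agent.Helper84.CH.UC

/-!
# Project CH, block UF4: representations of the compact group from averaged kernels

`mdC_of_kernels`. PROOF. `μ` from `exists_muUU`. Averaged kernels `Kp A B = ∫ kp (k A) (k B) dμ(k)`, `Kn` in the same way, for `A, B ∈ HH f` (`k A ∈ HH f`; the integrands are continuous on the compact space `UU f`, so integrable). They are positive semidefinite on `{A // A ∈ HH f}` (`psd_int` in `UC.lean`, each `k` gives a submatrix of `hp`),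
invariant under `(A, B) ↦ (k0 A, k0 B)`, `k0 ∈ UU f` (`exists_muUU`), continuous on `HH f ×ˢ HH f` (continuity of a parametric integral over a compact space, for example `continuousOn_integral_of_compact_support`/`continuous_parametric_integral_of_continuous` or a direct `ε`-argument with uniform continuity), `Kp (A u) B = Kp A B` (`k (A u) = (k A) u`), and `Kp - Kn = D` (`D (k A) (k B) = D A B`, total mass one).
By `IsHermitian` the same invariances hold in the second variable. Apply `Pool.Agent.Helper90.Fib.exists_gns` to the index type `{A // A ∈ HH f} × Bool` and the kernel which is `Kp` on `true × true`, `Kn` on `false × false`, zero otherwise (positive semidefinite: a block diagonal sum): total family `e`. For `k ∈ UU f`, `e (A, b) ↦ e (k A, b)` is unitary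
(`exists_unitary`; the range is the same: `A = k (kᴴ A)`), this is `σ k` (and `σ k = 1` for `k ∉ UU f`). `q A = e (A, true) + e (A, false)`, `p A = e (A, true) - e (A, false)` for `A ∈ HH f`, `0` otherwise. As in `SPQ/B4.lean`: `mul` by `eq_of_total`; `scal`, `qr`, `qs`: `‖e x - e y‖² = 0` when the kernels agree; `cont`, `qcont` by `cont_of_total`, `‖e (A, b) - e (B, b)‖² = K A A - 2 Re K A B + K B B` and continuity of the kernels.
`inner (p A) (q B) = Kp A B - Kn A B = D A B`; so `inv`. `‖q A‖² = ‖p A‖² = Kp A A + Kn A A` (average of values `≤ C`). `‖q A - q B‖² = ∑ (K A A - 2 Re K A B + K B B)`, and each of the two terms is at most `4 ε` (average of `(k(X,X) - a) - 2 Re (k(X,Y) - a) + (k(Y,Y) - a)`, the terms `a - 2 Re a + a`: real part; `K A A` is real).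
-/

set_option autoImplicit false

open Filter Topology Matrix MeasureTheory
open scoped ComplexOrder

namespace Pool.Agent.Helper84.CH

open Pool.Agent.Helper84.SPQ NI

variable {M : Type} [Fintype M] [DecidableEq M] {f : Matrix M M ℂ → ℝ}

private theorem HHmul6 (hf : IsG f) {A B : Matrix M M ℂ} (hA : A ∈ HH f) (hB : B ∈ HH f) : A * B ∈ HH f :=
  ⟨hf.mul A hA B hB, by rw [Matrix.det_mul]; exact mul_ne_zero hA.2 hB.2⟩

/-- the averaged kernel -/
private noncomputable def av6 (μ : Measure (UU f)) (kk : Matrix M M ℂ → Matrix M M ℂ → ℂ) (A B : Matrix M M ℂ) : ℂ :=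
  ∫ k : UU f, kk ((k : Matrix M M ℂ) * A) ((k : Matrix M M ℂ) * B) ∂μ

section Avg

variable {μ : Measure (UU f)} {kk : Matrix M M ℂ → Matrix M M ℂ → ℂ}

private theorem cint6 (hf : IsG f)
    (ck : ContinuousOn (fun z : Matrix M M ℂ × Matrix M M ℂ => kk z.1 z.2) (HH f ×ˢ HH f)) :
    Continuous (fun w : ↥(HH f ×ˢ HH f) × UU f =>
      kk ((w.2 : Matrix M M ℂ) * w.1.1.1) ((w.2 : Matrix M M ℂ) * w.1.1.2)) := by
  have h2 : Continuous (fun w : ↥(HH f ×ˢ HH f) × UU f => (w.2 : Matrix M M ℂ)) :=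
    continuous_subtype_val.comp continuous_snd
  have h3 : Continuous (fun w : ↥(HH f ×ˢ HH f) × UU f => w.1.1.1) :=
    continuous_fst.comp (continuous_subtype_val.comp continuous_fst)
  have h4 : Continuous (fun w : ↥(HH f ×ˢ HH f) × UU f => w.1.1.2) :=
    continuous_snd.comp (continuous_subtype_val.comp continuous_fst)
  have h1 : Continuous (fun w : ↥(HH f ×ˢ HH f) × UU f =>
      (((w.2 : Matrix M M ℂ) * w.1.1.1, (w.2 : Matrix M M ℂ) * w.1.1.2) : Matrix M M ℂ × Matrix M M ℂ)) :=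
    (h2.matrix_mul h3).prodMk (h2.matrix_mul h4)
  exact ck.comp_continuous h1 (fun w => ⟨HHmul6 hf w.2.2.1 w.1.2.1, HHmul6 hf w.2.2.1 w.1.2.2⟩)

private theorem cin6 (hf : IsG f)
    (ck : ContinuousOn (fun z : Matrix M M ℂ × Matrix M M ℂ => kk z.1 z.2) (HH f ×ˢ HH f)) {A B : Matrix M M ℂ}
    (hA : A ∈ HH f) (hB : B ∈ HH f) :
    Continuous (fun k : UU f => kk ((k : Matrix M M ℂ) * A) ((k : Matrix M M ℂ) * B)) :=
  (cint6 hf ck).comp (Continuous.prodMk_right (X := ↥(HH f ×ˢ HH f)) ⟨(A, B), hA, hB⟩)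

private theorem int6 (hf : IsG f) [IsProbabilityMeasure μ] {F : UU f → ℂ} (hF : Continuous F) : Integrable F μ := by
  have : CompactSpace (UU f) := isCompact_iff_compactSpace.1 (isCompact_UU hf.cont)
  exact hF.integrable_of_hasCompactSupport (HasCompactSupport.of_compactSpace F)

private theorem avc6 (hf : IsG f) [IsProbabilityMeasure μ]
    (ck : ContinuousOn (fun z : Matrix M M ℂ × Matrix M M ℂ => kk z.1 z.2) (HH f ×ˢ HH f)) :
    ContinuousOn (fun z : Matrix M M ℂ × Matrix M M ℂ => av6 μ kk z.1 z.2) (HH f ×ˢ HH f) := by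
  have : CompactSpace (UU f) := isCompact_iff_compactSpace.1 (isCompact_UU hf.cont)
  rw [continuousOn_iff_continuous_domRestrict]
  have h1 : Continuous (fun G : C(UU f, ℂ) => ∫ k, G k ∂μ) := by
    refine (LipschitzWith.of_dist_le_mul (K := 1) fun F G => ?_).continuous
    rw [dist_eq_norm, ← integral_sub (int6 hf F.continuous) (int6 hf G.continuous), NNReal.coe_one, one_mul]
    have h2 := norm_integral_le_of_norm_le_const (μ := μ) (f := fun k => F k - G k) (C := dist F G)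
      (Eventually.of_forall fun k => by rw [← dist_eq_norm]; exact ContinuousMap.dist_apply_le_dist k)
    simpa using h2
  exact h1.comp (ContinuousMap.curry ⟨_, cint6 hf ck⟩).continuous

private theorem avpsd6 (hf : IsG f) [IsProbabilityMeasure μ]
    (ck : ContinuousOn (fun z : Matrix M M ℂ × Matrix M M ℂ => kk z.1 z.2) (HH f ×ˢ HH f))
    (hp : (Matrix.of fun A B : {A : Matrix M M ℂ // A ∈ HH f} => kk A.1 B.1).PosSemidef) :
    (Matrix.of fun A B : {A : Matrix M M ℂ // A ∈ HH f} => av6 μ kk A.1 B.1).PosSemidef := by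
  refine psd_int (K := fun (k : UU f) (A B : {A : Matrix M M ℂ // A ∈ HH f}) => kk ((k : Matrix M M ℂ) * A.1) ((k : Matrix M M ℂ) * B.1))
    (Eventually.of_forall fun k => ?_) fun A B => int6 hf (cin6 hf ck A.2 B.2)
  exact hp.submatrix (fun A : {A : Matrix M M ℂ // A ∈ HH f} =>
    (⟨(k : Matrix M M ℂ) * A.1, HHmul6 hf k.2.1 A.2⟩ : {A : Matrix M M ℂ // A ∈ HH f}))

private theorem avinv6 (hf : IsG f)
    (hμ : ∀ (k0 : UU f) (F : UU f → ℂ), Continuous F →
      ∫ k : UU f, F ⟨(k : Matrix M M ℂ) * (k0 : Matrix M M ℂ), UU_mul hf k.2 k0.2⟩ ∂μ = ∫ k : UU f, F k ∂μ)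
    (ck : ContinuousOn (fun z : Matrix M M ℂ × Matrix M M ℂ => kk z.1 z.2) (HH f ×ˢ HH f)) {k0 A B : Matrix M M ℂ}
    (hk : k0 ∈ UU f) (hA : A ∈ HH f) (hB : B ∈ HH f) : av6 μ kk (k0 * A) (k0 * B) = av6 μ kk A B := by
  unfold av6
  rw [← hμ ⟨k0, hk⟩ _ (cin6 hf ck hA hB)]
  simp only [Matrix.mul_assoc]

private theorem avr6 (hf : IsG f)
    (rp : ∀ A ∈ HH f, ∀ B ∈ HH f, ∀ u ∈ UU f, kk (A * u) B = kk A B) {u A B : Matrix M M ℂ}
    (hA : A ∈ HH f) (hB : B ∈ HH f) (hu : u ∈ UU f) : av6 μ kk (A * u) B = av6 μ kk A B := by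
  unfold av6
  refine integral_congr_ae (Eventually.of_forall fun k => ?_)
  simp only
  rw [← Matrix.mul_assoc]
  exact rp _ (HHmul6 hf k.2.1 hA) _ (HHmul6 hf k.2.1 hB) u hu

private theorem avs6 (hf : IsG f)
    (sp : ∀ c : ℂ, ∀ A ∈ HH f, c • A ∈ HH f → ∀ B ∈ HH f, kk (c • A) B = kk A B) {c : ℂ} {A B : Matrix M M ℂ}
    (hA : A ∈ HH f) (hcA : c • A ∈ HH f) (hB : B ∈ HH f) : av6 μ kk (c • A) B = av6 μ kk A B := by
  unfold av6
  refine integral_congr_ae (Eventually.of_forall fun k => ?_)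
  simp only
  rw [Matrix.mul_smul]
  refine sp c _ (HHmul6 hf k.2.1 hA) ?_ _ (HHmul6 hf k.2.1 hB)
  rw [← Matrix.mul_smul]
  exact HHmul6 hf k.2.1 hcA

private theorem avre6 (hf : IsG f) [IsProbabilityMeasure μ]
    (ck : ContinuousOn (fun z : Matrix M M ℂ × Matrix M M ℂ => kk z.1 z.2) (HH f ×ˢ HH f)) {A B : Matrix M M ℂ}
    (hA : A ∈ HH f) (hB : B ∈ HH f) {a : ℂ} {ε : ℝ} (h : ∀ k ∈ UU f, ‖kk (k * A) (k * B) - a‖ ≤ ε) :
    ‖av6 μ kk A B - a‖ ≤ ε := by
  have h1 : av6 μ kk A B - a = ∫ k : UU f, (kk ((k : Matrix M M ℂ) * A) ((k : Matrix M M ℂ) * B) - a) ∂μ := by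
    rw [integral_sub (int6 hf (cin6 hf ck hA hB)) (integrable_const a)]
    unfold av6
    simp
  rw [h1]
  have h2 := norm_integral_le_of_norm_le_const (μ := μ)
    (f := fun k : UU f => kk ((k : Matrix M M ℂ) * A) ((k : Matrix M M ℂ) * B) - a) (C := ε)
    (Eventually.of_forall fun k => h k.1 k.2)
  simpa using h2

end Avg

private theorem rank6 {X : Type} (v : X → ℂ) : (Matrix.of fun x y => star (v x) * v y).PosSemidef := by
  refine ⟨?_, ?_⟩
  · ext x y
    rw [Matrix.conjTranspose_apply, Matrix.of_apply, Matrix.of_apply, star_mul', star_star, mul_comm]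
  · intro f
    have h1 : (f.sum fun i xi => f.sum fun j xj => star xi *
        (Matrix.of fun x y => star (v x) * v y) i j * xj) =
        star (f.sum fun i xi => v i * xi) * (f.sum fun i xi => v i * xi) := by
      unfold Finsupp.sum
      rw [star_sum, Finset.sum_mul_sum]
      refine Finset.sum_congr rfl fun i _ => Finset.sum_congr rfl fun j _ => ?_
      change star (f i) * (star (v i) * v j) * f j = star (v i * f i) * (v j * f j)
      rw [star_mul']
      ring
    rw [h1]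
    exact star_mul_self_nonneg _

/-- the block diagonal kernel -/
private theorem blk6 {X : Type} (K : Bool → X → X → ℂ) (h : ∀ b, (Matrix.of (K b)).PosSemidef) :
    (Matrix.of fun x y : X × Bool => if x.2 = y.2 then K x.2 x.1 y.1 else 0).PosSemidef := by
  have h1 : ∀ b : Bool, (Matrix.of fun x y : X × Bool => (star (if x.2 = b then (1 : ℂ) else 0) *
      (if y.2 = b then (1 : ℂ) else 0)) * K b x.1 y.1).PosSemidef := fun b =>
    (rank6 (X := X × Bool) (fun x => if x.2 = b then (1 : ℂ) else 0)).hadamard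
      ((h b).submatrix (Prod.fst : X × Bool → X))
  refine (congrArg Matrix.PosSemidef ?_).mp ((h1 true).add (h1 false))
  ext ⟨x, b⟩ ⟨y, b'⟩
  rw [Matrix.add_apply, Matrix.of_apply, Matrix.of_apply, Matrix.of_apply]
  cases b <;> cases b' <;> simp

private theorem core6 (hf : IsG f) (K : Bool → Matrix M M ℂ → Matrix M M ℂ → ℂ)
    (hp : ∀ b, (Matrix.of fun A B : {A : Matrix M M ℂ // A ∈ HH f} => K b A.1 B.1).PosSemidef)
    (ck : ∀ b, ContinuousOn (fun z : Matrix M M ℂ × Matrix M M ℂ => K b z.1 z.2) (HH f ×ˢ HH f))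
    (hi : ∀ b, ∀ k ∈ UU f, ∀ A ∈ HH f, ∀ B ∈ HH f, K b (k * A) (k * B) = K b A B)
    (hr : ∀ b, ∀ A ∈ HH f, ∀ B ∈ HH f, ∀ u ∈ UU f, K b (A * u) B = K b A B)
    (hs : ∀ b, ∀ c : ℂ, ∀ A ∈ HH f, c • A ∈ HH f → ∀ B ∈ HH f, K b (c • A) B = K b A B) :
    ∃ (L : Type) (_ : NormedAddCommGroup L) (_ : InnerProductSpace ℂ L) (_ : CompleteSpace L)
      (E : Bool → Matrix M M ℂ → L) (σ : Matrix M M ℂ → (L ≃ₗᵢ[ℂ] L)),
      (∀ b b', ∀ A ∈ HH f, ∀ B ∈ HH f, (inner ℂ (E b A) (E b' B) : ℂ) = if b = b' then K b A B else 0) ∧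
      (∀ k ∈ UU f, ∀ k' ∈ UU f, ∀ w, σ (k * k') w = σ k (σ k' w)) ∧
      (∀ (c : ℂ), ∀ k ∈ UU f, c • k ∈ UU f → σ (c • k) = σ k) ∧
      (∀ w, ContinuousOn (fun k => σ k w) (UU f)) ∧
      (∀ b, ContinuousOn (E b) (HH f)) ∧
      (∀ b, ∀ k ∈ UU f, ∀ A ∈ HH f, E b (k * A) = σ k (E b A)) ∧
      (∀ b, ∀ A ∈ HH f, ∀ k ∈ UU f, E b (A * k) = E b A) ∧
      (∀ b, ∀ (c : ℂ), ∀ A ∈ HH f, c • A ∈ HH f → E b (c • A) = E b A) := by
  classical
  obtain ⟨L, i1, i2, i3, e, he, ht⟩ := Pool.Agent.Helper90.Fib.exists_gns _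
    (blk6 (X := {A : Matrix M M ℂ // A ∈ HH f}) (fun b A B => K b A.1 B.1) hp)
  refine ⟨L, i1, i2, i3, ?_⟩
  have hker : ∀ x y : {A : Matrix M M ℂ // A ∈ HH f} × Bool,
      inner ℂ (e x) (e y) = if x.2 = y.2 then K x.2 x.1.1 y.1.1 else 0 := he
  -- the family
  obtain ⟨E, hE⟩ : ∃ E : Bool → Matrix M M ℂ → L, ∀ b A (hA : A ∈ HH f), E b A = e (⟨A, hA⟩, b) :=
    ⟨fun b A => if hA : A ∈ HH f then e (⟨A, hA⟩, b) else 0, fun b A hA => dif_pos hA⟩
  have hEE : ∀ b b', ∀ A ∈ HH f, ∀ B ∈ HH f, (inner ℂ (E b A) (E b' B) : ℂ) = if b = b' then K b A B else 0 := by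
    intro b b' A hA B hB
    rw [hE b A hA, hE b' B hB, hker]
  have hEs : ∀ b, ∀ A ∈ HH f, ∀ B ∈ HH f, (inner ℂ (E b A) (E b B) : ℂ) = K b A B := by
    intro b A hA B hB
    rw [hEE b b A hA B hB, if_pos rfl]
  have heq : ∀ b, ∀ A ∈ HH f, ∀ B ∈ HH f, (∀ C ∈ HH f, K b A C = K b B C) → E b A = E b B := by
    intro b A hA B hB h
    have h1 : (inner ℂ (E b A - E b B) (E b A - E b B) : ℂ) = 0 := by
      rw [inner_sub_left, inner_sub_right, inner_sub_right, hEs b A hA A hA, hEs b A hA B hB, hEs b B hB A hA,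
        hEs b B hB B hB, h A hA, h B hB]
      ring
    exact sub_eq_zero.1 (inner_self_eq_zero.1 h1)
  have hnorm : ∀ b, ∀ A ∈ HH f, ∀ B ∈ HH f,
      ‖E b A - E b B‖ ^ 2 = (K b A A - K b A B - K b B A + K b B B).re := by
    intro b A hA B hB
    rw [← inner_self_eq_norm_sq (𝕜 := ℂ), inner_sub_left, inner_sub_right, inner_sub_right, hEs b A hA A hA,
      hEs b A hA B hB, hEs b B hB A hA, hEs b B hB B hB]
    rw [RCLike.re_to_complex]
    congr 1
    ring
  have hEc : ∀ b, ContinuousOn (E b) (HH f) := by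
    intro b A₀ hA₀
    rw [ContinuousWithinAt, tendsto_iff_norm_sub_tendsto_zero]
    have hk : Tendsto (fun A : Matrix M M ℂ => (K b A A - K b A A₀ - K b A₀ A + K b A₀ A₀).re) (𝓝[HH f] A₀)
        (𝓝 0) := by
      have h1 : ∀ g : Matrix M M ℂ → Matrix M M ℂ × Matrix M M ℂ, Continuous g → (∀ A ∈ HH f, g A ∈ HH f ×ˢ HH f) →
          Tendsto (fun A : Matrix M M ℂ => K b (g A).1 (g A).2) (𝓝[HH f] A₀) (𝓝 (K b (g A₀).1 (g A₀).2)) := by
        intro g hg hg'
        exact ((ck b).comp hg.continuousOn hg' A₀ hA₀).tendsto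
      have h2 := h1 (fun A => (A, A)) (by fun_prop) (fun A hA => ⟨hA, hA⟩)
      have h3 := h1 (fun A => (A, A₀)) (by fun_prop) (fun A hA => ⟨hA, hA₀⟩)
      have h4 := h1 (fun A => (A₀, A)) (by fun_prop) (fun A hA => ⟨hA₀, hA⟩)
      have h5 := (Complex.continuous_re.tendsto _).comp (((h2.sub h3).sub h4).add (tendsto_const_nhds (x := K b A₀ A₀)))
      have h6 : (K b (A₀, A₀).1 (A₀, A₀).2 - K b (A₀, A₀).1 (A₀, A₀).2 - K b (A₀, A₀).1 (A₀, A₀).2 + K b A₀ A₀).re =
          (0 : ℝ) := by simp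
      rw [← h6]
      exact h5
    have hsq : Tendsto (fun A : Matrix M M ℂ => ‖E b A - E b A₀‖ ^ 2) (𝓝[HH f] A₀) (𝓝 0) := by
      refine hk.congr' ?_
      filter_upwards [self_mem_nhdsWithin] with A hA
      rw [hnorm b A hA A₀ hA₀]
    have hsq2 := (Real.continuous_sqrt.tendsto 0).comp hsq
    rw [Real.sqrt_zero] at hsq2
    refine hsq2.congr fun B => ?_
    exact Real.sqrt_sq (norm_nonneg _)
  have hU : ∀ k : Matrix M M ℂ, ∃ U : L ≃ₗᵢ[ℂ] L,
      ∀ (hk : k ∈ UU f) (x : {A : Matrix M M ℂ // A ∈ HH f} × Bool),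
        U (e x) = e (⟨k * x.1.1, HHmul6 hf hk.1 x.1.2⟩, x.2) := by
    intro k
    by_cases hk : k ∈ UU f
    · obtain ⟨U, hU⟩ := Pool.Agent.Helper90.Fib.exists_unitary e
        (fun x : {A : Matrix M M ℂ // A ∈ HH f} × Bool => e (⟨k * x.1.1, HHmul6 hf hk.1 x.1.2⟩, x.2)) (by
        intro x y
        rw [hker, hker]
        by_cases hxy : x.2 = y.2
        · rw [if_pos hxy, if_pos hxy]
          exact (hi x.2 k hk x.1.1 x.1.2 y.1.1 y.1.2).symm
        · rw [if_neg hxy, if_neg hxy]) ht (by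
        have h1 : Set.range (fun x : {A : Matrix M M ℂ // A ∈ HH f} × Bool =>
            e (⟨k * x.1.1, HHmul6 hf hk.1 x.1.2⟩, x.2)) = Set.range e := by
          apply Set.Subset.antisymm
          · rintro _ ⟨x, rfl⟩
            exact ⟨_, rfl⟩
          · rintro _ ⟨x, rfl⟩
            refine ⟨(⟨kᴴ * x.1.1, HHmul6 hf (UU_star hf hk).1 x.1.2⟩, x.2), ?_⟩
            simp only
            congr 1
            refine Prod.ext (Subtype.ext ?_) rfl
            simp only
            rw [← Matrix.mul_assoc, mul_eq_one_comm.1 hk.2, Matrix.one_mul]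
        rw [h1]
        exact ht)
      exact ⟨U, fun _ C => hU C⟩
    · exact ⟨1, fun h => absurd h hk⟩
  choose U hU using hU
  have hUE : ∀ b, ∀ k ∈ UU f, ∀ A ∈ HH f, E b (k * A) = U k (E b A) := by
    intro b k hk A hA
    rw [hE b A hA, hU k hk, hE b _ (HHmul6 hf hk.1 hA)]
  refine ⟨E, U, hEE, ?_, ?_, ?_, hEc, hUE, ?_, ?_⟩
  · intro k hk k' hk' w
    have := Pool.Agent.Helper90.Fib.eq_of_total e ht
      (S := ((U (k * k')).toContinuousLinearEquiv : L →L[ℂ] L))
      (T := ((U k).toContinuousLinearEquiv : L →L[ℂ] L).comp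
        ((U k').toContinuousLinearEquiv : L →L[ℂ] L)) (by
        intro x
        change U (k * k') (e x) = U k (U k' (e x))
        rw [hU _ (UU_mul hf hk hk'), hU _ hk', hU _ hk]
        congr 1
        refine Prod.ext (Subtype.ext ?_) rfl
        exact Matrix.mul_assoc k k' x.1.1) w
    exact this
  · intro c k hk hck
    ext w
    have := Pool.Agent.Helper90.Fib.eq_of_total e ht
      (S := ((U (c • k)).toContinuousLinearEquiv : L →L[ℂ] L))
      (T := ((U k).toContinuousLinearEquiv : L →L[ℂ] L)) (by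
        intro x
        change U (c • k) (e x) = U k (e x)
        rw [hU _ hck, hU _ hk]
        have h1 := HHmul6 hf hk.1 x.1.2
        have h2 := HHmul6 hf hck.1 x.1.2
        have h3 : c • (k * x.1.1) ∈ HH f := by
          rw [← Matrix.smul_mul]
          exact h2
        have h4 := heq x.2 _ h3 _ h1 (fun C hC => hs x.2 c _ h1 h3 C hC)
        rw [hE x.2 _ h1, hE x.2 _ h3] at h4
        rw [← h4]
        congr 1
        refine Prod.ext (Subtype.ext ?_) rfl
        exact Matrix.smul_mul c k x.1.1) w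
    exact this
  · intro w
    refine Pool.Agent.Helper90.Fib.cont_of_total e ht U (fun x => ?_) w
    have h1 : ContinuousOn (fun k : Matrix M M ℂ => E x.2 (k * x.1.1)) (UU f) :=
      (hEc x.2).comp (Continuous.continuousOn (by fun_prop)) (fun k hk => HHmul6 hf hk.1 x.1.2)
    refine h1.congr fun k hk => ?_
    rw [hU k hk]
    exact (hE x.2 _ (HHmul6 hf hk.1 x.1.2)).symm
  · intro b A hA k hk
    exact heq b _ (HHmul6 hf hA hk.1) _ hA (fun C hC => hr b A hA C hC k hk)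
  · intro b c A hA hcA
    exact heq b _ hcA _ hA (fun C hC => hs b c A hA hcA C hC)

theorem mdC_of_kernels (hf : IsG f) (kp kn D : Matrix M M ℂ → Matrix M M ℂ → ℂ)
    (hp : (Matrix.of fun A B : {A : Matrix M M ℂ // A ∈ HH f} => kp A.1 B.1).PosSemidef)
    (hn : (Matrix.of fun A B : {A : Matrix M M ℂ // A ∈ HH f} => kn A.1 B.1).PosSemidef)
    (cp : ContinuousOn (fun z : Matrix M M ℂ × Matrix M M ℂ => kp z.1 z.2) (HH f ×ˢ HH f))
    (cn : ContinuousOn (fun z : Matrix M M ℂ × Matrix M M ℂ => kn z.1 z.2) (HH f ×ˢ HH f))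
    (rp : ∀ A ∈ HH f, ∀ B ∈ HH f, ∀ u ∈ UU f, kp (A * u) B = kp A B) (rn : ∀ A ∈ HH f, ∀ B ∈ HH f, ∀ u ∈ UU f, kn (A * u) B = kn A B)
    (sp : ∀ c : ℂ, ∀ A ∈ HH f, c • A ∈ HH f → ∀ B ∈ HH f, kp (c • A) B = kp A B)
    (sn : ∀ c : ℂ, ∀ A ∈ HH f, c • A ∈ HH f → ∀ B ∈ HH f, kn (c • A) B = kn A B)
    (hD : ∀ A ∈ HH f, ∀ B ∈ HH f, kp A B - kn A B = D A B)
    (hDg : ∀ g ∈ HH f, ∀ A ∈ HH f, ∀ B ∈ HH f, D (g * A) (g * B) = D A B) :
    ∃ (L : Type) (_ : NormedAddCommGroup L) (_ : InnerProductSpace ℂ L) (_ : CompleteSpace L) (Mo : MdC f L),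
      (∀ A ∈ HH f, ∀ B ∈ HH f, (inner ℂ (Mo.p A) (Mo.q B) : ℂ) = D A B) ∧
      (∀ C : ℝ, (∀ A ∈ HH f, (kp A A + kn A A).re ≤ C) → ∀ A ∈ HH f, ‖Mo.q A‖ ^ 2 ≤ C ∧ ‖Mo.p A‖ ^ 2 ≤ C) ∧
      ∀ A ∈ HH f, ∀ B ∈ HH f, ∀ (a b : ℂ) (ε : ℝ), (∀ k ∈ UU f, ∀ X Y : Matrix M M ℂ, (X = A ∨ X = B) → (Y = A ∨ Y = B) →
        ‖kp (k * X) (k * Y) - a‖ ≤ ε ∧ ‖kn (k * X) (k * Y) - b‖ ≤ ε) → ‖Mo.q A - Mo.q B‖ ^ 2 ≤ 8 * ε := by
  classical
  obtain ⟨μ, hμ1, hμ⟩ := exists_muUU hf
  obtain ⟨kk, hkt, hkf⟩ : ∃ kk : Bool → Matrix M M ℂ → Matrix M M ℂ → ℂ, kk true = kp ∧ kk false = kn :=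
    ⟨fun b => if b then kp else kn, rfl, rfl⟩
  have hp' : ∀ b, (Matrix.of fun A B : {A : Matrix M M ℂ // A ∈ HH f} => kk b A.1 B.1).PosSemidef := by
    intro b
    cases b
    · rw [hkf]; exact hn
    · rw [hkt]; exact hp
  have ck' : ∀ b, ContinuousOn (fun z : Matrix M M ℂ × Matrix M M ℂ => kk b z.1 z.2) (HH f ×ˢ HH f) := by
    intro b
    cases b
    · rw [hkf]; exact cn
    · rw [hkt]; exact cp
  have hr' : ∀ b, ∀ A ∈ HH f, ∀ B ∈ HH f, ∀ u ∈ UU f, kk b (A * u) B = kk b A B := by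
    intro b
    cases b
    · rw [hkf]; exact rn
    · rw [hkt]; exact rp
  have hs' : ∀ b, ∀ c : ℂ, ∀ A ∈ HH f, c • A ∈ HH f → ∀ B ∈ HH f, kk b (c • A) B = kk b A B := by
    intro b
    cases b
    · rw [hkf]; exact sn
    · rw [hkt]; exact sp
  obtain ⟨L, i1, i2, i3, E, σ, hEE, c1, c2, c3, c4, c5, c6, c7⟩ := core6 hf (fun b => av6 μ (kk b))
    (fun b => avpsd6 hf (ck' b) (hp' b)) (fun b => avc6 hf (ck' b))
    (fun b k hk A hA B hB => avinv6 hf hμ (ck' b) hk hA hB)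
    (fun b A hA B hB u hu => avr6 hf (hr' b) hA hB hu)
    (fun b c A hA hcA B hB => avs6 hf (hs' b) hA hcA hB)
  -- the inner products
  have hEs : ∀ b, ∀ A ∈ HH f, ∀ B ∈ HH f, (inner ℂ (E b A) (E b B) : ℂ) = av6 μ (kk b) A B := by
    intro b A hA B hB
    rw [hEE b b A hA B hB, if_pos rfl]
  have hE0 : ∀ b b', b ≠ b' → ∀ A ∈ HH f, ∀ B ∈ HH f, (inner ℂ (E b A) (E b' B) : ℂ) = 0 := by
    intro b b' hb A hA B hB
    rw [hEE b b' A hA B hB, if_neg hb]
  have hpq : ∀ A ∈ HH f, ∀ B ∈ HH f,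
      (inner ℂ (E true A - E false A) (E true B + E false B) : ℂ) = D A B := by
    intro A hA B hB
    rw [inner_sub_left, inner_add_right, inner_add_right, hEs true A hA B hB, hEs false A hA B hB,
      hE0 true false (by decide) A hA B hB, hE0 false true (by decide) A hA B hB, add_zero, zero_add, hkt, hkf]
    unfold av6
    rw [← integral_sub (int6 hf (cin6 hf cp hA hB)) (int6 hf (cin6 hf cn hA hB))]
    have h1 : ∀ k : UU f, kp ((k : Matrix M M ℂ) * A) ((k : Matrix M M ℂ) * B) -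
        kn ((k : Matrix M M ℂ) * A) ((k : Matrix M M ℂ) * B) = D A B := by
      intro k
      rw [hD _ (HHmul6 hf k.2.1 hA) _ (HHmul6 hf k.2.1 hB), hDg _ k.2.1 A hA B hB]
    simp only [h1]
    simp
  have hn1 : ∀ (x y : L), (inner ℂ x y : ℂ) = 0 → ‖x + y‖ ^ 2 = ‖x‖ ^ 2 + ‖y‖ ^ 2 ∧ ‖x - y‖ ^ 2 = ‖x‖ ^ 2 + ‖y‖ ^ 2 := by
    intro x y hxy
    constructor
    · rw [@norm_add_sq ℂ, hxy]
      simp
    · rw [@norm_sub_sq ℂ, hxy]
      simp
  let Mo : MdC f L :=
    { σ := σ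
      mul := c1
      scal := c2
      cont := c3
      q := fun A => E true A + E false A
      p := fun A => E true A - E false A
      qcont := (c4 true).add (c4 false)
      pcont := (c4 true).sub (c4 false)
      qk := fun k hk A hA => by
        rw [c5 true k hk A hA, c5 false k hk A hA, map_add]
      pk := fun k hk A hA => by
        rw [c5 true k hk A hA, c5 false k hk A hA, map_sub]
      qr := fun A hA k hk => by
        rw [c6 true A hA k hk, c6 false A hA k hk]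
      pr := fun A hA k hk => by
        rw [c6 true A hA k hk, c6 false A hA k hk]
      qs := fun c A hA hcA => by
        rw [c7 true c A hA hcA, c7 false c A hA hcA]
      ps := fun c A hA hcA => by
        rw [c7 true c A hA hcA, c7 false c A hA hcA]
      inv := fun g hg A hA B hB => by
        rw [hpq _ (HHmul6 hf hg hA) _ (HHmul6 hf hg hB), hpq A hA B hB, hDg g hg A hA B hB] }
  refine ⟨L, i1, i2, i3, Mo, hpq, ?_, ?_⟩
  · intro C hC A hA
    have h1 := hn1 _ _ (hE0 true false (by decide) A hA A hA)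
    have h2 : ‖E true A‖ ^ 2 + ‖E false A‖ ^ 2 ≤ C := by
      rw [← inner_self_eq_norm_sq (𝕜 := ℂ), ← inner_self_eq_norm_sq (𝕜 := ℂ), hEs true A hA A hA,
        hEs false A hA A hA, hkt, hkf, RCLike.re_to_complex, RCLike.re_to_complex, ← Complex.add_re]
      unfold av6
      have j1 := int6 (μ := μ) hf (cin6 hf cp hA hA)
      have j2 := int6 (μ := μ) hf (cin6 hf cn hA hA)
      rw [← integral_add j1 j2]
      have h3 := integral_re (𝕜 := ℂ) (j1.add j2)
      simp only [Pi.add_apply, RCLike.re_to_complex] at h3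
      rw [← h3]
      have h4 : ∫ k : UU f, (kp ((k : Matrix M M ℂ) * A) ((k : Matrix M M ℂ) * A) +
          kn ((k : Matrix M M ℂ) * A) ((k : Matrix M M ℂ) * A)).re ∂μ ≤ ∫ _k : UU f, C ∂μ := by
        refine integral_mono (j1.add j2).re (integrable_const C) fun k => ?_
        exact hC _ (HHmul6 hf k.2.1 hA)
      refine h4.trans (le_of_eq ?_)
      simp
    exact ⟨h1.1.le.trans h2, h1.2.le.trans h2⟩
  · intro A hA B hB a b ε h
    -- one sign
    have hav : ∀ b', ∃ c : ℂ, ∀ X Y : Matrix M M ℂ, (X = A ∨ X = B) → (Y = A ∨ Y = B) →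
        ‖av6 μ (kk b') X Y - c‖ ≤ ε := by
      intro b'
      have hXH : ∀ X : Matrix M M ℂ, (X = A ∨ X = B) → X ∈ HH f := by
        rintro X (rfl | rfl)
        · exact hA
        · exact hB
      cases b'
      · refine ⟨b, fun X Y hX hY => ?_⟩
        rw [hkf]
        exact avre6 hf cn (hXH X hX) (hXH Y hY) fun k hk => (h k hk X Y hX hY).2
      · refine ⟨a, fun X Y hX hY => ?_⟩
        rw [hkt]
        exact avre6 hf cp (hXH X hX) (hXH Y hY) fun k hk => (h k hk X Y hX hY).1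
    have h4 : ∀ b', ‖E b' A - E b' B‖ ^ 2 ≤ 4 * ε := by
      intro b'
      obtain ⟨c, hc⟩ := hav b'
      have e1 := hc A A (Or.inl rfl) (Or.inl rfl)
      have e2 := hc A B (Or.inl rfl) (Or.inr rfl)
      have e3 := hc B A (Or.inr rfl) (Or.inl rfl)
      have e4 := hc B B (Or.inr rfl) (Or.inr rfl)
      have h5 : ‖E b' A - E b' B‖ ^ 2 = ((av6 μ (kk b') A A - c) - (av6 μ (kk b') A B - c) -
          (av6 μ (kk b') B A - c) + (av6 μ (kk b') B B - c)).re := by
        rw [← inner_self_eq_norm_sq (𝕜 := ℂ), inner_sub_left, inner_sub_right, inner_sub_right, hEs b' A hA A hA,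
          hEs b' A hA B hB, hEs b' B hB A hA, hEs b' B hB B hB, RCLike.re_to_complex]
        congr 1
        ring
      rw [h5]
      refine (Complex.re_le_norm _).trans ?_
      have h6 := norm_add_le ((av6 μ (kk b') A A - c) - (av6 μ (kk b') A B - c) - (av6 μ (kk b') B A - c))
        (av6 μ (kk b') B B - c)
      have h7 := norm_sub_le ((av6 μ (kk b') A A - c) - (av6 μ (kk b') A B - c)) (av6 μ (kk b') B A - c)
      have h8 := norm_sub_le (av6 μ (kk b') A A - c) (av6 μ (kk b') A B - c)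
      linarith
    have h9 : (inner ℂ (E true A - E true B) (E false A - E false B) : ℂ) = 0 := by
      rw [inner_sub_left, inner_sub_right, inner_sub_right, hE0 true false (by decide) A hA A hA,
        hE0 true false (by decide) A hA B hB, hE0 true false (by decide) B hB A hA,
        hE0 true false (by decide) B hB B hB]
      simp
    have h10 : Mo.q A - Mo.q B = (E true A - E true B) + (E false A - E false B) := by
      change (E true A + E false A) - (E true B + E false B) = _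
      abel
    rw [h10, (hn1 _ _ h9).1]
    linarith [h4 true, h4 false]

end Pool.Agent.Helper84.CH
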