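import Pool.Agent.Helper84.CH.UE
import Pool.Agent.Helper84.CH.UF2
import Pool.Agent.Helper84.CH.UF4
import Pool.Agent.Helper84.SPQ.C3a

/-!
# Project CH, block UF5: the model (upper bound for the Cowling-Haagerup constant of `Sp(m + 1, 1)`)

`ub_model`. PROOF. `ν` from `Pool.Agent.Helper84.SPQ.exists_muU`. For `A` with entries of modulus at most `R` (assume `R ≥ 1`) and `k ∈ UU (fC m)` (entries at most one) the entries of `k A` and `k 1` are at most `R' = card (MS m) R`; `ρ` from `xq_bd m R'`. `K_near ν m` with `ε' = ε²/8`: `s0`. Choose `0 < s < min s0 (1/2)` with `s² + 2 m dl s ≤ ε` (`dl_tendsto` in `UB.lean`)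
and `|x^(-s) - 1| ≤ ε` for `1 ≤ x ≤ (card (MS m))² R²` (continuity at `s = 0`). Apply `mdC_of_kernels (fC_isG m)` to `kp A B = KP ν s (xq A) (xq B)`, `kn` with `KN`, `D A B = (cn A B ^ (-s) : ℝ)`: positivity `KP_psd`, `KN_psd` (submatrix; `hh_xq_pos`), continuity `KP_cont`, `KN_cont`, `xq_cont`; invariance `xq_right`, `xq_smul`;
`KP_sub`, `phi_xq`; `cn_left`. Norms: `KPN_diag`. `‖q A - q 1‖² ≤ 8 ε' = ε²`. `inner (p A) (q 1) = cn A 1 ^ (-s)`, `cn_one`; `cn A 1 = ‖pI A‖² ≥ 1` (`(ns A - 2 m + 4)/8 ≥ 1`: from `pn_one`, `cn_eq`, or from `ns` of blocks) and `≤ (card)² R²`.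
-/

set_option autoImplicit false

open Filter Topology Matrix MeasureTheory

namespace Pool.Agent.Helper84.CH

open Pool.Agent.Helper84.SPQ NI

variable {m : ℕ}

private theorem pI_one94 : pI (1 : Matrix (MS m) (MS m) ℂ) = 1 := by
  unfold pI qz
  rw [Matrix.one_apply_eq, Matrix.one_apply_ne (by simp)]
  ext <;> simp <;> rfl

private theorem pJ_one94 (i : Fin (m + 1)) : pJ (1 : Matrix (MS m) (MS m) ℂ) i = 0 := by
  unfold pJ qz
  rw [Matrix.one_apply_ne (by simp), Matrix.one_apply_ne (by simp)]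
  ext <;> simp <;> rfl

private theorem cn_ge94 {A : Matrix (MS m) (MS m) ℂ} (hA : A ∈ HH (fC m)) : 1 ≤ cn A 1 := by
  have h1 := cn_eq (B := 1) hA
  rw [← h1, pI_one94]
  simp only [pJ_one94, mul_zero, Finset.sum_const_zero, sub_zero, mul_one, norm_star]
  have h2 := pn_one hA
  have h3 : 0 ≤ ∑ i, ‖pJ A i‖ ^ 2 := Finset.sum_nonneg fun i _ => sq_nonneg _
  linarith

private theorem cn_le94 {A : Matrix (MS m) (MS m) ℂ} (hA : A ∈ HH (fC m)) {R : ℝ} (hR : 1 ≤ R) (hAR : ∀ i j, ‖A i j‖ ≤ R) :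
    cn A 1 ≤ (Fintype.card (MS m) : ℝ) ^ 2 * R ^ 2 := by
  rw [cn_one hA]
  have h1 : ns A ≤ (Fintype.card (MS m) : ℝ) ^ 2 * R ^ 2 := by
    unfold ns
    calc ∑ i, ∑ j, ‖A i j‖ ^ 2 ≤ ∑ _i : MS m, ∑ _j : MS m, R ^ 2 :=
          Finset.sum_le_sum fun i _ => Finset.sum_le_sum fun j _ =>
            pow_le_pow_left₀ (norm_nonneg _) (hAR i j) 2
      _ = (Fintype.card (MS m) : ℝ) ^ 2 * R ^ 2 := by
          simp only [Finset.sum_const, Finset.card_univ, nsmul_eq_mul]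
          ring
  have h2 : (1 : ℝ) ≤ (Fintype.card (MS m) : ℝ) ^ 2 * R ^ 2 := by
    have h3 : (1 : ℝ) ≤ (Fintype.card (MS m) : ℝ) := by
      exact_mod_cast (Fintype.card_pos (α := MS m))
    have h4 : (1 : ℝ) ≤ (Fintype.card (MS m) : ℝ) ^ 2 := one_le_pow₀ h3
    have h5 : (1 : ℝ) ≤ R ^ 2 := one_le_pow₀ hR
    nlinarith
  have h3 : (0 : ℝ) ≤ m := Nat.cast_nonneg m
  linarith

private theorem ent94 {k A : Matrix (MS m) (MS m) ℂ} (hk : kᴴ * k = 1) {R : ℝ} (hAR : ∀ i j, ‖A i j‖ ≤ R) (i j : MS m) :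
    ‖(k * A) i j‖ ≤ (Fintype.card (MS m) : ℝ) * R := by
  have hk1 : ∀ i j, ‖k i j‖ ≤ 1 := by
    intro i j
    have h := congrFun (congrFun hk j) j
    rw [Matrix.mul_apply, Matrix.one_apply_eq] at h
    have h1 : ∑ l, ‖k l j‖ ^ 2 = 1 := by
      have h2 : ((∑ l, ‖k l j‖ ^ 2 : ℝ) : ℂ) = 1 := by
        rw [← h]
        push_cast
        refine Finset.sum_congr rfl fun l _ => ?_
        rw [Matrix.conjTranspose_apply, ← Complex.conj_mul']
        rfl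
      exact_mod_cast h2
    have h3 : ‖k i j‖ ^ 2 ≤ 1 := by
      rw [← h1]
      exact Finset.single_le_sum (f := fun l => ‖k l j‖ ^ 2) (fun _ _ => sq_nonneg _) (Finset.mem_univ i)
    nlinarith [norm_nonneg (k i j)]
  rw [Matrix.mul_apply]
  calc ‖∑ l, k i l * A l j‖ ≤ ∑ l, ‖k i l * A l j‖ := norm_sum_le _ _
    _ ≤ ∑ _l : MS m, R := by
        refine Finset.sum_le_sum fun l _ => ?_
        rw [norm_mul]
        calc ‖k i l‖ * ‖A l j‖ ≤ 1 * R := mul_le_mul (hk1 i l) (hAR l j) (norm_nonneg _) zero_le_one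
          _ = R := one_mul R
    _ = (Fintype.card (MS m) : ℝ) * R := by
        simp only [Finset.sum_const, Finset.card_univ, nsmul_eq_mul]

private theorem HH_mul94 {A B : Matrix (MS m) (MS m) ℂ} (hA : A ∈ HH (fC m)) (hB : B ∈ HH (fC m)) : A * B ∈ HH (fC m) :=
  ⟨(fC_isG m).mul A hA B hB, by rw [Matrix.det_mul]; exact mul_ne_zero hA.2 hB.2⟩

private theorem cK94 {K : SP m → SP m → ℂ} (hK : Continuous fun p : Dom m × Dom m => K (p.1 : SP m) (p.2 : SP m)) :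
    ContinuousOn (fun z : Matrix (MS m) (MS m) ℂ × Matrix (MS m) (MS m) ℂ => K (xq z.1) (xq z.2))
      (HH (fC m) ×ˢ HH (fC m)) := by
  rw [continuousOn_iff_continuous_domRestrict]
  have h1 : Continuous fun z : (HH (fC m) ×ˢ HH (fC m) : Set (Matrix (MS m) (MS m) ℂ × Matrix (MS m) (MS m) ℂ)) =>
      (⟨xq z.1.1, hh_xq_pos z.2.1⟩ : Dom m) := by
    refine Continuous.subtype_mk ?_ _
    have := (xq_cont m).comp continuousOn_fst (s := HH (fC m) ×ˢ HH (fC m)) (fun z hz => hz.1)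
    exact continuousOn_iff_continuous_domRestrict.1 this
  have h2 : Continuous fun z : (HH (fC m) ×ˢ HH (fC m) : Set (Matrix (MS m) (MS m) ℂ × Matrix (MS m) (MS m) ℂ)) =>
      (⟨xq z.1.2, hh_xq_pos z.2.2⟩ : Dom m) := by
    refine Continuous.subtype_mk ?_ _
    have := (xq_cont m).comp continuousOn_snd (s := HH (fC m) ×ˢ HH (fC m)) (fun z hz => hz.2)
    exact continuousOn_iff_continuous_domRestrict.1 this
  exact hK.comp (h1.prodMk h2)

open scoped ComplexOrder in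
private theorem psd94 {K : SP m → SP m → ℂ} (hK : (Matrix.of fun x y : Dom m => K (x : SP m) (y : SP m)).PosSemidef) :
    (Matrix.of fun A B : {A : Matrix (MS m) (MS m) ℂ // A ∈ HH (fC m)} => K (xq A.1) (xq B.1)).PosSemidef :=
  hK.submatrix (fun A : {A : Matrix (MS m) (MS m) ℂ // A ∈ HH (fC m)} => (⟨xq A.1, hh_xq_pos A.2⟩ : Dom m))

private theorem smul94 {c : ℂ} {A : Matrix (MS m) (MS m) ℂ} (hA : A ∈ HH (fC m)) (hc : c • A ∈ HH (fC m)) : xq (c • A) = xq A := by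
  refine xq_smul (fun h => ?_) A
  have h1 := fC_unit hA hc
  rw [h, norm_zero] at h1
  exact zero_ne_one h1

theorem ub_model (m : ℕ) {ε : ℝ} (hε : 0 < ε) (R : ℝ) : ∃ s : ℝ, 0 < s ∧ ∃ (L : Type) (_ : NormedAddCommGroup L) (_ : InnerProductSpace ℂ L)
    (_ : CompleteSpace L) (Mo : MdC (fC m) L),
    (∀ A ∈ HH (fC m), ‖Mo.q A‖ ^ 2 ≤ 2 * m + 2 + ε ∧ ‖Mo.p A‖ ^ 2 ≤ 2 * m + 2 + ε) ∧
    (∀ A ∈ HH (fC m), (∀ i j, ‖A i j‖ ≤ R) → ‖Mo.q A - Mo.q 1‖ ≤ ε ∧ ‖(inner ℂ (Mo.p A) (Mo.q 1) : ℂ) - 1‖ ≤ ε) ∧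
    ∀ A ∈ HH (fC m), (inner ℂ (Mo.p A) (Mo.q 1) : ℂ) = ((((ns A - 2 * m + 4) / 8) ^ (-s) : ℝ) : ℂ) := by
  classical
  obtain ⟨ν, hν1, hν2⟩ := exists_muU
  have _ := hν1
  have _ := hν2
  set S : ℝ := max R 1 with hS
  have hS1 : 1 ≤ S := le_max_right _ _
  have hRS : R ≤ S := le_max_left _ _
  set n : ℝ := (Fintype.card (MS m) : ℝ) with hn
  have hn1 : 1 ≤ n := by
    rw [hn]
    exact_mod_cast (Fintype.card_pos (α := MS m))
  obtain ⟨ρ, hρ, hρ'⟩ := xq_bd m (n * S)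
  have he : 0 < ε ^ 2 / 8 := by positivity
  obtain ⟨s0, hs0, hnear⟩ := K_near ν m hρ he
  have hX1 : 1 ≤ n ^ 2 * S ^ 2 := by
    have h4 : (1 : ℝ) ≤ n ^ 2 := one_le_pow₀ hn1
    have h5 : (1 : ℝ) ≤ S ^ 2 := one_le_pow₀ hS1
    nlinarith
  have t1 : ∀ᶠ s : ℝ in 𝓝[>] 0, s ^ 2 + 2 * m * dl s < ε := by
    have h1 : Tendsto (fun s : ℝ => s ^ 2 + 2 * m * dl s) (𝓝[>] 0) (𝓝 ((0 : ℝ) ^ 2 + 2 * (m : ℝ) * 0)) := by
      refine Tendsto.add ?_ (dl_tendsto.const_mul _)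
      exact (tendsto_id.mono_left nhdsWithin_le_nhds).pow 2
    refine h1.eventually (gt_mem_nhds ?_)
    simpa using hε
  have t2 : ∀ᶠ s : ℝ in 𝓝[>] 0, s < min s0 (1 / 2) :=
    nhdsWithin_le_nhds (gt_mem_nhds (lt_min hs0 (by norm_num)))
  have t3 : ∀ᶠ s : ℝ in 𝓝[>] 0, 1 - ε < (n ^ 2 * S ^ 2) ^ (-s) := by
    have h1 : Tendsto (fun s : ℝ => (n ^ 2 * S ^ 2) ^ (-s)) (𝓝[>] 0) (𝓝 ((n ^ 2 * S ^ 2) ^ (-(0 : ℝ)))) := by
      refine Tendsto.mono_left ?_ nhdsWithin_le_nhds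
      have h2 : Continuous fun s : ℝ => (n ^ 2 * S ^ 2) ^ (-s) :=
        Real.continuous_const_rpow (by linarith) |>.comp continuous_neg
      exact h2.tendsto 0
    refine h1.eventually (lt_mem_nhds ?_)
    rw [neg_zero, Real.rpow_zero]
    linarith
  have t4 : ∀ᶠ s : ℝ in 𝓝[>] 0, 0 < s := self_mem_nhdsWithin
  obtain ⟨s, ⟨⟨h1, h2⟩, h3⟩, hs⟩ := (((t1.and t2).and t3).and t4).exists
  have hs0' : s < s0 := lt_of_lt_of_le h2 (min_le_left _ _)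
  have hs2 : s < 1 / 2 := lt_of_lt_of_le h2 (min_le_right _ _)
  obtain ⟨L, i1, i2, i3, Mo, hin, hno, hne⟩ := mdC_of_kernels (fC_isG m)
    (fun A B => KP ν s (xq A) (xq B)) (fun A B => KN ν s (xq A) (xq B)) (fun A B => ((cn A B ^ (-s) : ℝ) : ℂ))
    (psd94 (KP_psd ν hs hs2)) (psd94 (KN_psd ν hs)) (cK94 (KP_cont ν hs)) (cK94 (KN_cont ν hs))
    (fun A hA B _ u hu => by simp only [xq_right hA hu]) (fun A hA B _ u hu => by simp only [xq_right hA hu])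
    (fun c A hA hc B _ => by simp only [smul94 hA hc]) (fun c A hA hc B _ => by simp only [smul94 hA hc])
    (fun A hA B hB => by
      rw [KP_sub ν hs (hh_xq_pos hA) (hh_xq_pos hB), phi_xq hs hA hB])
    (fun g hg A _ B _ => by simp only [cn_left hg])
  have h1H : (1 : Matrix (MS m) (MS m) ℂ) ∈ HH (fC m) := (UU_one (fC_isG m)).1
  have hin1 : ∀ A ∈ HH (fC m), (inner ℂ (Mo.p A) (Mo.q 1) : ℂ) = ((cn A 1 ^ (-s) : ℝ) : ℂ) := fun A hA => hin A hA 1 h1H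
  refine ⟨s, hs, L, i1, i2, i3, Mo, ?_, ?_, ?_⟩
  · refine hno (2 * m + 2 + ε) fun A hA => ?_
    have := KPN_diag ν hs (hh_xq_pos hA)
    linarith
  · intro A hA hAR
    have hAS : ∀ i j, ‖A i j‖ ≤ S := fun i j => (hAR i j).trans hRS
    have h1S : ∀ i j, ‖(1 : Matrix (MS m) (MS m) ℂ) i j‖ ≤ S := by
      intro i j
      by_cases hij : i = j
      · rw [hij, Matrix.one_apply_eq, norm_one]
        exact hS1
      · rw [Matrix.one_apply_ne hij, norm_zero]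
        linarith
    constructor
    · have h5 := hne A hA 1 h1H ((m : ℂ) + 3 / 2) ((m : ℂ) + 1 / 2) (ε ^ 2 / 8) (by
        intro k hk X Y hX hY
        have hX' : X ∈ HH (fC m) ∧ ∀ i j, ‖X i j‖ ≤ S := by
          rcases hX with rfl | rfl
          · exact ⟨hA, hAS⟩
          · exact ⟨h1H, h1S⟩
        have hY' : Y ∈ HH (fC m) ∧ ∀ i j, ‖Y i j‖ ≤ S := by
          rcases hY with rfl | rfl
          · exact ⟨hA, hAS⟩
          · exact ⟨h1H, h1S⟩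
        obtain ⟨x1, x2⟩ := hρ' (k * X) (HH_mul94 hk.1 hX'.1) (ent94 hk.2 hX'.2)
        obtain ⟨y1, y2⟩ := hρ' (k * Y) (HH_mul94 hk.1 hY'.1) (ent94 hk.2 hY'.2)
        exact hnear s hs hs0' _ _ x1 y1 x2 y2)
      have h6 : ‖Mo.q A - Mo.q 1‖ ^ 2 ≤ ε ^ 2 := by linarith
      exact abs_le_of_sq_le_sq' h6 hε.le |>.2
    · rw [hin1 A hA]
      have h7 := cn_ge94 hA
      have h8 := cn_le94 hA hS1 hAS
      have h9 : cn A 1 ^ (-s) ≤ 1 := Real.rpow_le_one_of_one_le_of_nonpos h7 (by linarith)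
      have h10 : (n ^ 2 * S ^ 2) ^ (-s) ≤ cn A 1 ^ (-s) :=
        (Real.rpow_le_rpow_iff_of_neg (by linarith) (by linarith) (by linarith)).2 h8
      have h11 : (((cn A 1 ^ (-s) : ℝ) : ℂ) - 1) = ((cn A 1 ^ (-s) - 1 : ℝ) : ℂ) := by push_cast; ring
      rw [h11, Complex.norm_real, Real.norm_eq_abs, abs_le]
      constructor <;> linarith
  · intro A hA
    rw [hin1 A hA, cn_one hA]

end Pool.Agent.Helper84.CH
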