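import Pool.Agent.Helper84.CH.V0
import Pool.Agent.Helper84.CH.UF3
import Pool.Agent.Helper84.SPQ.B7

/-!
# Project CH, block V1a: limits of the maps of a model

`fu f A = |f A| + ns (Aᴴ A - 1)`: `HH (fu f) = UU f` (a matrix with `Aᴴ A = 1` is invertible), `fu_isG` (continuity, and `UU_mul`, `UU_star`, `IsG.smul`). For the limits test on ultrafilters (as `mdl_sub`, `mdl_v` in `SPQ/B3.lean`, `vv_right` in `SPQ/B7.lean`): `KH f R r` is compact (`isCompact_KH`), contained in `HH f` (`KH_sub`).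
`mdc_sub`: `X x → X0`, `Y x → X0`, continuity of `q` and `p` on `HH f`. `mdc_sig`: `k x, k' x ∈ UU f` with `k x - k' x → 0`: limits in the compact set `UU f` (`isCompact_UU`), continuity of `σ`.
`mdc_right`. PROOF. On an ultrafilter `X x → X0`, `Y x → Y0` in `KH f R r`, `c x → c0` with `‖c0‖ = 1`, and `U x → U0` with `U0ᴴ U0 = 1` (entries eventually bounded since `(U x)ᴴ U x → 1`). `X0 = c0 • (Y0 U0)`, so `k = c0 • U0 = Y0⁻¹ X0 ∈ HH f` (`IsG.inv`, `IsG.mul`) and `kᴴ k = 1`: `k ∈ UU f`, `q X0 = q (Y0 k) = q Y0` (`Mo.qr`).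
`mdc_bd`: the images of compact sets.
-/

set_option autoImplicit false

open Filter Topology Matrix

namespace Pool.Agent.Helper84.CH

open Pool.Agent.Helper84.SPQ NI GN Pool.Agent.Helper90.RK

variable {M : Type} [Fintype M] [DecidableEq M] {f : Matrix M M ℂ → ℝ}

/-- the equation of the unitary part -/
noncomputable def fu (f : Matrix M M ℂ → ℝ) (A : Matrix M M ℂ) : ℝ := |f A| + ns (Aᴴ * A - 1)

private theorem ns_zero26 {n : Type} [Fintype n] {A : Matrix n n ℂ} (h : ns A = 0) : A = 0 := by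
  unfold ns at h
  ext i j
  have h1 : ∀ i ∈ Finset.univ, ∑ j, ‖A i j‖ ^ 2 = 0 := by
    rw [Finset.sum_eq_zero_iff_of_nonneg] at h
    · exact h
    · intro i _
      exact Finset.sum_nonneg fun j _ => sq_nonneg _
  have h2 := h1 i (Finset.mem_univ i)
  rw [Finset.sum_eq_zero_iff_of_nonneg] at h2
  · have h3 := h2 j (Finset.mem_univ j)
    have h4 : ‖A i j‖ = 0 := by simpa using h3
    simpa using h4
  · intro j _
    exact sq_nonneg _

private theorem ns_nonneg26 {n : Type} [Fintype n] (A : Matrix n n ℂ) : 0 ≤ ns A :=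
  Finset.sum_nonneg fun _ _ => Finset.sum_nonneg fun _ _ => sq_nonneg _

private theorem det26 {k : Matrix M M ℂ} (hk : kᴴ * k = 1) : k.det ≠ 0 := by
  intro h0
  have h := congrArg Matrix.det hk
  rw [Matrix.det_mul, h0, mul_zero, Matrix.det_one] at h
  exact zero_ne_one h

private theorem fu_zero26 {A : Matrix M M ℂ} : fu f A = 0 ↔ A ∈ UU f := by
  unfold fu
  constructor
  · intro h
    have h1 := abs_nonneg (f A)
    have h2 := ns_nonneg26 (Aᴴ * A - 1)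
    have h3 : |f A| = 0 := by linarith
    have h4 : ns (Aᴴ * A - 1) = 0 := by linarith
    have h5 : Aᴴ * A = 1 := sub_eq_zero.1 (ns_zero26 h4)
    exact ⟨⟨abs_eq_zero.1 h3, det26 h5⟩, h5⟩
  · rintro ⟨⟨h1, -⟩, h2⟩
    rw [h1, h2, sub_self, abs_zero, zero_add]
    simp [ns]

theorem mem_HH_fu {A : Matrix M M ℂ} : A ∈ HH (fu f) ↔ A ∈ UU f := by
  constructor
  · rintro ⟨h1, -⟩
    exact fu_zero26.1 h1
  · intro h
    exact ⟨fu_zero26.2 h, h.1.2⟩

theorem fu_isG (hf : IsG f) : IsG (fu f) := by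
  have h1 : Continuous fun A : Matrix M M ℂ => Aᴴ * A - 1 := by fun_prop
  have h2 : Continuous fun A : Matrix M M ℂ => ns A := by
    unfold ns
    exact continuous_finsetSum _ fun i _ => continuous_finsetSum _ fun j _ =>
      ((continuous_id.matrix_elem i j).norm.pow 2)
  refine ⟨hf.cont.abs.add (h2.comp h1), fu_zero26.2 (UU_one hf), fun A hA B hB => ?_, fun A hA => ?_,
    fun c hc A hA => ?_⟩
  · exact fu_zero26.2 (UU_mul hf (mem_HH_fu.1 hA) (mem_HH_fu.1 hB))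
  · have h3 := mem_HH_fu.1 hA
    rw [Matrix.inv_eq_left_inv h3.2]
    exact fu_zero26.2 (UU_star hf h3)
  · have h3 := mem_HH_fu.1 hA
    have h4 : (c • A)ᴴ * (c • A) = 1 := by
      rw [Matrix.conjTranspose_smul, Matrix.smul_mul, Matrix.mul_smul, smul_smul, h3.2]
      have h5 : star c * c = 1 := by
        have h6 : (starRingEnd ℂ) c * c = (‖c‖ : ℂ) ^ 2 := Complex.conj_mul' c
        rw [hc] at h6
        rw [show star c * c = (starRingEnd ℂ) c * c from rfl, h6]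
        simp
      rw [h5, one_smul]
    exact fu_zero26.2 ⟨⟨hf.smul c hc A h3.1, det26 h4⟩, h4⟩

private theorem lim_KH26 (hf : Continuous f) {α : Type} (u : Ultrafilter α) {A : α → Matrix M M ℂ} {R r : ℝ}
    (h : ∀ᶠ x in (u : Filter α), A x ∈ KH f R r) : ∃ A0 ∈ KH f R r, Tendsto A u (𝓝 A0) := by
  obtain ⟨A0, h0, h1⟩ := (isCompact_KH hf R r).ultrafilter_le_nhds (u.map A) (by
    rw [le_principal_iff]
    exact h)
  exact ⟨A0, h0, h1⟩

private theorem cont26 {E : Type} [TopologicalSpace E] {q : Matrix M M ℂ → E} (hq : ContinuousOn q (HH f)) {α : Type}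
    {l : Filter α} {A : α → Matrix M M ℂ} {A0 : Matrix M M ℂ} {R r : ℝ}
    (hr : 0 < r) (hA : ∀ᶠ a in l, A a ∈ KH f R r) (h0 : A0 ∈ KH f R r) (h : Tendsto A l (𝓝 A0)) :
    Tendsto (fun a => q (A a)) l (𝓝 (q A0)) := by
  have h1 : Tendsto A l (𝓝[HH f] A0) :=
    tendsto_nhdsWithin_iff.2 ⟨h, hA.mono fun a ha => KH_sub hr ha⟩
  have h2 : ContinuousWithinAt q (HH f) A0 := hq A0 (KH_sub hr h0)
  exact Tendsto.comp h2 h1

omit [Fintype M] [DecidableEq M] in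
private theorem entry26 {α : Type} {l : Filter α} {A : α → Matrix M M ℂ} {A0 : Matrix M M ℂ}
    (h : Tendsto A l (𝓝 A0)) (i j : M) : Tendsto (fun x => A x i j) l (𝓝 (A0 i j)) :=
  tendsto_pi_nhds.1 (tendsto_pi_nhds.1 h i) j

private theorem lim_unit26 {α : Type} (u : Ultrafilter α) {U : α → Matrix M M ℂ}
    (hU : Tendsto (fun x => (U x)ᴴ * U x) u (𝓝 1)) : ∃ U0 : Matrix M M ℂ, U0ᴴ * U0 = 1 ∧ Tendsto U u (𝓝 U0) := by
  have hb : ∀ᶠ x in (u : Filter α), ∀ i j, ‖U x i j‖ ≤ 2 := by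
    refine eventually_all.2 fun i => eventually_all.2 fun j => ?_
    have h1 := (entry26 hU j j).norm
    rw [Matrix.one_apply_eq, norm_one] at h1
    filter_upwards [h1.eventually (gt_mem_nhds (show (1 : ℝ) < 2 by norm_num))] with x hx
    have h2 : ((U x)ᴴ * U x) j j = ((∑ l, ‖U x l j‖ ^ 2 : ℝ) : ℂ) := by
      rw [Matrix.mul_apply]
      push_cast
      refine Finset.sum_congr rfl fun l _ => ?_
      rw [Matrix.conjTranspose_apply, ← Complex.conj_mul']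
      rfl
    rw [h2, Complex.norm_real, Real.norm_eq_abs, abs_of_nonneg (Finset.sum_nonneg fun _ _ => sq_nonneg _)] at hx
    have h3 : ‖U x i j‖ ^ 2 ≤ ∑ l, ‖U x l j‖ ^ 2 :=
      Finset.single_le_sum (f := fun l => ‖U x l j‖ ^ 2) (fun _ _ => sq_nonneg _) (Finset.mem_univ i)
    nlinarith [norm_nonneg (U x i j)]
  have hK : IsCompact {A : Matrix M M ℂ | ∀ i j, ‖A i j‖ ≤ 2} := by
    have h : {A : Matrix M M ℂ | ∀ i j, ‖A i j‖ ≤ 2} =
        Set.pi Set.univ fun _ : M => Set.pi Set.univ fun _ : M => Metric.closedBall (0 : ℂ) 2 := by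
      ext A
      constructor
      · intro hA i _ j _
        rw [mem_closedBall_zero_iff]
        exact hA i j
      · intro hA i j
        have h1 := hA i (Set.mem_univ i) j (Set.mem_univ j)
        rwa [mem_closedBall_zero_iff] at h1
    rw [h]
    exact isCompact_univ_pi fun i => isCompact_univ_pi fun j => isCompact_closedBall 0 2
  obtain ⟨U0, -, h1⟩ := hK.ultrafilter_le_nhds (u.map U) (by
    rw [le_principal_iff]
    exact hb)
  have h2 : Tendsto U u (𝓝 U0) := h1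
  have hc : Continuous fun C : Matrix M M ℂ => Cᴴ * C := by fun_prop
  exact ⟨U0, tendsto_nhds_unique ((hc.tendsto U0).comp h2) hU, h2⟩

omit [DecidableEq M] in
private theorem lim_mul26 {α : Type} {u : Filter α} {A B : α → Matrix M M ℂ} {A0 B0 : Matrix M M ℂ}
    (hA : Tendsto A u (𝓝 A0)) (hB : Tendsto B u (𝓝 B0)) : Tendsto (fun x => A x * B x) u (𝓝 (A0 * B0)) := by
  exact hA.mul hB

private theorem right26 (hf : IsG f) {E : Type} [TopologicalSpace E] [AddGroup E] [IsTopologicalAddGroup E]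
    {q : Matrix M M ℂ → E} (hq : ContinuousOn q (HH f))
    (hqr : ∀ A ∈ HH f, ∀ k ∈ UU f, q (A * k) = q A) {α : Type} {F : Filter α} {X Y U : α → Matrix M M ℂ} {c : α → ℂ}
    {R r : ℝ} (hr : 0 < r)
    (hX : ∀ᶠ x in F, X x ∈ KH f R r) (hY : ∀ᶠ x in F, Y x ∈ KH f R r) (hc : ∀ x, ‖c x‖ = 1)
    (hU : Tendsto (fun x => (U x)ᴴ * U x) F (𝓝 1)) (h : Tendsto (fun x => X x - c x • (Y x * U x)) F (𝓝 0)) :
    Tendsto (fun x => q (X x) - q (Y x)) F (𝓝 0) := by
  rw [tendsto_iff_ultrafilter]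
  intro u hu
  obtain ⟨X0, hX0, hXl⟩ := lim_KH26 hf.cont u (hX.filter_mono hu)
  obtain ⟨Y0, hY0, hYl⟩ := lim_KH26 hf.cont u (hY.filter_mono hu)
  obtain ⟨U0, hU0, hUl⟩ := lim_unit26 u (hU.mono_left hu)
  have hcu : ∀ᶠ x in (u : Filter α), c x ∈ Metric.sphere (0 : ℂ) 1 := Eventually.of_forall fun x => by
    rw [mem_sphere_zero_iff_norm]
    exact hc x
  obtain ⟨c0, hc0, hcl⟩ := (isCompact_sphere (0 : ℂ) 1).ultrafilter_le_nhds (u.map c) (by
    rw [le_principal_iff]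
    exact hcu)
  have hcl' : Tendsto c u (𝓝 c0) := hcl
  rw [mem_sphere_zero_iff_norm] at hc0
  have h1 : Tendsto (fun x => Y x * U x) u (𝓝 (Y0 * U0)) := lim_mul26 hYl hUl
  have h2 : X0 - c0 • (Y0 * U0) = 0 :=
    tendsto_nhds_unique (hXl.sub (hcl'.smul h1)) (h.mono_left hu)
  have h3 : X0 = Y0 * (c0 • U0) := by
    rw [Matrix.mul_smul]
    exact sub_eq_zero.1 h2
  have hYH := KH_sub hr hY0
  have h4 : c0 • U0 = Y0⁻¹ * X0 := by
    rw [h3, ← Matrix.mul_assoc, Matrix.nonsing_inv_mul _ (isUnit_iff_ne_zero.2 hYH.2), Matrix.one_mul]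
  have h5 : (c0 • U0)ᴴ * (c0 • U0) = 1 := by
    rw [Matrix.conjTranspose_smul, Matrix.smul_mul, Matrix.mul_smul, smul_smul, hU0]
    have h5 : star c0 * c0 = 1 := by
      have h6 : (starRingEnd ℂ) c0 * c0 = (‖c0‖ : ℂ) ^ 2 := Complex.conj_mul' c0
      rw [hc0] at h6
      rw [show star c0 * c0 = (starRingEnd ℂ) c0 * c0 from rfl, h6]
      simp
    rw [h5, one_smul]
  have h6 : c0 • U0 ∈ UU f := by
    refine ⟨⟨?_, det26 h5⟩, h5⟩
    rw [h4]
    refine hf.mul _ ⟨hf.inv _ hYH, ?_⟩ _ (KH_sub hr hX0)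
    rw [Matrix.det_nonsing_inv, Ring.inverse_eq_inv]
    exact inv_ne_zero hYH.2
  have h7 : q X0 = q Y0 := by
    rw [h3, hqr Y0 hYH _ h6]
  have h8 := (cont26 hq hr (hX.filter_mono hu) hX0 hXl).sub (cont26 hq hr (hY.filter_mono hu) hY0 hYl)
  rw [h7, sub_self] at h8
  exact h8

private theorem sub26 (hf : IsG f) {E : Type} [TopologicalSpace E] [AddGroup E] [IsTopologicalAddGroup E]
    {q : Matrix M M ℂ → E} (hq : ContinuousOn q (HH f)) {α : Type} {F : Filter α} {X Y : α → Matrix M M ℂ} {R r : ℝ}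
    (hr : 0 < r) (hX : ∀ᶠ x in F, X x ∈ KH f R r) (hY : ∀ᶠ x in F, Y x ∈ KH f R r)
    (h : Tendsto (fun x => X x - Y x) F (𝓝 0)) : Tendsto (fun x => q (X x) - q (Y x)) F (𝓝 0) := by
  rw [tendsto_iff_ultrafilter]
  intro u hu
  obtain ⟨X0, hX0, hXl⟩ := lim_KH26 hf.cont u (hX.filter_mono hu)
  obtain ⟨Y0, hY0, hYl⟩ := lim_KH26 hf.cont u (hY.filter_mono hu)
  have h2 : X0 - Y0 = 0 := tendsto_nhds_unique (hXl.sub hYl) (h.mono_left hu)
  have h7 : X0 = Y0 := sub_eq_zero.1 h2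
  have h8 := (cont26 hq hr (hX.filter_mono hu) hX0 hXl).sub (cont26 hq hr (hY.filter_mono hu) hY0 hYl)
  rw [h7, sub_self] at h8
  exact h8

variable {L : Type} [NormedAddCommGroup L] [InnerProductSpace ℂ L] (Mo : MdC f L)

theorem mdc_cpt (hf : IsG f) {R r : ℝ} (hr : 0 < r) : IsCompact (Mo.q '' KH f R r) ∧ IsCompact (Mo.p '' KH f R r) := by
  exact ⟨(isCompact_KH hf.cont R r).image_of_continuousOn (Mo.qcont.mono (KH_sub hr)),
    (isCompact_KH hf.cont R r).image_of_continuousOn (Mo.pcont.mono (KH_sub hr))⟩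

theorem mdc_sub (hf : IsG f) {α : Type} {F : Filter α} {X Y : α → Matrix M M ℂ} {R r : ℝ} (hr : 0 < r)
    (hX : ∀ᶠ x in F, X x ∈ KH f R r) (hY : ∀ᶠ x in F, Y x ∈ KH f R r) (h : Tendsto (fun x => X x - Y x) F (𝓝 0)) :
    Tendsto (fun x => Mo.q (X x) - Mo.q (Y x)) F (𝓝 0) ∧ Tendsto (fun x => Mo.p (X x) - Mo.p (Y x)) F (𝓝 0) := by
  exact ⟨sub26 hf Mo.qcont hr hX hY h, sub26 hf Mo.pcont hr hX hY h⟩

theorem mdc_sig (hf : IsG f) {α : Type} {F : Filter α} {k k' : α → Matrix M M ℂ} (hk : ∀ x, k x ∈ UU f) (hk' : ∀ x, k' x ∈ UU f)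
    (h : Tendsto (fun x => k x - k' x) F (𝓝 0)) (w : L) : Tendsto (fun x => Mo.σ (k x) w - Mo.σ (k' x) w) F (𝓝 0) := by
  rw [tendsto_iff_ultrafilter]
  intro u hu
  have hku : ∀ᶠ x in (u : Filter α), k x ∈ UU f := Eventually.of_forall hk
  have hku' : ∀ᶠ x in (u : Filter α), k' x ∈ UU f := Eventually.of_forall hk'
  obtain ⟨k0, hk0, hkl⟩ := (isCompact_UU hf.cont).ultrafilter_le_nhds (u.map k) (by
    rw [le_principal_iff]
    exact hku)
  obtain ⟨k1, hk1, hkl'⟩ := (isCompact_UU hf.cont).ultrafilter_le_nhds (u.map k') (by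
    rw [le_principal_iff]
    exact hku')
  have h1 : Tendsto k u (𝓝 k0) := hkl
  have h2 : Tendsto k' u (𝓝 k1) := hkl'
  have h3 : k0 - k1 = 0 := tendsto_nhds_unique (h1.sub h2) (h.mono_left hu)
  have h4 : k0 = k1 := sub_eq_zero.1 h3
  subst h4
  have h5 : Tendsto (fun x => Mo.σ (k x) w) u (𝓝 (Mo.σ k0 w)) :=
    Tendsto.comp (Mo.cont w k0 hk0) (tendsto_nhdsWithin_iff.2 ⟨h1, hku⟩)
  have h6 : Tendsto (fun x => Mo.σ (k' x) w) u (𝓝 (Mo.σ k0 w)) :=
    Tendsto.comp (Mo.cont w k0 hk0) (tendsto_nhdsWithin_iff.2 ⟨h2, hku'⟩)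
  have h7 := h5.sub h6
  rw [sub_self] at h7
  exact h7

theorem mdc_right (hf : IsG f) {α : Type} {F : Filter α} {X Y U : α → Matrix M M ℂ} {c : α → ℂ} {R r : ℝ} (hr : 0 < r)
    (hX : ∀ᶠ x in F, X x ∈ KH f R r) (hY : ∀ᶠ x in F, Y x ∈ KH f R r) (hc : ∀ x, ‖c x‖ = 1)
    (hU : Tendsto (fun x => (U x)ᴴ * U x) F (𝓝 1)) (h : Tendsto (fun x => X x - c x • (Y x * U x)) F (𝓝 0)) :
    Tendsto (fun x => Mo.q (X x) - Mo.q (Y x)) F (𝓝 0) ∧ Tendsto (fun x => Mo.p (X x) - Mo.p (Y x)) F (𝓝 0) := by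
  exact ⟨right26 hf Mo.qcont Mo.qr hr hX hY hc hU h, right26 hf Mo.pcont Mo.pr hr hX hY hc hU h⟩

end Pool.Agent.Helper84.CH
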