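import Pool.Agent.Helper84.CH.V1a

/-!
# Project CH, block V1b: the cocycle of the left translations

`pgL Ga pr g γ = pr (gg (κ γ) (κ (g⁻¹ γ 1)) (T.C g 1 γ))` with a projection `pr` on `HH (fu f) = UU f` (`IsPr (fu f) pr`). PROOFS (adapt `pg_ev`, `pg_one`, `pg_mul`, `pg_left` in `SPQ/B6.lean`, complete proofs there).
`pgL_ev`: `A = gg ..` is bounded with `‖det A‖ ≥ r > 0` (`T.C_compact`, `gg_bdd`), `f A → 0` (`Ga.hC g 1 n`), `A Aᴴ → 1` (`T.C_left`, `gg_mul`, `gg_star`, as in `pg_left`), so `Aᴴ A → 1` (`swap61`, private there: copy it) and `fu f A → 0`: the property of `pr` gives `A - pr A → 0`.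
`pgL_sig_one`: `T.C 1 1 γ = c • 1`, `‖c‖ = 1` (`T.C_one`), `pr` fixes `c • 1`, `σ (c • 1) = σ 1 = id` (`scal`, `mul`). `pgL_sig_cpt`: image of the compact set `UU f` under the continuous map `k ↦ σ k w`. `pgL_sig_mul`: as `pg_mul` with `h = h' = 1` (`T.C_mul g 1 g' 1`, `1 * 1 = 1`), and `mdc_sig`, `Mo.scal`, `Mo.mul`.
`pgL_q0`: `σ u (q 1) = q (u * 1) = q (1 * u) = q 1` (`Mo.qk`, `Mo.qr`).
-/

set_option autoImplicit false

open Filter Topology Matrix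

namespace Pool.Agent.Helper84.CH

open Pool.Agent.Helper84.SPQ NI GN Pool.Agent.Helper90.RK

variable {G : Type} [Group G] {N : ℕ} {P : PH G N} {S : Sv P} {T : Str S} {i0 : Fin N} {M : Type} [Fintype M] [DecidableEq M]
  {f : Matrix M M ℂ → ℝ}

section aux67

omit [DecidableEq M] in
private theorem mul_zero67 {α : Type} {F : Filter α} {X Y : α → Matrix M M ℂ} {R : ℝ}
    (hX : Tendsto X F (𝓝 0)) (hY : ∀ᶠ x in F, ∀ i j, ‖Y x i j‖ ≤ R) :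
    Tendsto (fun x => X x * Y x) F (𝓝 0) := by
  refine tendsto_pi_nhds.2 fun i => tendsto_pi_nhds.2 fun j => ?_
  have h1 : ∀ k, Tendsto (fun x => X x i k * Y x k j) F (𝓝 0) := by
    intro k
    have h2 : Tendsto (fun x => X x i k) F (𝓝 0) := tendsto_pi_nhds.1 (tendsto_pi_nhds.1 hX i) k
    have h3 : Tendsto (fun x => ‖X x i k‖ * R) F (𝓝 0) := by
      have := h2.norm.mul_const R
      rwa [norm_zero, zero_mul] at this
    refine squeeze_zero_norm' ?_ h3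
    filter_upwards [hY] with x hx
    rw [norm_mul]
    exact mul_le_mul_of_nonneg_left (hx k j) (norm_nonneg _)
  have h4 : Tendsto (fun x => ∑ k, X x i k * Y x k j) F (𝓝 (∑ _k : M, (0 : ℂ))) :=
    tendsto_finsetSum _ fun k _ => h1 k
  rw [Finset.sum_const_zero] at h4
  refine h4.congr fun x => ?_
  rw [Matrix.mul_apply]

omit [DecidableEq M] in
private theorem zero_mul67 {α : Type} {F : Filter α} {X Y : α → Matrix M M ℂ} {R : ℝ}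
    (hX : Tendsto X F (𝓝 0)) (hY : ∀ᶠ x in F, ∀ i j, ‖Y x i j‖ ≤ R) :
    Tendsto (fun x => Y x * X x) F (𝓝 0) := by
  refine tendsto_pi_nhds.2 fun i => tendsto_pi_nhds.2 fun j => ?_
  have h1 : ∀ k, Tendsto (fun x => Y x i k * X x k j) F (𝓝 0) := by
    intro k
    have h2 : Tendsto (fun x => X x k j) F (𝓝 0) := tendsto_pi_nhds.1 (tendsto_pi_nhds.1 hX k) j
    have h3 : Tendsto (fun x => R * ‖X x k j‖) F (𝓝 0) := by
      have := h2.norm.const_mul R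
      rwa [norm_zero, mul_zero] at this
    refine squeeze_zero_norm' ?_ h3
    filter_upwards [hY] with x hx
    rw [norm_mul]
    exact mul_le_mul_of_nonneg_right (hx i k) (norm_nonneg _)
  have h4 : Tendsto (fun x => ∑ k, Y x i k * X x k j) F (𝓝 (∑ _k : M, (0 : ℂ))) :=
    tendsto_finsetSum _ fun k _ => h1 k
  rw [Finset.sum_const_zero] at h4
  refine h4.congr fun x => ?_
  rw [Matrix.mul_apply]

/-- for bounded square matrices, `A Aᴴ → 1` implies `Aᴴ A → 1` -/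
private theorem swap67 {α : Type} {F : Filter α} {A : α → Matrix M M ℂ} {R r : ℝ}
    (hb : ∀ᶠ x in F, (∀ i j, ‖A x i j‖ ≤ R) ∧ r ≤ ‖(A x).det‖)
    (h : Tendsto (fun x => A x * (A x)ᴴ) F (𝓝 1)) : Tendsto (fun x => (A x)ᴴ * A x) F (𝓝 1) := by
  rw [tendsto_iff_ultrafilter]
  intro u hu
  obtain ⟨A0, -, h1⟩ := (isCompact_KH (f := fun _ : Matrix M M ℂ => (0 : ℝ)) continuous_const R r).ultrafilter_le_nhds
    (u.map A) (by
      rw [le_principal_iff]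
      have h2 := hb.filter_mono hu
      change ∀ᶠ x in (u : Filter α), A x ∈ KH (fun _ : Matrix M M ℂ => (0 : ℝ)) R r
      filter_upwards [h2] with x hx
      exact ⟨rfl, hx.1, hx.2⟩)
  have h1' : Tendsto A u (𝓝 A0) := h1
  have hc : Continuous fun C : Matrix M M ℂ => C * Cᴴ := by fun_prop
  have h3 := tendsto_nhds_unique ((hc.tendsto A0).comp h1') (h.mono_left hu)
  have hc' : Continuous fun C : Matrix M M ℂ => Cᴴ * C := by fun_prop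
  have h4 : A0ᴴ * A0 = 1 := mul_eq_one_comm.1 h3
  have h5 := (hc'.tendsto A0).comp h1'
  rw [h4] at h5
  exact h5


private theorem det67 {k : Matrix M M ℂ} (hk : kᴴ * k = 1) : k.det ≠ 0 := by
  intro h0
  have h := congrArg Matrix.det hk
  rw [Matrix.det_mul, h0, mul_zero, Matrix.det_one] at h
  exact zero_ne_one h

private theorem ent67 {k : Matrix M M ℂ} (hk : kᴴ * k = 1) (i j : M) : ‖k i j‖ ≤ 1 := by
  have h := congrFun (congrFun hk j) j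
  rw [Matrix.mul_apply, Matrix.one_apply_eq] at h
  have h1 : ∑ l, ‖k l j‖ ^ 2 = 1 := by
    have h2 : ((∑ l, ‖k l j‖ ^ 2 : ℝ) : ℂ) = 1 := by
      rw [← h]
      push_cast
      refine Finset.sum_congr rfl fun l _ => ?_
      rw [Matrix.conjTranspose_apply, ← Complex.conj_mul']
      rfl
    exact_mod_cast h2
  have h3 : ‖k i j‖ ^ 2 ≤ 1 := by
    rw [← h1]
    exact Finset.single_le_sum (f := fun l => ‖k l j‖ ^ 2) (fun _ _ => sq_nonneg _) (Finset.mem_univ i)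
  nlinarith [norm_nonneg (k i j)]

private theorem smul67 (hf : IsG f) {k : Matrix M M ℂ} (hk : k ∈ UU f) {c : ℂ} (hc : ‖c‖ = 1) : c • k ∈ UU f := by
  have h : (c • k)ᴴ * (c • k) = 1 := by
    rw [Matrix.conjTranspose_smul, Matrix.smul_mul, Matrix.mul_smul, hk.2, smul_smul]
    have h1 : star c * c = 1 := by
      rw [Complex.star_def, Complex.conj_mul', hc]
      norm_num
    rw [h1, one_smul]
  exact ⟨⟨hf.smul c hc k hk.1, det67 h⟩, h⟩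

end aux67

/-- The Levi cocycle of the left translations in the gauge, moved to `UU f`. -/
noncomputable def pgL (Ga : Gau T i0 M f) (pr : Matrix M M ℂ → Matrix M M ℂ) (g γ : G) : Matrix M M ℂ :=
  pr (gg (Ga.κ γ) (Ga.κ (g⁻¹ * γ * 1)) (T.C g 1 γ))

variable (Ga : Gau T i0 M f) (hf : IsG f) {pr : Matrix M M ℂ → Matrix M M ℂ} (hp : IsPr (fu f) pr)
  {L : Type} [NormedAddCommGroup L] [InnerProductSpace ℂ L] (Mo : MdC f L)

include hp in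
theorem pgL_mem (g γ : G) : pgL Ga pr g γ ∈ UU f := mem_HH_fu.1 (hp.1 _)

include hp in
private theorem ev67 (g : G) : ∃ R r : ℝ, 0 < r ∧ ∀ n,
    (∀ᶠ γ in T.F n, (∀ i j, ‖gg (Ga.κ γ) (Ga.κ (g⁻¹ * γ * 1)) (T.C g 1 γ) i j‖ ≤ R) ∧
      r ≤ ‖(gg (Ga.κ γ) (Ga.κ (g⁻¹ * γ * 1)) (T.C g 1 γ)).det‖) ∧
    Tendsto (fun γ => gg (Ga.κ γ) (Ga.κ (g⁻¹ * γ * 1)) (T.C g 1 γ) - pgL Ga pr g γ) (T.F n) (𝓝 0) := by
  obtain ⟨R0, r0, hr0, hK⟩ := T.C_compact g 1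
  obtain ⟨R', r', hr', hgg⟩ := gg_bdd T.b i0 M (R := R0) hr0
  refine ⟨R', r', hr', fun n => ?_⟩
  have hb : ∀ᶠ γ in T.F n, (∀ i j, ‖gg (Ga.κ γ) (Ga.κ (g⁻¹ * γ * 1)) (T.C g 1 γ) i j‖ ≤ R') ∧
      r' ≤ ‖(gg (Ga.κ γ) (Ga.κ (g⁻¹ * γ * 1)) (T.C g 1 γ)).det‖ := by
    filter_upwards [hK n] with γ hγ
    exact hgg _ _ (Ga.u1 _) (Ga.u2 _) (Ga.u1 _) (Ga.u2 _) _ hγ
  have e1 : Tendsto (fun γ => gg (Ga.κ γ) (Ga.κ (g⁻¹ * γ * 1)) (T.C g 1 γ) *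
      (gg (Ga.κ γ) (Ga.κ (g⁻¹ * γ * 1)) (T.C g 1 γ))ᴴ) (T.F n) (𝓝 1) := by
    have h2 := (T.C_left g n).sub_const 1
    rw [sub_self] at h2
    have h3 := (gg_tendsto (k := fun γ => Ga.κ γ) (k' := fun γ => Ga.κ γ)
      (fun γ => Ga.u1 γ) (fun γ => Ga.u1 γ) h2).add_const 1
    rw [zero_add] at h3
    refine h3.congr fun γ => ?_
    rw [gg_star, ← gg_mul (Ga.u2 (g⁻¹ * γ * 1)) (show D T.b (T.C g 1 γ) = T.C g 1 γ from D_D T.b _),
      gg_sub, gg_one (Ga.u1 γ), sub_add_cancel]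
  have e2 := swap67 hb e1
  have e3 : Tendsto (fun γ => fu f (gg (Ga.κ γ) (Ga.κ (g⁻¹ * γ * 1)) (T.C g 1 γ))) (T.F n) (𝓝 0) := by
    unfold fu
    have h4 := (Ga.hC g 1 n).abs
    rw [abs_zero] at h4
    have hns : Continuous fun A : Matrix M M ℂ => ns A := by
      unfold ns
      fun_prop
    have h5 := e2.sub_const 1
    rw [sub_self] at h5
    have h6 := (hns.tendsto 0).comp h5
    have h7 : ns (0 : Matrix M M ℂ) = 0 := by
      unfold ns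
      simp
    rw [h7] at h6
    have h8 := h4.add h6
    rw [add_zero] at h8
    exact h8
  exact ⟨hb, hp.2.2 (T.F n) _ R' r' hr' hb e3⟩

include hf hp in
theorem pgL_ev (g : G) (n : ℕ) : Tendsto (fun γ => gg (Ga.κ γ) (Ga.κ (g⁻¹ * γ * 1)) (T.C g 1 γ) - pgL Ga pr g γ) (T.F n) (𝓝 0) := by
  obtain ⟨R, r, hr, h1⟩ := ev67 Ga hp g
  exact (h1 n).2

include hf hp in
theorem pgL_sig_one (γ : G) (w : L) : Mo.σ (pgL Ga pr 1 γ) w = w := by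
  obtain ⟨c, hc, h⟩ := T.C_one γ
  have h1 : (1 : Matrix M M ℂ) ∈ UU f := UU_one hf
  have h2 : c • (1 : Matrix M M ℂ) ∈ UU f := smul67 hf h1 hc
  have h3 : pgL Ga pr 1 γ = c • (1 : Matrix M M ℂ) := by
    unfold pgL
    rw [inv_one, one_mul, mul_one, h, gg_smul, gg_one (Ga.u1 γ), hp.2.1 _ (mem_HH_fu.2 h2)]
  rw [h3, Mo.scal c 1 h1 h2]
  have h4 := Mo.mul 1 h1 1 h1 w
  rw [mul_one] at h4
  exact (Mo.σ 1).injective h4.symm

include hf hp in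
theorem pgL_sig_cpt (g : G) (w : L) : ∃ K : Set L, IsCompact K ∧ ∀ γ, Mo.σ (pgL Ga pr g γ) w ∈ K := by
  refine ⟨(fun k => Mo.σ k w) '' UU f, (isCompact_UU hf.cont).image_of_continuousOn (Mo.cont w), fun γ => ?_⟩
  exact ⟨_, pgL_mem Ga hp g γ, rfl⟩

include hf hp in
theorem pgL_sig_mul (g g' : G) (n : ℕ) (w : L) :
    Tendsto (fun γ => Mo.σ (pgL Ga pr (g * g') γ) w - Mo.σ (pgL Ga pr g γ) (Mo.σ (pgL Ga pr g' (g⁻¹ * γ * 1)) w)) (T.F n) (𝓝 0) := by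
  obtain ⟨R1, r1, hr1, h1⟩ := ev67 Ga hp g
  obtain ⟨R2, r2, hr2, h2⟩ := ev67 Ga hp g'
  obtain ⟨R3, r3, hr3, h3⟩ := ev67 Ga hp (g * g')
  obtain ⟨n', hsh⟩ := T.shift g 1 n
  obtain ⟨c, hc, hcm⟩ := T.C_mul g 1 g' 1
  have h11 : (1 : G) * 1 = 1 := mul_one 1
  simp only [h11] at hcm
  obtain ⟨b1, t1⟩ := h1 n
  obtain ⟨b2, t2⟩ := h2 n'
  obtain ⟨b3, t3⟩ := h3 n
  have b2' := hsh.eventually b2
  have t2' := t2.comp hsh
  have hγ : ∀ γ : G, g'⁻¹ * (g⁻¹ * γ * 1) * 1 = (g * g')⁻¹ * γ * 1 := by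
    intro γ
    group
  have e1 : Tendsto (fun γ => c γ • (gg (Ga.κ γ) (Ga.κ (g⁻¹ * γ * 1)) (T.C g 1 γ) *
      gg (Ga.κ (g⁻¹ * γ * 1)) (Ga.κ (g'⁻¹ * (g⁻¹ * γ * 1) * 1)) (T.C g' 1 (g⁻¹ * γ * 1))) -
      gg (Ga.κ γ) (Ga.κ ((g * g')⁻¹ * γ * 1)) (T.C (g * g') 1 γ)) (T.F n) (𝓝 0) := by
    have h4 := gg_tendsto (k := fun γ => Ga.κ γ) (k' := fun γ => Ga.κ ((g * g')⁻¹ * γ * 1))
      (fun γ => Ga.u1 γ) (fun γ => Ga.u1 _) (hcm n)
    refine h4.congr fun γ => ?_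
    rw [gg_sub, gg_smul]
    have h5 := gg_mul (k := Ga.κ γ) (k'' := Ga.κ ((g * g')⁻¹ * γ * 1))
      (Ga.u2 (g⁻¹ * γ * 1)) (show D T.b (T.C g 1 γ) = T.C g 1 γ from D_D T.b _)
      (T.C g' 1 (g⁻¹ * γ * 1))
    rw [h5, hγ]
  have e2 : Tendsto (fun γ => gg (Ga.κ γ) (Ga.κ (g⁻¹ * γ * 1)) (T.C g 1 γ) *
      gg (Ga.κ (g⁻¹ * γ * 1)) (Ga.κ (g'⁻¹ * (g⁻¹ * γ * 1) * 1)) (T.C g' 1 (g⁻¹ * γ * 1)) -
      pgL Ga pr g γ * pgL Ga pr g' (g⁻¹ * γ * 1)) (T.F n) (𝓝 0) := by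
    have h4 := mul_zero67 t1 (b2'.mono fun γ h => h.1)
    have h5 := zero_mul67 (Y := fun γ => pgL Ga pr g γ) (R := 1) t2'
      (Filter.Eventually.of_forall fun γ i j => ent67 (pgL_mem Ga hp g γ).2 i j)
    have h6 := h4.add h5
    rw [add_zero] at h6
    refine h6.congr fun γ => ?_
    simp only [Function.comp]
    rw [sub_mul, mul_sub]
    abel
  have e3 : Tendsto (fun γ => c γ • (gg (Ga.κ γ) (Ga.κ (g⁻¹ * γ * 1)) (T.C g 1 γ) *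
      gg (Ga.κ (g⁻¹ * γ * 1)) (Ga.κ (g'⁻¹ * (g⁻¹ * γ * 1) * 1)) (T.C g' 1 (g⁻¹ * γ * 1)) -
      pgL Ga pr g γ * pgL Ga pr g' (g⁻¹ * γ * 1))) (T.F n) (𝓝 0) := by
    refine tendsto_pi_nhds.2 fun i => tendsto_pi_nhds.2 fun j => ?_
    have h4 := (tendsto_pi_nhds.1 (tendsto_pi_nhds.1 e2 i) j).norm
    change Tendsto _ _ (𝓝 ‖(0 : Matrix M M ℂ) i j‖) at h4
    rw [Matrix.zero_apply, norm_zero] at h4
    change Tendsto _ _ (𝓝 ((0 : Matrix M M ℂ) i j))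
    rw [Matrix.zero_apply, tendsto_zero_iff_norm_tendsto_zero]
    refine h4.congr fun γ => ?_
    rw [Matrix.smul_apply, norm_smul, hc, one_mul]
  have e4 : Tendsto (fun γ => pgL Ga pr (g * g') γ -
      c γ • (pgL Ga pr g γ * pgL Ga pr g' (g⁻¹ * γ * 1))) (T.F n) (𝓝 0) := by
    have h4 := (e3.sub e1).sub t3
    rw [sub_zero, sub_zero] at h4
    refine h4.congr fun γ => ?_
    rw [smul_sub]
    abel
  have hm : ∀ γ, pgL Ga pr g γ * pgL Ga pr g' (g⁻¹ * γ * 1) ∈ UU f := fun γ =>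
    UU_mul hf (pgL_mem Ga hp g γ) (pgL_mem Ga hp g' _)
  have key := mdc_sig Mo hf (k := fun γ => pgL Ga pr (g * g') γ)
    (k' := fun γ => c γ • (pgL Ga pr g γ * pgL Ga pr g' (g⁻¹ * γ * 1)))
    (fun γ => pgL_mem Ga hp _ γ) (fun γ => smul67 hf (hm γ) (hc γ)) e4 w
  refine key.congr fun γ => ?_
  rw [Mo.scal (c γ) _ (hm γ) (smul67 hf (hm γ) (hc γ)), Mo.mul _ (pgL_mem Ga hp g γ) _ (pgL_mem Ga hp g' _)]

include hf hp in
theorem pgL_q0 (g γ : G) : Mo.σ (pgL Ga pr g γ) (Mo.q 1) = Mo.q 1 := by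
  have hu := pgL_mem Ga hp g γ
  have h1 : (1 : Matrix M M ℂ) ∈ HH f := (UU_one hf).1
  rw [← Mo.qk _ hu 1 h1, mul_one]
  have h2 := Mo.qr 1 h1 _ hu
  rw [one_mul] at h2
  exact h2

end Pool.Agent.Helper84.CH
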