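import Pool.Agent.Helper84.CH.V1b

/-!
# Project CH, block V1c: invariance under right translations

Notation: `X γ = Ga.XX γ` (`= gg (κ γ) (κ γ) (S.X γ)`), `sec Ga Mo.q γ = q (X γ)` for `γ ∈ Ga.good`, `q 1` otherwise.
`sec_cpt`: eventually (along `T.F n`) `γ ∈ T.W n ∩ good` and `X γ ∈ KH f R r`: by `hXb` `z • X γ ∈ KH f R r`, `X γ ∈ HH f` (`Ga.hX`; `det ≠ 0`, see `XX_det45` in `SPQ/B7.lean`), by `hdet` `‖z‖ = 1` (`det (z • X) = z^card * det X`; if `M` is empty all is trivial), so the entries of `X γ` have the moduli of those of `z • X γ`. `mdc_cpt`.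
`sec_inv`. PROOF. Let `pr0` be as in `exists_pr hf` (projection on `HH f`), `γ' = s⁻¹ γ`, `B = pg Ga pr0 1 h γ`, `B' = pg Ga pr0 1 h γ'` (in `HH f`, `pg_ev` in `SPQ/B6.lean`: bounded, and close to `gg (κ γ) (κ (γ h)) (T.C 1 h γ)`), `u = pgL Ga pr s γ`, `u' = pgL Ga pr s (γ h)` (in `UU f`; `pgL_ev`). All statements are eventually along `T.F n` (`T.shift` for `γ h`, `γ'`, `γ' h`; all of them eventually in `good` and in some `T.W n'`).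
(1) As in `vv_right` (`SPQ/B7.lean`): `B X(γ h) - c • (X γ * O) → 0` with `‖c‖ = 1`, `Oᴴ O → 1` (from `T.C_right h`: `gg (..) (T.C 1 h γ) * X (γ h) = c • (X γ * gg (..) (O γ))`). So `p (B X(γ h)) - p (X γ) → 0` (`mdc_right`; products of elements of compact subsets `KH` are in such a set: `KH_mul61` private in `SPQ/B6.lean`, copy).
(2) `B u' - c' • (u B') → 0`, `‖c'‖ = 1`: by `T.C_mul 1 h s 1` and `T.C_mul s 1 1 h` both `T.C 1 h γ * T.C s 1 (γ h)` and `T.C s 1 γ * T.C 1 h γ'` are, up to scalars of modulus one, close to `T.C s h γ`; apply `gg` (`gg_mul`, `gg_tendsto`), as in `pg_mul`.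
(3) By (1) at `γ'`: `B' X(γ' h) - c'' • (X γ' * O') → 0`. So `B u' X(γ' h) - c''' • ((u X γ') * O') → 0` and `q (B u' X(γ' h)) - q (u X γ') → 0`.
Then `⟪p (X (γ h)), σ u' (q (X (γ' h)))⟫ = ⟪p (X (γ h)), q (u' X (γ' h))⟫` (`qk`) `= ⟪p (B X (γ h)), q (B (u' X (γ' h)))⟫` (`Mo.inv`), which is close to `⟪p (X γ), q (u X γ')⟫ = ⟪p (X γ), σ u (q (X γ'))⟫` (all vectors have bounded norms: they are in compact sets). Note `s⁻¹ * (γ * h) * 1 = γ' * h`.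
-/

set_option autoImplicit false

open Filter Topology Matrix

namespace Pool.Agent.Helper84.CH

open Pool.Agent.Helper84.SPQ NI GN Pool.Agent.Helper90.RK

variable {G : Type} [Group G] {N : ℕ} {P : PH G N} {S : Sv P} {T : Str S} {i0 : Fin N} {M : Type} [Fintype M] [DecidableEq M]
  {f : Matrix M M ℂ → ℝ}

section aux34

private theorem HH_mul34 (hf : IsG f) {A B : Matrix M M ℂ} (hA : A ∈ HH f) (hB : B ∈ HH f) : A * B ∈ HH f :=
  ⟨hf.mul A hA B hB, by rw [Matrix.det_mul]; exact mul_ne_zero hA.2 hB.2⟩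

private theorem HH_inv34 (hf : IsG f) {A : Matrix M M ℂ} (hA : A ∈ HH f) : A⁻¹ ∈ HH f := by
  refine ⟨hf.inv A hA, ?_⟩
  rw [Matrix.det_nonsing_inv, Ring.inverse_eq_inv]
  exact inv_ne_zero hA.2

private theorem HH_smul34 (hf : IsG f) {A : Matrix M M ℂ} (hA : A ∈ HH f) {c : ℂ} (hc : ‖c‖ = 1) : c • A ∈ HH f := by
  refine ⟨hf.smul c hc A hA, ?_⟩
  rw [Matrix.det_smul]
  refine mul_ne_zero (pow_ne_zero _ ?_) hA.2
  rintro rfl
  rw [norm_zero] at hc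
  exact zero_ne_one hc

private theorem lim_inv34 {α : Type} {u : Filter α} {A : α → Matrix M M ℂ} {A0 : Matrix M M ℂ}
    (hA : Tendsto A u (𝓝 A0)) (h0 : A0.det ≠ 0) : Tendsto (fun x => (A x)⁻¹) u (𝓝 A0⁻¹) := by
  simp only [Matrix.inv_def, Ring.inverse_eq_inv]
  have h1 : Continuous fun A : Matrix M M ℂ => A.det := continuous_id.matrix_det
  have h2 : Continuous fun A : Matrix M M ℂ => A.adjugate := continuous_id.matrix_adjugate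
  exact (((h1.tendsto A0).comp hA).inv₀ h0).smul ((h2.tendsto A0).comp hA)

omit [DecidableEq M] in
private theorem lim_mul34 {α : Type} {u : Filter α} {A B : α → Matrix M M ℂ} {A0 B0 : Matrix M M ℂ}
    (hA : Tendsto A u (𝓝 A0)) (hB : Tendsto B u (𝓝 B0)) : Tendsto (fun x => A x * B x) u (𝓝 (A0 * B0)) := by
  exact hA.mul hB

private theorem lim_KH34 (hf : Continuous f) {α : Type} (u : Ultrafilter α) {A : α → Matrix M M ℂ} {R r : ℝ} (hr : 0 < r)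
    (h : ∀ᶠ x in (u : Filter α), A x ∈ KH f R r) : ∃ A0 ∈ HH f, Tendsto A u (𝓝 A0) := by
  obtain ⟨A0, h0, h1⟩ := (isCompact_KH hf R r).ultrafilter_le_nhds (u.map A) (by
    rw [le_principal_iff]
    exact h)
  exact ⟨A0, KH_sub hr h0, h1⟩

private theorem lim_q34 {L : Type} [NormedAddCommGroup L] {q : Matrix M M ℂ → L} (hq : ContinuousOn q (HH f)) {α : Type}
    {l : Filter α} {A : α → Matrix M M ℂ} {A0 : Matrix M M ℂ} (hA : ∀ᶠ a in l, A a ∈ HH f) (h0 : A0 ∈ HH f)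
    (h : Tendsto A l (𝓝 A0)) : Tendsto (fun a => q (A a)) l (𝓝 (q A0)) := by
  have h1 : Tendsto A l (𝓝[HH f] A0) := tendsto_nhdsWithin_iff.2 ⟨h, hA⟩
  have h2 : ContinuousWithinAt q (HH f) A0 := hq A0 h0
  exact Tendsto.comp h2 h1

private theorem XX_det34 (Ga : Gau T i0 M f) (γ : G) : (Ga.XX γ).det ≠ 0 := by
  have hX := T.X_mem γ
  have h1 : gg (Ga.κ γ) (Ga.κ γ) (S.X γ) * gg (Ga.κ γ) (Ga.κ γ) (S.X γ)⁻¹ = 1 := by
    rw [← gg_mul (Ga.u2 γ) hX.1, Matrix.mul_nonsing_inv _ (isUnit_iff_ne_zero.2 hX.2),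
      gg_one (Ga.u1 γ)]
  intro h2
  have h3 := congrArg Matrix.det h1
  rw [Matrix.det_mul, Matrix.det_one] at h3
  have h4 : (gg (Ga.κ γ) (Ga.κ γ) (S.X γ)).det = 0 := h2
  rw [h4, zero_mul] at h3
  exact zero_ne_one h3

private theorem XX_mem34 (Ga : Gau T i0 M f) {γ : G} (hγ : γ ∈ Ga.good) : Ga.XX γ ∈ HH f := ⟨Ga.hX γ hγ, XX_det34 Ga γ⟩

private theorem XX_KH34 (Ga : Gau T i0 M f) (hdet : ∀ A ∈ HH f, ‖A.det‖ = 1) (n : ℕ) :
    ∃ R r : ℝ, 0 < r ∧ ∀ᶠ γ in T.F n, γ ∈ Ga.good ∧ Ga.XX γ ∈ KH f R r := by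
  obtain ⟨R, r, hr, hz⟩ := Ga.hXb n
  refine ⟨R, r, hr, ?_⟩
  filter_upwards [T.le n (mem_principal_self _), Ga.hgood n] with γ h1 h2
  obtain ⟨z, hz0, hz2⟩ := hz γ h1 h2
  refine ⟨h2, ?_⟩
  have m1 : Ga.XX γ ∈ HH f := XX_mem34 Ga h2
  have d1 := hdet _ m1
  have d2 : ‖(z • Ga.XX γ).det‖ = 1 := hdet _ (KH_sub hr hz2)
  have hz3 : z • Ga.XX γ ∈ KH f R r := hz2
  refine ⟨m1.1, fun i j => ?_, ?_⟩
  · have hne : Nonempty M := ⟨i⟩
    rw [Matrix.det_smul, norm_mul, norm_pow, d1, mul_one] at d2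
    have hz1 : ‖z‖ = 1 := (pow_eq_one_iff_of_nonneg (norm_nonneg z) Fintype.card_ne_zero).1 d2
    have h3 := hz3.2.1 i j
    rwa [Matrix.smul_apply, norm_smul, hz1, one_mul] at h3
  · rw [d1, ← d2]
    exact hz3.2.2

private theorem right34 (Ga : Gau T i0 M f) (hf : IsG f) (h : G) (u : Ultrafilter G) (φ : G → G) (m : ℕ) (hφ : Tendsto φ u (T.F m))
    {B0 X0 X1 : Matrix M M ℂ} (hB0 : B0 ∈ HH f) (hX0 : X0 ∈ HH f) (hX1 : X1 ∈ HH f)
    (hB : Tendsto (fun γ => gg (Ga.κ (φ γ)) (Ga.κ (φ γ * h)) (T.C 1 h (φ γ))) u (𝓝 B0))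
    (hX : Tendsto (fun γ => Ga.XX (φ γ)) u (𝓝 X0)) (hX' : Tendsto (fun γ => Ga.XX (φ γ * h)) u (𝓝 X1)) :
    ∃ k ∈ UU f, B0 * X1 = X0 * k := by
  obtain ⟨O, hO0, hO1, hO2⟩ := T.C_right h
  choose c hc hce using hO1
  obtain ⟨U, hU⟩ : ∃ U : G → Matrix M M ℂ, ∀ γ, U γ = gg (Ga.κ (φ γ)) (Ga.κ (φ γ * h)) (O (φ γ)) := ⟨_, fun _ => rfl⟩
  have hrel : ∀ γ, gg (Ga.κ (φ γ)) (Ga.κ (φ γ * h)) (T.C 1 h (φ γ)) * Ga.XX (φ γ * h) =
      c (φ γ) • (Ga.XX (φ γ) * U γ) := by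
    intro γ
    have e1 : gg (Ga.κ (φ γ)) (Ga.κ (φ γ * h)) (T.C 1 h (φ γ)) * Ga.XX (φ γ * h) =
        gg (Ga.κ (φ γ)) (Ga.κ (φ γ * h)) (T.C 1 h (φ γ) * S.X (φ γ * h)) :=
      (gg_mul (Ga.u2 (φ γ * h)) (D_D T.b _) _).symm
    have e3 : gg (Ga.κ (φ γ)) (Ga.κ (φ γ * h)) (S.X (φ γ) * O (φ γ)) = Ga.XX (φ γ) * U γ := by
      rw [hU]
      exact gg_mul (Ga.u2 (φ γ)) (T.X_mem (φ γ)).1 _
    rw [e1, hce (φ γ), gg_smul, e3]
  have hU1 : Tendsto (fun γ => (U γ)ᴴ * U γ) u (𝓝 1) := by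
    have e1 : ∀ γ, (U γ)ᴴ * U γ = gg (Ga.κ (φ γ * h)) (Ga.κ (φ γ * h)) ((O (φ γ))ᴴ * O (φ γ)) := by
      intro γ
      rw [hU, gg_star]
      refine (gg_mul (Ga.u2 (φ γ)) ?_ _).symm
      rw [D_star, hO0]
    have e2 : Tendsto (fun γ => (O (φ γ))ᴴ * O (φ γ) - 1) u (𝓝 0) := by
      have := ((hO2 m).comp hφ).sub_const 1
      rwa [sub_self] at this
    have e3 := (gg_tendsto (k := fun γ => Ga.κ (φ γ * h)) (k' := fun γ => Ga.κ (φ γ * h))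
      (fun γ => Ga.u1 _) (fun γ => Ga.u1 _) e2).add_const 1
    rw [zero_add] at e3
    refine e3.congr fun γ => ?_
    rw [gg_sub, gg_one (Ga.u1 _), e1, sub_add_cancel]
  have hkt := lim_mul34 (lim_inv34 hX hX0.2) (lim_mul34 hB hX')
  have hk1 : X0⁻¹ * (B0 * X1) ∈ HH f := HH_mul34 hf (HH_inv34 hf hX0) (HH_mul34 hf hB0 hX1)
  have hkU : ∀ γ, (Ga.XX (φ γ))⁻¹ * (gg (Ga.κ (φ γ)) (Ga.κ (φ γ * h)) (T.C 1 h (φ γ)) * Ga.XX (φ γ * h)) =
      c (φ γ) • U γ := by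
    intro γ
    rw [hrel, Matrix.mul_smul, ← Matrix.mul_assoc,
      Matrix.nonsing_inv_mul _ (isUnit_iff_ne_zero.2 (XX_det34 Ga (φ γ))), Matrix.one_mul]
  have hcc : Continuous fun C : Matrix M M ℂ => Cᴴ * C := by fun_prop
  have h5 := (hcc.tendsto _).comp hkt
  have h6 : Tendsto (fun γ => (U γ)ᴴ * U γ) u (𝓝 ((X0⁻¹ * (B0 * X1))ᴴ * (X0⁻¹ * (B0 * X1)))) := by
    refine h5.congr fun γ => ?_
    simp only [Function.comp_apply]
    rw [hkU, Matrix.conjTranspose_smul, Matrix.smul_mul, Matrix.mul_smul, smul_smul]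
    have h7 : star (c (φ γ)) * c (φ γ) = 1 := by
      rw [Complex.star_def, Complex.conj_mul', hc]
      norm_num
    rw [h7, one_smul]
  refine ⟨_, ⟨hk1, tendsto_nhds_unique h6 hU1⟩, ?_⟩
  rw [← Matrix.mul_assoc X0, Matrix.mul_nonsing_inv _ (isUnit_iff_ne_zero.2 hX0.2), Matrix.one_mul]

private theorem unit34 {α : Type} (u : Ultrafilter α) {c : α → ℂ} (hc : ∀ x, ‖c x‖ = 1) : ∃ c0 : ℂ, ‖c0‖ = 1 ∧ Tendsto c u (𝓝 c0) := by
  have hcu : ∀ᶠ x in (u : Filter α), c x ∈ Metric.sphere (0 : ℂ) 1 := Eventually.of_forall fun x => by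
    rw [mem_sphere_zero_iff_norm]
    exact hc x
  obtain ⟨c0, hc0, hcl⟩ := (isCompact_sphere (0 : ℂ) 1).ultrafilter_le_nhds (u.map c) (by
    rw [le_principal_iff]
    exact hcu)
  rw [mem_sphere_zero_iff_norm] at hc0
  exact ⟨c0, hc0, hcl⟩

end aux34

open Classical in
/-- The section given by a map on matrices. -/
noncomputable def sec (Ga : Gau T i0 M f) {L : Type} (q : Matrix M M ℂ → L) (γ : G) : L := if γ ∈ Ga.good then q (Ga.XX γ) else q 1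

variable (Ga : Gau T i0 M f) (hf : IsG f) (hdet : ∀ A ∈ HH f, ‖A.det‖ = 1) {pr : Matrix M M ℂ → Matrix M M ℂ} (hp : IsPr (fu f) pr)
  {L : Type} [NormedAddCommGroup L] [InnerProductSpace ℂ L] (Mo : MdC f L)

include hf hdet in
theorem sec_cpt (n : ℕ) : (∃ K : Set L, IsCompact K ∧ ∀ᶠ γ in T.F n, sec Ga Mo.q γ ∈ K) ∧
    ∃ K : Set L, IsCompact K ∧ ∀ᶠ γ in T.F n, sec Ga Mo.p γ ∈ K := by
  obtain ⟨R, r, hr, hX⟩ := XX_KH34 Ga hdet n
  obtain ⟨hq, hp⟩ := mdc_cpt Mo hf hr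
  refine ⟨⟨_, hq, ?_⟩, ⟨_, hp, ?_⟩⟩
  · filter_upwards [hX] with γ h1
    unfold sec
    rw [if_pos h1.1]
    exact ⟨_, h1.2, rfl⟩
  · filter_upwards [hX] with γ h1
    unfold sec
    rw [if_pos h1.1]
    exact ⟨_, h1.2, rfl⟩

include hf hdet hp in
theorem sec_inv (s h : G) (n : ℕ) :
    Tendsto (fun γ => (inner ℂ (sec Ga Mo.p (γ * h)) (Mo.σ (pgL Ga pr s (γ * h)) (sec Ga Mo.q (s⁻¹ * (γ * h) * 1))) : ℂ) -
      inner ℂ (sec Ga Mo.p γ) (Mo.σ (pgL Ga pr s γ) (sec Ga Mo.q (s⁻¹ * γ * 1)))) (T.F n) (𝓝 0) := by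
  rw [tendsto_iff_ultrafilter]
  intro u hu
  obtain ⟨pr0, hp0⟩ := exists_pr hf
  have hp0' : IsPr f pr0 := hp0
  -- the translations
  obtain ⟨n1, sh1⟩ := T.shift 1 h n
  obtain ⟨n2, sh2⟩ := T.shift s 1 n
  obtain ⟨n3, sh3⟩ := T.shift s h n
  have t1 : Tendsto (fun γ => γ * h) (u : Filter G) (T.F n1) := by
    refine (sh1.mono_left hu).congr fun γ => ?_
    rw [inv_one, one_mul]
  have t2 : Tendsto (fun γ => s⁻¹ * γ * 1) (u : Filter G) (T.F n2) := sh2.mono_left hu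
  have t3 : Tendsto (fun γ => s⁻¹ * γ * 1 * h) (u : Filter G) (T.F n3) := by
    refine (sh3.mono_left hu).congr fun γ => ?_
    rw [mul_one]
  have t0 : Tendsto (fun γ : G => γ) (u : Filter G) (T.F n) := tendsto_id'.2 hu
  have g3 : ∀ γ : G, s⁻¹ * (γ * h) * 1 = s⁻¹ * γ * 1 * h := fun γ => by group
  -- the limits of the matrices `X`
  obtain ⟨R0, r0, hr0, e0⟩ := XX_KH34 Ga hdet n
  obtain ⟨R1, r1, hr1, e1⟩ := XX_KH34 Ga hdet n1
  obtain ⟨R2, r2, hr2, e2⟩ := XX_KH34 Ga hdet n2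
  obtain ⟨R3, r3, hr3, e3⟩ := XX_KH34 Ga hdet n3
  have e0' := t0.eventually e0
  have e1' := t1.eventually e1
  have e2' := t2.eventually e2
  have e3' := t3.eventually e3
  obtain ⟨X0, hX0, lX0⟩ := lim_KH34 hf.cont u hr0 (A := fun γ => Ga.XX γ) (e0'.mono fun γ h => h.2)
  obtain ⟨X1, hX1, lX1⟩ := lim_KH34 hf.cont u hr1 (A := fun γ => Ga.XX (γ * h)) (e1'.mono fun γ h => h.2)
  obtain ⟨X2, hX2, lX2⟩ := lim_KH34 hf.cont u hr2 (A := fun γ => Ga.XX (s⁻¹ * γ * 1)) (e2'.mono fun γ h => h.2)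
  obtain ⟨X3, hX3, lX3⟩ := lim_KH34 hf.cont u hr3 (A := fun γ => Ga.XX (s⁻¹ * γ * 1 * h)) (e3'.mono fun γ h => h.2)
  -- the limits of the right cocycles
  obtain ⟨RB, rB, hrB, hpg⟩ := pg_ev Ga hf hp0' 1 h
  obtain ⟨B0, hB0, lB0⟩ := lim_KH34 hf.cont u hrB (A := fun γ => pg Ga pr0 1 h γ) (t0.eventually (hpg n).1)
  obtain ⟨B1, hB1, lB1⟩ := lim_KH34 hf.cont u hrB (A := fun γ => pg Ga pr0 1 h (s⁻¹ * γ * 1)) (t2.eventually (hpg n2).1)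
  have lB0' : Tendsto (fun γ => gg (Ga.κ γ) (Ga.κ (γ * h)) (T.C 1 h γ)) (u : Filter G) (𝓝 B0) := by
    have h1 := (((hpg n).2).comp t0).add lB0
    rw [zero_add] at h1
    refine h1.congr fun γ => ?_
    simp only [Function.comp_apply]
    rw [sub_add_cancel, inv_one, one_mul]
  have lB1' : Tendsto (fun γ => gg (Ga.κ (s⁻¹ * γ * 1)) (Ga.κ (s⁻¹ * γ * 1 * h)) (T.C 1 h (s⁻¹ * γ * 1))) (u : Filter G) (𝓝 B1) := by
    have h1 := (((hpg n2).2).comp t2).add lB1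
    rw [zero_add] at h1
    refine h1.congr fun γ => ?_
    simp only [Function.comp_apply]
    rw [sub_add_cancel, inv_one, one_mul]
  -- the limits of the left cocycles
  have hUc := isCompact_UU (f := f) hf.cont
  have ev0 : ∀ᶠ γ in (u : Filter G), pgL Ga pr s γ ∈ UU f := Eventually.of_forall fun γ => pgL_mem Ga hp s γ
  have ev1 : ∀ᶠ γ in (u : Filter G), pgL Ga pr s (γ * h) ∈ UU f := Eventually.of_forall fun γ => pgL_mem Ga hp s (γ * h)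
  obtain ⟨u0, hu0, lu0⟩ := hUc.ultrafilter_le_nhds (u.map fun γ => pgL Ga pr s γ) (by
    rw [le_principal_iff]
    exact ev0)
  obtain ⟨u1, hu1, lu1⟩ := hUc.ultrafilter_le_nhds (u.map fun γ => pgL Ga pr s (γ * h)) (by
    rw [le_principal_iff]
    exact ev1)
  have lu0a : Tendsto (fun γ => pgL Ga pr s γ) (u : Filter G) (𝓝 u0) := lu0
  have lu1a : Tendsto (fun γ => pgL Ga pr s (γ * h)) (u : Filter G) (𝓝 u1) := lu1
  have lu0' : Tendsto (fun γ => gg (Ga.κ γ) (Ga.κ (s⁻¹ * γ * 1)) (T.C s 1 γ)) (u : Filter G) (𝓝 u0) := by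
    have h1 := ((pgL_ev Ga hf hp s n).comp t0).add lu0a
    rw [zero_add] at h1
    refine h1.congr fun γ => ?_
    simp only [Function.comp_apply]
    rw [sub_add_cancel]
  have lu1' : Tendsto (fun γ => gg (Ga.κ (γ * h)) (Ga.κ (s⁻¹ * γ * 1 * h)) (T.C s 1 (γ * h))) (u : Filter G) (𝓝 u1) := by
    have h1 := ((pgL_ev Ga hf hp s n1).comp t1).add lu1a
    rw [zero_add] at h1
    refine h1.congr fun γ => ?_
    simp only [Function.comp_apply]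
    rw [sub_add_cancel, g3]
  -- the right relations
  obtain ⟨k0, hk0, rk0⟩ := right34 Ga hf h u (fun γ => γ) n t0 hB0 hX0 hX1 lB0' lX0 lX1
  obtain ⟨k1, hk1, rk1⟩ := right34 Ga hf h u (fun γ => s⁻¹ * γ * 1) n2 t2 hB1 hX2 hX3 lB1' lX2 lX3
  -- the cocycle relation
  obtain ⟨c1, hc1, hm1⟩ := T.C_mul 1 h s 1
  obtain ⟨c2, hc2, hm2⟩ := T.C_mul s 1 1 h
  obtain ⟨a1, ha1, la1⟩ := unit34 u hc1
  obtain ⟨a2, ha2, la2⟩ := unit34 u hc2
  have hcoc : a1 • (B0 * u1) = a2 • (u0 * B1) := by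
    have m1 := gg_tendsto (k := fun γ => Ga.κ γ) (k' := fun γ => Ga.κ (s⁻¹ * γ * 1 * h))
      (fun γ => Ga.u1 γ) (fun γ => Ga.u1 _) ((hm1 n).mono_left hu)
    have m2 := gg_tendsto (k := fun γ => Ga.κ γ) (k' := fun γ => Ga.κ (s⁻¹ * γ * 1 * h))
      (fun γ => Ga.u1 γ) (fun γ => Ga.u1 _) ((hm2 n).mono_left hu)
    have m3 := m1.sub m2
    rw [sub_zero] at m3
    have m4 := (la1.smul (lim_mul34 lB0' lu1')).sub (la2.smul (lim_mul34 lu0' lB1'))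
    have m5 := tendsto_nhds_unique m4 (m3.congr fun γ => ?_)
    · exact sub_eq_zero.1 m5
    · have q1 : (1 : G)⁻¹ * γ * h = γ * h := by rw [inv_one, one_mul]
      have q2 : (1 : G) * s = s := one_mul s
      have q3 : h * 1 = h := mul_one h
      have q4 : s * 1 = s := mul_one s
      have q5 : (1 : G) * h = h := one_mul h
      rw [gg_sub, gg_sub, gg_smul, gg_smul, q1, q2, q3, q4, q5,
        gg_mul (Ga.u2 (γ * h)) (show D T.b (T.C 1 h γ) = T.C 1 h γ from D_D T.b _),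
        gg_mul (Ga.u2 (s⁻¹ * γ * 1)) (show D T.b (T.C s 1 γ) = T.C s 1 γ from D_D T.b _), sub_sub_sub_cancel_right]
  -- the two scalar products
  have hIeq : (inner ℂ (Mo.p X1) (Mo.q (u1 * X3)) : ℂ) = inner ℂ (Mo.p X0) (Mo.q (u0 * X2)) := by
    have hux : u1 * X3 ∈ HH f := HH_mul34 hf hu1.1 hX3
    rw [← Mo.inv B0 hB0 X1 hX1 _ hux, rk0, Mo.pr X0 hX0 k0 hk0]
    congr 1
    have ha1' : a1 ≠ 0 := by
      rintro rfl
      rw [norm_zero] at ha1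
      exact zero_ne_one ha1
    have hn : ‖a1⁻¹ * a2‖ = 1 := by rw [norm_mul, norm_inv, ha1, ha2, inv_one, one_mul]
    have hB : B0 * u1 = (a1⁻¹ * a2) • (u0 * B1) := by
      rw [← smul_smul, ← hcoc, smul_smul, inv_mul_cancel₀ ha1', one_smul]
    have hm : u0 * X2 * k1 ∈ HH f := HH_mul34 hf (HH_mul34 hf hu0.1 hX2) hk1.1
    have hBX : B0 * (u1 * X3) = (a1⁻¹ * a2) • (u0 * X2 * k1) := by
      rw [← Matrix.mul_assoc, hB, Matrix.smul_mul, Matrix.mul_assoc, rk1, ← Matrix.mul_assoc]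
    rw [hBX, Mo.qs _ _ hm (HH_smul34 hf hm hn), Mo.qr _ (HH_mul34 hf hu0.1 hX2) _ hk1]
  -- convergence
  have c1' : Tendsto (fun γ => (inner ℂ (Mo.p (Ga.XX (γ * h))) (Mo.q (pgL Ga pr s (γ * h) * Ga.XX (s⁻¹ * γ * 1 * h))) : ℂ))
      (u : Filter G) (𝓝 (inner ℂ (Mo.p X1) (Mo.q (u1 * X3)))) := by
    refine Tendsto.inner (lim_q34 Mo.pcont ?_ hX1 lX1) (lim_q34 Mo.qcont ?_ (HH_mul34 hf hu1.1 hX3) (lim_mul34 lu1a lX3))
    · exact e1'.mono fun γ h => XX_mem34 Ga h.1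
    · exact e3'.mono fun γ h => HH_mul34 hf (pgL_mem Ga hp s _).1 (XX_mem34 Ga h.1)
  have c0' : Tendsto (fun γ => (inner ℂ (Mo.p (Ga.XX γ)) (Mo.q (pgL Ga pr s γ * Ga.XX (s⁻¹ * γ * 1))) : ℂ))
      (u : Filter G) (𝓝 (inner ℂ (Mo.p X0) (Mo.q (u0 * X2)))) := by
    refine Tendsto.inner (lim_q34 Mo.pcont ?_ hX0 lX0) (lim_q34 Mo.qcont ?_ (HH_mul34 hf hu0.1 hX2) (lim_mul34 lu0a lX2))
    · exact e0'.mono fun γ h => XX_mem34 Ga h.1
    · exact e2'.mono fun γ h => HH_mul34 hf (pgL_mem Ga hp s _).1 (XX_mem34 Ga h.1)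
  have hfin := c1'.sub c0'
  rw [hIeq, sub_self] at hfin
  refine hfin.congr' ?_
  filter_upwards [e0', e1', e2', e3'] with γ h0 h1 h2 h3
  rw [g3]
  unfold sec
  rw [if_pos h0.1, if_pos h1.1, if_pos h2.1, if_pos h3.1, Mo.qk _ (pgL_mem Ga hp s _) _ (XX_mem34 Ga h3.1),
    Mo.qk _ (pgL_mem Ga hp s _) _ (XX_mem34 Ga h2.1)]

end Pool.Agent.Helper84.CH
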