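import Pool.Agent.Helper84.CH.V1c

/-!
# Project CH, block V1d: the criterion for `HSR`

`hsr_of_gau`. PROOF. `pr` from `exists_pr (fu_isG hf)`; the structure `CocL`: `pi g γ = σ (pgL Ga pr g γ)`, `Q = sec Ga q`, `P = sec Ga p`, `q0 = q 1`: fields from V1b, V1c (`left`: the difference is zero by `pgL_q0`; `(toReg T).F = T.F`). `bQ`, `bP`: the bounds `C` (`XX γ ∈ HH f` for `γ ∈ good`: `Ga.hX`, determinant as `XX_det45` in `SPQ/B7.lean`; `1 ∈ HH f`).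
`s = Ga.good`, on which `sec Ga q γ = q (XX γ)`.
-/

set_option autoImplicit false

open Filter Topology Matrix

namespace Pool.Agent.Helper84.CH

open Pool.Agent.Helper84.SPQ NI GN Pool.Agent.Helper90.RK

variable {G : Type} [Group G] {N : ℕ} {P : PH G N} {S : Sv P} {T : Str S} {i0 : Fin N} {M : Type} [Fintype M] [DecidableEq M]
  {f : Matrix M M ℂ → ℝ}

private theorem XX_det61 (Ga : Gau T i0 M f) (γ : G) : (Ga.XX γ).det ≠ 0 := by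
  have hX := T.X_mem γ
  have h1 : gg (Ga.κ γ) (Ga.κ γ) (S.X γ) * gg (Ga.κ γ) (Ga.κ γ) (S.X γ)⁻¹ = 1 := by
    rw [← gg_mul (Ga.u2 γ) hX.1, Matrix.mul_nonsing_inv _ (isUnit_iff_ne_zero.2 hX.2),
      gg_one (Ga.u1 γ)]
  intro h2
  have h3 := congrArg Matrix.det h1
  rw [Matrix.det_mul, Matrix.det_one] at h3
  have h4 : (gg (Ga.κ γ) (Ga.κ γ) (S.X γ)).det = 0 := h2
  rw [h4, zero_mul] at h3
  exact zero_ne_one h3

private theorem one_mem61 (hf : IsG f) : (1 : Matrix M M ℂ) ∈ HH f :=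
  ⟨hf.one, by rw [Matrix.det_one]; exact one_ne_zero⟩

private theorem sec_good61 (Ga : Gau T i0 M f) {L : Type} (q : Matrix M M ℂ → L) {γ : G}
    (hγ : γ ∈ Ga.good) : sec Ga q γ = q (Ga.XX γ) := by
  unfold sec
  rw [if_pos hγ]

private theorem sec_bd61 (Ga : Gau T i0 M f) (hf : IsG f) {L : Type} [NormedAddCommGroup L]
    (q : Matrix M M ℂ → L) {C : ℝ} (h : ∀ A ∈ HH f, ‖q A‖ ^ 2 ≤ C) (γ : G) :
    ‖sec Ga q γ‖ ^ 2 ≤ C := by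
  by_cases hγ : γ ∈ Ga.good
  · rw [sec_good61 Ga q hγ]
    exact h _ ⟨Ga.hX γ hγ, XX_det61 Ga γ⟩
  · unfold sec
    rw [if_neg hγ]
    exact h _ (one_mem61 hf)

theorem hsr_of_gau (Ga : Gau T i0 M f) (hf : IsG f) (hdet : ∀ A ∈ HH f, ‖A.det‖ = 1) {C : ℝ}
    (h : ∀ (n0 : ℕ) (ε : ℝ), 0 < ε → ∃ (L : Type) (_ : NormedAddCommGroup L) (_ : InnerProductSpace ℂ L) (_ : CompleteSpace L)
      (Mo : MdC f L), (∀ A ∈ HH f, ‖Mo.q A‖ ^ 2 ≤ C ∧ ‖Mo.p A‖ ^ 2 ≤ C) ∧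
        (∀ γ ∈ Ga.good, γ ∈ T.W n0 → ‖Mo.q (Ga.XX γ) - Mo.q 1‖ ≤ ε ∧ ‖(inner ℂ (Mo.p (Ga.XX γ)) (Mo.q 1) : ℂ) - 1‖ ≤ ε) ∧
        ∀ δ : ℝ, 0 < δ → ∃ n, ∀ γ ∈ Ga.good, γ ∉ T.W n → ‖(inner ℂ (Mo.p (Ga.XX γ)) (Mo.q 1) : ℂ)‖ ≤ δ) :
    HSR (Pool.Agent.Helper96.RK.toReg T) C := by
  intro n0 ε hε
  obtain ⟨L, i1, i2, i3, Mo, hb, hc, hd⟩ := h n0 ε hε
  obtain ⟨pr, hp⟩ := exists_pr (fu_isG hf)
  refine ⟨L, i1, i2, i3,
    { pi := fun g γ => Mo.σ (pgL Ga pr g γ)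
      Q := sec Ga Mo.q
      P := sec Ga Mo.p
      q0 := Mo.q 1
      one := fun γ w => pgL_sig_one Ga hf hp Mo γ w
      cpt := fun g n w => by
        obtain ⟨K, hK, hK2⟩ := pgL_sig_cpt Ga hf hp Mo g w
        exact ⟨K, hK, Eventually.of_forall hK2⟩
      mul := fun g g' n w => pgL_sig_mul Ga hf hp Mo g g' n w
      bQ := sec_bd61 Ga hf Mo.q fun A hA => (hb A hA).1
      bP := sec_bd61 Ga hf Mo.p fun A hA => (hb A hA).2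
      b0 := (hb 1 (one_mem61 hf)).1
      cptQ := fun n => (sec_cpt Ga hf hdet Mo n).1
      cptP := fun n => (sec_cpt Ga hf hdet Mo n).2
      left := fun g n => by
        have h1 : (fun γ => Mo.σ (pgL Ga pr g γ) (Mo.q 1) - Mo.q 1) = fun _ => (0 : L) := by
          funext γ
          rw [pgL_q0 Ga hf hp Mo g γ, sub_self]
        change Tendsto (fun γ => Mo.σ (pgL Ga pr g γ) (Mo.q 1) - Mo.q 1) (T.F n) (𝓝 0)
        rw [h1]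
        exact tendsto_const_nhds
      inv := fun s h n => sec_inv Ga hf hdet hp Mo s h n },
    Ga.good, Ga.hgood, fun γ hγ hW => ?_, fun δ hδ => ?_⟩
  · change ‖sec Ga Mo.q γ - Mo.q 1‖ ≤ ε ∧ ‖(inner ℂ (sec Ga Mo.p γ) (Mo.q 1) : ℂ) - 1‖ ≤ ε
    rw [sec_good61 Ga Mo.q hγ, sec_good61 Ga Mo.p hγ]
    exact hc γ hγ hW
  · obtain ⟨n, hn⟩ := hd δ hδ
    refine ⟨n, fun γ hγ hW => ?_⟩
    change ‖(inner ℂ (sec Ga Mo.p γ) (Mo.q 1) : ℂ)‖ ≤ δ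
    rw [sec_good61 Ga Mo.p hγ]
    exact hn γ hγ hW

end Pool.Agent.Helper84.CH
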