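import Pool.Agent.Helper84.CH.V2a
import Pool.Agent.Helper84.CH.UF1
import Pool.Agent.Helper84.SPQ.S2

/-!
# Project CH, block V2: `Sp(p, p + m)`: the gauge and the asymptotics in the middle block

`Φ` Hermitian unitary, `j` a quaternionic structure, `Φ j = j conj Φ`, `N = 4 p + 2 m`, `trace Φ = 4 p - N`, block `{2 p - 2, ..., 2 p + 2 m + 1}` (`2 m + 4` elements): the middle block of `U3.lean`, `U4.lean` for `r = 2 p - 1`. ADAPT `gaugeS`, `s_close` of `SPQ/S2.lean` (complete proofs there; only the sign of `hrel` and the normal form change).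
`gaugeP`: `F = res (Jh γ)`, `U = res (jq γ)`: `F² = 1`, `Fᴴ = F` (`mid_zero`), `U` unitary antisymmetric, `F U = U conj F`. Trace of `F`: `trace (Jh γ) = trace Φ = 4 p - N = -2 m`, and the diagonal entries of `Jh γ` outside the block vanish (`jh_supp`: `s_i² = 1` otherwise, while `s_i > s_{2p-2} ≥ 1` for `i < 2 p - 2`, and `< 1` on the other side; see the proof of `gauge` in `SPQ/U3.lean`).
`pair_norm`. `X F X = F`, `X U = U X` as in `gaugeS`. `ns X = ∑ 1/s_i²` over the block: `s_{2p-2} = s_{2p-1} = s` (`quat_double`), `s_i = 1` for `2 p ≤ i ≤ 2 p + 2 m - 1` (`hone` for `i` and for `rev i`, product one: `upq_symm`), `s_{2p+2m} = s_{2p+2m+1} = 1/s`. So `2 s⁻² + 2 m + 2 s²`.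
`p_close`: as `s_close`.
-/

set_option autoImplicit false

open Filter Topology Matrix

namespace Pool.Agent.Helper84.CH

open Pool.Agent.Helper84.SPQ NI GN Pool.Agent.Helper90.RK Pool.Agent.Helper66.RK

variable {G : Type} [Group G] {N : ℕ} {P : PH G N}

private theorem kk99 (S : Sv P) (γ : G) : S.kR γ * (S.kR γ)ᴴ = 1 := mul_eq_one_comm.1 (S.uR γ)

private theorem cj_mul99 {l m n : Type} [Fintype m] (A : Matrix l m ℂ) (B : Matrix m n ℂ) :
    (A * B)ᴴᵀ = Aᴴᵀ * Bᴴᵀ := by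
  rw [conjTranspose_mul, transpose_mul]

private theorem cj_cj99 {m n : Type} (A : Matrix m n ℂ) : (Aᴴᵀ)ᴴᵀ = A := by
  ext i j
  simp

private theorem cj_neg99 {m n : Type} (A : Matrix m n ℂ) : (-A)ᴴᵀ = -(Aᴴᵀ) := by
  rw [conjTranspose_neg, transpose_neg]

private theorem cj_star99 {m n : Type} (A : Matrix m n ℂ) : (Aᴴᵀ)ᴴ = (Aᴴ)ᴴᵀ := by
  ext i j
  simp

private theorem cj_one99 {m : Type} [DecidableEq m] : ((1 : Matrix m m ℂ))ᴴᵀ = 1 := by
  rw [conjTranspose_one, transpose_one]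

private theorem ns_trace99 {n m : Type} [Fintype n] [Fintype m] (A : Matrix n m ℂ) :
    ((ns A : ℝ) : ℂ) = (Aᴴ * A).trace := by
  unfold ns Matrix.trace
  simp only [Matrix.diag_apply, Matrix.mul_apply, Matrix.conjTranspose_apply]
  push_cast
  rw [Finset.sum_comm]
  refine Finset.sum_congr rfl fun i _ => Finset.sum_congr rfl fun j _ => ?_
  rw [RCLike.star_def, RCLike.conj_mul]
  norm_cast

private theorem ns_conj99 {n m : Type} [Fintype n] [Fintype m] [DecidableEq n] [DecidableEq m] {k k' : Matrix n m ℂ}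
    (h1 : k * kᴴ = 1) (h2 : k' * k'ᴴ = 1) (A : Matrix n n ℂ) : ns (kᴴ * A * k') = ns A := by
  have h : ((ns (kᴴ * A * k') : ℝ) : ℂ) = ((ns A : ℝ) : ℂ) := by
    rw [ns_trace99, ns_trace99, Matrix.conjTranspose_mul, Matrix.conjTranspose_mul, Matrix.conjTranspose_conjTranspose]
    calc (k'ᴴ * (Aᴴ * k) * (kᴴ * A * k')).trace = (k'ᴴ * (Aᴴ * (k * kᴴ) * A * k')).trace := by
          simp only [Matrix.mul_assoc]
      _ = (Aᴴ * A * (k' * k'ᴴ)).trace := by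
          rw [h1, Matrix.mul_one, Matrix.trace_mul_comm]
          simp only [Matrix.mul_assoc]
      _ = (Aᴴ * A).trace := by rw [h2, Matrix.mul_one]
  exact_mod_cast h

private theorem sum_bk99 {b : Fin N → ℕ} {i0 : Fin N} (f : Fin N → ℂ) (hf : ∀ k, b k ≠ b i0 → f k = 0) :
    ∑ k : Bk b i0, f k.1 = ∑ k, f k := by
  have e1 : ∑ k ∈ Finset.univ.filter (fun i : Fin N => b i = b i0), f k = ∑ k : Bk b i0, f k.1 :=
    Finset.sum_subtype (Finset.univ.filter fun i : Fin N => b i = b i0)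
      (p := fun i : Fin N => b i = b i0) (fun x => by simp) f
  rw [← e1]
  exact Finset.sum_filter_of_ne fun k _ hk => by_contra fun hc => hk (hf k hc)

/-- restriction of a product, left factor block diagonal at the row -/
private theorem res_mul_left99 {b : Fin N → ℕ} {i0 : Fin N} {A B : MN N}
    (hA : ∀ i k : Fin N, b i = b i0 → b k ≠ b i0 → A i k = 0) :
    res b i0 (A * B) = res b i0 A * res b i0 B := by
  ext x y
  show (A * B) x.1 y.1 = _
  rw [Matrix.mul_apply, Matrix.mul_apply]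
  have := sum_bk99 (b := b) (i0 := i0) (fun k => A x.1 k * B k y.1) (fun k hk => by
    show A x.1 k * B k y.1 = 0
    rw [hA x.1 k x.2 hk, zero_mul])
  exact this.symm

/-- restriction of a product, right factor block diagonal at the column -/
private theorem res_mul_right99 {b : Fin N → ℕ} {i0 : Fin N} {A B : MN N}
    (hB : ∀ i k : Fin N, b i = b i0 → b k ≠ b i0 → B k i = 0) :
    res b i0 (A * B) = res b i0 A * res b i0 B := by
  ext x y
  show (A * B) x.1 y.1 = _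
  rw [Matrix.mul_apply, Matrix.mul_apply]
  have := sum_bk99 (b := b) (i0 := i0) (fun k => A x.1 k * B k y.1) (fun k hk => by
    show A x.1 k * B k y.1 = 0
    rw [hB y.1 k y.2 hk, mul_zero])
  exact this.symm

private theorem res_one99 {b : Fin N → ℕ} {i0 : Fin N} : res b i0 (1 : MN N) = 1 := by
  ext i j
  show (1 : MN N) i.1 j.1 = _
  by_cases hij : i = j
  · subst hij
    rw [one_apply_eq, one_apply_eq]
  · rw [one_apply_ne hij, one_apply_ne (fun h => hij (Subtype.ext h))]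

private theorem res_cj99 {b : Fin N → ℕ} {i0 : Fin N} (A : MN N) : res b i0 (Aᴴᵀ) = (res b i0 A)ᴴᵀ := rfl

private theorem res_star99 {b : Fin N → ℕ} {i0 : Fin N} (A : MN N) : res b i0 Aᴴ = (res b i0 A)ᴴ := rfl

private theorem relP99 (S : Sv P) {Φ j : MN N} (h : Φ * j = j * Φᴴᵀ) (γ : G) : Jh S Φ γ * jq S j γ = jq S j γ * (Jh S Φ γ)ᴴᵀ := by
  have e1 := kk99 S γ
  have e2 : (S.kR γ)ᴴᵀ * ((S.kR γ)ᴴᵀ)ᴴ = 1 := by
    rw [cj_star99, ← cj_mul99, e1, cj_one99]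
  have e3 : (Jh S Φ γ)ᴴᵀ = ((S.kR γ)ᴴᵀ)ᴴ * Φᴴᵀ * (S.kR γ)ᴴᵀ := by
    unfold Jh
    rw [cj_mul99, cj_mul99, cj_star99]
  calc Jh S Φ γ * jq S j γ = (S.kR γ)ᴴ * Φ * (S.kR γ * (S.kR γ)ᴴ) * (j * (S.kR γ)ᴴᵀ) := by
        simp only [Jh, jq, Matrix.mul_assoc]
    _ = (S.kR γ)ᴴ * (Φ * j) * (S.kR γ)ᴴᵀ := by rw [e1, Matrix.mul_one]; simp only [Matrix.mul_assoc]
    _ = (S.kR γ)ᴴ * j * ((S.kR γ)ᴴᵀ * ((S.kR γ)ᴴᵀ)ᴴ) * (Φᴴᵀ * (S.kR γ)ᴴᵀ) := by
        rw [h, e2, Matrix.mul_one]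
        simp only [Matrix.mul_assoc]
    _ = _ := by
        rw [e3]
        simp only [jq, Matrix.mul_assoc]

/-- the entries of `jq` between the middle block and its complement vanish -/
private theorem jq_zero99 (S : Sv P) {Φ j : MN N} (h2 : Φ * Φ = 1) (h4 : ∀ g, (P.ι g)ᴴ * Φ * P.ι g = Φ)
    (k1 : jᴴ * j = 1) (k3 : ∀ g, P.ι g * j = j * (P.ι g)ᴴᵀ)
    {p m : ℕ} (hp : 2 ≤ p) (hN : N = 4 * p + 2 * m) {i0 i1 : Fin N} (hi0 : (i0 : ℕ) = 2 * p - 2) (hi1 : (i1 : ℕ) = 2 * p - 3)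
    (γ : G) (hgap : S.s γ i0 < S.s γ i1) (i k : Fin N) (hi : 2 * p - 2 ≤ (i : ℕ) ∧ (i : ℕ) ≤ 2 * p + 2 * m + 1)
    (hk : ¬ (2 * p - 2 ≤ (k : ℕ) ∧ (k : ℕ) ≤ 2 * p + 2 * m + 1)) : jq S j γ i k = 0 ∧ jq S j γ k i = 0 := by
  have key : S.s γ i ≠ S.s γ k := by
    intro hc
    have s0 := upq_symm h2 h4 S γ i0
    have hrev0 : (Fin.rev i0 : ℕ) = 2 * p + 2 * m + 1 := by rw [Fin.val_rev, hi0]; omega
    have p0 := S.pos γ i0
    have pi := S.pos γ i
    have pk := S.pos γ k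
    have a2 : S.s γ i ≤ S.s γ i0 := S.anti γ (Fin.le_def.2 (by omega))
    by_cases hk1 : (k : ℕ) < 2 * p - 2
    · have a1 : S.s γ i1 ≤ S.s γ k := S.anti γ (Fin.le_def.2 (by omega))
      linarith
    · have hk2 : 2 * p + 2 * m + 1 < (k : ℕ) := by
        by_contra hcon
        exact hk ⟨by omega, by omega⟩
      have sk := upq_symm h2 h4 S γ k
      have hrevk : (Fin.rev k : ℕ) ≤ 2 * p - 3 := by rw [Fin.val_rev]; omega
      have a1 : S.s γ i1 ≤ S.s γ (Fin.rev k) := S.anti γ (Fin.le_def.2 (by omega))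
      have a3 : S.s γ (Fin.rev i0) ≤ S.s γ i := S.anti γ (Fin.le_def.2 (by omega))
      have pr := S.pos γ (Fin.rev i0)
      rw [hc] at a3
      have : S.s γ k * S.s γ i0 < S.s γ k * S.s γ (Fin.rev k) := mul_lt_mul_of_pos_left (by linarith) pk
      nlinarith
  constructor
  · by_contra hcon
    exact key (jq_supp S k1 k3 γ i k hcon)
  · by_contra hcon
    exact key (jq_supp S k1 k3 γ k i hcon).symm

theorem gaugeP (S : Sv P) {Φ j : MN N} (h1 : Φᴴ = Φ) (h2 : Φ * Φ = 1) (h4 : ∀ g, (P.ι g)ᴴ * Φ * P.ι g = Φ)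
    (k1 : jᴴ * j = 1) (k2 : jᵀ = -j) (k3 : ∀ g, P.ι g * j = j * (P.ι g)ᴴᵀ) (hrel : Φ * j = j * Φᴴᵀ)
    {p m : ℕ} (hp : 2 ≤ p) (hN : N = 4 * p + 2 * m) (h3 : Φ.trace = 4 * (p : ℂ) - N) {i0 i1 : Fin N} (hi0 : (i0 : ℕ) = 2 * p - 2)
    (hi1 : (i1 : ℕ) = 2 * p - 3) (b : Fin N → ℕ) (γ : G) (hone : ∀ i : Fin N, 2 * p ≤ (i : ℕ) → S.s γ i ≤ 1)
    (hb : ∀ i : Fin N, b i = b i0 ↔ (2 * p - 2 ≤ (i : ℕ) ∧ (i : ℕ) ≤ 2 * p + 2 * m + 1)) (hgap : S.s γ i0 < S.s γ i1) :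
    ∃ κ : Matrix (Bk b i0) (MS m) ℂ, κᴴ * κ = 1 ∧ κ * κᴴ = 1 ∧ κᴴ * res b i0 (Jh S Φ γ) * κ = JS m ∧
      κᴴ * res b i0 (jq S j γ) * κᴴᵀ = jS m ∧ fC m (gg κ κ (S.X γ)) = 0 ∧
      ns (gg κ κ (S.X γ)) = 2 * S.s γ i0 ^ 2 + 2 * ((S.s γ i0)⁻¹) ^ 2 + 2 * m := by
  have hN' : 2 * (2 * p - 1) + 1 ≤ N := by omega
  have hr' : 2 ≤ 2 * p - 1 := by omega
  have hi0' : (i0 : ℕ) = (2 * p - 1) - 1 := by omega
  have hi1' : (i1 : ℕ) = (2 * p - 1) - 2 := by omega
  have hmid : ∀ i k : Fin N, b i = b i0 → b k ≠ b i0 → Jh S Φ γ i k = 0 ∧ Jh S Φ γ k i = 0 := by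
    intro i k hi hk
    refine mid_zero S h2 h4 hr' hN' hi0' hi1' γ hgap i k ?_ ?_
    · have := (hb i).1 hi
      omega
    · intro hc
      exact hk ((hb k).2 (by omega))
  have hjz : ∀ i k : Fin N, b i = b i0 → b k ≠ b i0 → jq S j γ i k = 0 ∧ jq S j γ k i = 0 := by
    intro i k hi hk
    exact jq_zero99 S h2 h4 k1 k3 hp hN hi0 hi1 γ hgap i k ((hb i).1 hi) (fun hc => hk ((hb k).2 hc))
  have hrev0 : (Fin.rev i0 : ℕ) = 2 * p + 2 * m + 1 := by rw [Fin.val_rev, hi0]; omega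
  have s0 := upq_symm h2 h4 S γ i0
  have p0 := S.pos γ i0
  have pr := S.pos γ (Fin.rev i0)
  have hle0 : S.s γ (Fin.rev i0) ≤ S.s γ i0 := S.anti γ (Fin.le_def.2 (by omega))
  have h1s : 1 ≤ S.s γ i0 := by nlinarith
  have hrevinv : S.s γ (Fin.rev i0) = (S.s γ i0)⁻¹ := eq_inv_of_mul_eq_one_right s0
  set F := res b i0 (Jh S Φ γ) with hF
  set U := res b i0 (jq S j γ) with hU
  have f1 : Fᴴ = F := by
    rw [hF, ← res_star99, jh_star S h1 γ]
  have f2 : F * F = 1 := by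
    rw [hF, ← res_mul_left99 (fun i k hi hk => (hmid i k hi hk).1), jh_sq S h2 γ, res_one99]
  have u1 : Uᴴ * U = 1 := by
    rw [hU, ← res_star99, ← res_mul_right99 (fun i k hi hk => (hjz i k hi hk).2), jq_unit S k1 γ, res_one99]
  have u2 : Uᵀ = -U := by
    ext x y
    exact congrFun (congrFun (jq_trans S k2 γ) x.1) y.1
  have fu : F * U = U * Fᴴᵀ := by
    rw [hF, hU, ← res_mul_left99 (fun i k hi hk => (hmid i k hi hk).1), relP99 S hrel γ, ← res_cj99,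
      ← res_mul_left99 (fun i k hi hk => (hjz i k hi hk).1)]
  -- the trace
  have hout : ∀ k : Fin N, b k ≠ b i0 → Jh S Φ γ k k = 0 := by
    intro k hk'
    have hk : ¬ (2 * p - 2 ≤ (k : ℕ) ∧ (k : ℕ) ≤ 2 * p + 2 * m + 1) := fun h => hk' ((hb k).2 h)
    by_contra hc
    have e1 := jh_supp S h2 h4 γ k k hc
    have pk := S.pos γ k
    by_cases hk1 : (k : ℕ) < 2 * p - 2
    · have a1 : S.s γ i1 ≤ S.s γ k := S.anti γ (Fin.le_def.2 (by omega))
      nlinarith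
    · have sk := upq_symm h2 h4 S γ k
      have hrevk : (Fin.rev k : ℕ) ≤ 2 * p - 3 := by
        rw [Fin.val_rev]
        have : ¬ (k : ℕ) ≤ 2 * p + 2 * m + 1 := fun h => hk ⟨by omega, h⟩
        omega
      have a1 : S.s γ i1 ≤ S.s γ (Fin.rev k) := S.anti γ (Fin.le_def.2 (by omega))
      nlinarith
  have f3 : F.trace = -(2 * (m : ℂ)) := by
    have e1 : F.trace = ∑ k : Bk b i0, (fun k : Fin N => Jh S Φ γ k k) k.1 := rfl
    rw [e1, sum_bk99 (fun k : Fin N => Jh S Φ γ k k) hout]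
    have e2 : ∑ k, Jh S Φ γ k k = (Jh S Φ γ).trace := rfl
    rw [e2]
    show ((S.kR γ)ᴴ * Φ * S.kR γ).trace = _
    rw [Matrix.trace_mul_comm, ← Matrix.mul_assoc, kk99 S γ, Matrix.one_mul, h3]
    have e3 : (N : ℂ) = 4 * p + 2 * m := by exact_mod_cast hN
    rw [e3]
    ring
  -- the elements of the block
  have hlt : ∀ t : Fin (2 * m + 4), 2 * p - 2 + (t : ℕ) < N := fun t => by have := t.2; omega
  let a : Fin (2 * m + 4) → Fin N := fun t => ⟨2 * p - 2 + (t : ℕ), hlt t⟩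
  have hab : ∀ t, b (a t) = b i0 := fun t => (hb _).2 ⟨by simp [a], by have := t.2; simp only [a]; omega⟩
  let φ : Fin (2 * m + 4) → Bk b i0 := fun t => ⟨a t, hab t⟩
  have hφ : Function.Bijective φ := by
    constructor
    · intro s t hst
      have := congrArg (fun z : Bk b i0 => (z.1 : ℕ)) hst
      simp only [φ, a] at this
      exact Fin.ext (by omega)
    · intro x
      have hx := (hb x.1).1 x.2
      refine ⟨⟨(x.1 : ℕ) - (2 * p - 2), by omega⟩, ?_⟩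
      apply Subtype.ext
      apply Fin.ext
      simp only [φ, a]
      omega
  have hcard : Fintype.card (Bk b i0) = 2 * m + 4 := by
    rw [← Fintype.card_of_bijective hφ, Fintype.card_fin]
  obtain ⟨κ, c1, c2, c3, c4⟩ := pair_norm hcard f1 f2 f3 u1 u2 fu
  refine ⟨κ, c1, c2, c3, c4, ?_, ?_⟩
  · set Xr := res b i0 (S.X γ) with hXr
    have hXd : Xr = diagonal fun i : Bk b i0 => ((S.s γ i.1)⁻¹ : ℂ) := by
      ext i k
      rw [hXr, res, submatrix_apply, Sv.X, diagonal_apply, diagonal_apply]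
      by_cases hik : i = k
      · subst hik; simp
      · rw [if_neg (fun h => hik (Subtype.ext h)), if_neg hik]
    have hXs : Xrᴴ = Xr := by
      rw [hXd, diagonal_conjTranspose]
      congr 1
      funext i
      simp
    have hXt : Xrᵀ = Xr := by
      rw [hXd, diagonal_transpose]
    have hXF : Xr * F * Xr = F := by
      rw [hXd]
      ext i k
      rw [mul_diagonal, diagonal_mul]
      by_cases hc : Jh S Φ γ i.1 k.1 = 0
      · have : F i k = 0 := hc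
        rw [this]; ring
      · have e1 := jh_supp S h2 h4 γ i.1 k.1 hc
        have e2 : ((S.s γ i.1 : ℝ) : ℂ) * ((S.s γ k.1 : ℝ) : ℂ) = 1 := by exact_mod_cast e1
        have e3 : ((S.s γ i.1 : ℝ) : ℂ)⁻¹ * ((S.s γ k.1 : ℝ) : ℂ)⁻¹ = 1 := by
          rw [← mul_inv, e2, inv_one]
        linear_combination (F i k) * e3
    have hXU : Xr * U = U * Xr := by
      rw [hXd]
      ext i k
      rw [mul_diagonal, diagonal_mul]
      by_cases hc : jq S j γ i.1 k.1 = 0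
      · have : U i k = 0 := hc
        rw [this]; ring
      · have e1 := jq_supp S k1 k3 γ i.1 k.1 hc
        rw [e1]; ring
    show fC m (κᴴ * Xr * κ) = 0
    rw [fC_eq]
    constructor
    · rw [← c3]
      calc (κᴴ * Xr * κ)ᴴ * (κᴴ * F * κ) * (κᴴ * Xr * κ) = κᴴ * Xrᴴ * (κ * κᴴ) * F * (κ * κᴴ) * Xr * κ := by
            simp only [conjTranspose_mul, conjTranspose_conjTranspose, Matrix.mul_assoc]
        _ = κᴴ * (Xr * F * Xr) * κ := by
            rw [c2, hXs, Matrix.mul_one, Matrix.mul_one]; simp only [Matrix.mul_assoc]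
        _ = _ := by rw [hXF]
    · refine ⟨1, by simp, ?_⟩
      rw [one_smul, ← c4]
      have e1 : κᴴᵀ * (κᴴᵀ)ᴴ = 1 := by rw [cj_star99, ← cj_mul99, c2, cj_one99]
      have e2 : (κᴴ * Xr * κ)ᴴᵀ = (κᴴᵀ)ᴴ * Xr * κᴴᵀ := by
        rw [cj_mul99, cj_mul99, ← cj_star99, hXs, hXt]
      rw [e2]
      calc κᴴ * Xr * κ * (κᴴ * U * κᴴᵀ) = κᴴ * Xr * (κ * κᴴ) * U * κᴴᵀ := by simp only [Matrix.mul_assoc]
        _ = κᴴ * (Xr * U) * κᴴᵀ := by rw [c2, Matrix.mul_one]; simp only [Matrix.mul_assoc]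
        _ = κᴴ * U * (κᴴᵀ * (κᴴᵀ)ᴴ) * Xr * κᴴᵀ := by rw [hXU, e1, Matrix.mul_one]; simp only [Matrix.mul_assoc]
        _ = _ := by simp only [Matrix.mul_assoc]
  · show ns (κᴴ * res b i0 (S.X γ) * κ) = _
    rw [ns_conj99 c2 c2]
    have e1 : ns (res b i0 (S.X γ)) = ∑ i : Bk b i0, ((S.s γ i.1)⁻¹) ^ 2 := by
      unfold ns
      refine Finset.sum_congr rfl fun i _ => ?_
      rw [Finset.sum_eq_single i]
      · show ‖S.X γ i.1 i.1‖ ^ 2 = _
        rw [Sv.X, diagonal_apply_eq]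
        have pi := S.pos γ i.1
        simp
      · intro k _ hk
        show ‖S.X γ i.1 k.1‖ ^ 2 = 0
        rw [Sv.X, diagonal_apply_ne _ (fun h => hk (Subtype.ext h.symm))]
        simp
      · intro h
        exact absurd (Finset.mem_univ i) h
    rw [e1, ← hφ.sum_comp (fun i : Bk b i0 => ((S.s γ i.1)⁻¹) ^ 2)]
    -- the values
    set σ : ℝ := S.s γ i0 with hσ
    have hσ0 : σ ≠ 0 := p0.ne'
    set f : ℕ → ℝ := fun t => if t < 2 then (σ⁻¹) ^ 2 else if t < 2 * m + 2 then 1 else σ ^ 2 with hf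
    have hval : ∀ t : Fin (2 * m + 4), ((S.s γ (φ t).1)⁻¹) ^ 2 = f t := by
      intro t
      show ((S.s γ (a t))⁻¹) ^ 2 = f t
      have ht := t.2
      have ev0 : Even (i0 : ℕ) := ⟨p - 1, by omega⟩
      by_cases h5 : (t : ℕ) < 2
      · have h6 : S.s γ (a t) = σ := by
          by_cases h7 : (t : ℕ) = 0
          · have : a t = i0 := Fin.ext (by simp only [a]; omega)
            rw [this]
          · exact (quat_double k1 k2 k3 S γ i0 (a t) (by simp only [a]; omega) ev0).symm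
        rw [h6]
        simp only [hf]
        rw [if_pos h5]
      · by_cases h6 : (t : ℕ) < 2 * m + 2
        · have h7 : S.s γ (a t) ≤ 1 := hone _ (by simp only [a]; omega)
          have h8 : S.s γ (Fin.rev (a t)) ≤ 1 := hone _ (by rw [Fin.val_rev]; simp only [a]; omega)
          have h9 := upq_symm h2 h4 S γ (a t)
          have h10 := S.pos γ (a t)
          have h11 := S.pos γ (Fin.rev (a t))
          have h12 : S.s γ (a t) = 1 := by nlinarith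
          rw [h12]
          simp only [hf]
          rw [if_neg h5, if_pos h6]
          norm_num
        · have h7 : S.s γ (a t) = σ⁻¹ := by
            have h9 := upq_symm h2 h4 S γ (a t)
            have h10 : S.s γ (Fin.rev (a t)) = σ := by
              by_cases h11 : (t : ℕ) = 2 * m + 3
              · have : Fin.rev (a t) = i0 := Fin.ext (by rw [Fin.val_rev]; simp only [a]; omega)
                rw [this]
              · exact (quat_double k1 k2 k3 S γ i0 (Fin.rev (a t)) (by rw [Fin.val_rev]; simp only [a]; omega) ev0).symm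
            rw [h10] at h9
            exact eq_inv_of_mul_eq_one_left h9
          rw [h7, inv_inv]
          simp only [hf]
          rw [if_neg h5, if_neg h6]
    rw [Finset.sum_congr rfl fun t _ => hval t, Fin.sum_univ_eq_sum_range f (2 * m + 4), Finset.sum_range_succ,
      Finset.sum_range_succ, Finset.sum_range_succ', Finset.sum_range_succ']
    have g1 : ∑ t ∈ Finset.range (2 * m), f (t + 1 + 1) = 2 * m := by
      have : ∀ t ∈ Finset.range (2 * m), f (t + 1 + 1) = 1 := by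
        intro t ht
        have := Finset.mem_range.1 ht
        simp only [hf]
        rw [if_neg (by omega), if_pos (by omega)]
      rw [Finset.sum_congr rfl this, Finset.sum_const, Finset.card_range, nsmul_eq_mul]
      push_cast
      ring
    have g2 : f (0 + 1) = (σ⁻¹) ^ 2 := by
      simp only [hf]
      rw [if_pos (by omega)]
    have g3 : f 0 = (σ⁻¹) ^ 2 := by
      simp only [hf]
      rw [if_pos (by omega)]
    have g4 : f (2 * m + 2) = σ ^ 2 := by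
      simp only [hf]
      rw [if_neg (by omega), if_neg (by omega)]
    have g5 : f (2 * m + 3) = σ ^ 2 := by
      simp only [hf]
      rw [if_neg (by omega), if_neg (by omega)]
    rw [g1, g2, g3, g4, g5]
    ring

theorem p_close {S : Sv P} {Φ j : MN N} (h1 : Φᴴ = Φ) (h2 : Φ * Φ = 1) (h4 : ∀ g, (P.ι g)ᴴ * Φ * P.ι g = Φ)
    (k1 : jᴴ * j = 1) (k2 : jᵀ = -j) (k3 : ∀ g, P.ι g * j = j * (P.ι g)ᴴᵀ)
    {p m : ℕ} (hp : 2 ≤ p) (hN : N = 4 * p + 2 * m) {i0 i1 : Fin N} (hi0 : (i0 : ℕ) = 2 * p - 2) (hi1 : (i1 : ℕ) = 2 * p - 3) (T : Str S)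
    (hb : ∀ i : Fin N, T.b i = T.b i0 ↔ (2 * p - 2 ≤ (i : ℕ) ∧ (i : ℕ) ≤ 2 * p + 2 * m + 1))
    (hgood : ∀ n, {γ | S.s γ i0 < S.s γ i1} ∈ T.F n) (κ : G → Matrix (Bk T.b i0) (MS m) ℂ)
    (hκ : ∀ γ, (κ γ)ᴴ * κ γ = 1) (hκ' : ∀ γ, κ γ * (κ γ)ᴴ = 1)
    (hJ : ∀ γ, S.s γ i0 < S.s γ i1 → (κ γ)ᴴ * res T.b i0 (Jh S Φ γ) * κ γ = JS m ∧
      (κ γ)ᴴ * res T.b i0 (jq S j γ) * (κ γ)ᴴᵀ = jS m) (g h : G) (n : ℕ) :
    Tendsto (fun γ => fC m (gg (κ γ) (κ (g⁻¹ * γ * h)) (T.C g h γ))) (T.F n) (𝓝 0) := by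
  obtain ⟨n', hn'⟩ := T.shift g h n
  have hc : Continuous fun A : Matrix (Bk T.b i0) (Bk T.b i0) ℂ => ns A := by
    unfold ns
    exact continuous_finsetSum _ fun i _ => continuous_finsetSum _ fun j _ =>
      (continuous_norm.comp (continuous_apply_apply i j)).pow 2
  have hz : ns (0 : Matrix (Bk T.b i0) (Bk T.b i0) ℂ) = 0 := by
    unfold ns
    simp
  have hN' : 2 * (2 * p - 1) + 1 ≤ N := by omega
  have hr' : 2 ≤ 2 * p - 1 := by omega
  have hi0' : (i0 : ℕ) = (2 * p - 1) - 1 := by omega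
  have hi1' : (i1 : ℕ) = (2 * p - 1) - 2 := by omega
  have hb' : ∀ i : Fin N, T.b i = T.b i0 ↔ ((2 * p - 1) - 1 ≤ (i : ℕ) ∧ (i : ℕ) ≤ N - (2 * p - 1)) := by
    intro i
    rw [hb i]
    omega
  have h5 := (hc.tendsto 0).comp (u4_block h1 h2 h4 hr' hN' hi0' hi1' T hb' hgood g h n)
  rw [hz] at h5
  refine h5.congr' ?_
  filter_upwards [hgood n, hn' (hgood n')] with γ hγ hγ'
  obtain ⟨hJ1, hj1⟩ := hJ γ hγ
  obtain ⟨hJ2, hj2⟩ := hJ (g⁻¹ * γ * h) hγ'
  have hk := hκ γ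
  have hk' := hκ' γ
  have hk2 := hκ (g⁻¹ * γ * h)
  have hk2' := hκ' (g⁻¹ * γ * h)
  have hjz : ∀ i k : Fin N, T.b i = T.b i0 → T.b k ≠ T.b i0 → jq S j γ i k = 0 ∧ jq S j γ k i = 0 := by
    intro i k hi hk
    exact jq_zero99 S h2 h4 k1 k3 hp hN hi0 hi1 γ hγ i k ((hb i).1 hi) (fun hc => hk ((hb k).2 hc))
  have hjz' : ∀ i k : Fin N, T.b i = T.b i0 → T.b k ≠ T.b i0 →
      jq S j (g⁻¹ * γ * h) i k = 0 ∧ jq S j (g⁻¹ * γ * h) k i = 0 := by
    intro i k hi hk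
    exact jq_zero99 S h2 h4 k1 k3 hp hN hi0 hi1 _ hγ' i k ((hb i).1 hi) (fun hc => hk ((hb k).2 hc))
  have hCm : res T.b i0 (T.C g h γ) = res T.b i0 (S.m g h γ) := by
    ext a c
    show D T.b (S.m g h γ) a.1 c.1 = _
    rw [D_apply, if_pos (a.2.trans c.2.symm)]
    rfl
  have hq : res T.b i0 (T.C g h γ) * res T.b i0 (jq S j (g⁻¹ * γ * h)) =
      res T.b i0 (jq S j γ) * (res T.b i0 (T.C g h γ))ᴴᵀ := by
    rw [hCm, ← res_mul_right99 (fun i k hi hk => (hjz' i k hi hk).2), jq_m S k3 g h γ, ← res_cj99,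
      ← res_mul_left99 (fun i k hi hk => (hjz i k hi hk).1)]
  show ns ((res T.b i0 (T.C g h γ))ᴴ * res T.b i0 (Jh S Φ γ) *
    res T.b i0 (T.C g h γ) - res T.b i0 (Jh S Φ (g⁻¹ * γ * h))) = fC m _
  unfold fC gg
  generalize hK : κ γ = K at *
  generalize hK2 : κ (g⁻¹ * γ * h) = K2 at *
  generalize res T.b i0 (T.C g h γ) = B at *
  generalize res T.b i0 (jq S j γ) = U at *
  generalize res T.b i0 (jq S j (g⁻¹ * γ * h)) = U2 at *
  have e1 : (Kᴴ * B * K2)ᴴ * JS m * (Kᴴ * B * K2) - JS m =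
      K2ᴴ * (Bᴴ * res T.b i0 (Jh S Φ γ) * B - res T.b i0 (Jh S Φ (g⁻¹ * γ * h))) * K2 := by
    have e2 : (Kᴴ * B * K2)ᴴ * JS m * (Kᴴ * B * K2) = K2ᴴ * (Bᴴ * res T.b i0 (Jh S Φ γ) * B) * K2 := by
      rw [← hJ1, Matrix.conjTranspose_mul, Matrix.conjTranspose_mul, Matrix.conjTranspose_conjTranspose]
      calc K2ᴴ * (Bᴴ * K) * (Kᴴ * res T.b i0 (Jh S Φ γ) * K) * (Kᴴ * B * K2)
          = K2ᴴ * (Bᴴ * (K * Kᴴ) * res T.b i0 (Jh S Φ γ) * (K * Kᴴ) * B) * K2 := by simp only [Matrix.mul_assoc]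
        _ = _ := by rw [hk', Matrix.mul_one, Matrix.mul_one]
    rw [e2, ← hJ2, Matrix.mul_sub, Matrix.sub_mul]
  have e3 : fS (jS m) (Kᴴ * B * K2) = 0 := by
    rw [fS_eq]
    refine ⟨1, by simp, ?_⟩
    have o1 : Kᴴᵀ * (Kᴴᵀ)ᴴ = 1 := by rw [cj_star99, ← cj_mul99, hk', cj_one99]
    have o2 : (Kᴴ * B * K2)ᴴᵀ = (Kᴴᵀ)ᴴ * Bᴴᵀ * K2ᴴᵀ := by
      rw [cj_mul99, cj_mul99, ← cj_star99]
    rw [one_smul, o2]
    calc Kᴴ * B * K2 * jS m = Kᴴ * B * (K2 * K2ᴴ) * U2 * K2ᴴᵀ := by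
          rw [← hj2]
          simp only [Matrix.mul_assoc]
      _ = Kᴴ * (B * U2) * K2ᴴᵀ := by rw [hk2', Matrix.mul_one]; simp only [Matrix.mul_assoc]
      _ = Kᴴ * U * (Kᴴᵀ * (Kᴴᵀ)ᴴ) * Bᴴᵀ * K2ᴴᵀ := by rw [hq, o1, Matrix.mul_one]; simp only [Matrix.mul_assoc]
      _ = jS m * ((Kᴴᵀ)ᴴ * Bᴴᵀ * K2ᴴᵀ) := by
          rw [← hj1]
          simp only [Matrix.mul_assoc]
  rw [e1, e3, add_zero, ns_conj99 hk2' hk2']

end Pool.Agent.Helper84.CH
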