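import Pool.Agent.Helper84.CH.UF0

/-!
# Project CH, block V2a: the normal form of a Hermitian involution and a quaternionic structure

`pair_norm`. PROOF (compare `pair68`, `eigen68`, private in `SPQ/S2.lean`). `conj A = Aᴴᵀ`; `U conj U = -1` (unitary, antisymmetric); `τ v = U conj v` is antilinear, isometric, `τ² = -1`, `⟪v, τ v⟫ = 0`, and commutes with `F` (`F U = U conj F`). `F` is Hermitian with `F² = 1`, eigenvalues `1`, `-1`, trace `2 - 2 (m + 1)` on a space of dimension `2 m + 4`: the
eigenspaces `V+`, `V-` have dimensions `2` and `2 (m + 1)`; both are `τ`-stable. Lemma (induction on `k`): a `τ`-stable subspace of dimension `2 k` has an orthonormal basis `w_0, τ w_0, ..., w_(k-1), τ w_(k-1)` (choose a unit vector `w`; `τ w` is a unit vector orthogonal to `w`; the orthogonal complement of `w, τ w` in the subspace is `τ`-stable: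
`⟪w, τ v⟫ = -⟪v, τ w⟫`). `κ`: the columns `inl 0, inl 1` are `w, τ w` for `V+`, the columns `inr (i, 0), inr (i, 1)` are `w_i, τ w_i` for `V-`. Then `κᴴ F κ = JS m`, and `κᴴ U conj κ = jS m` (column `b` of `U conj κ` is `τ (κ_b)`: `τ w` for `w`, `-w` for `τ w`).
-/

set_option autoImplicit false

open Filter Topology Matrix

namespace Pool.Agent.Helper84.CH

open Pool.Agent.Helper84.SPQ NI

/-- the block diagonal quaternionic structure -/
private def jb46 (k : ℕ) : Matrix (Fin k × Fin 2) (Fin k × Fin 2) ℂ :=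
  Matrix.of fun a b => if a.1 = b.1 then !![0, -1; 1, 0] a.2 b.2 else 0

private theorem star_mulVec46 {m n : Type} [Fintype n] (A : Matrix m n ℂ) (v : n → ℂ) :
    star (A *ᵥ v) = Aᴴᵀ *ᵥ star v := by
  rw [Matrix.star_mulVec, Matrix.mulVec_transpose]

private theorem anti46 {M : Type} [Fintype M] {U : Matrix M M ℂ} (u2 : Uᵀ = -U) (x : M → ℂ) :
    x ⬝ᵥ U *ᵥ x = 0 := by
  have h : x ⬝ᵥ U *ᵥ x = -(x ⬝ᵥ U *ᵥ x) := by
    conv_lhs => rw [Matrix.dotProduct_mulVec, ← Matrix.mulVec_transpose, u2, Matrix.neg_mulVec,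
      neg_dotProduct, dotProduct_comm]
  have h2 : (2 : ℂ) * (x ⬝ᵥ U *ᵥ x) = 0 := by linear_combination h
  rcases mul_eq_zero.1 h2 with h3 | h3
  · norm_num at h3
  · exact h3

private theorem unit46 {M : Type} [Fintype M] [DecidableEq M] {P : Matrix M M ℂ} (h2 : P * P = P)
    (h0 : P ≠ 0) : ∃ w : M → ℂ, P *ᵥ w = w ∧ star w ⬝ᵥ w = 1 := by
  obtain ⟨v, hv⟩ : ∃ v, P *ᵥ v ≠ 0 := by
    by_contra hc
    push Not at hc
    apply h0
    ext i j
    have := congrFun (hc (Pi.single j 1)) i
    rw [Matrix.mulVec_single_one] at this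
    exact this
  set u := P *ᵥ v with hu
  have hPu : P *ᵥ u = u := by rw [hu, Matrix.mulVec_mulVec, h2]
  set S : ℝ := ∑ i, ‖u i‖ ^ 2 with hS
  have hSu : star u ⬝ᵥ u = ((S : ℝ) : ℂ) := by
    rw [hS, dotProduct]
    push_cast
    refine Finset.sum_congr rfl fun i _ => ?_
    rw [Pi.star_apply, RCLike.star_def, RCLike.conj_mul]
    norm_cast
  have hS0 : 0 < S := by
    obtain ⟨i, hi⟩ := Function.ne_iff.1 hv
    have : 0 < ‖u i‖ ^ 2 := by
      have := norm_pos_iff.2 hi
      positivity
    exact lt_of_lt_of_le this (Finset.single_le_sum (f := fun i => ‖u i‖ ^ 2)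
      (fun i _ => by positivity) (Finset.mem_univ i))
  refine ⟨(((Real.sqrt S)⁻¹ : ℝ) : ℂ) • u, ?_, ?_⟩
  · rw [Matrix.mulVec_smul, hPu]
  · rw [star_smul, smul_dotProduct, dotProduct_smul, hSu]
    simp only [smul_eq_mul, RCLike.star_def, Complex.conj_ofReal]
    have e : (Real.sqrt S)⁻¹ * ((Real.sqrt S)⁻¹ * S) = 1 := by
      have := Real.mul_self_sqrt hS0.le
      have h1 : Real.sqrt S ≠ 0 := (Real.sqrt_pos.2 hS0).ne'
      field_simp
      nlinarith [this]
    exact_mod_cast e

open scoped ComplexOrder in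
private theorem zero46 {M : Type} [Fintype M] {P : Matrix M M ℂ} (h : (Pᴴ * P).trace = 0) :
    P = 0 := Matrix.trace_conjTranspose_mul_self_eq_zero_iff.1 h

private theorem mul_jb46 {M : Type} {k : ℕ} (V : Matrix M (Fin k × Fin 2) ℂ) (a : M)
    (i : Fin k) (d : Fin 2) : (V * jb46 k) a (i, d) =
      V a (i, 0) * (!![0, -1; 1, 0] : Matrix (Fin 2) (Fin 2) ℂ) 0 d +
      V a (i, 1) * (!![0, -1; 1, 0] : Matrix (Fin 2) (Fin 2) ℂ) 1 d := by
  rw [Matrix.mul_apply, Fintype.sum_prod_type, Finset.sum_eq_single i]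
  · rw [Fin.sum_univ_two]
    simp [jb46]
  · intro b _ hb
    rw [Fin.sum_univ_two]
    simp [jb46, hb]
  · intro h
    exact absurd (Finset.mem_univ i) h

/-- a projection which commutes with the quaternionic structure has a quaternionic basis -/
private theorem basis46 {M : Type} [Fintype M] [DecidableEq M] {U : Matrix M M ℂ} (u1 : Uᴴ * U = 1)
    (u2 : Uᵀ = -U) (k : ℕ) : ∀ P : Matrix M M ℂ, Pᴴ = P → P * P = P → P.trace = 2 * (k : ℂ) →
    P * U = U * Pᴴᵀ → ∃ W : Matrix M (Fin k × Fin 2) ℂ, Wᴴ * W = 1 ∧ W * Wᴴ = P ∧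
      U * Wᴴᵀ = W * jb46 k := by
  have u3 : U * Uᴴ = 1 := mul_eq_one_comm.1 u1
  have u4 : Uᴴᵀ = -Uᴴ := by
    have e : Uᴴᵀ = (Uᵀ)ᴴ := rfl
    rw [e, u2, Matrix.conjTranspose_neg]
  induction k with
  | zero =>
    intro P h1 h2 h3 _
    have hP : P = 0 := zero46 (by rw [h1, h2, h3]; simp)
    refine ⟨0, ?_, ?_, ?_⟩
    · ext x y
      exact x.1.elim0
    · rw [hP, Matrix.zero_mul]
    · ext x y
      exact y.1.elim0
  | succ k ih =>
    intro P h1 h2 h3 h4
    have hP0 : P ≠ 0 := by
      intro h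
      rw [h, Matrix.trace_zero] at h3
      have : (2 : ℂ) * ((k + 1 : ℕ) : ℂ) ≠ 0 := by
        have : ((k + 1 : ℕ) : ℂ) ≠ 0 := Nat.cast_ne_zero.2 (Nat.succ_ne_zero k)
        exact mul_ne_zero two_ne_zero this
      exact this h3.symm
    obtain ⟨w, hw, hw1⟩ := unit46 h2 hP0
    set t : M → ℂ := U *ᵥ star w with ht
    have hst : star t = Uᴴᵀ *ᵥ w := by rw [ht, star_mulVec46, star_star]
    have hUt : U *ᵥ star t = -w := by
      rw [hst, u4, Matrix.neg_mulVec, Matrix.mulVec_neg, Matrix.mulVec_mulVec, u3, Matrix.one_mulVec]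
    have hwt : star w ⬝ᵥ t = 0 := anti46 u2 (star w)
    have htw : star t ⬝ᵥ w = 0 := by
      have := congrArg star hwt
      rw [Matrix.star_dotProduct, star_star, star_zero] at this
      exact this
    have htt : star t ⬝ᵥ t = 1 := by
      have e1 : star t = w ᵥ* Uᴴ := by rw [hst, Matrix.mulVec_transpose]
      rw [e1, ← Matrix.dotProduct_mulVec, ht, Matrix.mulVec_mulVec, u1, Matrix.one_mulVec,
        dotProduct_comm, hw1]
    have hPt : P *ᵥ t = t := by
      rw [ht, Matrix.mulVec_mulVec, h4, ← Matrix.mulVec_mulVec, ← star_mulVec46, hw]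
    have hwP : star w ᵥ* P = star w := by
      have := Matrix.star_mulVec P w
      rw [h1, hw] at this
      exact this.symm
    have htP : star t ᵥ* P = star t := by
      have := Matrix.star_mulVec P t
      rw [h1, hPt] at this
      exact this.symm
    have hwU : star w ᵥ* U = -t := by
      rw [← Matrix.mulVec_transpose, u2, Matrix.neg_mulVec]
    have htU : star t ᵥ* U = w := by
      rw [← Matrix.mulVec_transpose, u2, Matrix.neg_mulVec, hUt, neg_neg]
    set P' : Matrix M M ℂ := P - vecMulVec w (star w) - vecMulVec t (star t) with hP'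
    have hw0 : P' *ᵥ w = 0 := by
      rw [hP', Matrix.sub_mulVec, Matrix.sub_mulVec, hw, Matrix.vecMulVec_mulVec,
        Matrix.vecMulVec_mulVec, hw1, htw]
      simp
    have ht0 : P' *ᵥ t = 0 := by
      rw [hP', Matrix.sub_mulVec, Matrix.sub_mulVec, hPt, Matrix.vecMulVec_mulVec,
        Matrix.vecMulVec_mulVec, htt, hwt]
      simp
    have g1 : P'ᴴ = P' := by
      rw [hP', Matrix.conjTranspose_sub, Matrix.conjTranspose_sub, h1,
        Matrix.conjTranspose_vecMulVec, Matrix.conjTranspose_vecMulVec, star_star, star_star]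
    have g2 : P' * P' = P' := by
      have e1 : P' * P = P' := by
        rw [hP', Matrix.sub_mul, Matrix.sub_mul, h2, Matrix.vecMulVec_mul, Matrix.vecMulVec_mul,
          hwP, htP]
      have e2 : P' * vecMulVec w (star w) = 0 := by
        rw [Matrix.mul_vecMulVec, hw0]
        ext i j
        simp [vecMulVec_apply]
      have e3 : P' * vecMulVec t (star t) = 0 := by
        rw [Matrix.mul_vecMulVec, ht0]
        ext i j
        simp [vecMulVec_apply]
      conv_lhs => rw [hP', Matrix.mul_sub, Matrix.mul_sub, ← hP', e1, e2, e3, sub_zero, sub_zero]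
    have g3 : P'.trace = 2 * (k : ℂ) := by
      rw [hP', Matrix.trace_sub, Matrix.trace_sub, Matrix.trace_vecMulVec, Matrix.trace_vecMulVec,
        h3, dotProduct_comm, hw1, dotProduct_comm, htt]
      push_cast
      ring
    have g4 : P' * U = U * P'ᴴᵀ := by
      rw [hP', Matrix.sub_mul, Matrix.sub_mul, h4, Matrix.vecMulVec_mul, Matrix.vecMulVec_mul,
        hwU, htU, Matrix.conjTranspose_sub, Matrix.conjTranspose_sub, Matrix.transpose_sub,
        Matrix.transpose_sub, Matrix.conjTranspose_vecMulVec, Matrix.conjTranspose_vecMulVec,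
        star_star, star_star, Matrix.transpose_vecMulVec, Matrix.transpose_vecMulVec,
        Matrix.mul_sub, Matrix.mul_sub, Matrix.mul_vecMulVec, Matrix.mul_vecMulVec, hUt, ← ht]
      ext i j
      simp only [Matrix.sub_apply, vecMulVec_apply, Pi.neg_apply]
      ring
    obtain ⟨W, W1, W2, W3⟩ := ih P' g1 g2 g3 g4
    have hPW : P' * W = W := by rw [← W2, Matrix.mul_assoc, W1, Matrix.mul_one]
    have hwW : star w ᵥ* W = 0 := by
      have e := Matrix.star_mulVec P' w
      rw [g1, hw0, star_zero] at e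
      rw [← hPW, ← Matrix.vecMul_vecMul, ← e, Matrix.zero_vecMul]
    have htW : star t ᵥ* W = 0 := by
      have e := Matrix.star_mulVec P' t
      rw [g1, ht0, star_zero] at e
      rw [← hPW, ← Matrix.vecMul_vecMul, ← e, Matrix.zero_vecMul]
    set V : Matrix M (Fin (k + 1) × Fin 2) ℂ :=
      Matrix.of fun a x => Fin.cases (![w a, t a] x.2) (fun i => W a (i, x.2)) x.1 with hV
    have v0 : ∀ a, V a (0, 0) = w a := fun a => rfl
    have v1 : ∀ a, V a (0, 1) = t a := fun a => rfl
    have vs : ∀ a i c, V a (Fin.succ i, c) = W a (i, c) := fun a i c => rfl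
    have a1 : ∀ y, ∑ a, star (w a) * W a y = 0 := fun y => congrFun hwW y
    have a2 : ∀ y, ∑ a, star (t a) * W a y = 0 := fun y => congrFun htW y
    have a3 : ∀ y, ∑ a, star (W a y) * w a = 0 := fun y => by
      have := congrArg star (a1 y)
      rw [star_sum, star_zero] at this
      rw [← this]
      refine Finset.sum_congr rfl fun a _ => ?_
      rw [star_mul, star_star]
    have a4 : ∀ y, ∑ a, star (W a y) * t a = 0 := fun y => by
      have := congrArg star (a2 y)
      rw [star_sum, star_zero] at this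
      rw [← this]
      refine Finset.sum_congr rfl fun a _ => ?_
      rw [star_mul, star_star]
    refine ⟨V, ?_, ?_, ?_⟩
    · ext ⟨i, c⟩ ⟨j, d⟩
      rw [Matrix.mul_apply]
      simp only [Matrix.conjTranspose_apply]
      refine Fin.cases ?_ (fun i => ?_) i <;> refine Fin.cases ?_ (fun j => ?_) j
      · fin_cases c <;> fin_cases d
        · simp only [Fin.zero_eta, v0]
          rw [Matrix.one_apply_eq]
          exact hw1
        · simp only [Fin.zero_eta, Fin.mk_one, v0, v1]
          rw [Matrix.one_apply_ne (by simp)]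
          exact hwt
        · simp only [Fin.zero_eta, Fin.mk_one, v0, v1]
          rw [Matrix.one_apply_ne (by simp)]
          exact htw
        · simp only [Fin.mk_one, v1]
          rw [Matrix.one_apply_eq]
          exact htt
      · rw [Matrix.one_apply_ne (by simp [Fin.ext_iff])]
        fin_cases c
        · simp only [Fin.zero_eta, v0, vs]
          exact a1 _
        · simp only [Fin.mk_one, v1, vs]
          exact a2 _
      · rw [Matrix.one_apply_ne (by simp [Fin.ext_iff])]
        fin_cases d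
        · simp only [Fin.zero_eta, v0, vs]
          exact a3 _
        · simp only [Fin.mk_one, v1, vs]
          exact a4 _
      · simp only [vs]
        have e := congrFun (congrFun W1 (i, c)) (j, d)
        rw [Matrix.mul_apply] at e
        simp only [Matrix.conjTranspose_apply] at e
        rw [e, Matrix.one_apply, Matrix.one_apply]
        simp [Prod.ext_iff]
    · ext a b
      rw [Matrix.mul_apply, Fintype.sum_prod_type, Fin.sum_univ_succ, Fin.sum_univ_two]
      simp only [Matrix.conjTranspose_apply, v0, v1, vs]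
      have e := congrFun (congrFun W2 a) b
      rw [Matrix.mul_apply, Fintype.sum_prod_type] at e
      simp only [Matrix.conjTranspose_apply] at e
      rw [e, hP']
      simp only [Matrix.sub_apply, vecMulVec_apply, Pi.star_apply]
      ring
    · ext a ⟨i, d⟩
      rw [mul_jb46]
      refine Fin.cases ?_ (fun i => ?_) i
      · rw [v0, v1]
        fin_cases d
        · simp [Matrix.mul_apply, v0, ht, Matrix.mulVec, dotProduct]
        · have e := congrFun hUt a
          simp only [Matrix.mulVec, dotProduct, Pi.star_apply, Pi.neg_apply] at e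
          simp [Matrix.mul_apply, v1]
          exact e
      · rw [vs, vs, ← mul_jb46, ← W3]
        simp [Matrix.mul_apply, vs]

theorem pair_norm {M : Type} [Fintype M] [DecidableEq M] {m : ℕ} (hM : Fintype.card M = 2 * m + 4) {F U : Matrix M M ℂ}
    (h1 : Fᴴ = F) (h2 : F * F = 1) (h3 : F.trace = -(2 * (m : ℂ))) (u1 : Uᴴ * U = 1) (u2 : Uᵀ = -U) (hrel : F * U = U * Fᴴᵀ) :
    ∃ κ : Matrix M (MS m) ℂ, κᴴ * κ = 1 ∧ κ * κᴴ = 1 ∧ κᴴ * F * κ = JS m ∧ κᴴ * U * κᴴᵀ = jS m := by
  have half : star (1 / 2 : ℂ) = 1 / 2 := by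
    rw [RCLike.star_def, map_div₀, map_one, map_ofNat]
  have hMc : (Fintype.card M : ℂ) = 2 * (m : ℂ) + 4 := by
    rw [hM]
    push_cast
    ring
  have hrel' : F * U = U * Fᵀ := by
    have := hrel
    rwa [h1] at this
  obtain ⟨W, W1, W2, W3⟩ := basis46 u1 u2 1 ((1 / 2 : ℂ) • (1 + F))
    (by rw [conjTranspose_smul, half, conjTranspose_add, conjTranspose_one, h1])
    (by
      rw [smul_mul_smul_comm, Matrix.add_mul, Matrix.mul_add, Matrix.mul_add, h2, Matrix.one_mul,
        Matrix.mul_one, Matrix.one_mul]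
      ext i j
      simp only [Matrix.smul_apply, Matrix.add_apply, smul_eq_mul]
      ring)
    (by
      rw [trace_smul, trace_add, trace_one, h3, hMc, smul_eq_mul]
      push_cast
      ring)
    (by
      rw [conjTranspose_smul, half, conjTranspose_add, conjTranspose_one, h1, Matrix.smul_mul,
        transpose_smul, Matrix.mul_smul, transpose_add, transpose_one, Matrix.add_mul, Matrix.mul_add,
        hrel', Matrix.one_mul, Matrix.mul_one])
  obtain ⟨Z, Z1, Z2, Z3⟩ := basis46 u1 u2 (m + 1) ((1 / 2 : ℂ) • (1 - F))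
    (by rw [conjTranspose_smul, half, conjTranspose_sub, conjTranspose_one, h1])
    (by
      rw [smul_mul_smul_comm, Matrix.sub_mul, Matrix.mul_sub, Matrix.mul_sub, h2, Matrix.one_mul,
        Matrix.mul_one, Matrix.one_mul]
      ext i j
      simp only [Matrix.smul_apply, Matrix.sub_apply, smul_eq_mul]
      ring)
    (by
      rw [trace_smul, trace_sub, trace_one, h3, hMc, smul_eq_mul]
      push_cast
      ring)
    (by
      rw [conjTranspose_smul, half, conjTranspose_sub, conjTranspose_one, h1, Matrix.smul_mul,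
        transpose_smul, Matrix.mul_smul, transpose_sub, transpose_one, Matrix.sub_mul, Matrix.mul_sub,
        hrel', Matrix.one_mul, Matrix.mul_one])
  have hFW : F * W = W := by
    have e1 : F * (W * Wᴴ) = W * Wᴴ := by
      rw [W2, Matrix.mul_smul, Matrix.mul_add, h2, Matrix.mul_one, add_comm]
    calc F * W = F * (W * Wᴴ) * W := by rw [Matrix.mul_assoc, Matrix.mul_assoc, W1, Matrix.mul_one]
      _ = W := by rw [e1, Matrix.mul_assoc, W1, Matrix.mul_one]
  have hFZ : F * Z = -Z := by
    have e1 : F * (Z * Zᴴ) = -(Z * Zᴴ) := by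
      rw [Z2, Matrix.mul_smul, Matrix.mul_sub, h2, Matrix.mul_one, ← smul_neg, neg_sub]
    calc F * Z = F * (Z * Zᴴ) * Z := by rw [Matrix.mul_assoc, Matrix.mul_assoc, Z1, Matrix.mul_one]
      _ = -Z := by rw [e1, Matrix.neg_mul, Matrix.mul_assoc, Z1, Matrix.mul_one]
  set K : Matrix M (Fin 2) ℂ := W.submatrix id (fun b => (0, b)) with hK
  have hFK : F * K = K := by
    ext a b
    exact congrFun (congrFun hFW a) (0, b)
  have hUK : U * Kᴴᵀ = K * (!![0, -1; 1, 0] : Matrix (Fin 2) (Fin 2) ℂ) := by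
    ext a d
    have e := congrFun (congrFun W3 a) (0, d)
    rw [mul_jb46] at e
    rw [Matrix.mul_apply (M := K), Fin.sum_univ_two]
    exact e
  have hKK : K * Kᴴ = W * Wᴴ := by
    ext a b
    rw [Matrix.mul_apply, Matrix.mul_apply, Fintype.sum_prod_type, Fin.sum_univ_one]
    rfl
  set κ : Matrix M (MS m) ℂ := fromCols K Z with hκ
  have k2 : κ * κᴴ = 1 := by
    rw [hκ, conjTranspose_fromCols_eq_fromRows_conjTranspose, fromCols_mul_fromRows, hKK, W2, Z2]
    ext i j
    simp only [Matrix.smul_apply, Matrix.add_apply, Matrix.sub_apply, smul_eq_mul]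
    ring
  have k1 : κᴴ * κ = 1 := by
    have hc : Fintype.card M = Fintype.card (MS m) := by
      rw [hM]
      simp
      ring
    exact (Matrix.mul_eq_one_comm_of_card_eq M (MS m) ℂ hc).1 k2
  have e1 : F * κ = κ * JS m := by
    rw [hκ, mul_fromCols, JS, fromCols_mul_fromBlocks, hFK, hFZ]
    simp
  have e2 : U * κᴴᵀ = κ * jS m := by
    have e : κᴴᵀ = fromCols Kᴴᵀ Zᴴᵀ := by
      ext a x
      rcases x with x | x <;> rfl
    have e' : jS m = fromBlocks !![0, -1; 1, 0] 0 0 (jb46 (m + 1)) := rfl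
    rw [e, e', hκ, mul_fromCols, fromCols_mul_fromBlocks, hUK, Z3]
    simp
  refine ⟨κ, k1, k2, ?_, ?_⟩
  · rw [Matrix.mul_assoc, e1, ← Matrix.mul_assoc, k1, Matrix.one_mul]
  · rw [Matrix.mul_assoc, e2, ← Matrix.mul_assoc, k1, Matrix.one_mul]

end Pool.Agent.Helper84.CH
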