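import Pool.Agent.Helper84.CH.V1d
import Pool.Agent.Helper84.CH.V2
import Pool.Agent.Helper84.CH.UF5

/-!
# Project CH, block V3: the middle strata of `Sp(p, p + m)`

`hsr_mid`. PROOF. As `haag_mid6` in `SPQ/S3.lean` (complete proof there): gauge `gaugeP` (off `good` any unitary rectangular `κ`: the block has `2 m + 4 = card (MS m)` elements), `fC_isG m`, `p_close`; `hXb` with `z = 1` (entries of `gg κ κ X` bounded by those of `X`, i.e. by `s_{2p-2}` (`1/s_l ≤ s_{2p-2}` in the block), which is bounded on `T.W n` by `T.cpt n`: `s_{i0}² = s_{i0}/s_{rev i0}`).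
`‖det A‖ = 1` for `A ∈ HH (fC m)`: from `Aᴴ JS A = JS` (`fC_eq`), `det (JS m) ≠ 0`. `hsr_of_gau Ga (fC_isG m) hdet` with `C = 2 m + 2 + ε0`: given `n0`, `ε`, let `R` bound the entries of `XX γ` for `γ ∈ good ∩ T.W n0` and apply `ub_model m` with `min ε ε0` and `R`. The coefficient is `((ns (XX γ) - 2 m + 4)/8)^(-s) = (((s_{i0} + 1/s_{i0})/2)²)^(-s)`: it is at most `δ` if `s_{i0}` is large; `hout`.
-/

set_option autoImplicit false

open Filter Topology Matrix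

namespace Pool.Agent.Helper84.CH

open Pool.Agent.Helper84.SPQ NI GN Pool.Agent.Helper90.RK Pool.Agent.Helper66.RK

variable {G : Type} [Group G] {N : ℕ} {P : PH G N}

private theorem ent_one_v3 {n m : Type} [Fintype n] [Fintype m] [DecidableEq m] {k : Matrix n m ℂ} (hk : kᴴ * k = 1)
    (i : n) (j : m) : ‖k i j‖ ≤ 1 := by
  have h1 := congrFun (congrFun hk j) j
  rw [Matrix.mul_apply, Matrix.one_apply_eq] at h1
  have h2 : ∀ x : n, kᴴ j x * k x j = ((‖k x j‖ ^ 2 : ℝ) : ℂ) := by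
    intro x
    rw [conjTranspose_apply, ← Complex.normSq_eq_norm_sq, Complex.normSq_eq_conj_mul_self]
    rfl
  rw [Finset.sum_congr rfl fun x _ => h2 x, ← Complex.ofReal_sum] at h1
  have h3 : ∑ x, ‖k x j‖ ^ 2 = 1 := by exact_mod_cast h1
  have h4 : ‖k i j‖ ^ 2 ≤ ∑ x, ‖k x j‖ ^ 2 :=
    Finset.single_le_sum (f := fun x => ‖k x j‖ ^ 2) (fun _ _ => sq_nonneg _) (Finset.mem_univ i)
  rw [h3] at h4
  nlinarith [norm_nonneg (k i j)]

private theorem ent_mul_v3 {l m n : Type} [Fintype m] {A : Matrix l m ℂ} {B : Matrix m n ℂ} {a b : ℝ} (ha0 : 0 ≤ a)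
    (ha : ∀ i j, ‖A i j‖ ≤ a) (hb : ∀ i j, ‖B i j‖ ≤ b) (i : l) (j : n) : ‖(A * B) i j‖ ≤ Fintype.card m * (a * b) := by
  rw [Matrix.mul_apply]
  calc ‖∑ k, A i k * B k j‖ ≤ ∑ k, ‖A i k * B k j‖ := norm_sum_le _ _
    _ ≤ ∑ _k : m, a * b := by
        refine Finset.sum_le_sum fun k _ => ?_
        rw [norm_mul]
        exact mul_le_mul (ha i k) (hb k j) (norm_nonneg _) ha0
    _ = Fintype.card m * (a * b) := by
        rw [Finset.sum_const, Finset.card_univ, nsmul_eq_mul]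

private theorem det_v3 {m : ℕ} {A : Matrix (MS m) (MS m) ℂ} (hA : fC m A = 0) : ‖A.det‖ = 1 := by
  have h1 := congrArg Matrix.det (fC_eq.1 hA).1
  rw [Matrix.det_mul, Matrix.det_mul, Matrix.det_conjTranspose] at h1
  have h2 : JS m * JS m = 1 := by
    unfold JS
    rw [fromBlocks_multiply]
    simp
  have h3 : (JS m).det ≠ 0 := by
    intro h
    have h4 := congrArg Matrix.det h2
    rw [Matrix.det_mul, h, Matrix.det_one, mul_zero] at h4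
    exact zero_ne_one h4
  have h4 : star A.det * A.det = 1 := by
    apply mul_right_cancel₀ h3
    rw [one_mul]
    linear_combination h1
  have h5 : ‖star A.det * A.det‖ = 1 := by rw [h4, norm_one]
  rw [norm_mul, norm_star] at h5
  nlinarith [norm_nonneg A.det]

/-- the singular values on the middle block -/
private theorem mid_v3 {S : Sv P} {Φ : MN N} (h2 : Φ * Φ = 1) (h4 : ∀ g, (P.ι g)ᴴ * Φ * P.ι g = Φ)
    {p m : ℕ} (hp : 2 ≤ p) (hN : N = 4 * p + 2 * m) {i0 : Fin N} (hi0 : (i0 : ℕ) = 2 * p - 2) (T : Str S)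
    (hb : ∀ i : Fin N, T.b i = T.b i0 ↔ (2 * p - 2 ≤ (i : ℕ) ∧ (i : ℕ) ≤ 2 * p + 2 * m + 1)) (γ : G) :
    1 ≤ S.s γ i0 ∧ (∀ l : Fin N, T.b l = T.b i0 → (S.s γ l)⁻¹ ≤ S.s γ i0) ∧
      ∀ K : ℝ, (∀ i j, T.b i = T.b j → S.s γ i ≤ K * S.s γ j) → S.s γ i0 ≤ K := by
  have hrev := upq_symm h2 h4 S γ i0
  have p0 := S.pos γ i0
  have q0 := S.pos γ (Fin.rev i0)
  have hle : S.s γ (Fin.rev i0) ≤ S.s γ i0 := by
    apply S.anti γ
    rw [Fin.le_def, Fin.val_rev]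
    omega
  have one : 1 ≤ S.s γ i0 := by
    by_contra hlt
    push Not at hlt
    have : S.s γ i0 * S.s γ (Fin.rev i0) < 1 := by nlinarith
    linarith
  refine ⟨one, fun l hl => ?_, fun K hK => ?_⟩
  · have h5 := ((hb l).1 hl).2
    have h6 : S.s γ (Fin.rev i0) ≤ S.s γ l := by
      apply S.anti γ
      rw [Fin.le_def, Fin.val_rev]
      omega
    have pl := S.pos γ l
    rw [inv_le_iff_one_le_mul₀ pl]
    nlinarith
  · have h5 : T.b (Fin.rev i0) = T.b i0 := by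
      rw [hb, Fin.val_rev]
      omega
    have h6 := hK i0 (Fin.rev i0) h5.symm
    have h7 : S.s γ i0 * S.s γ i0 ≤ K := by
      have h8 := mul_le_mul_of_nonneg_right h6 p0.le
      have h9 : K * S.s γ (Fin.rev i0) * S.s γ i0 = K := by
        rw [mul_assoc, mul_comm (S.s γ (Fin.rev i0)), hrev, mul_one]
      linarith
    nlinarith

private theorem rpow_dec_v3 {t δ : ℝ} (ht : 0 < t) (hδ : 0 < δ) : ∃ C : ℝ, ∀ c : ℝ, C / 2 ≤ c → (c ^ 2) ^ (-t) ≤ δ := by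
  refine ⟨2 * δ ^ (-(1 / (2 * t))), fun c hc => ?_⟩
  have h1 : 0 < δ ^ (-(1 / (2 * t))) := Real.rpow_pos_of_pos hδ _
  have h2 : δ ^ (-(1 / (2 * t))) ≤ c := by linarith
  have h0 : 0 ≤ c := by linarith
  have h3 := Real.rpow_le_rpow_of_nonpos h1 h2 (show -(2 * t) ≤ 0 by linarith)
  rw [← Real.rpow_mul hδ.le] at h3
  have h4 : -(1 / (2 * t)) * -(2 * t) = 1 := by
    field_simp
  rw [h4, Real.rpow_one] at h3
  rw [← Real.rpow_natCast, ← Real.rpow_mul h0]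
  have h5 : ((2 : ℕ) : ℝ) * -t = -(2 * t) := by
    push_cast
    ring
  rwa [h5]

/-- a unitary matrix from the block to the model -/
private theorem any_kap_v3 {m : ℕ} {b : Fin N → ℕ} {i0 : Fin N} {a : ℕ} (hb : ∀ k : Fin N, b k = b i0 ↔ (a ≤ (k : ℕ) ∧ (k : ℕ) ≤ a + (2 * m + 3)))
    (haN : a + (2 * m + 3) < N) : ∃ κ : Matrix (Bk b i0) (MS m) ℂ, κᴴ * κ = 1 ∧ κ * κᴴ = 1 := by
  classical
  obtain ⟨e0⟩ : Nonempty (Bk b i0 ≃ Fin (2 * m + 4)) := ⟨{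
    toFun := fun x => ⟨(x.1 : ℕ) - a, by have := ((hb x.1).1 x.2).2; omega⟩
    invFun := fun y => ⟨⟨a + y, by omega⟩, (hb _).2 ⟨Nat.le_add_right _ _, by
      change a + (y : ℕ) ≤ a + (2 * m + 3)
      omega⟩⟩
    left_inv := fun x => by
      have := ((hb x.1).1 x.2).1
      apply Subtype.ext
      apply Fin.ext
      change a + ((x.1 : ℕ) - a) = (x.1 : ℕ)
      omega
    right_inv := fun y => by
      apply Fin.ext
      change a + (y : ℕ) - a = y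
      omega }⟩
  have hcard : Fintype.card (Bk b i0) = Fintype.card (MS m) := by
    rw [Fintype.card_congr e0]
    simp only [Fintype.card_fin, Fintype.card_sum, Fintype.card_prod]
    ring
  have e : Bk b i0 ≃ MS m := Fintype.equivOfCardEq hcard
  refine ⟨(1 : Matrix (MS m) (MS m) ℂ).submatrix e id, ?_, ?_⟩
  · rw [conjTranspose_submatrix, conjTranspose_one, Matrix.submatrix_mul_equiv, Matrix.one_mul, submatrix_id_id]
  · rw [conjTranspose_submatrix, conjTranspose_one]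
    exact (Matrix.submatrix_mul_equiv (1 : Matrix (MS m) (MS m) ℂ) 1 e (Equiv.refl _) e).trans
      (by rw [Matrix.one_mul, submatrix_one_equiv])

theorem hsr_mid {S : Sv P} {Φ j : MN N} (h1 : Φᴴ = Φ) (h2 : Φ * Φ = 1) (h4 : ∀ g, (P.ι g)ᴴ * Φ * P.ι g = Φ)
    (k1 : jᴴ * j = 1) (k2 : jᵀ = -j) (k3 : ∀ g, P.ι g * j = j * (P.ι g)ᴴᵀ) (hrel : Φ * j = j * Φᴴᵀ)
    {p m : ℕ} (hp : 2 ≤ p) (hN : N = 4 * p + 2 * m) (h3 : Φ.trace = 4 * (p : ℂ) - N)
    (hone : ∀ γ (i : Fin N), 2 * p ≤ (i : ℕ) → S.s γ i ≤ 1) {i0 i1 : Fin N} (hi0 : (i0 : ℕ) = 2 * p - 2) (hi1 : (i1 : ℕ) = 2 * p - 3) (T : Str S)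
    (hb : ∀ i : Fin N, T.b i = T.b i0 ↔ (2 * p - 2 ≤ (i : ℕ) ∧ (i : ℕ) ≤ 2 * p + 2 * m + 1))
    (hgood : ∀ n, {γ | S.s γ i0 < S.s γ i1} ∈ T.F n)
    (hout : ∀ c : ℝ, ∃ n, ∀ γ, S.s γ i0 ≤ c → γ ∈ T.W n) {ε0 : ℝ} (hε0 : 0 < ε0) :
    HSR (Pool.Agent.Helper96.RK.toReg T) (2 * m + 2 + ε0) := by
  classical
  have hex : ∀ γ : G, ∃ κ : Matrix (Bk T.b i0) (MS m) ℂ, κᴴ * κ = 1 ∧ κ * κᴴ = 1 ∧ (S.s γ i0 < S.s γ i1 →
      (κᴴ * res T.b i0 (Jh S Φ γ) * κ = JS m ∧ κᴴ * res T.b i0 (jq S j γ) * κᴴᵀ = jS m) ∧ fC m (gg κ κ (S.X γ)) = 0 ∧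
      ns (gg κ κ (S.X γ)) = 2 * S.s γ i0 ^ 2 + 2 * ((S.s γ i0)⁻¹) ^ 2 + 2 * m) := by
    intro γ
    by_cases hγ : S.s γ i0 < S.s γ i1
    · obtain ⟨κ, a1, a2, a3, a4, a5, a6⟩ := gaugeP S h1 h2 h4 k1 k2 k3 hrel hp hN h3 hi0 hi1 T.b γ (hone γ) hb hγ
      exact ⟨κ, a1, a2, fun _ => ⟨⟨a3, a4⟩, a5, a6⟩⟩
    · obtain ⟨κ, a1, a2⟩ := any_kap_v3 (m := m) (b := T.b) (i0 := i0) (a := 2 * p - 2)
        (fun k => (hb k).trans (by constructor <;> intro h5 <;> omega)) (by omega)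
      exact ⟨κ, a1, a2, fun h => absurd h hγ⟩
  choose κ u1 u2 u3 using hex
  have hmid := mid_v3 (S := S) h2 h4 hp hN hi0 T hb
  -- bounds on the regions
  have hbd : ∀ n, ∃ K : ℝ, 1 ≤ K ∧ ∀ γ ∈ T.W n, S.s γ i0 ≤ K := by
    intro n
    obtain ⟨K, hK⟩ := T.cpt n
    exact ⟨max K 1, le_max_right _ _, fun γ hγ => ((hmid γ).2.2 K (hK γ hγ)).trans (le_max_left _ _)⟩
  have hent : ∀ (K : ℝ), 1 ≤ K → ∀ γ, S.s γ i0 ≤ K → ∀ i j, ‖gg (κ γ) (κ γ) (S.X γ) i j‖ ≤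
      Fintype.card (Bk T.b i0) * (Fintype.card (Bk T.b i0) * (1 * K) * 1) := by
    intro K hK1 γ hγK
    have b1 : ∀ i j, ‖(κ γ) i j‖ ≤ 1 := ent_one_v3 (u1 γ)
    have b2 : ∀ i j, ‖(κ γ)ᴴ i j‖ ≤ 1 := by
      intro i j
      rw [conjTranspose_apply, norm_star]
      exact b1 j i
    have b3 : ∀ i j, ‖res T.b i0 (S.X γ) i j‖ ≤ K := by
      intro i j
      unfold res Sv.X
      rw [submatrix_apply, diagonal_apply]
      split_ifs with hij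
      · rw [norm_inv, Complex.norm_real, Real.norm_of_nonneg (S.pos γ _).le]
        exact ((hmid γ).2.1 _ i.2).trans hγK
      · rw [norm_zero]
        linarith
    exact ent_mul_v3 (by positivity) (ent_mul_v3 zero_le_one b2 b3) b1
  obtain ⟨Ga, hGk, hGg⟩ : ∃ Ga : Gau T i0 (MS m) (fC m), Ga.κ = κ ∧ Ga.good = {γ | S.s γ i0 < S.s γ i1} :=
    ⟨{ κ := κ
       u1 := u1
       u2 := u2
       good := {γ | S.s γ i0 < S.s γ i1}
       hgood := hgood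
       hX := fun γ hγ => (u3 γ hγ).2.1
       hXb := by
         intro n
         obtain ⟨K, hK1, hK⟩ := hbd n
         refine ⟨Fintype.card (Bk T.b i0) * (Fintype.card (Bk T.b i0) * (1 * K) * 1), 1, one_pos,
           fun γ hW hγ => ⟨1, one_ne_zero, ?_⟩⟩
         rw [one_smul]
         exact ⟨(u3 γ hγ).2.1, hent K hK1 γ (hK γ hW), (det_v3 (u3 γ hγ).2.1).ge⟩
       hC := fun g h n => p_close h1 h2 h4 k1 k2 k3 hp hN hi0 hi1 T hb hgood κ u1 u2 (fun γ hγ => (u3 γ hγ).1) g h n },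
      rfl, rfl⟩
  have hc3 : ∀ γ, 0 < (S.s γ i0 + (S.s γ i0)⁻¹) / 2 := by
    intro γ
    have := S.pos γ i0
    positivity
  have hXX : ∀ γ ∈ Ga.good, Ga.XX γ ∈ HH (fC m) ∧ (ns (Ga.XX γ) - 2 * m + 4) / 8 = ((S.s γ i0 + (S.s γ i0)⁻¹) / 2) ^ 2 := by
    intro γ hγ
    rw [hGg] at hγ
    unfold Gau.XX
    rw [hGk]
    refine ⟨⟨(u3 γ hγ).2.1, ?_⟩, ?_⟩
    · intro h
      have h5 := det_v3 (u3 γ hγ).2.1
      rw [h, norm_zero] at h5
      exact zero_ne_one h5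
    · rw [(u3 γ hγ).2.2]
      have h5 : S.s γ i0 * (S.s γ i0)⁻¹ = 1 := mul_inv_cancel₀ (S.pos γ i0).ne'
      linear_combination (-(1 : ℝ) / 2) * h5
  have hc2 : ∀ γ, S.s γ i0 / 2 ≤ (S.s γ i0 + (S.s γ i0)⁻¹) / 2 := by
    intro γ
    have := inv_nonneg.2 (S.pos γ i0).le
    linarith
  refine hsr_of_gau Ga (fC_isG m) (fun A hA => det_v3 hA.1) fun n0 ε hε => ?_
  obtain ⟨K0, hK01, hK0⟩ := hbd n0
  have hmin : 0 < min ε ε0 := lt_min hε hε0
  obtain ⟨s, hs, L, i1', i2', i3', Mo, a1, a2, a3⟩ := ub_model m hmin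
    (Fintype.card (Bk T.b i0) * (Fintype.card (Bk T.b i0) * (1 * K0) * 1))
  refine ⟨L, i1', i2', i3', Mo, fun A hA => ?_, fun γ hγ hW => ?_, fun δ hδ => ?_⟩
  · obtain ⟨b1, b2⟩ := a1 A hA
    have h5 := min_le_right ε ε0
    exact ⟨b1.trans (by linarith), b2.trans (by linarith)⟩
  · have hXH := (hXX γ hγ).1
    have h6 : ∀ i j, ‖Ga.XX γ i j‖ ≤ Fintype.card (Bk T.b i0) * (Fintype.card (Bk T.b i0) * (1 * K0) * 1) := by
      intro i j
      have := hent K0 hK01 γ (hK0 γ hW) i j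
      unfold Gau.XX
      rw [hGk]
      exact this
    obtain ⟨b1, b2⟩ := a2 _ hXH h6
    exact ⟨b1.trans (min_le_left _ _), b2.trans (min_le_left _ _)⟩
  · obtain ⟨C, hC⟩ := rpow_dec_v3 hs hδ
    obtain ⟨n, hn⟩ := hout C
    refine ⟨n, fun γ hγ hW => ?_⟩
    have h5 : C < S.s γ i0 := by
      by_contra h6
      push Not at h6
      exact hW (hn γ h6)
    obtain ⟨hXH, h7⟩ := hXX γ hγ
    rw [a3 _ hXH, h7, Complex.norm_real, Real.norm_of_nonneg (Real.rpow_nonneg (sq_nonneg _) _)]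
    refine hC _ ?_
    have := hc2 γ
    linarith

end Pool.Agent.Helper84.CH
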